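import Pool.Agent.Work.MP_e97a4d_nt.UE.Defs
import Pool.Agent.Work.UP.Defs

/-!
# CT/RDefs: covers of tori with split boundary (FIXED, do not edit)

Let `v` be a point of `V`, `Z` its closure and `L` a finite extension of the residue field of `v` (the
function field of `Z`).
-/

set_option autoImplicit false

noncomputable section

namespace Pool.Agent.Work.MP_e97a4d_nt.CT

open AlgebraicGeometry CategoryTheory NumberField
open Pool.Agent.Work.UP UE

/-- The valuation `ν` of the field `L` extends the degree in the direction `ξ`: for every Laurent
polynomial `p` in the `w l` with coefficients in `K`, not all zero, `ν p` is the largest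
`exp (∑ l, e l * ξ l)` for the exponents `e` of `p`. -/
def ExtendsDeg {L : Type} [Field L] (K : Set L) {k : ℕ} (w : Fin k → L) (ξ : Fin k → ℝ)
    (ν : Valuation L NNReal) : Prop :=
  ∀ p : (Fin k → ℤ) →₀ L, p ≠ 0 → (∀ e, p e ∈ K) →
    IsGreatest ((fun e : Fin k → ℤ => Real.exp (∑ l, (e l : ℝ) * ξ l)) ''
      (p.support : Set (Fin k → ℤ))) (ν (p.sum fun e a => a * mon w e) : ℝ)

variable {F₀ : Type} [Field F₀]

/-- Some invertible functions `w 0, ..., w (k-1)` of the cover with function field `L` are a transcendence
basis of `L` (so the cover is, generically, a finite ramified cover of a torus), and, if `k ≥ 2`,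
among any nonzero vectors `ξ i` with sum zero there is one for which the degree in the direction `ξ i`
has two different extensions to `L` (the boundary of the cover splits over the corresponding boundary
divisor of the torus). -/
def SplitBoundary {V : Scheme.{0}} (π : V ⟶ Spec (CommRingCat.of (𝓞 F₀))) (v : V) (L : Type)
    [Field L] [Algebra (V.residueField v) L] : Prop :=
  ∃ (k : ℕ) (w : Fin k → L), (∀ l, w l ∈ unitsAt v L) ∧ IsTranscendenceBasis ℤ w ∧
    (2 ≤ k → ∀ (s : ℕ) (ξ : Fin s → Fin k → ℝ), 0 < s → (∀ i, ξ i ≠ 0) → ∑ i, ξ i = 0 →
      ∃ (i : Fin s) (ν ν' : Valuation L NNReal), ν ≠ ν' ∧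
        ExtendsDeg (constAt π v L) w (ξ i) ν ∧ ExtendsDeg (constAt π v L) w (ξ i) ν')

/-- Every integral closed subscheme of the generic fibre of `V` which is not contained in `V'` (the closure
of a point `v`) is swept out by images of the multiplicative group (some complex point of `V` over `v`
lies on such an image), or it has a finite etale cover (of normalizations, with function field `L`) such
that its functions are rational expressions in constants and invertible functions on the cover, or
such that the cover is a ramified cover of a torus with split boundary. -/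
def CoverGen (σ : F₀ →+* ℂ) {V V' : Scheme.{0}} (π : V ⟶ Spec (CommRingCat.of (𝓞 F₀)))
    (i : V' ⟶ V) : Prop :=
  ∀ v : V, v ∉ Set.range i → Function.Injective (strAt π v) →
    (∃ p ∈ gmPoints σ π, p (⊥ : PrimeSpectrum ℂ) = v) ∨
      ∃ (L : Type) (_ : Field L) (_ : Algebra (V.residueField v) L),
        FiniteDimensional (V.residueField v) L ∧ EtaleAt v L ∧
          ((∀ ξ : V.residueField v, algebraMap (V.residueField v) L ξ ∈
            Subfield.closure (unitsAt v L ∪ constAt π v L)) ∨ SplitBoundary π v L)

end Pool.Agent.Work.MP_e97a4d_nt.CT
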