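import Pool.Agent.Work.MP_e97a4d_nt.CT.RDefs

/-!
# CT/SDefs: covers of tori with split boundary, relative form (FIXED, do not edit)

Let `v` be a point of `V`, `Z` its closure and `L` a finite extension of the residue field of `v` (the
function field of `Z`).
-/

set_option autoImplicit false

noncomputable section

namespace Pool.Agent.Work.MP_e97a4d_nt.CT

open AlgebraicGeometry CategoryTheory NumberField
open Pool.Agent.Work.UP UE

/-- The closure of the set of the values of `z 0, ..., z (m-1)` in the torus `𝔾_m ^ m` has a finite stabilizer:
for every one-parameter subgroup `ξ ≠ 0` of the torus there is a relation `∑ e, p e * z ^ e = 0` with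
coefficients in `K` whose part of some weight `c` is not a relation. -/
def FinStab {L : Type} [Field L] (K : Set L) {m : ℕ} (z : Fin m → L) : Prop :=
  ∀ ξ : Fin m → ℤ, ξ ≠ 0 → ∃ (p : (Fin m → ℤ) →₀ L) (c : ℤ), (∀ e, p e ∈ K) ∧
    (p.sum fun e a => a * mon z e) = 0 ∧
      ((p.filter fun e => ∑ l, e l * ξ l = c).sum fun e a => a * mon z e) ≠ 0

/-- The elements of `L` which are algebraic over the ring generated by the `z l`. -/
def algOver {L : Type} [Field L] {m : ℕ} (z : Fin m → L) : Set L :=
  {x | IsAlgebraic (Algebra.adjoin ℤ (Set.range z)) x}

/-- Some invertible functions `w 0, ..., w (k-1)` of the cover with function field `L` are a transcendence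
basis of `L` over the ring generated by the `z l`, and, if `k ≥ 2`, among any nonzero vectors `ξ i` with
sum zero there is one for which the degree in the direction `ξ i` has two different extensions
to `L`. -/
def SplitOver {V : Scheme.{0}} (v : V) (L : Type) [Field L] [Algebra (V.residueField v) L] {m : ℕ}
    (z : Fin m → L) : Prop :=
  ∃ (k : ℕ) (w : Fin k → L), (∀ l, w l ∈ unitsAt v L) ∧
    IsTranscendenceBasis (Algebra.adjoin ℤ (Set.range z)) w ∧
    (2 ≤ k → ∀ (s : ℕ) (ξ : Fin s → Fin k → ℝ), 0 < s → (∀ i, ξ i ≠ 0) → ∑ i, ξ i = 0 →
      ∃ (i : Fin s) (ν ν' : Valuation L NNReal), ν ≠ ν' ∧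
        ExtendsDeg (algOver z) w (ξ i) ν ∧ ExtendsDeg (algOver z) w (ξ i) ν')

variable {F₀ : Type} [Field F₀]

/-- Every integral closed subscheme `Z` of the generic fibre of `V` which is not contained in `V'` (the closure
of a point `v`) is swept out by images of the multiplicative group (some complex point of `V` over `v`
lies on such an image), or it has a finite etale cover (of normalizations, with function field `L`)
and finitely many invertible functions `z l` on the cover whose set of values has a finite stabilizer, such that
the functions on `Z` are rational expressions in invertible functions on the cover and functions algebraic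
over the `z l`, or such that the cover is a ramified cover of a torus over the `z l`, with split
boundary. -/
def ToricGen (σ : F₀ →+* ℂ) {V V' : Scheme.{0}} (π : V ⟶ Spec (CommRingCat.of (𝓞 F₀)))
    (i : V' ⟶ V) : Prop :=
  ∀ v : V, v ∉ Set.range i → Function.Injective (strAt π v) →
    (∃ p ∈ gmPoints σ π, p (⊥ : PrimeSpectrum ℂ) = v) ∨
      ∃ (L : Type) (_ : Field L) (_ : Algebra (V.residueField v) L),
        FiniteDimensional (V.residueField v) L ∧ EtaleAt v L ∧
          ∃ (m : ℕ) (z : Fin m → L), (∀ l, z l ∈ unitsAt v L) ∧ FinStab (constAt π v L) z ∧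
            ((∀ ξ : V.residueField v, algebraMap (V.residueField v) L ξ ∈
              Subfield.closure (unitsAt v L ∪ algOver z)) ∨ SplitOver v L z)

end Pool.Agent.Work.MP_e97a4d_nt.CT
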