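import Pool.Agent.Work.MP_e97a4d_nt.CT.ODefs
import Pool.Agent.Work.MP_e97a4d_nt.UE.PointV

/-!
# CT/FinP (size M-L): points whose coordinates are generated by units, finiteness

`T` is an infinite set of points `P y` over `F` of the chart `b`, integral outside `S` and not in `V'`; for the
hyperfilter of `T` all coordinate germs are in the field `UF` generated by constants and units (over finite
extensions). Contradiction. This is the last part of the proof of `condII_of_unitGen` in UE/PointV (from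
`exists_frac` on), with the number field generated by the fields of the units and the constants.
-/

set_option autoImplicit false

noncomputable section

namespace Pool.Agent.Work.MP_e97a4d_nt.CT

open AlgebraicGeometry CategoryTheory NumberField IsDedekindDomain Filter UE Hyp

variable {F₀ : Type} [Field F₀] {V V' : Scheme.{0}}

open Pool.Agent.Work.UP in
/-- Integral polynomials in units and constants as Laurent polynomials. -/
private def toLq {F : Type} [Field F] (n : ℕ) {r : ℕ} (γ : Fin r → F) :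
    MvPolynomial (Fin n ⊕ Fin r) ℤ →+* Lp F n :=
  MvPolynomial.eval₂Hom (Int.castRingHom (Lp F n))
    (Sum.elim (fun m => AddMonoidAlgebra.single (Pi.single m 1) 1) (fun k => lC (γ k)))

open Pool.Agent.Work.UP in
private theorem evk_toLq {F : Type} [Field F] {n r : ℕ} (γ : Fin r → F) (u : Fin n → Fˣ)
    (q : MvPolynomial (Fin n ⊕ Fin r) ℤ) :
    evk u (toLq n γ q) = MvPolynomial.aeval (Sum.elim (cu u) γ) q := by
  have h : (evk u).comp (toLq n γ) =
      ((MvPolynomial.aeval (Sum.elim (cu u) γ) : MvPolynomial (Fin n ⊕ Fin r) ℤ →ₐ[ℤ] F) :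
        MvPolynomial (Fin n ⊕ Fin r) ℤ →+* F) := by
    apply MvPolynomial.ringHom_ext
    · intro a
      simp
    · intro m
      rw [RingHom.comp_apply, toLq, MvPolynomial.eval₂Hom_X']
      rcases m with m | k
      · simp only [Sum.elim_inl, RingHom.coe_coe, MvPolynomial.aeval_X]
        rw [ev_single, mon_single_one, map_one, one_mul]
      · simp only [Sum.elim_inr, RingHom.coe_coe, MvPolynomial.aeval_X]
        rw [ev_lC, RingHom.id_apply]
  exact RingHom.congr_fun h q

/-- An element of `F` which is, together with its inverse, in the valuation rings outside `S`. -/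
private theorem unit_of_val {F : Type} [Field F] [NumberField F] {S : Finset (HeightOneSpectrum (𝓞 F))}
    {n : ℕ} (U : Fin n → F) (h0 : ∀ m, U m ≠ 0) (h1 : ∀ m, ∀ O ∈ VF F S, U m ∈ O)
    (h2 : ∀ m, ∀ O ∈ VF F S, (U m)⁻¹ ∈ O) :
    Pool.Agent.Work.UP.IsUv S (Pool.Agent.Work.UP.cu (fun m => Units.mk0 (U m) (h0 m))) := by
  intro m
  have hc : Pool.Agent.Work.UP.cu (fun m => Units.mk0 (U m) (h0 m)) m = U m := rfl
  rw [hc]
  have key : ∀ x : F, (∀ O ∈ VF F S, x ∈ O) → ∀ p ∉ S, FinitePlace.mk p x ≤ 1 := by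
    intro x hx p hp
    have h3 : x ∈ (S : Set (HeightOneSpectrum (𝓞 F))).integer F := by
      intro v hv
      have h4 := hx _ ⟨v, hv, rfl⟩
      rw [Valuation.mem_valuationSubring_iff] at h4
      exact h4
    exact (mem_integer_iff S _).1 h3 p hp
  refine ⟨h0 m, fun p hp => ?_⟩
  have e1 := key _ (h1 m) p hp
  have e2 := key _ (h2 m) p hp
  have e3 : FinitePlace.mk p (U m) * FinitePlace.mk p (U m)⁻¹ = 1 := by
    rw [← map_mul, mul_inv_cancel₀ (h0 m), map_one]
  have e4 : (0 : ℝ) ≤ FinitePlace.mk p (U m) := apply_nonneg _ _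
  refine le_antisymm e1 ?_
  rw [← e3]
  exact mul_le_of_le_one_right e4 e2

/-- A unit outside `S` and its inverse are in the valuation rings outside `S`. -/
private theorem val_of_unit {F : Type} [Field F] [NumberField F] {S : Finset (HeightOneSpectrum (𝓞 F))}
    {x : F} (hx : Pool.Agent.Work.UP.IsU S x) (p : HeightOneSpectrum (𝓞 F)) (hp : p ∉ S) :
    x ∈ (p.valuation F).valuationSubring ∧ x⁻¹ ∈ (p.valuation F).valuationSubring := by
  have h1 : x ∈ (S : Set (HeightOneSpectrum (𝓞 F))).integer F :=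
    (mem_integer_iff S _).2 fun p hp => (hx.2 p hp).le
  have h2 : x⁻¹ ∈ (S : Set (HeightOneSpectrum (𝓞 F))).integer F :=
    (mem_integer_iff S _).2 fun p hp => by rw [map_inv₀, hx.2 p hp, inv_one]
  constructor
  · rw [Valuation.mem_valuationSubring_iff]
    exact h1 p hp
  · rw [Valuation.mem_valuationSubring_iff]
    exact h2 p hp

/-- Finitely many number fields and elements of the algebraic closure are in one number field. -/
private theorem exists_field {F : Type} [Field F] [NumberField F] {n r : ℕ}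
    (F₁ : Fin n → IntermediateField F (AlgebraicClosure F)) (hF : ∀ m, NumberField (F₁ m))
    (γ : Fin r → AlgebraicClosure F) :
    ∃ (F' : Type) (_ : Field F') (_ : NumberField F') (ι : F →+* F') (e : F' →+* AlgebraicClosure F)
      (κ : ∀ m, F₁ m →+* F') (g : Fin r → F'),
      (∀ x, e (ι x) = algebraMap F (AlgebraicClosure F) x) ∧
      (∀ m (x : F₁ m), e (κ m x) = (x : AlgebraicClosure F)) ∧ ∀ k, e (g k) = γ k := by
  classical
  have h1 : ∀ m, FiniteDimensional F (F₁ m) := fun m =>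
    Module.Finite.of_restrictScalars_finite ℚ F (F₁ m)
  let E₁ : IntermediateField F (AlgebraicClosure F) := ⨆ m, F₁ m
  let E₂ : IntermediateField F (AlgebraicClosure F) := IntermediateField.adjoin F (Set.range γ)
  have h2 : FiniteDimensional F E₁ := IntermediateField.finiteDimensional_iSup_of_finite
  have h3 : FiniteDimensional F E₂ := by
    apply IntermediateField.finiteDimensional_adjoin
    intro x _
    exact (Algebra.IsAlgebraic.isAlgebraic x).isIntegral
  let E : IntermediateField F (AlgebraicClosure F) := E₁ ⊔ E₂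
  have h4 : FiniteDimensional F E := IntermediateField.finiteDimensional_sup E₁ E₂
  have hm : ∀ m, F₁ m ≤ E := fun m => (le_iSup F₁ m).trans le_sup_left
  have hγ : ∀ k, γ k ∈ E := fun k =>
    (le_sup_right : E₂ ≤ E) (IntermediateField.subset_adjoin F _ ⟨k, rfl⟩)
  exact ⟨E, inferInstance, NumberField.of_module_finite F E, algebraMap F E, E.val.toRingHom,
    fun m => (IntermediateField.inclusion (hm m)).toRingHom, fun k => ⟨γ k, hγ k⟩, fun x => rfl,
    fun m x => rfl, fun k => rfl⟩

theorem fin_p [NumberField F₀] (σ : F₀ →+* ℂ) (π : V ⟶ Spec (CommRingCat.of (𝓞 F₀)))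
    [LocallyOfFiniteType π] [QuasiCompact π] (i : V' ⟶ V) [IsClosedImmersion i]
    (hGm : CondGm σ π i) (𝒜 : Atlas π) (F : Type) [Field F] [NumberField F] [Algebra F₀ F]
    (S : Finset (HeightOneSpectrum (𝓞 F))) (b : 𝒜.β) {T : Type} [Infinite T]
    (P : T → (𝒜.B b →+* F))
    (hPts : ∀ y, Spec.map (CommRingCat.ofHom (P y)) ≫ 𝒜.j b ∈ Pts π i (rhoF F₀ F) (VF F S))
    (hfib : ∀ x₀, {y : T | Spec.map (CommRingCat.ofHom (P y)) ≫ 𝒜.j b = x₀}.Finite)
    (hx : ∀ l : 𝒜.ι b, gMap (hyperfilter T) (algebraMap F (AlgebraicClosure F))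
      ((fun y => P y (𝒜.x b l) : T → F) : Germ (hyperfilter T : Filter T) F) ∈
        UF (F := F) (hyperfilter T)) :
    False := by
  classical
  have := 𝒜.oi b
  have := 𝒜.finι b
  set j := 𝒜.j b with hj
  let 𝒰 : Ultrafilter T := hyperfilter T
  obtain ⟨n, r, u, c, A, D, hu, hc, hAD⟩ := exists_frac {x | IsUG (F := F) 𝒰 x}
    (Set.range (cst 𝒰 (AlgebraicClosure F)))
    (fun l => gMap 𝒰 (algebraMap F (AlgebraicClosure F))
      ((fun y => P y (𝒜.x b l) : T → F) : Germ (𝒰 : Filter T) F)) hx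
  choose F₁ hF₁ S₁ U hU huU using hu
  choose γ₀ hγ₀ using hc
  obtain ⟨F', hF'1, hF'2, ι, e, κ, γ, heι, heκ, heγ⟩ := exists_field F₁ hF₁ γ₀
  let _ : Algebra F₀ F' := (ι.comp (algebraMap F₀ F)).toAlgebra
  choose S₂ hS₂ using fun m => exists_above (κ m) (S₁ m)
  obtain ⟨S₃, hS₃⟩ := exists_above ι S
  set S' : Finset (HeightOneSpectrum (𝓞 F')) := S₃ ∪ Finset.univ.biUnion S₂ with hS'
  have hS'3 : ∀ q ∉ S', q ∉ S₃ := fun q hq h => hq (Finset.mem_union_left _ h)
  have hS'2 : ∀ q ∉ S', ∀ m, q ∉ S₂ m := fun q hq m h =>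
    hq (Finset.mem_union_right _ (Finset.mem_biUnion.2 ⟨m, Finset.mem_univ m, h⟩))
  let E₁ : (T → F') →+* Germ (𝒰 : Filter T) F' := Germ.coeRingHom (𝒰 : Filter T)
  have hE₁ : ∀ f g : T → F', E₁ f = E₁ g ↔ ∀ᶠ y in (𝒰 : Filter T), f y = g y :=
    fun f g => Germ.coe_eq
  have hE₁0 : ∀ f : T → F', E₁ f = 0 ↔ ∀ᶠ y in (𝒰 : Filter T), f y = 0 := fun f => by
    rw [← map_zero E₁, hE₁]
    rfl
  have hE₁ne : ∀ f : T → F', E₁ f ≠ 0 → ∀ᶠ y in (𝒰 : Filter T), f y ≠ 0 := fun f hf => by
    rw [Ne, hE₁0] at hf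
    exact Ultrafilter.eventually_not.2 hf
  let P' : T → (𝒜.B b →+* F') := fun t => ι.comp (P t)
  -- the units
  let w : Fin n → T → F' := fun m y => κ m (U m y)
  have hw0 : ∀ m y, w m y ≠ 0 := fun m y => (map_ne_zero (κ m)).2 (hU m y).1
  have hwval : ∀ y, ∀ m, ∀ O ∈ VF F' S', w m y ∈ O ∧ (w m y)⁻¹ ∈ O := by
    rintro y m _ ⟨q, hq, rfl⟩
    obtain ⟨p, hp, hpq⟩ := hS₂ m q (hS'2 q hq m)
    obtain ⟨h1, h2⟩ := val_of_unit (hU m y) p hp
    refine ⟨hpq _ h1, ?_⟩
    have h3 := hpq _ h2
    rw [map_inv₀] at h3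
    exact h3
  let W : Fin n ⊕ Fin r → (T → F') := Sum.elim w (fun k _ => γ k)
  have hΘW : ∀ s, gMap 𝒰 e (E₁ (W s)) = Sum.elim u c s := by
    rintro (m | k)
    · have h1 : gMap 𝒰 e (E₁ (W (Sum.inl m))) =
          ((fun t => e (κ m (U m t)) : T → AlgebraicClosure F) :
            Germ (𝒰 : Filter T) (AlgebraicClosure F)) := rfl
      rw [h1]
      simp only [heκ]
      exact (huU m).symm
    · have h1 : gMap 𝒰 e (E₁ (W (Sum.inr k))) =
          ((fun _ => e (γ k) : T → AlgebraicClosure F) :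
            Germ (𝒰 : Filter T) (AlgebraicClosure F)) := rfl
      rw [h1]
      simp only [heγ]
      exact hγ₀ k
  have hΘq : ∀ q : MvPolynomial (Fin n ⊕ Fin r) ℤ, MvPolynomial.aeval (Sum.elim u c) q =
      gMap 𝒰 e (E₁ (fun y => MvPolynomial.aeval (fun s => W s y) q)) := by
    intro q
    have h1 : ((MvPolynomial.aeval (Sum.elim u c) :
          MvPolynomial (Fin n ⊕ Fin r) ℤ →ₐ[ℤ] Germ (𝒰 : Filter T) (AlgebraicClosure F)) :
          MvPolynomial (Fin n ⊕ Fin r) ℤ →+* Germ (𝒰 : Filter T) (AlgebraicClosure F)) =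
        (gMap 𝒰 e).comp (E₁.comp (RingHom.pi (fun y => ((MvPolynomial.aeval (fun s => W s y) :
          MvPolynomial (Fin n ⊕ Fin r) ℤ →ₐ[ℤ] F') :
          MvPolynomial (Fin n ⊕ Fin r) ℤ →+* F')))) := by
      apply MvPolynomial.ringHom_ext
      · intro a
        rw [eq_intCast (MvPolynomial.C) a, map_intCast, map_intCast]
      · intro s
        have e1 : (E₁.comp (RingHom.pi (fun y => ((MvPolynomial.aeval (fun s => W s y) :
          MvPolynomial (Fin n ⊕ Fin r) ℤ →ₐ[ℤ] F') :
          MvPolynomial (Fin n ⊕ Fin r) ℤ →+* F')))) (MvPolynomial.X s) = E₁ (W s) := by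
          rw [RingHom.comp_apply]
          congr 1
          funext y
          exact MvPolynomial.aeval_X _ _
        rw [RingHom.comp_apply (gMap 𝒰 e), e1, hΘW]
        exact MvPolynomial.aeval_X _ _
    exact RingHom.congr_fun h1 q
  have hΘx : ∀ l, gMap 𝒰 (algebraMap F (AlgebraicClosure F))
      ((fun y => P y (𝒜.x b l) : T → F) : Germ (𝒰 : Filter T) F) =
        gMap 𝒰 e (E₁ (fun y => P' y (𝒜.x b l))) := by
    intro l
    have h1 : gMap 𝒰 e (E₁ (fun y => P' y (𝒜.x b l))) =
        ((fun t => e (ι (P t (𝒜.x b l))) : T → AlgebraicClosure F) :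
          Germ (𝒰 : Filter T) (AlgebraicClosure F)) := rfl
    rw [h1]
    simp only [heι]
    rfl
  have hinj : Function.Injective (gMap 𝒰 e) := (gMap 𝒰 e).injective
  have hev2 : ∀ᶠ y in (𝒰 : Filter T), ∀ l, MvPolynomial.aeval (fun s => W s y) (D l) ≠ 0 ∧
      P' y (𝒜.x b l) * MvPolynomial.aeval (fun s => W s y) (D l) =
        MvPolynomial.aeval (fun s => W s y) (A l) := by
    rw [Filter.eventually_all]
    intro l
    refine Filter.Eventually.and ?_ ?_
    · refine hE₁ne _ fun h0 => (hAD l).1 ?_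
      rw [hΘq, h0, map_zero]
    · have h1 : E₁ ((fun y => P' y (𝒜.x b l)) *
          (fun y => MvPolynomial.aeval (fun s => W s y) (D l))) =
          E₁ (fun y => MvPolynomial.aeval (fun s => W s y) (A l)) := by
        apply hinj
        rw [map_mul, map_mul, ← hΘq, ← hΘq, ← hΘx]
        exact (hAD l).2
      exact (hE₁ _ _).1 h1
  -- the points over the extension
  have hPts' : ∀ y : T, Spec.map (CommRingCat.ofHom (P' y)) ≫ j ∈
      Pts π i (rhoF F₀ F') (VF F' S') := by
    intro y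
    obtain ⟨g1, g2, g3⟩ := hPts y
    have e0 : Spec.map (CommRingCat.ofHom (P' y)) ≫ j =
        Spec.map (CommRingCat.ofHom ι) ≫ Spec.map (CommRingCat.ofHom (P y)) ≫ j := by
      show Spec.map (CommRingCat.ofHom (ι.comp (P y))) ≫ j = _
      rw [← Category.assoc, ← Spec.map_comp]
      rfl
    rw [e0]
    refine ⟨?_, ?_, ?_⟩
    · rw [Category.assoc, g1, ← Spec.map_comp]
      rfl
    · have h1 : (Spec.map (CommRingCat.ofHom ι) ≫ Spec.map (CommRingCat.ofHom (P y)) ≫ j)
          (⊥ : PrimeSpectrum F') =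
          (Spec.map (CommRingCat.ofHom (P y)) ≫ j) (⊥ : PrimeSpectrum F) := by
        show (Spec.map (CommRingCat.ofHom (P y)) ≫ j)
          (Spec.map (CommRingCat.ofHom ι) (⊥ : PrimeSpectrum F')) = _
        congr 1
        exact Subsingleton.elim (α := PrimeSpectrum F) _ _
      rw [h1]
      exact g2
    · rintro _ ⟨q, hq, rfl⟩
      obtain ⟨p, hpS, hp⟩ := hS₃ q (hS'3 q hq)
      obtain ⟨y', hy'⟩ := g3 _ ⟨p, hpS, rfl⟩
      have hcod : ∀ x : (p.valuation F).valuationSubring, ι x ∈ (q.valuation F').valuationSubring :=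
        fun x => hp x x.2
      refine ⟨Spec.map (CommRingCat.ofHom (((ι.comp
        (algebraMap (p.valuation F).valuationSubring F)).codRestrict
          (q.valuation F').valuationSubring.toSubring hcod))) ≫ y', ?_⟩
      rw [← hy', ← Category.assoc, ← Category.assoc, ← Spec.map_comp, ← Spec.map_comp]
      rfl
  -- almost all points are parametrised by units over the extension
  have hPar : ∀ᶠ y in (𝒰 : Filter T), Spec.map (CommRingCat.ofHom (P' y)) ≫ j ∈
      gen '' Par i 𝒜 F' S' b (fun l => toLq n γ (A l)) (fun l => toLq n γ (D l)) := by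
    filter_upwards [hev2] with y h2
    obtain ⟨z, hz1, hz2, hz3⟩ := int_glue π i F' S' _ (hPts' y)
    refine ⟨z, ⟨hz1, ⟨fun m => Units.mk0 _ (hw0 m y), P' y, unit_of_val _ (fun m => hw0 m y)
      (fun m O hO => (hwval y m O hO).1) (fun m O hO => (hwval y m O hO).2), hz2, fun l => ?_⟩,
      hz3⟩, hz2⟩
    have h3 : ∀ q : MvPolynomial (Fin n ⊕ Fin r) ℤ,
        evk (fun m => Units.mk0 (w m y) (hw0 m y)) (toLq n γ q) =
          MvPolynomial.aeval (fun s => W s y) q := by
      intro q
      rw [evk_toLq]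
      congr 2
      funext s
      rcases s with m | k <;> rfl
    refine ⟨by rw [h3]; exact (h2 l).1, ?_⟩
    rw [h3, h3, eq_div_iff (h2 l).1]
    exact (h2 l).2
  have hfinP := (par_finite σ i hGm 𝒜 F' S' n b (fun l => toLq n γ (A l))
    (fun l => toLq n γ (D l))).image gen
  have hfinT : {y : T | Spec.map (CommRingCat.ofHom (P' y)) ≫ j ∈
      gen '' Par i 𝒜 F' S' b (fun l => toLq n γ (A l)) (fun l => toLq n γ (D l))}.Finite := by
    refine (hfinP.biUnion (t := fun x₀ => {y : T | Spec.map (CommRingCat.ofHom (P' y)) ≫ j = x₀})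
      fun x₀ _ => ?_).subset fun y hy => Set.mem_biUnion hy rfl
    rcases Set.eq_empty_or_nonempty {y : T | Spec.map (CommRingCat.ofHom (P' y)) ≫ j = x₀} with h | h
    · rw [h]
      exact Set.finite_empty
    · obtain ⟨y₀, hy₀⟩ := h
      refine (hfib (Spec.map (CommRingCat.ofHom (P y₀)) ≫ j)).subset fun y hy => ?_
      have h1 : P' y = P' y₀ := map_comp_inj j (Eq.trans hy hy₀.symm)
      have h2 : P y = P y₀ := by
        ext a
        exact ι.injective (RingHom.congr_fun h1 a)
      show Spec.map (CommRingCat.ofHom (P y)) ≫ j = Spec.map (CommRingCat.ofHom (P y₀)) ≫ j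
      rw [h2]
  exact hfinT.notMem_hyperfilter hPar

end Pool.Agent.Work.MP_e97a4d_nt.CT
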