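import Pool.Agent.Work.MP_e97a4d_nt.CT.RedEx

/-!
# CT/GapVal (size M-L): two extensions of the degree give a gap

PROOF of `gap_val`. `ν ≠ ν'`, so there is `f` with `ν f ≠ ν' f`, `f ≠ 0`; by symmetry (`Gap` does not mention
`ν, ν'`) let `ν f > ν' f`. `h2` for `f` gives `p`, `h2` for `f⁻¹` gives `p'`. Put `y₁ := E p * f`,
`y₂ := E p' * f⁻¹`, `q := p * p'`; then `y₁ * y₂ = E q`, all these are nonzero. Put
`δ := log (ν (E p)) + log (ν' (E p'))`, `g := log (ν f) - log (ν' f) > 0`, `μ₁ := log (ν y₁)`,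
`μ₂ := log (ν' y₂)`; so `μ₁ + μ₂ = δ + g`. In the definition of `Gap` take `k = 2`, `y = ![y₁, y₂]`,
`μ = ![μ₁, μ₂]`, `s := {y₁, y₂} ∪ {E (single e (q.coeff e)) | e ∈ q.coeff.support}` (the latter are integral:
values of `E`), `c := g / 4` and
`ρ := min (g / (4 * (D + 1))) (g / (4 * (1 + C)))`, where `D ≥ ∑ l, |e l|` for all `e ∈ q.coeff.support` and
`C := |log (∑ e ∈ q.coeff.support, |a (q.coeff e)|)|`.

`Lev E ξ y₁ μ₁` (in the same way for `y₂`, `ν'`): take `Red E y₁ m R A` from `red_exists`. Let `n` be given.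
`y₁ ^ n = ∑ i, E (A n i) * y₁ ^ i` and `ν (y₁ ^ n) = exp (n μ₁) > 0`, so some term has
`ν (y₁ ^ n) ≤ ν (E (A n i)) * ν y₁ ^ i` (`Valuation.map_sum_le` / `Valuation.exists_...`), in particular
`E (A n i) ≠ 0`; in the same way, as `E (A n i) = ∑ e ∈ support, E (single e (coeff e))`, some exponent `e`
has `ν (E (A n i)) ≤ ν (E (single e (coeff e))) = exp (dg ξ e)` by `h1`. So `n μ₁ ≤ dg ξ e + i μ₁`.

The gap: let `N, h, x` be given. `N (E q) ≤ ∑ e, N (E (single e (q.coeff e))) = ∑ e, a (q.coeff e) * exp (dg x e)`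
(`Nm.add` along the finite sum: induction, the sums of the first terms are in `Subring.closure s`; `Nm.zero`). For an
exponent `e` of `q` there are exponents `e₁` of `p`, `e₂` of `p'` with `e = e₁ + e₂`
(`AddMonoidAlgebra.support_mul`), so `dg ξ e ≤ δ` by `h2` (`Real.le_log_iff_exp_le`). And
`|dg x e - h * dg ξ e| ≤ ρ * h * D`. So `N y₁ * N y₂ = N (E q) ≤ exp (C + h δ + ρ h D)` (the sum of the
`a (q.coeff e)` is at most `exp C` or it is zero; `a (coeff e) ≥ 0` by `Nm.nonneg` and `Nm.mono`). If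
both `N y₁ > exp ((μ₁ - c) h)` and `N y₂ > exp ((μ₂ - c) h)` then
`h (δ + g - 2 c) < C + h δ + ρ h D`, i.e. `h (g / 2) < C + ρ D h ≤ C + (g/4) h`, so `h g / 4 < C`, but
`h ≥ 1 / ρ ≥ 4 (1 + C) / g`. Contradiction.

PROOF of `gap_two`. `DegVal` gives `h1` (`p = single e c`, support `{e}`) and the two inequalities in `h2` (upper
bound part of `IsGreatest`).
-/

set_option autoImplicit false

noncomputable section

namespace Pool.Agent.Work.MP_e97a4d_nt.CT

open Pool.Agent.Work.UP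

variable {K L : Type} [Field K] [Field L] {d : ℕ}

private theorem lp_sum (E : Lp K d →+* L) (q : Lp K d) :
    E q = ∑ e ∈ q.coeff.support, E (AddMonoidAlgebra.single e (q.coeff e)) := by
  conv_lhs => rw [← AddMonoidAlgebra.sum_coeff_single q]
  rw [Finsupp.sum, map_sum]

private theorem dg_add (ξ : Fin d → ℝ) (e e' : Fin d → ℤ) : dg ξ (e + e') = dg ξ e + dg ξ e' := by
  unfold dg
  rw [← Finset.sum_add_distrib]
  refine Finset.sum_congr rfl fun l _ => ?_
  push_cast [Pi.add_apply]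
  ring

private theorem vpos (ν : Valuation L NNReal) {y : L} (hy : y ≠ 0) : 0 < (ν y : ℝ) := by
  have : ν y ≠ 0 := (Valuation.ne_zero_iff ν).2 hy
  exact_mod_cast pos_iff_ne_zero.2 this

private theorem lev_of (E : Lp K d →+* L) (hE : Function.Injective E) (ξ : Fin d → ℝ)
    (ν : Valuation L NNReal)
    (h1 : ∀ (e : Fin d → ℤ) (c : K), c ≠ 0 →
      (ν (E (AddMonoidAlgebra.single e c)) : ℝ) = Real.exp (dg ξ e))
    (y : L) (hy : E.IsIntegralElem y) (hy0 : y ≠ 0) : Lev E ξ y (Real.log (ν y)) := by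
  obtain ⟨m, R, A, hR⟩ := red_exists E hE y hy
  refine ⟨m, R, A, hR, fun n => ?_⟩
  by_contra hcon
  push Not at hcon
  have hyp := vpos ν hy0
  set μ : ℝ := Real.log (ν y) with hμ
  have hexp : (ν y : ℝ) = Real.exp μ := by rw [hμ, Real.exp_log hyp]
  have hlt : ν (y ^ n) < ν (y ^ n) := by
    have hne : ν (y ^ n) ≠ 0 := (Valuation.ne_zero_iff ν).2 (pow_ne_zero _ hy0)
    conv_lhs => rw [hR.eq n]
    refine Valuation.map_sum_lt ν hne fun i _ => ?_
    have key : ν (E (A n i)) < Real.toNNReal (Real.exp (((n : ℝ) - ((i : ℕ) : ℝ)) * μ)) := by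
      rw [lp_sum E (A n i)]
      refine Valuation.map_sum_lt ν ?_ fun e he => ?_
      · have := Real.exp_pos (((n : ℝ) - ((i : ℕ) : ℝ)) * μ)
        exact (Real.toNNReal_pos.2 this).ne'
      · rw [← NNReal.coe_lt_coe, h1 e _ (Finsupp.mem_support_iff.1 he),
          Real.coe_toNNReal _ (Real.exp_pos _).le]
        exact Real.exp_lt_exp.2 (hcon i e he)
    rw [map_mul, map_pow, map_pow]
    rw [← NNReal.coe_lt_coe] at key ⊢
    rw [Real.coe_toNNReal _ (Real.exp_pos _).le] at key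
    push_cast
    rw [hexp]
    calc (ν (E (A n i)) : ℝ) * Real.exp μ ^ (i : ℕ)
        < Real.exp (((n : ℝ) - ((i : ℕ) : ℝ)) * μ) * Real.exp μ ^ (i : ℕ) :=
          mul_lt_mul_of_pos_right key (pow_pos (Real.exp_pos _) _)
      _ = Real.exp μ ^ n := by
          rw [← Real.exp_nat_mul, ← Real.exp_nat_mul, ← Real.exp_add]
          congr 1
          ring
  exact lt_irrefl _ hlt

private theorem gap_aux (E : Lp K d →+* L) (hE : Function.Injective E) (a : K → ℝ) (ξ : Fin d → ℝ)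
    (ν ν' : Valuation L NNReal)
    (h1 : ∀ (e : Fin d → ℤ) (c : K), c ≠ 0 →
      (ν (E (AddMonoidAlgebra.single e c)) : ℝ) = Real.exp (dg ξ e))
    (h1' : ∀ (e : Fin d → ℤ) (c : K), c ≠ 0 →
      (ν' (E (AddMonoidAlgebra.single e c)) : ℝ) = Real.exp (dg ξ e))
    (h2 : ∀ f : L, f ≠ 0 → ∃ p : Lp K d, p ≠ 0 ∧ E.IsIntegralElem (E p * f) ∧
      (∀ e ∈ p.coeff.support, Real.exp (dg ξ e) ≤ (ν (E p) : ℝ)) ∧
      (∀ e ∈ p.coeff.support, Real.exp (dg ξ e) ≤ (ν' (E p) : ℝ)))
    (f : L) (hf : f ≠ 0) (hlt : ν' f < ν f) :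
    Gap E a ξ := by
  classical
  obtain ⟨p, hp0, hpi, hpν, -⟩ := h2 f hf
  obtain ⟨p', hp0', hpi', -, hpν'⟩ := h2 f⁻¹ (inv_ne_zero hf)
  have hEp : E p ≠ 0 := fun h => hp0 (hE (by rw [h, map_zero]))
  have hEp' : E p' ≠ 0 := fun h => hp0' (hE (by rw [h, map_zero]))
  set y₁ : L := E p * f with hy₁
  set y₂ : L := E p' * f⁻¹ with hy₂
  have hy₁0 : y₁ ≠ 0 := mul_ne_zero hEp hf
  have hy₂0 : y₂ ≠ 0 := mul_ne_zero hEp' (inv_ne_zero hf)
  set q : Lp K d := p * p' with hq
  have hyy : y₁ * y₂ = E q := by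
    rw [hy₁, hy₂, hq, map_mul]
    field_simp
  set δ : ℝ := Real.log (ν (E p)) + Real.log (ν' (E p')) with hδ
  set g : ℝ := Real.log (ν f) - Real.log (ν' f) with hg
  have hgpos : 0 < g := by
    rw [hg, sub_pos]
    exact Real.log_lt_log (vpos ν' hf) (by exact_mod_cast hlt)
  set μ₁ : ℝ := Real.log (ν y₁) with hμ₁
  set μ₂ : ℝ := Real.log (ν' y₂) with hμ₂
  have hμμ : μ₁ + μ₂ = δ + g := by
    have e1 : μ₁ = Real.log (ν (E p)) + Real.log (ν f) := by
      rw [hμ₁, hy₁, map_mul, NNReal.coe_mul, Real.log_mul (vpos ν hEp).ne' (vpos ν hf).ne']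
    have e2 : μ₂ = Real.log (ν' (E p')) - Real.log (ν' f) := by
      rw [hμ₂, hy₂, map_mul, map_inv₀, NNReal.coe_mul, NNReal.coe_inv,
        Real.log_mul (vpos ν' hEp').ne' (inv_ne_zero (vpos ν' hf).ne'), Real.log_inv]
      ring
    rw [e1, e2, hδ, hg]
    ring
  set D : ℝ := ∑ e ∈ q.coeff.support, ∑ l, |((e l : ℤ) : ℝ)| with hD
  have hD0 : 0 ≤ D := Finset.sum_nonneg fun e _ => Finset.sum_nonneg fun l _ => abs_nonneg _
  have hDle : ∀ e ∈ q.coeff.support, ∑ l, |((e l : ℤ) : ℝ)| ≤ D := fun e he =>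
    Finset.single_le_sum (f := fun e : Fin d → ℤ => ∑ l, |((e l : ℤ) : ℝ)|)
      (fun e _ => Finset.sum_nonneg fun l _ => abs_nonneg _) he
  set Cs : ℝ := ∑ e ∈ q.coeff.support, |a (q.coeff e)| with hCs
  have hCs0 : 0 ≤ Cs := Finset.sum_nonneg fun e _ => abs_nonneg _
  set C : ℝ := |Real.log Cs| with hC
  have hC0 : 0 ≤ C := abs_nonneg _
  have hCsC : Cs ≤ Real.exp C := by
    rcases hCs0.eq_or_lt with h | h
    · rw [← h]
      exact (Real.exp_pos _).le
    · calc Cs = Real.exp (Real.log Cs) := (Real.exp_log h).symm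
        _ ≤ Real.exp C := Real.exp_le_exp.2 (le_abs_self _)
  set ρ : ℝ := min (g / (4 * (D + 1))) (g / (4 * (1 + C))) with hρ
  have hρpos : 0 < ρ := lt_min (by positivity) (by positivity)
  refine ⟨2, ![y₁, y₂], ![μ₁, μ₂], g / 4, ρ,
    {y₁, y₂} ∪ q.coeff.support.image (fun e => E (AddMonoidAlgebra.single e (q.coeff e))),
    by positivity, hρpos, ?_, ?_, ?_⟩
  · intro j
    fin_cases j
    · exact lev_of E hE ξ ν h1 y₁ hpi hy₁0
    · exact lev_of E hE ξ ν' h1' y₂ hpi' hy₂0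
  · intro z hz
    rw [Finset.mem_union, Finset.mem_insert, Finset.mem_singleton, Finset.mem_image] at hz
    rcases hz with (rfl | rfl) | ⟨e, -, rfl⟩
    · exact hpi
    · exact hpi'
    · exact E.isIntegralElem_map
  · intro N h x hN hh hx
    set s : Finset L := {y₁, y₂} ∪ q.coeff.support.image
      (fun e => E (AddMonoidAlgebra.single e (q.coeff e))) with hs
    by_contra hcon
    push Not at hcon
    have c1 : Real.exp ((μ₁ - g / 4) * h) < N y₁ := hcon 0
    have c2 : Real.exp ((μ₂ - g / 4) * h) < N y₂ := hcon 1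
    have hhpos : 0 < h := lt_of_lt_of_le (by positivity) hh
    have my₁ : y₁ ∈ Subring.closure (s : Set L) := Subring.subset_closure (by simp [hs])
    have my₂ : y₂ ∈ Subring.closure (s : Set L) := Subring.subset_closure (by simp [hs])
    have ms : ∀ e ∈ q.coeff.support, E (AddMonoidAlgebra.single e (q.coeff e)) ∈ (s : Set L) := by
      intro e he
      rw [Finset.mem_coe, hs, Finset.mem_union]
      exact Or.inr (Finset.mem_image.2 ⟨e, he, rfl⟩)
    have hsumle : ∀ t : Finset (Fin d → ℤ), t ⊆ q.coeff.support →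
        N (∑ e ∈ t, E (AddMonoidAlgebra.single e (q.coeff e))) ≤
          ∑ e ∈ t, N (E (AddMonoidAlgebra.single e (q.coeff e))) := by
      intro t
      induction t using Finset.induction_on with
      | empty =>
        intro _
        rw [Finset.sum_empty, Finset.sum_empty, hN.zero]
      | insert b t hb ih =>
        intro ht
        rw [Finset.sum_insert hb, Finset.sum_insert hb]
        have hbm : b ∈ q.coeff.support := ht (Finset.mem_insert_self _ _)
        have htm : t ⊆ q.coeff.support := fun z hz => ht (Finset.mem_insert_of_mem hz)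
        refine (hN.add _ (Subring.subset_closure (ms b hbm)) _
          (Subring.sum_mem _ fun e he => Subring.subset_closure (ms e (htm he)))).trans ?_
        exact add_le_add le_rfl (ih htm)
    have hterm : ∀ e ∈ q.coeff.support, N (E (AddMonoidAlgebra.single e (q.coeff e))) ≤
        |a (q.coeff e)| * Real.exp (h * δ + ρ * h * D) := by
      intro e he
      rw [hN.mono _ _ (ms e he)]
      have hdgle : dg ξ e ≤ δ := by
        have hmem : e ∈ (p * p').coeff.support := he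
        obtain ⟨e₁, he₁, e₂, he₂, rfl⟩ := Finset.mem_add.1 (AddMonoidAlgebra.support_coeff_mul_subset p p' hmem)
        rw [dg_add, hδ]
        refine add_le_add ?_ ?_
        · exact (Real.le_log_iff_exp_le (vpos ν hEp)).2 (hpν e₁ he₁)
        · exact (Real.le_log_iff_exp_le (vpos ν' hEp')).2 (hpν' e₂ he₂)
      have hdiff : |dg x e - h * dg ξ e| ≤ ρ * h * D := by
        have e1 : dg x e - h * dg ξ e = ∑ l, ((e l : ℤ) : ℝ) * (x l - h * ξ l) := by
          unfold dg
          rw [Finset.mul_sum, ← Finset.sum_sub_distrib]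
          refine Finset.sum_congr rfl fun l _ => ?_
          ring
        rw [e1]
        calc |∑ l, ((e l : ℤ) : ℝ) * (x l - h * ξ l)|
            ≤ ∑ l, |((e l : ℤ) : ℝ) * (x l - h * ξ l)| := Finset.abs_sum_le_sum_abs _ _
          _ ≤ ∑ l, |((e l : ℤ) : ℝ)| * (ρ * h) := by
              refine Finset.sum_le_sum fun l _ => ?_
              rw [abs_mul]
              exact mul_le_mul_of_nonneg_left (hx l) (abs_nonneg _)
          _ = (∑ l, |((e l : ℤ) : ℝ)|) * (ρ * h) := by rw [Finset.sum_mul]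
          _ ≤ D * (ρ * h) := mul_le_mul_of_nonneg_right (hDle e he) (by positivity)
          _ = ρ * h * D := by ring
      have hle : dg x e ≤ h * δ + ρ * h * D := by
        have := (abs_le.1 hdiff).2
        have h3 : h * dg ξ e ≤ h * δ := mul_le_mul_of_nonneg_left hdgle hhpos.le
        linarith
      exact mul_le_mul (le_abs_self _) (Real.exp_le_exp.2 hle) (Real.exp_pos _).le (abs_nonneg _)
    have hprod : N y₁ * N y₂ ≤ Real.exp (C + (h * δ + ρ * h * D)) := by
      rw [← hN.mul y₁ my₁ y₂ my₂, hyy, lp_sum E q]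
      refine (hsumle _ (Finset.Subset.refl _)).trans ((Finset.sum_le_sum hterm).trans ?_)
      rw [← Finset.sum_mul, Real.exp_add C]
      exact mul_le_mul_of_nonneg_right hCsC (Real.exp_pos _).le
    have hlow : Real.exp ((δ + g / 2) * h) < N y₁ * N y₂ := by
      have : Real.exp ((δ + g / 2) * h) =
          Real.exp ((μ₁ - g / 4) * h) * Real.exp ((μ₂ - g / 4) * h) := by
        rw [← Real.exp_add]
        congr 1
        have : δ + g / 2 = (μ₁ + μ₂) - g / 2 := by rw [hμμ]; ring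
        rw [this]
        ring
      rw [this]
      exact mul_lt_mul'' c1 c2 (Real.exp_pos _).le (Real.exp_pos _).le
    have hfin : (δ + g / 2) * h < C + (h * δ + ρ * h * D) :=
      Real.exp_lt_exp.1 (hlow.trans_le hprod)
    have hρD : ρ * D ≤ g / 4 := by
      have h3 : ρ ≤ g / (4 * (D + 1)) := min_le_left _ _
      calc ρ * D ≤ g / (4 * (D + 1)) * D := mul_le_mul_of_nonneg_right h3 hD0
        _ = g / 4 * (D / (D + 1)) := by field_simp
        _ ≤ g / 4 * 1 := by
            refine mul_le_mul_of_nonneg_left ?_ (by positivity)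
            rw [div_le_one (by positivity)]
            linarith
        _ = g / 4 := mul_one _
    have hρC : g * (1 / ρ) ≥ 4 * (1 + C) := by
      have h3 : ρ ≤ g / (4 * (1 + C)) := min_le_right _ _
      have h4 : ρ * (4 * (1 + C)) ≤ g := by
        rwa [le_div_iff₀ (by positivity)] at h3
      rw [ge_iff_le, mul_one_div, le_div_iff₀ hρpos]
      linarith
    have h5 : g * h ≥ 4 * (1 + C) := hρC.le.trans (mul_le_mul_of_nonneg_left hh hgpos.le)
    have h6 : ρ * h * D ≤ g / 4 * h := by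
      calc ρ * h * D = (ρ * D) * h := by ring
        _ ≤ g / 4 * h := mul_le_mul_of_nonneg_right hρD hhpos.le
    nlinarith

theorem gap_val (E : Lp K d →+* L) (hE : Function.Injective E) (a : K → ℝ) (ξ : Fin d → ℝ)
    (ν ν' : Valuation L NNReal) (hne : ν ≠ ν')
    (h1 : ∀ (e : Fin d → ℤ) (c : K), c ≠ 0 →
      (ν (E (AddMonoidAlgebra.single e c)) : ℝ) = Real.exp (dg ξ e))
    (h1' : ∀ (e : Fin d → ℤ) (c : K), c ≠ 0 →
      (ν' (E (AddMonoidAlgebra.single e c)) : ℝ) = Real.exp (dg ξ e))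
    (h2 : ∀ f : L, f ≠ 0 → ∃ p : Lp K d, p ≠ 0 ∧ E.IsIntegralElem (E p * f) ∧
      (∀ e ∈ p.coeff.support, Real.exp (dg ξ e) ≤ (ν (E p) : ℝ)) ∧
      (∀ e ∈ p.coeff.support, Real.exp (dg ξ e) ≤ (ν' (E p) : ℝ))) :
    Gap E a ξ := by
  obtain ⟨f, hf⟩ : ∃ f, ν f ≠ ν' f := by
    by_contra hcon
    push Not at hcon
    exact hne (Valuation.ext hcon)
  have hf0 : f ≠ 0 := by
    rintro rfl
    exact hf (by rw [map_zero, map_zero])
  rcases lt_or_gt_of_ne hf with h | h
  · exact gap_aux E hE a ξ ν' ν h1' h1 (fun f hf => by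
      obtain ⟨p, hp0, hpi, ha, hb⟩ := h2 f hf
      exact ⟨p, hp0, hpi, hb, ha⟩) f hf0 h
  · exact gap_aux E hE a ξ ν ν' h1 h1' h2 f hf0 h

theorem gap_two (E : Lp K d →+* L) (hE : Function.Injective E)
    (hfr : ∀ f : L, ∃ p : Lp K d, p ≠ 0 ∧ E.IsIntegralElem (E p * f)) (a : K → ℝ) (ξ : Fin d → ℝ)
    (h : Two E ξ) : Gap E a ξ := by
  obtain ⟨ν, ν', hne, hν, hν'⟩ := h
  have key : ∀ ν : Valuation L NNReal, DegVal E ξ ν → ∀ (e : Fin d → ℤ) (c : K), c ≠ 0 →
      (ν (E (AddMonoidAlgebra.single e c)) : ℝ) = Real.exp (dg ξ e) := by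
    intro ν hν e c hc
    have hsup : (AddMonoidAlgebra.single e c : Lp K d).coeff.support = {e} := by
      show (Finsupp.single e c).support = {e}
      exact Finsupp.support_single e hc
    have hne : (AddMonoidAlgebra.single e c : Lp K d) ≠ 0 := by
      intro h0
      rw [h0] at hsup
      have h3 : e ∈ ((0 : Lp K d).coeff.support) := by rw [hsup]; exact Finset.mem_singleton_self e
      exact (Finsupp.mem_support_iff.1 h3) rfl
    obtain ⟨e', he', heq⟩ := (hν _ hne).1
    rw [hsup, Finset.coe_singleton, Set.mem_singleton_iff] at he'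
    subst he'
    exact heq.symm
  refine gap_val E hE a ξ ν ν' hne (key ν hν) (key ν' hν') fun f hf => ?_
  obtain ⟨p, hp0, hpi⟩ := hfr f
  refine ⟨p, hp0, hpi, fun e he => ?_, fun e he => ?_⟩
  · exact (hν p hp0).2 ⟨e, he, rfl⟩
  · exact (hν' p hp0).2 ⟨e, he, rfl⟩

end Pool.Agent.Work.MP_e97a4d_nt.CT
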