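import Pool.Agent.Work.MP_e97a4d_nt.CT.PDefs
import Pool.Agent.Work.UP.UBas

/-!
# CT/Dirs (size M): heights tend to infinity; limit directions

PROOF of `ht_tendsto`. Let `B : ℝ`. The set of tuples `u` of `S`-units with `Ht S u ≤ B` is finite: all
`|lg w (u l)| ≤ B` (`mu w ≥ 1`), so `placeAbs w (u l) ≤ exp B` for all `w`, and `u l` is an `S`-integer: Northcott
(`SUnit.exists_placeData`, or the proof of its field `northcott`, or `SUB.isSD_nf`; membership in the ring of
`S`-integers from `FinitePlace.mk p (u l) = 1` for `p ∉ S`, see `mem_integer_iff`). A function with values in a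
finite set is constant almost everywhere (`Ultrafilter.eventually_exists_mem_iff` or
`Ultrafilter.eventually_exists_iff`), which is excluded by `hW'` (a tuple of units which is constant almost
everywhere). So for almost all `τ`, `Ht S (W τ) > B` (`Filter.tendsto_atTop`, `Ultrafilter.eventually_not`).

PROOF of `dirs`. `q τ w l := mu w * lg w (W τ l) / Ht S (W τ)` is in `[-1, 1]` for almost all `τ`
(`|mu w * lg w (W τ l)| ≤ Ht`), so it has a limit `ξ w l` along the ultrafilter (compactness of `[-1, 1]` or of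
`Pl F S → Fin d → [-1, 1]`: `IsCompact.ultrafilter_le_nhds` applied to `𝒰.map q`). The inequality is the
definition of the limit multiplied by `Ht > 0`. `∑ w, mu w * lg w (W τ l) = 0` for all `τ` (product formula for
`S`-units: `isU_inP` in UP/UBas, logarithm), so `∑ w, ξ w l = 0` (limits are unique). And
`∑ w, ∑ l, |q τ w l| = 1`, so `∑ w, ∑ l, |ξ w l| = 1` and not all `ξ w` are zero.
-/

set_option autoImplicit false

noncomputable section

namespace Pool.Agent.Work.MP_e97a4d_nt.CT

open Pool.Agent.Work.UP Pool.Agent.Work NumberField IsDedekindDomain Filter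

private theorem mu_pos {F : Type} [Field F] [NumberField F] (S : Finset (HeightOneSpectrum (𝓞 F)))
    (w : Pl F S) : 0 < mu S w := by
  unfold mu
  rcases w with w | p
  · exact Nat.cast_pos.2 w.mult_pos
  · exact Nat.cast_pos.2 Nat.one_pos

private theorem ht_eq {F : Type} [Field F] [NumberField F] (S : Finset (HeightOneSpectrum (𝓞 F)))
    {d : ℕ} (u : Fin d → Fˣ) (hu : IsUv S (cu u)) :
    Ht S u = ∑ l, 2 * Height.logHeight₁ (u l : F) := by
  unfold Ht
  simp_rw [Finset.mul_sum]
  rw [Finset.sum_comm]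
  refine Finset.sum_congr rfl fun l _ => ?_
  exact sum_abs_log (hu.isU l)

theorem ht_tendsto {F : Type} [Field F] [NumberField F] (S : Finset (HeightOneSpectrum (𝓞 F)))
    {T : Type} (𝒰 : Ultrafilter T) {d : ℕ} (W : T → Fin d → Fˣ) (hW : ∀ τ, IsUv S (cu (W τ)))
    (hW' : ∀ c : Fin d → Fˣ, ¬ ∀ᶠ τ in (𝒰 : Filter T), W τ = c) :
    Tendsto (fun τ => Ht S (W τ)) (𝒰 : Filter T) atTop := by
  rw [Filter.tendsto_atTop]
  intro B
  by_contra hcon
  rw [← Ultrafilter.eventually_not] at hcon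
  have hfin : {u : Fin d → Fˣ | ∀ l, Height.mulHeight₁ (u l : F) ≤ Real.exp B}.Finite := by
    have h1 : {x : Fˣ | Height.mulHeight₁ (x : F) ≤ Real.exp B}.Finite :=
      Set.Finite.preimage (Units.val_injective.injOn)
        (finite_setOfPred_mulHeight₁_le (K := F) (Real.exp B))
    have h2 := Set.Finite.pi' (fun _ : Fin d => h1)
    exact h2.subset fun u hu l => hu l
  have hev : ∀ᶠ τ in (𝒰 : Filter T),
      ∃ c ∈ {u : Fin d → Fˣ | ∀ l, Height.mulHeight₁ (u l : F) ≤ Real.exp B}, W τ = c := by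
    filter_upwards [hcon] with τ hτ
    refine ⟨W τ, fun l => ?_, rfl⟩
    rw [ht_eq S _ (hW τ)] at hτ
    have h0 : ∀ l, 0 ≤ Height.logHeight₁ (W τ l : F) := fun l => Height.zero_le_logHeight₁ _
    have h1 : 2 * Height.logHeight₁ (W τ l : F) ≤ ∑ l, 2 * Height.logHeight₁ (W τ l : F) :=
      Finset.single_le_sum (f := fun l => 2 * Height.logHeight₁ (W τ l : F))
        (fun i _ => mul_nonneg zero_le_two (h0 i)) (Finset.mem_univ l)
    have h2 : Height.logHeight₁ (W τ l : F) ≤ B := by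
      have := h0 l
      linarith [not_le.1 hτ]
    rw [Height.logHeight₁_eq_log_mulHeight₁] at h2
    exact (Real.log_le_iff_le_exp (Height.mulHeight₁_pos _)).1 h2
  rw [Ultrafilter.eventually_exists_mem_iff hfin] at hev
  obtain ⟨c, _, hc⟩ := hev
  exact hW' c hc

private theorem sum_lg {F : Type} [Field F] [NumberField F] (S : Finset (HeightOneSpectrum (𝓞 F)))
    {a : F} (ha : IsU S a) : ∑ w : Pl F S, mu S w * lg S w a = 0 := by
  have h := isU_inP ha
  unfold inP at h
  have h2 := congrArg Real.log h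
  rw [Real.log_one, Real.log_prod] at h2
  · rw [← h2]
    refine Finset.sum_congr rfl fun w _ => ?_
    rw [Real.log_pow]
    rfl
  · intro w _
    exact pow_ne_zero _ ((SUnit.placeAbs F S w).pos ha.1).ne'

theorem dirs {F : Type} [Field F] [NumberField F] (S : Finset (HeightOneSpectrum (𝓞 F)))
    {T : Type} (𝒰 : Ultrafilter T) {d : ℕ} (W : T → Fin d → Fˣ) (hW : ∀ τ, IsUv S (cu (W τ)))
    (hH : Tendsto (fun τ => Ht S (W τ)) (𝒰 : Filter T) atTop) :
    ∃ ξ : Pl F S → Fin d → ℝ, ∑ w, ξ w = 0 ∧ (∃ w, ξ w ≠ 0) ∧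
      ∀ ε : ℝ, 0 < ε → ∀ᶠ τ in (𝒰 : Filter T), ∀ w l,
        |mu S w * lg S w (W τ l : F) - Ht S (W τ) * ξ w l| ≤ ε * Ht S (W τ) := by
  classical
  set q : T → Pl F S → Fin d → ℝ := fun τ w l => mu S w * lg S w (W τ l : F) / Ht S (W τ) with hq
  have hpos : ∀ᶠ τ in (𝒰 : Filter T), 0 < Ht S (W τ) := hH.eventually_gt_atTop 0
  have hsum : ∀ᶠ τ in (𝒰 : Filter T), ∑ w, ∑ l, |q τ w l| = 1 := by
    filter_upwards [hpos] with τ hτ
    have h1 : ∀ w l, |q τ w l| = mu S w * |lg S w (W τ l : F)| / Ht S (W τ) := by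
      intro w l
      simp only [hq]
      rw [abs_div, abs_mul, abs_of_pos (mu_pos S w), abs_of_pos hτ]
    simp_rw [h1, ← Finset.sum_div, ← Finset.mul_sum]
    exact div_self hτ.ne'
  have hK : IsCompact (Set.pi Set.univ (fun _ : Pl F S =>
      Set.pi Set.univ (fun _ : Fin d => Set.Icc (-1 : ℝ) 1))) :=
    isCompact_univ_pi fun _ => isCompact_univ_pi fun _ => isCompact_Icc
  have hmem : ∀ᶠ τ in (𝒰 : Filter T), q τ ∈ Set.pi Set.univ (fun _ : Pl F S =>
      Set.pi Set.univ (fun _ : Fin d => Set.Icc (-1 : ℝ) 1)) := by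
    filter_upwards [hsum] with τ hτ
    intro w _ l _
    show -1 ≤ q τ w l ∧ q τ w l ≤ 1
    rw [← abs_le, ← hτ]
    refine le_trans ?_ (Finset.single_le_sum (f := fun w => ∑ l, |q τ w l|)
      (fun w _ => Finset.sum_nonneg fun l _ => abs_nonneg _) (Finset.mem_univ w))
    exact Finset.single_le_sum (f := fun l => |q τ w l|) (fun l _ => abs_nonneg _)
      (Finset.mem_univ l)
  obtain ⟨ξ, _, hξ⟩ := hK.ultrafilter_le_nhds' (𝒰.map q) hmem
  have hlim : Tendsto q (𝒰 : Filter T) (nhds ξ) := hξ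
  have hco : ∀ w l, Tendsto (fun τ => q τ w l) (𝒰 : Filter T) (nhds (ξ w l)) := by
    intro w l
    exact (tendsto_pi_nhds.1 (tendsto_pi_nhds.1 hlim w) l)
  refine ⟨ξ, ?_, ?_, ?_⟩
  · funext l
    rw [Finset.sum_apply, Pi.zero_apply]
    have h1 : Tendsto (fun τ => ∑ w, q τ w l) (𝒰 : Filter T) (nhds (∑ w, ξ w l)) :=
      tendsto_finsetSum _ fun w _ => hco w l
    have h2 : (fun τ => ∑ w, q τ w l) = fun _ => (0 : ℝ) := by
      funext τ
      simp only [hq]
      rw [← Finset.sum_div]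
      have h3 := sum_lg S ((hW τ).isU l)
      have h4 : ∑ w : Pl F S, mu S w * lg S w (W τ l : F) = 0 := h3
      rw [h4, zero_div]
    rw [h2] at h1
    exact (tendsto_nhds_unique h1 tendsto_const_nhds)
  · by_contra hcon
    push Not at hcon
    have h1 : Tendsto (fun τ => ∑ w, ∑ l, |q τ w l|) (𝒰 : Filter T)
        (nhds (∑ w, ∑ l, |ξ w l|)) :=
      tendsto_finsetSum _ fun w _ => tendsto_finsetSum _ fun l _ => (hco w l).abs
    have h2 : Tendsto (fun τ => ∑ w, ∑ l, |q τ w l|) (𝒰 : Filter T) (nhds 1) :=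
      tendsto_const_nhds.congr' (hsum.mono fun τ h => h.symm)
    have h3 := tendsto_nhds_unique h1 h2
    simp [hcon] at h3
  · intro ε hε
    have h1 : ∀ᶠ τ in (𝒰 : Filter T), ∀ w l, |q τ w l - ξ w l| ≤ ε := by
      rw [Filter.eventually_all]
      intro w
      rw [Filter.eventually_all]
      intro l
      have h2 := (hco w l)
      rw [Metric.tendsto_nhds] at h2
      filter_upwards [h2 ε hε] with τ hτ
      rw [Real.dist_eq] at hτ
      exact hτ.le
    filter_upwards [h1, hpos] with τ hτ hp w l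
    have h3 : mu S w * lg S w (W τ l : F) - Ht S (W τ) * ξ w l =
        (q τ w l - ξ w l) * Ht S (W τ) := by
      simp only [hq]
      field_simp
    rw [h3, abs_mul, abs_of_pos hp]
    exact mul_le_mul_of_nonneg_right (hτ w l) hp.le

end Pool.Agent.Work.MP_e97a4d_nt.CT
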