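import Pool.Agent.Work.MP_e97a4d_nt.CT.PDefs

/-!
# CT/GCon (size M): constants in the ultrapower of a number field

PROOF of `g_const`. For `c : K`, `algebraMap K L c` is a root of a nonzero polynomial `q` over `ℚ`; write
`Θ (algebraMap K L c)` as the germ of `f : T → F` (`Germ.inductionOn`). `q` evaluated at `f` has germ
`Θ (aeval _ q) = 0` (`Polynomial.hom_eval₂`; all ring homomorphisms from `ℚ` agree), so `f τ` is a root of `q` in
`F` for almost all `τ`, a finite set, so `f` is almost everywhere equal to a constant `κ c`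
(`Ultrafilter.eventually_exists_mem_iff` with `Polynomial.finite_setOfPred_isRoot`; compare `hconst` in
UE/PointV). So `Θ (algebraMap K L c)` is in the range of `cst 𝒰 F`, which is injective (a ring homomorphism of
fields; the ultrapower is a field): define `κ` as the composite of `Θ.comp (algebraMap K L)`, corestricted to the
range of `cst 𝒰 F`, with the inverse of the isomorphism of `F` with this range
(`RingHom.codRestrict`, `RingEquiv.ofLeftInverse`, or choose values and check the laws by injectivity).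

PROOF of `g_inj`. Let `e := cst 𝒰 F`, `t' l := Units.map Θ (t l)` and let `p : Lp F d`, `p ≠ 0`, `ev e t' p = 0`.
`Lp F d` is integral over (the image of) `Lp ℚ d` under `ψ := AddMonoidAlgebra.mapRingHom _ (algebraMap ℚ F)`
(this is `lpm (algebraMap ℚ F)`): `single a c = single a 1 * single 0 c`, where `single a 1` is in the image and
`single 0 c` is a root of the image of the minimal polynomial of `c` over `ℚ`; sums of such elements are
integral (`RingHom.IsIntegralElem.add`, induction on `p`: `AddMonoidAlgebra.induction_linear`). `Lp F d` is a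
domain (see UP/LUfd). So `p` is a root of a monic polynomial over `Lp ℚ d`; among these take one of minimal
degree (or use that `p ≠ 0` is regular and divide by `X`): its constant coefficient `q₀` has `ψ q₀ ≠ 0`, and
`p ∣ ψ q₀` in `Lp F d` (`p * (...) = - ψ q₀`). Hence `ev e t' (ψ q₀) = 0`. But
`ev e t' (ψ q₀) = Θ (ev (algebraMap K L) t (lpm (algebraMap ℚ K) q₀))` (`lp_hom_ext`; `K` has characteristic zero
since it embeds in `L`; all homomorphisms from `ℚ` to a field agree; `mon (cu t') a = Θ (mon (cu t) a)`), and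
`Θ`, `hE`, `lpm` of an injective map are injective, so `q₀ = 0`, a contradiction.
-/

set_option autoImplicit false

noncomputable section

namespace Pool.Agent.Work.MP_e97a4d_nt.CT

open Pool.Agent.Work.UP NumberField IsDedekindDomain Filter

/-- Algebraic numbers have constant image in the ultrapower. -/
private theorem g_val {F : Type} [Field F] [CharZero F] {T : Type} (𝒰 : Ultrafilter T) {M : Type}
    [Field M] [CharZero M] (Θ : M →+* Germ (𝒰 : Filter T) F) (c : M)
    (hc : IsAlgebraic ℚ c) : ∃ γ : F, Θ c = cst 𝒰 F γ := by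
  obtain ⟨q, hq0, hq⟩ := hc
  induction hx : Θ c using Germ.inductionOn with | _ f =>
  have h1 : ∀ᶠ τ in (𝒰 : Filter T), ∃ γ ∈ {γ : F |
      (q.map (algebraMap ℚ F)).IsRoot γ}, f τ = γ := by
    have h2 : Θ (Polynomial.aeval c q) = 0 := by rw [hq, map_zero]
    rw [Polynomial.aeval_def, Polynomial.hom_eval₂, hx] at h2
    have h3 : Θ.comp (algebraMap ℚ M) =
        (Germ.coeRingHom (𝒰 : Filter T)).comp ((Pi.constRingHom T F).comp
          (algebraMap ℚ F)) := RingHom.ext_rat _ _
    have h4 : (f : Germ (𝒰 : Filter T) F) = Germ.coeRingHom (𝒰 : Filter T) f := rfl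
    rw [h3, h4, ← Polynomial.hom_eval₂] at h2
    have h5 : (Polynomial.eval₂ ((Pi.constRingHom T F).comp
          (algebraMap ℚ F)) f q : T → F) =ᶠ[(𝒰 : Filter T)] 0 :=
      Germ.coe_eq.1 h2
    filter_upwards [h5] with τ hτ
    refine ⟨f τ, ?_, rfl⟩
    have h6 : (Pi.evalRingHom (fun _ : T => F) τ)
        (Polynomial.eval₂ ((Pi.constRingHom T F).comp
          (algebraMap ℚ F)) f q) = 0 := hτ
    rw [Polynomial.hom_eval₂] at h6
    show (q.map (algebraMap ℚ F)).eval (f τ) = 0
    rw [Polynomial.eval_map]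
    have h7 : (Pi.evalRingHom (fun _ : T => F) τ).comp
        ((Pi.constRingHom T F).comp (algebraMap ℚ F)) =
          algebraMap ℚ F := RingHom.ext_rat _ _
    rw [h7] at h6
    exact h6
  have hq1 : q.map (algebraMap ℚ F) ≠ 0 := by
    rwa [Ne, Polynomial.map_eq_zero]
  rw [Ultrafilter.eventually_exists_mem_iff (Polynomial.finite_setOfPred_isRoot hq1)] at h1
  obtain ⟨γ, -, hγ⟩ := h1
  exact ⟨γ, by rw [cst_apply]; exact Germ.coe_eq.2 hγ⟩

theorem g_const {F : Type} [Field F] [NumberField F] {T : Type} (𝒰 : Ultrafilter T) {K L : Type}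
    [Field K] [Field L] [CharZero L] [Algebra K L] (hK' : ∀ c : K, IsAlgebraic ℚ (algebraMap K L c))
    (Θ : L →+* Germ (𝒰 : Filter T) F) :
    ∃ κ : K →+* F, ∀ c, Θ (algebraMap K L c) = cst 𝒰 F (κ c) := by
  choose κ₀ hκ₀ using fun c : K => g_val 𝒰 Θ (algebraMap K L c) (hK' c)
  have hinj : Function.Injective (cst 𝒰 F) := (cst 𝒰 F).injective
  refine ⟨{ toFun := κ₀
            map_one' := hinj (by rw [← hκ₀]; simp)
            map_mul' := fun a b => hinj (by rw [← hκ₀]; simp [← hκ₀])
            map_zero' := hinj (by rw [← hκ₀]; simp)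
            map_add' := fun a b => hinj (by rw [← hκ₀]; simp [← hκ₀]) }, fun c => hκ₀ c⟩

theorem g_inj {F : Type} [Field F] [NumberField F] {T : Type} (𝒰 : Ultrafilter T) {K L : Type}
    [Field K] [Field L] [CharZero L] [Algebra K L] {d : ℕ} (t : Fin d → Lˣ)
    (hE : Function.Injective (ev (algebraMap K L) t)) (Θ : L →+* Germ (𝒰 : Filter T) F) :
    Function.Injective (ev (cst 𝒰 F) (fun l => Units.map (Θ : L →* Germ (𝒰 : Filter T) F) (t l))) := by
  classical
  set t' : Fin d → (Germ (𝒰 : Filter T) F)ˣ :=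
    fun l => Units.map (Θ : L →* Germ (𝒰 : Filter T) F) (t l) with ht'
  have : CharZero K := (algebraMap K L).charZero
  let ψ : Lp ℚ d →+* Lp F d := lpm (algebraMap ℚ F)
  have hψinj : Function.Injective ψ := by
    rw [injective_iff_map_eq_zero]
    intro p hp
    have h1 : (lpm (algebraMap ℚ F) p).coeff.support = p.coeff.support := lpm_support _ p
    have h2 : (lpm (algebraMap ℚ F) p) = 0 := hp
    rw [h2] at h1
    have h3 : p.coeff = 0 := Finsupp.support_eq_empty.1 (by rw [← h1]; rfl)
    ext e
    rw [h3]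
    rfl
  have hint : ∀ p : Lp F d, ψ.IsIntegralElem p := by
    intro p
    induction p using AddMonoidAlgebra.induction_linear with
    | zero => exact ψ.isIntegralElem_zero
    | add f g hf hg => exact hf.add ψ hg
    | single a c =>
      have h1 : (AddMonoidAlgebra.single a c : Lp F d) =
          ψ (AddMonoidAlgebra.single a 1) * AddMonoidAlgebra.single 0 c := by
        show _ = lpm (algebraMap ℚ F) _ * _
        rw [lpm_single, AddMonoidAlgebra.single_mul_single, map_one, one_mul, add_zero]
      rw [h1]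
      refine RingHom.IsIntegralElem.mul ψ (ψ.isIntegralElem_map) ?_
      have h2 : IsIntegral ℚ c := Algebra.IsIntegral.isIntegral c
      obtain ⟨q, hq, hq0⟩ := h2
      refine ⟨q.map (lC : ℚ →+* Lp ℚ d), hq.map _, ?_⟩
      rw [Polynomial.eval₂_map]
      have h3 : ψ.comp (lC : ℚ →+* Lp ℚ d) = (lC : F →+* Lp F d).comp (algebraMap ℚ F) :=
        RingHom.ext_rat _ _
      rw [h3]
      have h4 : (AddMonoidAlgebra.single 0 c : Lp F d) = (lC : F →+* Lp F d) c := rfl
      rw [h4, ← Polynomial.hom_eval₂, hq0, map_zero]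
  rw [injective_iff_map_eq_zero]
  intro p hp
  by_contra hp0
  letI : Algebra (Lp ℚ d) (Lp F d) := ψ.toAlgebra
  have hdom : IsDomain (Lp F d) := inferInstance
  have halg : IsAlgebraic (Lp ℚ d) p := (show IsIntegral (Lp ℚ d) p from hint p).isAlgebraic
  obtain ⟨r, hr0, hr⟩ := halg.exists_nonzero_dvd (mem_nonZeroDivisors_of_ne_zero hp0)
  obtain ⟨s, hs⟩ := hr
  have h1 : ev (cst 𝒰 F) t' (ψ r) = 0 := by
    have h2 : ψ r = p * s := hs
    rw [h2, map_mul, hp, zero_mul]
  have h2 : (ev (cst 𝒰 F) t').comp ψ =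
      Θ.comp ((ev (algebraMap K L) t).comp (lpm (algebraMap ℚ K))) := by
    apply lp_hom_ext
    intro a c
    show ev (cst 𝒰 F) t' (lpm (algebraMap ℚ F) _) = Θ (ev (algebraMap K L) t (lpm _ _))
    rw [lpm_single, lpm_single, ev_single, ev_single, map_mul]
    congr 1
    · have h5 : (cst 𝒰 F).comp (algebraMap ℚ F) = (Θ.comp (algebraMap K L)).comp (algebraMap ℚ K) :=
        RingHom.ext_rat _ _
      exact RingHom.congr_fun h5 c
    · unfold mon cu
      rw [map_prod]
      refine Finset.prod_congr rfl fun l _ => ?_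
      rw [map_zpow₀]
      rfl
  have h3 : Θ (ev (algebraMap K L) t (lpm (algebraMap ℚ K) r)) = 0 := by
    rw [← h1]
    exact (RingHom.congr_fun h2 r).symm
  have h4 : lpm (algebraMap ℚ K) r = 0 := by
    apply hE
    rw [map_zero]
    exact Θ.injective (by rw [h3, map_zero])
  apply hr0
  have h5 : (lpm (algebraMap ℚ K) r).coeff.support = r.coeff.support := lpm_support _ r
  rw [h4] at h5
  have h6 : r.coeff = 0 := Finsupp.support_eq_empty.1 (by rw [← h5]; rfl)
  ext e
  rw [h6]
  rfl

end Pool.Agent.Work.MP_e97a4d_nt.CT
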