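import Pool.Agent.Work.MP_e97a4d_nt.CT.Defs

/-!
# CT/Growth (size S-M): values of integral elements

PROOF. `mon_log`: `v (mon u e) = ∏ l, v (u l) ^ e l` (`map_prod`, `map_zpow₀`), `Real.log_prod`, `Real.log_zpow`.

`growth`: Let `C₁ := ∑ i, ∑ e ∈ (A i).coeff.support, v ((A i).coeff e)` and `C := max 0 (Real.log C₁)`. Let
`D := ∑ l, |log v (u l)|`. If `v Y ≤ 1` then `log v Y ≤ 0` (`Real.log_nonpos`). Let `v Y > 1`. By `ev_eq` and
`mon_log`, `v (ev u (A i)) ≤ ∑ e, v (coeff e) * exp (∑ l, e l * log v (u l)) ≤ C₂ i * exp (r * D)` with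
`C₂ i := ∑ e, v (coeff e)`. So `v Y ^ m ≤ ∑ i, C₂ i * exp (r D) * v Y ^ i ≤ C₁ * exp (r D) * v Y ^ (m-1)`
(`m ≥ 1`: for `m = 0` the equation says `1 = 0`), `v Y ≤ C₁ * exp (r D)`, and `log v Y ≤ log C₁ + r D`
(`C₁ > 0` since `v Y > 0`).
-/

set_option autoImplicit false

noncomputable section

namespace Pool.Agent.Work.MP_e97a4d_nt.CT

open Pool.Agent.Work.UP

theorem mon_log {F : Type} [Field F] {d : ℕ} (v : AbsoluteValue F ℝ) (u : Fin d → Fˣ)
    (e : Fin d → ℤ) :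
    v (mon (cu u) e) = Real.exp (dg (fun l => Real.log (v (u l : F))) e) := by
  unfold mon dg cu
  rw [map_prod, Real.exp_sum]
  refine Finset.prod_congr rfl fun l _ => ?_
  have hpos : 0 < v (u l : F) := v.pos (u l).ne_zero
  rw [map_zpow₀, ← Real.rpow_intCast, Real.rpow_def_of_pos hpos, mul_comm]

theorem growth {F : Type} [Field F] {d m : ℕ} (v : AbsoluteValue F ℝ) (A : Fin m → Lp F d) (r : ℕ)
    (hr : ∀ i, ∀ e ∈ (A i).coeff.support, ∀ l, |e l| ≤ (r : ℤ)) :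
    ∃ C : ℝ, 0 ≤ C ∧ ∀ (u : Fin d → Fˣ) (Y : F),
      Y ^ m = ∑ i : Fin m, ev (RingHom.id F) u (A i) * Y ^ (i : ℕ) →
      Real.log (v Y) ≤ C + r * ∑ l, |Real.log (v (u l : F))| := by
  classical
  set C₂ : Fin m → ℝ := fun i => ∑ e ∈ (A i).coeff.support, v ((A i).coeff e) with hC₂
  set C₁ : ℝ := ∑ i, C₂ i with hC₁
  have hC₂0 : ∀ i, 0 ≤ C₂ i := fun i => Finset.sum_nonneg fun e _ => v.nonneg _
  have hC₁0 : 0 ≤ C₁ := Finset.sum_nonneg fun i _ => hC₂0 i
  refine ⟨max 0 (Real.log C₁), le_max_left _ _, fun u Y hY => ?_⟩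
  set D : ℝ := ∑ l, |Real.log (v (u l : F))| with hD
  have hD0 : 0 ≤ D := Finset.sum_nonneg fun l _ => abs_nonneg _
  have hrD : 0 ≤ (r : ℝ) * D := mul_nonneg (Nat.cast_nonneg _) hD0
  rcases le_or_gt (v Y) 1 with h1 | h1
  · have h2 : Real.log (v Y) ≤ 0 := Real.log_nonpos (v.nonneg _) h1
    have h3 : 0 ≤ max 0 (Real.log C₁) := le_max_left _ _
    linarith
  have hY0 : 0 < v Y := lt_trans one_pos h1
  -- the values of the coefficients
  have hev : ∀ i, v (ev (RingHom.id F) u (A i)) ≤ C₂ i * Real.exp (r * D) := by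
    intro i
    rw [ev_eq, hC₂, Finset.sum_mul]
    refine le_trans (v.sum_le _ _) (Finset.sum_le_sum fun e he => ?_)
    rw [map_mul, RingHom.id_apply, mon_log]
    refine mul_le_mul_of_nonneg_left (Real.exp_le_exp.2 ?_) (v.nonneg _)
    unfold dg
    rw [hD, Finset.mul_sum]
    refine Finset.sum_le_sum fun l _ => ?_
    refine le_trans (le_abs_self _) ?_
    rw [abs_mul]
    refine mul_le_mul_of_nonneg_right ?_ (abs_nonneg _)
    have := hr i e he l
    have h4 : ((|e l| : ℤ) : ℝ) ≤ ((r : ℤ) : ℝ) := by exact_mod_cast this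
    rw [Int.cast_abs, Int.cast_natCast] at h4
    exact h4
  have hm : m ≠ 0 := by
    rintro rfl
    simp at hY
  obtain ⟨k, rfl⟩ : ∃ k, m = k + 1 := ⟨m - 1, by omega⟩
  have h5 : v Y ^ (k + 1) ≤ C₁ * Real.exp (r * D) * v Y ^ k := by
    have h6 : v (Y ^ (k + 1)) = v Y ^ (k + 1) := map_pow _ _ _
    rw [← h6, hY, hC₁, Finset.sum_mul, Finset.sum_mul]
    refine le_trans (v.sum_le _ _) (Finset.sum_le_sum fun i _ => ?_)
    rw [map_mul, map_pow]
    refine mul_le_mul (hev i) ?_ (pow_nonneg hY0.le _)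
      (mul_nonneg (hC₂0 i) (Real.exp_pos _).le)
    exact pow_le_pow_right₀ h1.le (Nat.le_of_lt_succ i.2)
  have h7 : v Y ≤ C₁ * Real.exp (r * D) := by
    have h8 : 0 < v Y ^ k := pow_pos hY0 _
    rw [pow_succ'] at h5
    exact le_of_mul_le_mul_right h5 h8
  have hC₁p : 0 < C₁ := by
    rcases hC₁0.lt_or_eq with h | h
    · exact h
    · rw [← h, zero_mul] at h7
      linarith
  have h9 : Real.log (v Y) ≤ Real.log (C₁ * Real.exp (r * D)) := Real.log_le_log hY0 h7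
  rw [Real.log_mul hC₁p.ne' (Real.exp_pos _).ne', Real.log_exp] at h9
  have h10 : Real.log C₁ ≤ max 0 (Real.log C₁) := le_max_right _ _
  linarith

end Pool.Agent.Work.MP_e97a4d_nt.CT
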