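import Pool.Agent.Work.MP_e97a4d_nt.CT.PDefs
import Pool.Agent.Work.MP_e97a4d_nt.CT.Growth

/-!
# CT/NmGerm (size M): almost every point defines a function `N`

PROOF. Enlarge `s` by the `y j`: `s' := s ∪ image of y`. Enumerate `s' = {f 1, ..., f n}` and choose representatives
`Θ (f i) = germ of F_i : T → F` (`Germ.inductionOn`). The map `MvPolynomial.aeval f : ℤ[X_1..X_n] → L` has image
`B := Subring.closure s'`; its kernel is a finitely generated ideal (`ℤ[X]` is Noetherian), generated by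
`g_1, ..., g_r`. For almost all `τ`: (a) `g_j (F_1 τ, ..., F_n τ) = 0` for all `j` (its germ is
`Θ (g_j (f)) = 0`); so the homomorphism `X_i ↦ F_i τ` vanishes on the kernel and factors through a ring
homomorphism `e τ : B → F` with `e τ (f i) = F_i τ` (`Ideal.Quotient.lift` and the isomorphism of `ℤ[X] ⧸ ker` with
the range `B`, or `RingHom.liftOfSurjective`/`RingHom.liftOfRightInverse` for the surjection onto `B`:
`RingHom.liftOfSurjective`). (b) for every `c ≠ 0` and `e` with `E (single e c) = f i` for some `i`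
(finitely many pairs `(c, e)`, since `E` is injective), `F_i τ = κ c * mon (cu (W τ)) e`: the germs agree because
`Θ (E (single e c)) = Θ (algebraMap c) * Θ (mon (cu t) e)` is the germ of `τ ↦ κ c * mon (cu (W τ)) e` (`map_prod`,
`map_zpow₀`, germs of products and powers). (c) for every `j`, `F_i τ = Y j τ` if `f i = y j` (both represent
`Θ (y j)`).
For such `τ` put `N z := v (e τ z)` for `z ∈ B` and `N z := 0` otherwise (classical `if`). `Nm` for `s'` gives `Nm`
for `s` (`Subring.closure_mono`). `mono`: `c = 0` gives `N 0 = 0 = v (κ 0) * _`; `c ≠ 0`: (b) and `mon_log`.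
-/

set_option autoImplicit false

noncomputable section

namespace Pool.Agent.Work.MP_e97a4d_nt.CT

open Pool.Agent.Work.UP Pool.Agent.Work NumberField IsDedekindDomain Filter

private theorem germ_mon {F : Type} [Field F] {T : Type} (𝒰 : Ultrafilter T) {L : Type} [Field L]
    {d : ℕ} (t : Fin d → Lˣ) (Θ : L →+* Germ (𝒰 : Filter T) F) (W : T → Fin d → Fˣ)
    (hW : ∀ l, Θ (t l) = ((fun τ => (W τ l : F) : T → F) : Germ (𝒰 : Filter T) F))
    (e : Fin d → ℤ) :
    Θ (mon (cu t) e) = ((fun τ => mon (cu (W τ)) e : T → F) : Germ (𝒰 : Filter T) F) := by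
  have h1 : ∀ l, Θ ((t l : L) ^ e l) =
      Germ.coeRingHom (𝒰 : Filter T) (fun τ => (W τ l : F) ^ e l) := by
    intro l
    rw [map_zpow₀, hW l]
    rfl
  have h2 : (fun τ => mon (cu (W τ)) e : T → F) = ∏ l, fun τ => (W τ l : F) ^ e l := by
    funext τ
    rw [Finset.prod_apply]
    rfl
  show Θ (∏ l, (t l : L) ^ e l) = Germ.coeRingHom (𝒰 : Filter T) (fun τ => mon (cu (W τ)) e)
  rw [h2, map_prod, map_prod]
  exact Finset.prod_congr rfl fun l _ => h1 l

private theorem germ_single {F : Type} [Field F] {T : Type} (𝒰 : Ultrafilter T) {K L : Type}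
    [Field K] [Field L] [Algebra K L] {d : ℕ} (t : Fin d → Lˣ)
    (Θ : L →+* Germ (𝒰 : Filter T) F) (κ : K →+* F)
    (hκ : ∀ c, Θ (algebraMap K L c) = cst 𝒰 F (κ c)) (W : T → Fin d → Fˣ)
    (hW : ∀ l, Θ (t l) = ((fun τ => (W τ l : F) : T → F) : Germ (𝒰 : Filter T) F))
    (e : Fin d → ℤ) (c : K) :
    Θ (ev (algebraMap K L) t (AddMonoidAlgebra.single e c)) =
      ((fun τ => κ c * mon (cu (W τ)) e : T → F) : Germ (𝒰 : Filter T) F) := by
  rw [ev_single, map_mul, hκ, germ_mon 𝒰 t Θ W hW, cst_apply]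
  rfl

theorem nm_germ {F : Type} [Field F] {T : Type} (𝒰 : Ultrafilter T) {K L : Type} [Field K] [Field L]
    [Algebra K L] {d : ℕ} (t : Fin d → Lˣ) (hE : Function.Injective (ev (algebraMap K L) t))
    (Θ : L →+* Germ (𝒰 : Filter T) F) (κ : K →+* F)
    (hκ : ∀ c, Θ (algebraMap K L c) = cst 𝒰 F (κ c))
    (W : T → Fin d → Fˣ)
    (hW : ∀ l, Θ (t l) = ((fun τ => (W τ l : F) : T → F) : Germ (𝒰 : Filter T) F))
    (v : AbsoluteValue F ℝ) (s : Finset L) {k : ℕ} (y : Fin k → L) (Y : Fin k → T → F)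
    (hY : ∀ j, Θ (y j) = ((Y j : T → F) : Germ (𝒰 : Filter T) F)) :
    ∀ᶠ τ in (𝒰 : Filter T), ∃ N : L → ℝ,
      Nm (ev (algebraMap K L) t) (s : Set L) (fun c => v (κ c))
        (fun l => Real.log (v (W τ l : F))) N ∧ ∀ j, N (y j) = v (Y j τ) := by
  classical
  set s' : Finset L := s ∪ Finset.univ.image y with hs'
  have hrep : ∀ x : L, ∃ f : T → F, Θ x = (f : Germ (𝒰 : Filter T) F) := by
    intro x
    induction h : Θ x using Germ.inductionOn with
    | _ f => exact ⟨f, rfl⟩
  choose Fr hFr using hrep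
  let φ : MvPolynomial {x // x ∈ s'} ℤ →+* L :=
    MvPolynomial.eval₂Hom (Int.castRingHom L) (fun x => x.1)
  let ψ : T → MvPolynomial {x // x ∈ s'} ℤ →+* F := fun τ =>
    MvPolynomial.eval₂Hom (Int.castRingHom F) (fun x => Fr x.1 τ)
  have hφX : ∀ x, φ (MvPolynomial.X x) = x.1 := fun x => MvPolynomial.eval₂Hom_X' _ _ _
  have hψX : ∀ τ x, ψ τ (MvPolynomial.X x) = Fr x.1 τ := fun τ x => MvPolynomial.eval₂Hom_X' _ _ _
  have hΘ : ∀ p, Θ (φ p) = ((fun τ => ψ τ p : T → F) : Germ (𝒰 : Filter T) F) := by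
    have h1 : Θ.comp φ = (Germ.coeRingHom (𝒰 : Filter T)).comp (RingHom.pi ψ) := by
      apply MvPolynomial.ringHom_ext
      · intro n
        simp
      · intro x
        rw [RingHom.comp_apply, RingHom.comp_apply, hφX, hFr]
        show _ = ((fun τ => ψ τ (MvPolynomial.X x) : T → F) : Germ (𝒰 : Filter T) F)
        congr 1
        funext τ
        exact (hψX τ x).symm
    intro p
    exact RingHom.congr_fun h1 p
  obtain ⟨G, hG⟩ : (RingHom.ker φ).FG := IsNoetherian.noetherian _
  have ha : ∀ᶠ τ in (𝒰 : Filter T), ∀ p ∈ G, ψ τ p = 0 := by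
    rw [Filter.eventually_all_finset]
    intro p hp
    have h1 : φ p = 0 := by
      have : p ∈ RingHom.ker φ := by
        rw [← hG]
        exact Ideal.subset_span hp
      exact this
    have h2 := hΘ p
    rw [h1, map_zero] at h2
    have h3 : ((fun _ => 0 : T → F) : Germ (𝒰 : Filter T) F) =
      ((fun τ => ψ τ p : T → F) : Germ (𝒰 : Filter T) F) := h2
    exact (Germ.coe_eq.1 h3).mono fun τ h => h.symm
  have hb : ∀ᶠ τ in (𝒰 : Filter T), ∀ x ∈ s', ∀ (c : K) (e : Fin d → ℤ),
      ev (algebraMap K L) t (AddMonoidAlgebra.single e c) = x →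
        Fr x τ = κ c * mon (cu (W τ)) e := by
    rw [Filter.eventually_all_finset]
    intro x _
    by_cases hx : ∃ (c : K) (e : Fin d → ℤ),
      ev (algebraMap K L) t (AddMonoidAlgebra.single e c) = x
    · obtain ⟨c, e, hce⟩ := hx
      have h1 := germ_single 𝒰 t Θ κ hκ W hW e c
      rw [hce, hFr x] at h1
      filter_upwards [Germ.coe_eq.1 h1] with τ hτ c' e' hce'
      rw [hτ]
      have h2 : (AddMonoidAlgebra.single e c : Lp K d) = AddMonoidAlgebra.single e' c' :=
        hE (hce.trans hce'.symm)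
      have h3 : (Finsupp.single e c : (Fin d → ℤ) →₀ K) = Finsupp.single e' c' :=
        congrArg (fun p : Lp K d => p.coeff) h2
      rw [Finsupp.single_eq_single_iff] at h3
      rcases h3 with ⟨h4, h5⟩ | ⟨h4, h5⟩
      · rw [h4, h5]
      · rw [h4, h5, map_zero, zero_mul, zero_mul]
    · exact Filter.Eventually.of_forall fun τ c e h => (hx ⟨c, e, h⟩).elim
  have hc : ∀ᶠ τ in (𝒰 : Filter T), ∀ j, Fr (y j) τ = Y j τ := by
    rw [Filter.eventually_all]
    intro j
    have h1 := hY j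
    rw [hFr] at h1
    exact Germ.coe_eq.1 h1
  filter_upwards [ha, hb, hc] with τ hτa hτb hτc
  have hker : ∀ p, φ p = 0 → ψ τ p = 0 := by
    intro p hp
    have h1 : RingHom.ker φ ≤ RingHom.ker (ψ τ) := by
      rw [← hG, Ideal.span_le]
      exact hτa
    exact h1 hp
  let N : L → ℝ := fun z => if h : ∃ p, φ p = z then v (ψ τ h.choose) else 0
  have hN : ∀ p, N (φ p) = v (ψ τ p) := by
    intro p
    have h : ∃ q, φ q = φ p := ⟨p, rfl⟩
    have h1 : N (φ p) = v (ψ τ h.choose) := dif_pos h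
    rw [h1]
    congr 1
    rw [← sub_eq_zero, ← map_sub]
    apply hker
    rw [map_sub, h.choose_spec, sub_self]
  have hcl : ∀ z ∈ Subring.closure (s : Set L), ∃ p, φ p = z := by
    have h1 : Subring.closure (s : Set L) ≤ φ.range := by
      rw [Subring.closure_le]
      intro x hx
      exact ⟨MvPolynomial.X ⟨x, Finset.mem_union_left _ hx⟩, hφX _⟩
    exact fun z hz => h1 hz
  have hyj : ∀ j, N (y j) = v (Y j τ) := by
    intro j
    have hj : y j ∈ s' := Finset.mem_union_right _ (Finset.mem_image_of_mem y (Finset.mem_univ j))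
    have h1 := hN (MvPolynomial.X ⟨y j, hj⟩)
    rw [hφX, hψX] at h1
    rw [h1, hτc j]
  refine ⟨N, ⟨?_, ?_, ?_, ?_, ?_, ?_⟩, hyj⟩
  · intro z _
    show 0 ≤ (if h : ∃ p, φ p = z then v (ψ τ h.choose) else 0)
    split_ifs
    · exact v.nonneg _
    · exact le_rfl
  · have h1 := hN 0
    rwa [map_zero, map_zero, map_zero] at h1
  · have h1 := hN 1
    rwa [map_one, map_one, map_one] at h1
  · intro z hz z' hz'
    obtain ⟨p, rfl⟩ := hcl z hz
    obtain ⟨p', rfl⟩ := hcl z' hz'
    rw [← map_mul, hN, hN, hN, map_mul, map_mul]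
  · intro z hz z' hz'
    obtain ⟨p, rfl⟩ := hcl z hz
    obtain ⟨p', rfl⟩ := hcl z' hz'
    rw [← map_add, hN, hN, hN, map_add]
    exact v.add_le _ _
  · intro c e hce
    have hm : ev (algebraMap K L) t (AddMonoidAlgebra.single e c) ∈ s' :=
      Finset.mem_union_left _ hce
    have h1 := hN (MvPolynomial.X ⟨_, hm⟩)
    rw [hφX, hψX] at h1
    rw [h1, hτb _ hm c e rfl, map_mul, mon_log]

end Pool.Agent.Work.MP_e97a4d_nt.CT
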