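import Pool.Agent.Work.MP_e97a4d_nt.CT.LinDis

/-!
# CT/RedMap (size S-M): reductions over a bigger field of constants

PROOF. `ev_lpm`: `lp_hom_ext`, `ev_single`, `lpm_single`; `mon (cu t') a = Θ (mon (cu t) a)` (`map_prod`, `map_zpow₀`).
`red_map`: `eq`: apply `Θ` to `h.eq n`. `box`: `lpm_support`. `ind`: `lin_dis`; `y` is integral: it is a root of the
monic polynomial `X ^ m - ∑ i, C (A m i) * X ^ i` (`h.eq m`; degree of the sum `< m`). `lvl_map`: `lpm_support`.
-/

set_option autoImplicit false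

noncomputable section

namespace Pool.Agent.Work.MP_e97a4d_nt.CT

open Pool.Agent.Work.UP

theorem ev_lpm {K L C Ω : Type} [Field K] [Field L] [Field C] [Field Ω] [Algebra K L]
    (Θ : L →+* Ω) (κ : K →+* C) (e : C →+* Ω) (hκ : e.comp κ = Θ.comp (algebraMap K L))
    {d : ℕ} (t : Fin d → Lˣ) (t' : Fin d → Ωˣ) (ht : ∀ l, (t' l : Ω) = Θ (t l)) (p : Lp K d) :
    ev e t' (lpm κ p) = Θ (ev (algebraMap K L) t p) := by
  have h : (ev e t').comp (lpm κ) = Θ.comp (ev (algebraMap K L) t) := by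
    apply lp_hom_ext
    intro s a
    rw [RingHom.comp_apply, RingHom.comp_apply, lpm_single, ev_single, ev_single, map_mul]
    congr 1
    · exact RingHom.congr_fun hκ a
    · unfold mon cu
      rw [map_prod]
      refine Finset.prod_congr rfl fun l _ => ?_
      rw [map_zpow₀, ht]
  exact RingHom.congr_fun h p

theorem red_integral {K L : Type} [Field K] [Field L] {d : ℕ} {E : Lp K d →+* L} {y : L} {m R : ℕ}
    {A : ℕ → Fin m → Lp K d} (h : Red E y m R A) : E.IsIntegralElem y := by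
  have hdeg : (∑ i : Fin m, Polynomial.C (A m i) * Polynomial.X ^ (i : ℕ)).degree < (m : WithBot ℕ) := by
    rw [Polynomial.degree_lt_iff_coeff_zero]
    intro k hk
    rw [Polynomial.finsetSum_coeff]
    refine Finset.sum_eq_zero fun i _ => ?_
    rw [Polynomial.coeff_C_mul_X_pow, if_neg]
    have := i.2
    omega
  refine ⟨Polynomial.X ^ m - ∑ i : Fin m, Polynomial.C (A m i) * Polynomial.X ^ (i : ℕ),
    Polynomial.monic_X_pow_sub hdeg, ?_⟩
  rw [Polynomial.eval₂_sub, Polynomial.eval₂_X_pow, Polynomial.eval₂_finsetSum, h.eq m, sub_eq_zero]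
  refine Finset.sum_congr rfl fun i _ => ?_
  rw [Polynomial.eval₂_mul, Polynomial.eval₂_C, Polynomial.eval₂_X_pow]

theorem red_map {K L C Ω : Type} [Field K] [Field L] [Field C] [Field Ω] [Algebra K L] [CharZero K]
    (hK : ∀ x : L, IsAlgebraic K x → x ∈ Set.range (algebraMap K L))
    (Θ : L →+* Ω) (κ : K →+* C) (e : C →+* Ω) (hκ : e.comp κ = Θ.comp (algebraMap K L))
    {d : ℕ} (t : Fin d → Lˣ) (t' : Fin d → Ωˣ) (ht : ∀ l, (t' l : Ω) = Θ (t l))
    (hinj : Function.Injective (ev e t')) (y : L) {m R : ℕ} {A : ℕ → Fin m → Lp K d}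
    (h : Red (ev (algebraMap K L) t) y m R A) :
    Red (ev e t') (Θ y) m R (fun n i => lpm κ (A n i)) where
  pos := h.pos
  eq n := by
    rw [← map_pow, h.eq n, map_sum]
    refine Finset.sum_congr rfl fun i _ => ?_
    rw [map_mul, map_pow, ev_lpm Θ κ e hκ t t' ht]
  box n i a ha l := by
    rw [lpm_support] at ha
    exact h.box n i a ha l
  ind := lin_dis hK Θ κ e hκ t t' ht hinj y (red_integral h) h.ind

theorem lvl_map {K C : Type} [Field K] [Field C] (κ : K →+* C) {d m : ℕ}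
    {A : ℕ → Fin m → Lp K d} {ξ : Fin d → ℝ} {μ : ℝ} (h : Lvl A ξ μ) :
    Lvl (fun n i => lpm κ (A n i)) ξ μ := by
  intro n
  obtain ⟨i, a, ha, hle⟩ := h n
  exact ⟨i, a, by rw [lpm_support]; exact ha, hle⟩

end Pool.Agent.Work.MP_e97a4d_nt.CT
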