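import Pool.Agent.Work.MP_e97a4d_nt.CT.Defs

/-!
# CT/Top (size S): largest exponents

PROOF. The key of an exponent `e` is `toLex (dg ξ e, toLex e)` in `ℝ ×ₗ Lex (Fin d → ℤ)`, a linear order
(`Prod.Lex`, `Pi.Lex`); `Finset.exists_max_image` gives `a` in the support with the largest key. For `b ≠ a` in
the support the keys are different (`toLex` is injective), so the key of `b` is strictly smaller:
`Prod.Lex.lt_iff` (`toLex_lt_toLex`). `dg ξ e ≤ dg ξ a`: from `IsTop`, or `e = a`. `lvl_top` is immediate.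
-/

set_option autoImplicit false

noncomputable section

namespace Pool.Agent.Work.MP_e97a4d_nt.CT

open Pool.Agent.Work.UP

theorem top_exists {K : Type} [Field K] {d : ℕ} (ξ : Fin d → ℝ) (p : Lp K d) {e : Fin d → ℤ}
    (he : e ∈ p.coeff.support) : ∃ a, IsTop ξ p a ∧ dg ξ e ≤ dg ξ a := by
  classical
  obtain ⟨a, ha, hmax⟩ := Finset.exists_max_image p.coeff.support
    (fun b : Fin d → ℤ => (toLex (dg ξ b, toLex b) : ℝ ×ₗ Lex (Fin d → ℤ))) ⟨e, he⟩
  have key : ∀ b ∈ p.coeff.support, b ≠ a →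
      dg ξ b < dg ξ a ∨ (dg ξ b = dg ξ a ∧ toLex b < toLex a) := by
    intro b hb hne
    have h1 := hmax b hb
    have h2 : (toLex (dg ξ b, toLex b) : ℝ ×ₗ Lex (Fin d → ℤ)) ≠ toLex (dg ξ a, toLex a) := by
      intro h
      have h3 := toLex.injective h
      have h4 := congrArg Prod.snd h3
      exact hne (toLex.injective h4)
    have h5 := lt_of_le_of_ne h1 h2
    rw [Prod.Lex.toLex_lt_toLex] at h5
    exact h5
  refine ⟨a, ⟨ha, key⟩, ?_⟩
  by_cases h : e = a
  · rw [h]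
  · rcases key e he h with h1 | h1
    · exact h1.le
    · exact h1.1.le

theorem lvl_top {K : Type} [Field K] {d m : ℕ} {A : ℕ → Fin m → Lp K d} {ξ : Fin d → ℝ} {μ : ℝ}
    (h : Lvl A ξ μ) (n : ℕ) :
    ∃ (i : Fin m) (a : Fin d → ℤ), IsTop ξ (A n i) a ∧
      ((n : ℝ) - ((i : ℕ) : ℝ)) * μ ≤ dg ξ a := by
  obtain ⟨i, e, he, hle⟩ := h n
  obtain ⟨a, ha, hea⟩ := top_exists ξ (A n i) he
  exact ⟨i, a, ha, hle.trans hea⟩

end Pool.Agent.Work.MP_e97a4d_nt.CT
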