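import Pool.Agent.Work.MP_e97a4d_nt.CT.AxS
import Pool.Agent.Work.MP_e97a4d_nt.CT.Dirs
import Pool.Agent.Work.MP_e97a4d_nt.CT.NmGerm
import Pool.Agent.Work.MP_e97a4d_nt.CT.GCon
import Pool.Agent.Work.MP_e97a4d_nt.CT.RedMap
import Pool.Agent.Work.MP_e97a4d_nt.CT.Top

/-!
# CT/Arith (size M-L): the arithmetic core

`L` is a field with `K` as field of constants (the elements algebraic over `ℚ`), `t` are algebraically independent
over `K`, `Θ` is a point of `L` with values in an ultrapower of a number field such that the `Θ (t l)` are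
`S`-units. If in every family of nonzero vectors with sum zero some direction has a gap: contradiction.

PROOF.
(0) `g_const` (CT/GCon) gives `κ : K →+* F` with `Θ (algebraMap c) = cst 𝒰 F (κ c)`, so with `e := cst 𝒰 F`,
`e.comp κ = Θ.comp (algebraMap K L)`. `hK` for `lin_dis`/`red_map`: if `x : L` is algebraic over `K` it is
algebraic over `ℚ` (`K` is algebraic over `ℚ` by `hK'`, transitivity), so it is in the range by `hK`. `CharZero K`:
`K → L` is injective and `CharZero L`.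

(1) `t' l := Units.map Θ (t l)`; `ev e t'` is injective by `g_inj` (CT/GCon).

(2) `ht_tendsto`: if `W τ = c` for almost all `τ` then (`d > 0`) `Θ (t 0)` is a constant germ `e (c 0)`, but
`ev e t' (single (Pi.single 0 1) 1 - single 0 (c 0)) = 0` contradicts (1). Let `ξ` be given by `dirs`. The family of
the `ξ w` with `ξ w ≠ 0` is not empty and has sum zero: reindex the finite type `{w // ξ w ≠ 0}` by `Fin s`. `hgap`
gives a place `w₀` with `ξ w₀ ≠ 0` and `Gap E a (ξ w₀)` for all `a`; use `a c := placeAbs w₀ (κ c)`. Let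
`k, y, μ, c, ρ, s` be as in `Gap`.

(3) Let `v := placeAbs F S w₀`, `h τ := Ht S (W τ) / mu w₀`, `x τ l := lg w₀ (W τ l)`. Choose representatives `Y j`
of `Θ (y j)`. For almost all `τ`: `1 / ρ ≤ h τ`; `|x τ l - h τ * ξ w₀ l| ≤ ρ * h τ` (`dirs` with `ε = ρ`, divide by
`mu w₀`); `nm_germ` gives `N`. So for almost all `τ` there is `j` with `v (Y j τ) ≤ exp ((μ j - c) * h τ)`, and there
is one `j` which is good for almost all `τ` (`Ultrafilter.eventually_exists_iff`). Fix it.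

(4) `Lev E (ξ w₀) (y j) (μ j)`: `m, R, A`, `Red`, `Lvl`. `y j ≠ 0`: otherwise `m = 1` by `ind` (`m ≥ 2`: the
relation `p = (0, 1, 0..)`) and then `E (A 1 0) = y^1 = 0`, `A 1 0 = 0`, but `Lvl` for `n = 1` gives an exponent of
`A 1 0`. So `Y j τ ≠ 0` for almost all `τ`. By `red_map` the reductions over `F` are `lpm κ (A n i)`, and `Lvl` and
`IsTop` hold for them (`lvl_map`, then `lvl_top`). `ax_s` applies to `Y j` and `lpm κ (A n i)`: the equations hold
for almost all `τ` (`Red.eq` in `Germ`, `ev e t' q = germ of (τ ↦ ev id (W τ) q)` by `ev_eq`, finite sums), `hind` from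
`Red.ind`. Let `C₀` be given.

(5) For every `n`: `lvl_top` gives `i, a` with `IsTop`, `(n - i) * μ j ≤ dg (ξ w₀) a`. For almost all `τ`:
`mu w₀ * (dg (x τ) a + (i - n) * log v (Y j τ)) ≤ C₀ * Ht` (`mon_log` for `lg (mon ..)`),
`log v (Y j τ) ≤ (μ j - c) h τ`, and `dg (x τ) a ≥ h τ * (dg (ξ w₀) a - 1)` (`dirs` with a small `ε`). Take `n ≥ m`, so
`n - i > 0`. Dividing by `Ht = mu w₀ * h τ > 0`:
`(n - i) * μ j - 1 - (n - i) * (μ j - c) ≤ C₀`, i.e. `(n - i) * c ≤ C₀ + 1`. With `n` large (`n - m ≥ (C₀ + 2) / c`)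
this is a contradiction.
-/

set_option autoImplicit false

noncomputable section

namespace Pool.Agent.Work.MP_e97a4d_nt.CT

open Pool.Agent.Work.UP Pool.Agent.Work NumberField IsDedekindDomain Filter

private theorem coe_zp {F T : Type} [Field F] (𝒰 : Ultrafilter T) (f : T → F) (n : ℤ) :
    ((f : Germ (𝒰 : Filter T) F)) ^ n = ((fun τ => f τ ^ n : T → F) : Germ (𝒰 : Filter T) F) := rfl

private theorem coe_mon {F T : Type} [Field F] (𝒰 : Ultrafilter T) {d : ℕ} (W : T → Fin d → Fˣ)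
    (t' : Fin d → (Germ (𝒰 : Filter T) F)ˣ)
    (ht : ∀ l, (t' l : Germ (𝒰 : Filter T) F) =
      ((fun τ => (W τ l : F) : T → F) : Germ (𝒰 : Filter T) F)) (s : Fin d → ℤ) :
    mon (cu t') s = ((fun τ => mon (cu (W τ)) s : T → F) : Germ (𝒰 : Filter T) F) := by
  unfold mon cu
  have h1 : ∀ l, (t' l : Germ (𝒰 : Filter T) F) ^ s l =
      Germ.coeRingHom (𝒰 : Filter T) (fun τ => (W τ l : F) ^ s l) := fun l => by
    rw [ht, coe_zp]
    rfl
  rw [Finset.prod_congr rfl fun l _ => h1 l, ← map_prod]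
  show ((∏ l, (fun τ => (W τ l : F) ^ s l) : T → F) : Germ (𝒰 : Filter T) F) = _
  congr 1
  funext τ
  rw [Finset.prod_apply]

private theorem ev_germ {F T : Type} [Field F] (𝒰 : Ultrafilter T) {d : ℕ} (W : T → Fin d → Fˣ)
    (t' : Fin d → (Germ (𝒰 : Filter T) F)ˣ)
    (ht : ∀ l, (t' l : Germ (𝒰 : Filter T) F) =
      ((fun τ => (W τ l : F) : T → F) : Germ (𝒰 : Filter T) F)) (q : Lp F d) :
    ev (cst 𝒰 F) t' q =
      ((fun τ => ev (RingHom.id F) (W τ) q : T → F) : Germ (𝒰 : Filter T) F) := by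
  have h : ev (cst 𝒰 F) t' = (Germ.coeRingHom (𝒰 : Filter T)).comp
      (RingHom.pi fun τ => ev (RingHom.id F) (W τ)) := by
    apply lp_hom_ext
    intro s a
    rw [ev_single, coe_mon 𝒰 W t' ht, cst_apply, RingHom.comp_apply]
    have h1 : (RingHom.pi fun τ => ev (RingHom.id F) (W τ)) (AddMonoidAlgebra.single s a) =
        fun τ => a * mon (cu (W τ)) s := by
      funext τ
      show ev (RingHom.id F) (W τ) (AddMonoidAlgebra.single s a) = _
      rw [ev_single]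
      rfl
    rw [h1]
    rfl
  rw [h]
  rfl

private theorem sum_germ {F T : Type} [Field F] (𝒰 : Ultrafilter T) {m : ℕ} (f : Fin m → T → F)
    (Y : T → F) : ∑ i : Fin m, ((f i : Germ (𝒰 : Filter T) F)) * (Y : Germ (𝒰 : Filter T) F) ^ (i : ℕ) =
      ((fun τ => ∑ i : Fin m, f i τ * Y τ ^ (i : ℕ) : T → F) : Germ (𝒰 : Filter T) F) := by
  have h1 : ∀ i : Fin m, ((f i : Germ (𝒰 : Filter T) F)) * (Y : Germ (𝒰 : Filter T) F) ^ (i : ℕ) =
      Germ.coeRingHom (𝒰 : Filter T) (fun τ => f i τ * Y τ ^ (i : ℕ)) := fun i => rfl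
  rw [Finset.sum_congr rfl fun i _ => h1 i, ← map_sum]
  show ((∑ i, (fun τ => f i τ * Y τ ^ (i : ℕ)) : T → F) : Germ (𝒰 : Filter T) F) = _
  congr 1
  funext τ
  rw [Finset.sum_apply]

private theorem mu_pos' {F : Type} [Field F] [NumberField F] (S : Finset (HeightOneSpectrum (𝓞 F)))
    (w : Pl F S) : 0 < mu S w := by
  unfold mu
  rcases w with w | p
  · exact_mod_cast w.mult_pos
  · show (0 : ℝ) < ((1 : ℕ) : ℝ)
    norm_num

private theorem alg_const {K L : Type} [Field K] [Field L] [CharZero L] [Algebra K L]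
    (hK : ∀ x : L, IsAlgebraic ℚ x → x ∈ Set.range (algebraMap K L))
    (hK' : ∀ c : K, IsAlgebraic ℚ (algebraMap K L c)) (x : L) (hx : IsAlgebraic K x) :
    x ∈ Set.range (algebraMap K L) := by
  have : CharZero K := (algebraMap K L).charZero
  have : Algebra.IsAlgebraic ℚ K := ⟨fun c => by
    have h1 := hK' c
    exact (isAlgebraic_algebraMap_iff (algebraMap K L).injective).1 h1⟩
  exact hK x (hx.restrictScalars ℚ)

/-- the germ of the points is not constant -/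
private theorem ht_inf {F : Type} [Field F] [NumberField F] (S : Finset (HeightOneSpectrum (𝓞 F)))
    {T : Type} (𝒰 : Ultrafilter T) {d : ℕ} (hd : 0 < d) (W : T → Fin d → Fˣ)
    (hW : ∀ τ, IsUv S (cu (W τ))) (t' : Fin d → (Germ (𝒰 : Filter T) F)ˣ)
    (ht : ∀ l, (t' l : Germ (𝒰 : Filter T) F) =
      ((fun τ => (W τ l : F) : T → F) : Germ (𝒰 : Filter T) F))
    (hinj : Function.Injective (ev (cst 𝒰 F) t')) :
    Tendsto (fun τ => Ht S (W τ)) (𝒰 : Filter T) atTop := by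
  refine ht_tendsto S 𝒰 W hW fun c hc => ?_
  obtain ⟨l, hl⟩ : ∃ l : Fin d, l = ⟨0, hd⟩ := ⟨_, rfl⟩
  have h1 : ev (cst 𝒰 F) t' (AddMonoidAlgebra.single (Pi.single l 1) 1) =
      ev (cst 𝒰 F) t' (AddMonoidAlgebra.single 0 (c l : F)) := by
    rw [ev_germ 𝒰 W t' ht, ev_germ 𝒰 W t' ht]
    refine Germ.coe_eq.2 ?_
    filter_upwards [hc] with τ hτ
    rw [ev_single, ev_single, mon_single_one, mon_zero, hτ, map_one, one_mul, mul_one]
    rfl
  have h2 := hinj h1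
  have h3 := congrArg (fun p : Lp F d => p.coeff (Pi.single l 1)) h2
  have h4 : (AddMonoidAlgebra.single (Pi.single l 1) (1 : F) : Lp F d).coeff (Pi.single l 1) = 1 := by
    show (Finsupp.single (Pi.single l (1 : ℤ) : Fin d → ℤ) (1 : F)) (Pi.single l 1) = 1
    rw [Finsupp.single_eq_same]
  have h5 : (AddMonoidAlgebra.single 0 (c l : F) : Lp F d).coeff (Pi.single l 1) = 0 := by
    show (Finsupp.single (0 : Fin d → ℤ) (c l : F)) (Pi.single l 1) = 0
    rw [Finsupp.single_eq_of_ne]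
    intro h
    have h6 := congrFun h l
    rw [Pi.single_eq_same] at h6
    exact one_ne_zero h6
  rw [h4, h5] at h3
  exact one_ne_zero h3

/-- the family of the nonzero directions -/
private theorem pick {ι : Type} [Fintype ι] {d : ℕ} (ξ : ι → Fin d → ℝ) (hsum : ∑ w, ξ w = 0)
    {w₁ : ι} (hw₁ : ξ w₁ ≠ 0) (Q : (Fin d → ℝ) → Prop)
    (hgap : ∀ (s : ℕ) (ξ : Fin s → Fin d → ℝ), 0 < s → (∀ i, ξ i ≠ 0) → ∑ i, ξ i = 0 →
      ∃ i, Q (ξ i)) : ∃ w, Q (ξ w) := by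
  classical
  let e : Fin (Fintype.card {w // ξ w ≠ 0}) ≃ {w // ξ w ≠ 0} := (Fintype.equivFin _).symm
  obtain ⟨i, hi⟩ := hgap _ (fun i => ξ (e i)) (Fintype.card_pos_iff.2 ⟨⟨w₁, hw₁⟩⟩)
    (fun i => (e i).2) (by
      rw [Equiv.sum_comp e (fun w : {w // ξ w ≠ 0} => ξ w)]
      refine Eq.trans ?_ hsum
      rw [← Finset.sum_subtype (Finset.univ.filter fun w => ξ w ≠ 0) (fun w => by simp) ξ]
      exact Finset.sum_filter_ne_zero Finset.univ)
  exact ⟨_, hi⟩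

/-- the last step -/
private theorem fin_step {m : ℕ} {c C₀ μ : ℝ} (n : ℕ) (i : Fin m)
    (hn : C₀ + 1 < ((n : ℝ) - ((i : ℕ) : ℝ)) * c) (hni : ((i : ℕ) : ℝ) ≤ (n : ℝ))
    {M h Lm Ly D : ℝ} (hM : 0 < M) (hh : 0 < h)
    (h1 : M * (Lm + (((i : ℕ) : ℝ) - (n : ℝ)) * Ly) ≤ C₀ * (M * h))
    (h2 : Ly ≤ (μ - c) * h) (h3 : h * (D - 1) ≤ Lm)
    (h4 : ((n : ℝ) - ((i : ℕ) : ℝ)) * μ ≤ D) : False := by
  have h5 : Lm + (((i : ℕ) : ℝ) - (n : ℝ)) * Ly ≤ C₀ * h := by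
    have h6 : M * (Lm + (((i : ℕ) : ℝ) - (n : ℝ)) * Ly) ≤ M * (C₀ * h) := by
      calc _ ≤ C₀ * (M * h) := h1
        _ = M * (C₀ * h) := by ring
    exact le_of_mul_le_mul_left h6 hM
  have h7 : ((n : ℝ) - ((i : ℕ) : ℝ)) * Ly ≤ ((n : ℝ) - ((i : ℕ) : ℝ)) * ((μ - c) * h) :=
    mul_le_mul_of_nonneg_left h2 (sub_nonneg.2 hni)
  have h8 : h * (((n : ℝ) - ((i : ℕ) : ℝ)) * μ) ≤ h * D := mul_le_mul_of_nonneg_left h4 hh.le
  have h9 : h * (((n : ℝ) - ((i : ℕ) : ℝ)) * c) ≤ h * (C₀ + 1) := by nlinarith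
  have h10 := le_of_mul_le_mul_left h9 hh
  linarith

theorem arith {F : Type} [Field F] [NumberField F] (S : Finset (HeightOneSpectrum (𝓞 F)))
    {T : Type} (𝒰 : Ultrafilter T) {K L : Type} [Field K] [Field L] [CharZero L] [Algebra K L]
    (hK : ∀ x : L, IsAlgebraic ℚ x → x ∈ Set.range (algebraMap K L))
    (hK' : ∀ c : K, IsAlgebraic ℚ (algebraMap K L c)) {d : ℕ} (hd : 0 < d) (t : Fin d → Lˣ)
    (hE : Function.Injective (ev (algebraMap K L) t)) (Θ : L →+* Germ (𝒰 : Filter T) F)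
    (W : T → Fin d → Fˣ) (hW : ∀ τ, IsUv S (cu (W τ)))
    (hΘ : ∀ l, Θ (t l) = ((fun τ => (W τ l : F) : T → F) : Germ (𝒰 : Filter T) F))
    (hgap : ∀ (s : ℕ) (ξ : Fin s → Fin d → ℝ), 0 < s → (∀ i, ξ i ≠ 0) → ∑ i, ξ i = 0 →
      ∃ i, ∀ a : K → ℝ, Gap (ev (algebraMap K L) t) a (ξ i)) :
    False := by
  classical
  obtain ⟨κ, hκ⟩ := g_const 𝒰 hK' Θ
  have : CharZero K := (algebraMap K L).charZero
  have hcomp : (cst 𝒰 F).comp κ = Θ.comp (algebraMap K L) := RingHom.ext fun c => (hκ c).symm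
  obtain ⟨t', ht'⟩ : ∃ t' : Fin d → (Germ (𝒰 : Filter T) F)ˣ,
      t' = fun l => Units.map (Θ : L →* Germ (𝒰 : Filter T) F) (t l) := ⟨_, rfl⟩
  have hinj : Function.Injective (ev (cst 𝒰 F) t') := by
    rw [ht']
    exact g_inj 𝒰 t hE Θ
  have htΘ : ∀ l, (t' l : Germ (𝒰 : Filter T) F) = Θ (t l) := fun l => by
    rw [ht']
    rfl
  have htW : ∀ l, (t' l : Germ (𝒰 : Filter T) F) =
      ((fun τ => (W τ l : F) : T → F) : Germ (𝒰 : Filter T) F) := fun l => by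
    rw [htΘ, hΘ]
  have hH := ht_inf S 𝒰 hd W hW t' htW hinj
  obtain ⟨ξ, hsum, ⟨w₁, hw₁⟩, hdir⟩ := dirs S 𝒰 W hW hH
  obtain ⟨w, hw⟩ := pick ξ hsum hw₁ (fun ξ => ∀ a : K → ℝ, Gap (ev (algebraMap K L) t) a ξ)
    hgap
  have hM := mu_pos' S w
  obtain ⟨v, hv⟩ : ∃ v : AbsoluteValue F ℝ, v = SUnit.placeAbs F S w := ⟨_, rfl⟩
  have hlg : ∀ x : F, lg S w x = Real.log (v x) := fun x => by rw [hv]; rfl
  obtain ⟨k, y, μ, c, ρ, s, hc, hρ, hlev, -, hN⟩ := hw fun c => v (κ c)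
  have hrep : ∀ j, ∃ Y : T → F, Θ (y j) = ((Y : T → F) : Germ (𝒰 : Filter T) F) := fun j =>
    Germ.inductionOn (Θ (y j)) fun f => ⟨f, rfl⟩
  choose Y hY using hrep
  have hnm := nm_germ 𝒰 t hE Θ κ hκ W hΘ v s y Y hY
  -- directions
  have hdir' : ∀ ε : ℝ, 0 < ε → ∀ᶠ τ in (𝒰 : Filter T), ∀ l,
      |Real.log (v (W τ l : F)) - Ht S (W τ) / mu S w * ξ w l| ≤ ε * (Ht S (W τ) / mu S w) := by
    intro ε hε
    filter_upwards [hdir ε hε] with τ hτ l
    have h1 := hτ w l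
    rw [hlg] at h1
    have h2 : mu S w * Real.log (v (W τ l : F)) - Ht S (W τ) * ξ w l =
        mu S w * (Real.log (v (W τ l : F)) - Ht S (W τ) / mu S w * ξ w l) := by
      field_simp
    rw [h2, abs_mul, abs_of_pos hM] at h1
    have h3 : ε * Ht S (W τ) = mu S w * (ε * (Ht S (W τ) / mu S w)) := by
      field_simp
    rw [h3] at h1
    exact le_of_mul_le_mul_left h1 hM
  have hbig : ∀ B : ℝ, ∀ᶠ τ in (𝒰 : Filter T), B ≤ Ht S (W τ) / mu S w := by
    intro B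
    filter_upwards [hH.eventually_ge_atTop (B * mu S w)] with τ hτ
    rw [le_div_iff₀ hM]
    exact hτ
  -- one of the elements is small
  have hex : ∀ᶠ τ in (𝒰 : Filter T), ∃ j, v (Y j τ) ≤
      Real.exp ((μ j - c) * (Ht S (W τ) / mu S w)) := by
    filter_upwards [hnm, hdir' ρ hρ, hbig (1 / ρ)] with τ h1 h2 h3
    obtain ⟨N, hN1, hN2⟩ := h1
    obtain ⟨j, hj⟩ := hN N (Ht S (W τ) / mu S w) _ hN1 h3 h2
    exact ⟨j, by rw [← hN2]; exact hj⟩
  obtain ⟨j, hj⟩ := Ultrafilter.eventually_exists_iff.1 hex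
  obtain ⟨m, R, A, hred, hlvl⟩ := hlev j
  have hy0 : y j ≠ 0 := by
    intro h0
    have h1 := hred.eq 1
    rw [pow_one, h0] at h1
    have h2 := hred.ind (A 1) (by rw [h0]; exact h1.symm)
    obtain ⟨i, e, he, -⟩ := hlvl 1
    rw [h2] at he
    simp at he
  have hY0 : ∀ᶠ τ in (𝒰 : Filter T), Y j τ ≠ 0 := by
    refine Ultrafilter.eventually_not.2 fun h0 => hy0 ?_
    have h1 : Θ (y j) = 0 := by
      rw [hY]
      exact Germ.coe_eq.2 h0
    exact (map_eq_zero Θ).1 h1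
  have hred' := red_map (alg_const hK hK') Θ κ (cst 𝒰 F) hcomp t t' htΘ hinj (y j) hred
  have hlvl' := lvl_map κ hlvl
  have hgs : ∀ p : Fin m → Lp F d, ∑ i : Fin m, ev (cst 𝒰 F) t' (p i) * Θ (y j) ^ (i : ℕ) =
      ((fun τ => ∑ i : Fin m, ev (RingHom.id F) (W τ) (p i) * Y j τ ^ (i : ℕ) : T → F) :
        Germ (𝒰 : Filter T) F) := by
    intro p
    rw [hY, ← sum_germ 𝒰 (fun i τ => ev (RingHom.id F) (W τ) (p i)) (Y j)]
    exact Finset.sum_congr rfl fun i _ => by rw [ev_germ 𝒰 W t' htW]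
  obtain ⟨C₀, hC₀⟩ := ax_s S 𝒰 hd hred.pos W hW (Y j) R (fun n i => lpm κ (A n i))
    (fun n => by
      have h1 := hred'.eq n
      rw [hgs, hY] at h1
      exact Germ.coe_eq.1 h1)
    hred'.box (fun p hp => hred'.ind p (by
      rw [hgs]
      exact Germ.coe_eq.2 hp)) hY0 hH
  obtain ⟨r, hr⟩ := exists_nat_gt ((C₀ + 1) / c)
  obtain ⟨i, a, htop, hle⟩ := lvl_top hlvl' (m + r)
  obtain ⟨ε, hε, hε2⟩ : ∃ ε : ℝ, 0 < ε ∧ ε * ∑ l, |(a l : ℝ)| ≤ 1 := by
    have h1 : (0 : ℝ) ≤ ∑ l, |(a l : ℝ)| := Finset.sum_nonneg fun l _ => abs_nonneg _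
    refine ⟨1 / (1 + ∑ l, |(a l : ℝ)|), by positivity, ?_⟩
    rw [div_mul_eq_mul_div, one_mul, div_le_one (by positivity)]
    linarith
  obtain ⟨τ, h1, h2, h3, h4, h5⟩ := ((hC₀ (m + r) i (ξ w) a htop w).and ((hj).and
    (hY0.and ((hdir' ε hε).and (hbig 1))))).exists
  have hh : 0 < Ht S (W τ) / mu S w := lt_of_lt_of_le one_pos h5
  have hiv : ((i : ℕ) : ℝ) ≤ ((m + r : ℕ) : ℝ) := by
    have := i.2
    exact_mod_cast (by omega : (i : ℕ) ≤ m + r)
  refine fin_step (μ := μ j) (C₀ := C₀) (c := c) (m + r) i ?_ hiv hM hh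
    (Lm := Real.log (v (mon (cu (W τ)) a))) (Ly := Real.log (v (Y j τ))) (D := dg (ξ w) a) ?_ ?_ ?_
    hle
  · have h6 : (r : ℝ) ≤ ((m + r : ℕ) : ℝ) - ((i : ℕ) : ℝ) := by
      have h7 : ((i : ℕ) : ℝ) ≤ (m : ℝ) := by exact_mod_cast i.2.le
      push_cast
      linarith
    have h8 : C₀ + 1 < r * c := by
      rw [div_lt_iff₀ hc] at hr
      exact hr
    exact lt_of_lt_of_le h8 (mul_le_mul_of_nonneg_right h6 hc.le)
  · have h6 : mu S w * (Ht S (W τ) / mu S w) = Ht S (W τ) := by field_simp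
    rw [h6, ← hlg, ← hlg]
    exact h1
  · have h6 := Real.log_le_log (v.pos h3) h2
    rwa [Real.log_exp] at h6
  · rw [mon_log, Real.log_exp]
    have h6 : dg (fun l => Real.log (v (W τ l : F))) a -
        Ht S (W τ) / mu S w * dg (ξ w) a = ∑ l, (a l : ℝ) * (Real.log (v (W τ l : F)) -
          Ht S (W τ) / mu S w * ξ w l) := by
      unfold dg
      rw [Finset.mul_sum, ← Finset.sum_sub_distrib]
      exact Finset.sum_congr rfl fun l _ => by ring
    have h7 : |∑ l, (a l : ℝ) * (Real.log (v (W τ l : F)) -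
          Ht S (W τ) / mu S w * ξ w l)| ≤ Ht S (W τ) / mu S w := by
      calc _ ≤ ∑ l, |(a l : ℝ) * (Real.log (v (W τ l : F)) -
            Ht S (W τ) / mu S w * ξ w l)| := Finset.abs_sum_le_sum_abs _ _
        _ ≤ ∑ l, |(a l : ℝ)| * (ε * (Ht S (W τ) / mu S w)) := by
          refine Finset.sum_le_sum fun l _ => ?_
          rw [abs_mul]
          exact mul_le_mul_of_nonneg_left (h4 l) (abs_nonneg _)
        _ = (ε * ∑ l, |(a l : ℝ)|) * (Ht S (W τ) / mu S w) := by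
          rw [← Finset.sum_mul]
          ring
        _ ≤ 1 * (Ht S (W τ) / mu S w) := mul_le_mul_of_nonneg_right hε2 hh.le
        _ = _ := one_mul _
    have h8 := (abs_le.1 h7).1
    rw [← h6] at h8
    linarith

end Pool.Agent.Work.MP_e97a4d_nt.CT
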