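import Pool.Agent.Work.MP_e97a4d_nt.CT.Defs
import Pool.Agent.Work.UP.LUfd

/-!
# CT/Clear (size S-M): clearing denominators; transcendence bases

PROOF of `clear_den`. Give `L` the algebra structure `E.toAlgebra` over `P := Lp K d`. For `f` take `q ≠ 0` in `P[X]`
with `q.eval₂ E f = 0`; `q.leadingCoeff • f` is integral over `P` (Mathlib: `isIntegral_leadingCoeff_smul` or
`IsIntegral...leadingCoeff`; look for `leadingCoeff` in Mathlib/RingTheory/IntegralClosure and
Mathlib/RingTheory/Localization/Integral: `RingHom.isIntegralElem_leadingCoeff_mul`), `p := q.leadingCoeff ≠ 0`.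

PROOF of `tb_inj` and `tb_alg`. `K` is the field of the elements of `L` algebraic over `ℚ`.
`IsTranscendenceBasis ℤ w` gives `AlgebraicIndependent ℤ w`, hence `AlgebraicIndependent K w` (`ℤ → K` is
algebraic: every element of `K` is a root of a nonzero integral polynomial;
`AlgebraicIndependent.extendScalars`, Mathlib/RingTheory/AlgebraicIndependent/..., with
`Algebra.IsAlgebraic ℤ K`). If `ev (algebraMap K L) w p = 0` with `p : Lp K k`, multiply by a monomial: there
are a polynomial `q : MvPolynomial (Fin k) K` and `s` with `p = single (-s) 1 * toL q` (`exists_toL` in UP/LUfd or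
UP/LTorus and its evaluation lemma), so `aeval w q = 0`, `q = 0`, `p = 0`. `tb_alg`: `L` is algebraic over
`ℤ[w]` (`IsTranscendenceBasis.isAlgebraic`): for `f` there is a nonzero polynomial over the subalgebra
`Algebra.adjoin ℤ (Set.range w)` with root `f`; every element of this subalgebra is `ev _ w (_)` of an element
of `Lp K k` (`Algebra.adjoin_induction`: constants, `w l = ev (single (Pi.single l 1) 1)`, sums, products);
choose preimages of the coefficients (zero for zero): a nonzero polynomial over `Lp K k`.
-/

set_option autoImplicit false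

noncomputable section

namespace Pool.Agent.Work.MP_e97a4d_nt.CT

open Pool.Agent.Work.UP

theorem clear_den {K L : Type} [Field K] [Field L] {d : ℕ} (E : Lp K d →+* L)
    (hE : Function.Injective E)
    (halg : ∀ f : L, ∃ q : Polynomial (Lp K d), q ≠ 0 ∧ q.eval₂ E f = 0) (f : L) :
    ∃ p : Lp K d, p ≠ 0 ∧ E.IsIntegralElem (E p * f) := by
  obtain ⟨q, hq, h0⟩ := halg f
  exact ⟨q.leadingCoeff, Polynomial.leadingCoeff_ne_zero.2 hq,
    E.isIntegralElem_leadingCoeff_mul q f h0⟩

private theorem ev_toL' {k K : Type} [Field k] [Field K] (e : k →+* K) {d : ℕ} (u : Fin d → Kˣ)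
    (p : MvPolynomial (Fin d) k) : ev e u (toL p) = p.eval₂ e (cu u) := by
  have h : (ev e u).comp toL = MvPolynomial.eval₂Hom e (cu u) := by
    apply MvPolynomial.ringHom_ext
    · intro r
      rw [RingHom.comp_apply, MvPolynomial.eval₂Hom_C]
      show ev e u (toL (MvPolynomial.monomial 0 r)) = e r
      rw [toL_monomial, map_zero, ev_single, mon_zero, mul_one]
    · intro i
      rw [RingHom.comp_apply, MvPolynomial.eval₂Hom_X']
      unfold toL
      rw [MvPolynomial.eval₂Hom_X', ev_single, mon_single_one, map_one, one_mul]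
  exact RingHom.congr_fun h p

theorem tb_inj {L : Type} [Field L] [CharZero L] {k : ℕ} (w : Fin k → Lˣ)
    (hw : IsTranscendenceBasis ℤ (fun l => (w l : L))) :
    Function.Injective (ev (algebraMap (algebraicClosure ℚ L) L) w) := by
  have h1 : Algebra.IsAlgebraic ℚ (algebraicClosure ℚ L) := algebraicClosure.isAlgebraic ℚ L
  have h2 : Algebra.IsAlgebraic ℤ (algebraicClosure ℚ L) :=
    (IsFractionRing.comap_isAlgebraic_iff (A := ℤ) (K := ℚ)).2 h1
  have h3 : AlgebraicIndependent (algebraicClosure ℚ L) (fun l => (w l : L)) :=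
    hw.1.extendScalars _
  rw [injective_iff_map_eq_zero]
  intro p hp
  obtain ⟨q, s, rfl⟩ := exists_toL p
  rw [map_mul, ev_single, map_one, one_mul, mul_eq_zero] at hp
  have h4 : ev (algebraMap (algebraicClosure ℚ L) L) w (toL q) = 0 :=
    hp.resolve_left (mon_ne_zero w s)
  rw [ev_toL'] at h4
  have h5 : q = 0 := by
    apply (injective_iff_map_eq_zero _).1 h3
    exact h4
  rw [h5, map_zero, mul_zero]

theorem tb_alg {L : Type} [Field L] [CharZero L] {k : ℕ} (w : Fin k → Lˣ)
    (hw : IsTranscendenceBasis ℤ (fun l => (w l : L))) (f : L) :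
    ∃ q : Polynomial (Lp (algebraicClosure ℚ L) k), q ≠ 0 ∧
      q.eval₂ (ev (algebraMap (algebraicClosure ℚ L) L) w) f = 0 := by
  have h1 : Algebra.IsAlgebraic (Algebra.adjoin ℤ (Set.range fun l => (w l : L))) L :=
    hw.isAlgebraic
  obtain ⟨q0, hq0, hf⟩ := h1.isAlgebraic f
  have hle : (Algebra.adjoin ℤ (Set.range fun l => (w l : L))).toSubring ≤
      (ev (algebraMap (algebraicClosure ℚ L) L) w).range := by
    intro x hx
    have hx' : x ∈ Algebra.adjoin ℤ (Set.range fun l => (w l : L)) := hx
    clear hx
    induction hx' using Algebra.adjoin_induction with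
    | mem x hx =>
      obtain ⟨l, rfl⟩ := hx
      refine ⟨AddMonoidAlgebra.single (Pi.single l 1) 1, ?_⟩
      rw [ev_single, mon_single_one, map_one, one_mul]
      rfl
    | algebraMap r =>
      exact ⟨(r : Lp (algebraicClosure ℚ L) k), by rw [map_intCast]; rfl⟩
    | add x y _ _ hx hy => exact Subring.add_mem _ hx hy
    | mul x y _ _ hx hy => exact Subring.mul_mem _ hx hy
  have hsurj : Function.Surjective
      (ev (algebraMap (algebraicClosure ℚ L) L) w).rangeRestrict :=
    RingHom.rangeRestrict_surjective _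
  obtain ⟨q, hq⟩ := Polynomial.map_surjective _ hsurj (q0.map (Subring.inclusion hle))
  refine ⟨q, ?_, ?_⟩
  · rintro rfl
    rw [Polynomial.map_zero] at hq
    exact hq0 ((Polynomial.map_eq_zero_iff (Subring.inclusion_injective hle)).1 hq.symm)
  · have h2 : q.eval₂ (ev (algebraMap (algebraicClosure ℚ L) L) w) f =
        (q.map (ev (algebraMap (algebraicClosure ℚ L) L) w).rangeRestrict).eval₂
          (ev (algebraMap (algebraicClosure ℚ L) L) w).range.subtype f := by
      rw [Polynomial.eval₂_map]
      rfl
    rw [h2, hq, Polynomial.eval₂_map]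
    exact hf

end Pool.Agent.Work.MP_e97a4d_nt.CT
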