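import Pool.Agent.Work.MP_e97a4d_nt.CT.Defs

/-!
# CT/NewtDesc (size S-M): Newton data in a subfield

PROOF. `E := ev (algebraMap K M) (fun _ => ε)`, `E₁ := ev (algebraMap K₁ L₁) (fun _ => ε₁)`,
`E (lpm κ p) = i (E₁ p)` (`lp_hom_ext`, `ev_single`, `lpm_single`, `map_prod`/`map_zpow₀`). `eq`: `i` is injective.
`ind`: apply `i` to the relation; `Newt.ind` gives `lpm κ (p i) = 0`, and `lpm κ` is injective (`lpm_coeff`). `bd`:
`lpm_support`. `fac`: the map `Polynomial.map κ` is injective, both sides map to the two sides of `Newt.fac`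
(`lpm_coeff`, `Polynomial.map_prod`). `ne`: `κ (c₁ l) = c l`.
-/

set_option autoImplicit false

noncomputable section

namespace Pool.Agent.Work.MP_e97a4d_nt.CT

open Pool.Agent.Work.UP

theorem newt_desc {K M K₁ L₁ : Type} [Field K] [Field M] [Field K₁] [Field L₁] [Algebra K M]
    [Algebra K₁ L₁] (i : L₁ →+* M) (κ : K₁ →+* K)
    (hκ : i.comp (algebraMap K₁ L₁) = (algebraMap K M).comp κ) (ε : Mˣ) (ε₁ : L₁ˣ)
    (hε : i ε₁ = (ε : M)) {y : M} {m : ℕ} {φ : Fin m → Lp K 1} {lam : ℤ} {c : Fin m → K}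
    (h : Newt (ev (algebraMap K M) (fun _ => ε)) y m φ lam c) (y₁ : L₁) (hy : i y₁ = y)
    (φ₁ : Fin m → Lp K₁ 1) (hφ : ∀ j, lpm κ (φ₁ j) = φ j) (c₁ : Fin m → K₁)
    (hc : ∀ l, κ (c₁ l) = c l) :
    Newt (ev (algebraMap K₁ L₁) (fun _ => ε₁)) y₁ m φ₁ lam c₁ := by
  have hE : ∀ p : Lp K₁ 1, ev (algebraMap K M) (fun _ => ε) (lpm κ p) =
      i (ev (algebraMap K₁ L₁) (fun _ => ε₁) p) := by
    have h1 : (ev (algebraMap K M) (fun _ : Fin 1 => ε)).comp (lpm κ) =
        i.comp (ev (algebraMap K₁ L₁) (fun _ : Fin 1 => ε₁)) := by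
      apply lp_hom_ext
      intro s a
      rw [RingHom.comp_apply, lpm_single, ev_single, RingHom.comp_apply, ev_single, map_mul]
      congr 1
      · exact (RingHom.congr_fun hκ a).symm
      · unfold mon cu
        rw [map_prod]
        refine Finset.prod_congr rfl fun j _ => ?_
        rw [map_zpow₀, hε]
    exact fun p => RingHom.congr_fun h1 p
  have hsum : ∀ p : Fin m → Lp K₁ 1,
      i (∑ j : Fin m, ev (algebraMap K₁ L₁) (fun _ => ε₁) (p j) * y₁ ^ (j : ℕ)) =
        ∑ j : Fin m, ev (algebraMap K M) (fun _ => ε) (lpm κ (p j)) * y ^ (j : ℕ) := by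
    intro p
    rw [map_sum]
    refine Finset.sum_congr rfl fun j _ => ?_
    rw [map_mul, map_pow, hy, hE]
  have hinj : ∀ p : Lp K₁ 1, lpm κ p = 0 → p = 0 := by
    intro p hp
    have h1 : p.coeff = 0 := by
      ext e
      have h2 : (lpm κ p).coeff e = 0 := by rw [hp]; rfl
      rw [lpm_coeff, map_eq_zero] at h2
      exact h2
    exact AddMonoidAlgebra.coeff_injective h1
  constructor
  · apply i.injective
    rw [map_pow, hy, hsum, h.eq]
    simp only [hφ]
  · intro p hp
    have h1 := hsum p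
    rw [hp, map_zero] at h1
    have h2 := h.ind (fun j => lpm κ (p j)) h1.symm
    funext j
    exact hinj _ (congrFun h2 j)
  · intro j e he
    refine h.bd j e ?_
    rw [← hφ, lpm_support]
    exact he
  · apply Polynomial.map_injective κ κ.injective
    rw [Polynomial.map_sub, Polynomial.map_pow, Polynomial.map_X, Polynomial.map_sum, Polynomial.map_prod]
    have h1 := h.fac
    refine Eq.trans ?_ (h1.trans ?_)
    · congr 1
      refine Finset.sum_congr rfl fun j _ => ?_
      rw [Polynomial.map_mul, Polynomial.map_C, Polynomial.map_pow, Polynomial.map_X, ← lpm_coeff, hφ]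
    · refine Finset.prod_congr rfl fun l _ => ?_
      rw [Polynomial.map_sub, Polynomial.map_X, Polynomial.map_C, hc]
  · obtain ⟨l, l', hl⟩ := h.ne
    refine ⟨l, l', fun h1 => hl ?_⟩
    rw [← hc, ← hc, h1]

end Pool.Agent.Work.MP_e97a4d_nt.CT
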