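import Pool.Agent.Work.MP_e97a4d_nt.CT.Defs

/-!
# CT/GapSmul (size S): scaling of directions

PROOF. `Lev E (r • ξ) y (r * μ)` from `Lev E ξ y μ`: `dg (r • ξ) e = r * dg ξ e`, the same `m, R, A`. `Gap`: keep
`k, y, s`, take `r * μ j`, `r * c` and `ρ * r`. Given `N, h, x` for the direction `r • ξ` use the hypothesis for
`h' := r * h`: `1 / (ρ * r) ≤ h` gives `1 / ρ ≤ h'`; `h * (r • ξ) l = h' * ξ l`, `(ρ * r) * h = ρ * h'`,
`(μ j - c) * h' = (r * μ j - r * c) * h`.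
-/

set_option autoImplicit false

noncomputable section

namespace Pool.Agent.Work.MP_e97a4d_nt.CT

open Pool.Agent.Work.UP

variable {K L : Type} [Field K] [Field L] {d : ℕ}

private theorem dg_smul (ξ : Fin d → ℝ) (r : ℝ) (e : Fin d → ℤ) : dg (r • ξ) e = r * dg ξ e := by
  unfold dg
  rw [Finset.mul_sum]
  refine Finset.sum_congr rfl fun l _ => ?_
  rw [Pi.smul_apply, smul_eq_mul]
  ring

private theorem lev_smul (E : Lp K d →+* L) (ξ : Fin d → ℝ) (r : ℝ) (hr : 0 < r) {y : L} {μ : ℝ}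
    (h : Lev E ξ y μ) : Lev E (r • ξ) y (r * μ) := by
  obtain ⟨m, R, A, hR, hA⟩ := h
  refine ⟨m, R, A, hR, fun n => ?_⟩
  obtain ⟨i, e, he, hle⟩ := hA n
  refine ⟨i, e, he, ?_⟩
  rw [dg_smul]
  have h1 := mul_le_mul_of_nonneg_left hle hr.le
  calc ((n : ℝ) - ((i : ℕ) : ℝ)) * (r * μ) = r * (((n : ℝ) - ((i : ℕ) : ℝ)) * μ) := by ring
    _ ≤ r * dg ξ e := h1

theorem gap_smul (E : Lp K d →+* L) (a : K → ℝ) (ξ : Fin d → ℝ) (h : Gap E a ξ) (r : ℝ)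
    (hr : 0 < r) : Gap E a (r • ξ) := by
  obtain ⟨k, y, μ, c, ρ, s, hc, hρ, hlev, hint, hN⟩ := h
  refine ⟨k, y, fun j => r * μ j, r * c, ρ * r, s, mul_pos hr hc, mul_pos hρ hr,
    fun j => lev_smul E ξ r hr (hlev j), hint, ?_⟩
  intro N h x hNm hh hx
  have h1 : 1 / ρ ≤ r * h := by
    rw [div_le_iff₀ (mul_pos hρ hr)] at hh
    rw [div_le_iff₀ hρ]
    calc (1 : ℝ) ≤ h * (ρ * r) := hh
      _ = r * h * ρ := by ring
  have h2 : ∀ l, |x l - r * h * ξ l| ≤ ρ * (r * h) := by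
    intro l
    have h3 := hx l
    rw [Pi.smul_apply, smul_eq_mul] at h3
    have e1 : r * h * ξ l = h * (r * ξ l) := by ring
    have e2 : ρ * (r * h) = ρ * r * h := by ring
    rw [e1, e2]
    exact h3
  obtain ⟨j, hj⟩ := hN N (r * h) x hNm h1 h2
  refine ⟨j, ?_⟩
  have e3 : (r * μ j - r * c) * h = (μ j - c) * (r * h) := by ring
  show N (y j) ≤ Real.exp ((r * μ j - r * c) * h)
  rw [e3]
  exact hj

end Pool.Agent.Work.MP_e97a4d_nt.CT
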