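import Pool.Agent.Work.MP_e97a4d_nt.CT.NewtLev
import Pool.Agent.Work.MP_e97a4d_nt.CT.GapSmul

/-!
# CT/NewtGap (size M-L): Newton data give a gap

PROOF of `newt_gap`. In `Gap` take `k = m`, `y l := y - E (single (fun _ => lam) (c l))`, `μ l := lam`
(`newt_lev`), `c₀ := 1 / (2 m)` (`m ≥ 1` by `Newt.ne`), `s := ` the finite set consisting of `y`, `1`, `-1`,
`E (single (fun _ => lam) 1)`, the `E (single (fun _ => lam) (c l))`, `E (single (fun _ => lam) (-(c l)))`, the
`E (single 0 x)` for the coefficients `x` of the leading form, and all `E (single e ((φ i).coeff e))`, `e` in the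
support of `φ i` (all integral: `y` by `Newt.eq`). Let `N, h, x` be given, `X := x 0`, `h ≥ 1 / ρ`, `|X - h| ≤ ρ h`,
`ρ ≤ 1 / 2`, so `X ≥ h / 2 > 0`; `dg x e = e 0 * X`.

(1) `N (E (φ i)) ≤ ∑ e, a (coeff) * exp (e 0 * X) ≤ C₁ * exp (lam (m - i) X)` with a constant `C₁ ≥ 0` depending on
`a` and the `φ i` only (`Newt.bd`, `X ≥ 0`). So with `r := N y * exp (-lam X)`:
`r ^ m ≤ ∑ i, C₁ * r ^ i` (`N (y ^ m) = (N y) ^ m`: `Nm.mul`, `Nm.one`), hence `r ≤ 1 + m C₁ =: C₂`
(if `r ≥ 1` divide by `r ^ (m-1)`). So `N y ≤ C₂ * exp (lam X)`.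

(2) Let `τ := E (single (fun _ => lam) 1)`, `κ i := (φ i).coeff (fun _ => lam * (m - i))` and
`φ' i := φ i - single (fun _ => lam * (m - i)) (κ i)`: all exponents of `φ' i` have `e 0 ≤ lam (m - i) - 1` (integers).
`∏ l, (y - c l τ) = y ^ m - ∑ i, κ i τ ^ (m - i) y ^ i` (evaluate `Newt.fac` at `y / τ` and multiply by `τ ^ m`)
`= ∑ i, E (φ' i) * y ^ i` (`Newt.eq`). So `∏ l, N (y l) ≤ ∑ i, N (E (φ' i)) * (N y) ^ i ≤
∑ i, C₁ exp ((lam (m - i) - 1) X) * C₂ ^ i * exp (lam i X) ≤ C₃ * exp ((lam m - 1) X)`, `C₃ := m C₁ C₂ ^ m`.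

(3) So some `l` has `N (y l) ≤ (C₃ + 1) ^ (1/m) * exp ((lam - 1/m) X)` (otherwise the product is larger). And
`(lam - 1/m) X ≤ (lam - 1/m) h + (|lam| + 1) ρ h`. If `ρ ≤ 1 / (4 m (|lam| + 1))` and
`ρ ≤ 1 / (4 (log (C₃ + 1) + 1))`, then `(1/m) log (C₃ + 1) ≤ h / (4 m)`, and altogether
`N (y l) ≤ exp ((lam - 1/m + 1/(4m) + 1/(4m)) h) = exp ((lam - c₀) h)`.

(All intermediate sums and products are in `Subring.closure s`; `Nm.add` for finite sums and `Nm.mul` for
finite products and powers by induction.)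

PROOF of `newt_zero`. In dimension one, `∑ ξ i = 0` with all `ξ i ≠ 0` and `s > 0`: some `ξ i 0 > 0` (if all were
negative the sum would be negative); `ξ i = (ξ i 0) • (fun _ => 1)`, `gap_smul`.
-/

set_option autoImplicit false

noncomputable section

namespace Pool.Agent.Work.MP_e97a4d_nt.CT

open Pool.Agent.Work.UP

section

variable {K L : Type} [Field K] [Field L]

private theorem nm_sum {d : ℕ} {E : Lp K d →+* L} {s : Set L} {a : K → ℝ} {x : Fin d → ℝ} {N : L → ℝ}
    (hN : Nm E s a x N) {ι : Type} (S : Finset ι) (f : ι → L)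
    (hf : ∀ i ∈ S, f i ∈ Subring.closure s) : N (∑ i ∈ S, f i) ≤ ∑ i ∈ S, N (f i) := by
  classical
  induction S using Finset.induction_on with
  | empty => simp [hN.zero]
  | insert b S hb ih =>
    rw [Finset.sum_insert hb, Finset.sum_insert hb]
    have h1 : ∀ i ∈ S, f i ∈ Subring.closure s := fun i hi => hf i (Finset.mem_insert_of_mem hi)
    refine (hN.add _ (hf b (Finset.mem_insert_self b S)) _ (Subring.sum_mem _ h1)).trans ?_
    exact add_le_add le_rfl (ih h1)

private theorem nm_prod {d : ℕ} {E : Lp K d →+* L} {s : Set L} {a : K → ℝ} {x : Fin d → ℝ} {N : L → ℝ}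
    (hN : Nm E s a x N) {ι : Type} (S : Finset ι) (f : ι → L)
    (hf : ∀ i ∈ S, f i ∈ Subring.closure s) : N (∏ i ∈ S, f i) = ∏ i ∈ S, N (f i) := by
  classical
  induction S using Finset.induction_on with
  | empty => simp [hN.one]
  | insert b S hb ih =>
    rw [Finset.prod_insert hb, Finset.prod_insert hb]
    have h1 : ∀ i ∈ S, f i ∈ Subring.closure s := fun i hi => hf i (Finset.mem_insert_of_mem hi)
    rw [hN.mul _ (hf b (Finset.mem_insert_self b S)) _ (Subring.prod_mem _ h1), ih h1]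

private theorem nm_pow {d : ℕ} {E : Lp K d →+* L} {s : Set L} {a : K → ℝ} {x : Fin d → ℝ} {N : L → ℝ}
    (hN : Nm E s a x N) {y : L} (hy : y ∈ Subring.closure s) (n : ℕ) : N (y ^ n) = N y ^ n := by
  induction n with
  | zero => simp [hN.one]
  | succ n ih => rw [pow_succ, pow_succ, hN.mul _ (pow_mem hy n) _ hy, ih]

private theorem root_bound {r C : ℝ} (_hr : 0 ≤ r) (hC : 0 ≤ C) {m : ℕ} (hm : 0 < m)
    (h : r ^ m ≤ ∑ i : Fin m, C * r ^ (i : ℕ)) : r ≤ 1 + m * C := by
  have hmC : 0 ≤ (m : ℝ) * C := mul_nonneg (Nat.cast_nonneg m) hC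
  rcases le_total r 1 with h1 | h1
  · linarith
  · obtain ⟨k, rfl⟩ : ∃ k, m = k + 1 := ⟨m - 1, by omega⟩
    have h2 : ∑ i : Fin (k + 1), C * r ^ (i : ℕ) ≤ ∑ _i : Fin (k + 1), C * r ^ k :=
      Finset.sum_le_sum fun i _ => mul_le_mul_of_nonneg_left
        (pow_le_pow_right₀ h1 (Nat.lt_succ_iff.1 i.2)) hC
    rw [Finset.sum_const, Finset.card_univ, Fintype.card_fin, nsmul_eq_mul] at h2
    have h3 : r * r ^ k ≤ (((k + 1 : ℕ) : ℝ) * C) * r ^ k := by
      have h4 : r ^ (k + 1) = r * r ^ k := pow_succ' r k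
      rw [← h4]
      refine (h.trans h2).trans (le_of_eq ?_)
      ring
    have h5 : 0 < r ^ k := pow_pos (by linarith) k
    have h6 := le_of_mul_le_mul_right h3 h5
    linarith

/-- The homogeneous form of a product of linear factors. -/
private theorem hom_prod {m : ℕ} (g : K →+* L) {κ c : Fin m → K}
    (hfac : Polynomial.X ^ m - ∑ i : Fin m, Polynomial.C (κ i) * Polynomial.X ^ (i : ℕ) =
      ∏ l : Fin m, (Polynomial.X - Polynomial.C (c l))) (y τ : L) (hτ : τ ≠ 0) :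
    ∏ l : Fin m, (y - g (c l) * τ) = y ^ m - ∑ i : Fin m, g (κ i) * τ ^ (m - (i : ℕ)) * y ^ (i : ℕ) := by
  have h1 := congrArg (Polynomial.eval₂ g (y * τ⁻¹)) hfac
  rw [Polynomial.eval₂_sub, Polynomial.eval₂_X_pow, Polynomial.eval₂_finsetSum,
    Polynomial.eval₂_finsetProd] at h1
  have h2 : ∀ l, (Polynomial.X - Polynomial.C (c l)).eval₂ g (y * τ⁻¹) = y * τ⁻¹ - g (c l) := by
    intro l
    rw [Polynomial.eval₂_sub, Polynomial.eval₂_X, Polynomial.eval₂_C]
  have h3 : ∀ i : Fin m, (Polynomial.C (κ i) * Polynomial.X ^ (i : ℕ)).eval₂ g (y * τ⁻¹) =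
      g (κ i) * (y * τ⁻¹) ^ (i : ℕ) := by
    intro i
    rw [Polynomial.eval₂_mul, Polynomial.eval₂_C, Polynomial.eval₂_X_pow]
  simp only [h2, h3] at h1
  have h4 : ∏ l : Fin m, (y - g (c l) * τ) = (∏ l : Fin m, (y * τ⁻¹ - g (c l))) * τ ^ m := by
    have h5 : τ ^ m = ∏ _l : Fin m, τ := by
      rw [Finset.prod_const, Finset.card_univ, Fintype.card_fin]
    rw [h5, ← Finset.prod_mul_distrib]
    refine Finset.prod_congr rfl fun l _ => ?_
    rw [sub_mul, mul_assoc, inv_mul_cancel₀ hτ, mul_one]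
  rw [h4, ← h1, sub_mul, ← mul_pow, mul_assoc, inv_mul_cancel₀ hτ, mul_one, Finset.sum_mul]
  congr 1
  refine Finset.sum_congr rfl fun i _ => ?_
  have h5 : τ ^ m = τ ^ (i : ℕ) * τ ^ (m - (i : ℕ)) := by
    rw [← pow_add]
    congr 1
    have := i.2
    omega
  have h6 : (y * τ⁻¹) ^ (i : ℕ) * τ ^ (i : ℕ) = y ^ (i : ℕ) := by
    rw [← mul_pow, mul_assoc, inv_mul_cancel₀ hτ, mul_one]
  rw [h5, ← h6]
  ring

private theorem single_pow2 (D : ℤ) (n : ℕ) :
    (AddMonoidAlgebra.single (fun _ => D) 1 : Lp K 1) ^ n =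
      AddMonoidAlgebra.single (fun _ => (n : ℤ) * D) 1 := by
  induction n with
  | zero =>
    rw [pow_zero, AddMonoidAlgebra.one_def]
    congr 1
    funext l
    simp
  | succ n ih =>
    rw [pow_succ, ih, AddMonoidAlgebra.single_mul_single, mul_one]
    congr 1
    funext l
    show (n : ℤ) * D + D = ((n + 1 : ℕ) : ℤ) * D
    push_cast
    ring

/-- The terms of `p` different from the term at `e₀`. -/
private theorem erase_sum (p : Lp K 1) (e₀ : Fin 1 → ℤ) :
    p - AddMonoidAlgebra.single e₀ (p.coeff e₀) =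
      ∑ e ∈ p.coeff.support.erase e₀, AddMonoidAlgebra.single e (p.coeff e) := by
  classical
  have h1 : ∑ e ∈ p.coeff.support, AddMonoidAlgebra.single e (p.coeff e) = p :=
    AddMonoidAlgebra.sum_coeff_single p
  by_cases h : e₀ ∈ p.coeff.support
  · rw [sub_eq_iff_eq_add, Finset.sum_erase_add _ _ h, h1]
  · rw [Finset.erase_eq_of_notMem h, h1, Finsupp.notMem_support_iff.1 h, AddMonoidAlgebra.single_zero,
      sub_zero]

/-- The size of a partial sum of the terms of `p`. -/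
private theorem nm_part {E : Lp K 1 →+* L} {s : Set L} {a : K → ℝ} {x : Fin 1 → ℝ} {N : L → ℝ}
    (hN : Nm E s a x N) (p : Lp K 1) (hp : ∀ e ∈ p.coeff.support,
      E (AddMonoidAlgebra.single e (p.coeff e)) ∈ s) (S : Finset (Fin 1 → ℤ))
    (hS : S ⊆ p.coeff.support) (D : ℝ) (hD : ∀ e ∈ S, (e 0 : ℝ) ≤ D) (hx : 0 ≤ x 0) {C : ℝ}
    (hC : ∑ e ∈ p.coeff.support, |a (p.coeff e)| ≤ C) :
    N (∑ e ∈ S, E (AddMonoidAlgebra.single e (p.coeff e))) ≤ C * Real.exp (D * x 0) := by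
  classical
  have h1 := nm_sum hN S (fun e => E (AddMonoidAlgebra.single e (p.coeff e)))
    (fun e he => Subring.subset_closure (hp e (hS he)))
  refine h1.trans ?_
  have h2 : ∑ e ∈ S, N (E (AddMonoidAlgebra.single e (p.coeff e))) ≤
      ∑ e ∈ S, |a (p.coeff e)| * Real.exp (D * x 0) := by
    refine Finset.sum_le_sum fun e he => ?_
    rw [hN.mono _ _ (hp e (hS he))]
    have h3 : dg x e = (e 0 : ℝ) * x 0 := by
      unfold dg
      rw [Finset.univ_unique, Finset.sum_singleton]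
      rfl
    rw [h3]
    refine mul_le_mul (le_abs_self _) (Real.exp_le_exp.2 ?_) (Real.exp_pos _).le (abs_nonneg _)
    exact mul_le_mul_of_nonneg_right (hD e he) hx
  refine h2.trans ?_
  rw [← Finset.sum_mul]
  refine mul_le_mul_of_nonneg_right ?_ (Real.exp_pos _).le
  exact (Finset.sum_le_sum_of_subset_of_nonneg hS fun e _ _ => abs_nonneg _).trans hC

private theorem elem_int {E : Lp K 1 →+* L} {y : L} {m : ℕ} {φ : Fin m → Lp K 1}
    (h : y ^ m = ∑ i : Fin m, E (φ i) * y ^ (i : ℕ)) : E.IsIntegralElem y := by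
  refine ⟨Polynomial.X ^ m - ∑ i : Fin m, Polynomial.C (φ i) * Polynomial.X ^ (i : ℕ),
    Polynomial.monic_X_pow_sub (Polynomial.degree_sum_fin_lt _), ?_⟩
  rw [Polynomial.eval₂_sub, Polynomial.eval₂_X_pow, Polynomial.eval₂_finsetSum, sub_eq_zero]
  refine h.trans (Finset.sum_congr rfl fun i _ => ?_)
  simp

/-- The estimates for one `N`. -/
private theorem est {E : Lp K 1 →+* L} {y : L} {m : ℕ} {φ : Fin m → Lp K 1} {lam : ℤ} {c : Fin m → K}
    (h : Newt E y m φ lam c) {s : Set L} {a : K → ℝ} {x : Fin 1 → ℝ} {N : L → ℝ} (hN : Nm E s a x N)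
    (hm : 0 < m) (hx : 0 ≤ x 0) (hy : y ∈ s)
    (hc : ∀ l, E (AddMonoidAlgebra.single (fun _ => lam) (c l)) ∈ s)
    (hφ : ∀ i, ∀ e ∈ (φ i).coeff.support, E (AddMonoidAlgebra.single e ((φ i).coeff e)) ∈ s)
    {C : ℝ} (hC : ∀ i, ∑ e ∈ (φ i).coeff.support, |a ((φ i).coeff e)| ≤ C) (hC0 : 0 ≤ C) :
    ∏ l : Fin m, N (y - E (AddMonoidAlgebra.single (fun _ => lam) (c l))) ≤
      (m * C * (1 + m * C) ^ m) * Real.exp ((lam * m - 1) * x 0) := by
  classical
  set R := Subring.closure s with hR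
  have hyR : y ∈ R := Subring.subset_closure hy
  have hφR : ∀ i, ∀ e ∈ (φ i).coeff.support, E (AddMonoidAlgebra.single e ((φ i).coeff e)) ∈ R :=
    fun i e he => Subring.subset_closure (hφ i e he)
  have hφs : ∀ i, E (φ i) = ∑ e ∈ (φ i).coeff.support, E (AddMonoidAlgebra.single e ((φ i).coeff e)) := by
    intro i
    rw [← map_sum]
    congr 1
    exact (AddMonoidAlgebra.sum_coeff_single (φ i)).symm
  set t : ℝ := Real.exp (lam * x 0) with ht
  have ht0 : 0 < t := Real.exp_pos _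
  have htp : ∀ i : Fin m, Real.exp (((lam : ℝ) * ((m : ℝ) - ((i : ℕ) : ℝ))) * x 0) = t ^ (m - (i : ℕ)) := by
    intro i
    rw [ht, ← Real.exp_nat_mul]
    congr 1
    rw [Nat.cast_sub i.2.le]
    ring
  -- the size of `y`
  have hNy0 : 0 ≤ N y := hN.nonneg y hyR
  have hb1 : ∀ i : Fin m, N (E (φ i)) ≤ C * t ^ (m - (i : ℕ)) := by
    intro i
    rw [hφs i, ← htp i]
    refine nm_part hN (φ i) (hφ i) _ (Finset.Subset.refl _) _ ?_ hx (hC i)
    intro e he
    have h1 := h.bd i e he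
    have h2 : (e 0 : ℝ) ≤ ((lam * ((m : ℤ) - ((i : ℕ) : ℤ)) : ℤ) : ℝ) := by exact_mod_cast h1
    push_cast at h2
    exact h2
  have hφR' : ∀ i, E (φ i) ∈ R := by
    intro i
    rw [hφs i]
    exact Subring.sum_mem _ fun e he => hφR i e he
  have hb2 : (N y) ^ m ≤ ∑ i : Fin m, (C * t ^ (m - (i : ℕ))) * (N y) ^ (i : ℕ) := by
    rw [← nm_pow hN hyR, h.eq]
    refine (nm_sum hN Finset.univ (fun i : Fin m => E (φ i) * y ^ (i : ℕ))
      (fun i _ => mul_mem (hφR' i) (pow_mem hyR _))).trans ?_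
    refine Finset.sum_le_sum fun i _ => ?_
    rw [hN.mul _ (hφR' i) _ (pow_mem hyR _), nm_pow hN hyR]
    exact mul_le_mul_of_nonneg_right (hb1 i) (pow_nonneg hNy0 _)
  have hr : N y / t ≤ 1 + m * C := by
    refine root_bound (div_nonneg hNy0 ht0.le) hC0 hm ?_
    have h1 : (N y / t) ^ m = (N y) ^ m / t ^ m := div_pow _ _ _
    rw [h1, div_le_iff₀ (pow_pos ht0 m), Finset.sum_mul]
    refine hb2.trans (le_of_eq (Finset.sum_congr rfl fun i _ => ?_))
    have h2 : t ^ m = t ^ (m - (i : ℕ)) * t ^ (i : ℕ) := by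
      rw [← pow_add]
      congr 1
      have := i.2
      omega
    rw [h2, div_pow]
    field_simp
  have hNy : N y ≤ (1 + m * C) * t := by
    rwa [div_le_iff₀ ht0] at hr
  -- the product
  have hτ0 : E (AddMonoidAlgebra.single (fun _ => lam) 1) ≠ 0 := by
    have hτ' : E (AddMonoidAlgebra.single (fun _ => lam) 1) *
        E (AddMonoidAlgebra.single (fun _ => -lam) 1) = 1 := by
      rw [← map_mul, AddMonoidAlgebra.single_mul_single, mul_one]
      have h1 : ((fun _ => lam) + (fun _ => -lam) : Fin 1 → ℤ) = 0 := by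
        funext l
        simp
      rw [h1, ← AddMonoidAlgebra.one_def, map_one]
    exact left_ne_zero_of_mul_eq_one hτ'
  have hgc : ∀ (k : K), E (AddMonoidAlgebra.single (fun _ => lam) k) =
      (E.comp lC) k * E (AddMonoidAlgebra.single (fun _ => lam) 1) := by
    intro k
    show _ = E (AddMonoidAlgebra.single 0 k) * _
    rw [← map_mul, AddMonoidAlgebra.single_mul_single, mul_one, zero_add]
  have hgk : ∀ (i : Fin m) (k : K),
      E (AddMonoidAlgebra.single (fun _ => lam * ((m : ℤ) - ((i : ℕ) : ℤ))) k) =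
      (E.comp lC) k * E (AddMonoidAlgebra.single (fun _ => lam) 1) ^ (m - (i : ℕ)) := by
    intro i k
    show _ = E (AddMonoidAlgebra.single 0 k) * _
    rw [← map_pow, single_pow2, ← map_mul, AddMonoidAlgebra.single_mul_single, mul_one, zero_add]
    congr 2
    funext l
    rw [Nat.cast_sub i.2.le]
    ring
  have hprod : ∏ l : Fin m, (y - E (AddMonoidAlgebra.single (fun _ => lam) (c l))) =
      ∑ i : Fin m, (∑ e ∈ (φ i).coeff.support.erase (fun _ => lam * ((m : ℤ) - ((i : ℕ) : ℤ))),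
        E (AddMonoidAlgebra.single e ((φ i).coeff e))) * y ^ (i : ℕ) := by
    have h1 := hom_prod (E.comp lC) h.fac y _ hτ0
    have h2 : ∏ l : Fin m, (y - E (AddMonoidAlgebra.single (fun _ => lam) (c l))) =
        ∏ l : Fin m, (y - (E.comp lC) (c l) * E (AddMonoidAlgebra.single (fun _ => lam) 1)) :=
      Finset.prod_congr rfl fun l _ => by rw [hgc]
    rw [h2, h1, h.eq, ← Finset.sum_sub_distrib]
    refine Finset.sum_congr rfl fun i _ => ?_
    rw [← hgk i, ← sub_mul, ← map_sub, erase_sum, map_sum]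
  have hyl : ∀ l, y - E (AddMonoidAlgebra.single (fun _ => lam) (c l)) ∈ R :=
    fun l => sub_mem hyR (Subring.subset_closure (hc l))
  rw [← nm_prod hN Finset.univ _ (fun l _ => hyl l), hprod]
  have hb3 : ∀ i : Fin m, (∑ e ∈ (φ i).coeff.support.erase (fun _ => lam * ((m : ℤ) - ((i : ℕ) : ℤ))),
      E (AddMonoidAlgebra.single e ((φ i).coeff e))) ∈ R := fun i =>
    Subring.sum_mem _ fun e he => hφR i e (Finset.mem_of_mem_erase he)
  refine (nm_sum hN Finset.univ _ (fun i _ => mul_mem (hb3 i) (pow_mem hyR _))).trans ?_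
  have hb4 : ∀ i : Fin m, N ((∑ e ∈ (φ i).coeff.support.erase
      (fun _ => lam * ((m : ℤ) - ((i : ℕ) : ℤ))), E (AddMonoidAlgebra.single e ((φ i).coeff e))) *
        y ^ (i : ℕ)) ≤ (C * (1 + m * C) ^ m) * Real.exp ((lam * m - 1) * x 0) := by
    intro i
    rw [hN.mul _ (hb3 i) _ (pow_mem hyR _), nm_pow hN hyR]
    have h1 := nm_part hN (φ i) (hφ i)
      ((φ i).coeff.support.erase (fun _ => lam * ((m : ℤ) - ((i : ℕ) : ℤ))))
      (Finset.erase_subset _ _) ((lam : ℝ) * ((m : ℝ) - ((i : ℕ) : ℝ)) - 1) (by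
        intro e he
        have h1 := h.bd i e (Finset.mem_of_mem_erase he)
        have h2 : e 0 ≠ lam * ((m : ℤ) - ((i : ℕ) : ℤ)) := by
          intro h3
          apply Finset.ne_of_mem_erase he
          funext l
          have h4 : l = 0 := Subsingleton.elim _ _
          rw [h4, h3]
        have h3 : e 0 ≤ lam * ((m : ℤ) - ((i : ℕ) : ℤ)) - 1 := by omega
        have h4 : (e 0 : ℝ) ≤ ((lam * ((m : ℤ) - ((i : ℕ) : ℤ)) - 1 : ℤ) : ℝ) := by exact_mod_cast h3
        push_cast at h4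
        exact h4) hx (hC i)
    have h2 : (N y) ^ (i : ℕ) ≤ (1 + m * C) ^ m * t ^ (i : ℕ) := by
      have h3 : (1 : ℝ) ≤ 1 + m * C := by
        have := mul_nonneg (Nat.cast_nonneg (α := ℝ) m) hC0
        linarith
      calc (N y) ^ (i : ℕ) ≤ ((1 + m * C) * t) ^ (i : ℕ) := pow_le_pow_left₀ hNy0 hNy _
        _ = (1 + m * C) ^ (i : ℕ) * t ^ (i : ℕ) := mul_pow _ _ _
        _ ≤ (1 + m * C) ^ m * t ^ (i : ℕ) :=
          mul_le_mul_of_nonneg_right (pow_le_pow_right₀ h3 i.2.le) (pow_nonneg ht0.le _)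
    refine (mul_le_mul h1 h2 (pow_nonneg hNy0 _) (mul_nonneg hC0 (Real.exp_pos _).le)).trans
      (le_of_eq ?_)
    have h3 : Real.exp (((lam : ℝ) * ((m : ℝ) - ((i : ℕ) : ℝ)) - 1) * x 0) * t ^ (i : ℕ) =
        Real.exp ((lam * m - 1) * x 0) := by
      rw [ht, ← Real.exp_nat_mul, ← Real.exp_add]
      congr 1
      ring
    rw [← h3]
    ring
  refine (Finset.sum_le_sum fun i _ => hb4 i).trans (le_of_eq ?_)
  rw [Finset.sum_const, Finset.card_univ, Fintype.card_fin, nsmul_eq_mul]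
  ring

end

theorem newt_gap {K L : Type} [Field K] [Field L] (E : Lp K 1 →+* L) (hE : Function.Injective E)
    {y : L} {m : ℕ} {φ : Fin m → Lp K 1} {lam : ℤ} {c : Fin m → K} (h : Newt E y m φ lam c)
    (a : K → ℝ) : Gap E a (fun _ => 1) := by
  classical
  obtain ⟨l₀, -, -⟩ := h.ne
  have hm : 0 < m := by
    have := l₀.2
    omega
  have hmR : (0 : ℝ) < m := by exact_mod_cast hm
  set C : ℝ := ∑ i : Fin m, ∑ e ∈ (φ i).coeff.support, |a ((φ i).coeff e)| with hCdef
  have hC0 : 0 ≤ C := Finset.sum_nonneg fun i _ => Finset.sum_nonneg fun e _ => abs_nonneg _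
  have hC : ∀ i, ∑ e ∈ (φ i).coeff.support, |a ((φ i).coeff e)| ≤ C := fun i =>
    Finset.single_le_sum (f := fun i : Fin m => ∑ e ∈ (φ i).coeff.support, |a ((φ i).coeff e)|)
      (fun i _ => Finset.sum_nonneg fun e _ => abs_nonneg _) (Finset.mem_univ i)
  set C₃ : ℝ := m * C * (1 + m * C) ^ m with hC₃
  have hC₃0 : 0 ≤ C₃ := by
    refine mul_nonneg (mul_nonneg hmR.le hC0) (pow_nonneg ?_ _)
    have := mul_nonneg hmR.le hC0
    linarith
  have hlog : 0 ≤ Real.log (C₃ + 1) := Real.log_nonneg (by linarith)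
  set B : ℝ := 4 * (m * |(lam : ℝ)| + 1) + 4 * (Real.log (C₃ + 1) + 1) with hB
  have hml : 0 ≤ (m : ℝ) * |(lam : ℝ)| := mul_nonneg hmR.le (abs_nonneg _)
  have hB8 : 8 ≤ B := by
    rw [hB]
    linarith
  set s : Finset L := insert y ((Finset.univ.image fun l : Fin m =>
      E (AddMonoidAlgebra.single (fun _ => lam) (c l))) ∪
    (Finset.univ.biUnion fun i : Fin m => (φ i).coeff.support.image fun e =>
      E (AddMonoidAlgebra.single e ((φ i).coeff e)))) with hs
  refine ⟨m, fun l => y - E (AddMonoidAlgebra.single (fun _ => lam) (c l)), fun _ => (lam : ℝ),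
    1 / (2 * m), 1 / B, s, by positivity, by positivity, fun l => newt_lev E hE h l, ?_, ?_⟩
  · intro f hf
    rw [hs, Finset.mem_insert, Finset.mem_union, Finset.mem_image, Finset.mem_biUnion] at hf
    rcases hf with hf | ⟨l, -, hf⟩ | ⟨i, -, hf⟩
    · rw [hf]
      exact elem_int h.eq
    · rw [← hf]
      exact RingHom.isIntegralElem_map E
    · rw [Finset.mem_image] at hf
      obtain ⟨e, -, hf⟩ := hf
      rw [← hf]
      exact RingHom.isIntegralElem_map E
  · intro N hh x hN hhB hxh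
    rw [one_div_one_div] at hhB
    have hh0 : 0 < hh := by linarith
    have hx0 := hxh 0
    rw [mul_one] at hx0
    have hρ : 1 / B * hh ≤ hh / 8 := by
      rw [one_div, inv_mul_eq_div]
      exact div_le_div_of_nonneg_left hh0.le (by norm_num) hB8
    have hX : 0 ≤ x 0 := by
      have h1 := (abs_le.1 hx0).1
      linarith
    have hy : y ∈ (s : Set L) := by
      rw [hs]
      exact_mod_cast Finset.mem_insert_self _ _
    have hc : ∀ l, E (AddMonoidAlgebra.single (fun _ => lam) (c l)) ∈ (s : Set L) := by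
      intro l
      rw [Finset.mem_coe, hs, Finset.mem_insert, Finset.mem_union]
      exact Or.inr (Or.inl (Finset.mem_image_of_mem _ (Finset.mem_univ l)))
    have hφ : ∀ i, ∀ e ∈ (φ i).coeff.support,
        E (AddMonoidAlgebra.single e ((φ i).coeff e)) ∈ (s : Set L) := by
      intro i e he
      rw [Finset.mem_coe, hs, Finset.mem_insert, Finset.mem_union]
      refine Or.inr (Or.inr (Finset.mem_biUnion.2 ⟨i, Finset.mem_univ i, ?_⟩))
      exact Finset.mem_image_of_mem (fun e => E (AddMonoidAlgebra.single e ((φ i).coeff e))) he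
    have hest := est h hN hm hX hy hc hφ hC hC0
    by_contra hcon
    push Not at hcon
    have h1 : ∏ _l : Fin m, Real.exp (((lam : ℝ) - 1 / (2 * m)) * hh) ≤
        ∏ l : Fin m, N (y - E (AddMonoidAlgebra.single (fun _ => lam) (c l))) :=
      Finset.prod_le_prod (fun l _ => (Real.exp_pos _).le) fun l _ => (hcon l).le
    rw [Finset.prod_const, Finset.card_univ, Fintype.card_fin, ← Real.exp_nat_mul] at h1
    have h2 : (m : ℝ) * (((lam : ℝ) - 1 / (2 * m)) * hh) = m * lam * hh - hh / 2 := by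
      field_simp
    rw [h2] at h1
    have h3 := h1.trans hest
    have h4 : C₃ * Real.exp ((lam * m - 1) * x 0) <
        Real.exp (Real.log (C₃ + 1) + (lam * m - 1) * x 0) := by
      rw [Real.exp_add, Real.exp_log (by linarith)]
      exact mul_lt_mul_of_pos_right (by linarith) (Real.exp_pos _)
    have h5 := Real.exp_lt_exp.1 (lt_of_le_of_lt h3 h4)
    have h6 : ((lam : ℝ) * m - 1) * (x 0 - hh) ≤ hh / 4 := by
      have h7 : |(lam : ℝ) * m - 1| ≤ m * |(lam : ℝ)| + 1 := by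
        refine (abs_sub _ _).trans ?_
        rw [abs_mul, abs_one, abs_of_pos hmR, mul_comm]
      have h8 : (m * |(lam : ℝ)| + 1) * (1 / B * hh) ≤ hh / 4 := by
        have h9 : (m * |(lam : ℝ)| + 1) * 4 ≤ B := by
          rw [hB]
          linarith
        have hBp : 0 < B := by linarith
        rw [one_div, inv_mul_eq_div, mul_div_assoc', div_le_div_iff₀ hBp (by norm_num)]
        calc (m * |(lam : ℝ)| + 1) * hh * 4 = ((m * |(lam : ℝ)| + 1) * 4) * hh := by ring
          _ ≤ B * hh := mul_le_mul_of_nonneg_right h9 hh0.le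
          _ = hh * B := mul_comm _ _
      calc ((lam : ℝ) * m - 1) * (x 0 - hh) ≤ |((lam : ℝ) * m - 1) * (x 0 - hh)| := le_abs_self _
        _ = |(lam : ℝ) * m - 1| * |x 0 - hh| := abs_mul _ _
        _ ≤ (m * |(lam : ℝ)| + 1) * (1 / B * hh) :=
          mul_le_mul h7 hx0 (abs_nonneg _) (by linarith)
        _ ≤ hh / 4 := h8
    have h7 : Real.log (C₃ + 1) ≤ hh / 4 := by
      have h8 : 4 * (Real.log (C₃ + 1) + 1) ≤ B := by
        rw [hB]
        linarith
      linarith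
    nlinarith

theorem newt_zero {K L : Type} [Field K] [Field L] (E : Lp K 1 →+* L) (hE : Function.Injective E)
    {y : L} {m : ℕ} {φ : Fin m → Lp K 1} {lam : ℤ} {c : Fin m → K} (h : Newt E y m φ lam c)
    (s : ℕ) (ξ : Fin s → Fin 1 → ℝ) (hs : 0 < s) (hξ : ∀ i, ξ i ≠ 0) (h0 : ∑ i, ξ i = 0) :
    ∃ i, ∀ a : K → ℝ, Gap E a (ξ i) := by
  obtain ⟨i, hi⟩ : ∃ i, 0 < ξ i 0 := by
    by_contra hcon
    push Not at hcon
    have h1 : ∑ i, ξ i 0 = 0 := by
      have := congrFun h0 0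
      simpa using this
    have h2 : ∀ i, ξ i 0 = 0 := by
      intro i
      exact (Finset.sum_eq_zero_iff_of_nonpos (fun i _ => hcon i)).1 h1 i (Finset.mem_univ i)
    apply hξ ⟨0, hs⟩
    funext l
    have h3 : l = 0 := Subsingleton.elim _ _
    rw [h3, h2]
    rfl
  refine ⟨i, fun a => ?_⟩
  have h1 : ξ i = (ξ i 0) • (fun _ : Fin 1 => (1 : ℝ)) := by
    funext l
    have h2 : l = 0 := Subsingleton.elim _ _
    rw [h2]
    simp
  rw [h1]
  exact gap_smul E a _ (newt_gap E hE h a) _ hi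

end Pool.Agent.Work.MP_e97a4d_nt.CT
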