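import Pool.Agent.Work.MP_e97a4d_nt.CT.Defs
import Pool.Agent.Work.UP.LUfd

/-!
# CT/RedEx (size M): reductions of powers exist

PROOF. Let `P := Lp K d`; it is a unique factorization domain (`lp_ufd`, UP/LUfd), so integrally closed
(`IsIntegrallyClosed`, instance from `UniqueFactorizationMonoid`; `Lp K d` is a domain: see UP/LUfd for the
instance used there). Give `L` the algebra structure `E.toAlgebra` over `P`; it is torsion free because `E`
is injective. Let `f := minpoly P y`: monic, of positive degree `m := f.natDegree`, and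
`f ∣ q` for all `q` in `P[X]` with `aeval y q = 0` (`minpoly.isIntegrallyClosed_dvd`).
`A n i := (X ^ n %ₘ f).coeff i`.
* `eq`: `X ^ n = f * _ + X ^ n %ₘ f` (`Polynomial.modByMonic_add_div`), apply `aeval y`;
  `natDegree (X ^ n %ₘ f) < m` (`Polynomial.natDegree_modByMonic_lt`), so its value at `y` is the sum over
  `i < m` (`Polynomial.eval₂_eq_sum_range'`, `Fin.sum_univ_eq_sum_range`).
* `ind`: `q := ∑ i, C (p i) * X ^ i` has degree `< m` and `aeval y q = 0`, so `f ∣ q`, so `q = 0`
  (`Polynomial.eq_zero_of_dvd_of_natDegree_lt` or degree version), so all coefficients are zero.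
* `box`: let `R` be a natural number with `|e l| ≤ R` for all `i < m`, `e ∈ (f.coeff i).coeff.support`, `l`
  (finitely many). Induction on `n`. `n = 0`: `X ^ 0 %ₘ f = 1` if `m ≥ 1` (`f` monic of positive degree), the
  exponents are `0`. Step: with `r = X ^ n %ₘ f`, `X ^ (n+1) %ₘ f = X * r - C (r.coeff (m-1)) * f` (the right side
  has degree `< m` and differs from `X ^ (n+1)` by a multiple of `f`: `Polynomial.div_modByMonic_unique`), so
  `A (n+1) i = A n (i-1) - A n (m-1) * f.coeff i` (`A n (-1) = 0`). The exponents of a sum or difference are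
  exponents of one of the terms, the exponents of a product are sums of exponents
  (`AddMonoidAlgebra.support_mul`, `Finset.mem_add`).
-/

set_option autoImplicit false

noncomputable section

namespace Pool.Agent.Work.MP_e97a4d_nt.CT

open Pool.Agent.Work.UP

private theorem ex_min {K L : Type} [Field K] [Field L] {d : ℕ} (E : Lp K d →+* L)
    (hE : Function.Injective E) (y : L) (hy : E.IsIntegralElem y) :
    ∃ f : Polynomial (Lp K d), f.Monic ∧ 0 < f.natDegree ∧ f.eval₂ E y = 0 ∧
      ∀ q : Polynomial (Lp K d), q.eval₂ E y = 0 → q.degree < f.degree → q = 0 := by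
  have := lp_ufd K d
  let _ : Algebra (Lp K d) L := E.toAlgebra
  have hinj : Function.Injective (algebraMap (Lp K d) L) := hE
  have htf : Module.IsTorsionFree (Lp K d) L := Module.isTorsionFree_iff_algebraMap_injective.2 hinj
  have hint : IsIntegral (Lp K d) y := hy
  refine ⟨minpoly (Lp K d) y, minpoly.monic hint, minpoly.natDegree_pos hint, minpoly.aeval (Lp K d) y, ?_⟩
  intro q hq hd
  have h1 : minpoly (Lp K d) y ∣ q := minpoly.isIntegrallyClosed_dvd hint hq
  exact Polynomial.eq_zero_of_dvd_of_degree_lt h1 hd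

private theorem bd_mul {K : Type} [Field K] {d : ℕ} (p q : Lp K d) (A B : ℤ)
    (hp : ∀ e ∈ p.coeff.support, ∀ l, |e l| ≤ A) (hq : ∀ e ∈ q.coeff.support, ∀ l, |e l| ≤ B) :
    ∀ e ∈ (p * q).coeff.support, ∀ l, |e l| ≤ A + B := by
  classical
  intro e he l
  rw [Finsupp.mem_support_iff, AddMonoidAlgebra.coeff_mul] at he
  obtain ⟨m₁, h1, h2⟩ := Finset.exists_ne_zero_of_sum_ne_zero he
  obtain ⟨m₂, h3, h4⟩ := Finset.exists_ne_zero_of_sum_ne_zero h2
  have h5 : m₁ + m₂ = e := by
    by_contra h
    apply h4
    simp [h]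
  rw [← h5]
  exact (abs_add_le _ _).trans (add_le_add (hp _ h1 _) (hq _ h3 _))

private theorem bd_sub {K : Type} [Field K] {d : ℕ} (p q : Lp K d) (B : ℤ)
    (hp : ∀ e ∈ p.coeff.support, ∀ l, |e l| ≤ B) (hq : ∀ e ∈ q.coeff.support, ∀ l, |e l| ≤ B) :
    ∀ e ∈ (p - q).coeff.support, ∀ l, |e l| ≤ B := by
  intro e he l
  by_cases h1 : e ∈ p.coeff.support
  · exact hp e h1 l
  · by_cases h2 : e ∈ q.coeff.support
    · exact hq e h2 l
    · exfalso
      rw [Finsupp.mem_support_iff] at he
      apply he
      rw [Finsupp.notMem_support_iff] at h1 h2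
      show (p.coeff - q.coeff) e = 0
      rw [Finsupp.sub_apply, h1, h2, sub_zero]

private theorem mod_succ {R : Type} [CommRing R] [Nontrivial R] (f : Polynomial R) (hf : f.Monic)
    (hm : 0 < f.natDegree) (n : ℕ) :
    (Polynomial.X ^ (n + 1) : Polynomial R) %ₘ f = Polynomial.X * (Polynomial.X ^ n %ₘ f) -
      Polynomial.C ((Polynomial.X ^ n %ₘ f : Polynomial R).coeff (f.natDegree - 1)) * f := by
  set r : Polynomial R := Polynomial.X ^ n %ₘ f with hr
  have h1 : r + f * (Polynomial.X ^ n /ₘ f) = Polynomial.X ^ n := Polynomial.modByMonic_add_div _ _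
  have hdr : r.degree < (f.natDegree : WithBot ℕ) := by
    have := Polynomial.degree_modByMonic_lt (Polynomial.X ^ n) hf
    rwa [Polynomial.degree_eq_natDegree hf.ne_zero] at this
  rw [Polynomial.degree_lt_iff_coeff_zero] at hdr
  refine (Polynomial.div_modByMonic_unique (Polynomial.X * (Polynomial.X ^ n /ₘ f) +
    Polynomial.C (r.coeff (f.natDegree - 1))) _ hf ⟨?_, ?_⟩).2
  · linear_combination Polynomial.X * h1
  · rw [Polynomial.degree_eq_natDegree hf.ne_zero, Polynomial.degree_lt_iff_coeff_zero]
    intro k hk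
    obtain ⟨k', rfl⟩ : ∃ k', k = k' + 1 := ⟨k - 1, by omega⟩
    rw [Polynomial.coeff_sub, Polynomial.coeff_X_mul, Polynomial.coeff_C_mul]
    rcases Nat.lt_or_ge f.natDegree (k' + 1) with h2 | h2
    · rw [hdr k' (by omega), Polynomial.coeff_eq_zero_of_natDegree_lt h2, mul_zero, sub_zero]
    · have h3 : k' + 1 = f.natDegree := by omega
      have h4 : f.natDegree - 1 = k' := by omega
      rw [h4, h3]
      have h5 : f.coeff f.natDegree = 1 := hf
      rw [h5, mul_one, sub_self]

theorem red_exists {K L : Type} [Field K] [Field L] {d : ℕ} (E : Lp K d →+* L)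
    (hE : Function.Injective E) (y : L) (hy : E.IsIntegralElem y) :
    ∃ (m R : ℕ) (A : ℕ → Fin m → Lp K d), Red E y m R A := by
  obtain ⟨f, hf, hm, hfy, hmin⟩ := ex_min E hE y hy
  set m : ℕ := f.natDegree with hmd
  set r : ℕ → Polynomial (Lp K d) := fun n => Polynomial.X ^ n %ₘ f with hr
  have hdeg : ∀ n, (r n).degree < f.degree := fun n => Polynomial.degree_modByMonic_lt _ hf
  have hnd : ∀ n, (r n).natDegree < m := fun n =>
    Polynomial.natDegree_modByMonic_lt _ hf (fun h => by rw [hmd, h, Polynomial.natDegree_one] at hm; omega)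
  set R : ℕ := (Finset.range m).sup fun i => (f.coeff i).coeff.support.sup fun e =>
    Finset.univ.sup fun l => (e l).natAbs with hR
  have hRb : ∀ i < m, ∀ e ∈ (f.coeff i).coeff.support, ∀ l, |e l| ≤ (R : ℤ) := by
    intro i hi e he l
    have h1 : (e l).natAbs ≤ R := by
      calc (e l).natAbs ≤ Finset.univ.sup fun l => (e l).natAbs :=
            Finset.le_sup (f := fun l => (e l).natAbs) (Finset.mem_univ l)
        _ ≤ (f.coeff i).coeff.support.sup fun e => Finset.univ.sup fun l => (e l).natAbs :=
            Finset.le_sup (f := fun e : Fin d → ℤ => Finset.univ.sup fun l => (e l).natAbs) he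
        _ ≤ R := Finset.le_sup (f := fun i => (f.coeff i).coeff.support.sup fun e =>
            Finset.univ.sup fun l => (e l).natAbs) (Finset.mem_range.2 hi)
    rw [← Int.natCast_natAbs]
    exact_mod_cast h1
  refine ⟨m, R, fun n i => (r n).coeff i, hm, ?_, ?_, ?_⟩
  · intro n
    have h1 : (Polynomial.X ^ n : Polynomial (Lp K d)).eval₂ E y = y ^ n := by simp
    have h2 : r n + f * (Polynomial.X ^ n /ₘ f) = Polynomial.X ^ n := Polynomial.modByMonic_add_div _ _
    rw [← h1, ← h2, Polynomial.eval₂_add, Polynomial.eval₂_mul, hfy, zero_mul, add_zero,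
      Polynomial.eval₂_eq_sum_range' E (hnd n) y]
    exact Finset.sum_range fun i => E ((r n).coeff i) * y ^ i
  · intro n
    induction n with
    | zero =>
      intro i e he l
      have h1 : r 0 = 1 := by
        show (Polynomial.X ^ 0 : Polynomial (Lp K d)) %ₘ f = 1
        rw [pow_zero]
        refine (Polynomial.modByMonic_eq_self_iff hf).2 ?_
        rw [Polynomial.degree_one, Polynomial.degree_eq_natDegree hf.ne_zero]
        exact_mod_cast hm
      rw [h1, Polynomial.coeff_one] at he
      split_ifs at he with h2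
      · have h3 : e ∈ (Finsupp.single (0 : Fin d → ℤ) (1 : K)).support := he
        have h4 := Finsupp.support_single_subset h3
        rw [Finset.mem_singleton] at h4
        rw [h4]
        simp
      · simp at he
    | succ n ih =>
      intro i
      have h1 : (r (n + 1)).coeff i = (Polynomial.X * r n).coeff i - (r n).coeff (m - 1) * f.coeff i := by
        show ((Polynomial.X ^ (n + 1) : Polynomial (Lp K d)) %ₘ f).coeff i = _
        rw [mod_succ f hf hm n, Polynomial.coeff_sub, Polynomial.coeff_C_mul]
      have h2 : (n : ℤ) * (R : ℤ) ≤ ((n + 1 : ℕ) : ℤ) * (R : ℤ) := by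
        push_cast
        nlinarith [Int.natCast_nonneg R]
      have h3 : ((n + 1 : ℕ) : ℤ) * (R : ℤ) = (n : ℤ) * (R : ℤ) + (R : ℤ) := by
        push_cast
        ring
      rw [h1]
      refine bd_sub _ _ _ ?_ ?_
      · intro e he l
        obtain ⟨i, hi⟩ := i
        cases i with
        | zero =>
          rw [Polynomial.coeff_X_mul_zero] at he
          simp at he
        | succ i =>
          rw [Polynomial.coeff_X_mul] at he
          exact (ih ⟨i, by omega⟩ e he l).trans h2
      · rw [h3]
        exact bd_mul _ _ _ _ (ih ⟨m - 1, by omega⟩) (hRb i i.2)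
  · intro p hp
    set q : Polynomial (Lp K d) := ∑ i : Fin m, Polynomial.C (p i) * Polynomial.X ^ (i : ℕ) with hq
    have h1 : q.eval₂ E y = 0 := by
      rw [hq, Polynomial.eval₂_finsetSum, ← hp]
      refine Finset.sum_congr rfl fun i _ => ?_
      simp
    have h2 : q.degree < f.degree := by
      rw [Polynomial.degree_eq_natDegree hf.ne_zero]
      exact Polynomial.degree_sum_fin_lt p
    have h3 := hmin q h1 h2
    funext i
    have h4 : q.coeff i = p i := by
      rw [hq, Polynomial.finsetSum_coeff, Finset.sum_eq_single i]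
      · rw [Polynomial.coeff_C_mul_X_pow, if_pos rfl]
      · intro j _ hj
        rw [Polynomial.coeff_C_mul_X_pow, if_neg]
        intro h
        exact hj (Fin.ext h.symm)
      · intro h
        exact absurd (Finset.mem_univ i) h
    rw [← h4, h3, Polynomial.coeff_zero]
    rfl

end Pool.Agent.Work.MP_e97a4d_nt.CT
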