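import Pool.Agent.Work.MP_e97a4d_nt.CT.GBar
import Pool.Agent.Work.MP_e97a4d_nt.CT.OneAlg
import Pool.Agent.Work.MP_e97a4d_nt.CT.NewtGap
import Pool.Agent.Work.MP_e97a4d_nt.CT.NewtDesc
import Pool.Agent.Work.MP_e97a4d_nt.CT.Clear
import Pool.Agent.Work.MP_e97a4d_nt.CT.Arith
import Pool.Agent.Work.MP_e97a4d_nt.UE.Above

/-!
# CT/OneP (size M-L): one unit, arithmetic case

PROOF. `M := AlgebraicClosure L`, `Θb` from `g_bar`, `K := algebraicClosure ℚ M`, `Ω := AlgebraicClosure F`,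
`w' := algebraMap L M w` (as a unit), transcendental over `ℚ` (`hw`: a transcendence basis over `ℤ` is
algebraically independent; `algebraicIndependent_unique_type_iff`, from `ℤ` to `ℚ`:
`transcendental` over the fraction field).

(1) Reduction to integral elements. By `clear_den` with `tb_inj`, `tb_alg` (`k = 1`, `w = fun _ => w`) there is
`D ≠ 0` in `Lp (algebraicClosure ℚ L) 1` with `E₀ D * x` integral over the Laurent polynomials, `E₀ D ≠ 0`.
`Θb` of `E₀ D` is in `UF 𝒰`: `E₀ D` is a finite sum of constants times powers of `w` (`ev_eq`); constants go to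
`Set.range (cst ..)` (`g_con_b`; an element of `L` algebraic over `ℚ` is algebraic over `ℚ` in `M`), `Θb w'` is the
germ of `W`, an `IsUG` (`g_rt` with `e = 1`). So it is enough to show `Θb y ∈ UF 𝒰` for `y := E₀ D * x` (as an element
of `M`), because `UF 𝒰` is a subfield. `y` is integral over `ev (algebraMap K M) (fun _ => w')` (map the monic
equation: `algebraicClosure ℚ L → K`).

(2) `one_alg` for `w'`, `y` gives `e, ε`. `Θb ε ^ e = Θb w'`, so `IsUG 𝒰 (Θb ε)` by `g_rt`: number field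
`F₁ ⊂ Ω`, `S₁`, `V : T → F₁` units. In the first case `y = ev _ (fun _ => ε) p`, `Θb y` is a finite sum of constants times
powers of `Θb ε`: in `UF 𝒰`.

(3) In the second case we derive a contradiction. The finitely many coefficients (in `K`) of the `φ j`, the `c l`
and the coefficients of `p` have constant images `cst γ` with `γ ∈ Ω` (`g_con_b`). Let `F₂ ⊂ Ω` be the intermediate
field over `F` generated by `F₁` and these finitely many `γ`; it is finite over `F`, so a number field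
(`IntermediateField.sup`, `IntermediateField.adjoin` of finitely many algebraic elements,
`NumberField.of_module_finite F F₂`). Let `G := gMap 𝒰 (algebraMap F₂ Ω) : Germ 𝒰 F₂ →+* Germ 𝒰 Ω`, injective, and
`L₁ := G.fieldRange.comap Θb`, a subfield of `M`. It contains: the image of `L` (values in `F`, `F ⊂ F₂`), `ε` and its
inverse, the coefficients above, so also `y₀ := y - ev _ (fun _ => ε) p`. `Θ₁ : L₁ →+* Germ 𝒰 F₂` with
`G ∘ Θ₁ = Θb` on `L₁` (corestriction and inverse on the range of the injective `G`). Let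
`K₁ := algebraicClosure ℚ L₁`, `κ : K₁ →+* K` the inclusion (an element of `L₁` algebraic over `ℚ` is an element of
`M` algebraic over `ℚ`), `ε₁` the unit `ε` of `L₁`. The coefficients lie in `K ∩ L₁`, so they come from `K₁`:
`φ₁ j` with `lpm κ (φ₁ j) = φ j` (sum of the `single`s), `c₁ l`. `newt_desc` gives `Newt E₁ y₀ m φ₁ lam c₁` with
`E₁ := ev (algebraMap K₁ L₁) (fun _ => ε₁)`, injective since `ev (algebraMap K M) (fun _ => ε)` is injective
(`ε ^ e = w'` transcendental: the fourth part of `one_alg`).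
`V' τ := V τ` as a unit of `F₂` (`F₁ ⊂ F₂`), `IsUv S₂ _` for the finite set `S₂` of primes of `F₂` given by
`exists_above` for `F₁ → F₂` and `S₁` (units of the valuation rings). `Θ₁ ε₁ = germ of V'`: apply the injective `G`.
`arith` for `F₂, S₂, K₁, L₁, d = 1, t = fun _ => ε₁, Θ₁, W = fun τ _ => V' τ` and `newt_zero` gives `False`.
-/

set_option autoImplicit false

noncomputable section

namespace Pool.Agent.Work.MP_e97a4d_nt.CT

open Pool.Agent.Work.UP NumberField IsDedekindDomain Filter UE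

private theorem mk_one_iff {F : Type} [Field F] [NumberField F] (p : HeightOneSpectrum (𝓞 F))
    (x : F) : FinitePlace.mk p x = 1 ↔ p.valuation F x = 1 := by
  have hb : 1 < (Ideal.absNorm p.asIdeal : NNReal) := by
    exact_mod_cast NumberField.HeightOneSpectrum.one_lt_absNorm_nnreal p
  obtain ⟨f, hf, h1, h2⟩ : ∃ f : WithZero (Multiplicative ℤ) → NNReal, StrictMono f ∧ f 1 = 1 ∧
      FinitePlace.mk p x = f (p.valuation F x) := by
    refine ⟨_, WithZeroMulInt.toNNReal_strictMono hb, map_one _, ?_⟩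
    rw [FinitePlace.mk_apply, FinitePlace.norm_embedding, NumberField.HeightOneSpectrum.adicAbv_def]
  rw [h2]
  constructor
  · intro h
    have h3 : f (p.valuation F x) = f 1 := by
      rw [h1]
      exact_mod_cast h
    exact hf.injective h3
  · intro h
    rw [h, h1]
    norm_num

/-- units are units in an extension -/
private theorem isU_map {F F' : Type} [Field F] [NumberField F] [Field F'] [NumberField F']
    (ι : F →+* F') (S : Finset (HeightOneSpectrum (𝓞 F))) :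
    ∃ S' : Finset (HeightOneSpectrum (𝓞 F')), ∀ x : F, IsU S x → IsU S' (ι x) := by
  obtain ⟨S', hS'⟩ := exists_above ι S
  refine ⟨S', fun x hx => ⟨(map_ne_zero ι).2 hx.1, fun P hP => ?_⟩⟩
  obtain ⟨p, hp, hpP⟩ := hS' P hP
  have h1 : p.valuation F x = 1 := (mk_one_iff p x).1 (hx.2 p hp)
  have h2 := hpP x (by rw [Valuation.mem_valuationSubring_iff]; exact h1.le)
  have h3 := hpP x⁻¹ (by
    rw [Valuation.mem_valuationSubring_iff, map_inv₀, h1, inv_one])
  rw [Valuation.mem_valuationSubring_iff] at h2 h3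
  rw [mk_one_iff]
  refine le_antisymm h2 ?_
  rw [map_inv₀, map_inv₀] at h3
  have h4 : P.valuation F' (ι x) ≠ 0 := by
    rw [Valuation.ne_zero_iff]
    exact (map_ne_zero ι).2 hx.1
  exact (inv_le_one₀ (zero_lt_iff.2 h4)).1 h3

/-- values of Laurent polynomials in a unit -/
private theorem uf_ev {F : Type} [Field F] {T : Type} (𝒰 : Ultrafilter T) {K M : Type} [Field K]
    [Field M] (e : K →+* M) (Θb : M →+* Germ (𝒰 : Filter T) (AlgebraicClosure F))
    (hc : ∀ c : K, ∃ γ : AlgebraicClosure F, Θb (e c) = cst 𝒰 (AlgebraicClosure F) γ) (ε : Mˣ)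
    (hε : IsUG 𝒰 (Θb ε)) (p : Lp K 1) : Θb (ev e (fun _ => ε) p) ∈ UF 𝒰 := by
  rw [ev_eq, map_sum]
  refine sum_mem fun s _ => ?_
  rw [map_mul]
  refine mul_mem ?_ ?_
  · obtain ⟨γ, hγ⟩ := hc (p.coeff s)
    rw [hγ]
    exact Subfield.subset_closure (Or.inr ⟨γ, rfl⟩)
  · have h0 : Θb ε ∈ UF 𝒰 := Subfield.subset_closure (Or.inl hε)
    unfold mon cu
    rw [Fin.prod_univ_one, map_zpow₀]
    exact zpow_mem h0 _

/-- a homomorphism with values in the range of an injective homomorphism -/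
private theorem lift_range {A B C : Type} [Field A] [Field B] [Field C] (G : A →+* B) (f : C →+* B)
    (h : ∀ x, ∃ a, G a = f x) : ∃ g : C →+* A, ∀ x, G (g x) = f x := by
  choose g hg using h
  have hG := G.injective
  refine ⟨{ toFun := g, map_one' := ?_, map_mul' := ?_, map_zero' := ?_, map_add' := ?_ }, hg⟩
  · exact hG (by rw [hg, map_one, map_one])
  · intro x y
    exact hG (by rw [map_mul, hg, hg, hg, map_mul])
  · exact hG (by rw [hg, map_zero, map_zero])
  · intro x y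
    exact hG (by rw [map_add, hg, hg, hg, map_add])

/-- a Laurent polynomial with coefficients in a subfield -/
private theorem lpm_lift {K K₁ : Type} [Field K] [Field K₁] (κ : K₁ →+* K) (p : Lp K 1)
    (h : ∀ s, ∃ a, κ a = p.coeff s) : ∃ q : Lp K₁ 1, lpm κ q = p := by
  choose a ha using h
  refine ⟨∑ s ∈ p.coeff.support, AddMonoidAlgebra.single s (a s), ?_⟩
  rw [map_sum]
  simp only [lpm_single, ha]
  exact AddMonoidAlgebra.sum_coeff_single p

/-- the constants of a field and of an extension -/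
private theorem cst_map {L₁ M : Type} [Field L₁] [CharZero L₁] [Field M] [CharZero M]
    (i : L₁ →+* M) : ∃ κ : algebraicClosure ℚ L₁ →+* algebraicClosure ℚ M,
      ∀ a, (κ a : M) = i a := by
  have h : ∀ a : algebraicClosure ℚ L₁, i a ∈ algebraicClosure ℚ M := fun a =>
    (map_mem_algebraicClosure_iff (i.toRatAlgHom)).2 a.2
  exact ⟨(i.comp (algebraMap (algebraicClosure ℚ L₁) L₁)).codRestrict (algebraicClosure ℚ M) h,
    fun a => rfl⟩

private theorem ev_lpm' {K M K₁ L₁ : Type} [Field K] [Field M] [Field K₁] [Field L₁]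
    (e : K →+* M) (e₁ : K₁ →+* L₁) (i : L₁ →+* M) (κ : K₁ →+* K)
    (hκ : i.comp e₁ = e.comp κ) (ε : Mˣ) (ε₁ : L₁ˣ)
    (hε : i ε₁ = (ε : M)) (q : Lp K₁ 1) :
    ev e (fun _ => ε) (lpm κ q) = i (ev e₁ (fun _ => ε₁) q) := by
  have h : (ev e (fun _ : Fin 1 => ε)).comp (lpm κ) = i.comp (ev e₁ (fun _ : Fin 1 => ε₁)) := by
    apply lp_hom_ext
    intro s a
    rw [RingHom.comp_apply, RingHom.comp_apply, lpm_single, ev_single, ev_single, map_mul]
    have h1 := RingHom.congr_fun hκ a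
    rw [RingHom.comp_apply, RingHom.comp_apply] at h1
    rw [h1]
    congr 1
    unfold mon cu
    rw [Fin.prod_univ_one, Fin.prod_univ_one, map_zpow₀, hε]
  exact RingHom.congr_fun h q

/-- Newton data at an `S`-unit point over a number field: contradiction -/
private theorem no_newt_aux {F : Type} [Field F] [NumberField F]
    (S : Finset (HeightOneSpectrum (𝓞 F))) {T : Type} (𝒰 : Ultrafilter T) {L₁ M : Type} [Field L₁]
    [CharZero L₁] [Field M] [CharZero M] (i : L₁ →+* M) (Θ₁ : L₁ →+* Germ (𝒰 : Filter T) F)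
    (W : T → Fˣ) (hW : ∀ τ, IsU S (W τ : F)) (ε : Mˣ) (ε₁ : L₁ˣ) (hε : i ε₁ = (ε : M))
    (hΘ : Θ₁ ε₁ = ((fun τ => (W τ : F) : T → F) : Germ (𝒰 : Filter T) F))
    (hinj : Function.Injective (ev (algebraMap (algebraicClosure ℚ M) M) (fun _ : Fin 1 => ε)))
    (y₁ : L₁) {m : ℕ} {φ : Fin m → Lp (algebraicClosure ℚ M) 1} {lam : ℤ}
    {c : Fin m → algebraicClosure ℚ M}
    (h : Newt (ev (algebraMap (algebraicClosure ℚ M) M) (fun _ => ε)) (i y₁) m φ lam c)
    (hφ : ∀ j s, ∃ a : L₁, i a = ((φ j).coeff s : M)) (hc : ∀ l, ∃ a : L₁, i a = (c l : M)) :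
    False := by
  obtain ⟨κ, hκ⟩ := cst_map i
  have key : ∀ z : algebraicClosure ℚ M, (∃ a : L₁, i a = (z : M)) → ∃ a, κ a = z := by
    rintro z ⟨a, ha⟩
    have h1 : a ∈ algebraicClosure ℚ L₁ := by
      refine (map_mem_algebraicClosure_iff (i.toRatAlgHom)).1 ?_
      show i a ∈ algebraicClosure ℚ M
      rw [ha]
      exact z.2
    refine ⟨⟨a, h1⟩, Subtype.ext ?_⟩
    rw [hκ]
    exact ha
  have hφ' : ∀ j, ∃ q, lpm κ q = φ j := fun j => lpm_lift κ (φ j) fun s => key _ (hφ j s)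
  choose φ₁ hφ₁ using hφ'
  choose c₁ hc₁ using fun l => key _ (hc l)
  have hcomp : i.comp (algebraMap (algebraicClosure ℚ L₁) L₁) =
      (algebraMap (algebraicClosure ℚ M) M).comp κ := RingHom.ext fun a => (hκ a).symm
  have h₁ := newt_desc i κ hcomp ε ε₁ hε h y₁ rfl φ₁ hφ₁ c₁ hc₁
  have hE : Function.Injective (ev (algebraMap (algebraicClosure ℚ L₁) L₁) (fun _ : Fin 1 => ε₁)) := by
    intro p q hpq
    have h2 := congrArg i hpq
    rw [← ev_lpm' _ _ i κ hcomp ε ε₁ hε, ← ev_lpm' _ _ i κ hcomp ε ε₁ hε] at h2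
    have h3 := hinj h2
    ext s
    have h4 := congrArg (fun r : Lp (algebraicClosure ℚ M) 1 => r.coeff s) h3
    simp only [lpm_coeff] at h4
    exact congrArg Subtype.val (κ.injective h4)
  refine arith S 𝒰 (fun x hx => ⟨⟨x, mem_algebraicClosure_iff.2 hx⟩, rfl⟩)
    (fun c => mem_algebraicClosure_iff.1 c.2) one_pos (fun _ => ε₁) hE Θ₁
    (fun τ _ => W τ) (fun τ _ => hW τ) (fun _ => hΘ) ?_
  exact newt_zero _ hE h₁

private theorem no_newt {F : Type} [Field F] [NumberField F] {T : Type} (𝒰 : Ultrafilter T)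
    {M : Type} [Field M] [CharZero M] (Θb : M →+* Germ (𝒰 : Filter T) (AlgebraicClosure F)) (ε : Mˣ)
    (hε : IsUG 𝒰 (Θb ε))
    (hinj : Function.Injective (ev (algebraMap (algebraicClosure ℚ M) M) (fun _ : Fin 1 => ε)))
    (y : M) (Y : T → F)
    (hy : Θb y = gMap 𝒰 (algebraMap F (AlgebraicClosure F)) (Y : Germ (𝒰 : Filter T) F))
    {m : ℕ} {φ : Fin m → Lp (algebraicClosure ℚ M) 1} {lam : ℤ}
    {c : Fin m → algebraicClosure ℚ M} {p : Lp (algebraicClosure ℚ M) 1}
    (h : Newt (ev (algebraMap (algebraicClosure ℚ M) M) (fun _ => ε))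
      (y - ev (algebraMap (algebraicClosure ℚ M) M) (fun _ => ε) p) m φ lam c) : False := by
  classical
  have hcon : ∀ a : algebraicClosure ℚ M, ∃ γ : AlgebraicClosure F,
      Θb a = cst 𝒰 (AlgebraicClosure F) γ := fun a => g_con_b 𝒰 Θb a (mem_algebraicClosure_iff.1 a.2)
  choose γ hγ using hcon
  obtain ⟨F₁, hF₁, S₁, V, hV, hVε⟩ := hε
  let A : Finset (algebraicClosure ℚ M) := (Finset.univ.biUnion fun j =>
    (φ j).coeff.support.image (φ j).coeff) ∪ Finset.univ.image c ∪ p.coeff.support.image p.coeff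
  have hfin : FiniteDimensional F (IntermediateField.adjoin F
      (A.image γ : Set (AlgebraicClosure F))) :=
    IntermediateField.finiteDimensional_adjoin fun x _ => Algebra.IsIntegral.isIntegral x
  have hfin₁ : FiniteDimensional F F₁ := FiniteDimensional.right ℚ F F₁
  obtain ⟨F₂, hF₂, hF₁₂, hAF₂⟩ : ∃ F₂ : IntermediateField F (AlgebraicClosure F),
      NumberField F₂ ∧ F₁ ≤ F₂ ∧ ∀ a ∈ A, γ a ∈ F₂ := by
    refine ⟨F₁ ⊔ IntermediateField.adjoin F (A.image γ : Set (AlgebraicClosure F)),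
      NumberField.of_module_finite F _, le_sup_left, fun a ha => ?_⟩
    refine (le_sup_right : _ ≤ F₁ ⊔ IntermediateField.adjoin F
      (A.image γ : Set (AlgebraicClosure F))) (IntermediateField.subset_adjoin F _ ?_)
    exact Finset.mem_coe.2 (Finset.mem_image_of_mem γ ha)
  let G : Germ (𝒰 : Filter T) F₂ →+* Germ (𝒰 : Filter T) (AlgebraicClosure F) :=
    gMap 𝒰 (algebraMap F₂ (AlgebraicClosure F))
  let L₁ : Subfield M := G.fieldRange.comap Θb
  have hL₁ : ∀ x : M, x ∈ L₁ ↔ ∃ z, G z = Θb x := fun x => by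
    show Θb x ∈ G.fieldRange ↔ _
    rw [RingHom.mem_fieldRange]
  -- elements of the field
  have hyL : y ∈ L₁ := (hL₁ y).2 ⟨((fun τ => algebraMap F F₂ (Y τ) : T → F₂) :
    Germ (𝒰 : Filter T) F₂), by rw [hy]; rfl⟩
  have hεL : (ε : M) ∈ L₁ := (hL₁ _).2 ⟨((fun τ => ⟨(V τ : AlgebraicClosure F), hF₁₂ (V τ).2⟩ :
    T → F₂) : Germ (𝒰 : Filter T) F₂), by rw [hVε]; rfl⟩
  have hkL : ∀ a ∈ A, (a : M) ∈ L₁ := fun a ha => (hL₁ _).2
    ⟨cst 𝒰 F₂ ⟨γ a, hAF₂ a ha⟩, by rw [hγ]; rfl⟩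
  have hcoef : ∀ (q : Lp (algebraicClosure ℚ M) 1), (∀ s ∈ q.coeff.support, q.coeff s ∈ A) →
      ∀ s, ((q.coeff s : algebraicClosure ℚ M) : M) ∈ L₁ := by
    intro q hq s
    by_cases hs : s ∈ q.coeff.support
    · exact hkL _ (hq s hs)
    · rw [Finsupp.notMem_support_iff.1 hs]
      exact L₁.zero_mem
  have hφL : ∀ j s, (((φ j).coeff s : algebraicClosure ℚ M) : M) ∈ L₁ := fun j => hcoef _
    fun s hs => Finset.mem_union_left _ (Finset.mem_union_left _
      (Finset.mem_biUnion.2 ⟨j, Finset.mem_univ j, Finset.mem_image_of_mem _ hs⟩))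
  have hpL : ∀ s, ((p.coeff s : algebraicClosure ℚ M) : M) ∈ L₁ := hcoef _
    fun s hs => Finset.mem_union_right _ (Finset.mem_image_of_mem _ hs)
  have hcL : ∀ l, ((c l : algebraicClosure ℚ M) : M) ∈ L₁ := fun l => hkL _
    (Finset.mem_union_left _ (Finset.mem_union_right _
      (Finset.mem_image_of_mem _ (Finset.mem_univ l))))
  have hevL : ev (algebraMap (algebraicClosure ℚ M) M) (fun _ => ε) p ∈ L₁ := by
    rw [ev_eq]
    refine sum_mem fun s _ => mul_mem (hpL s) ?_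
    unfold mon cu
    rw [Fin.prod_univ_one]
    exact zpow_mem hεL _
  obtain ⟨Θ₁, hΘ₁⟩ := lift_range G (Θb.comp L₁.subtype) fun x => (hL₁ x).1 x.2
  obtain ⟨S₂, hS₂⟩ := isU_map (IntermediateField.inclusion hF₁₂ : F₁ →+* F₂) S₁
  have hV0 : ∀ τ, IntermediateField.inclusion hF₁₂ (V τ) ≠ 0 := fun τ => (hS₂ _ (hV τ)).1
  have : CharZero L₁ := L₁.subtype.charZero
  refine no_newt_aux S₂ 𝒰 L₁.subtype Θ₁ (fun τ => Units.mk0 _ (hV0 τ)) (fun τ => hS₂ _ (hV τ)) ε
    (Units.mk0 ⟨ε, hεL⟩ (fun h => ε.ne_zero (congrArg Subtype.val h))) rfl ?_ hinj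
    ⟨_, L₁.sub_mem hyL hevL⟩ h (fun j s => ⟨⟨_, hφL j s⟩, rfl⟩) (fun l => ⟨⟨_, hcL l⟩, rfl⟩)
  apply G.injective
  rw [hΘ₁]
  show Θb ε = _
  rw [hVε]
  rfl

private theorem one_p_gen {F : Type} [Field F] [NumberField F]
    (S : Finset (HeightOneSpectrum (𝓞 F))) {T : Type} (𝒰 : Ultrafilter T) {L : Type} [Field L]
    [CharZero L] (w : Lˣ) (hw : IsTranscendenceBasis ℤ (fun _ : Fin 1 => (w : L)))
    (Θ : L →+* Germ (𝒰 : Filter T) F) (W : T → F) (hW : ∀ τ, IsU S (W τ))
    (hΘ : Θ w = (W : Germ (𝒰 : Filter T) F)) {M : Type} [Field M] [IsAlgClosed M] [CharZero M]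
    (j : L →+* M) (Θb : M →+* Germ (𝒰 : Filter T) (AlgebraicClosure F))
    (hΘb : Θb.comp j = (gMap 𝒰 (algebraMap F (AlgebraicClosure F))).comp Θ) (x : L) :
    gMap 𝒰 (algebraMap F (AlgebraicClosure F)) (Θ x) ∈ UF 𝒰 := by
  have hΘb' : ∀ z, Θb (j z) = gMap 𝒰 (algebraMap F (AlgebraicClosure F)) (Θ z) := fun z =>
    RingHom.congr_fun hΘb z
  -- transcendence
  have htr : Transcendental ℚ ((Units.map (j : L →* M) w : Mˣ) : M) := by
    have h1 : Transcendental ℤ (w : L) :=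
      algebraicIndependent_unique_type_iff.1 hw.1
    have h2 : Transcendental ℚ (w : L) := fun h =>
      h1 ((IsFractionRing.isAlgebraic_iff ℤ ℚ L).2 h)
    intro h
    apply h2
    exact (isAlgebraic_algHom_iff j.toRatAlgHom j.injective).1 h
  -- denominators
  obtain ⟨D, hD, hDx⟩ := clear_den (ev (algebraMap (algebraicClosure ℚ L) L) (fun _ : Fin 1 => w))
    (tb_inj (fun _ => w) hw) (tb_alg (fun _ => w) hw) x
  have hD0 : ev (algebraMap (algebraicClosure ℚ L) L) (fun _ : Fin 1 => w) D ≠ 0 := fun h =>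
    hD (tb_inj (fun _ => w) hw (by rw [h, map_zero]))
  have hIw : IsUG 𝒰 (Θb (j w)) := by
    refine g_rt S 𝒰 W hW 1 one_pos _ ?_
    rw [pow_one, hΘb', hΘ]
  have hDU : Θb (j (ev (algebraMap (algebraicClosure ℚ L) L) (fun _ : Fin 1 => w) D)) ∈ UF 𝒰 :=
    uf_ev 𝒰 (algebraMap (algebraicClosure ℚ L) L) (Θb.comp j)
      (fun c => g_con_b 𝒰 (Θb.comp j) c (mem_algebraicClosure_iff.1 c.2)) w hIw D
  -- it is enough to treat the integral element
  suffices hmain : Θb (j (ev (algebraMap (algebraicClosure ℚ L) L) (fun _ : Fin 1 => w) D * x)) ∈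
      UF 𝒰 by
    rw [map_mul, map_mul] at hmain
    have h1 := div_mem hmain hDU
    rw [mul_div_cancel_left₀ _ ((map_ne_zero _).2 ((map_ne_zero _).2 hD0)), hΘb'] at h1
    exact h1
  obtain ⟨κ, hκ⟩ := cst_map j
  have hcomp : j.comp (algebraMap (algebraicClosure ℚ L) L) =
      (algebraMap (algebraicClosure ℚ M) M).comp κ := RingHom.ext fun a => (hκ a).symm
  have hint : (ev (algebraMap (algebraicClosure ℚ M) M)
      (fun _ : Fin 1 => Units.map (j : L →* M) w)).IsIntegralElem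
      (j (ev (algebraMap (algebraicClosure ℚ L) L) (fun _ : Fin 1 => w) D * x)) := by
    obtain ⟨q, hq, hq0⟩ := hDx
    refine ⟨q.map (lpm κ), hq.map _, ?_⟩
    rw [Polynomial.eval₂_map]
    have h1 : (ev (algebraMap (algebraicClosure ℚ M) M)
        (fun _ : Fin 1 => Units.map (j : L →* M) w)).comp (lpm κ) =
        j.comp (ev (algebraMap (algebraicClosure ℚ L) L) (fun _ : Fin 1 => w)) :=
      RingHom.ext fun r => ev_lpm' _ _ j κ hcomp _ w rfl r
    rw [h1, ← Polynomial.hom_eval₂, hq0, map_zero]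
  obtain ⟨e, ε, he, hεe, hinj, hcase⟩ := one_alg (Units.map (j : L →* M) w) htr _ hint
  have hε : IsUG 𝒰 (Θb ε) := by
    refine g_rt S 𝒰 W hW e he _ ?_
    have h1 := congrArg (fun u : Mˣ => Θb (u : M)) hεe
    simp only [Units.val_pow_eq_pow_val, map_pow] at h1
    rw [h1]
    show Θb (j w) = _
    rw [hΘb', hΘ]
  rcases hcase with ⟨p, hp⟩ | ⟨m, φ, lam, c, p, hN⟩
  · rw [hp]
    exact uf_ev 𝒰 (algebraMap (algebraicClosure ℚ M) M) Θb
      (fun c => g_con_b 𝒰 Θb c (mem_algebraicClosure_iff.1 c.2)) ε hε p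
  · exfalso
    obtain ⟨Y, hY⟩ : ∃ Y : T → F, Θ (ev (algebraMap (algebraicClosure ℚ L) L)
        (fun _ : Fin 1 => w) D * x) = (Y : Germ (𝒰 : Filter T) F) :=
      Germ.inductionOn (Θ (ev (algebraMap (algebraicClosure ℚ L) L)
        (fun _ : Fin 1 => w) D * x)) fun f => ⟨f, rfl⟩
    exact no_newt 𝒰 Θb ε hε hinj _ Y (by rw [hΘb', hY]) hN

theorem one_p {F : Type} [Field F] [NumberField F] (S : Finset (HeightOneSpectrum (𝓞 F)))
    {T : Type} (𝒰 : Ultrafilter T) {L : Type} [Field L] [CharZero L] (w : Lˣ)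
    (hw : IsTranscendenceBasis ℤ (fun _ : Fin 1 => (w : L))) (Θ : L →+* Germ (𝒰 : Filter T) F)
    (W : T → F) (hW : ∀ τ, IsU S (W τ)) (hΘ : Θ w = (W : Germ (𝒰 : Filter T) F)) (x : L) :
    gMap 𝒰 (algebraMap F (AlgebraicClosure F)) (Θ x) ∈ UF 𝒰 := by
  obtain ⟨Θb, hΘb⟩ := g_bar 𝒰 Θ
  exact one_p_gen S 𝒰 w hw Θ W hW hΘ (algebraMap L (AlgebraicClosure L)) Θb hΘb x

end Pool.Agent.Work.MP_e97a4d_nt.CT
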