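import Pool.Agent.Work.MP_e97a4d_nt.CT.CurveR
import Pool.Agent.Work.MP_e97a4d_nt.CT.PointR
import Pool.Agent.Work.MP_e97a4d_nt.UE.Main

/-!
# CT/Main: the equivalence for covers of tori
-/

set_option autoImplicit false

noncomputable section

namespace Pool.Agent.Work.MP_e97a4d_nt.CT

open AlgebraicGeometry CategoryTheory NumberField

variable {F₀ : Type} [Field F₀] {V V' : Scheme.{0}}

theorem blv_cover [NumberField F₀] (σ : F₀ →+* ℂ)
    (π : V ⟶ Spec (CommRingCat.of (𝓞 F₀))) [LocallyOfFiniteType π] [QuasiCompact π]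
    (i : V' ⟶ V) [IsClosedImmersion i] (hU : CoverGen σ π i) :
    [CondI σ π i, CondII π i, CondGm σ π i].TFAE := by
  tfae_have 1 → 3 := fun h1 => condGm_of_condIunit σ π i (condIunit_of_condI σ π i h1)
  tfae_have 2 → 3 := fun h1 => condGm_of_condIIunit σ π i (condIIunit_of_condII π i h1)
  tfae_have 3 → 1 := condI_of_coverGen σ π i hU
  tfae_have 3 → 2 := condII_of_coverGen σ π i hU
  tfae_finish

/-- The second alternative of `UE.UnitGen` is a special case. -/
theorem coverGen_of_unitGen (σ : F₀ →+* ℂ) (π : V ⟶ Spec (CommRingCat.of (𝓞 F₀)))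
    (i : V' ⟶ V) (hU : UE.UnitGen σ π i) : CoverGen σ π i := by
  intro v hv hs
  rcases hU v hv hs with h | ⟨L, h1, h2, h3, h4, h5⟩
  · exact Or.inl h
  · exact Or.inr ⟨L, h1, h2, h3, h4, Or.inl h5⟩

end Pool.Agent.Work.MP_e97a4d_nt.CT
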