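import Mathlib

/-!
# CT/Lat (size S-M): saturated subgroups of a lattice

PROOF. `Q := (Fin k → ℤ) ⧸ R` is a finitely generated abelian group without torsion (`hR`), so a free `ℤ`-module
of finite rank (`Module.free_of_finite_type_torsion_free'` or `Module.Free` from `Module.IsTorsionFree`/
`NoZeroSMulDivisors ℤ Q` and `Module.Finite ℤ Q`); a basis with index set `Fin d` gives an isomorphism
`Q ≃ₗ[ℤ] (Fin d → ℤ)` (`Module.finBasis`, `Basis.equivFun`). `π` is the composite with the quotient map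
(`QuotientAddGroup.mk'`, kernel `R`; as a quotient of `ℤ`-modules by `R.toIntSubmodule`).
-/

set_option autoImplicit false

noncomputable section

namespace Pool.Agent.Work.MP_e97a4d_nt.CT

theorem lat {k : ℕ} (R : AddSubgroup (Fin k → ℤ))
    (hR : ∀ (n : ℤ) (a : Fin k → ℤ), n ≠ 0 → n • a ∈ R → a ∈ R) :
    ∃ (d : ℕ) (π : (Fin k → ℤ) →+ (Fin d → ℤ)), Function.Surjective π ∧
      ∀ a, π a = 0 ↔ a ∈ R := by
  let N : Submodule ℤ (Fin k → ℤ) := R.toIntSubmodule
  have hN : ∀ a, a ∈ N ↔ a ∈ R := fun a => Iff.rfl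
  haveI htf : Module.IsTorsionFree ℤ ((Fin k → ℤ) ⧸ N) := by
    constructor
    intro n hn
    have hn0 : n ≠ 0 := hn.ne_zero
    have key : ∀ q : (Fin k → ℤ) ⧸ N, n • q = 0 → q = 0 := by
      intro q hq
      obtain ⟨a, rfl⟩ := Submodule.mkQ_surjective N q
      rw [← map_smul, Submodule.mkQ_apply, Submodule.Quotient.mk_eq_zero, hN] at hq
      rw [Submodule.mkQ_apply, Submodule.Quotient.mk_eq_zero, hN]
      exact hR n a hn0 hq
    intro x y hxy
    have h1 : n • (x - y) = 0 := by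
      rw [smul_sub]
      exact sub_eq_zero.2 hxy
    exact sub_eq_zero.1 (key _ h1)
  haveI : Module.Free ℤ ((Fin k → ℤ) ⧸ N) := inferInstance
  let b := Module.finBasis ℤ ((Fin k → ℤ) ⧸ N)
  refine ⟨Module.finrank ℤ ((Fin k → ℤ) ⧸ N), (b.equivFun.toLinearMap ∘ₗ N.mkQ).toAddMonoidHom, ?_, ?_⟩
  · exact b.equivFun.surjective.comp (Submodule.mkQ_surjective N)
  · intro a
    change b.equivFun (N.mkQ a) = 0 ↔ a ∈ R
    rw [LinearEquiv.map_eq_zero_iff, Submodule.mkQ_apply, Submodule.Quotient.mk_eq_zero, hN]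

end Pool.Agent.Work.MP_e97a4d_nt.CT
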