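import Pool.Agent.Work.MP_e97a4d_nt.CT.SDefs
import Pool.Agent.Work.MP_e97a4d_nt.CT.Lat
import Pool.Agent.Work.MP_e97a4d_nt.CT.GCon
import Pool.Agent.Work.UP.LTorus

/-!
# CT/SRigP (size M): invertible functions with finite stabilizer are constant at integral points

PROOF. `R := {a | IsAlgebraic ℚ (mon (cu z) a)}`, a subgroup of `Fin m → ℤ` (`mon_add`, `IsAlgebraic.mul`, `.inv`),
saturated (`IsAlgebraic` of a power: `IsAlgebraic.of_pow`). `lat` (CT/Lat) gives `d` and a surjective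
`π : (Fin m → ℤ) →+ (Fin d → ℤ)` with kernel `R`. If `d = 0` take `a := Pi.single l 1`.

Let `d > 0`; contradiction. Choose `b : Fin d → (Fin m → ℤ)` with `π (b j) = Pi.single j 1`;
`t j := ` the unit `mon (cu z) (b j)` of `L`, `t' j := Units.map Θ (t j)`,
`Wb τ j := ` the unit `mon (cu (W τ)) (b j)` of `F`, an `S`-unit (`IsUv S (cu (Wb τ))`: products and inverses), and
`Θ (t j)` is the germ of `τ ↦ Wb τ j`.
(1) `ev (cst 𝒰 F) t'` is injective. Let `q ≠ 0`; `unitEqL F S q` (UP/LTorus) gives a finite set `E`. `ev (cst 𝒰 F) t' q` is the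
germ of `τ ↦ ev (RingHom.id F) (Wb τ) q` (`ev_eq`, as in CT/GCon or CT/Arith). If it is zero, then for almost all `τ` the
value is `0`, so `Avoid E (cu (Wb τ))` fails: there is `(g, γ) ∈ E` with `g ≠ 0` and `mon (cu (Wb τ)) g = γ` (definition of
`Avoid`). One pair is good for almost all `τ` (`Ultrafilter.eventually_exists_mem_iff`, `E` finite), so
`Θ (mon (cu z) a) = cst 𝒰 F γ` with `a := ∑ j, g j • b j`. `γ : F` is algebraic over `ℚ`: `P γ = 0` with `P ≠ 0` over `ℚ`, so
`Θ (P (mon (cu z) a)) = 0` and `P (mon (cu z) a) = 0` (`Θ` injective): `a ∈ R`, `g = π a = 0`, contradiction.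
(2) For every `e : Fin m → ℤ`: `e - ∑ j, (π e j) • b j ∈ R`, so `mon (cu z) e = ε e * mon (cu t) (π e)` with `ε e`
algebraic over `ℚ`, and `Θ (ε e)` is a constant germ `cst 𝒰 F (γ e)` (`g_const`, CT/GCon, applied to
`K := algebraicClosure ℚ L`; or as in (3) of CT/GCon). Also `Θ (p e) = cst 𝒰 F (κ e)` for the coefficients.
(3) Let `ξ l := π (Pi.single l 1) ⟨0, _⟩ : ℤ`, so `∑ l, e l * ξ l = π e ⟨0, _⟩` and `ξ ≠ 0` (`π` surjective). `hz` gives `p, c`.
`q := ∑ e ∈ p.support, single (π e) (κ e * γ e) : Lp F d`; `ev (cst 𝒰 F) t' q = Θ (p.sum ..) = 0`, so `q = 0`.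
`q' := ∑ e ∈ p.support with ∑ l, e l * ξ l = c, single (π e) (κ e * γ e)` has the coefficients of `q` at the `g` with
`g 0 = c` and zero at the other `g`, so `q' = 0`, hence `Θ ((p.filter _).sum ..) = 0`, and `Θ` is injective:
contradiction. (The same argument as in CT/SRigC.)
-/

set_option autoImplicit false

noncomputable section

namespace Pool.Agent.Work.MP_e97a4d_nt.CT

open Pool.Agent.Work.UP IsDedekindDomain NumberField Filter UE

private theorem sr_zp {F T : Type} [Field F] (𝒰 : Ultrafilter T) (f : T → F) (n : ℤ) :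
    ((f : Germ (𝒰 : Filter T) F)) ^ n = ((fun τ => f τ ^ n : T → F) : Germ (𝒰 : Filter T) F) := rfl

private theorem sr_mon {F T : Type} [Field F] (𝒰 : Ultrafilter T) {d : ℕ} (W : T → Fin d → Fˣ)
    (t' : Fin d → (Germ (𝒰 : Filter T) F)ˣ)
    (ht : ∀ l, (t' l : Germ (𝒰 : Filter T) F) =
      ((fun τ => (W τ l : F) : T → F) : Germ (𝒰 : Filter T) F)) (s : Fin d → ℤ) :
    mon (cu t') s = ((fun τ => mon (cu (W τ)) s : T → F) : Germ (𝒰 : Filter T) F) := by
  unfold mon cu
  have h1 : ∀ l, (t' l : Germ (𝒰 : Filter T) F) ^ s l =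
      Germ.coeRingHom (𝒰 : Filter T) (fun τ => (W τ l : F) ^ s l) := fun l => by
    rw [ht, sr_zp]
    rfl
  rw [Finset.prod_congr rfl fun l _ => h1 l, ← map_prod]
  show ((∏ l, (fun τ => (W τ l : F) ^ s l) : T → F) : Germ (𝒰 : Filter T) F) = _
  congr 1
  funext τ
  rw [Finset.prod_apply]

private theorem sr_ev {F T : Type} [Field F] (𝒰 : Ultrafilter T) {d : ℕ} (W : T → Fin d → Fˣ)
    (t' : Fin d → (Germ (𝒰 : Filter T) F)ˣ)
    (ht : ∀ l, (t' l : Germ (𝒰 : Filter T) F) =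
      ((fun τ => (W τ l : F) : T → F) : Germ (𝒰 : Filter T) F)) (q : Lp F d) :
    ev (cst 𝒰 F) t' q =
      ((fun τ => ev (RingHom.id F) (W τ) q : T → F) : Germ (𝒰 : Filter T) F) := by
  have h : ev (cst 𝒰 F) t' = (Germ.coeRingHom (𝒰 : Filter T)).comp
      (RingHom.pi fun τ => ev (RingHom.id F) (W τ)) := by
    apply lp_hom_ext
    intro s a
    rw [ev_single, sr_mon 𝒰 W t' ht, cst_apply, RingHom.comp_apply]
    have h1 : (RingHom.pi fun τ => ev (RingHom.id F) (W τ)) (AddMonoidAlgebra.single s a) =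
        fun τ => a * mon (cu (W τ)) s := by
      funext τ
      show ev (RingHom.id F) (W τ) (AddMonoidAlgebra.single s a) = _
      rw [ev_single]
      rfl
    rw [h1]
    rfl
  rw [h]
  rfl

/-- Monomials of units. -/
private def sr_um {K : Type} [Field K] {m : ℕ} (u : Fin m → Kˣ) (a : Fin m → ℤ) : Kˣ :=
  ∏ i, u i ^ a i

private theorem sr_um_coe {K : Type} [Field K] {m : ℕ} (u : Fin m → Kˣ) (a : Fin m → ℤ) :
    (sr_um u a : K) = mon (cu u) a := by
  unfold sr_um mon cu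
  rw [Units.coe_prod]
  exact Finset.prod_congr rfl fun i _ => Units.val_zpow_eq_zpow_val _ _

private theorem sr_um_add {K : Type} [Field K] {m : ℕ} (u : Fin m → Kˣ) (a b : Fin m → ℤ) :
    sr_um u (a + b) = sr_um u a * sr_um u b := by
  apply Units.ext
  rw [Units.val_mul, sr_um_coe, sr_um_coe, sr_um_coe, mon_add]

private theorem sr_um_smul {K : Type} [Field K] {m : ℕ} (u : Fin m → Kˣ) (n : ℤ) (a : Fin m → ℤ) :
    sr_um u (n • a) = sr_um u a ^ n := by
  unfold sr_um
  rw [← Finset.prod_zpow]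
  refine Finset.prod_congr rfl fun i _ => ?_
  rw [Pi.smul_apply, smul_eq_mul, mul_comm, zpow_mul]

private theorem sr_um_sum {K : Type} [Field K] {m : ℕ} (u : Fin m → Kˣ) {d : ℕ}
    (b : Fin d → Fin m → ℤ) (g : Fin d → ℤ) :
    sr_um (fun j => sr_um u (b j)) g = sr_um u (∑ j, g j • b j) := by
  classical
  have h : ∀ T : Finset (Fin d), ∏ j ∈ T, sr_um u (b j) ^ g j = sr_um u (∑ j ∈ T, g j • b j) := by
    intro T
    induction T using Finset.induction_on with
    | empty =>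
      rw [Finset.prod_empty, Finset.sum_empty]
      unfold sr_um
      simp
    | insert a T ha ih =>
      rw [Finset.prod_insert ha, Finset.sum_insert ha, sr_um_add, sr_um_smul, ih]
  exact h Finset.univ

private theorem sr_mon_sum {K : Type} [Field K] {m : ℕ} (u : Fin m → Kˣ) {d : ℕ}
    (b : Fin d → Fin m → ℤ) (g : Fin d → ℤ) :
    mon (cu fun j => sr_um u (b j)) g = mon (cu u) (∑ j, g j • b j) := by
  rw [← sr_um_coe, ← sr_um_coe, sr_um_sum]

private theorem sr_map {K K' : Type} [Field K] [Field K'] (f : K →+* K') {m : ℕ} (u : Fin m → Kˣ)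
    (a : Fin m → ℤ) : mon (cu fun l => Units.map (f : K →* K') (u l)) a = f (mon (cu u) a) := by
  unfold mon cu
  rw [map_prod]
  refine Finset.prod_congr rfl fun i _ => ?_
  rw [map_zpow₀]
  rfl

private theorem sr_coeff {K : Type} [Field K] {m d : ℕ} (S : Finset (Fin m → ℤ))
    (π : (Fin m → ℤ) → (Fin d → ℤ)) (a : (Fin m → ℤ) → K) (g : Fin d → ℤ) :
    (∑ e ∈ S, (AddMonoidAlgebra.single (π e) (a e) : Lp K d)).coeff g =
      ∑ e ∈ S, if π e = g then a e else 0 := by
  classical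
  induction S using Finset.induction_on with
  | empty => simp
  | insert x S hx ih =>
    rw [Finset.sum_insert hx, Finset.sum_insert hx, ← ih]
    have h1 : (AddMonoidAlgebra.single (π x) (a x) : Lp K d).coeff g = if π x = g then a x else 0 :=
      Finsupp.single_apply
    rw [← h1]
    rfl

theorem rig_p {F : Type} [Field F] [NumberField F] (S : Finset (HeightOneSpectrum (𝓞 F)))
    {T : Type} (𝒰 : Ultrafilter T) {L : Type} [Field L] [CharZero L] (K : Set L)
    (hK : ∀ c ∈ K, IsAlgebraic ℚ c) {m : ℕ} (z : Fin m → Lˣ)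
    (hz : FinStab K (fun l => (z l : L))) (Θ : L →+* Germ (𝒰 : Filter T) F)
    (W : T → Fin m → Fˣ) (hW : ∀ τ, IsUv S (cu (W τ)))
    (hΘ : ∀ l, Θ (z l) = ((fun τ => (W τ l : F) : T → F) : Germ (𝒰 : Filter T) F)) (l : Fin m) :
    IsAlgebraic ℚ (z l : L) := by
  classical
  -- the subgroup of the exponents of algebraic monomials
  have hneg : ∀ a, mon (cu z) (-a) = (mon (cu z) a)⁻¹ := fun a => by
    rw [eq_comm, inv_eq_iff_eq_inv, eq_comm]
    refine inv_eq_of_mul_eq_one_left ?_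
    rw [← mon_add, add_neg_cancel, mon_zero]
  let R : AddSubgroup (Fin m → ℤ) :=
    { carrier := {a | IsAlgebraic ℚ (mon (cu z) a)}
      zero_mem' := by
        show IsAlgebraic ℚ (mon (cu z) 0)
        rw [mon_zero]
        exact isAlgebraic_one
      add_mem' := by
        intro a b ha hb
        show IsAlgebraic ℚ (mon (cu z) (a + b))
        rw [mon_add]
        exact IsAlgebraic.mul ha hb
      neg_mem' := by
        intro a ha
        show IsAlgebraic ℚ (mon (cu z) (-a))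
        rw [hneg]
        exact IsAlgebraic.inv ha }
  have hRm : ∀ a, a ∈ R ↔ IsAlgebraic ℚ (mon (cu z) a) := fun a => Iff.rfl
  have hpowm : ∀ (n : ℕ) (a : Fin m → ℤ), 0 < n → (n : ℤ) • a ∈ R → a ∈ R := by
    intro n a hn h
    rw [hRm, ← sr_um_coe, sr_um_smul, zpow_natCast, Units.val_pow_eq_pow_val, sr_um_coe] at h
    exact IsAlgebraic.of_pow hn h
  have hsat : ∀ (n : ℤ) (a : Fin m → ℤ), n ≠ 0 → n • a ∈ R → a ∈ R := by
    intro n a hn h
    obtain ⟨k, rfl | rfl⟩ := n.eq_nat_or_neg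
    · exact hpowm k a (Nat.pos_of_ne_zero (by exact_mod_cast hn)) h
    · refine hpowm k a (Nat.pos_of_ne_zero (by rintro rfl; simp at hn)) ?_
      have h1 := R.neg_mem h
      rwa [← neg_smul, neg_neg] at h1
  obtain ⟨d, π, hπs, hπ⟩ := lat R hsat
  rcases Nat.eq_zero_or_pos d with rfl | hd
  · have h1 : (Pi.single l 1 : Fin m → ℤ) ∈ R := (hπ _).1 (Subsingleton.elim _ _)
    rw [hRm, mon_single_one] at h1
    exact h1
  exfalso
  choose b hb using fun j : Fin d => hπs (Pi.single j 1)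
  have hπb : ∀ g : Fin d → ℤ, π (∑ j, g j • b j) = g := by
    intro g
    rw [map_sum]
    simp_rw [map_zsmul, hb]
    funext i
    simp [Finset.sum_apply, Pi.single_apply]
  let t : Fin d → Lˣ := fun j => sr_um z (b j)
  let t' : Fin d → (Germ (𝒰 : Filter T) F)ˣ := fun j =>
    Units.map (Θ : L →* Germ (𝒰 : Filter T) F) (t j)
  let Wb : T → Fin d → Fˣ := fun τ j => sr_um (W τ) (b j)
  have hWb : ∀ τ, IsUv S (cu (Wb τ)) := by
    intro τ j
    refine ⟨(Wb τ j).ne_zero, fun p hp => ?_⟩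
    show FinitePlace.mk p ((sr_um (W τ) (b j) : Fˣ) : F) = 1
    rw [sr_um_coe]
    exact mk_mon_eq_one (hW τ) _ p hp
  have ht' : ∀ j, (t' j : Germ (𝒰 : Filter T) F) =
      ((fun τ => (Wb τ j : F) : T → F) : Germ (𝒰 : Filter T) F) := by
    intro j
    have h1 : (t' j : Germ (𝒰 : Filter T) F) = Θ (mon (cu z) (b j)) := by
      show Θ ((sr_um z (b j) : Lˣ) : L) = _
      rw [sr_um_coe]
    rw [h1, ← sr_map Θ z, sr_mon 𝒰 W (fun l => Units.map (Θ : L →* Germ (𝒰 : Filter T) F) (z l)) hΘ]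
    congr 1
    funext τ
    exact (sr_um_coe (W τ) (b j)).symm
  have hmt : ∀ g, mon (cu t') g = Θ (mon (cu z) (∑ j, g j • b j)) := by
    intro g
    rw [sr_map Θ t, sr_mon_sum]
  -- (1)
  have hinj : Function.Injective (ev (cst 𝒰 F) t') := by
    rw [injective_iff_map_eq_zero]
    intro q hq
    by_contra hq0
    obtain ⟨E, hE, hav⟩ := unitEqL F S q hq0
    rw [sr_ev 𝒰 Wb t' ht'] at hq
    have h1 : ∀ᶠ τ in (𝒰 : Filter T), ev (RingHom.id F) (Wb τ) q = 0 := Germ.coe_eq.1 hq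
    have h2 : ∀ᶠ τ in (𝒰 : Filter T), ∃ e ∈ E, e.1 ≠ 0 ∧ mon (cu (Wb τ)) e.1 = e.2 := by
      filter_upwards [h1] with τ hτ
      by_contra hcon
      push Not at hcon
      exact hav (Wb τ) (hWb τ) hcon hτ
    rw [Ultrafilter.eventually_exists_mem_iff hE] at h2
    obtain ⟨⟨g, γ⟩, -, h3⟩ := h2
    obtain ⟨τ0, hg0, -⟩ := h3.exists
    have h4 : Θ (mon (cu z) (∑ j, g j • b j)) = cst 𝒰 F γ := by
      rw [← hmt, sr_mon 𝒰 Wb t' ht', cst_apply]
      refine Germ.coe_eq.2 ?_
      filter_upwards [h3] with τ hτ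
      exact hτ.2
    have h5 : ∑ j, g j • b j ∈ R := by
      rw [hRm]
      have hγ : IsAlgebraic ℚ γ := Algebra.IsAlgebraic.isAlgebraic γ
      obtain ⟨P, hP, hPγ⟩ := hγ
      refine ⟨P, hP, Θ.injective ?_⟩
      rw [map_zero, Polynomial.aeval_def, Polynomial.hom_eval₂, h4,
        show Θ.comp (algebraMap ℚ L) = (cst 𝒰 F).comp (algebraMap ℚ F) from Subsingleton.elim _ _,
        ← Polynomial.hom_eval₂, ← Polynomial.aeval_def, hPγ, map_zero]
    exact hg0 ((hπb g).symm.trans ((hπ _).2 h5))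
  -- (2)
  have hconst : ∀ x : L, IsAlgebraic ℚ x → ∃ γ : F, Θ x = cst 𝒰 F γ := by
    intro x hx
    obtain ⟨κ, hκ⟩ := g_const 𝒰 (K := algebraicClosure ℚ L) (L := L)
      (fun c => mem_algebraicClosure_iff.1 c.2) Θ
    exact ⟨κ ⟨x, mem_algebraicClosure_iff.2 hx⟩, hκ ⟨x, mem_algebraicClosure_iff.2 hx⟩⟩
  have hr : ∀ e, IsAlgebraic ℚ (mon (cu z) (e - ∑ j, π e j • b j)) := by
    intro e
    rw [← hRm, ← hπ, map_sub, hπb, sub_self]
  choose γ hγ using fun e => hconst _ (hr e)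
  have hsplit : ∀ e, Θ (mon (cu z) e) = cst 𝒰 F (γ e) * mon (cu t') (π e) := by
    intro e
    rw [hmt, ← hγ, ← map_mul, ← mon_add, sub_add_cancel]
  -- (3)
  let ξ : Fin m → ℤ := fun l => π (Pi.single l 1) ⟨0, hd⟩
  have hξ : ∀ e : Fin m → ℤ, ∑ l, e l * ξ l = π e ⟨0, hd⟩ := by
    intro e
    have he : e = ∑ l, e l • (Pi.single l (1 : ℤ) : Fin m → ℤ) := by
      funext j
      simp [Finset.sum_apply, Pi.single_apply]
    conv_rhs => rw [he, map_sum]
    simp_rw [map_zsmul]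
    rw [Finset.sum_apply]
    rfl
  have hξ0 : ξ ≠ 0 := by
    intro h0
    obtain ⟨e, he⟩ := hπs (Pi.single ⟨0, hd⟩ 1)
    have h1 := hξ e
    rw [he, h0] at h1
    simp at h1
  obtain ⟨p, c, hpK, hp0, hpne⟩ := hz ξ hξ0
  choose κ hκ using fun e => hconst _ (hK _ (hpK e))
  have hsum : ∀ A : Finset (Fin m → ℤ),
      ev (cst 𝒰 F) t' (∑ e ∈ A, AddMonoidAlgebra.single (π e) (κ e * γ e)) =
        Θ (∑ e ∈ A, p e * mon (fun l => (z l : L)) e) := by
    intro A
    rw [map_sum, map_sum]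
    refine Finset.sum_congr rfl fun e _ => ?_
    rw [ev_single, map_mul, map_mul, mul_assoc, ← hsplit, hκ]
    rfl
  have hq : (∑ e ∈ p.support, AddMonoidAlgebra.single (π e) (κ e * γ e) : Lp F d) = 0 := by
    apply hinj
    rw [hsum, map_zero]
    exact (congrArg Θ hp0).trans (map_zero Θ)
  apply hpne
  have hq' : (∑ e ∈ p.support.filter (fun e => ∑ l, e l * ξ l = c),
      AddMonoidAlgebra.single (π e) (κ e * γ e) : Lp F d) = 0 := by
    have h1 : ∀ g : Fin d → ℤ, (∑ e ∈ p.support.filter (fun e => ∑ l, e l * ξ l = c),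
        (AddMonoidAlgebra.single (π e) (κ e * γ e) : Lp F d)).coeff g = 0 := by
      intro g
      rw [sr_coeff]
      by_cases hg : g ⟨0, hd⟩ = c
      · have h2 := congrArg (fun q : Lp F d => q.coeff g) hq
        rw [sr_coeff] at h2
        refine Eq.trans ?_ h2
        rw [Finset.sum_filter]
        refine Finset.sum_congr rfl fun e _ => ?_
        by_cases he : π e = g
        · rw [if_pos (by rw [hξ, he, hg])]
        · rw [if_neg he]
          split_ifs <;> rfl
      · refine Finset.sum_eq_zero fun e he => ?_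
        rw [Finset.mem_filter] at he
        rw [if_neg]
        rintro rfl
        exact hg (by rw [← hξ, he.2])
    ext g
    exact h1 g
  have h3 := hsum (p.support.filter (fun e => ∑ l, e l * ξ l = c))
  rw [hq', map_zero] at h3
  have h4 : ∑ e ∈ p.support.filter (fun e => ∑ l, e l * ξ l = c),
      p e * mon (fun l => (z l : L)) e = 0 := Θ.injective (by rw [← h3, map_zero])
  refine Eq.trans ?_ h4
  unfold Finsupp.sum
  rw [Finsupp.support_filter]
  refine Finset.sum_congr ?_ fun e he => ?_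
  · ext e
    simp
  · rw [Finsupp.filter_apply_pos]
    exact (Finset.mem_filter.1 he).2

end Pool.Agent.Work.MP_e97a4d_nt.CT
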