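import Pool.Agent.Work.MP_e97a4d_nt.CT.SOver
import Pool.Agent.Work.MP_e97a4d_nt.CT.SRigP
import Pool.Agent.Work.MP_e97a4d_nt.CT.PointR

/-!
# CT/SPoint (size M): integral points, relative form

PROOF. Copy the proof of `condII_of_coverGen` (CT/PointR). `hU` gives in the second case
`L, hfd, hEt, m, z, hz, hrig, hgen` with `hgen : (∀ ξ, algebraMap ξ ∈ Subfield.closure (unitsAt v L ∪ algOver z)) ∨
SplitOver v L z`. The finitely many units to which the argument with `N`, `F'`, `S₂`, `W` is applied must contain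
the `z l` (add them to the list: `Fin (m + n)` or a sum type, or run the argument for the `z l` first). Then
`rig_p` (CT/SRigP) with `K := constAt π v L` (its elements are algebraic over `ℚ`: `const_iff`, CT/RConv) for `Θ''` and
the values of the `z l` shows that all `z l` are algebraic over `ℚ`, so `algOver z = constAt π v L` (`algOver_eq`,
`const_iff`), and `SplitOver v L z` gives `SplitBoundary π v L` (`split_of_over`): the old alternatives. (Since the units
`u` in PointR are chosen from `hgen`, it is convenient to prove first a private lemma: for finitely many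
elements of `unitsAt v L` the germs of `Θ''` are germs of `S₂`-units, with the data of PointR as hypotheses, or to
choose for `hgen` the units before knowing that the `z l` are constant: in the first case, from
`Subfield.closure (unitsAt v L ∪ algOver z)`, finitely many units `u` with all `algebraMap (α (x b l))` in
`Subfield.closure (Set.range u ∪ algOver z)`.)
-/

set_option autoImplicit false

noncomputable section

namespace Pool.Agent.Work.MP_e97a4d_nt.CT

open AlgebraicGeometry CategoryTheory IsDedekindDomain NumberField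
open Hyp Filter UE

variable {F₀ : Type} [Field F₀] {V V' : Scheme.{0}}

/-- An element of `F` which is, together with its inverse, in the valuation rings outside `S`. -/
private theorem isU_of_val {F : Type} [Field F] [NumberField F]
    {S : Finset (HeightOneSpectrum (𝓞 F))} {x : F} (h0 : x ≠ 0) (h1 : ∀ O ∈ VF F S, x ∈ O)
    (h2 : ∀ O ∈ VF F S, x⁻¹ ∈ O) : Pool.Agent.Work.UP.IsU S x := by
  have key : ∀ x : F, (∀ O ∈ VF F S, x ∈ O) → ∀ p ∉ S, FinitePlace.mk p x ≤ 1 := by
    intro x hx p hp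
    have h3 : x ∈ (S : Set (HeightOneSpectrum (𝓞 F))).integer F := by
      intro v hv
      have h4 := hx _ ⟨v, hv, rfl⟩
      rw [Valuation.mem_valuationSubring_iff] at h4
      exact h4
    exact (mem_integer_iff S _).1 h3 p hp
  refine ⟨h0, fun p hp => ?_⟩
  have e1 := key _ h1 p hp
  have e2 := key _ h2 p hp
  have e3 : FinitePlace.mk p x * FinitePlace.mk p x⁻¹ = 1 := by
    rw [← map_mul, mul_inv_cancel₀ h0, map_one]
  have e4 : (0 : ℝ) ≤ FinitePlace.mk p x := apply_nonneg _ _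
  refine le_antisymm e1 ?_
  rw [← e3]
  exact mul_le_of_le_one_right e4 e2

private theorem aeval_mem {κ : Type} [Field κ] (K : Subfield κ) {σ : Type} (f : σ → κ)
    (hf : ∀ s, f s ∈ K) (p : MvPolynomial σ ℤ) : MvPolynomial.aeval f p ∈ K := by
  induction p using MvPolynomial.induction_on with
  | C a =>
    rw [MvPolynomial.aeval_C]
    have : algebraMap ℤ κ a = (a : κ) := eq_intCast _ _
    rw [this]
    exact intCast_mem K a
  | add p q hp hq =>
    rw [map_add]
    exact add_mem hp hq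
  | mul_X p s hp =>
    rw [map_mul, MvPolynomial.aeval_X]
    exact mul_mem hp (hf s)

/-- The two cases, with finitely many units. -/
private theorem cases_ofS (v : V)
    (L : Type) [Field L] [Algebra (V.residueField v) L] {ι : Type} [Finite ι]
    (x : ι → V.residueField v) {m₀ : ℕ} (z : Fin m₀ → L)
    (hgen : (∀ ξ : V.residueField v, algebraMap (V.residueField v) L ξ ∈
            Subfield.closure (UE.unitsAt v L ∪ algOver z)) ∨ SplitOver v L z) :
    ∃ (n : ℕ) (u : Fin n → L), (∀ m, u m ∈ UE.unitsAt v L) ∧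
      ((∀ l, algebraMap (V.residueField v) L (x l) ∈
          Subfield.closure (Set.range u ∪ algOver z)) ∨
       (IsTranscendenceBasis (Algebra.adjoin ℤ (Set.range z)) u ∧
        (2 ≤ n → ∀ (s : ℕ) (ξ : Fin s → Fin n → ℝ), 0 < s → (∀ i, ξ i ≠ 0) → ∑ i, ξ i = 0 →
          ∃ (i : Fin s) (ν ν' : Valuation L NNReal), ν ≠ ν' ∧
            ExtendsDeg (algOver z) u (ξ i) ν ∧ ExtendsDeg (algOver z) u (ξ i) ν'))) := by
  rcases hgen with hgen | ⟨k, w, hw, htb, hdir⟩
  · obtain ⟨n, r, u, c, A, D, hu, hc, hAD⟩ := exists_frac (UE.unitsAt v L) (algOver z)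
      (fun l => algebraMap (V.residueField v) L (x l)) (fun l => hgen _)
    refine ⟨n, u, hu, Or.inl fun l => ?_⟩
    obtain ⟨h1, h2⟩ := hAD l
    have hmem : ∀ s, Sum.elim u c s ∈ Subfield.closure (Set.range u ∪ algOver z) := by
      rintro (m | k)
      · exact Subfield.subset_closure (Or.inl ⟨m, rfl⟩)
      · exact Subfield.subset_closure (Or.inr (hc k))
    have h3 : algebraMap (V.residueField v) L (x l) =
        MvPolynomial.aeval (Sum.elim u c) (A l) / MvPolynomial.aeval (Sum.elim u c) (D l) := by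
      rw [eq_div_iff h1]
      exact h2
    rw [h3]
    exact div_mem (aeval_mem _ _ hmem _) (aeval_mem _ _ hmem _)
  · exact ⟨k, w, hw, Or.inr ⟨htb, hdir⟩⟩

/-- A transcendence basis over a ring which is algebraic over `ℤ`. -/
private theorem tb_descend {L : Type} [Field L] [CharZero L] {m₀ : ℕ} (z : Fin m₀ → L)
    (hz : ∀ l, IsAlgebraic ℚ (z l)) {n : ℕ} {u : Fin n → L}
    (h : IsTranscendenceBasis (Algebra.adjoin ℤ (Set.range z)) u) :
    IsTranscendenceBasis ℤ u := by
  have h1 : Algebra.IsAlgebraic ℤ (Algebra.adjoin ℤ (Set.range z)) := by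
    rw [← Subalgebra.isAlgebraic_iff, Algebra.isAlgebraic_adjoin_iff]
    rintro _ ⟨l, rfl⟩
    exact (IsFractionRing.isAlgebraic_iff ℤ ℚ L).2 (hz l)
  exact (Algebra.IsAlgebraic.isTranscendenceBasis_iff ℤ
    (S := Algebra.adjoin ℤ (Set.range z))).2 h

theorem condII_of_toricGen [NumberField F₀] (σ : F₀ →+* ℂ)
    (π : V ⟶ Spec (CommRingCat.of (𝓞 F₀))) [LocallyOfFiniteType π] [QuasiCompact π]
    (i : V' ⟶ V) [IsClosedImmersion i] (hU : ToricGen σ π i) (hGm : CondGm σ π i) :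
    CondII π i := by
  classical
  intro F _ _ _ S
  obtain ⟨𝒜⟩ := nonempty_atlas π
  have hfin := 𝒜.fin
  by_contra hinf
  set Y : Set (Spec (CommRingCat.of (SInt F S)) ⟶ V) :=
    {y ∈ integralPoints π F S | ¬ ∃ z : Spec (CommRingCat.of (SInt F S)) ⟶ V', z ≫ i = y} with hY
  have hinf' : Y.Infinite := hinf
  obtain ⟨b, hb⟩ : ∃ b : 𝒜.β,
      {y ∈ Y | gpt y (⊥ : PrimeSpectrum F) ∈ Set.range (𝒜.j b)}.Infinite := by
    by_contra hcon
    push Not at hcon
    apply hinf'
    refine (Set.finite_iUnion fun b => hcon b).subset ?_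
    intro y hy
    obtain ⟨b, hb⟩ := 𝒜.cov (gpt y (⊥ : PrimeSpectrum F))
    exact Set.mem_iUnion.2 ⟨b, hy, hb⟩
  have := 𝒜.oi b
  have := 𝒜.finι b
  set j := 𝒜.j b with hj
  let T : Type := {y : Spec (CommRingCat.of (SInt F S)) ⟶ V // y ∈ Y ∧
    gpt y (⊥ : PrimeSpectrum F) ∈ Set.range (𝒜.j b)}
  have hTinf : Infinite T := hb.to_subtype
  have hP0 : ∀ y : T, ∃ P : 𝒜.B b →+* F, Spec.map (CommRingCat.ofHom P) ≫ j = gpt y.1 := fun y =>
    exists_hom_of_mem (gpt y.1) j y.2.2
  choose P hP using hP0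
  set τ : 𝓞 F₀ →+* F := (algebraMap F₀ F).comp (algebraMap (𝓞 F₀) F₀) with hτ
  have hPτ : ∀ y : T, (P y).comp (𝒜.ψ b) = τ := fun y =>
    str_of_gpt y.2.1.1 (𝒜.str b) (hP y).symm
  have hτinj : Function.Injective τ :=
    (algebraMap F₀ F).injective.comp (IsFractionRing.injective (𝓞 F₀) F₀)
  let 𝒰 : Ultrafilter T := hyperfilter T
  let E : (T → F) →+* Germ (𝒰 : Filter T) F := Germ.coeRingHom (𝒰 : Filter T)
  have hE : ∀ f g : T → F, E f = E g ↔ ∀ᶠ y in (𝒰 : Filter T), f y = g y := fun f g => Germ.coe_eq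
  have hE0 : ∀ f : T → F, E f = 0 ↔ ∀ᶠ y in (𝒰 : Filter T), f y = 0 := fun f => by
    rw [← map_zero E, hE]
    rfl
  have hEne : ∀ f : T → F, E f ≠ 0 → ∀ᶠ y in (𝒰 : Filter T), f y ≠ 0 := fun f hf => by
    rw [Ne, hE0] at hf
    exact Ultrafilter.eventually_not.2 hf
  set Φ : 𝒜.B b →+* Germ (𝒰 : Filter T) F := E.comp (RingHom.pi P) with hΦ
  have hΦa : ∀ a, Φ a = E (fun y => P y a) := fun a => rfl
  -- eventually the kernel of `P y` contains the kernel of `Φ`
  have hnoeth : IsNoetherianRing (𝒜.B b) :=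
    isNoetherianRing_of_surjective _ _ (MvPolynomial.eval₂Hom (𝒜.ψ b) (𝒜.x b)) (𝒜.gen b)
  have hgood : ∀ᶠ y in (𝒰 : Filter T), ∀ a, Φ a = 0 → P y a = 0 := by
    obtain ⟨s, hs⟩ := (isNoetherianRing_iff_ideal_fg _).1 hnoeth (RingHom.ker Φ)
    have h1 : ∀ᶠ y in (𝒰 : Filter T), ∀ a ∈ s, P y a = 0 := by
      rw [Filter.eventually_all_finset]
      intro a ha
      have h2 : a ∈ RingHom.ker Φ := by
        rw [← hs]
        exact Ideal.subset_span ha
      exact (hE0 _).1 h2
    filter_upwards [h1] with y hy a ha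
    have h3 : RingHom.ker Φ ≤ RingHom.ker (P y) := by
      rw [← hs, Ideal.span_le]
      exact fun a ha => hy a ha
    exact h3 ha
  set x : Spec (CommRingCat.of (Germ (𝒰 : Filter T) F)) ⟶ V :=
    Spec.map (CommRingCat.ofHom Φ) ≫ j with hx
  set v : V := x (⊥ : PrimeSpectrum (Germ (𝒰 : Filter T) F)) with hv
  have hvj : v ∈ Set.range j := ⟨_, rfl⟩
  -- the points are not in `V'`
  have hout : ∀ y : T, gpt y.1 (⊥ : PrimeSpectrum F) ∉ Set.range i := by
    intro y hy
    exact y.2.1.2 (closed_of_gpt i y.1 ((factors_iff_mem_range i (gpt y.1)).2 hy))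
  have hvi : v ∉ Set.range i := by
    obtain ⟨y, hy⟩ := hgood.exists
    intro hcon
    let O : V.Opens := ⟨(Set.range i)ᶜ, i.isClosedEmbedding.isClosed_range.isOpen_compl⟩
    have h1 : (Spec.map (CommRingCat.ofHom (P y)) ≫ j) (⊥ : PrimeSpectrum F) ∈ O := by
      rw [hP y]
      exact hout y
    obtain ⟨a, ha, haO⟩ := exists_elt j (P y) O h1
    have h2 : Φ a ≠ 0 := fun h => ha (hy a h)
    have h3 : j (PrimeSpectrum.comap Φ ⊥) ∈ O := haO _ (fun h => h2 h)
    exact h3 hcon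
  have hstr : x ≫ π = Spec.map (CommRingCat.ofHom (Φ.comp (𝒜.ψ b))) := by
    rw [hx, Category.assoc, 𝒜.str b, ← Spec.map_comp]
    rfl
  obtain ⟨Θ, hΘ⟩ := exists_theta x v rfl
  obtain ⟨α, hα, hαs⟩ := exists_alpha j v hvj
  have hΘα : ∀ b, Θ (α b) = Φ b := theta_alpha j α hα Φ Θ hΘ
  have hΘs : Θ.comp (UE.strAt π v) = Φ.comp (𝒜.ψ b) := theta_str π x _ hstr v Θ hΘ
  have hρinj : Function.Injective (Φ.comp (𝒜.ψ b)) := by
    rw [injective_iff_map_eq_zero]
    intro a ha
    have h1 : ∀ᶠ y in (𝒰 : Filter T), P y (𝒜.ψ b a) = 0 := (hE0 _).1 ha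
    obtain ⟨y, hy⟩ := h1.exists
    have h2 : τ a = 0 := by rw [← hPτ y]; exact hy
    exact hτinj (by rw [h2, map_zero])
  have hsinj : Function.Injective (UE.strAt π v) := by
    have h2 : Function.Injective (Θ.comp (UE.strAt π v)) := by rw [hΘs]; exact hρinj
    exact Function.Injective.of_comp h2
  rcases hU v hvi hsinj with ⟨p, hp, hpv⟩ | ⟨L, hL1, hL2, hfd, hEt, m₀, z, hz, hrig, hgen⟩
  · obtain ⟨p', hp'⟩ := hGm p hp
    exact hvi ⟨p' (⊥ : PrimeSpectrum ℂ), by rw [← hpv, ← hp']; rfl⟩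
  obtain ⟨n, u₁, hu₁, hcase⟩ := cases_ofS v L (fun l => α (𝒜.x b l)) z hgen
  have hchar : CharZero L := char_zero_at π v hsinj L
  -- all the units together
  obtain ⟨M, u, hu, ez, eu, hez, heu⟩ : ∃ (M : ℕ) (u : Fin M → L), (∀ m, u m ∈ UE.unitsAt v L) ∧
      ∃ (ez : Fin m₀ → Fin M) (eu : Fin n → Fin M), (∀ l, u (ez l) = z l) ∧
        ∀ l, u (eu l) = u₁ l := by
    refine ⟨m₀ + n, Fin.append z u₁, fun m => ?_, Fin.castAdd n, Fin.natAdd m₀, fun l => ?_,
      fun l => ?_⟩
    · refine Fin.addCases (fun l => ?_) (fun l => ?_) m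
      · rw [Fin.append_left]
        exact hz l
      · rw [Fin.append_right]
        exact hu₁ l
    · rw [Fin.append_left]
    · rw [Fin.append_right]
  have hu0 : ∀ m, u m ≠ 0 := fun m => (hu m).1
  -- the exceptional integers
  obtain ⟨N₀, s, η, hN₀, hη, hext0⟩ := etale_ext π v L hEt
  choose N₁ hN₁ hint1 using fun m => integral_ext π v (u m) (hu m).2.1
  choose N₂ hN₂ hint2 using fun m => integral_ext π v (u m)⁻¹ (hu m).2.2
  set N : ℕ := N₀ * ((∏ m, N₁ m) * ∏ m, N₂ m) with hN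
  have hNne : N ≠ 0 := by
    rw [hN]
    exact mul_ne_zero hN₀ (mul_ne_zero (Finset.prod_ne_zero_iff.2 fun m _ => hN₁ m)
      (Finset.prod_ne_zero_iff.2 fun m _ => hN₂ m))
  have hdvd0 : N₀ ∣ N := Dvd.intro _ rfl
  have hdvd1 : ∀ m, N₁ m ∣ N := fun m =>
    ((Finset.dvd_prod_of_mem N₁ (Finset.mem_univ m)).mul_right _).mul_left _
  have hdvd2 : ∀ m, N₂ m ∣ N := fun m =>
    ((Finset.dvd_prod_of_mem N₂ (Finset.mem_univ m)).mul_left _).mul_left _
  obtain ⟨S₁, hS₁, hbad⟩ := exists_bad F S N hNne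
  -- natural numbers in ultrapowers
  have hcast : ∀ (K : Type) [Field K] [CharZero K] (a : ℕ), a ≠ 0 →
      (a : Germ (𝒰 : Filter T) K) ≠ 0 := by
    intro K _ _ a ha h
    have h1 : ((fun _ => (a : K) : T → K) : Germ (𝒰 : Filter T) K) = 0 := h
    have h2 : ∀ᶠ _ in (𝒰 : Filter T), (a : K) = 0 := Germ.coe_eq.1 h1
    obtain ⟨_, h3⟩ := h2.exists
    exact ha (Nat.cast_eq_zero.1 h3)
  have hcastinv : ∀ (K : Type) [Field K] (O : T → ValuationSubring K) (a : ℕ),
      (∀ t, (a : K)⁻¹ ∈ O t) → (a : Germ (𝒰 : Filter T) K)⁻¹ ∈ gV 𝒰 O := by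
    intro K _ O a h
    exact ⟨fun _ => (a : K)⁻¹, h, rfl⟩
  -- the point extends over the ultraproducts of valuation rings
  have hextO : ∀ o : T → HeightOneSpectrum (𝓞 F), (∀ t, o t ∉ S₁) →
      HasExt (gV 𝒰 (fun t => ((o t).valuation F).valuationSubring))
        (Spec.map (CommRingCat.ofHom Θ) ≫ V.fromSpecResidueField v) := by
    intro o ho
    rw [hΘ]
    refine hasExt_germ π 𝒰 j P Φ (fun a => rfl) hgood _ (fun t => ?_)
    rw [hP t]
    exact (gen_mem π i F S t.1 t.2.1.1 t.2.1.2).2.2 _ ⟨o t, fun h => ho t (hS₁ h), rfl⟩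
  have hNinv : ∀ o : T → HeightOneSpectrum (𝓞 F), (∀ t, o t ∉ S₁) →
      (N : Germ (𝒰 : Filter T) F)⁻¹ ∈ gV 𝒰 (fun t => ((o t).valuation F).valuationSubring) :=
    fun o ho => hcastinv F _ N (fun t => hbad (o t) (ho t))
  -- the extension of the ground field
  obtain ⟨E', hE'fd, Θ', hΘ'⟩ := split_germ 𝒰 F S₁ Θ η hη (fun o ho =>
    hext0 _ Θ _ (hextO o ho) (hcast F N₀ hN₀)
      (natCast_inv_mem_of_dvd _ hdvd0 (hcast F N hNne) (hNinv o ho)))
  obtain ⟨F', hF'1, hF'2, ι, Θ'', hΘ''⟩ : ∃ (F' : Type) (_ : Field F') (_ : NumberField F')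
      (ι : F →+* F') (Θ'' : L →+* Germ (𝒰 : Filter T) F'),
      Θ''.comp (algebraMap (V.residueField v) L) = (gMap 𝒰 ι).comp Θ :=
    ⟨E', inferInstance, NumberField.of_module_finite F E', algebraMap F E', Θ', hΘ'⟩
  clear hΘ' Θ' hE'fd E'
  let _ : Algebra F₀ F' := (ι.comp (algebraMap F₀ F)).toAlgebra
  obtain ⟨S₂, hS₂⟩ := exists_above ι S₁
  let E₁ : (T → F') →+* Germ (𝒰 : Filter T) F' := Germ.coeRingHom (𝒰 : Filter T)
  have hE₁ : ∀ f g : T → F', E₁ f = E₁ g ↔ ∀ᶠ y in (𝒰 : Filter T), f y = g y :=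
    fun f g => Germ.coe_eq
  have hE₁0 : ∀ f : T → F', E₁ f = 0 ↔ ∀ᶠ y in (𝒰 : Filter T), f y = 0 := fun f => by
    rw [← map_zero E₁, hE₁]
    rfl
  have hE₁ne : ∀ f : T → F', E₁ f ≠ 0 → ∀ᶠ y in (𝒰 : Filter T), f y ≠ 0 := fun f hf => by
    rw [Ne, hE₁0] at hf
    exact Ultrafilter.eventually_not.2 hf
  let P' : T → (𝒜.B b →+* F') := fun t => ι.comp (P t)
  let τ' : 𝓞 F₀ →+* F' := ι.comp τ
  have hP'τ : ∀ y : T, (P' y).comp (𝒜.ψ b) = τ' := fun y => by
    show (ι.comp (P y)).comp (𝒜.ψ b) = ι.comp τ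
    rw [RingHom.comp_assoc, hPτ]
  have hτ'inj : Function.Injective τ' := ι.injective.comp hτinj
  have hΘ''α : ∀ a, Θ'' (algebraMap (V.residueField v) L (α a)) = E₁ (fun y => P' y a) := by
    intro a
    have h1 := RingHom.congr_fun hΘ'' (α a)
    rw [RingHom.comp_apply, RingHom.comp_apply, hΘα] at h1
    exact h1
  -- the constants
  have hconst : ∀ c ∈ UE.constAt π v L, ∃ γ : F', Θ'' c = E₁ (fun _ => γ) := by
    rintro c ⟨p, hp, hpc⟩
    obtain ⟨C, hC⟩ : ∃ C : T → F', E₁ C = Θ'' c := by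
      induction hh : Θ'' c using Germ.inductionOn with
      | _ f => exact ⟨f, rfl⟩
    let κ : 𝓞 F₀ →+* (T → F') := (RingHom.pi P').comp (𝒜.ψ b)
    have h1 : E₁ (p.eval₂ κ C) = 0 := by
      rw [Polynomial.hom_eval₂, hC]
      have h2 : E₁.comp κ = Θ''.comp ((algebraMap (V.residueField v) L).comp (UE.strAt π v)) := by
        have h3 : Θ''.comp ((algebraMap (V.residueField v) L).comp (UE.strAt π v)) =
            (Θ''.comp (algebraMap (V.residueField v) L)).comp (UE.strAt π v) := rfl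
        rw [h3, hΘ'', RingHom.comp_assoc, hΘs]
        rfl
      rw [h2, ← Polynomial.hom_eval₂, hpc, map_zero]
    have h2 : ∀ᶠ y in (𝒰 : Filter T), ∃ γ ∈ {γ : F' | (p.map τ').IsRoot γ}, C y = γ := by
      filter_upwards [(hE₁0 _).1 h1] with y hy
      refine ⟨C y, ?_, rfl⟩
      have h3 : (Pi.evalRingHom (fun _ : T => F') y) (p.eval₂ κ C) = 0 := hy
      rw [Polynomial.hom_eval₂] at h3
      have h4 : (Pi.evalRingHom (fun _ : T => F') y).comp κ = τ' := hP'τ y
      rw [h4] at h3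
      show (p.map τ').eval (C y) = 0
      rw [Polynomial.eval_map]
      exact h3
    have hp0 : p.map τ' ≠ 0 := by
      rw [Ne, Polynomial.map_eq_zero_iff hτ'inj]
      rintro rfl
      exact hp (Polynomial.map_zero _)
    rw [Ultrafilter.eventually_exists_mem_iff (Polynomial.finite_setOfPred_isRoot hp0)] at h2
    obtain ⟨γ, -, hγ⟩ := h2
    exact ⟨γ, by rw [← hC, hE₁]; exact hγ⟩
  -- the units
  have hU0 : ∀ m, ∃ w : T → F', E₁ w = Θ'' (u m) := by
    intro m
    induction hh : Θ'' (u m) using Germ.inductionOn with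
    | _ f => exact ⟨f, rfl⟩
  choose w hw using hU0
  have hwne : ∀ᶠ y in (𝒰 : Filter T), ∀ m, w m y ≠ 0 := by
    rw [Filter.eventually_all]
    intro m
    refine hE₁ne _ ?_
    rw [hw]
    exact (map_ne_zero Θ'').2 (hu0 m)
  have hwval : ∀ᶠ y in (𝒰 : Filter T), ∀ m, ∀ O ∈ VF F' S₂, w m y ∈ O ∧ (w m y)⁻¹ ∈ O := by
    rw [Filter.eventually_all]
    intro m
    have h1 : ∀ᶠ y in (𝒰 : Filter T), ∀ q : {q : HeightOneSpectrum (𝓞 F') // q ∉ S₂},
        w m y ∈ (q.1.valuation F').valuationSubring ∧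
          (w m y)⁻¹ ∈ (q.1.valuation F').valuationSubring := by
      apply transfer_forall'
      intro o
      choose p hpS hp using fun q : {q : HeightOneSpectrum (𝓞 F') // q ∉ S₂} => hS₂ q.1 q.2
      have hinj : (gMap 𝒰 ι) (N : Germ (𝒰 : Filter T) F) = (N : Germ (𝒰 : Filter T) F') :=
        map_natCast _ _
      have hmem := gMap_mem 𝒰 ι (fun t => ((p (o t)).valuation F).valuationSubring)
        (fun t => ((o t).1.valuation F').valuationSubring) (fun t => hp (o t))
      have hNi : (N : Germ (𝒰 : Filter T) F')⁻¹ ∈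
          gV 𝒰 (fun t => ((o t).1.valuation F').valuationSubring) := by
        have h2 := hmem _ (hNinv (fun t => p (o t)) (fun t => hpS (o t)))
        rw [map_inv₀, hinj] at h2
        exact h2
      have hx := hextO (fun t => p (o t)) (fun t => hpS (o t))
      have e1 := hint1 m _ _ (gMap 𝒰 ι) Θ Θ'' hΘ'' _ _ hmem hx (hcast F' _ (hN₁ m))
        (natCast_inv_mem_of_dvd _ (hdvd1 m) (hcast F' N hNne) hNi)
      have e2 := hint2 m _ _ (gMap 𝒰 ι) Θ Θ'' hΘ'' _ _ hmem hx (hcast F' _ (hN₂ m))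
        (natCast_inv_mem_of_dvd _ (hdvd2 m) (hcast F' N hNne) hNi)
      rw [map_inv₀] at e2
      rw [← hw] at e1 e2
      exact ((mem_gV 𝒰 _ _).1 e1).and ((mem_gV 𝒰 _ (fun t => (w m t)⁻¹)).1 e2)
    filter_upwards [h1] with y hy
    rintro _ ⟨q, hq, rfl⟩
    exact hy ⟨q, hq⟩
  -- the units everywhere
  obtain ⟨W₀, hWU₀, hW₀⟩ : ∃ W : Fin M → T → F', (∀ m y, Pool.Agent.Work.UP.IsU S₂ (W m y)) ∧
      ∀ m, Θ'' (u m) = E₁ (W m) := by
    refine ⟨fun m y => if w m y ≠ 0 ∧ ∀ O ∈ VF F' S₂, w m y ∈ O ∧ (w m y)⁻¹ ∈ O then w m y else 1,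
      fun m y => ?_, fun m => ?_⟩
    · show Pool.Agent.Work.UP.IsU S₂
        (if w m y ≠ 0 ∧ ∀ O ∈ VF F' S₂, w m y ∈ O ∧ (w m y)⁻¹ ∈ O then w m y else 1)
      split_ifs with h
      · exact isU_of_val h.1 (fun O hO => (h.2 O hO).1) (fun O hO => (h.2 O hO).2)
      · exact ⟨one_ne_zero, fun p _ => map_one _⟩
    · rw [← hw, hE₁]
      filter_upwards [hwne, hwval] with y h1 h2
      exact (if_pos ⟨h1 m, fun O hO => h2 m O hO⟩).symm
  -- the functions with finite stabilizer are constant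
  have hcalg : ∀ c, c ∈ UE.constAt π v L ↔ IsAlgebraic ℚ c := const_iff π v hsinj L
  have hzalg : ∀ l, IsAlgebraic ℚ (z l) := by
    intro l
    have hz0 : ∀ l, z l ≠ 0 := fun l => (hz l).1
    refine rig_p S₂ 𝒰 (UE.constAt π v L) (fun c hc => (hcalg c).1 hc)
      (fun l => Units.mk0 (z l) (hz0 l)) hrig Θ''
      (fun y l => Units.mk0 (W₀ (ez l) y) (hWU₀ (ez l) y).1) (fun y l => hWU₀ (ez l) y)
      (fun l => ?_) l
    have h1 := hW₀ (ez l)
    rw [hez] at h1
    exact h1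
  have hKeq : algOver z = UE.constAt π v L := by
    ext c
    rw [algOver_eq z hzalg, hcalg]
  obtain ⟨W, hWU, hW⟩ : ∃ W : Fin n → T → F', (∀ m y, Pool.Agent.Work.UP.IsU S₂ (W m y)) ∧
      ∀ m, Θ'' (u₁ m) = E₁ (W m) := by
    refine ⟨fun m => W₀ (eu m), fun m y => hWU₀ (eu m) y, fun m => ?_⟩
    rw [← heu]
    exact hW₀ (eu m)
  rw [hKeq] at hcase
  have hcase' := hcase.imp_right fun h => And.intro (tb_descend z hzalg h.1) h.2
  clear hcase
  rename' hcase' => hcase
  have hu1 : ∀ m, u₁ m ≠ 0 := fun m => (hu₁ m).1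
  have hWg : ∀ m, Pool.Agent.Work.MP_e97a4d_nt.CT.IsUG 𝒰
      (gMap 𝒰 (algebraMap F' (AlgebraicClosure F')) (Θ'' (u₁ m))) := by
    intro m
    refine g_rt S₂ 𝒰 (W m) (hWU m) 1 one_pos _ ?_
    rw [pow_one, hW]
    rfl
  have hclaim : ∀ l, gMap 𝒰 (algebraMap F' (AlgebraicClosure F'))
      (Θ'' (algebraMap (V.residueField v) L (α (𝒜.x b l)))) ∈ UF (F := F') 𝒰 := by
    rcases hcase with hA | ⟨hB, hdir⟩
    · intro l
      have hle : Subfield.closure (Set.range u₁ ∪ UE.constAt π v L) ≤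
          (UF (F := F') 𝒰).comap ((gMap 𝒰 (algebraMap F' (AlgebraicClosure F'))).comp Θ'') := by
        rw [Subfield.closure_le]
        rintro x (⟨m, rfl⟩ | hx)
        · exact Subfield.subset_closure (Or.inl (hWg m))
        · obtain ⟨γ, hγ⟩ := hconst x hx
          refine Subfield.subset_closure (Or.inr ⟨algebraMap F' (AlgebraicClosure F') γ, ?_⟩)
          rw [cst_apply, RingHom.comp_apply, hγ]
          rfl
      exact hle (hA l)
    · intro l
      rcases Nat.lt_or_ge n 2 with hn | hn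
      · rcases Nat.lt_or_ge n 1 with hn1 | hn1
        · have hn0 : n = 0 := by omega
          subst hn0
          have halg : Algebra.IsAlgebraic ℤ L := hB.isEmpty_iff_isAlgebraic.1 inferInstance
          have h1 : IsAlgebraic ℚ (algebraMap (V.residueField v) L (α (𝒜.x b l))) :=
            (IsFractionRing.isAlgebraic_iff ℤ ℚ L).1 (halg.isAlgebraic _)
          obtain ⟨γ, hγ⟩ := g_con_b 𝒰
            ((gMap 𝒰 (algebraMap F' (AlgebraicClosure F'))).comp Θ'') _ h1
          rw [RingHom.comp_apply] at hγ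
          rw [hγ]
          exact Subfield.subset_closure (Or.inr ⟨γ, rfl⟩)
        · have hn0 : n = 1 := by omega
          subst hn0
          refine one_p S₂ 𝒰 (Units.mk0 (u₁ 0) (hu1 0)) ?_ Θ'' (W 0) (hWU 0) (hW 0) _
          have hfun : (fun _ : Fin 1 => ((Units.mk0 (u₁ 0) (hu1 0) : Lˣ) : L)) = u₁ := by
            funext m
            rw [Subsingleton.elim m 0]
            rfl
          rw [hfun]
          exact hB
      · exfalso
        have hB' : IsTranscendenceBasis ℤ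
            (fun m => ((Units.mk0 (u₁ m) (hu1 m) : Lˣ) : L)) := hB
        have hE := tb_inj (fun m => Units.mk0 (u₁ m) (hu1 m)) hB'
        refine arith S₂ 𝒰 (K := algebraicClosure ℚ L) (L := L)
          (fun x hx => ⟨⟨x, mem_algebraicClosure_iff.2 hx⟩, rfl⟩)
          (fun c => mem_algebraicClosure_iff.1 c.2) (by omega)
          (fun m => Units.mk0 (u₁ m) (hu1 m)) hE Θ''
          (fun y m => Units.mk0 (W m y) (hWU m y).1) (fun y m => hWU m y) (fun m => hW m) ?_
        intro s ξ hs hξ hsum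
        obtain ⟨i₀, ν, ν', hne, h1, h2⟩ := hdir hn s ξ hs hξ hsum
        exact ⟨i₀, fun a => gap_two _ hE
          (clear_den _ hE (tb_alg (fun m => Units.mk0 (u₁ m) (hu1 m)) hB')) a (ξ i₀)
          (two_of_ext (UE.constAt π v L) (const_iff π v hsinj L) _ (ξ i₀) ν ν' hne h1 h2)⟩
  -- the points over the extension
  have hPts : ∀ y : T, Spec.map (CommRingCat.ofHom (P' y)) ≫ j ∈ Pts π i (rhoF F₀ F') (VF F' S₂) := by
    intro y
    obtain ⟨g1, g2, g3⟩ := gen_mem π i F S y.1 y.2.1.1 y.2.1.2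
    have e0 : Spec.map (CommRingCat.ofHom (P' y)) ≫ j =
        Spec.map (CommRingCat.ofHom ι) ≫ gen y.1 := by
      show Spec.map (CommRingCat.ofHom (ι.comp (P y))) ≫ j = _
      have h1 : gen y.1 = gpt y.1 := rfl
      rw [h1, ← hP y, ← Category.assoc, ← Spec.map_comp]
      rfl
    rw [e0]
    refine ⟨?_, ?_, ?_⟩
    · rw [Category.assoc, g1, ← Spec.map_comp]
      rfl
    · have h1 : (Spec.map (CommRingCat.ofHom ι) ≫ gen y.1) (⊥ : PrimeSpectrum F') =
          (gen y.1) (⊥ : PrimeSpectrum F) := by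
        show (gen y.1) (Spec.map (CommRingCat.ofHom ι) (⊥ : PrimeSpectrum F')) = _
        congr 1
        exact Subsingleton.elim (α := PrimeSpectrum F) _ _
      rw [h1]
      exact g2
    · rintro _ ⟨q, hq, rfl⟩
      obtain ⟨p, hpS, hp⟩ := hS₂ q hq
      obtain ⟨y', hy'⟩ := g3 _ ⟨p, fun h => hpS (hS₁ h), rfl⟩
      have hcod : ∀ x : (p.valuation F).valuationSubring, ι x ∈ (q.valuation F').valuationSubring :=
        fun x => hp x x.2
      refine ⟨Spec.map (CommRingCat.ofHom (((ι.comp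
        (algebraMap (p.valuation F).valuationSubring F)).codRestrict
          (q.valuation F').valuationSubring.toSubring hcod))) ≫ y', ?_⟩
      rw [← hy', ← Category.assoc, ← Category.assoc, ← Spec.map_comp, ← Spec.map_comp]
      rfl
  refine fin_p σ π i hGm 𝒜 F' S₂ b P' hPts (fun x₀ => ?_) (fun l => ?_)
  · rcases Set.eq_empty_or_nonempty {y : T | Spec.map (CommRingCat.ofHom (P' y)) ≫ 𝒜.j b = x₀}
      with h | h
    · rw [h]
      exact Set.finite_empty
    · obtain ⟨y₀, hy₀⟩ := h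
      refine ((int_fin π F S (gen y₀.1)).preimage (f := fun y : T => y.1)
        (Subtype.val_injective.injOn)).subset fun y hy => ?_
      refine ⟨y.2.1.1, ?_⟩
      have h1 : P' y = P' y₀ := map_comp_inj j (Eq.trans hy hy₀.symm)
      have h2 : P y = P y₀ := by
        ext a
        exact ι.injective (RingHom.congr_fun h1 a)
      show gpt y.1 = gpt y₀.1
      rw [← hP y, ← hP y₀, h2]
  · have h1 := hclaim l
    rw [hΘ''α] at h1
    exact h1

end Pool.Agent.Work.MP_e97a4d_nt.CT
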