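import Pool.Agent.Work.MP_e97a4d_nt.CT.SDefs

/-!
# CT/WDefs: radical covers of tori given by powers plus lower terms (definitions of the final statement)
-/

set_option autoImplicit false

noncomputable section

namespace Pool.Agent.Work.MP_e97a4d_nt.CP

open AlgebraicGeometry CategoryTheory NumberField

/-- Laurent polynomials in `n` variables `u l` over `O_{F₀}`. -/
abbrev Laurent (F₀ : Type) [Field F₀] (n : ℕ) : Type := AddMonoidAlgebra (𝓞 F₀) (Fin n → ℤ)

variable {F₀ : Type} [Field F₀] {n r : ℕ}

/-- The polynomial `x_j ^ m_j - (h_j ^ m_j + g_j)` in the variables `x_j` over the Laurent polynomials. -/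
def powEq (m : Fin r → ℕ) (h g : Fin r → Laurent F₀ n) (j : Fin r) :
    MvPolynomial (Fin r) (Laurent F₀ n) :=
  MvPolynomial.X j ^ m j - MvPolynomial.C (h j ^ m j + g j)

/-- The ideal generated by these polynomials. -/
def powIdeal (m : Fin r → ℕ) (h g : Fin r → Laurent F₀ n) :
    Ideal (MvPolynomial (Fin r) (Laurent F₀ n)) :=
  Ideal.span (Set.range (powEq m h g))

/-- The ring `O_{F₀}[u₁, u₁⁻¹, ..., u_n, u_n⁻¹][x₁, ..., x_r] / (x_j ^ m_j - h_j ^ m_j - g_j)`. -/
def PowRing (m : Fin r → ℕ) (h g : Fin r → Laurent F₀ n) : Type :=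
  MvPolynomial (Fin r) (Laurent F₀ n) ⧸ powIdeal m h g

instance powRing (m : Fin r → ℕ) (h g : Fin r → Laurent F₀ n) : CommRing (PowRing m h g) :=
  Ideal.Quotient.commRing (powIdeal m h g)

/-- The Laurent polynomials as elements of this ring. -/
def ofLau (m : Fin r → ℕ) (h g : Fin r → Laurent F₀ n) : Laurent F₀ n →+* PowRing m h g :=
  (Ideal.Quotient.mk (powIdeal m h g)).comp MvPolynomial.C

/-- The spectrum of the ring. -/
def PowScheme (m : Fin r → ℕ) (h g : Fin r → Laurent F₀ n) : Scheme.{0} :=
  Spec (CommRingCat.of (PowRing m h g))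

/-- Its structure morphism. -/
def powStr (m : Fin r → ℕ) (h g : Fin r → Laurent F₀ n) :
    PowScheme m h g ⟶ Spec (CommRingCat.of (𝓞 F₀)) :=
  Spec.map (CommRingCat.ofHom ((ofLau m h g).comp AddMonoidAlgebra.singleZeroRingHom))

open scoped Classical in
/-- The leading form of `p` in the direction `ξ`: the sum of the terms of largest degree. -/
def lead (ξ : Fin n → ℝ) (p : Laurent F₀ n) : Laurent F₀ n :=
  ⟨p.coeff.filter fun e => ∀ e' ∈ p.coeff.support,
    ∑ l, (e' l : ℝ) * ξ l ≤ ∑ l, (e l : ℝ) * ξ l⟩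

/-- The value at the point `v` of `V` of a Laurent polynomial, for a morphism `q` from `V` to
`PowScheme m h g`. -/
def valAt {V : Scheme.{0}} {m : Fin r → ℕ} {h g : Fin r → Laurent F₀ n}
    (q : V ⟶ PowScheme m h g) (v : V) (p : Laurent F₀ n) : V.residueField v :=
  (Spec.preimage (V.fromSpecResidueField v ≫ q)).hom (ofLau m h g p)

/-- Among any nonzero vectors `ξ t` with sum zero there is one such that, for all `j`, the degree of `g j` in
the direction `ξ t` is smaller than the degree of `h j ^ m j`, and the leading form of `h j` is not zero at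
the points `v` of the generic fibre of `V` which are not in `V'` and whose closure has dimension at least two
(two elements of the residue field are algebraically independent): the zeros of the leading form in the
complement of `V'` have dimension at most one. -/
def NewtonSplit {V V' : Scheme.{0}} (π : V ⟶ Spec (CommRingCat.of (𝓞 F₀))) (i : V' ⟶ V)
    {m : Fin r → ℕ} {h g : Fin r → Laurent F₀ n} (q : V ⟶ PowScheme m h g) : Prop :=
  ∀ (s : ℕ) (ξ : Fin s → Fin n → ℝ), 0 < s → (∀ t, ξ t ≠ 0) → ∑ t, ξ t = 0 →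
    ∃ t, ∀ j, (∀ e ∈ (g j).coeff.support, ∃ e' ∈ (h j).coeff.support,
        ∑ l, (e l : ℝ) * ξ t l < m j * ∑ l, (e' l : ℝ) * ξ t l) ∧
      ∀ v : V, v ∉ Set.range i → Function.Injective (UE.strAt π v) →
        (∃ y : Fin 2 → V.residueField v, AlgebraicIndependent ℤ y) →
          valAt q v (lead (ξ t) (h j)) ≠ 0

end Pool.Agent.Work.MP_e97a4d_nt.CP
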