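import Pool.Agent.Work.MP_e97a4d_nt.CT.RConv
import Pool.Agent.Work.MP_e97a4d_nt.UE.Disc

/-!
# CT/EConst (size M): constant extensions are etale

PROOF. Let `κ := V.residueField v`. `𝓞 F₀ → κ` is injective, so it extends to `F₀ → κ` (`IsFractionRing.lift`), and `κ`
has characteristic zero. Give `ℂ` the algebra structure over `F₀` by `σ`, let `M₁ := IntermediateField.adjoin F₀ (T : Set ℂ)`,
finite over `F₀` (the elements of `T` are algebraic), `M := M₁.toSubfield`. Let `Ω := AlgebraicClosure κ`, an
`F₀`-algebra by the composition; there is an `F₀`-homomorphism `ρ₀ : M₁ → Ω` (`IsAlgClosed.lift`). Let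
`M₁ = F₀(θ)` (`Field.exists_primitive_element`) and `θ' := ρ₀ θ`, `L := κ(θ')` (`IntermediateField.adjoin κ {θ'}` in
`Ω`), finite over `κ` (`θ'` is algebraic over `F₀`, so integral over `κ`). `ρ₀` has values in `L` (every element of `M₁` is
a polynomial in `θ` over `F₀`), this gives `ρ`.

`EtaleAt v L`: let `A, j, φ` be given. `strAt π v = φ.comp ψ` for a homomorphism `ψ : 𝓞 F₀ → A`
(`ψ := (Spec.preimage (j ≫ π)).hom`; apply `Spec.map_injective`, as in the proofs of UG), so elements of `κ` (or `L`) which are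
integral over `ℤ` are integral for `φ` (or its composition): a monic polynomial over `ℤ` maps to one over `A`.
There is an integer `N₁ ≠ 0` with `η := N₁ * θ'` integral over `ℤ` (`θ'` is algebraic over `ℚ`:
`exists_integral_multiple`). `κ(η) = L`, so the minimal polynomial `g` of `η` over `κ` has degree
`finrank κ L` (`IntermediateField.adjoin.finrank` for the element of `L`; `IntermediateField.finrank_top'`; η generates
`L`, transfer of the minimal polynomial `minpoly.algebraMap_eq`). The coefficients of `g` are integral over `ℤ`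
(`g` divides a monic integral polynomial: `Polynomial.isIntegral_coeff_of_dvd`; or `κ` is a field and
`integralClosure ℤ κ` is integrally closed: `minpoly` over it), so `δ := g.discr` is integral over `ℤ` (the
discriminant is a polynomial in the coefficients; see UE/Disc for such arguments; or `δ` is, up to sign, the product of
the differences of the roots, which are integral), and `δ ≠ 0` because `g` is separable (characteristic zero;
see UE/Disc). `δ⁻¹` is algebraic over `ℚ`, so `c := N₂ * δ⁻¹` is integral over `ℤ` for a natural number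
`N₂ ≠ 0`. Take `N := N₂`, `k := 1`, `c`, `η`: `N₂ = c * δ`.
-/

set_option autoImplicit false

noncomputable section

namespace Pool.Agent.Work.MP_e97a4d_nt.CT

open AlgebraicGeometry CategoryTheory NumberField
open Pool.Agent.Work.UP UE

/-- Elements which are integral over the integers are integral for every homomorphism. -/
private theorem ec_int {A B : Type*} [CommRing A] [CommRing B] (ψ : A →+* B) {x : B}
    (hx : IsIntegral ℤ x) : ψ.IsIntegralElem x := by
  obtain ⟨P, hP, hPx⟩ := hx
  refine ⟨P.map (Int.castRingHom A), hP.map _, ?_⟩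
  rw [Polynomial.eval₂_map]
  have h3 : ψ.comp (Int.castRingHom A) = algebraMap ℤ B := RingHom.ext_int _ _
  rw [h3]
  exact hPx

/-- The discriminant of a monic polynomial with integral coefficients is integral. -/
private theorem ec_disc_int {K : Type*} [Field K] {g : Polynomial K} (hg : g.Monic)
    (h0 : 0 < g.natDegree) (hc : ∀ i, IsIntegral ℤ (g.coeff i)) : IsIntegral ℤ g.discr := by
  have h1 : (g.coeffs : Set K) ⊆ (integralClosure ℤ K).toSubring := by
    intro x hx
    obtain ⟨n, -, rfl⟩ := Polynomial.mem_coeffs_iff.1 (Finset.mem_coe.1 hx)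
    exact hc n
  have h2 : (g.toSubring (integralClosure ℤ K).toSubring h1).Monic :=
    (Polynomial.monic_toSubring g _ h1).2 hg
  have h3 : 0 < (g.toSubring (integralClosure ℤ K).toSubring h1).natDegree := by
    rw [Polynomial.natDegree_toSubring]
    exact h0
  have h4 := disc_map ((integralClosure ℤ K).toSubring.subtype) h2 h3
  rw [Polynomial.map_toSubring] at h4
  rw [h4]
  exact (g.toSubring (integralClosure ℤ K).toSubring h1).discr.2

private theorem ec_disc_ne {K : Type*} [Field K] [CharZero K] {g : Polynomial K}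
    (h0 : 0 < g.natDegree) (hs : g.Separable) : g.discr ≠ 0 := by
  intro hd
  have h1 := Polynomial.resultant_deriv (Polynomial.natDegree_pos_iff_degree_pos.1 h0)
  rw [hd, mul_zero] at h1
  apply Polynomial.resultant_ne_zero g g.derivative hs
  rw [Polynomial.natDegree_derivative, h1]

/-- The field extension generated by an element which is algebraic over the rationals. -/
private theorem ec_gen {κ L : Type*} [Field κ] [CharZero κ] [Field L] [Algebra κ L]
    [FiniteDimensional κ L] (θ : L) (hθ : (minpoly κ θ).natDegree = Module.finrank κ L)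
    (hQ : IsAlgebraic ℤ θ) :
    ∃ (N : ℕ) (c : κ) (η : L), N ≠ 0 ∧ IsIntegral ℤ c ∧ IsIntegral ℤ η ∧
      (minpoly κ η).natDegree = Module.finrank κ L ∧ (N : κ) = c * (minpoly κ η).discr := by
  haveI : CharZero L := charZero_of_injective_algebraMap (algebraMap κ L).injective
  obtain ⟨y, hy0, hy⟩ := hQ.exists_integral_multiple
  have htop : IntermediateField.adjoin κ {θ} = ⊤ :=
    (Field.primitive_element_iff_minpoly_natDegree_eq κ θ).2 hθ
  have hmem : θ ∈ IntermediateField.adjoin κ {y • θ} := by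
    have h1 : y • θ ∈ IntermediateField.adjoin κ {y • θ} :=
      IntermediateField.mem_adjoin_simple_self κ _
    have h2 : ((y : L))⁻¹ * (y • θ) ∈ IntermediateField.adjoin κ {y • θ} := by
      refine mul_mem (inv_mem ?_) h1
      exact intCast_mem _ y
    have h3 : ((y : L))⁻¹ * (y • θ) = θ := by
      rw [zsmul_eq_mul, inv_mul_cancel_left₀]
      exact_mod_cast hy0
    rw [h3] at h2
    exact h2
  have htop' : IntermediateField.adjoin κ {y • θ} = ⊤ := by
    rw [eq_top_iff, ← htop, IntermediateField.adjoin_simple_le_iff]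
    exact hmem
  have hdeg : (minpoly κ (y • θ)).natDegree = Module.finrank κ L :=
    (Field.primitive_element_iff_minpoly_natDegree_eq κ _).1 htop'
  have hint : IsIntegral κ (y • θ) := IsIntegral.of_finite κ _
  have hmon := minpoly.monic hint
  have hpos : 0 < (minpoly κ (y • θ)).natDegree := minpoly.natDegree_pos hint
  have hcoef : ∀ i, IsIntegral ℤ ((minpoly κ (y • θ)).coeff i) := by
    obtain ⟨P, hP, hPx⟩ := hy
    intro i
    refine Polynomial.isIntegral_coeff_of_dvd P _ hP hmon ?_ i
    apply minpoly.dvd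
    rw [Polynomial.aeval_def, Polynomial.eval₂_map]
    have h3 : (algebraMap κ L).comp (algebraMap ℤ κ) = algebraMap ℤ L := RingHom.ext_int _ _
    rw [h3]
    exact hPx
  have hd1 := ec_disc_int hmon hpos hcoef
  have hd2 := ec_disc_ne hpos (minpoly.irreducible hint).separable
  obtain ⟨z, hz0, hz⟩ := (hd1.isAlgebraic.inv).exists_integral_multiple
  refine ⟨z.natAbs, (z.natAbs : κ) * (minpoly κ (y • θ)).discr⁻¹, y • θ,
    Int.natAbs_ne_zero.2 hz0, ?_, hy, hdeg, ?_⟩
  · rw [zsmul_eq_mul] at hz
    rcases Int.natAbs_eq z with h | h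
    · rw [h, Int.cast_natCast] at hz
      exact hz
    · rw [h, Int.cast_neg, Int.cast_natCast, neg_mul] at hz
      rw [← neg_neg ((z.natAbs : κ) * (minpoly κ (y • θ)).discr⁻¹)]
      exact hz.neg
  · rw [inv_mul_cancel_right₀ hd2]

/-- The extension of the residue field and the homomorphism to it. -/
private theorem ec_ext {F₀ κ : Type} [Field F₀] [NumberField F₀] [Field κ] (σ : F₀ →+* ℂ)
    (g : F₀ →+* κ) (T : Finset ℂ) (hT : ∀ c ∈ T, IsAlgebraic ℚ c) :
    ∃ (M : Subfield ℂ) (hM : ∀ x : F₀, σ x ∈ M) (_ : ∀ c ∈ T, c ∈ M)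
      (L : Type) (_ : Field L) (_ : Algebra κ L) (ρ : M →+* L) (θ : L),
      FiniteDimensional κ L ∧ (minpoly κ θ).natDegree = Module.finrank κ L ∧ IsAlgebraic ℤ θ ∧
        ∀ x : F₀, ρ ⟨σ x, hM x⟩ = algebraMap κ L (g x) := by
  letI : Algebra F₀ ℂ := σ.toAlgebra
  haveI : IsScalarTower ℚ F₀ ℂ := IsScalarTower.of_algebraMap_eq' (RingHom.ext_rat _ _)
  let M₁ : IntermediateField F₀ ℂ := IntermediateField.adjoin F₀ (T : Set ℂ)
  haveI hfin : FiniteDimensional F₀ M₁ := by
    haveI : Finite (T : Set ℂ) := T.finite_toSet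
    refine IntermediateField.finiteDimensional_adjoin fun x hx => ?_
    exact ((hT x (Finset.mem_coe.1 hx)).isIntegral.tower_top : IsIntegral F₀ x)
  let Ω := AlgebraicClosure κ
  letI : Algebra F₀ κ := g.toAlgebra
  haveI : IsScalarTower F₀ κ Ω := inferInstance
  let ρ₀ : M₁ →ₐ[F₀] Ω := IsAlgClosed.lift
  haveI : CharZero F₀ := inferInstance
  obtain ⟨θ, hθ⟩ := Field.exists_primitive_element F₀ M₁
  have hθi : IsIntegral F₀ θ := IsIntegral.of_finite F₀ θ
  have hθ' : IsIntegral κ (ρ₀ θ) := (hθi.map ρ₀).tower_top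
  have hmem : ∀ x : M₁, ρ₀ x ∈ IntermediateField.adjoin κ {ρ₀ θ} := by
    intro x
    have hx : x ∈ IntermediateField.adjoin F₀ {θ} := by rw [hθ]; trivial
    induction hx using IntermediateField.adjoin_induction with
    | mem y hy =>
      rw [Set.mem_singleton_iff] at hy
      rw [hy]
      exact IntermediateField.mem_adjoin_simple_self κ _
    | algebraMap y =>
      rw [AlgHom.commutes, IsScalarTower.algebraMap_apply F₀ κ Ω]
      exact IntermediateField.algebraMap_mem _ _
    | add y z _ _ hy hz => rw [map_add]; exact add_mem hy hz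
    | inv y _ hy => rw [map_inv₀]; exact inv_mem hy
    | mul y z _ _ hy hz => rw [map_mul]; exact mul_mem hy hz
  refine ⟨M₁.toSubfield, fun x => M₁.algebraMap_mem x,
    fun c hc => IntermediateField.subset_adjoin F₀ _ (Finset.mem_coe.2 hc),
    IntermediateField.adjoin κ {ρ₀ θ}, inferInstance, inferInstance,
    (ρ₀ : M₁ →+* Ω).codRestrict (IntermediateField.adjoin κ {ρ₀ θ}).toSubfield hmem,
    IntermediateField.AdjoinSimple.gen κ (ρ₀ θ),
    IntermediateField.adjoin.finiteDimensional hθ', ?_, ?_, ?_⟩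
  · rw [IntermediateField.adjoin.finrank hθ', IntermediateField.minpoly_gen]
  · have h1 : IsAlgebraic ℚ θ := by
      haveI : Algebra.IsAlgebraic F₀ M₁ := Algebra.IsAlgebraic.of_finite F₀ M₁
      exact (Algebra.IsAlgebraic.isAlgebraic (R := F₀) θ).restrictScalars ℚ
    have h2 : IsAlgebraic ℤ θ := (IsFractionRing.isAlgebraic_iff ℤ ℚ M₁).2 h1
    have h3 : IsAlgebraic ℤ (ρ₀ θ) := by
      obtain ⟨q, hq, hqc⟩ := h2
      refine ⟨q, hq, ?_⟩
      have h4 := congrArg ρ₀ hqc
      rw [map_zero, Polynomial.aeval_def, ← AlgHom.coe_toRingHom, Polynomial.hom_eval₂] at h4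
      rw [Polynomial.aeval_def]
      have h5 : (ρ₀ : M₁ →+* Ω).comp (algebraMap ℤ M₁) = algebraMap ℤ Ω := RingHom.ext_int _ _
      rw [← h5]
      exact h4
    obtain ⟨q, hq, hqc⟩ := h3
    refine ⟨q, hq, ?_⟩
    apply (algebraMap (IntermediateField.adjoin κ {ρ₀ θ}) Ω).injective
    rw [map_zero, Polynomial.aeval_def, Polynomial.hom_eval₂]
    rw [Polynomial.aeval_def] at hqc
    have h6 : ∀ f : ℤ →+* Ω, Polynomial.eval₂ f (ρ₀ θ) q = 0 := fun f => by
      rw [show f = algebraMap ℤ Ω from RingHom.ext_int _ _]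
      exact hqc
    exact h6 _
  · intro x
    apply Subtype.ext
    show ρ₀ ⟨σ x, _⟩ = algebraMap κ Ω (g x)
    exact ρ₀.commutes x


theorem const_cover {F₀ : Type} [Field F₀] [NumberField F₀] (σ : F₀ →+* ℂ) {V : Scheme.{0}}
    (π : V ⟶ Spec (CommRingCat.of (𝓞 F₀))) (v : V) (h : Function.Injective (UE.strAt π v))
    (T : Finset ℂ) (hT : ∀ c ∈ T, IsAlgebraic ℚ c) :
    ∃ (M : Subfield ℂ) (hM : ∀ x : F₀, σ x ∈ M) (_ : ∀ c ∈ T, c ∈ M)
      (L : Type) (_ : Field L) (_ : Algebra (V.residueField v) L) (ρ : M →+* L),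
      FiniteDimensional (V.residueField v) L ∧ UE.EtaleAt v L ∧
        ∀ x : 𝓞 F₀, ρ ⟨σ x, hM x⟩ = algebraMap (V.residueField v) L (UE.strAt π v x) := by
  haveI : CharZero (V.residueField v) := charZero_of_injective_ringHom h
  obtain ⟨M, hM, hTM, L, iL, iA, ρ, θ, hfin, hdeg, halg, hρ⟩ := ec_ext σ
    (IsFractionRing.lift (K := F₀) h) T hT
  refine ⟨M, hM, hTM, L, iL, iA, ρ, hfin, ?_, ?_⟩
  · intro A j φ _ _
    obtain ⟨N, c, η, hN, hc, hη, hd, hNc⟩ := ec_gen θ hdeg halg
    refine ⟨N, 1, fun _ => c, fun _ => η, hN, fun _ => ec_int _ hc, fun _ => ec_int _ hη,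
      fun _ => hd, ?_⟩
    rw [Fin.sum_univ_one]
    exact hNc
  · intro x
    have h1 := hρ (x : F₀)
    rw [h1]
    congr 1
    exact IsFractionRing.lift_algebraMap h x

end Pool.Agent.Work.MP_e97a4d_nt.CT
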