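import Pool.Agent.Work.MP_e97a4d_nt.CT.EDefs
import Pool.Agent.Work.MP_e97a4d_nt.UG.Res

/-!
# CT/EUnit (size S-M): values of invertible functions are units of the covers

PROOF of `valAt_chart`. `Spec.map (ofHom (φ.comp (preimage (j ≫ q)).hom)) = Spec.map φ ≫ j ≫ q = V.fromSpecResidueField v ≫ q =
Spec.map (ofHom (valAt q v))` (`Spec.map_comp`, `Spec.map_preimage`); `Spec.map_injective`.
PROOF of `unit_at`. `valAt q v a` is a unit of the field, so not zero. `IntegralAt`: for a chart `A, j, φ` take `N := 1`;
`algebraMap (valAt q v a) = ((algebraMap _ L).comp φ) b` with `b := (Spec.preimage (j ≫ q)).hom a` by `valAt_chart`, an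
element in the image of a ring homomorphism is integral for it (`RingHom.isIntegralElem_map`). The inverse: if
`a * a' = 1` then the inverse of the value of `a` is the value of `a'`. (Compare UE/OldV and UG/OldCase.)
PROOF of `valAt_str`. `Spec.map` of both sides is `V.fromSpecResidueField v ≫ π` (`strAt_spec`, UG/Res).
-/

set_option autoImplicit false

noncomputable section

namespace Pool.Agent.Work.MP_e97a4d_nt.CT

open AlgebraicGeometry CategoryTheory NumberField
open Pool.Agent.Work.UP

private theorem eu_spec {V : Scheme.{0}} {R : Type} [CommRing R]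
    (q : V ⟶ Spec (CommRingCat.of R)) (v : V) :
    Spec.map (CommRingCat.ofHom (valAt q v)) = V.fromSpecResidueField v ≫ q :=
  Spec.map_preimage (V.fromSpecResidueField v ≫ q)

private theorem eu_inj {R S : Type} [CommRing R] [CommRing S] {f g : R →+* S}
    (h : Spec.map (CommRingCat.ofHom f) = Spec.map (CommRingCat.ofHom g)) : f = g := by
  have h1 := Spec.map_injective h
  exact congrArg CommRingCat.Hom.hom h1

theorem valAt_chart {V : Scheme.{0}} {R : Type} [CommRing R] (q : V ⟶ Spec (CommRingCat.of R))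
    (v : V) (A : CommRingCat.{0}) (j : Spec A ⟶ V) (φ : A →+* V.residueField v)
    (h : Spec.map (CommRingCat.ofHom φ) ≫ j = V.fromSpecResidueField v) :
    valAt q v = φ.comp (Spec.preimage (j ≫ q)).hom := by
  apply eu_inj
  have h1 : Spec.map (CommRingCat.ofHom (φ.comp (Spec.preimage (j ≫ q)).hom)) =
      Spec.map (CommRingCat.ofHom φ) ≫ Spec.map (Spec.preimage (j ≫ q)) := by
    rw [← Spec.map_comp]
    rfl
  rw [h1, eu_spec, Spec.map_preimage, ← Category.assoc, h]

theorem unit_at {V : Scheme.{0}} {R : Type} [CommRing R] (q : V ⟶ Spec (CommRingCat.of R)) (v : V)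
    (L : Type) [Field L] [Algebra (V.residueField v) L] (a : R) (ha : IsUnit a) :
    algebraMap (V.residueField v) L (valAt q v a) ∈ UE.unitsAt v L := by
  have hu : IsUnit (valAt q v a) := ha.map _
  obtain ⟨a', ha'⟩ := ha.exists_right_inv
  have hinv : (algebraMap (V.residueField v) L (valAt q v a))⁻¹ =
      algebraMap (V.residueField v) L (valAt q v a') := by
    rw [inv_eq_iff_eq_inv]
    apply eq_inv_of_mul_eq_one_left
    rw [← map_mul, ← map_mul, ha', map_one, map_one]
  have key : ∀ b : R, UE.IntegralAt v (algebraMap (V.residueField v) L (valAt q v b)) := by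
    intro b A j φ _ h
    refine ⟨1, one_ne_zero, ?_⟩
    rw [Nat.cast_one, one_mul, valAt_chart q v A j φ h]
    exact RingHom.isIntegralElem_map ((algebraMap (V.residueField v) L).comp φ)
      (x := (Spec.preimage (j ≫ q)).hom b)
  refine ⟨?_, key a, ?_⟩
  · exact (hu.map (algebraMap (V.residueField v) L)).ne_zero
  · rw [hinv]
    exact key a'

theorem valAt_str {F₀ : Type} [Field F₀] {V : Scheme.{0}} (π : V ⟶ Spec (CommRingCat.of (𝓞 F₀)))
    {R : Type} [CommRing R] [Algebra (𝓞 F₀) R] (q : V ⟶ Spec (CommRingCat.of R))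
    (hq : q ≫ Spec.map (CommRingCat.ofHom (algebraMap (𝓞 F₀) R)) = π) (v : V) :
    (valAt q v).comp (algebraMap (𝓞 F₀) R) = UE.strAt π v := by
  apply eu_inj
  have h1 : Spec.map (CommRingCat.ofHom ((valAt q v).comp (algebraMap (𝓞 F₀) R))) =
      Spec.map (CommRingCat.ofHom (valAt q v)) ≫
        Spec.map (CommRingCat.ofHom (algebraMap (𝓞 F₀) R)) := by
    rw [← Spec.map_comp]
    rfl
  have h2 : Spec.map (CommRingCat.ofHom (UE.strAt π v)) = V.fromSpecResidueField v ≫ π :=
    Spec.map_preimage (V.fromSpecResidueField v ≫ π)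
  rw [h1, eu_spec, h2, Category.assoc, hq]

end Pool.Agent.Work.MP_e97a4d_nt.CT
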