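import Pool.Agent.Work.MP_e97a4d_nt.CT.EDefs

/-!
# CT/NSch (size M): residue fields for morphisms which are surjective on stalks

PROOF. `q` maps `v` to a prime `𝔭` of `R`; the stalk map `q.stalkMap v : 𝒪_{Spec R, q v} → 𝒪_{V, v}` is surjective
(`SurjectiveOnStalks`, `Scheme.Hom.stalkMap_surjective`), `𝒪_{V, v} → κ(v)` (`V.residue v`) is surjective
(`Scheme.residue_surjective`), and every element of the stalk of `Spec R` at `q v` is a fraction: it is a localization of
`R` (`StructureSheaf.IsLocalization.to_stalk`, or `IsLocalization.AtPrime` instance for the stalk of `Spec`), so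
`s * t = toStalk a` with `s = toStalk b`, `b ∉ 𝔭`. The composite `R → 𝒪_{Spec R, q v} → 𝒪_{V, v} → κ(v)` is `valAt q v`
(`V.fromSpecResidueField v ≫ q = Spec.map (V.residue v) ≫ V.fromSpecStalk v ≫ q`,
`Scheme.Spec_map_stalkMap_fromSpecStalk` : `Spec.map (q.stalkMap v) ≫ (Spec R).fromSpecStalk (q v) = V.fromSpecStalk v ≫ q`,
and `Spec_fromSpecStalk` for the affine scheme; compare with the proofs in CT/EQf, CT/EUnit). `valAt q v b` is not
zero: `toStalk b` is a unit of the stalk.
(Alternatively: `q.residueFieldMap v` is surjective and the residue field of `Spec R` at `𝔭` is the fraction field of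
`R ⧸ 𝔭`.)
-/

set_option autoImplicit false

noncomputable section

namespace Pool.Agent.Work.MP_e97a4d_nt.CT

open AlgebraicGeometry CategoryTheory

private theorem sf_map {V : Scheme.{0}} {R : Type} [CommRing R] (q : V ⟶ Spec (CommRingCat.of R))
    (v : V) :
    Spec.preimage (V.fromSpecResidueField v ≫ q) =
      StructureSheaf.toStalk (CommRingCat.of R) (q v) ≫ q.stalkMap v ≫ V.residue v := by
  apply Spec.map_injective
  rw [Spec.map_preimage, Scheme.fromSpecResidueField, Category.assoc,
    ← Scheme.SpecMap_stalkMap_fromSpecStalk, Spec.fromSpecStalk_eq']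
  rw [← Category.assoc, ← Spec.map_comp]
  exact (Spec.map_comp _ _).symm

theorem stalk_frac {V : Scheme.{0}} {R : Type} [CommRing R] (q : V ⟶ Spec (CommRingCat.of R))
    [SurjectiveOnStalks q] (v : V) (x : V.residueField v) :
    ∃ a b : R, valAt q v b ≠ 0 ∧ x * valAt q v b = valAt q v a := by
  obtain ⟨s, hs⟩ := V.residue_surjective v x
  obtain ⟨t, ht⟩ := q.stalkMap_surjective v s
  let ι : R →+* (Spec (CommRingCat.of R)).presheaf.stalk (q v) :=
    (StructureSheaf.toStalk (CommRingCat.of R) (q v)).hom
  have hv : ∀ a : R, valAt q v a = (V.residue v).hom ((q.stalkMap v).hom (ι a)) := by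
    intro a
    change (Spec.preimage (V.fromSpecResidueField v ≫ q)).hom a = _
    rw [sf_map]
    rfl
  obtain ⟨⟨a, b⟩, hab⟩ := IsLocalization.surj (q v).asIdeal.primeCompl
    (S := (Spec.structureSheaf (CommRingCat.of R)).presheaf.stalk (q v)) t
  have h1 : t * ι b.1 = ι a := hab
  have hu : IsUnit (ι b.1) := IsLocalization.map_units
    ((Spec.structureSheaf (CommRingCat.of R)).presheaf.stalk (q v)) b
  refine ⟨a, b.1, ?_, ?_⟩
  · rw [hv]
    exact ((hu.map (q.stalkMap v).hom).map (V.residue v).hom).ne_zero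
  · rw [hv, hv, ← h1, map_mul, map_mul, ← hs, ← ht]

end Pool.Agent.Work.MP_e97a4d_nt.CT
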