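import Pool.Agent.Work.MP_e97a4d_nt.CT.NField
import Pool.Agent.Work.MP_e97a4d_nt.CT.NSch
import Pool.Agent.Work.MP_e97a4d_nt.CT.EConst
import Pool.Agent.Work.MP_e97a4d_nt.CT.EUnit

/-!
# CT/NMain (size M): powers plus lower terms, the scheme

PROOF. Let `v ∉ Set.range i`, `hs : Function.Injective (strAt π v)`; we prove the second alternative (`Or.inr`).
`κ := V.residueField v`. `M := ∏ j, m j ≠ 0`, `T := {Complex.exp (2 * π * I / M)}` (a primitive `M`-th root of unity,
`Complex.isPrimitiveRoot_exp`, algebraic over `ℚ`). `const_cover σ π v hs T _` gives `M₀, L, ρ`; `CharZero L` by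
`char_zero_at`. The primitive `M`-th root of unity `ρ ⟨_, _⟩` of `L` (ring homomorphisms of fields are injective) has
the power `M / m j`, a primitive `m j`-th root of unity (`IsPrimitiveRoot.pow`).
`τ₀ := (algebraMap κ L).comp (valAt q v) : PowRing m h g →+* L`, `τ := τ₀.comp (algebraMap (LauN n (𝓞 F₀)) (PowRing m h g))`,
`x j := τ₀ (class of X j)`, so `x j ^ m j = τ (h j ^ m j + g j)` (`Ideal.Quotient.eq_zero_iff_mem`, `Ideal.subset_span`).
`u l := ` the unit `τ (single (Pi.single l 1) 1)` (the image of a unit), `hτ`: `τ (single e 1) = mon (cu u) e` (multiplicative in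
`e`; as `tau_mon` in CT/ESpl). `hR`: `τ (single 0 c) = algebraMap κ L (strAt π v c)` (`valAt_str`, CT/EUnit:
`(valAt q v).comp (algebraMap (𝓞 F₀) (PowRing m h g)) = strAt π v` by `hq`), algebraic over `ℚ` (`c` is integral over
`ℤ`). `halg`: let `B := Algebra.adjoin ℤ (Set.range τ ∪ Set.range x)`; `τ₀ a ∈ B` for all `a : PowRing m h g` (lift `a` to
`MvPolynomial (Fin r) (LauN ..)` and use induction: `C p ↦ τ p`, `X j ↦ x j`); every element of `κ` is a quotient of
values (`stalk_frac`), so every `algebraMap κ L y` is in the fraction field of `B`, algebraic over `B`; `L` is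
finite over `κ`: transitivity (the elements of `L` algebraic over `B` form a relatively algebraically closed
subfield which contains the image of `κ`).
`newt_field` gives `m', k, a, b`. Take `z i := mon (cu u) (a i)`. `z i ∈ unitsAt v L`: `mon (cu u) (a i) = τ (single (a i) 1) =
algebraMap κ L (valAt q v (algebraMap _ _ (single (a i) 1)))`, the value of a unit: `unit_at` (CT/EUnit); the same for
`w j := mon (cu u) (b j)`. `FinStab (constAt π v L) z`: `constAt π v L = {c | IsAlgebraic ℚ c}` by `const_iff` (CT/RConv).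
* Left alternative of `newt_field`: `∀ ξ : κ, algebraMap ξ ∈ Subfield.closure (unitsAt v L ∪ algOver z)`: the closure contains
  the `x j` (`Subfield.closure_mono`), the `u l` (units) and the elements algebraic over `ℚ` (in `algOver z`), so all
  `τ p`, so all `τ₀ a`, so quotients (`stalk_frac`).
* Right alternative: `SplitOver v L z`: `⟨k, w, _, _, fun hk s η hs hη hsum => _⟩`. The `ξ` of `newt_field`; `hN` (NewtonSplit) for `ξ`
  gives `t`; the hypothesis at `t`: the first part is the same, `τ (lead (ξ t) (h j)) = algebraMap κ L (valAt q v ..) ≠ 0`.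
  The condition `∃ y : Fin 2 → κ, AlgebraicIndependent ℤ y`: `w j = algebraMap κ L (y₀ j)` with `y₀ j := valAt q v (..)` (see above), and
  `w` is algebraically independent over `Algebra.adjoin ℤ _`, so over `ℤ` (`AlgebraicIndependent.restrictScalars`), so the
  `y₀ j` are (`algebraMap κ L` is injective; `AlgebraicIndependent.of_aeval`, `AlgHom.algebraicIndependent_iff` or similar), and
  `2 ≤ k` (`hk`): compose with `Fin.castLE hk : Fin 2 → Fin k` (`AlgebraicIndependent.comp`).
-/

set_option autoImplicit false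

noncomputable section

namespace Pool.Agent.Work.MP_e97a4d_nt.CT

open AlgebraicGeometry CategoryTheory NumberField
open Pool.Agent.Work.UP UE

/-- The value of a ring homomorphism at a monomial. -/
private theorem nm_mon {R κ : Type} [CommRing R] [Field κ] {n : ℕ}
    (τ : LauN n R →+* κ) (u : Fin n → κˣ)
    (hu : ∀ l, (u l : κ) = τ (AddMonoidAlgebra.single (Pi.single l 1) 1)) (e : Fin n → ℤ) :
    τ (AddMonoidAlgebra.single e 1) = mon (cu u) e := by
  classical
  let T : Multiplicative (Fin n → ℤ) →* κˣ :=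
    ((τ : LauN n R →* κ).comp (AddMonoidAlgebra.of R (Fin n → ℤ))).toHomUnits
  have hT : ∀ a : Fin n → ℤ, ((T (Multiplicative.ofAdd a) : κˣ) : κ) =
      τ (AddMonoidAlgebra.single a 1) := fun a => rfl
  have he : e = ∑ l, e l • (Pi.single l (1 : ℤ) : Fin n → ℤ) := by
    funext j
    simp [Finset.sum_apply, Pi.single_apply]
  have h1 : ∀ s : Finset (Fin n), T (Multiplicative.ofAdd (∑ l ∈ s,
      e l • (Pi.single l (1 : ℤ) : Fin n → ℤ))) =
        ∏ l ∈ s, T (Multiplicative.ofAdd (Pi.single l 1)) ^ e l := by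
    intro s
    induction s using Finset.induction_on with
    | empty => simp
    | insert a s ha ih =>
      rw [Finset.sum_insert ha, Finset.prod_insert ha, ofAdd_add, map_mul, ih, ofAdd_zsmul,
        map_zpow]
  have h2 := h1 Finset.univ
  rw [← he] at h2
  rw [← hT, h2, Units.coe_prod]
  unfold mon cu
  refine Finset.prod_congr rfl fun l _ => ?_
  rw [Units.val_zpow_eq_zpow_val, hT, hu]

/-- The values of a Laurent polynomial are in the ring generated by the values of the constants and the
monomials. -/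
private theorem nm_lau {R L : Type} [CommRing R] [Field L] {n : ℕ} (τ : LauN n R →+* L)
    (S : Subring L) (h0 : ∀ c : R, τ (AddMonoidAlgebra.single 0 c) ∈ S)
    (h1 : ∀ e, τ (AddMonoidAlgebra.single e 1) ∈ S) (p : LauN n R) : τ p ∈ S := by
  induction p using AddMonoidAlgebra.induction_linear with
  | zero => rw [map_zero]; exact S.zero_mem
  | add f g hf hg => rw [map_add]; exact S.add_mem hf hg
  | single e c =>
    have h2 : (AddMonoidAlgebra.single e c : LauN n R) =
        AddMonoidAlgebra.single 0 c * AddMonoidAlgebra.single e 1 := by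
      rw [AddMonoidAlgebra.single_mul_single, zero_add, mul_one]
    rw [h2, map_mul]
    exact S.mul_mem (h0 c) (h1 e)

/-- The values of a function on the cover are in the ring generated by the values of the Laurent
polynomials and the values of the `x j`. -/
private theorem nm_val {F₀ L : Type} [Field F₀] [Field L] {n r : ℕ} {m : Fin r → ℕ}
    {h g : Fin r → LauN n (𝓞 F₀)} (τ₀ : PowRing m h g →+* L) (S : Subring L)
    (hτ : ∀ p, τ₀ (algebraMap (LauN n (𝓞 F₀)) (PowRing m h g) p) ∈ S)
    (hx : ∀ j, τ₀ (Ideal.Quotient.mk _ (MvPolynomial.X j)) ∈ S) (a : PowRing m h g) :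
    τ₀ a ∈ S := by
  obtain ⟨P, rfl⟩ := Ideal.Quotient.mk_surjective a
  induction P using MvPolynomial.induction_on with
  | C p => exact hτ p
  | add p q hp hq => rw [map_add, map_add]; exact S.add_mem hp hq
  | mul_X p j hp => rw [map_mul, map_mul]; exact S.mul_mem hp (hx j)

/-- Elements which are algebraic over the rationals are algebraic over every subring. -/
private theorem nm_alg {L : Type} [Field L] [CharZero L] (B : Subalgebra ℤ L) {c : L}
    (hc : IsAlgebraic ℚ c) : IsAlgebraic B c := by
  have h1 : IsAlgebraic ℤ c := (IsFractionRing.isAlgebraic_iff ℤ ℚ L).2 hc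
  exact h1.extendScalars (FaithfulSMul.algebraMap_injective ℤ B)

theorem toric_newton {F₀ : Type} [Field F₀] [NumberField F₀] (σ : F₀ →+* ℂ) {V V' : Scheme.{0}}
    (π : V ⟶ Spec (CommRingCat.of (𝓞 F₀))) (i : V' ⟶ V) {n r : ℕ} (m : Fin r → ℕ)
    (hm : ∀ j, m j ≠ 0) (h g : Fin r → LauN n (𝓞 F₀)) (q : V ⟶ PowScheme m h g)
    (hq : q ≫ powStr m h g = π) [SurjectiveOnStalks q] (hN : NewtonSplit π i q) :
    ToricGen σ π i := by
  classical
  intro v hv hs
  right
  -- the cover
  have hM0 : (∏ j, m j) ≠ 0 := Finset.prod_ne_zero_iff.2 fun j _ => hm j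
  have hζ₀ := Complex.isPrimitiveRoot_exp (∏ j, m j) hM0
  generalize Complex.exp (2 * Real.pi * Complex.I / ((∏ j, m j : ℕ) : ℂ)) = ζ₀ at hζ₀
  have hζalg : IsAlgebraic ℚ ζ₀ :=
    (IsFractionRing.isAlgebraic_iff ℤ ℚ ℂ).1
      (hζ₀.isIntegral (Nat.pos_of_ne_zero hM0)).isAlgebraic
  obtain ⟨M₀, hM₀, hTM, L, iL, iA, ρ, hfin, hEt, -⟩ := const_cover σ π v hs {ζ₀} (by
    intro c hc
    rw [Finset.mem_singleton] at hc
    rw [hc]
    exact hζalg)
  have hcL : CharZero L := char_zero_at π v hs L
  refine ⟨L, iL, iA, hfin, hEt, ?_⟩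
  -- roots of unity
  have hmem : ζ₀ ∈ M₀ := hTM ζ₀ (Finset.mem_singleton_self ζ₀)
  have hζ₁ : IsPrimitiveRoot (⟨ζ₀, hmem⟩ : M₀) (∏ j, m j) :=
    IsPrimitiveRoot.of_map_of_injective (f := M₀.subtype) hζ₀ M₀.subtype.injective
  have hζ₂ : IsPrimitiveRoot (ρ ⟨ζ₀, hmem⟩) (∏ j, m j) := hζ₁.map_of_injective ρ.injective
  have hζ : ∀ j, ∃ ζ : L, IsPrimitiveRoot ζ (m j) := fun j =>
    ⟨_, hζ₂.pow (Nat.pos_of_ne_zero hM0)
      (Nat.div_mul_cancel (Finset.dvd_prod_of_mem m (Finset.mem_univ j))).symm⟩
  -- the values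
  let τ₀ : PowRing m h g →+* L := (algebraMap (V.residueField v) L).comp (valAt q v)
  let τ : LauN n (𝓞 F₀) →+* L := τ₀.comp (algebraMap (LauN n (𝓞 F₀)) (PowRing m h g))
  have hxu : ∀ e : Fin n → ℤ, IsUnit (AddMonoidAlgebra.single e 1 : LauN n (𝓞 F₀)) := by
    intro e
    refine IsUnit.of_mul_eq_one (AddMonoidAlgebra.single (-e) 1) ?_
    rw [AddMonoidAlgebra.single_mul_single, mul_one, add_neg_cancel]
    rfl
  have hunit : ∀ e : Fin n → ℤ, τ (AddMonoidAlgebra.single e 1) ∈ UE.unitsAt v L := fun e =>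
    unit_at q v L _ ((hxu e).map (algebraMap (LauN n (𝓞 F₀)) (PowRing m h g)))
  let u : Fin n → Lˣ := fun l => Units.mk0 (τ (AddMonoidAlgebra.single (Pi.single l 1) 1))
    (hunit _).1
  have hmon : ∀ e, τ (AddMonoidAlgebra.single e 1) = mon (cu u) e :=
    nm_mon τ u fun l => rfl
  have hR : ∀ c : 𝓞 F₀, IsAlgebraic ℚ (τ (AddMonoidAlgebra.single 0 c)) := by
    intro c
    have h1 := RingHom.congr_fun (valAt_str π q hq v) c
    have h2 : τ (AddMonoidAlgebra.single 0 c) =
        algebraMap (V.residueField v) L (UE.strAt π v c) := by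
      rw [← h1]
      rfl
    rw [h2]
    have h3 : IsIntegral ℤ (((algebraMap (V.residueField v) L).comp (UE.strAt π v)) c) :=
      map_isIntegral_int _ (NumberField.RingOfIntegers.isIntegral c)
    exact (IsFractionRing.isAlgebraic_iff ℤ ℚ L).1 h3.isAlgebraic
  let x : Fin r → L := fun j => τ₀ (Ideal.Quotient.mk _ (MvPolynomial.X j))
  have hx : ∀ j, x j ^ m j = τ (h j ^ m j + g j) := by
    intro j
    show τ₀ (Ideal.Quotient.mk _ (MvPolynomial.X j)) ^ m j =
      τ₀ (Ideal.Quotient.mk _ (MvPolynomial.C (h j ^ m j + g j)))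
    rw [← map_pow, ← map_pow]
    congr 1
    exact Ideal.Quotient.eq.2 (Ideal.subset_span ⟨j, rfl⟩)
  -- all elements are algebraic over the ring generated by the values
  have halg : ∀ y : L, IsAlgebraic (Algebra.adjoin ℤ (Set.range τ ∪ Set.range x)) y := by
    intro y
    have hB : ∀ a, τ₀ a ∈ (Algebra.adjoin ℤ (Set.range τ ∪ Set.range x)).toSubring :=
      nm_val τ₀ _ (fun p => Algebra.subset_adjoin (Or.inl ⟨p, rfl⟩))
        (fun j => Algebra.subset_adjoin (Or.inr ⟨j, rfl⟩))
    have hB' : ∀ a, IsAlgebraic (Algebra.adjoin ℤ (Set.range τ ∪ Set.range x)) (τ₀ a) :=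
      fun a => isAlgebraic_algebraMap
        (⟨τ₀ a, hB a⟩ : Algebra.adjoin ℤ (Set.range τ ∪ Set.range x))
    have hκ : ∀ t : V.residueField v,
        IsAlgebraic (Algebra.adjoin ℤ (Set.range τ ∪ Set.range x))
          (algebraMap (V.residueField v) L t) := by
      intro t
      obtain ⟨a, b, hb, hab⟩ := stalk_frac q v t
      have h1 : algebraMap (V.residueField v) L t = τ₀ a * (τ₀ b)⁻¹ := by
        rw [eq_mul_inv_iff_mul_eq₀]
        · show _ * algebraMap _ _ (valAt q v b) = algebraMap _ _ (valAt q v a)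
          rw [← map_mul, hab]
        · exact (map_ne_zero (algebraMap (V.residueField v) L)).2 hb
      rw [h1]
      exact (hB' a).mul (hB' b).inv
    obtain ⟨p, hp, hpy⟩ : IsAlgebraic (V.residueField v) y :=
      Algebra.IsAlgebraic.isAlgebraic y
    let f : V.residueField v →+* Subalgebra.algebraicClosure
        (Algebra.adjoin ℤ (Set.range τ ∪ Set.range x)) L :=
      (algebraMap (V.residueField v) L).codRestrict
        (Subalgebra.algebraicClosure (Algebra.adjoin ℤ (Set.range τ ∪ Set.range x)) L) hκ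
    have hf : (algebraMap (Subalgebra.algebraicClosure
        (Algebra.adjoin ℤ (Set.range τ ∪ Set.range x)) L) L).comp f =
          algebraMap (V.residueField v) L := RingHom.ext fun _ => rfl
    have h1 : IsAlgebraic (Subalgebra.algebraicClosure
        (Algebra.adjoin ℤ (Set.range τ ∪ Set.range x)) L) y := by
      refine ⟨p.map f, ?_, ?_⟩
      · rw [Ne, Polynomial.map_eq_zero_iff f.injective]
        exact hp
      · rw [Polynomial.aeval_def, Polynomial.eval₂_map, hf]
        exact hpy
    exact h1.restrictScalars (Algebra.adjoin ℤ (Set.range τ ∪ Set.range x))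
  obtain ⟨m', k, a, b, hst, htb, hlr⟩ := newt_field u τ hmon hR m
    (fun j => Nat.pos_of_ne_zero (hm j)) h g x hx hζ halg
  have hz : ∀ e, mon (cu u) e ∈ UE.unitsAt v L := fun e => by
    rw [← hmon]
    exact hunit e
  refine ⟨m', fun i => mon (cu u) (a i), fun l => hz _, ?_, ?_⟩
  · have h1 : UE.constAt π v L = {c : L | IsAlgebraic ℚ c} :=
      Set.ext fun c => const_iff π v hs L c
    rw [h1]
    exact hst
  rcases hlr with hl | hr
  · left
    intro t
    have hS : ∀ a', τ₀ a' ∈ (Subfield.closure (UE.unitsAt v L ∪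
        algOver fun i => mon (cu u) (a i))).toSubring := by
      refine nm_val τ₀ _ ?_ ?_
      · refine nm_lau τ _ ?_ ?_
        · intro c
          exact Subfield.subset_closure (Or.inr (nm_alg _ (hR c)))
        · intro e
          exact Subfield.subset_closure (Or.inl (hunit e))
      · intro j
        refine Subfield.closure_mono ?_ (hl j)
        refine Set.union_subset_union_left _ ?_
        rintro _ ⟨j', rfl⟩
        exact hz _
    obtain ⟨a', b', hb, hab⟩ := stalk_frac q v t
    have h1 : algebraMap (V.residueField v) L t = τ₀ a' / τ₀ b' := by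
      rw [eq_div_iff]
      · show _ * algebraMap _ _ (valAt q v b') = algebraMap _ _ (valAt q v a')
        rw [← map_mul, hab]
      · exact (map_ne_zero (algebraMap (V.residueField v) L)).2 hb
    rw [h1]
    exact Subfield.div_mem _ (hS a') (hS b')
  · right
    refine ⟨k, fun j => mon (cu u) (b j), fun l => hz _, htb, ?_⟩
    intro hk s η hspos hη hsum
    -- two algebraically independent elements of the residue field
    have hind : ∃ y : Fin 2 → V.residueField v, AlgebraicIndependent ℤ y := by
      refine ⟨fun l => valAt q v (algebraMap (LauN n (𝓞 F₀)) (PowRing m h g)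
        (AddMonoidAlgebra.single (b (Fin.castLE hk l)) 1)), ?_⟩
      have h1 : AlgebraicIndependent ℤ (fun j => mon (cu u) (b j)) :=
        htb.1.restrictScalars (FaithfulSMul.algebraMap_injective ℤ _)
      have h2 := h1.comp (Fin.castLE hk) (Fin.castLE_injective hk)
      have h3 : (fun l : Fin 2 => (algebraMap (V.residueField v) L).toIntAlgHom
          (valAt q v (algebraMap (LauN n (𝓞 F₀)) (PowRing m h g)
            (AddMonoidAlgebra.single (b (Fin.castLE hk l)) 1)))) =
          (fun j => mon (cu u) (b j)) ∘ Fin.castLE hk := funext fun l => hmon _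
      rw [← h3] at h2
      exact (AlgHom.algebraicIndependent_iff (algebraMap (V.residueField v) L).toIntAlgHom
        (algebraMap (V.residueField v) L).injective).1 h2
    obtain ⟨ξ, hξ0, hξs, hlast⟩ := hr s η hη hsum
    obtain ⟨t, ht⟩ := hN s ξ hspos hξ0 hξs
    obtain ⟨ν, ν', hne, h1, h2⟩ := hlast t fun j =>
      ⟨(ht j).1, (map_ne_zero (algebraMap (V.residueField v) L)).2 ((ht j).2 v hv hs hind)⟩
    exact ⟨t, ν, ν', hne, h1, h2⟩

end Pool.Agent.Work.MP_e97a4d_nt.CT
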