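import Pool.Agent.Work.MP_e97a4d_nt.CT.WDefs
import Pool.Agent.Work.MP_e97a4d_nt.CT.NMain

/-!
# CT/WMain: the family of CT/WDefs is the family of CT/NMain
-/

set_option autoImplicit false

noncomputable section

namespace Pool.Agent.Work.MP_e97a4d_nt.CP

open AlgebraicGeometry CategoryTheory NumberField

theorem toric_newton {F₀ : Type} [Field F₀] [NumberField F₀] (σ : F₀ →+* ℂ) {V V' : Scheme.{0}}
    (π : V ⟶ Spec (CommRingCat.of (𝓞 F₀))) (i : V' ⟶ V) {n r : ℕ} (m : Fin r → ℕ)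
    (hm : ∀ j, m j ≠ 0) (h g : Fin r → Laurent F₀ n) (q : V ⟶ PowScheme m h g)
    (hq : q ≫ powStr m h g = π) [hs : SurjectiveOnStalks q] (hN : NewtonSplit π i q) :
    CT.ToricGen σ π i := by
  let q' : V ⟶ CT.PowScheme m h g := q
  have hq' : q' ≫ CT.powStr m h g = π := by
    rw [← hq]
    rfl
  have hs' : SurjectiveOnStalks q' := hs
  exact CT.toric_newton σ π i m hm h g q' hq' hN

end Pool.Agent.Work.MP_e97a4d_nt.CP
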