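import Mathlib

/-!
# CT/Hb (size M): separation of a compact set from the origin

PROOF. The convex hull `H` of `Z` is compact (`IsCompact.convexHull`, finite dimension) and convex, and `0 ∉ H`: if
`0 = ∑ i ∈ t, w i • z i` is a convex combination of points of `Z` (`mem_convexHull_iff_exists_fintype`,
`convexHull_eq` or `Finset.centerMass`), drop the indices with weight `0`; the others are enumerated by some
`Fin s`, `s > 0` since the weights have sum `1`; this contradicts `h`. If `Z` is empty take `b = 0`, `δ = 1`.
Otherwise `geometric_hahn_banach_closed_point`/`geometric_hahn_banach_point_closed` (`H` closed and convex, `0 ∉ H`)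
gives a continuous linear functional `f` and `u` with `f 0 < u` and `u < f x` for `x ∈ H`; `f x = ∑ l, b l * x l` with
`b l := f (Pi.single l 1)` (`pi_eq_sum_univ'` or `LinearMap.pi_apply_eq_sum_univ`), `δ := u > 0`.
-/

set_option autoImplicit false

noncomputable section

namespace Pool.Agent.Work.MP_e97a4d_nt.CT

private theorem hull_compact {d : ℕ} {Z : Set (Fin d → ℝ)} (hZ : IsCompact Z) :
    IsCompact (convexHull ℝ Z) := by
  rcases Z.eq_empty_or_nonempty with rfl | ⟨z₀, hz₀⟩
  · rw [convexHull_empty]
    exact isCompact_empty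
  have hC : IsCompact ((stdSimplex ℝ (Fin (d + 1))) ×ˢ
      (Set.univ.pi fun _ : Fin (d + 1) => Z)) :=
    (isCompact_stdSimplex ℝ (Fin (d + 1))).prod (isCompact_univ_pi fun _ => hZ)
  have hcont : Continuous (fun p : (Fin (d + 1) → ℝ) × (Fin (d + 1) → Fin d → ℝ) =>
      ∑ i, p.1 i • p.2 i) := by
    refine continuous_finsetSum _ fun i _ => ?_
    exact ((continuous_apply i).comp continuous_fst).smul ((continuous_apply i).comp continuous_snd)
  have heq : convexHull ℝ Z = (fun p : (Fin (d + 1) → ℝ) × (Fin (d + 1) → Fin d → ℝ) =>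
      ∑ i, p.1 i • p.2 i) '' ((stdSimplex ℝ (Fin (d + 1))) ×ˢ
      (Set.univ.pi fun _ : Fin (d + 1) => Z)) := by
    apply Set.Subset.antisymm
    · intro x hx
      obtain ⟨ι, _, z, w, hz, haff, hw, hw1, hsum⟩ := eq_pos_convex_span_of_mem_convexHull hx
      have hcard : Fintype.card ι ≤ Fintype.card (Fin (d + 1)) := by
        have h1 := haff.card_le_finrank_succ
        have h2 := Submodule.finrank_le (vectorSpan ℝ (Set.range z))
        rw [Module.finrank_fin_fun] at h2
        rw [Fintype.card_fin]
        omega
      obtain ⟨e⟩ := Function.Embedding.nonempty_of_card_le hcard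
      have hs1 : ∑ j, Function.extend e w 0 j = 1 := by
        rw [← hw1]
        refine (Fintype.sum_of_injective e e.injective w _ (fun j hj => ?_) (fun i => ?_)).symm
        · rw [Function.extend_apply' w (0 : Fin (d + 1) → ℝ) j (by simpa using hj)]
          rfl
        · rw [e.injective.extend_apply]
      refine ⟨(Function.extend e w 0, Function.extend e z (fun _ => z₀)), ⟨⟨fun j => ?_, hs1⟩,
        fun j _ => ?_⟩, ?_⟩
      · by_cases hj : ∃ i, e i = j
        · obtain ⟨i, rfl⟩ := hj
          show 0 ≤ Function.extend e w 0 (e i)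
          rw [e.injective.extend_apply]
          exact (hw i).le
        · show 0 ≤ Function.extend e w 0 j
          rw [Function.extend_apply' w (0 : Fin (d + 1) → ℝ) j hj]
          exact le_rfl
      · by_cases hj : ∃ i, e i = j
        · obtain ⟨i, rfl⟩ := hj
          show Function.extend e z (fun _ => z₀) (e i) ∈ Z
          rw [e.injective.extend_apply]
          exact hz (Set.mem_range_self i)
        · show Function.extend e z (fun _ => z₀) j ∈ Z
          rw [Function.extend_apply' z _ j hj]
          exact hz₀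
      · show ∑ j, Function.extend e w 0 j • Function.extend e z (fun _ => z₀) j = x
        rw [← hsum]
        refine (Fintype.sum_of_injective e e.injective (fun i => w i • z i) _
          (fun j hj => ?_) (fun i => ?_)).symm
        · rw [Function.extend_apply' w (0 : Fin (d + 1) → ℝ) j (by simpa using hj)]
          show (0 : ℝ) • _ = (0 : Fin d → ℝ)
          rw [zero_smul]
        · rw [e.injective.extend_apply, e.injective.extend_apply]
    · rintro x ⟨⟨w, z⟩, ⟨⟨hw, hw1⟩, hz⟩, rfl⟩
      exact (convex_convexHull ℝ Z).sum_mem (fun i _ => hw i) hw1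
        (fun i _ => subset_convexHull ℝ Z (hz i (Set.mem_univ _)))
  rw [heq]
  exact hC.image hcont

theorem hb {d : ℕ} (Z : Set (Fin d → ℝ)) (hZ : IsCompact Z)
    (h : ∀ (s : ℕ) (η : Fin s → Fin d → ℝ) (lam : Fin s → ℝ), 0 < s → (∀ i, 0 < lam i) →
      (∀ i, η i ∈ Z) → ∑ i, lam i • η i ≠ 0) :
    ∃ (b : Fin d → ℝ) (δ : ℝ), 0 < δ ∧ ∀ x ∈ Z, δ ≤ ∑ l, b l * x l := by
  have h0 : (0 : Fin d → ℝ) ∉ convexHull ℝ Z := by
    intro hmem
    rw [mem_convexHull_iff_exists_fintype] at hmem
    obtain ⟨ι, _, w, z, hw0, hw1, hz, hsum⟩ := hmem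
    classical
    set T : Finset ι := Finset.univ.filter (fun i => 0 < w i) with hT
    have hTpos : 0 < T.card := by
      rw [Finset.card_pos]
      by_contra hne
      rw [Finset.not_nonempty_iff_eq_empty] at hne
      have hall : ∀ i, w i = 0 := by
        intro i
        by_contra hi
        have hmem : i ∈ T := by
          rw [hT, Finset.mem_filter]
          exact ⟨Finset.mem_univ _, lt_of_le_of_ne (hw0 i) (Ne.symm hi)⟩
        rw [hne] at hmem
        exact absurd hmem (Finset.notMem_empty _)
      have : ∑ i, w i = 0 := Finset.sum_eq_zero fun i _ => hall i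
      rw [this] at hw1
      exact zero_ne_one hw1
    have hTsum : ∑ i ∈ T, w i • z i = 0 := by
      rw [← hsum, hT, Finset.sum_filter]
      refine Finset.sum_congr rfl fun i _ => ?_
      by_cases hi : 0 < w i
      · rw [if_pos hi]
      · rw [if_neg hi, le_antisymm (not_lt.1 hi) (hw0 i), zero_smul]
    let e := T.equivFin.symm
    refine h T.card (fun i => z (e i)) (fun i => w (e i)) hTpos (fun i => ?_) (fun i => hz _) ?_
    · exact (Finset.mem_filter.1 (e i).2).2
    · rw [Equiv.sum_comp e (fun i : T => w i • z i), Finset.sum_coe_sort T (fun i => w i • z i)]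
      exact hTsum
  have hcomp : IsCompact (convexHull ℝ Z) := hull_compact hZ
  obtain ⟨f, u, hf0, hfu⟩ := geometric_hahn_banach_point_closed (convex_convexHull ℝ Z)
    hcomp.isClosed h0
  rw [map_zero] at hf0
  refine ⟨fun l => f (Pi.single l 1), u, hf0, fun x hx => ?_⟩
  have hfx : f x = ∑ l, f (Pi.single l 1) * x l := by
    have := LinearMap.pi_apply_eq_sum_univ (f : (Fin d → ℝ) →ₗ[ℝ] ℝ) x
    rw [ContinuousLinearMap.coe_coe] at this
    rw [this]
    refine Finset.sum_congr rfl fun l _ => ?_
    rw [smul_eq_mul, mul_comm]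
    congr 2
    funext j
    rw [Pi.single_apply]
    simp [eq_comm]
  rw [← hfx]
  exact (hfu x (subset_convexHull ℝ Z hx)).le

end Pool.Agent.Work.MP_e97a4d_nt.CT
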