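import Pool.Agent.Work.MP_e97a4d_nt.CT.QDefs
import Pool.Agent.Work.MP_e97a4d_nt.CT.Hb
import Pool.Agent.Work.UP.NChar
import Pool.Agent.Work.UP.NSmall

/-!
# CT/FinAn (size M-L): the end of the proof in the analytic case

PROOF. Let `Σ₁ := {η | ∑ l, |η l| = 1}`, compact (closed and bounded), `Z := {η ∈ Σ₁ | ¬ Gain u η}`.

(1) `{η | Gain u η}` is open: if `k, C₀, ρ` are data for `η` and `|η' l - η l| ≤ ρ / 2` for all `l`, then
`k, C₀, ρ / 2` are data for `η'`: `|xx u z l - tau * η' l| ≤ (ρ/2) * tau` implies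
`|xx u z l - tau * η l| ≤ ρ * tau` (`tau ≥ 0`), and `n * (ρ/2) * tau ≤ n * ρ * tau`. So `Z` is compact.

(2) `hb` for `Z` (its hypothesis is `hG`: if `∑ lam i • η i = 0` with all `η i ∈ Z`, some `η i` has a gain,
contradiction) gives `b, δ`. Let `B := ∑ l, |b l|` (so `|∑ b l * x l| ≤ B * ∑ |x l|`).
`P := {η ∈ Σ₁ | ∑ b l * η l ≤ δ / 2}` is compact and all its elements have `Gain`. For `η ∈ P` let `ρ η` be the `ρ`
of (a choice of) data; the balls of radius `ρ η / 2` around the `η ∈ P` cover `P`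
(`IsCompact.elim_nhds_subcover`), so there are finitely many `η_1, ..., η_Q ∈ P` such that every `η ∈ P` is within
`ρ_q / 2` (so within `ρ_q`) of some `η_q` in all coordinates. Let `ρ := min (1, all ρ_q)`, `C₀ := ∑` of the
`k_q * C₀_q`.

(3) Choose `n : ℕ`, `n ≥ 1`, with `(δ/2 + B) * C₀ / (n * ρ) ≤ δ / 4`. For this `n` let `g_{q,j}, C_q, h_q` be given by
`Gain` at `η_q`, `h₀ := ∑ |h_q|`. For all `z` outside a discrete set:
`(δ / 2) * tau u z ≤ ∑ l, b l * xx u z l + (δ/2 + B) * (h₀ + (1 / (n * ρ)) * ∑ q, ∑ j, g_{q,j} z)`. Proof: let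
`x := xx u z`, `τ := tau u z = ∑ l, |x l|`. If `τ ≤ h₀` : the left side minus `∑ b l * x l` is at most
`(δ/2 + B) τ ≤ (δ/2 + B) h₀`, and `g ≥ 0`. Otherwise `τ > 0`, `η := x / τ ∈ Σ₁`. If `∑ b l * η l > δ / 2` multiply
by `τ`. Otherwise `η ∈ P`, so `|x l - τ * η_q l| ≤ ρ_q * τ` for some `q`, so some `g_{q,j} z ≥ n * ρ_q * τ ≥ n * ρ * τ`,
and `∑ b l * x l ≥ - B τ`, `(δ/2 + B) * (1 / (n ρ)) * g_{q,j} z ≥ (δ/2 + B) τ`.

(4) Take means over the circle of radius `r ≥ 1` (`avg_mono`, everything is circle integrable: `tau` and `xx` are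
continuous); the mean of `xx u z l` is `xx u 0 l` (`avg_log_unit`). For all `1 ≤ r < R`:
`(δ/2) * Tu u r ≤ B * tau u 0 + (δ/2 + B) * (h₀ + (1/(n ρ)) * ∑ q, ∑ j, (C₀_q (1 + Tu u r) + C_q Er (Tu u) r R))
≤ (δ/4) * Tu u r + C' * Er (Tu u) r R` with a constant `C'` (`1 ≤ Er`). So `Tu u r ≤ (4 C' / δ) * Er (Tu u) r R`,
and `noSmall` (UP/NSmall) with `Tu_mono`, `Tu_grow` (UP/NChar) gives `False`.
-/

set_option autoImplicit false

noncomputable section

namespace Pool.Agent.Work.MP_e97a4d_nt.CT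
open Pool.Agent.Work.UP Filter

private theorem isOpen_gain {d : ℕ} (u : Fin d → ℂ → ℂ) : IsOpen {η : Fin d → ℝ | Gain u η} := by
  rw [Metric.isOpen_iff]
  intro η hη
  obtain ⟨k, C₀, ρ, hC₀, hρ, h⟩ := hη
  refine ⟨ρ / 2, by positivity, fun η' hη' => ⟨k, C₀, ρ / 2, hC₀, by positivity, fun n => ?_⟩⟩
  obtain ⟨g, C, h₀, h1, h2, h3, h4⟩ := h n
  refine ⟨g, C, h₀, h1, h2, h3, ?_⟩
  filter_upwards [h4] with z hz hz0 hnear
  have hτ : 0 ≤ tau u z := tau_nonneg u z
  obtain ⟨j, hj⟩ := hz hz0 (fun l => by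
    have h5 := hnear l
    have h6 : |η' l - η l| ≤ ρ / 2 := by
      have h7 : dist (η' l) (η l) ≤ dist η' η := dist_le_pi_dist η' η l
      rw [Real.dist_eq] at h7
      exact h7.trans (le_of_lt (Metric.mem_ball.1 hη'))
    have h8 : xx u z l - tau u z * η l = (xx u z l - tau u z * η' l) + tau u z * (η' l - η l) := by ring
    rw [h8]
    refine (abs_add_le _ _).trans ?_
    rw [abs_mul, abs_of_nonneg hτ]
    have h9 := mul_le_mul_of_nonneg_left h6 hτ
    linarith)
  refine ⟨j, le_trans ?_ hj⟩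
  have hn : (0 : ℝ) ≤ n := Nat.cast_nonneg n
  have h5 : 0 ≤ (n : ℝ) * ρ * tau u z := by positivity
  have h6 : (n : ℝ) * (ρ / 2) * tau u z = (n : ℝ) * ρ * tau u z / 2 := by ring
  rw [h6]
  linarith

/-- The version of `Gain` for all directions in a set. -/
private def GS {d : ℕ} (u : Fin d → ℂ → ℂ) (S : Set (Fin d → ℝ)) : Prop :=
  ∃ C₀ ρ : ℝ, 0 ≤ C₀ ∧ 0 < ρ ∧ ∀ n : ℕ, ∃ (G : ℂ → ℝ) (C h₀ : ℝ),
    (∀ z, 0 ≤ G z) ∧ (∀ r, CircleIntegrable G 0 r) ∧
    (∀ r R, 1 ≤ r → r < R →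
      Real.circleAverage G 0 r ≤ C₀ * (1 + Tu u r) + C * Er (Tu u) r R) ∧
    ∀ᶠ z in codiscrete ℂ, h₀ ≤ tau u z → (∃ η ∈ S, ∀ l, xx u z l = tau u z * η l) →
      n * ρ * tau u z ≤ G z

private theorem gs_empty {d : ℕ} (u : Fin d → ℂ → ℂ) : GS u ∅ := by
  refine ⟨0, 1, le_rfl, one_pos, fun n => ⟨fun _ => 0, 0, 0, fun _ => le_rfl,
    fun r => circleIntegrable_const 0 0 r, fun r R _ _ => ?_, ?_⟩⟩
  · rw [Real.circleAverage_const]
    simp
  · refine Eventually.of_forall fun z _ h => ?_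
    obtain ⟨η, hη, -⟩ := h
    exact absurd hη (Set.notMem_empty η)

private theorem gs_mono {d : ℕ} (u : Fin d → ℂ → ℂ) {S S' : Set (Fin d → ℝ)} (hS : S ⊆ S')
    (h : GS u S') : GS u S := by
  obtain ⟨C₀, ρ, hC₀, hρ, h⟩ := h
  refine ⟨C₀, ρ, hC₀, hρ, fun n => ?_⟩
  obtain ⟨G, C, h₀, h1, h2, h3, h4⟩ := h n
  refine ⟨G, C, h₀, h1, h2, h3, ?_⟩
  filter_upwards [h4] with z hz h0 h5
  obtain ⟨η, hη, h6⟩ := h5
  exact hz h0 ⟨η, hS hη, h6⟩

private theorem gs_union {d : ℕ} (u : Fin d → ℂ → ℂ) {S S' : Set (Fin d → ℝ)}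
    (h : GS u S) (h' : GS u S') : GS u (S ∪ S') := by
  obtain ⟨C₀, ρ, hC₀, hρ, h⟩ := h
  obtain ⟨C₀', ρ', hC₀', hρ', h'⟩ := h'
  refine ⟨C₀ + C₀', min ρ ρ', by positivity, lt_min hρ hρ', fun n => ?_⟩
  obtain ⟨G, C, h₀, h1, h2, h3, h4⟩ := h n
  obtain ⟨G', C', h₀', h1', h2', h3', h4'⟩ := h' n
  refine ⟨fun z => G z + G' z, C + C', max h₀ h₀', fun z => add_nonneg (h1 z) (h1' z),
    fun r => (h2 r).add (h2' r), fun r R hr hR => ?_, ?_⟩
  · rw [Real.circleAverage_fun_add (h2 r) (h2' r)]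
    have e1 := h3 r R hr hR
    have e2 := h3' r R hr hR
    calc _ ≤ (C₀ * (1 + Tu u r) + C * Er (Tu u) r R) + (C₀' * (1 + Tu u r) + C' * Er (Tu u) r R) :=
          add_le_add e1 e2
      _ = _ := by ring
  · filter_upwards [h4, h4'] with z hz hz' h0 h5
    have hτ : 0 ≤ tau u z := tau_nonneg u z
    have hn : (0 : ℝ) ≤ n := Nat.cast_nonneg n
    obtain ⟨η, hη | hη, h6⟩ := h5
    · have e1 := hz ((le_max_left _ _).trans h0) ⟨η, hη, h6⟩
      have e2 : (n : ℝ) * min ρ ρ' * tau u z ≤ n * ρ * tau u z :=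
        mul_le_mul_of_nonneg_right (mul_le_mul_of_nonneg_left (min_le_left _ _) hn) hτ
      linarith [h1' z]
    · have e1 := hz' ((le_max_right _ _).trans h0) ⟨η, hη, h6⟩
      have e2 : (n : ℝ) * min ρ ρ' * tau u z ≤ n * ρ' * tau u z :=
        mul_le_mul_of_nonneg_right (mul_le_mul_of_nonneg_left (min_le_right _ _) hn) hτ
      linarith [h1 z]

private theorem gs_local {d : ℕ} (u : Fin d → ℂ → ℂ) (η : Fin d → ℝ) (h : Gain u η) :
    ∃ ρ : ℝ, 0 < ρ ∧ GS u (Metric.ball η ρ) := by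
  obtain ⟨k, C₀, ρ, hC₀, hρ, h⟩ := h
  refine ⟨ρ, hρ, k * C₀, ρ, by positivity, hρ, fun n => ?_⟩
  obtain ⟨g, C, h₀, h1, h2, h3, h4⟩ := h n
  refine ⟨fun z => ∑ j, g j z, k * C, h₀, fun z => Finset.sum_nonneg fun j _ => h1 j z,
    fun r => ?_, fun r R hr hR => ?_, ?_⟩
  · have h5 : (fun z => ∑ j, g j z) = ∑ j, g j := by
      ext z
      rw [Finset.sum_apply]
    rw [h5]
    exact CircleIntegrable.sum _ fun j _ => h2 j r
  · rw [Real.circleAverage_fun_sum fun j _ => h2 j r]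
    refine (Finset.sum_le_sum fun j _ => h3 j r R hr hR).trans (le_of_eq ?_)
    rw [Finset.sum_const, Finset.card_univ, Fintype.card_fin, nsmul_eq_mul]
    ring
  · filter_upwards [h4] with z hz h0 h5
    obtain ⟨η', hη', h6⟩ := h5
    have hτ : 0 ≤ tau u z := tau_nonneg u z
    obtain ⟨j, hj⟩ := hz h0 (fun l => by
      have h7 : |η' l - η l| ≤ ρ := by
        have h8 : dist (η' l) (η l) ≤ dist η' η := dist_le_pi_dist η' η l
        rw [Real.dist_eq] at h8
        exact h8.trans (le_of_lt (Metric.mem_ball.1 hη'))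
      rw [h6 l, ← mul_sub, abs_mul, abs_of_nonneg hτ, mul_comm]
      exact mul_le_mul_of_nonneg_right h7 hτ)
    exact hj.trans (Finset.single_le_sum (f := fun j => g j z) (fun j _ => h1 j z)
      (Finset.mem_univ j))

private theorem gs_compact {d : ℕ} (u : Fin d → ℂ → ℂ) {P : Set (Fin d → ℝ)} (hP : IsCompact P)
    (h : ∀ η ∈ P, Gain u η) : GS u P := by
  refine hP.induction_on (p := GS u) (gs_empty u) (fun s t hst ht => gs_mono u hst ht)
    (fun s t hs ht => gs_union u hs ht) ?_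
  intro η hη
  obtain ⟨ρ, hρ, h1⟩ := gs_local u η (h η hη)
  exact ⟨Metric.ball η ρ, mem_nhdsWithin_of_mem_nhds (Metric.ball_mem_nhds η hρ), h1⟩

private theorem sphere_compact (d : ℕ) : IsCompact {η : Fin d → ℝ | ∑ l, |η l| = 1} := by
  refine Metric.isCompact_of_isClosed_isBounded ?_ ?_
  · exact isClosed_eq (by fun_prop) continuous_const
  · refine (Metric.isBounded_closedBall (x := (0 : Fin d → ℝ)) (r := 1)).subset ?_
    intro η hη
    rw [mem_closedBall_zero_iff, pi_norm_le_iff_of_nonneg zero_le_one]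
    intro l
    rw [Real.norm_eq_abs, ← (show ∑ l, |η l| = 1 from hη)]
    exact Finset.single_le_sum (f := fun l => |η l|) (fun l _ => abs_nonneg _) (Finset.mem_univ l)

theorem fin_an {d : ℕ} (hd : 0 < d) (u : Fin d → ℂ → ℂ) (hu : IsUC u) (hi : IndC u)
    (hG : ∀ (s : ℕ) (η : Fin s → Fin d → ℝ) (lam : Fin s → ℝ), 0 < s → (∀ i, 0 < lam i) →
      (∀ i, ∑ l, |η i l| = 1) → ∑ i, lam i • η i = 0 → ∃ i, Gain u (η i)) :
    False := by
  have hSph := sphere_compact d
  -- the compact set of the directions without gain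
  have hZ : IsCompact ({η : Fin d → ℝ | ∑ l, |η l| = 1} ∩ {η | Gain u η}ᶜ) :=
    hSph.inter_right (isOpen_gain u).isClosed_compl
  obtain ⟨b, δ, hδ, hb⟩ := hb _ hZ (by
    intro s η lam hs hlam hη h0
    obtain ⟨i, hi'⟩ := hG s η lam hs hlam (fun i => (hη i).1) h0
    exact (hη i).2 hi')
  have hbc : Continuous fun η : Fin d → ℝ => ∑ l, b l * η l := by fun_prop
  have hP : IsCompact ({η : Fin d → ℝ | ∑ l, |η l| = 1} ∩ {η | ∑ l, b l * η l ≤ δ / 2}) :=
    hSph.inter_right (isClosed_le hbc continuous_const)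
  obtain ⟨C₀, ρ, hC₀, hρ, hGS⟩ := gs_compact u hP (by
    intro η hη
    by_contra hcon
    have h1 := hb η ⟨hη.1, hcon⟩
    have h2 : ∑ l, b l * η l ≤ δ / 2 := hη.2
    linarith)
  set B : ℝ := ∑ l, |b l| with hB
  have hB0 : 0 ≤ B := Finset.sum_nonneg fun l _ => abs_nonneg _
  set D : ℝ := δ / 2 + B with hD
  have hD0 : 0 < D := by positivity
  obtain ⟨n, hn⟩ := exists_nat_gt (max 1 (4 * D * C₀ / (δ * ρ)))
  have hn1 : (1 : ℝ) < n := (le_max_left _ _).trans_lt hn
  have hn0 : (0 : ℝ) < n := by linarith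
  have hn2 : 4 * D * C₀ / (δ * ρ) < n := (le_max_right _ _).trans_lt hn
  have hnρ : 0 < (n : ℝ) * ρ := by positivity
  have hsmall : D * (C₀ / (n * ρ)) ≤ δ / 4 := by
    rw [div_lt_iff₀ (by positivity)] at hn2
    rw [← mul_div_assoc, div_le_iff₀ hnρ]
    nlinarith
  obtain ⟨G, C, h₀, hG0, hGi, hGa, hGe⟩ := hGS n
  -- the pointwise inequality
  have hpt : ∀ᶠ z in codiscrete ℂ, (δ / 2) • tau u z ≤
      (∑ l, b l • xx u z l) + (D * |h₀| + (D * (1 / (n * ρ))) • G z) := by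
    filter_upwards [hGe] with z hz
    simp only [smul_eq_mul]
    set τ := tau u z with hτdef
    have hτ : 0 ≤ τ := tau_nonneg u z
    have hτsum : ∑ l, |xx u z l| = τ := rfl
    have hlow : -(B * τ) ≤ ∑ l, b l * xx u z l := by
      have h1 : ∀ l, -(|b l| * τ) ≤ b l * xx u z l := by
        intro l
        have h2 : |b l * xx u z l| ≤ |b l| * τ := by
          rw [abs_mul]
          refine mul_le_mul_of_nonneg_left ?_ (abs_nonneg _)
          rw [← hτsum]
          exact Finset.single_le_sum (f := fun l => |xx u z l|) (fun l _ => abs_nonneg _)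
            (Finset.mem_univ l)
        have h3 := neg_abs_le (b l * xx u z l)
        linarith
      calc -(B * τ) = ∑ l, -(|b l| * τ) := by
            rw [Finset.sum_neg_distrib, ← Finset.sum_mul]
        _ ≤ _ := Finset.sum_le_sum fun l _ => h1 l
    have hGz := hG0 z
    have hGz2 : 0 ≤ D * (1 / (n * ρ)) * G z := by positivity
    have hh : 0 ≤ |h₀| := abs_nonneg _
    rcases le_or_gt τ |h₀| with hcase | hcase
    · have h1 : D * τ ≤ D * |h₀| := mul_le_mul_of_nonneg_left hcase hD0.le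
      have h2 : D * τ = δ / 2 * τ + B * τ := by rw [hD]; ring
      linarith
    · have hτpos : 0 < τ := lt_of_le_of_lt hh hcase
      have hDh : 0 ≤ D * |h₀| := by positivity
      by_cases hlarge : δ / 2 * τ < ∑ l, b l * xx u z l
      · linarith
      · push Not at hlarge
        have hmem : (fun l => xx u z l / τ) ∈
            ({η : Fin d → ℝ | ∑ l, |η l| = 1} ∩ {η | ∑ l, b l * η l ≤ δ / 2}) := by
          constructor
          · show ∑ l, |xx u z l / τ| = 1
            simp only [abs_div, abs_of_pos hτpos]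
            rw [← Finset.sum_div, hτsum, div_self hτpos.ne']
          · show ∑ l, b l * (xx u z l / τ) ≤ δ / 2
            have h1 : ∑ l, b l * (xx u z l / τ) = (∑ l, b l * xx u z l) / τ := by
              rw [Finset.sum_div]
              exact Finset.sum_congr rfl fun l _ => by rw [mul_div_assoc]
            rw [h1, div_le_iff₀ hτpos]
            exact hlarge
        have h1 := hz ((le_abs_self h₀).trans hcase.le) ⟨_, hmem, fun l => by
          show xx u z l = τ * (xx u z l / τ)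
          rw [mul_div_cancel₀ _ hτpos.ne']⟩
        have h2 : D * τ ≤ D * (1 / (n * ρ)) * G z := by
          have h3 : τ = 1 / (n * ρ) * (n * ρ * τ) := by
            field_simp
          have h4 : 1 / (n * ρ) * (n * ρ * τ) ≤ 1 / (n * ρ) * G z :=
            mul_le_mul_of_nonneg_left h1 (by positivity)
          rw [mul_assoc]
          refine mul_le_mul_of_nonneg_left ?_ hD0.le
          linarith
        have h5 : D * τ = δ / 2 * τ + B * τ := by rw [hD]; ring
        linarith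
  -- integrability
  have htau : ∀ r, CircleIntegrable (tau u) 0 r := fun r =>
    ContinuousOn.circleIntegrable' (tau_cont u hu).continuousOn
  have hxx : ∀ l r, CircleIntegrable (fun z => xx u z l) 0 r := fun l r => by
    refine ContinuousOn.circleIntegrable' (Continuous.continuousOn ?_)
    exact ((hu l).1.continuous.norm).log fun z => norm_ne_zero_iff.2 ((hu l).2 z)
  have hsum : ∀ r, CircleIntegrable (fun z => ∑ l, b l • xx u z l) 0 r := fun r => by
    have h5 : (fun z => ∑ l, b l • xx u z l) = ∑ l, fun z => b l • xx u z l := by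
      ext z
      rw [Finset.sum_apply]
    rw [h5]
    exact CircleIntegrable.sum _ fun l _ => (hxx l r).const_smul
  have hx0 : ∀ l r, Real.circleAverage (fun z => xx u z l) 0 r = xx u 0 l := fun l r =>
    avg_log_unit (hu l).1 (hu l).2 r
  obtain ⟨c, hc, r₀, hgrow⟩ := Tu_grow hd u hu hi
  set X : ℝ := ∑ l, b l * xx u 0 l with hX
  set C₁ : ℝ := |X| + D * |h₀| + D * (C₀ / (n * ρ)) + D * (1 / (n * ρ)) * |C| with hC₁
  refine noSmall (Tu u) (Tu_mono u hu) c r₀ hc hgrow (4 / δ * C₁) fun r R hr hR => ?_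
  have hr0 : r ≠ 0 := by
    intro h
    rw [h] at hr
    exact absurd hr (by norm_num)
  have hmain := avg_mono (r := r) hr0 ((htau r).const_smul (a := δ / 2))
    ((hsum r).add (((circleIntegrable_const (D * |h₀|) 0 r)).add
      ((hGi r).const_smul (a := D * (1 / (n * ρ)))))) hpt
  have e1 : Real.circleAverage ((δ / 2) • tau u) 0 r = δ / 2 * Tu u r := by
    rw [Real.circleAverage_smul]
    rfl
  have e2 : Real.circleAverage ((fun z => ∑ l, b l • xx u z l) +
      ((fun _ => D * |h₀|) + (D * (1 / (n * ρ))) • G)) 0 r =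
      X + (D * |h₀| + D * (1 / (n * ρ)) * Real.circleAverage G 0 r) := by
    rw [Real.circleAverage_add (hsum r) ((circleIntegrable_const (D * |h₀|) 0 r).add
      ((hGi r).const_smul)), Real.circleAverage_add (circleIntegrable_const (D * |h₀|) 0 r)
      ((hGi r).const_smul), Real.circleAverage_const, Real.circleAverage_smul, smul_eq_mul]
    congr 1
    rw [hX, Real.circleAverage_fun_sum (f := fun l z => b l • xx u z l)
      fun l _ => (hxx l r).const_smul]
    refine Finset.sum_congr rfl fun l _ => ?_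
    have h6 : Real.circleAverage (fun z => b l • xx u z l) 0 r = b l • xx u 0 l := by
      rw [Real.circleAverage_fun_smul, hx0]
    exact h6
  have hmain2 : δ / 2 * Tu u r ≤ X + (D * |h₀| + D * (1 / (n * ρ)) * Real.circleAverage G 0 r) := by
    rw [← e1, ← e2]
    exact hmain
  have hGa' := hGa r R hr hR
  have hEr := Er_pos (Tu u) r R
  have hT0 := Tu_nonneg u r
  have hk : 0 ≤ D * (1 / (n * ρ)) := by positivity
  have h7 : D * (1 / (n * ρ)) * Real.circleAverage G 0 r ≤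
      D * (C₀ / (n * ρ)) * (1 + Tu u r) + D * (1 / (n * ρ)) * |C| * Er (Tu u) r R := by
    have h8 : Real.circleAverage G 0 r ≤ C₀ * (1 + Tu u r) + |C| * Er (Tu u) r R := by
      have h9 : C * Er (Tu u) r R ≤ |C| * Er (Tu u) r R :=
        mul_le_mul_of_nonneg_right (le_abs_self C) (by linarith)
      linarith
    refine (mul_le_mul_of_nonneg_left h8 hk).trans (le_of_eq ?_)
    ring
  have h10 : D * (C₀ / (n * ρ)) * (1 + Tu u r) ≤
      D * (C₀ / (n * ρ)) + δ / 4 * Tu u r := by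
    have := mul_le_mul_of_nonneg_right hsmall hT0
    linarith
  have h11 : δ / 4 * Tu u r ≤ C₁ * Er (Tu u) r R := by
    have a1 : X ≤ |X| * Er (Tu u) r R :=
      (le_abs_self X).trans (le_mul_of_one_le_right (abs_nonneg _) hEr)
    have a2 : D * |h₀| ≤ D * |h₀| * Er (Tu u) r R := le_mul_of_one_le_right (by positivity) hEr
    have a3 : D * (C₀ / (n * ρ)) ≤ D * (C₀ / (n * ρ)) * Er (Tu u) r R :=
      le_mul_of_one_le_right (by positivity) hEr
    have a4 : C₁ * Er (Tu u) r R = |X| * Er (Tu u) r R + D * |h₀| * Er (Tu u) r R +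
        D * (C₀ / (n * ρ)) * Er (Tu u) r R + D * (1 / (n * ρ)) * |C| * Er (Tu u) r R := by
      rw [hC₁]
      ring
    linarith
  have h12 : Tu u r = 4 / δ * (δ / 4 * Tu u r) := by
    field_simp
  rw [h12, mul_assoc]
  exact mul_le_mul_of_nonneg_left h11 (by positivity)

end Pool.Agent.Work.MP_e97a4d_nt.CT
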