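import Pool.Agent.Work.MP_e97a4d_nt.CT.GainOf
import Pool.Agent.Work.MP_e97a4d_nt.CT.FinAn
import Pool.Agent.Work.MP_e97a4d_nt.CT.GapSmul

/-!
# CT/AnCore (size S-M): the analytic core

PROOF. `κ : K →+* ℂ` with `Θ (algebraMap c) = algebraMap ℂ Mero (κ c)`: choice by `hK`; the ring laws because
`algebraMap ℂ Mero` is injective. `K` has characteristic zero (it maps to `ℂ`; `charZero_of_injective_ringHom`).
`fin_an`: let `η, lam` be given, `ξ i := lam i • η i`; `ξ i ≠ 0` (`∑ |η i l| = 1`, `lam i > 0`), `∑ ξ i = 0`; `hgap`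
gives `i` with `Gap E a (ξ i)` for all `a`; `gap_smul` with `(lam i)⁻¹` gives `Gap E a (η i)`; `gain_of`.
-/

set_option autoImplicit false

noncomputable section

namespace Pool.Agent.Work.MP_e97a4d_nt.CT

open Pool.Agent.Work.UP Filter Hyp

theorem an_core {K L : Type} [Field K] [Field L] [Algebra K L] {d : ℕ} (hd : 0 < d)
    (t : Fin d → Lˣ) (Θ : L →+* Mero)
    (hK : ∀ x : L, (∃ c : ℂ, Θ x = algebraMap ℂ Mero c) ↔ x ∈ Set.range (algebraMap K L))
    (u : Fin d → ℂ → ℂ) (hu : IsUC u)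
    (hΘ : ∀ l, Θ (t l) = mk (u l) (mer_of_diff (hu l).1)) (hi : IndC u)
    (hgap : ∀ (s : ℕ) (ξ : Fin s → Fin d → ℝ), 0 < s → (∀ i, ξ i ≠ 0) → ∑ i, ξ i = 0 →
      ∃ i, ∀ a : K → ℝ, Gap (ev (algebraMap K L) t) a (ξ i)) :
    False := by
  have hinj : Function.Injective (algebraMap ℂ Mero) := (algebraMap ℂ Mero).injective
  have hex : ∀ c : K, ∃ c' : ℂ, Θ (algebraMap K L c) = algebraMap ℂ Mero c' := fun c =>
    (hK (algebraMap K L c)).2 ⟨c, rfl⟩
  choose κ₀ hκ₀ using hex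
  let κ : K →+* ℂ :=
    { toFun := κ₀
      map_one' := hinj (by rw [← hκ₀]; simp)
      map_mul' := fun a b => hinj (by rw [← hκ₀, map_mul, map_mul, map_mul, hκ₀, hκ₀])
      map_zero' := hinj (by rw [← hκ₀]; simp)
      map_add' := fun a b => hinj (by rw [← hκ₀, map_add, map_add, map_add, hκ₀, hκ₀]) }
  have hκ : ∀ c, Θ (algebraMap K L c) = algebraMap ℂ Mero (κ c) := hκ₀
  haveI : CharZero K := κ.charZero
  refine fin_an hd u hu hi fun s η lam hs hlam hη hsum => ?_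
  have hne : ∀ i, lam i • η i ≠ 0 := by
    intro i h0
    have h1 : η i = 0 := (smul_eq_zero.1 h0).resolve_left (hlam i).ne'
    have h2 := hη i
    rw [h1] at h2
    simp at h2
  obtain ⟨i, hi'⟩ := hgap s (fun i => lam i • η i) hs hne hsum
  refine ⟨i, ?_⟩
  have h3 := gap_smul (ev (algebraMap K L) t) (fun c => ‖κ c‖) (lam i • η i) (hi' _) (lam i)⁻¹ (inv_pos.2 (hlam i))
  rw [smul_smul, inv_mul_cancel₀ (hlam i).ne', one_smul] at h3
  exact gain_of t Θ κ hκ u hu hΘ hi (fun x hx => (hK x).1 hx) (η i) h3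

end Pool.Agent.Work.MP_e97a4d_nt.CT
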