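import Pool.Agent.Work.MP_e97a4d_nt.CT.Defs

/-!
# CT/Exch (size M-L): the exchange matrix

`A i` are the coefficients of `y ^ n = ∑ i, A i * y ^ i`, `a₀` is the largest exponent of `A i₀`. In the list of the
monomials `t ^ c * y ^ i` (`c` in the box `bx d N`, `i < m`) the monomials `t ^ (a₀ + b) * y ^ i₀` are replaced by
the elements `t ^ b * y ^ n`, `b` in the box `bx d (N - r)`.

PROOF. For `j = (c, i)` say that `j` is replaced if `i = i₀` and `c - a₀ ∈ bx d (N - r)`. Let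
`M j (c', i') := (A i').coeff (c' - (c - a₀))` if `j = (c, i)` is replaced, and `M j j' := if j = j' then 1 else 0`
otherwise.

(1) Values. Let `u, Y` be as in the statement, `X = Xv u Y`. For a replaced `j = (c, i₀)`, `b := c - a₀`:
`M.mulVec X j = ∑ i, ∑ c' ∈ bx d N, (A i).coeff (c' - b) * mon u c' * Y ^ i = mon u b * ∑ i, ev u (A i) * Y ^ i =
mon u b * Y ^ n`: by `ev_eq` (Defs) `ev u (A i) = ∑ e ∈ support, coeff e * mon u e`, and `e ↦ b + e` maps the
support of `A i` into `bx d N` because `|b l| ≤ N - r` and `|e l| ≤ r` (`mem_bx`); the other `c'` have coefficient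
zero. (`mon_add`, UP/LDefs.) Hence `log v (M.mulVec X j) = log v (mon u b) + n * log v Y` while
`log v (X j) = log v (mon u a₀) + log v (mon u b) + i₀ * log v Y` (`mon_ne_zero`, `map_mul`, `Real.log_mul`,
`Real.log_pow`). For a `j` which is not replaced `M.mulVec X j = X j`. The number of replaced `j` is
`(bx d (N - r)).card = (2 * (N - r) + 1) ^ d` (`card_bx`): `b ↦ (a₀ + b, i₀)` is a bijection from `bx d (N - r)` onto
the replaced indices, `|a₀ l| ≤ r` since `a₀` is in the support of `A i₀`.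

(2) `M.det ≠ 0`. Otherwise there is `x ≠ 0` with `M.mulVec x = 0` (`Matrix.exists_mulVec_eq_zero_iff`). For `j` not
replaced, `x j = 0`. For `b ∈ bx d (N - r)` put `z b := x (a₀ + b, i₀)`. The row of `(a₀ + b, i₀)` gives
`∑ b' ∈ bx d (N - r), (A i₀).coeff (a₀ + b' - b) * z b' = 0`. If some `z b ≠ 0`, choose the `b` with `z b ≠ 0`
which is smallest for the order by `(dg ξ b, toLex b)` (as in CT/Top). For `b' ≠ b` with `z b' ≠ 0`, `b'` is larger
than `b`, so `a₀ + b' - b` is larger than `a₀` (`dg ξ` is additive, `toLex` is compatible with addition), so it is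
not an exponent of `A i₀` (`IsTop`). So the sum is `(A i₀).coeff a₀ * z b`, which is not zero: contradiction.
-/

set_option autoImplicit false

noncomputable section

namespace Pool.Agent.Work.MP_e97a4d_nt.CT

open Pool.Agent.Work.UP

private theorem box_sum {F : Type} [Field F] {d : ℕ} (p : Lp F d) (r N : ℕ) (hrN : r ≤ N)
    (hr : ∀ e ∈ p.coeff.support, ∀ l, |e l| ≤ (r : ℤ)) (u : Fin d → Fˣ) (b : Fin d → ℤ)
    (hb : b ∈ bx d (N - r)) :
    ∑ c ∈ bx d N, p.coeff (c - b) * mon (cu u) c = mon (cu u) b * ev (RingHom.id F) u p := by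
  classical
  rw [ev_eq, Finset.mul_sum]
  have h1 : p.coeff.support.image (fun e => b + e) ⊆ bx d N := by
    intro c hc
    rw [Finset.mem_image] at hc
    obtain ⟨e, he, rfl⟩ := hc
    rw [mem_bx] at hb ⊢
    intro l
    have h0 := hb l
    have h2 := hr e he l
    have h3 : (((N - r : ℕ) : ℤ)) = (N : ℤ) - r := by omega
    calc |(b + e) l| = |b l + e l| := rfl
      _ ≤ |b l| + |e l| := abs_add_le _ _
      _ ≤ (N : ℤ) := by rw [h3] at h0; linarith
  rw [← Finset.sum_subset h1, Finset.sum_image]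
  · refine Finset.sum_congr rfl fun e _ => ?_
    rw [add_sub_cancel_left, mon_add, RingHom.id_apply]
    ring
  · intro x _ y _ hxy
    exact add_left_cancel hxy
  · intro c _ hc
    have h4 : c - b ∉ p.coeff.support := by
      intro h
      apply hc
      rw [Finset.mem_image]
      exact ⟨c - b, h, by abel⟩
    rw [Finsupp.notMem_support_iff.1 h4, zero_mul]

/-- The index is replaced. -/
private def Rp {d m N : ℕ} (r : ℕ) (i₀ : Fin m) (a₀ : Fin d → ℤ) (j : Jx d m N) : Prop :=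
  j.2 = i₀ ∧ (j.1 : Fin d → ℤ) - a₀ ∈ bx d (N - r)

open Classical in
/-- The exchange matrix. -/
private def exM {F : Type} [Field F] {d m : ℕ} (A : Fin m → Lp F d) (r N : ℕ) (i₀ : Fin m)
    (a₀ : Fin d → ℤ) : Matrix (Jx d m N) (Jx d m N) F :=
  fun j j' => if Rp r i₀ a₀ j then
    (A j'.2).coeff ((j'.1 : Fin d → ℤ) - ((j.1 : Fin d → ℤ) - a₀)) else if j = j' then 1 else 0

private theorem exM_not {F : Type} [Field F] {d m : ℕ} (A : Fin m → Lp F d) (r N : ℕ) (i₀ : Fin m)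
    (a₀ : Fin d → ℤ) (x : Jx d m N → F) (j : Jx d m N) (hj : ¬ Rp r i₀ a₀ j) :
    (exM A r N i₀ a₀).mulVec x j = x j := by
  classical
  show ∑ j', exM A r N i₀ a₀ j j' * x j' = x j
  have h : ∀ j', exM A r N i₀ a₀ j j' = if j = j' then 1 else 0 := by
    intro j'
    unfold exM
    rw [if_neg hj]
  rw [Finset.sum_eq_single j]
  · rw [h, if_pos rfl, one_mul]
  · intro j' _ hj'
    rw [h, if_neg (Ne.symm hj'), zero_mul]
  · intro hh
    exact absurd (Finset.mem_univ j) hh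

private theorem exM_rep_row {F : Type} [Field F] {d m : ℕ} (A : Fin m → Lp F d) (r N : ℕ)
    (i₀ : Fin m) (a₀ : Fin d → ℤ) (x : Jx d m N → F) (j : Jx d m N) (hj : Rp r i₀ a₀ j) :
    (exM A r N i₀ a₀).mulVec x j =
      ∑ j' : Jx d m N, (A j'.2).coeff ((j'.1 : Fin d → ℤ) - ((j.1 : Fin d → ℤ) - a₀)) * x j' := by
  classical
  show ∑ j', exM A r N i₀ a₀ j j' * x j' = _
  refine Finset.sum_congr rfl fun j' _ => ?_
  unfold exM
  rw [if_pos hj]

private theorem exM_rep {F : Type} [Field F] {d m : ℕ} (A : Fin m → Lp F d) (r N : ℕ)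
    (hrN : r ≤ N) (hr : ∀ i, ∀ e ∈ (A i).coeff.support, ∀ l, |e l| ≤ (r : ℤ))
    (i₀ : Fin m) (a₀ : Fin d → ℤ) (n : ℕ) (u : Fin d → Fˣ) (Y : F)
    (hY : Y ^ n = ∑ i : Fin m, ev (RingHom.id F) u (A i) * Y ^ (i : ℕ))
    (j : Jx d m N) (hj : Rp r i₀ a₀ j) :
    (exM A r N i₀ a₀).mulVec (Xv u Y) j = mon (cu u) ((j.1 : Fin d → ℤ) - a₀) * Y ^ n := by
  classical
  rw [exM_rep_row A r N i₀ a₀ _ j hj, Fintype.sum_prod_type_right, hY, Finset.mul_sum]
  refine Finset.sum_congr rfl fun i _ => ?_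
  have h1 := box_sum (A i) r N hrN (hr i) u ((j.1 : Fin d → ℤ) - a₀) hj.2
  rw [← mul_assoc, ← h1, Finset.sum_mul,
    ← Finset.sum_coe_sort (bx d N) (fun c => (A i).coeff (c - ((j.1 : Fin d → ℤ) - a₀)) *
      mon (cu u) c * Y ^ (i : ℕ))]
  refine Finset.sum_congr rfl fun c _ => ?_
  show (A i).coeff ((c : Fin d → ℤ) - ((j.1 : Fin d → ℤ) - a₀)) *
    (mon (cu u) (c : Fin d → ℤ) * Y ^ (i : ℕ)) = _
  ring

private theorem dg_add {d : ℕ} (ξ : Fin d → ℝ) (a b : Fin d → ℤ) :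
    dg ξ (a + b) = dg ξ a + dg ξ b := by
  unfold dg
  rw [← Finset.sum_add_distrib]
  refine Finset.sum_congr rfl fun l _ => ?_
  rw [Pi.add_apply]
  push_cast
  ring

private theorem exM_det {F : Type} [Field F] {d m : ℕ} (A : Fin m → Lp F d) (r N : ℕ)
    (ξ : Fin d → ℝ) (i₀ : Fin m) (a₀ : Fin d → ℤ) (ha : IsTop ξ (A i₀) a₀) :
    (exM A r N i₀ a₀).det ≠ 0 := by
  classical
  intro hdet
  obtain ⟨x, hx, hMx⟩ := Matrix.exists_mulVec_eq_zero_iff.2 hdet
  have hnot : ∀ j, ¬ Rp r i₀ a₀ j → x j = 0 := by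
    intro j hj
    rw [← exM_not A r N i₀ a₀ x j hj, hMx]
    rfl
  have hex : ∃ j, x j ≠ 0 := by
    by_contra hcon
    push Not at hcon
    exact hx (funext hcon)
  obtain ⟨j₁, hj₁⟩ := hex
  have hne : (Finset.univ.filter (fun j : Jx d m N => x j ≠ 0)).Nonempty :=
    ⟨j₁, Finset.mem_filter.2 ⟨Finset.mem_univ _, hj₁⟩⟩
  obtain ⟨j, hjS, hjmin⟩ := Finset.exists_min_image (Finset.univ.filter (fun j : Jx d m N => x j ≠ 0))
    (fun j : Jx d m N => (toLex (dg ξ (j.1 : Fin d → ℤ), toLex (j.1 : Fin d → ℤ)) :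
      ℝ ×ₗ Lex (Fin d → ℤ))) hne
  have hxj : x j ≠ 0 := (Finset.mem_filter.1 hjS).2
  have hRj : Rp r i₀ a₀ j := by
    by_contra hcon
    exact hxj (hnot j hcon)
  have hrow := exM_rep_row A r N i₀ a₀ x j hRj
  rw [hMx, Finset.sum_eq_single j] at hrow
  · rw [sub_sub_cancel, hRj.1] at hrow
    have h2 := mul_ne_zero (Finsupp.mem_support_iff.1 ha.1) hxj
    exact h2 hrow.symm
  · intro j' _ hj'
    by_cases hx' : x j' = 0
    · rw [hx', mul_zero]
    have hRj' : Rp r i₀ a₀ j' := by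
      by_contra hcon
      exact hx' (hnot j' hcon)
    have hle := hjmin j' (Finset.mem_filter.2 ⟨Finset.mem_univ _, hx'⟩)
    have hne' : (j'.1 : Fin d → ℤ) ≠ (j.1 : Fin d → ℤ) := by
      intro h
      apply hj'
      exact Prod.ext (Subtype.ext h) (hRj'.1.trans hRj.1.symm)
    rw [hRj'.1]
    have hns : (j'.1 : Fin d → ℤ) - ((j.1 : Fin d → ℤ) - a₀) ∉ (A i₀).coeff.support := by
      intro hmem
      have hnea : (j'.1 : Fin d → ℤ) - ((j.1 : Fin d → ℤ) - a₀) ≠ a₀ := by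
        intro h
        apply hne'
        have h5 : (j'.1 : Fin d → ℤ) = a₀ + ((j.1 : Fin d → ℤ) - a₀) := sub_eq_iff_eq_add.1 h
        rw [h5]; abel
      have hdg : dg ξ (j'.1 : Fin d → ℤ) + dg ξ a₀ =
          dg ξ ((j'.1 : Fin d → ℤ) - ((j.1 : Fin d → ℤ) - a₀)) + dg ξ (j.1 : Fin d → ℤ) := by
        rw [← dg_add, ← dg_add]
        congr 1
        abel
      rw [Prod.Lex.toLex_le_toLex] at hle
      rcases ha.2 _ hmem hnea with h6 | ⟨h6, h7⟩
      · rcases hle with h8 | ⟨h8, h9⟩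
        · simp only at h8
          linarith
        · simp only at h8
          linarith
      · have h10 : toLex (j'.1 : Fin d → ℤ) < toLex (j.1 : Fin d → ℤ) := by
          have h11 := add_lt_add_left h7 (toLex ((j.1 : Fin d → ℤ) - a₀))
          have h12 : toLex ((j'.1 : Fin d → ℤ) - ((j.1 : Fin d → ℤ) - a₀)) +
              toLex ((j.1 : Fin d → ℤ) - a₀) = toLex (j'.1 : Fin d → ℤ) := by
            rw [← toLex_add]
            congr 1
            abel
          have h13 : toLex a₀ + toLex ((j.1 : Fin d → ℤ) - a₀) = toLex (j.1 : Fin d → ℤ) := by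
            rw [← toLex_add]
            congr 1
            abel
          rw [h12, h13] at h11
          exact h11
        rcases hle with h8 | ⟨h8, h9⟩
        · simp only at h8
          linarith
        · exact absurd h10 (not_lt.2 h9)
    rw [Finsupp.notMem_support_iff.1 hns, zero_mul]
  · intro hh
    exact absurd (Finset.mem_univ j) hh

open Classical in
private theorem card_rp {F : Type} [Field F] {d m : ℕ} (A : Fin m → Lp F d) (r N : ℕ)
    (hrN : r ≤ N) (hr : ∀ i, ∀ e ∈ (A i).coeff.support, ∀ l, |e l| ≤ (r : ℤ)) (i₀ : Fin m)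
    (a₀ : Fin d → ℤ) (ha : a₀ ∈ (A i₀).coeff.support) :
    (Finset.univ.filter (fun j : Jx d m N => Rp r i₀ a₀ j)).card = (2 * (N - r) + 1) ^ d := by
  rw [← card_bx]
  symm
  have hin : ∀ b ∈ bx d (N - r), a₀ + b ∈ bx d N := by
    intro b hb
    rw [mem_bx] at hb ⊢
    intro l
    have h0 := hb l
    have h2 := hr i₀ a₀ ha l
    have h3 : (((N - r : ℕ) : ℤ)) = (N : ℤ) - r := by omega
    calc |(a₀ + b) l| = |a₀ l + b l| := rfl
      _ ≤ |a₀ l| + |b l| := abs_add_le _ _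
      _ ≤ (N : ℤ) := by rw [h3] at h0; linarith
  refine Finset.card_bij (fun b hb => ((⟨a₀ + b, hin b hb⟩, i₀) : Jx d m N)) ?_ ?_ ?_
  · intro b hb
    rw [Finset.mem_filter]
    refine ⟨Finset.mem_univ _, rfl, ?_⟩
    show a₀ + b - a₀ ∈ bx d (N - r)
    rw [add_sub_cancel_left]
    exact hb
  · intro b hb b' hb' h
    have h1 := congrArg (fun j : Jx d m N => (j.1 : Fin d → ℤ)) h
    exact add_left_cancel h1
  · intro j hj
    rw [Finset.mem_filter] at hj
    refine ⟨(j.1 : Fin d → ℤ) - a₀, hj.2.2, ?_⟩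
    refine Prod.ext (Subtype.ext ?_) hj.2.1.symm
    show a₀ + ((j.1 : Fin d → ℤ) - a₀) = (j.1 : Fin d → ℤ)
    abel

theorem exch {F : Type} [Field F] {d m : ℕ} (A : Fin m → Lp F d) (r N : ℕ) (hrN : r ≤ N)
    (hr : ∀ i, ∀ e ∈ (A i).coeff.support, ∀ l, |e l| ≤ (r : ℤ)) (ξ : Fin d → ℝ) (i₀ : Fin m)
    (a₀ : Fin d → ℤ) (ha : IsTop ξ (A i₀) a₀) (n : ℕ) :
    ∃ M : Matrix (Jx d m N) (Jx d m N) F, M.det ≠ 0 ∧
      ∀ (v : AbsoluteValue F ℝ) (u : Fin d → Fˣ) (Y : F), Y ≠ 0 →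
        Y ^ n = ∑ i : Fin m, ev (RingHom.id F) u (A i) * Y ^ (i : ℕ) →
        ∑ j : Jx d m N, Real.log (v (M.mulVec (Xv u Y) j)) =
          ∑ j : Jx d m N, Real.log (v (Xv u Y j)) -
          (((2 * (N - r) + 1) ^ d : ℕ) : ℝ) *
            (Real.log (v (mon (cu u) a₀)) + (((i₀ : ℕ) : ℝ) - (n : ℝ)) * Real.log (v Y)) := by
  classical
  refine ⟨exM A r N i₀ a₀, exM_det A r N ξ i₀ a₀ ha, ?_⟩
  intro v u Y hY hYn
  have key : ∀ j : Jx d m N, Real.log (v ((exM A r N i₀ a₀).mulVec (Xv u Y) j)) =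
      Real.log (v (Xv u Y j)) - (if Rp r i₀ a₀ j then
        (Real.log (v (mon (cu u) a₀)) + (((i₀ : ℕ) : ℝ) - (n : ℝ)) * Real.log (v Y)) else 0) := by
    intro j
    by_cases hj : Rp r i₀ a₀ j
    · rw [if_pos hj, exM_rep A r N hrN hr i₀ a₀ n u Y hYn j hj]
      have hX : Xv u Y j = mon (cu u) ((j.1 : Fin d → ℤ) - a₀) * mon (cu u) a₀ * Y ^ (i₀ : ℕ) := by
        unfold Xv
        rw [← mon_add, sub_add_cancel, hj.1]
      have n1 : v (mon (cu u) ((j.1 : Fin d → ℤ) - a₀)) ≠ 0 := v.ne_zero (mon_ne_zero u _)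
      have n2 : v (mon (cu u) a₀) ≠ 0 := v.ne_zero (mon_ne_zero u _)
      have n3 : v Y ≠ 0 := v.ne_zero hY
      rw [hX, map_mul, map_mul, map_mul, map_pow, map_pow,
        Real.log_mul n1 (pow_ne_zero _ n3), Real.log_mul (mul_ne_zero n1 n2) (pow_ne_zero _ n3),
        Real.log_mul n1 n2, Real.log_pow, Real.log_pow]
      ring
    · rw [if_neg hj, exM_not A r N i₀ a₀ _ j hj, sub_zero]
  rw [Finset.sum_congr rfl fun j _ => key j, Finset.sum_sub_distrib, ← Finset.sum_filter,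
    Finset.sum_const, card_rp A r N hrN hr i₀ a₀ ha.1, nsmul_eq_mul]

end Pool.Agent.Work.MP_e97a4d_nt.CT
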