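import Pool.Agent.Work.MP_e97a4d_nt.CT.PDefs
import Pool.Agent.Work.SUB.Subspace
import Pool.Agent.Work.UP.UBas

/-!
# CT/SubGerm (size M): the Subspace Theorem along an ultrafilter

PROOF. Let `n := Fintype.card J`, `ε : Fin n ≃ J`, `A w := (M w).submatrix ε ε` (determinant `≠ 0`,
`Matrix.det_submatrix_equiv_self`), `x τ := X τ ∘ ε`, so `(A w).mulVec (x τ) i = (M w).mulVec (X τ) (ε i)`
(`Matrix.submatrix_mulVec_equiv`). `SUB.subspace_nf F S` for `A` and `δ` gives finitely many proper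
subspaces `U`.

(1) For almost all `τ`, `x τ` is in none of them: the set is finite (`Filter.eventually_all_finite`), so let `U` be one
of them; there is a nonzero functional vanishing on `U` (`Submodule.exists_le_ker_of_lt_top`), i.e. `b : Fin n → F`,
`b ≠ 0`, with `∑ i, b i * x i = 0` on `U`; `hX` for `b ∘ ε.symm`. Also `x τ ≠ 0` for almost all `τ` (`hX` for any
`b ≠ 0`).

(2) So for almost all `τ` the inequality of `subspace_nf` fails:
`HR ^ (n : ℝ) * mulHeight (x τ) ^ (-(n : ℝ) - δ) < ∏ w, ∏ i, placeAbs w (...) ^ placeMult w`. By `hS` and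
`x τ ≠ 0`, `1 ≤ mulHeight (x τ) ≤ HR` (`SUB.isSD_nf`: the field `height_le` of `IsSD` for vectors with coordinates
in the ring of `S`-integers; membership from `FinitePlace.mk p _ ≤ 1`: `mem_integer_iff` in UE/PointV and its proof;
`HR` is `SUB.HR (placeAbs F S) (placeMult F S) (x τ)`). So
`HR ^ n * mulHeight ^ (-n-δ) ≥ HR ^ n * HR ^ (-n-δ) = HR ^ (-δ)` (`Real.rpow_le_rpow_of_nonpos`).

(3) Take logarithms: `-δ * log HR < log (∏ ...) = ∑ w, placeMult w * ∑ i, log (...)`: all factors are nonzero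
since their product is `> 0` (`Real.log_prod`, `Real.log_pow`); `log HR = ∑ w, placeMult w * log (nrm ...)`,
`nrm v x = ⨆ i, v (x i)` (positive), reindex with `ε` (`Equiv.iSup_comp`).
-/

set_option autoImplicit false

noncomputable section

namespace Pool.Agent.Work.MP_e97a4d_nt.CT

open Pool.Agent.Work.UP Pool.Agent.Work NumberField IsDedekindDomain Filter

private theorem mk_eq_nn {F : Type} [Field F] [NumberField F] (p : HeightOneSpectrum (𝓞 F))
    (x : F) : ∃ f : WithZero (Multiplicative ℤ) → NNReal, StrictMono f ∧ f 1 = 1 ∧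
      FinitePlace.mk p x = f (p.valuation F x) := by
  have hb : 1 < (Ideal.absNorm p.asIdeal : NNReal) := by
    exact_mod_cast NumberField.HeightOneSpectrum.one_lt_absNorm_nnreal p
  refine ⟨_, WithZeroMulInt.toNNReal_strictMono hb, map_one _, ?_⟩
  rw [FinitePlace.mk_apply, FinitePlace.norm_embedding, NumberField.HeightOneSpectrum.adicAbv_def]

private theorem mem_RT {F : Type} [Field F] [NumberField F] (S : Finset (HeightOneSpectrum (𝓞 F)))
    (x : F) (h : ∀ p ∉ S, FinitePlace.mk p x ≤ 1) : x ∈ SUB.RT F S := by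
  have h3 : x ∈ (S : Set (HeightOneSpectrum (𝓞 F))).integer F := by
    intro p hp
    have h4 := h p (by simpa using hp)
    obtain ⟨f, hf, h1, h2⟩ := mk_eq_nn p x
    rw [h2] at h4
    have h3 : f (p.valuation F x) ≤ f 1 := by
      rw [h1]
      exact_mod_cast h4
    exact hf.le_iff_le.1 h3
  exact h3

private theorem functional_of {F : Type} [Field F] {n : ℕ} (U : Submodule F (Fin n → F))
    (hU : U ≠ ⊤) : ∃ b : Fin n → F, b ≠ 0 ∧ ∀ x ∈ U, ∑ i, b i * x i = 0 := by
  obtain ⟨f, hf, hUf⟩ := Submodule.exists_le_ker_of_lt_top U (lt_top_iff_ne_top.2 hU)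
  have key : ∀ x : Fin n → F, f x = ∑ i, f (Pi.single i 1) * x i := by
    intro x
    conv_lhs => rw [← Finset.univ_sum_single x]
    rw [map_sum]
    refine Finset.sum_congr rfl fun i _ => ?_
    have h1 : (Pi.single i (x i) : Fin n → F) = x i • Pi.single i 1 := by
      rw [← Pi.single_smul, smul_eq_mul, mul_one]
    rw [h1, map_smul, smul_eq_mul, mul_comm]
  refine ⟨fun i => f (Pi.single i 1), ?_, fun x hx => ?_⟩
  · intro h0
    apply hf
    ext x
    have h2 := congrFun h0 x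
    simpa using h2
  · rw [← key]
    exact hUf hx

theorem sub_germ {F : Type} [Field F] [NumberField F] (S : Finset (HeightOneSpectrum (𝓞 F)))
    {T : Type} (𝒰 : Ultrafilter T) {J : Type} [Fintype J] [DecidableEq J]
    (hJ : 2 ≤ Fintype.card J) (M : Pl F S → Matrix J J F) (hM : ∀ w, (M w).det ≠ 0)
    (X : T → J → F)
    (hX : ∀ b : J → F, b ≠ 0 → ∀ᶠ τ in (𝒰 : Filter T), ∑ j, b j * X τ j ≠ 0)
    (hS : ∀ᶠ τ in (𝒰 : Filter T), ∀ p ∉ S, ∀ j, FinitePlace.mk p (X τ j) ≤ 1)
    (δ : ℝ) (hδ : 0 < δ) :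
    ∀ᶠ τ in (𝒰 : Filter T),
      -(δ * ∑ w, mu S w * Real.log (⨆ j, SUnit.placeAbs F S w (X τ j))) ≤
        ∑ w, mu S w * ∑ j, lg S w ((M w).mulVec (X τ) j) := by
  classical
  let ε : Fin (Fintype.card J) ≃ J := (Fintype.equivFin J).symm
  have hA : ∀ w, ((M w).submatrix ε ε).det ≠ 0 := by
    intro w
    rw [Matrix.det_submatrix_equiv_self]
    exact hM w
  obtain ⟨𝒱, hfin, hne, hsub⟩ := SUB.subspace_nf F S hJ (fun w => (M w).submatrix ε ε) hA δ hδ
  -- almost all points are in no subspace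
  have hlin : ∀ b : Fin (Fintype.card J) → F, b ≠ 0 →
      ∀ᶠ τ in (𝒰 : Filter T), ∑ i, b i * X τ (ε i) ≠ 0 := by
    intro b hb
    have h1 : (fun j => b (ε.symm j)) ≠ 0 := by
      intro h0
      apply hb
      ext i
      have h2 := congrFun h0 (ε i)
      simpa using h2
    filter_upwards [hX _ h1] with τ hτ
    intro h0
    apply hτ
    rw [← h0, ← Equiv.sum_comp ε]
    simp
  have hout : ∀ᶠ τ in (𝒰 : Filter T), ∀ U ∈ 𝒱, (fun i => X τ (ε i)) ∉ U := by
    rw [Filter.eventually_all_finite hfin]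
    intro U hU
    obtain ⟨b, hb, hbU⟩ := functional_of U (hne U hU)
    filter_upwards [hlin b hb] with τ hτ hmem
    exact hτ (hbU _ hmem)
  have hn0 : 0 < Fintype.card J := by omega
  have hx0 : ∀ᶠ τ in (𝒰 : Filter T), (fun i => X τ (ε i)) ≠ 0 := by
    have h1 : (fun _ => 1 : Fin (Fintype.card J) → F) ≠ 0 := by
      intro h0
      have h2 := congrFun h0 ⟨0, hn0⟩
      exact one_ne_zero h2
    filter_upwards [hlin _ h1] with τ hτ h0
    apply hτ
    refine Finset.sum_eq_zero fun i _ => ?_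
    have h3 := congrFun h0 i
    simp only [Pi.zero_apply] at h3
    rw [h3, mul_zero]
  filter_upwards [hout, hx0, hS] with τ h1 h2 h3
  set x : Fin (Fintype.card J) → F := fun i => X τ (ε i) with hx
  have hmv : ∀ w i, ((M w).submatrix ε ε).mulVec x i = (M w).mulVec (X τ) (ε i) := by
    intro w i
    simp only [Matrix.mulVec, dotProduct, Matrix.submatrix_apply, hx]
    exact Equiv.sum_comp ε (fun j => M w (ε i) j * X τ j)
  have h4 : ¬ (∏ w, ∏ i, SUnit.placeAbs F S w (((M w).submatrix ε ε).mulVec x i) ^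
      SUnit.placeMult F S w ≤
          SUB.HR (SUnit.placeAbs F S) (SUnit.placeMult F S) x ^ ((Fintype.card J : ℕ) : ℝ) *
            Height.mulHeight x ^ (-((Fintype.card J : ℕ) : ℝ) - δ)) := by
    intro hle
    obtain ⟨U, hU, hxU⟩ := hsub x h2 hle
    exact h1 U hU hxU
  push Not at h4
  have hRv : SUB.Rv (SUB.RT F S) x := ⟨h2, fun i => mem_RT S _ fun p hp => h3 p hp (ε i)⟩
  have hht := (SUB.isSD_nf F S).height_le _ x hRv
  have h1ht : 1 ≤ Height.mulHeight x := Height.one_le_mulHeight x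
  set H := SUB.HR (SUnit.placeAbs F S) (SUnit.placeMult F S) x with hH
  have hHpos : 0 < H := by linarith
  have hlow : H ^ (-δ) ≤ H ^ ((Fintype.card J : ℕ) : ℝ) *
      Height.mulHeight x ^ (-((Fintype.card J : ℕ) : ℝ) - δ) := by
    have h5 : H ^ (-((Fintype.card J : ℕ) : ℝ) - δ) ≤
        Height.mulHeight x ^ (-((Fintype.card J : ℕ) : ℝ) - δ) := by
      apply Real.rpow_le_rpow_of_nonpos (by linarith) hht
      have : (0 : ℝ) ≤ ((Fintype.card J : ℕ) : ℝ) := Nat.cast_nonneg _
      linarith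
    calc H ^ (-δ) = H ^ ((Fintype.card J : ℕ) : ℝ) * H ^ (-((Fintype.card J : ℕ) : ℝ) - δ) := by
          rw [← Real.rpow_add hHpos]
          congr 1
          ring
      _ ≤ _ := mul_le_mul_of_nonneg_left h5 (Real.rpow_nonneg hHpos.le _)
  have h5 : H ^ (-δ) < ∏ w, ∏ i, SUnit.placeAbs F S w (((M w).submatrix ε ε).mulVec x i) ^
      SUnit.placeMult F S w := lt_of_le_of_lt hlow h4
  have hposl : 0 < H ^ (-δ) := Real.rpow_pos_of_pos hHpos _
  have hprodne : ∏ w, ∏ i, SUnit.placeAbs F S w (((M w).submatrix ε ε).mulVec x i) ^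
      SUnit.placeMult F S w ≠ 0 := (hposl.trans h5).ne'
  have hw : ∀ w, ∏ i, SUnit.placeAbs F S w (((M w).submatrix ε ε).mulVec x i) ^
      SUnit.placeMult F S w ≠ 0 := fun w => Finset.prod_ne_zero_iff.1 hprodne w (Finset.mem_univ _)
  have hwi : ∀ w i, SUnit.placeAbs F S w (((M w).submatrix ε ε).mulVec x i) ^
      SUnit.placeMult F S w ≠ 0 := fun w i => Finset.prod_ne_zero_iff.1 (hw w) i (Finset.mem_univ _)
  have h6 := Real.log_lt_log hposl h5
  rw [Real.log_rpow hHpos, Real.log_prod (fun w _ => hw w)] at h6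
  have h7 : ∀ w, Real.log (∏ i, SUnit.placeAbs F S w (((M w).submatrix ε ε).mulVec x i) ^
      SUnit.placeMult F S w) = mu S w * ∑ j, lg S w ((M w).mulVec (X τ) j) := by
    intro w
    rw [Real.log_prod (fun i _ => hwi w i), ← Equiv.sum_comp ε, Finset.mul_sum]
    refine Finset.sum_congr rfl fun i _ => ?_
    rw [Real.log_pow, hmv]
    rfl
  rw [Finset.sum_congr rfl fun w _ => h7 w] at h6
  have hsup : ∀ w, SUB.nrm (SUnit.placeAbs F S w) x = ⨆ j, SUnit.placeAbs F S w (X τ j) := by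
    intro w
    unfold SUB.nrm
    exact Equiv.iSup_comp (g := fun j => SUnit.placeAbs F S w (X τ j)) ε
  have hHlog : Real.log H = ∑ w, mu S w * Real.log (⨆ j, SUnit.placeAbs F S w (X τ j)) := by
    rw [hH]
    unfold SUB.HR
    rw [Real.log_prod]
    · refine Finset.sum_congr rfl fun w _ => ?_
      rw [Real.log_pow, hsup]
      rfl
    · intro w _
      have : H ≠ 0 := hHpos.ne'
      rw [hH] at this
      unfold SUB.HR at this
      exact Finset.prod_ne_zero_iff.1 this w (Finset.mem_univ _)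
  rw [hHlog] at h6
  rw [← neg_mul]
  exact h6.le

end Pool.Agent.Work.MP_e97a4d_nt.CT
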