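import Pool.Agent.Work.MP_e97a4d_nt.CT.PDefs
import Pool.Agent.Work.MP_e97a4d_nt.CT.Exch
import Pool.Agent.Work.MP_e97a4d_nt.CT.Growth
import Pool.Agent.Work.MP_e97a4d_nt.CT.SubGerm

/-!
# CT/Ax (size M-L): the exchange argument, arithmetic case

PROOF. Write `H τ := Ht S (W τ)`, `u τ := cu (W τ)`.

(0) `growth` for `A m` with `r = m * R` and every place `w` gives a constant; as `H → ∞`, there is a constant
`G ≥ 0` (depending on `m, R`, number of places only; e.g. `G = (m R + 1) * ∑ w, mu S w`... any constant not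
depending on `n, i, ξ, a, w` is good) such that for almost all `τ` and all `w`: `mu w * max 0 (lg w (Y τ)) ≤ G * H τ`
(`∑ l, |lg w (u l)| ≤ H τ` because `mu w ≥ 1`; the additive constant is `≤ H τ` for almost all `τ`). Let
`P := Fintype.card (Pl F S)`.

Let now `n, i, ξ, a` and a place `w₀` be given. Let `r := n * R`; `|a l| ≤ r`. Choose `N ≥ r`, `N ≥ 1` with
`(2 N + 1) ^ d ≤ 2 * (2 (N - r) + 1) ^ d` (possible: the quotient tends to `1`; e.g. Bernoulli:
`((2 (N - r) + 1) / (2 N + 1)) ^ d ≥ 1 - d * 2 r / (2 N + 1) ≥ 1 / 2` for `N ≥ 2 d r`,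
`one_add_mul_le_pow`). Let `M₀` be the matrix of `exch` for `A n`, `r`, `N`, `ξ`, `i`, `a`, `n`, and
`M w := if w = w₀ then M₀ else 1`. `J := Jx d m N` has at least `2 N + 1 ≥ 3` elements (`d, m ≥ 1`, `card_bx`).
`X τ := Xv (W τ) (Y τ)`.

(1) `sub_germ` with `δ = 1` applies. Independence: for `b : J → F`, `b ≠ 0`, put
`p i := ∑ c, single c (b (c, i))`, then `∑ j, b j * X τ j = ∑ i, ev (W τ) (p i) * Y τ ^ i` (`ev_single`) and `p ≠ 0`
(compare coefficients), so by `hind` it is not true that this vanishes for almost all `τ`, hence it is nonzero for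
almost all `τ` (`Ultrafilter.eventually_not`). Integrality: `FinitePlace.mk p (mon u c) = 1` for `p ∉ S`
(`mk_mon_eq_one`, UP/LDefs) and `hS`.

(2) The right side of `sub_germ`: `∑ w, mu w * ∑ j, lg w (X τ j) - mu w₀ * (2 (N - r) + 1)^d * g τ` with
`g τ := lg w₀ (mon (u τ) a) + (i - n) * lg w₀ (Y τ)` (`exch` at `w₀`; `Matrix.one_mulVec`). And
`∑ w, mu w * ∑ j, lg w (X τ j) = ∑ (c, i'), (∑ w, mu w * lg w (mon u c) + i' * ∑ w, mu w * lg w (Y τ))`, where
`∑ w, mu w * lg w (mon u c) = 0` (product formula for the `S`-unit `mon u c`: `isU_mon`, `isU_inP` in UP/UBas say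
`inP S (mon u c) = 1`, take the logarithm) and `∑ w, mu w * lg w (Y τ) ≤ P * G * H τ`. So it is at most
`(2 N + 1)^d * m^2 * P * G * H τ`.

(3) The left side: `log (⨆ j, |X τ j|_w) ≤ N * ∑ l, |lg w (u l)| + m * max 0 (lg w (Y τ))` (every
`|X τ j|_w ≤ exp (...)`: `mon_log`, `ciSup_le`; `J` is nonempty; the supremum is positive because `X τ (0,0) = 1`;
`Real.log_le_iff_le_exp`), so `∑ w, mu w * log (⨆ ...) ≤ (N + m P G) * H τ`.

(4) Together: `mu w₀ * (2 (N - r) + 1)^d * g τ ≤ (2 N + 1)^d * m^2 * P * G * H τ + (N + m P G) * H τ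
≤ (2 N + 1)^d * (m^2 P G + 1 + m P G) * H τ ≤ 2 * (2 (N - r) + 1)^d * (m^2 P G + 1 + m P G) * H τ` (`N ≤ 2N+1 ≤
(2 N + 1)^d`). So `C₀ := 2 * (m^2 P G + 1 + m P G)`.
-/

set_option autoImplicit false

noncomputable section

namespace Pool.Agent.Work.MP_e97a4d_nt.CT

open Pool.Agent.Work.UP Pool.Agent.Work NumberField IsDedekindDomain Filter

private theorem one_le_mu {F : Type} [Field F] [NumberField F]
    (S : Finset (HeightOneSpectrum (𝓞 F))) (w : Pl F S) : 1 ≤ mu S w := by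
  have h := (SUB.isSD_nf F S).m_pos w
  unfold mu
  exact_mod_cast h

private theorem Ht_nonneg {F : Type} [Field F] [NumberField F]
    (S : Finset (HeightOneSpectrum (𝓞 F))) {d : ℕ} (u : Fin d → Fˣ) : 0 ≤ Ht S u := by
  unfold Ht
  refine Finset.sum_nonneg fun w _ => mul_nonneg ?_ (Finset.sum_nonneg fun l _ => abs_nonneg _)
  linarith [one_le_mu S w]

private theorem mu_sum_le_Ht {F : Type} [Field F] [NumberField F]
    (S : Finset (HeightOneSpectrum (𝓞 F))) {d : ℕ} (u : Fin d → Fˣ) (w : Pl F S) :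
    mu S w * ∑ l, |lg S w (u l : F)| ≤ Ht S u := by
  unfold Ht
  exact Finset.single_le_sum (f := fun w : Pl F S => mu S w * ∑ l, |lg S w (u l : F)|)
    (fun w _ => mul_nonneg (by linarith [one_le_mu S w])
      (Finset.sum_nonneg fun l _ => abs_nonneg _)) (Finset.mem_univ w)

private theorem sum_mu_lg_unit {F : Type} [Field F] [NumberField F]
    (S : Finset (HeightOneSpectrum (𝓞 F))) {a : F} (ha : IsU S a) :
    ∑ w, mu S w * lg S w a = 0 := by
  have h := isU_inP ha
  unfold inP at h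
  have h1 := congrArg Real.log h
  rw [Real.log_one, Real.log_prod] at h1
  · rw [← h1]
    refine Finset.sum_congr rfl fun w _ => ?_
    rw [Real.log_pow]
    rfl
  · intro w _
    exact pow_ne_zero _ ((SUnit.placeAbs F S w).ne_zero_iff.2 ha.1)

private theorem exists_N (d r : ℕ) (hd : 0 < d) : ∃ N : ℕ, r ≤ N ∧ 1 ≤ N ∧
    ((2 * N + 1 : ℕ) : ℝ) ^ d ≤ 2 * ((2 * (N - r) + 1 : ℕ) : ℝ) ^ d := by
  refine ⟨2 * d * r + 1, ?_, by omega, ?_⟩
  · have : r ≤ d * r := Nat.le_mul_of_pos_left r hd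
    nlinarith
  · set N := 2 * d * r + 1 with hN
    have hr : r ≤ N := by
      have : r ≤ d * r := Nat.le_mul_of_pos_left r hd
      nlinarith
    have hcast : ((2 * (N - r) + 1 : ℕ) : ℝ) = (2 * N + 1 : ℝ) - 2 * r := by
      push_cast [Nat.cast_sub hr]
      ring
    have hpos : (0 : ℝ) < 2 * N + 1 := by positivity
    have hq : (2 : ℝ) * r / (2 * N + 1) ≤ 1 / (2 * d) := by
      have hd' : (0 : ℝ) < d := by exact_mod_cast hd
      rw [div_le_div_iff₀ hpos (by positivity)]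
      have h1 : (N : ℝ) = 2 * d * r + 1 := by
        rw [hN]
        push_cast
        ring
      rw [h1]
      nlinarith
    have hb : 1 + (d : ℝ) * (-(2 * r / (2 * N + 1))) ≤ (1 + -(2 * r / (2 * N + 1))) ^ d := by
      apply one_add_mul_le_pow
      have h2 : (2 : ℝ) * r / (2 * N + 1) ≤ 1 := by
        rw [div_le_one hpos]
        have : (r : ℝ) ≤ N := by exact_mod_cast hr
        linarith
      linarith
    have hd' : (0 : ℝ) < d := by exact_mod_cast hd
    have h3 : (d : ℝ) * (2 * r / (2 * N + 1)) ≤ 1 / 2 := by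
      calc (d : ℝ) * (2 * r / (2 * N + 1)) ≤ d * (1 / (2 * d)) :=
            mul_le_mul_of_nonneg_left hq hd'.le
        _ = 1 / 2 := by field_simp
    have h4 : (1 : ℝ) / 2 ≤ (1 + -(2 * r / (2 * N + 1))) ^ d := by linarith
    have h5 : ((2 * (N - r) + 1 : ℕ) : ℝ) ^ d =
        ((2 * N + 1 : ℕ) : ℝ) ^ d * (1 + -(2 * r / (2 * N + 1))) ^ d := by
      rw [hcast, ← mul_pow]
      congr 1
      push_cast
      field_simp
      ring
    rw [h5]
    have h6 : (0 : ℝ) ≤ ((2 * N + 1 : ℕ) : ℝ) ^ d := by positivity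
    nlinarith

theorem ax {F : Type} [Field F] [NumberField F] (S : Finset (HeightOneSpectrum (𝓞 F)))
    {T : Type} (𝒰 : Ultrafilter T) {d m : ℕ} (hd : 0 < d) (hm : 0 < m) (W : T → Fin d → Fˣ)
    (hW : ∀ τ, IsUv S (cu (W τ))) (Y : T → F) (R : ℕ) (A : ℕ → Fin m → Lp F d)
    (heq : ∀ n : ℕ, ∀ᶠ τ in (𝒰 : Filter T),
      Y τ ^ n = ∑ i : Fin m, ev (RingHom.id F) (W τ) (A n i) * Y τ ^ (i : ℕ))
    (hbox : ∀ (n : ℕ) (i : Fin m), ∀ e ∈ (A n i).coeff.support, ∀ l, |e l| ≤ (n : ℤ) * (R : ℤ))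
    (hind : ∀ p : Fin m → Lp F d, (∀ᶠ τ in (𝒰 : Filter T),
      ∑ i : Fin m, ev (RingHom.id F) (W τ) (p i) * Y τ ^ (i : ℕ) = 0) → p = 0)
    (hY : ∀ᶠ τ in (𝒰 : Filter T), Y τ ≠ 0)
    (hS : ∀ᶠ τ in (𝒰 : Filter T), ∀ p ∉ S, FinitePlace.mk p (Y τ) ≤ 1)
    (hH : Tendsto (fun τ => Ht S (W τ)) (𝒰 : Filter T) atTop) :
    ∃ C₀ : ℝ, ∀ (n : ℕ) (i : Fin m) (ξ : Fin d → ℝ) (a : Fin d → ℤ), IsTop ξ (A n i) a →
      ∀ w : Pl F S, ∀ᶠ τ in (𝒰 : Filter T),
        mu S w * (lg S w (mon (cu (W τ)) a) + (((i : ℕ) : ℝ) - (n : ℝ)) * lg S w (Y τ)) ≤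
          C₀ * Ht S (W τ) := by
  classical
  set G : ℝ := (m : ℝ) * R + 1 with hG
  have hG0 : 0 ≤ G := by positivity
  set P : ℝ := (Fintype.card (Pl F S) : ℝ) with hP
  have hP0 : 0 ≤ P := by positivity
  have hm0 : (0 : ℝ) < m := by exact_mod_cast hm
  -- growth
  have hgr : ∀ᶠ τ in (𝒰 : Filter T), ∀ w : Pl F S,
      mu S w * max 0 (lg S w (Y τ)) ≤ G * Ht S (W τ) := by
    rw [Filter.eventually_all]
    intro w
    obtain ⟨C, hC0, hC⟩ := growth (SUnit.placeAbs F S w) (A m) (m * R) (by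
      intro i e he l
      have := hbox m i e he l
      push_cast
      exact this)
    filter_upwards [heq m, hH.eventually_ge_atTop (mu S w * C)] with τ h1 h2
    have h3 := hC (W τ) (Y τ) h1
    have hmu := one_le_mu S w
    have h4 : max 0 (lg S w (Y τ)) ≤ C + ((m * R : ℕ) : ℝ) * ∑ l, |lg S w (W τ l : F)| := by
      apply max_le
      · have : 0 ≤ ∑ l, |lg S w (W τ l : F)| := Finset.sum_nonneg fun l _ => abs_nonneg _
        positivity
      · exact h3
    have h5 := mu_sum_le_Ht S (W τ) w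
    calc mu S w * max 0 (lg S w (Y τ)) ≤
        mu S w * (C + ((m * R : ℕ) : ℝ) * ∑ l, |lg S w (W τ l : F)|) :=
          mul_le_mul_of_nonneg_left h4 (by linarith)
      _ = mu S w * C + ((m * R : ℕ) : ℝ) * (mu S w * ∑ l, |lg S w (W τ l : F)|) := by ring
      _ ≤ Ht S (W τ) + ((m * R : ℕ) : ℝ) * Ht S (W τ) :=
          add_le_add h2 (mul_le_mul_of_nonneg_left h5 (Nat.cast_nonneg _))
      _ = G * Ht S (W τ) := by
          rw [hG]
          push_cast
          ring
  refine ⟨2 * ((m : ℝ) ^ 2 * P * G + 1 + m * P * G), ?_⟩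
  intro n i ξ a htop w₀
  obtain ⟨N, hrN, hN1, hNd⟩ := exists_N d (n * R) hd
  obtain ⟨M₀, hM₀, hM⟩ := exch (A n) (n * R) N hrN (by
      intro i e he l
      have := hbox n i e he l
      push_cast
      exact this) ξ i a htop n
  set X : T → Jx d m N → F := fun τ => Xv (W τ) (Y τ) with hXdef
  -- the number of monomials
  have hcard : Fintype.card (Jx d m N) = (2 * N + 1) ^ d * m := by
    show Fintype.card (bx d N × Fin m) = _
    rw [Fintype.card_prod, Fintype.card_coe, card_bx, Fintype.card_fin]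
  have hpow : 2 * N + 1 ≤ (2 * N + 1) ^ d := Nat.le_self_pow hd.ne' _
  have hJ2 : 2 ≤ Fintype.card (Jx d m N) := by
    rw [hcard]
    nlinarith
  -- linear independence
  have hX : ∀ b : Jx d m N → F, b ≠ 0 →
      ∀ᶠ τ in (𝒰 : Filter T), ∑ j, b j * X τ j ≠ 0 := by
    intro b hb
    by_contra hcon
    have h1 : ∀ᶠ τ in (𝒰 : Filter T), ∑ j, b j * X τ j = 0 := by
      have := (Ultrafilter.eventually_not (f := 𝒰)
        (p := fun τ => ∑ j, b j * X τ j ≠ 0)).2 hcon
      filter_upwards [this] with τ hτ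
      simpa using hτ
    set p : Fin m → Lp F d := fun i => ∑ c : bx d N,
      AddMonoidAlgebra.single (c : Fin d → ℤ) (b (c, i)) with hp
    have h2 : p = 0 := by
      apply hind
      filter_upwards [h1] with τ hτ
      rw [← hτ]
      have h3 : ∀ i : Fin m, ev (RingHom.id F) (W τ) (p i) * Y τ ^ (i : ℕ) =
          ∑ c : bx d N, b (c, i) * X τ (c, i) := by
        intro i
        rw [hp]
        simp only
        rw [map_sum, Finset.sum_mul]
        refine Finset.sum_congr rfl fun c _ => ?_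
        rw [ev_single, RingHom.id_apply]
        simp only [hXdef, Xv]
        ring
      rw [Finset.sum_congr rfl fun i _ => h3 i, Finset.sum_comm]
      exact (Fintype.sum_prod_type (fun j : bx d N × Fin m => b j * X τ j)).symm
    apply hb
    funext j
    obtain ⟨c, i⟩ := j
    have h3 := congrFun h2 i
    have h4 : (p i).coeff (c : Fin d → ℤ) = b (c, i) := by
      rw [hp]
      simp only
      have h5 : ∀ s : Finset (bx d N), (∑ c' ∈ s,
          (AddMonoidAlgebra.single (c' : Fin d → ℤ) (b (c', i)) : Lp F d)).coeff (c : Fin d → ℤ) =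
          ∑ c' ∈ s, if c' = c then b (c', i) else 0 := by
        intro s
        induction s using Finset.induction_on with
        | empty => simp
        | insert x s hx ih =>
          rw [Finset.sum_insert hx, Finset.sum_insert hx, ← ih]
          show (AddMonoidAlgebra.single (x : Fin d → ℤ) (b (x, i)) : Lp F d).coeff c +
            (∑ c' ∈ s, (AddMonoidAlgebra.single (c' : Fin d → ℤ) (b (c', i)) : Lp F d)).coeff c = _
          congr 1
          show (Finsupp.single (x : Fin d → ℤ) (b (x, i))) (c : Fin d → ℤ) = _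
          rw [Finsupp.single_apply]
          by_cases hxc : x = c
          · rw [if_pos hxc, if_pos (by rw [hxc])]
          · rw [if_neg hxc, if_neg (fun h => hxc (Subtype.ext h))]
      rw [h5, Finset.sum_ite_eq' Finset.univ c (fun c' => b (c', i)), if_pos (Finset.mem_univ _)]
    rw [h3] at h4
    rw [← h4]
    rfl
  -- integrality
  have hXS : ∀ᶠ τ in (𝒰 : Filter T), ∀ p ∉ S, ∀ j, FinitePlace.mk p (X τ j) ≤ 1 := by
    filter_upwards [hS] with τ hτ p hp j
    simp only [hXdef, Xv]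
    rw [map_mul, map_pow, mk_mon_eq_one (hW τ) _ p hp, one_mul]
    exact pow_le_one₀ (apply_nonneg _ _) (hτ p hp)
  have hsub := sub_germ S 𝒰 hJ2 (fun w => if w = w₀ then M₀ else 1) (by
    intro w
    by_cases h : w = w₀
    · rw [if_pos h]
      exact hM₀
    · rw [if_neg h, Matrix.det_one]
      exact one_ne_zero) X hX hXS 1 one_pos
  filter_upwards [hsub, hgr, heq n, hY] with τ h1 h2 h3 h4
  set H : ℝ := Ht S (W τ) with hHdef
  have hH0 : 0 ≤ H := Ht_nonneg S (W τ)
  set g : ℝ := lg S w₀ (mon (cu (W τ)) a) + (((i : ℕ) : ℝ) - (n : ℝ)) * lg S w₀ (Y τ) with hg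
  set K : ℝ := (((2 * (N - n * R) + 1) ^ d : ℕ) : ℝ) with hK
  have hKpos : 0 < K := by
    rw [hK]
    positivity
  -- values at `w₀`
  have h5 := hM (SUnit.placeAbs F S w₀) (W τ) (Y τ) h4 h3
  have hXne : ∀ j, X τ j ≠ 0 := fun j => mul_ne_zero (mon_ne_zero _ _) (pow_ne_zero _ h4)
  -- the right side
  have hright : ∑ w, mu S w * ∑ j, lg S w (((fun w => if w = w₀ then M₀ else 1 :
      Pl F S → Matrix (Jx d m N) (Jx d m N) F) w).mulVec (X τ) j) =
      (∑ w, mu S w * ∑ j, lg S w (X τ j)) - mu S w₀ * (K * g) := by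
    have h6 : ∀ w, mu S w * ∑ j, lg S w (((fun w => if w = w₀ then M₀ else 1 :
      Pl F S → Matrix (Jx d m N) (Jx d m N) F) w).mulVec (X τ) j) =
        mu S w * ∑ j, lg S w (X τ j) - if w = w₀ then mu S w₀ * (K * g) else 0 := by
      intro w
      by_cases h : w = w₀
      · subst h
        simp only [if_true]
        rw [← mul_sub]
        congr 1
      · simp only [if_neg h, Matrix.one_mulVec, sub_zero]
    rw [Finset.sum_congr rfl fun w _ => h6 w, Finset.sum_sub_distrib,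
      Finset.sum_ite_eq' Finset.univ w₀ (fun _ => mu S w₀ * (K * g)), if_pos (Finset.mem_univ _)]
  rw [hright] at h1
  -- the sum over the places of `lg (Y τ)`
  have hLY : ∑ w, mu S w * lg S w (Y τ) ≤ P * (G * H) := by
    calc ∑ w, mu S w * lg S w (Y τ) ≤ ∑ _w : Pl F S, G * H := by
          refine Finset.sum_le_sum fun w _ => le_trans ?_ (h2 w)
          exact mul_le_mul_of_nonneg_left (le_max_right _ _) (by linarith [one_le_mu S w])
      _ = P * (G * H) := by
          rw [Finset.sum_const, Finset.card_univ, nsmul_eq_mul]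
  have hlgX : ∀ w j, lg S w (X τ j) =
      lg S w (mon (cu (W τ)) (j.1 : Fin d → ℤ)) + ((j.2 : ℕ) : ℝ) * lg S w (Y τ) := by
    intro w j
    simp only [hXdef, Xv, lg]
    rw [map_mul, map_pow, Real.log_mul, Real.log_pow]
    · exact (SUnit.placeAbs F S w).ne_zero_iff.2 (mon_ne_zero _ _)
    · exact pow_ne_zero _ ((SUnit.placeAbs F S w).ne_zero_iff.2 h4)
  have hS1 : ∑ w, mu S w * ∑ j, lg S w (X τ j) ≤
      (((2 * N + 1) ^ d * m : ℕ) : ℝ) * (m * (P * (G * H))) := by
    have h6 : ∑ w, mu S w * ∑ j, lg S w (X τ j) =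
        ∑ j : Jx d m N, ((j.2 : ℕ) : ℝ) * ∑ w, mu S w * lg S w (Y τ) := by
      simp_rw [Finset.mul_sum]
      rw [Finset.sum_comm]
      refine Finset.sum_congr rfl fun j _ => ?_
      have h7 := sum_mu_lg_unit S (isU_mon (hW τ) (j.1 : Fin d → ℤ))
      calc ∑ w, mu S w * lg S w (X τ j) =
          ∑ w, (mu S w * lg S w (mon (cu (W τ)) (j.1 : Fin d → ℤ)) +
            ((j.2 : ℕ) : ℝ) * (mu S w * lg S w (Y τ))) := by
            refine Finset.sum_congr rfl fun w _ => ?_
            rw [hlgX]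
            ring
        _ = ∑ w, ((j.2 : ℕ) : ℝ) * (mu S w * lg S w (Y τ)) := by
            rw [Finset.sum_add_distrib, h7, zero_add]
    rw [h6, ← hcard]
    calc ∑ j : Jx d m N, ((j.2 : ℕ) : ℝ) * ∑ w, mu S w * lg S w (Y τ) ≤
        ∑ _j : Jx d m N, (m : ℝ) * (P * (G * H)) := by
          refine Finset.sum_le_sum fun j _ => ?_
          have hj : ((j.2 : ℕ) : ℝ) ≤ m := by exact_mod_cast j.2.2.le
          calc ((j.2 : ℕ) : ℝ) * ∑ w, mu S w * lg S w (Y τ) ≤ ((j.2 : ℕ) : ℝ) * (P * (G * H)) :=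
                mul_le_mul_of_nonneg_left hLY (Nat.cast_nonneg _)
            _ ≤ (m : ℝ) * (P * (G * H)) := mul_le_mul_of_nonneg_right hj (by positivity)
      _ = _ := by rw [Finset.sum_const, Finset.card_univ, nsmul_eq_mul]
  -- the left side
  have hJne : Nonempty (Jx d m N) := Fintype.card_pos_iff.1 (by omega)
  have hsup : ∀ w, Real.log (⨆ j, SUnit.placeAbs F S w (X τ j)) ≤
      N * ∑ l, |lg S w (W τ l : F)| + m * max 0 (lg S w (Y τ)) := by
    intro w
    have j₀ : Jx d m N := Classical.choice hJne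
    have hbdd : BddAbove (Set.range fun j => SUnit.placeAbs F S w (X τ j)) :=
      (Set.finite_range _).bddAbove
    have hpos : 0 < ⨆ j, SUnit.placeAbs F S w (X τ j) :=
      lt_of_lt_of_le ((SUnit.placeAbs F S w).pos (hXne j₀)) (le_ciSup hbdd j₀)
    rw [Real.log_le_iff_le_exp hpos]
    refine ciSup_le fun j => ?_
    rw [← Real.log_le_iff_le_exp ((SUnit.placeAbs F S w).pos (hXne j))]
    have h6 := hlgX w j
    unfold lg at h6
    rw [h6, mon_log, Real.log_exp]
    apply add_le_add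
    · unfold dg
      rw [Finset.mul_sum]
      refine Finset.sum_le_sum fun l _ => ?_
      have hb : |((j.1 : Fin d → ℤ) l : ℝ)| ≤ N := by
        have := mem_bx.1 j.1.2 l
        have h7 : |((j.1 : Fin d → ℤ) l : ℝ)| = ((|(j.1 : Fin d → ℤ) l| : ℤ) : ℝ) := by
          push_cast
          rfl
        rw [h7]
        exact_mod_cast this
      calc ((j.1 : Fin d → ℤ) l : ℝ) * Real.log (SUnit.placeAbs F S w (W τ l : F)) ≤
          |((j.1 : Fin d → ℤ) l : ℝ) * Real.log (SUnit.placeAbs F S w (W τ l : F))| := le_abs_self _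
        _ = |((j.1 : Fin d → ℤ) l : ℝ)| * |Real.log (SUnit.placeAbs F S w (W τ l : F))| :=
            abs_mul _ _
        _ ≤ N * |lg S w (W τ l : F)| := mul_le_mul_of_nonneg_right hb (abs_nonneg _)
    · have hj : ((j.2 : ℕ) : ℝ) ≤ m := by exact_mod_cast j.2.2.le
      calc ((j.2 : ℕ) : ℝ) * Real.log (SUnit.placeAbs F S w (Y τ)) ≤
          ((j.2 : ℕ) : ℝ) * max 0 (lg S w (Y τ)) :=
            mul_le_mul_of_nonneg_left (le_max_right _ _) (Nat.cast_nonneg _)
        _ ≤ m * max 0 (lg S w (Y τ)) := mul_le_mul_of_nonneg_right hj (le_max_left _ _)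
  have hleft : ∑ w, mu S w * Real.log (⨆ j, SUnit.placeAbs F S w (X τ j)) ≤
      N * H + m * (P * (G * H)) := by
    calc ∑ w, mu S w * Real.log (⨆ j, SUnit.placeAbs F S w (X τ j)) ≤
        ∑ w, (N * (mu S w * ∑ l, |lg S w (W τ l : F)|) + m * (mu S w * max 0 (lg S w (Y τ)))) := by
          refine Finset.sum_le_sum fun w _ => ?_
          calc mu S w * Real.log (⨆ j, SUnit.placeAbs F S w (X τ j)) ≤
              mu S w * (N * ∑ l, |lg S w (W τ l : F)| + m * max 0 (lg S w (Y τ))) :=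
                mul_le_mul_of_nonneg_left (hsup w) (by linarith [one_le_mu S w])
            _ = _ := by ring
      _ = N * H + m * ∑ w, mu S w * max 0 (lg S w (Y τ)) := by
          rw [Finset.sum_add_distrib, ← Finset.mul_sum, ← Finset.mul_sum]
          rfl
      _ ≤ N * H + m * (P * (G * H)) := by
          have h6 : ∑ w, mu S w * max 0 (lg S w (Y τ)) ≤ P * (G * H) := by
            calc ∑ w, mu S w * max 0 (lg S w (Y τ)) ≤ ∑ _w : Pl F S, G * H :=
                  Finset.sum_le_sum fun w _ => h2 w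
              _ = P * (G * H) := by rw [Finset.sum_const, Finset.card_univ, nsmul_eq_mul]
          have := mul_le_mul_of_nonneg_left h6 hm0.le
          linarith
  rw [one_mul] at h1
  have hTN : (N : ℝ) ≤ ((2 * N + 1 : ℕ) : ℝ) ^ d := by
    have : (N : ℕ) ≤ (2 * N + 1) ^ d := by omega
    exact_mod_cast this
  have hT1 : (1 : ℝ) ≤ ((2 * N + 1 : ℕ) : ℝ) ^ d := by
    have : 1 ≤ (2 * N + 1) ^ d := by omega
    exact_mod_cast this
  have hKeq : K = ((2 * (N - n * R) + 1 : ℕ) : ℝ) ^ d := by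
    rw [hK]
    push_cast
    rfl
  rw [← hKeq] at hNd
  set Tn : ℝ := ((2 * N + 1 : ℕ) : ℝ) ^ d with hTn
  have hS1' : ∑ w, mu S w * ∑ j, lg S w (X τ j) ≤ Tn * m * (m * (P * (G * H))) := by
    refine hS1.trans (le_of_eq ?_)
    rw [hTn]
    push_cast
    rfl
  have hPGH : 0 ≤ m * (P * (G * H)) := by positivity
  have hfin : K * (mu S w₀ * g) ≤ K * (2 * ((m : ℝ) ^ 2 * P * G + 1 + m * P * G) * H) := by
    have e1 : K * (mu S w₀ * g) ≤ Tn * m * (m * (P * (G * H))) + (N * H + m * (P * (G * H))) := by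
      have : mu S w₀ * (K * g) = K * (mu S w₀ * g) := by ring
      linarith
    have e2 : N * H ≤ Tn * H := mul_le_mul_of_nonneg_right hTN hH0
    have e3 : m * (P * (G * H)) ≤ Tn * (m * (P * (G * H))) := le_mul_of_one_le_left hPGH hT1
    have e4 : Tn * (((m : ℝ) ^ 2 * P * G + 1 + m * P * G) * H) ≤
        2 * K * (((m : ℝ) ^ 2 * P * G + 1 + m * P * G) * H) :=
      mul_le_mul_of_nonneg_right hNd (by positivity)
    calc K * (mu S w₀ * g) ≤
        Tn * m * (m * (P * (G * H))) + (N * H + m * (P * (G * H))) := e1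
      _ ≤ Tn * m * (m * (P * (G * H))) + (Tn * H + Tn * (m * (P * (G * H)))) := by linarith
      _ = Tn * (((m : ℝ) ^ 2 * P * G + 1 + m * P * G) * H) := by ring
      _ ≤ 2 * K * (((m : ℝ) ^ 2 * P * G + 1 + m * P * G) * H) := e4
      _ = K * (2 * ((m : ℝ) ^ 2 * P * G + 1 + m * P * G) * H) := by ring
  exact le_of_mul_le_mul_left hfin hKpos

end Pool.Agent.Work.MP_e97a4d_nt.CT
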