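import Pool.Agent.Work.MP_e97a4d_nt.CT.Ax

/-!
# CT/AxS (size M): removing the integrality hypothesis

`ax` without `hS`.

PROOF. Let `c` run over the finitely many coefficients (in `F`) of the `A m i`, `i < m`. Only finitely many primes `p`
have `FinitePlace.mk p c > 1` for some of these `c` (`FinitePlace.hasFiniteMulSupport` for `c ≠ 0`, as in
SUnit/NumberFieldData); let `S' ⊇ S` be `S` together with these primes. For `p ∉ S'` and `τ` with
`Y τ ^ m = ∑ i, ev (W τ) (A m i) * Y τ ^ i`: `FinitePlace.mk p (ev (W τ) (A m i)) ≤ 1` (`ev_eq`, the units have value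
`1`: `mk_mon_eq_one`; `FinitePlace.mk p` is nonarchimedean: see UP/OutP or `SUnit` for the
lemmas `FinitePlace.mk ... add_le_max`), and if `x := FinitePlace.mk p (Y τ) > 1` then
`x ^ m ≤ max_i x ^ i ≤ x ^ (m-1)`, a contradiction. Another way: `Y τ` is a root of a monic polynomial over the
ring of `p`-integral elements (`(p.valuation F).valuationSubring`), which is integrally closed.

`IsUv S u → IsUv S' u` (clear). For a place `w` of `Pl F S` let `w' : Pl F S'` be the same place; `lg S w x = lg S' w' x`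
and `mu S w = mu S' w'` (by cases, `rfl`). `Ht S' (W τ) = Ht S (W τ)`: the places in `S'` not in `S` contribute
`|log 1| = 0`. (`Fintype.sum_sum_type`, the sum over `{p // p ∈ S'}` is the sum over `S'.attach` or
`Finset.sum_coe_sort`; `Finset.sum_subset`.) Apply `ax` with `S'`.
-/

set_option autoImplicit false

noncomputable section

namespace Pool.Agent.Work.MP_e97a4d_nt.CT

open Pool.Agent.Work.UP Pool.Agent.Work NumberField IsDedekindDomain Filter

private theorem mk_add {F : Type} [Field F] [NumberField F] (p : HeightOneSpectrum (𝓞 F)) (x y : F) :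
    FinitePlace.mk p (x + y) ≤ max (FinitePlace.mk p x) (FinitePlace.mk p y) := by
  rw [FinitePlace.mk_apply, FinitePlace.norm_embedding, FinitePlace.mk_apply,
    FinitePlace.norm_embedding, FinitePlace.mk_apply, FinitePlace.norm_embedding]
  exact NumberField.HeightOneSpectrum.adicAbv_add_le_max F p x y

private theorem mk_sum {F : Type} [Field F] [NumberField F] (p : HeightOneSpectrum (𝓞 F))
    {ι : Type} (s : Finset ι) (f : ι → F) {B : ℝ} (hB : 0 ≤ B)
    (h : ∀ i ∈ s, FinitePlace.mk p (f i) ≤ B) : FinitePlace.mk p (∑ i ∈ s, f i) ≤ B := by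
  refine Finset.sum_induction f (fun x => FinitePlace.mk p x ≤ B) ?_ ?_ h
  · intro a b ha hb
    exact (mk_add p a b).trans (max_le ha hb)
  · simpa using hB

private theorem finite_bad {F : Type} [Field F] [NumberField F] (c : F) :
    {p : HeightOneSpectrum (𝓞 F) | 1 < FinitePlace.mk p c}.Finite := by
  by_cases hc : c = 0
  · subst hc
    refine Set.Finite.subset Set.finite_empty ?_
    intro p hp
    simp only [Set.mem_ofPred_eq, map_zero] at hp
    exact absurd hp (not_lt.2 zero_le_one)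
  · have h2 := FinitePlace.hasFiniteMulSupport (K := F) hc
    have h3 : {p : HeightOneSpectrum (𝓞 F) | FinitePlace.mk p c ≠ 1} =
        (FinitePlace.equivHeightOneSpectrum (K := F)).symm ⁻¹'
          (fun w : FinitePlace F => w c).mulSupport := by
      ext p
      rfl
    have h4 : {p : HeightOneSpectrum (𝓞 F) | FinitePlace.mk p c ≠ 1}.Finite := by
      rw [h3]
      exact Set.Finite.preimage
        ((FinitePlace.equivHeightOneSpectrum (K := F)).symm.injective.injOn) h2
    refine h4.subset ?_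
    intro p hp
    exact ne_of_gt hp

private theorem int_step {F : Type} [Field F] [NumberField F] (p : HeightOneSpectrum (𝓞 F))
    {m : ℕ} (hm : 0 < m) (y : F) (b : Fin m → F) (hb : ∀ i, FinitePlace.mk p (b i) ≤ 1)
    (he : y ^ m = ∑ i : Fin m, b i * y ^ (i : ℕ)) : FinitePlace.mk p y ≤ 1 := by
  by_contra hcon
  push Not at hcon
  have h1 : FinitePlace.mk p (y ^ m) ≤ (FinitePlace.mk p y) ^ (m - 1) := by
    rw [he]
    refine mk_sum p _ _ (by positivity) ?_
    intro i _
    rw [map_mul, map_pow]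
    calc FinitePlace.mk p (b i) * FinitePlace.mk p y ^ (i : ℕ)
        ≤ 1 * FinitePlace.mk p y ^ (i : ℕ) :=
          mul_le_mul_of_nonneg_right (hb i) (pow_nonneg (apply_nonneg _ _) _)
      _ = FinitePlace.mk p y ^ (i : ℕ) := one_mul _
      _ ≤ FinitePlace.mk p y ^ (m - 1) := pow_le_pow_right₀ hcon.le (by have := i.2; omega)
  rw [map_pow] at h1
  have h2 : FinitePlace.mk p y ^ (m - 1) < FinitePlace.mk p y ^ m :=
    pow_lt_pow_right₀ hcon (by omega)
  exact absurd h1 (not_le.2 h2)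

/-- the same place for a larger set of primes -/
private def up {F : Type} [Field F] [NumberField F] {S S' : Finset (HeightOneSpectrum (𝓞 F))}
    (h : S ⊆ S') : Pl F S → Pl F S'
  | Sum.inl w => Sum.inl w
  | Sum.inr p => Sum.inr ⟨p.1, h p.2⟩

private theorem lg_up {F : Type} [Field F] [NumberField F]
    {S S' : Finset (HeightOneSpectrum (𝓞 F))} (h : S ⊆ S') (w : Pl F S) (x : F) :
    lg S' (up h w) x = lg S w x := by
  rcases w with w | p <;> rfl

private theorem mu_up {F : Type} [Field F] [NumberField F]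
    {S S' : Finset (HeightOneSpectrum (𝓞 F))} (h : S ⊆ S') (w : Pl F S) :
    mu S' (up h w) = mu S w := by
  rcases w with w | p <;> rfl

private theorem ht_eq {F : Type} [Field F] [NumberField F]
    (S : Finset (HeightOneSpectrum (𝓞 F))) {d : ℕ} (u : Fin d → Fˣ) :
    Ht S u = (∑ w : InfinitePlace F, (w.mult : ℝ) * ∑ l, |Real.log (w.1 (u l : F))|) +
      ∑ p ∈ S, ∑ l, |Real.log (FinitePlace.mk p (u l : F))| := by
  unfold Ht
  rw [Fintype.sum_sum_type]
  congr 1
  rw [← Finset.sum_coe_sort S]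
  refine Finset.sum_congr rfl fun p _ => ?_
  have h1 : mu S (Sum.inr p : Pl F S) = 1 := by
    show ((1 : ℕ) : ℝ) = 1
    exact Nat.cast_one
  rw [h1, one_mul]
  rfl

private theorem ht_up {F : Type} [Field F] [NumberField F]
    {S S' : Finset (HeightOneSpectrum (𝓞 F))} (h : S ⊆ S') {d : ℕ} (u : Fin d → Fˣ)
    (hu : IsUv S (cu u)) : Ht S' u = Ht S u := by
  rw [ht_eq, ht_eq]
  congr 1
  symm
  refine Finset.sum_subset h fun p _ hp => ?_
  refine Finset.sum_eq_zero fun l _ => ?_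
  have h1 : FinitePlace.mk p (u l : F) = 1 := (hu l).2 p hp
  rw [h1, Real.log_one, abs_zero]

theorem ax_s {F : Type} [Field F] [NumberField F] (S : Finset (HeightOneSpectrum (𝓞 F)))
    {T : Type} (𝒰 : Ultrafilter T) {d m : ℕ} (hd : 0 < d) (hm : 0 < m) (W : T → Fin d → Fˣ)
    (hW : ∀ τ, IsUv S (cu (W τ))) (Y : T → F) (R : ℕ) (A : ℕ → Fin m → Lp F d)
    (heq : ∀ n : ℕ, ∀ᶠ τ in (𝒰 : Filter T),
      Y τ ^ n = ∑ i : Fin m, ev (RingHom.id F) (W τ) (A n i) * Y τ ^ (i : ℕ))
    (hbox : ∀ (n : ℕ) (i : Fin m), ∀ e ∈ (A n i).coeff.support, ∀ l, |e l| ≤ (n : ℤ) * (R : ℤ))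
    (hind : ∀ p : Fin m → Lp F d, (∀ᶠ τ in (𝒰 : Filter T),
      ∑ i : Fin m, ev (RingHom.id F) (W τ) (p i) * Y τ ^ (i : ℕ) = 0) → p = 0)
    (hY : ∀ᶠ τ in (𝒰 : Filter T), Y τ ≠ 0)
    (hH : Tendsto (fun τ => Ht S (W τ)) (𝒰 : Filter T) atTop) :
    ∃ C₀ : ℝ, ∀ (n : ℕ) (i : Fin m) (ξ : Fin d → ℝ) (a : Fin d → ℤ), IsTop ξ (A n i) a →
      ∀ w : Pl F S, ∀ᶠ τ in (𝒰 : Filter T),
        mu S w * (lg S w (mon (cu (W τ)) a) + (((i : ℕ) : ℝ) - (n : ℝ)) * lg S w (Y τ)) ≤
          C₀ * Ht S (W τ) := by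
  classical
  -- the bad primes
  have hfin : (⋃ i : Fin m, ⋃ e ∈ (A m i).coeff.support,
      {p : HeightOneSpectrum (𝓞 F) | 1 < FinitePlace.mk p ((A m i).coeff e)}).Finite := by
    refine Set.finite_iUnion fun i => ?_
    exact Set.Finite.biUnion (Finset.finite_toSet _) fun e _ => finite_bad _
  set S' : Finset (HeightOneSpectrum (𝓞 F)) := S ∪ hfin.toFinset with hS'
  have hSS : S ⊆ S' := Finset.subset_union_left
  have hbad : ∀ p ∉ S', ∀ (i : Fin m), ∀ e ∈ (A m i).coeff.support,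
      FinitePlace.mk p ((A m i).coeff e) ≤ 1 := by
    intro p hp i e he
    by_contra hcon
    push Not at hcon
    apply hp
    rw [hS', Finset.mem_union]
    right
    rw [Set.Finite.mem_toFinset]
    exact Set.mem_iUnion.2 ⟨i, Set.mem_iUnion₂.2 ⟨e, he, hcon⟩⟩
  have hW' : ∀ τ, IsUv S' (cu (W τ)) := fun τ i =>
    ⟨(hW τ i).1, fun p hp => (hW τ i).2 p fun h => hp (hSS h)⟩
  have hS2 : ∀ᶠ τ in (𝒰 : Filter T), ∀ p ∉ S', FinitePlace.mk p (Y τ) ≤ 1 := by
    filter_upwards [heq m] with τ hτ p hp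
    refine int_step p hm (Y τ) _ ?_ hτ
    intro i
    rw [ev_eq]
    refine mk_sum p _ _ zero_le_one ?_
    intro e he
    rw [map_mul, mk_mon_eq_one (hW' τ) e p hp, mul_one]
    exact hbad p hp i e he
  have hH2 : Tendsto (fun τ => Ht S' (W τ)) (𝒰 : Filter T) atTop := by
    refine hH.congr fun τ => ?_
    exact (ht_up hSS (W τ) (hW τ)).symm
  obtain ⟨C₀, hC⟩ := ax S' 𝒰 hd hm W hW' Y R A heq hbox hind hY hS2 hH2
  refine ⟨C₀, fun n i ξ a ha w => ?_⟩
  filter_upwards [hC n i ξ a ha (up hSS w)] with τ hτ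
  rw [mu_up, lg_up, lg_up, ht_up hSS (W τ) (hW τ)] at hτ
  exact hτ

end Pool.Agent.Work.MP_e97a4d_nt.CT
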