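import Pool.Agent.Work.MP_e97a4d_nt.CT.SOneC
import Pool.Agent.Work.MP_e97a4d_nt.CT.Clear
import Pool.Agent.Work.MP_e97a4d_nt.UG.EntU

/-!
# CT/OneC: one unit, analytic case

The case `C = algebraicClosure ℚ L` of `one_c_c`.
-/

set_option autoImplicit false

noncomputable section

namespace Pool.Agent.Work.MP_e97a4d_nt.CT

open Pool.Agent.Work.UP Filter Hyp

theorem one_c {L : Type} [Field L] [CharZero L] (w : Lˣ)
    (hw : IsTranscendenceBasis ℤ (fun _ : Fin 1 => (w : L))) (Θ : L →+* Mero) (v : ℂ → ℂ)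
    (hv : Differentiable ℂ v) (hv0 : ∀ z, v z ≠ 0) (hΘ : Θ w = mk v (mer_of_diff hv)) (x : L) :
    IsUQ (Θ x) := by
  refine one_c_c (C := algebraicClosure ℚ L) w (tb_inj (fun _ => w) hw) (tb_alg (fun _ => w) hw)
    Θ (fun c => ?_) v hv hv0 hΘ x
  have hc : IsAlgebraic ℚ (algebraMap (algebraicClosure ℚ L) L c) := c.2.isAlgebraic
  obtain ⟨p, hp, h⟩ := hc
  have h1 : Θ (algebraMap (algebraicClosure ℚ L) L c) ∈ Set.range (algebraMap ℂ Mero) := by
    refine mero_alg (p.map (algebraMap ℚ ℂ)) ?_ ?_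
    · rwa [Ne, Polynomial.map_eq_zero]
    · rw [Polynomial.aeval_def, Polynomial.eval₂_map]
      have h2 : (algebraMap ℂ Mero).comp (algebraMap ℚ ℂ) = Θ.comp (algebraMap ℚ L) :=
        Subsingleton.elim _ _
      rw [h2, ← Polynomial.hom_eval₂, ← Polynomial.aeval_def, h, map_zero]
  obtain ⟨γ, hγ⟩ := h1
  exact ⟨γ, hγ.symm⟩

end Pool.Agent.Work.MP_e97a4d_nt.CT
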