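import Pool.Agent.Work.MP_e97a4d_nt.CT.CxA
import Pool.Agent.Work.MP_e97a4d_nt.CT.Exch
import Pool.Agent.Work.UP.NCartan

/-!
# CT/Cx (size L): the exchange argument, analytic case

PROOF. The analogue of CT/Ax with `cartan` (UP/NCartan) instead of the Subspace Theorem. `G` from `cx_growth`.
`C₀ := 2 * m ^ 2 * G`. Let `n, i, ξ, a` be given, `r₀ := n * R`, choose `N ≥ r₀` with
`(2 N + 1) ^ d ≤ 2 * (2 (N - r₀) + 1) ^ d` (see CT/Ax), `q := (2 (N - r₀) + 1) ^ d > 0`. Let `M₀` be the matrix of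
`exch` for `A n`, `r₀`, `N`, `ξ`, `i`, `a`, `n`. `J := Jx d m N`, `ε : Fin (card J) ≃ J`,
`X j z := Xv (uz u hu z) (Y z) (ε j)`, `𝓜 := {1, M₀.submatrix ε ε}`.

(1) `X` is linearly independent over `ℂ`: if `∑ j, b j * X j z = 0` for all `z` then, with
`p i' := ∑ c, single c (b (c, i'))`, `∑ i', ev id (uz u hu z) (p i') * Y z ^ i' = 0` for all `z` (`ev_single`), so
`p = 0` by `hind`, so `b = 0` (compare coefficients).

(2) `cartan` for `X`, `T := Tu u` (`Tu_nonneg`; the bound `hT` from `cx_char`), `D := 0` (`0 ≤` the divisor of an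
entire function: `MeromorphicOn.AnalyticOnNhd.divisor_nonneg`), `𝓜`. Put
`g z := dg (xx u z) a + (i - n) * log ‖Y z‖` and
`Gf z := ∑ j, log ‖X j z‖ - q * max 0 (g z)`, circle integrable (`cx_int`,
`MeromorphicOn.circleIntegrable_log_norm`). For all `z` with `Y z ≠ 0` (outside a discrete set: `hY0`, as in
UP/NCartan, `AnalyticOnNhd.preimage_zero_mem_codiscrete`) some `M ∈ 𝓜` has
`∑ j, log ‖∑ j', M j j' * X j' z‖ ≤ Gf z`: if `g z ≤ 0` take `M = 1`; if `g z > 0` take `M₀`, by `exch` (absolute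
value `NormedField.toAbsoluteValue ℂ`; `log ‖mon (cu (uz u hu z)) a‖ = dg (xx u z) a`: `mon_log`) and reindexing
with `ε`. `N * logCounting 0 r = 0` (`map_zero`).

(3) So `0 ≤ mean of Gf + C₁ * Er (Tu u) r R'` for all `1 ≤ r < R'`, i.e.
`q * mean (max 0 g) ≤ ∑ j, mean (log ‖X j‖) + C₁ * Er`. Outside the zeros of `Y`,
`log ‖X j z‖ = dg (xx u z) c + i' * log ‖Y z‖` if `ε j = (c, i')`; the mean of `dg (xx u z) c` is
`dg (xx u 0) c` (`avg_log_unit`, UP/NBase, linear combination), the mean of `log ‖Y‖` is at most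
`G * (1 + Tu u r)` (`cx_avg`). (Equality of means of functions equal outside a discrete set: `avg_mono` twice.) So
`∑ j, mean (log ‖X j‖) ≤ C₂ + (2 N + 1)^d * m^2 * G * (1 + Tu u r)`, `C₂ = ∑ j |dg (xx u 0) c|`. Divide by `q`:
`mean (max 0 g) ≤ 2 m^2 G (1 + Tu u r) + (C₂ + |C₁|) * Er` (`1 ≤ Er`: `Er_pos` or `posLog_nonneg`; `q ≥ 1`).
-/

set_option autoImplicit false

noncomputable section

namespace Pool.Agent.Work.MP_e97a4d_nt.CT

open Pool.Agent.Work.UP Filter ValueDistribution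

private theorem exists_Nc (d r : ℕ) : ∃ N : ℕ, r ≤ N ∧
    ((2 * N + 1 : ℕ) : ℝ) ^ d ≤ 2 * ((2 * (N - r) + 1 : ℕ) : ℝ) ^ d := by
  rcases Nat.eq_zero_or_pos d with hd0 | hd
  · subst hd0
    refine ⟨r, le_rfl, ?_⟩
    norm_num
  refine ⟨2 * d * r + 1, ?_, ?_⟩
  · have : r ≤ d * r := Nat.le_mul_of_pos_left r hd
    nlinarith
  · set N := 2 * d * r + 1 with hN
    have hr : r ≤ N := by
      have : r ≤ d * r := Nat.le_mul_of_pos_left r hd
      nlinarith
    have hcast : ((2 * (N - r) + 1 : ℕ) : ℝ) = (2 * N + 1 : ℝ) - 2 * r := by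
      push_cast [Nat.cast_sub hr]
      ring
    have hpos : (0 : ℝ) < 2 * N + 1 := by positivity
    have hd' : (0 : ℝ) < d := by exact_mod_cast hd
    have hq : (2 : ℝ) * r / (2 * N + 1) ≤ 1 / (2 * d) := by
      rw [div_le_div_iff₀ hpos (by positivity)]
      have h1 : (N : ℝ) = 2 * d * r + 1 := by
        rw [hN]
        push_cast
        ring
      rw [h1]
      nlinarith
    have hb : 1 + (d : ℝ) * (-(2 * r / (2 * N + 1))) ≤ (1 + -(2 * r / (2 * N + 1))) ^ d := by
      apply one_add_mul_le_pow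
      have h2 : (2 : ℝ) * r / (2 * N + 1) ≤ 1 := by
        rw [div_le_one hpos]
        have : (r : ℝ) ≤ N := by exact_mod_cast hr
        linarith
      linarith
    have h3 : (d : ℝ) * (2 * r / (2 * N + 1)) ≤ 1 / 2 := by
      calc (d : ℝ) * (2 * r / (2 * N + 1)) ≤ d * (1 / (2 * d)) :=
            mul_le_mul_of_nonneg_left hq hd'.le
        _ = 1 / 2 := by field_simp
    have h4 : (1 : ℝ) / 2 ≤ (1 + -(2 * r / (2 * N + 1))) ^ d := by linarith
    have h5 : ((2 * (N - r) + 1 : ℕ) : ℝ) ^ d =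
        ((2 * N + 1 : ℕ) : ℝ) ^ d * (1 + -(2 * r / (2 * N + 1))) ^ d := by
      rw [hcast, ← mul_pow]
      congr 1
      push_cast
      field_simp
      ring
    rw [h5]
    have h6 : (0 : ℝ) ≤ ((2 * N + 1 : ℕ) : ℝ) ^ d := by positivity
    nlinarith

/-- The mean of `dg (xx u z) c`. -/
private theorem avg_dg {d : ℕ} (u : Fin d → ℂ → ℂ) (hu : IsUC u) (c : Fin d → ℤ) (r : ℝ) :
    CircleIntegrable (fun z => dg (xx u z) c) 0 r ∧
      Real.circleAverage (fun z => dg (xx u z) c) 0 r = dg (xx u 0) c := by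
  have hint : ∀ l, CircleIntegrable (fun z => (c l : ℝ) * xx u z l) 0 r := by
    intro l
    have hc : Continuous fun z => (c l : ℝ) * xx u z l := by
      refine continuous_const.mul ?_
      exact (hu l).1.continuous.norm.log fun z => norm_ne_zero_iff.2 ((hu l).2 z)
    exact hc.continuousOn.circleIntegrable'
  constructor
  · unfold dg
    exact CircleIntegrable.fun_sum _ fun l _ => hint l
  · unfold dg
    rw [Real.circleAverage_fun_sum fun l _ => hint l]
    refine Finset.sum_congr rfl fun l _ => ?_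
    have h1 := Real.circleAverage_fun_smul (𝕜 := ℝ) (a := (c l : ℝ)) (f := fun z => xx u z l)
      (c := 0) (R := r)
    simp only [smul_eq_mul] at h1
    rw [h1]
    congr 1
    exact avg_log_unit (hu l).1 (hu l).2 r

theorem cx {d m : ℕ} (u : Fin d → ℂ → ℂ) (hu : IsUC u) (Y : ℂ → ℂ) (hY : Differentiable ℂ Y)
    (hY0 : ∃ z, Y z ≠ 0) (R : ℕ) (A : ℕ → Fin m → Lp ℂ d)
    (heq : ∀ (n : ℕ) (z : ℂ),
      Y z ^ n = ∑ i : Fin m, ev (RingHom.id ℂ) (uz u hu z) (A n i) * Y z ^ (i : ℕ))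
    (hbox : ∀ (n : ℕ) (i : Fin m), ∀ e ∈ (A n i).coeff.support, ∀ l, |e l| ≤ (n : ℤ) * (R : ℤ))
    (hind : ∀ p : Fin m → Lp ℂ d,
      (∀ z, ∑ i : Fin m, ev (RingHom.id ℂ) (uz u hu z) (p i) * Y z ^ (i : ℕ) = 0) → p = 0) :
    ∃ C₀ : ℝ, 0 ≤ C₀ ∧ ∀ (n : ℕ) (i : Fin m) (ξ : Fin d → ℝ) (a : Fin d → ℤ),
      IsTop ξ (A n i) a → ∃ C : ℝ, ∀ r R' : ℝ, 1 ≤ r → r < R' →
        Real.circleAverage
            (fun z => max 0 (dg (xx u z) a + (((i : ℕ) : ℝ) - (n : ℝ)) * Real.log ‖Y z‖)) 0 r ≤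
          C₀ * (1 + Tu u r) + C * Er (Tu u) r R' := by
  classical
  obtain ⟨G, hG0, hG⟩ := cx_growth u hu Y R A heq hbox
  refine ⟨2 * (m : ℝ) ^ 2 * G, by positivity, ?_⟩
  intro n i ξ a htop
  obtain ⟨N, hrN, hNd⟩ := exists_Nc d (n * R)
  obtain ⟨M₀, hM₀, hM⟩ := exch (A n) (n * R) N hrN (by
      intro i e he l
      have := hbox n i e he l
      push_cast
      exact this) ξ i a htop n
  set ε : Fin (Fintype.card (Jx d m N)) ≃ Jx d m N := (Fintype.equivFin (Jx d m N)).symm with hε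
  set X : Fin (Fintype.card (Jx d m N)) → ℂ → ℂ := fun k z => Xv (uz u hu z) (Y z) (ε k) with hXdef
  have hcard : Fintype.card (Jx d m N) = (2 * N + 1) ^ d * m := by
    show Fintype.card (bx d N × Fin m) = _
    rw [Fintype.card_prod, Fintype.card_coe, card_bx, Fintype.card_fin]
  have hXd : ∀ k, Differentiable ℂ (X k) := fun k => (cx_char u hu Y hY G hG0 hG N (ε k)).1
  have hXT : ∀ k, ∃ C : ℝ, ∀ r, 1 ≤ r → characteristic (X k) ⊤ r ≤ C * (1 + Tu u r) :=
    fun k => (cx_char u hu Y hY G hG0 hG N (ε k)).2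
  have hli : LinearIndependent ℂ X := by
    rw [Fintype.linearIndependent_iff]
    intro g hg k
    set b : Jx d m N → ℂ := fun j => g (ε.symm j) with hb
    set p : Fin m → Lp ℂ d := fun i => ∑ c : bx d N,
      AddMonoidAlgebra.single (c : Fin d → ℤ) (b (c, i)) with hp
    have h2 : p = 0 := by
      apply hind
      intro z
      have hz : ∑ k, g k * X k z = 0 := by
        have := congrFun hg z
        simpa [Finset.sum_apply] using this
      rw [← hz]
      have h3 : ∀ i : Fin m, ev (RingHom.id ℂ) (uz u hu z) (p i) * Y z ^ (i : ℕ) =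
          ∑ c : bx d N, b (c, i) * Xv (uz u hu z) (Y z) (c, i) := by
        intro i
        rw [hp]
        simp only
        rw [map_sum, Finset.sum_mul]
        refine Finset.sum_congr rfl fun c _ => ?_
        rw [ev_single, RingHom.id_apply]
        simp only [Xv]
        ring
      rw [Finset.sum_congr rfl fun i _ => h3 i, Finset.sum_comm]
      have h4 : ∑ k, g k * X k z = ∑ j : Jx d m N, b j * Xv (uz u hu z) (Y z) j := by
        rw [← Equiv.sum_comp ε]
        refine Finset.sum_congr rfl fun k _ => ?_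
        simp only [hb, hXdef, Equiv.symm_apply_apply]
      rw [h4]
      exact (Fintype.sum_prod_type (fun j : bx d N × Fin m => b j * Xv (uz u hu z) (Y z) j)).symm
    have hbj : ∀ j, b j = 0 := by
      intro j
      obtain ⟨c, i⟩ := j
      have h3 := congrFun h2 i
      have h4 : (p i).coeff (c : Fin d → ℤ) = b (c, i) := by
        rw [hp]
        simp only
        have h5 : ∀ s : Finset (bx d N), (∑ c' ∈ s,
            (AddMonoidAlgebra.single (c' : Fin d → ℤ) (b (c', i)) : Lp ℂ d)).coeff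
              (c : Fin d → ℤ) = ∑ c' ∈ s, if c' = c then b (c', i) else 0 := by
          intro s
          induction s using Finset.induction_on with
          | empty => simp
          | insert x s hx ih =>
            rw [Finset.sum_insert hx, Finset.sum_insert hx, ← ih]
            show (AddMonoidAlgebra.single (x : Fin d → ℤ) (b (x, i)) : Lp ℂ d).coeff c +
              (∑ c' ∈ s, (AddMonoidAlgebra.single (c' : Fin d → ℤ) (b (c', i)) :
                Lp ℂ d)).coeff c = _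
            congr 1
            show (Finsupp.single (x : Fin d → ℤ) (b (x, i))) (c : Fin d → ℤ) = _
            rw [Finsupp.single_apply]
            by_cases hxc : x = c
            · rw [if_pos hxc, if_pos (by rw [hxc])]
            · rw [if_neg hxc, if_neg (fun h => hxc (Subtype.ext h))]
        rw [h5, Finset.sum_ite_eq' Finset.univ c (fun c' => b (c', i)), if_pos (Finset.mem_univ _)]
      rw [h3] at h4
      rw [← h4]
      rfl
    have h6 := hbj (ε k)
    simpa [hb] using h6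
  -- the set of matrices
  have hdet : ∀ M ∈ ({1, M₀.submatrix ε ε} : Set (Matrix (Fin (Fintype.card (Jx d m N)))
      (Fin (Fintype.card (Jx d m N))) ℂ)), M.det ≠ 0 := by
    intro M hMM
    rcases hMM with h | h
    · rw [h, Matrix.det_one]
      exact one_ne_zero
    · rw [Set.mem_singleton_iff.1 h, Matrix.det_submatrix_equiv_self]
      exact hM₀
  obtain ⟨C₁, hC₁, hcar⟩ := cartan X hXd hli (Tu u) (fun r _ => Tu_nonneg u r) hXT 0
    (fun k => MeromorphicOn.AnalyticOnNhd.divisor_nonneg fun z _ => (hXd k).analyticAt z)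
    {1, M₀.submatrix ε ε} (Set.toFinite _) hdet
  set C₂ : ℝ := ∑ k, |dg (xx u 0) ((ε k).1 : Fin d → ℤ)| with hC₂
  have hC₂0 : 0 ≤ C₂ := Finset.sum_nonneg fun k _ => abs_nonneg _
  refine ⟨C₂ + C₁, fun r R' hr hR' => ?_⟩
  have hr0 : r ≠ 0 := by linarith
  set q : ℝ := (((2 * (N - n * R) + 1) ^ d : ℕ) : ℝ) with hq
  have hq1 : 1 ≤ q := by
    rw [hq]
    exact_mod_cast Nat.one_le_pow _ _ (by omega)
  set g : ℂ → ℝ := fun z => dg (xx u z) a + (((i : ℕ) : ℝ) - (n : ℝ)) * Real.log ‖Y z‖ with hg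
  have hgint : CircleIntegrable (fun z => max 0 (g z)) 0 r := (cx_int u hu Y hY a _ r).2
  have hlogY : CircleIntegrable (fun z => Real.log ‖Y z‖) 0 r := (cx_int u hu Y hY a 0 r).1
  have hlX : ∀ k, CircleIntegrable (fun z => Real.log ‖X k z‖) 0 r := fun k =>
    MeromorphicOn.circleIntegrable_log_norm fun z _ => ((hXd k).analyticAt z).meromorphicAt
  have hsX : CircleIntegrable (fun z => ∑ k, Real.log ‖X k z‖) 0 r :=
    CircleIntegrable.fun_sum _ fun k _ => hlX k
  have hqg : CircleIntegrable (fun z => q * max 0 (g z)) 0 r := by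
    exact hgint.const_smul (a := q)
  have hYne : ∀ᶠ z in codiscrete ℂ, Y z ≠ 0 := by
    obtain ⟨z0, hz0⟩ := hY0
    exact AnalyticOnNhd.preimage_zero_mem_codiscrete (fun z _ => hY.analyticAt z) hz0
  have hpt : ∀ᶠ z in codiscrete ℂ, ∃ M ∈ ({1, M₀.submatrix ε ε} :
      Set (Matrix (Fin (Fintype.card (Jx d m N))) (Fin (Fintype.card (Jx d m N))) ℂ)),
      ∑ k, Real.log ‖∑ k', M k k' * X k' z‖ ≤ (∑ k, Real.log ‖X k z‖) - q * max 0 (g z) := by
    filter_upwards [hYne] with z hz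
    rcases le_or_gt (g z) 0 with h | h
    · refine ⟨1, Or.inl rfl, ?_⟩
      rw [max_eq_left h, mul_zero, sub_zero]
      refine le_of_eq (Finset.sum_congr rfl fun k _ => ?_)
      congr 2
      simp [Matrix.one_apply]
    · refine ⟨M₀.submatrix ε ε, Or.inr rfl, ?_⟩
      rw [max_eq_right h.le]
      have h1 := hM (NormedField.toAbsoluteValue ℂ) (uz u hu z) (Y z) hz (heq n z)
      have h2 : Real.log (NormedField.toAbsoluteValue ℂ (mon (cu (uz u hu z)) a)) =
          dg (xx u z) a := by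
        rw [mon_log, Real.log_exp]
        rfl
      rw [h2] at h1
      have h3 : ∑ k, Real.log ‖∑ k', (M₀.submatrix ε ε) k k' * X k' z‖ =
          ∑ j, Real.log (NormedField.toAbsoluteValue ℂ
            (M₀.mulVec (Xv (uz u hu z) (Y z)) j)) := by
        rw [← Equiv.sum_comp ε]
        refine Finset.sum_congr rfl fun k _ => ?_
        have h4 : ∑ k', (M₀.submatrix ε ε) k k' * X k' z =
            M₀.mulVec (Xv (uz u hu z) (Y z)) (ε k) := by
          simp only [Matrix.mulVec, dotProduct, Matrix.submatrix_apply, hXdef]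
          exact Equiv.sum_comp ε (fun j => M₀ (ε k) j * Xv (uz u hu z) (Y z) j)
        rw [h4]
        rfl
      have h5 : ∑ k, Real.log ‖X k z‖ =
          ∑ j : Jx d m N, Real.log (NormedField.toAbsoluteValue ℂ (Xv (uz u hu z) (Y z) j)) := by
        rw [← Equiv.sum_comp ε]
        rfl
      rw [h3, h5, h1]
      exact le_of_eq rfl
  have hmain := hcar r R' hr hR' (fun z => (∑ k, Real.log ‖X k z‖) - q * max 0 (g z))
    (hsX.sub hqg) hpt
  rw [map_zero, Pi.zero_apply, mul_zero, Real.circleAverage_fun_sub hsX hqg,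
    Real.circleAverage_fun_sum fun k _ => hlX k] at hmain
  have hqa : Real.circleAverage (fun z => q * max 0 (g z)) 0 r =
      q * Real.circleAverage (fun z => max 0 (g z)) 0 r := by
    have h1 := Real.circleAverage_fun_smul (𝕜 := ℝ) (a := q) (f := fun z => max 0 (g z))
      (c := 0) (R := r)
    simpa [smul_eq_mul] using h1
  rw [hqa] at hmain
  -- the means of the `X k`
  have hTu := Tu_nonneg u r
  have hXavg : ∀ k, Real.circleAverage (fun z => Real.log ‖X k z‖) 0 r ≤
      |dg (xx u 0) ((ε k).1 : Fin d → ℤ)| + m * (G * (1 + Tu u r)) := by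
    intro k
    obtain ⟨hdi, hda⟩ := avg_dg u hu ((ε k).1 : Fin d → ℤ) r
    have hi2 : CircleIntegrable (fun z => (((ε k).2 : ℕ) : ℝ) * Real.log ‖Y z‖) 0 r := by
      exact hlogY.const_smul (a := (((ε k).2 : ℕ) : ℝ))
    have h1 : Real.circleAverage (fun z => Real.log ‖X k z‖) 0 r ≤
        Real.circleAverage (fun z => dg (xx u z) ((ε k).1 : Fin d → ℤ) +
          (((ε k).2 : ℕ) : ℝ) * Real.log ‖Y z‖) 0 r := by
      refine avg_mono hr0 (hlX k) (hdi.add hi2) ?_
      filter_upwards [hYne] with z hz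
      refine le_of_eq ?_
      have h2 : ‖X k z‖ = ‖mon (cu (uz u hu z)) ((ε k).1 : Fin d → ℤ)‖ * ‖Y z‖ ^ ((ε k).2 : ℕ) := by
        simp only [hXdef, Xv]
        rw [norm_mul, norm_pow]
      have h3 : ‖mon (cu (uz u hu z)) ((ε k).1 : Fin d → ℤ)‖ =
          Real.exp (dg (xx u z) ((ε k).1 : Fin d → ℤ)) :=
        mon_log (NormedField.toAbsoluteValue ℂ) (uz u hu z) _
      rw [h2, Real.log_mul (norm_ne_zero_iff.2 (mon_ne_zero _ _))
        (pow_ne_zero _ (norm_ne_zero_iff.2 hz)), h3, Real.log_exp, Real.log_pow]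
    refine h1.trans ?_
    rw [Real.circleAverage_fun_add hdi hi2, hda]
    have h4 : Real.circleAverage (fun z => (((ε k).2 : ℕ) : ℝ) * Real.log ‖Y z‖) 0 r =
        (((ε k).2 : ℕ) : ℝ) * Real.circleAverage (fun z => Real.log ‖Y z‖) 0 r := by
      have h5 := Real.circleAverage_fun_smul (𝕜 := ℝ) (a := (((ε k).2 : ℕ) : ℝ))
        (f := fun z => Real.log ‖Y z‖) (c := 0) (R := r)
      simpa [smul_eq_mul] using h5
    rw [h4]
    have h5 := cx_avg u hu Y hY G hG r
    have h6 : (((ε k).2 : ℕ) : ℝ) ≤ m := by exact_mod_cast (ε k).2.2.le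
    have h7 : 0 ≤ G * (1 + Tu u r) := mul_nonneg hG0 (by linarith)
    refine add_le_add (le_abs_self _) ?_
    calc (((ε k).2 : ℕ) : ℝ) * Real.circleAverage (fun z => Real.log ‖Y z‖) 0 r ≤
        (((ε k).2 : ℕ) : ℝ) * (G * (1 + Tu u r)) :=
          mul_le_mul_of_nonneg_left h5 (Nat.cast_nonneg _)
      _ ≤ m * (G * (1 + Tu u r)) := mul_le_mul_of_nonneg_right h6 h7
  have hsum : ∑ k, Real.circleAverage (fun z => Real.log ‖X k z‖) 0 r ≤
      C₂ + (((2 * N + 1) ^ d * m : ℕ) : ℝ) * (m * (G * (1 + Tu u r))) := by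
    calc ∑ k, Real.circleAverage (fun z => Real.log ‖X k z‖) 0 r ≤
        ∑ k, (|dg (xx u 0) ((ε k).1 : Fin d → ℤ)| + m * (G * (1 + Tu u r))) :=
          Finset.sum_le_sum fun k _ => hXavg k
      _ = _ := by
          have hcc : ((Fintype.card (Jx d m N) : ℕ) : ℝ) = (((2 * N + 1) ^ d * m : ℕ) : ℝ) := by
            rw [hcard]
          rw [Finset.sum_add_distrib, Finset.sum_const, Finset.card_univ, Fintype.card_fin,
            nsmul_eq_mul, hcc]
  set av : ℝ := Real.circleAverage (fun z => max 0 (g z)) 0 r with hav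
  have hav0 : av ≤ av := le_rfl
  have hEr := Er_pos (Tu u) r R'
  have hqeq : q = ((2 * (N - n * R) + 1 : ℕ) : ℝ) ^ d := by
    rw [hq]
    push_cast
    rfl
  rw [← hqeq] at hNd
  have hGT : 0 ≤ m * (m * (G * (1 + Tu u r))) := by
    have : 0 ≤ 1 + Tu u r := by linarith
    positivity
  have h1 : (((2 * N + 1) ^ d * m : ℕ) : ℝ) * (m * (G * (1 + Tu u r))) =
      ((2 * N + 1 : ℕ) : ℝ) ^ d * (m * (m * (G * (1 + Tu u r)))) := by
    push_cast
    ring
  have h2 : ((2 * N + 1 : ℕ) : ℝ) ^ d * (m * (m * (G * (1 + Tu u r)))) ≤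
      2 * q * (m * (m * (G * (1 + Tu u r)))) := mul_le_mul_of_nonneg_right hNd hGT
  have h3 : q * av ≤ q * (2 * (m : ℝ) ^ 2 * G * (1 + Tu u r) + (C₂ + C₁) * Er (Tu u) r R') := by
    have h4 : C₂ + C₁ * Er (Tu u) r R' ≤ (C₂ + C₁) * Er (Tu u) r R' := by
      have := le_mul_of_one_le_right hC₂0 hEr
      linarith
    have h5 : (C₂ + C₁) * Er (Tu u) r R' ≤ q * ((C₂ + C₁) * Er (Tu u) r R') := by
      refine le_mul_of_one_le_left ?_ hq1
      have : 0 ≤ Er (Tu u) r R' := by linarith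
      positivity
    calc q * av ≤ C₂ + (((2 * N + 1) ^ d * m : ℕ) : ℝ) * (m * (G * (1 + Tu u r))) +
        C₁ * Er (Tu u) r R' := by linarith
      _ ≤ 2 * q * (m * (m * (G * (1 + Tu u r)))) + q * ((C₂ + C₁) * Er (Tu u) r R') := by
          rw [h1]
          linarith
      _ = _ := by ring
  exact le_of_mul_le_mul_left h3 (by linarith)

end Pool.Agent.Work.MP_e97a4d_nt.CT
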