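import Pool.Agent.Work.MP_e97a4d_nt.CT.QDefs
import Pool.Agent.Work.MP_e97a4d_nt.CT.Growth
import Pool.Agent.Work.UP.NChar

/-!
# CT/CxA (size M): growth and integrability in the analytic case

PROOF. `cx_growth`: `growth` for the absolute value `NormedField.toAbsoluteValue ℂ` and `A m` with `r = m * R`, at
`(uz u hu z, Y z)`; `∑ l, |log ‖u l z‖| = tau u z` (`tau`, UP/NDefs).
`cx_int`: `fun z => log ‖Y z‖` is circle integrable (`MeromorphicOn.circleIntegrable_log_norm`, `Y` is entire, as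
`hWint` in UP/NCartan); `xx u z l` is continuous in `z` (`u l` entire without zeros: `Continuous.log`), so
`dg (xx u z) a` is continuous, hence circle integrable; the maximum of two circle integrable functions is circle
integrable (`CircleIntegrable` consists of two `IntervalIntegrable`-conditions; `h.1.sup ..` as in
`avg_mono`, UP/NBase, for `inf`).
`cx_avg`: mean of `log ‖Y z‖ ≤ C + m * R * Tu u r` by `cx_growth` and `Real.circleAverage_mono` (or `avg_mono`),
`tau` is circle integrable (continuous), linearity of the mean (`Real.circleAverage_fun_add`,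
`circleAverage_const`, `circleAverage_fun_smul`).
`cx_char`: `X z = mon (cu (uz u hu z)) b * Y z ^ i` is entire, `char_entire` (UP/NBase) says its characteristic is
the mean of `posLog ‖X z‖`, and `posLog ‖X z‖ ≤ N * tau u z + m * (C + m R tau u z)` if `|b l| ≤ N`, `i < m`
(`log ‖mon‖ = ∑ b l * log ‖u l z‖`: `mon_log`; `Real.posLog_mul`, `Real.posLog_pow` or directly
`max 0`), take the mean.
-/

set_option autoImplicit false

noncomputable section

namespace Pool.Agent.Work.MP_e97a4d_nt.CT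

open Pool.Agent.Work.UP Filter ValueDistribution

variable {d m : ℕ}

theorem cx_growth (u : Fin d → ℂ → ℂ) (hu : IsUC u) (Y : ℂ → ℂ) (R : ℕ) (A : ℕ → Fin m → Lp ℂ d)
    (heq : ∀ (n : ℕ) (z : ℂ),
      Y z ^ n = ∑ i : Fin m, ev (RingHom.id ℂ) (uz u hu z) (A n i) * Y z ^ (i : ℕ))
    (hbox : ∀ (n : ℕ) (i : Fin m), ∀ e ∈ (A n i).coeff.support, ∀ l, |e l| ≤ (n : ℤ) * (R : ℤ)) :
    ∃ G : ℝ, 0 ≤ G ∧ ∀ z, Real.log ‖Y z‖ ≤ G * (1 + tau u z) := by
  obtain ⟨C, hC, h⟩ := growth (NormedField.toAbsoluteValue ℂ) (A m) (m * R) (fun i e he l => by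
    have := hbox m i e he l
    push_cast
    exact this)
  have hmR : (0 : ℝ) ≤ ((m * R : ℕ) : ℝ) := Nat.cast_nonneg _
  refine ⟨C + ((m * R : ℕ) : ℝ), by linarith, fun z => ?_⟩
  have h1 : Real.log ‖Y z‖ ≤ C + ((m * R : ℕ) : ℝ) * tau u z := h (uz u hu z) (Y z) (heq m z)
  have h2 : 0 ≤ tau u z := tau_nonneg u z
  have h3 : 0 ≤ C * tau u z := mul_nonneg hC h2
  nlinarith

theorem cx_int (u : Fin d → ℂ → ℂ) (hu : IsUC u) (Y : ℂ → ℂ) (hY : Differentiable ℂ Y)
    (a : Fin d → ℤ) (c r : ℝ) :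
    CircleIntegrable (fun z => Real.log ‖Y z‖) 0 r ∧
      CircleIntegrable (fun z => max 0 (dg (xx u z) a + c * Real.log ‖Y z‖)) 0 r := by
  have h1 : CircleIntegrable (fun z => Real.log ‖Y z‖) 0 r :=
    MeromorphicOn.circleIntegrable_log_norm fun z _ => (hY.analyticAt z).meromorphicAt
  refine ⟨h1, ?_⟩
  have hc : Continuous fun z => dg (xx u z) a := by
    unfold dg xx
    exact continuous_finsetSum _ fun l _ => continuous_const.mul
      (((hu l).1.continuous.norm).log fun z => norm_ne_zero_iff.2 ((hu l).2 z))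
  have h2 : CircleIntegrable (fun z => dg (xx u z) a) 0 r := hc.continuousOn.circleIntegrable'
  have h3 : CircleIntegrable (fun z => c • Real.log ‖Y z‖) 0 r := h1.const_smul
  have h4 : CircleIntegrable (fun z => dg (xx u z) a + c * Real.log ‖Y z‖) 0 r := h2.add h3
  have h5 : CircleIntegrable (fun _ : ℂ => (0 : ℝ)) 0 r := circleIntegrable_const 0 0 r
  exact ⟨h5.1.sup h4.1, h5.2.sup h4.2⟩

theorem cx_avg (u : Fin d → ℂ → ℂ) (hu : IsUC u) (Y : ℂ → ℂ) (hY : Differentiable ℂ Y) (G : ℝ)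
    (hG : ∀ z, Real.log ‖Y z‖ ≤ G * (1 + tau u z)) (r : ℝ) :
    Real.circleAverage (fun z => Real.log ‖Y z‖) 0 r ≤ G * (1 + Tu u r) := by
  have h1 : CircleIntegrable (fun z => Real.log ‖Y z‖) 0 r :=
    MeromorphicOn.circleIntegrable_log_norm fun z _ => (hY.analyticAt z).meromorphicAt
  have hti : CircleIntegrable (tau u) 0 r :=
    ContinuousOn.circleIntegrable' (tau_cont u hu).continuousOn
  have hti1 : CircleIntegrable (fun z => 1 + tau u z) 0 r :=
    (circleIntegrable_const 1 0 r).add hti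
  have h2 : Real.circleAverage (fun z => G • (1 + tau u z)) 0 r = G * (1 + Tu u r) := by
    rw [Real.circleAverage_fun_smul, Real.circleAverage_fun_add (circleIntegrable_const 1 0 r) hti,
      Real.circleAverage_const]
    rfl
  rw [← h2]
  exact Real.circleAverage_mono h1 hti1.const_smul fun z _ => hG z

theorem cx_char (u : Fin d → ℂ → ℂ) (hu : IsUC u) (Y : ℂ → ℂ) (hY : Differentiable ℂ Y) (G : ℝ)
    (hG0 : 0 ≤ G) (hG : ∀ z, Real.log ‖Y z‖ ≤ G * (1 + tau u z)) (N : ℕ) (j : Jx d m N) :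
    Differentiable ℂ (fun z => Xv (uz u hu z) (Y z) j) ∧
      ∃ C : ℝ, ∀ r, 1 ≤ r →
        characteristic (fun z => Xv (uz u hu z) (Y z) j) ⊤ r ≤ C * (1 + Tu u r) := by
  have hX : Differentiable ℂ (fun z => Xv (uz u hu z) (Y z) j) := by
    show Differentiable ℂ (fun z => mon (fun i => u i z) (j.1 : Fin d → ℤ) * Y z ^ (j.2 : ℕ))
    exact (mon_diff u hu _).mul (hY.pow _)
  refine ⟨hX, (∑ i, |(((j.1 : Fin d → ℤ) i : ℤ) : ℝ)|) + m * G, fun r _ => ?_⟩
  set C : ℝ := (∑ i, |(((j.1 : Fin d → ℤ) i : ℤ) : ℝ)|) + m * G with hC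
  rw [char_entire hX]
  have hti : CircleIntegrable (tau u) 0 r :=
    ContinuousOn.circleIntegrable' (tau_cont u hu).continuousOn
  have hti1 : CircleIntegrable (fun z => 1 + tau u z) 0 r :=
    (circleIntegrable_const 1 0 r).add hti
  have h1 : Real.circleAverage (fun z => C • (1 + tau u z)) 0 r = C * (1 + Tu u r) := by
    rw [Real.circleAverage_fun_smul, Real.circleAverage_fun_add (circleIntegrable_const 1 0 r) hti,
      Real.circleAverage_const]
    rfl
  rw [← h1]
  refine Real.circleAverage_mono ?_ (hti1.const_smul) fun z _ => ?_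
  · exact MeromorphicOn.circleIntegrable_posLog_norm
      fun z _ => (hX.analyticAt z).meromorphicAt
  · show Real.posLog ‖mon (fun i => u i z) (j.1 : Fin d → ℤ) * Y z ^ (j.2 : ℕ)‖ ≤ C * (1 + tau u z)
    have ht : 0 ≤ tau u z := tau_nonneg u z
    have a1 : Real.posLog ‖mon (fun i => u i z) (j.1 : Fin d → ℤ)‖ ≤
        (∑ i, |(((j.1 : Fin d → ℤ) i : ℤ) : ℝ)|) * (1 + tau u z) := by
      have b1 := abs_log_mon_le u hu (j.1 : Fin d → ℤ) z
      have b2 : (0 : ℝ) ≤ ∑ i, |(((j.1 : Fin d → ℤ) i : ℤ) : ℝ)| :=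
        Finset.sum_nonneg fun i _ => abs_nonneg _
      unfold Real.posLog
      refine max_le (mul_nonneg b2 (by linarith)) ?_
      have b3 := le_abs_self (Real.log ‖mon (fun i => u i z) (j.1 : Fin d → ℤ)‖)
      nlinarith
    have a2 : Real.posLog (‖Y z‖ ^ (j.2 : ℕ)) ≤ m * G * (1 + tau u z) := by
      have b4 : 0 ≤ G * (1 + tau u z) := mul_nonneg hG0 (by linarith)
      have b5 : ((j.2 : ℕ) : ℝ) ≤ (m : ℝ) := by exact_mod_cast j.2.2.le
      unfold Real.posLog
      refine max_le ?_ ?_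
      · rw [mul_assoc]
        exact mul_nonneg (Nat.cast_nonneg _) b4
      · rw [Real.log_pow, mul_assoc]
        calc ((j.2 : ℕ) : ℝ) * Real.log ‖Y z‖ ≤ ((j.2 : ℕ) : ℝ) * (G * (1 + tau u z)) :=
              mul_le_mul_of_nonneg_left (hG z) (Nat.cast_nonneg _)
          _ ≤ (m : ℝ) * (G * (1 + tau u z)) := mul_le_mul_of_nonneg_right b5 b4
    rw [norm_mul, norm_pow]
    refine Real.posLog_mul.trans ((add_le_add a1 a2).trans (le_of_eq ?_))
    rw [hC]
    ring

end Pool.Agent.Work.MP_e97a4d_nt.CT
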