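import Pool.Agent.Work.UP.LDefs
import Pool.Agent.Work.UP.NDefs

/-!
# CT/Defs: covers of tori, definitions (FIXED, do not edit)

`K` is a field, `E : Lp K d →+* L` is a homomorphism from the Laurent polynomials in `d` variables
over `K` to a field `L` (in the applications `E = ev (algebraMap K L) t` for units `t l` of `L` which are
algebraically independent over `K`).

* `dg ξ e` is the value of the linear form `ξ` at the exponent `e`.
* `Red E y m R A`: `y` is integral of degree `m` over the Laurent polynomials, the powers of `y` are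
  the combinations `∑ i < m, E (A n i) * y ^ i`, and the exponents of `A n i` are bounded by `n * R`.
* `Lvl A ξ μ`: for every `n` some `A n i` has an exponent `e` with `(n - i) * μ ≤ dg ξ e`.
* `Nm E s a x N`: `N` behaves on the subring generated by `s` like the absolute value of the value at
  a point, `a` is the absolute value of the constants and `x l` the logarithm of the absolute value of `t l`.
* `Gap E a ξ`: there are finitely many `y j` with level `μ j` such that for every `N` whose direction
  `x / h` is near to `ξ`, one of the `N (y j)` is at most `exp ((μ j - c) * h)`.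
-/

set_option autoImplicit false

noncomputable section

namespace Pool.Agent.Work.MP_e97a4d_nt.CT

open Pool.Agent.Work.UP

variable {K L : Type} [Field K] [Field L] {d : ℕ}

/-- The value of the linear form `ξ` at the exponent `e`. -/
def dg (ξ : Fin d → ℝ) (e : Fin d → ℤ) : ℝ := ∑ l, (e l : ℝ) * ξ l

/-- `a` is the largest exponent of `p` for the order given by `ξ` and (for equal values) the
lexicographic order. -/
def IsTop (ξ : Fin d → ℝ) (p : Lp K d) (a : Fin d → ℤ) : Prop :=
  a ∈ p.coeff.support ∧ ∀ b ∈ p.coeff.support, b ≠ a →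
    dg ξ b < dg ξ a ∨ (dg ξ b = dg ξ a ∧ toLex b < toLex a)

/-- `y` is integral of degree `m` over the Laurent polynomials, with the reductions `A n i` of the
powers of `y`. -/
structure Red (E : Lp K d →+* L) (y : L) (m R : ℕ) (A : ℕ → Fin m → Lp K d) : Prop where
  pos : 0 < m
  eq : ∀ n : ℕ, y ^ n = ∑ i : Fin m, E (A n i) * y ^ (i : ℕ)
  box : ∀ (n : ℕ) (i : Fin m), ∀ e ∈ (A n i).coeff.support, ∀ l, |e l| ≤ (n : ℤ) * (R : ℤ)
  ind : ∀ p : Fin m → Lp K d, ∑ i : Fin m, E (p i) * y ^ (i : ℕ) = 0 → p = 0

/-- The reductions have the level `μ` in the direction `ξ`. -/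
def Lvl {m : ℕ} (A : ℕ → Fin m → Lp K d) (ξ : Fin d → ℝ) (μ : ℝ) : Prop :=
  ∀ n : ℕ, ∃ i : Fin m, ∃ e ∈ (A n i).coeff.support, ((n : ℝ) - ((i : ℕ) : ℝ)) * μ ≤ dg ξ e

/-- `y` is integral and has the level `μ` in the direction `ξ`. -/
def Lev (E : Lp K d →+* L) (ξ : Fin d → ℝ) (y : L) (μ : ℝ) : Prop :=
  ∃ (m R : ℕ) (A : ℕ → Fin m → Lp K d), Red E y m R A ∧ Lvl A ξ μ

/-- `N` behaves on the subring generated by `s` like the absolute value of the value at a point. -/
structure Nm (E : Lp K d →+* L) (s : Set L) (a : K → ℝ) (x : Fin d → ℝ) (N : L → ℝ) : Prop where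
  nonneg : ∀ y ∈ Subring.closure s, 0 ≤ N y
  zero : N 0 = 0
  one : N 1 = 1
  mul : ∀ y ∈ Subring.closure s, ∀ y' ∈ Subring.closure s, N (y * y') = N y * N y'
  add : ∀ y ∈ Subring.closure s, ∀ y' ∈ Subring.closure s, N (y + y') ≤ N y + N y'
  mono : ∀ (c : K) (e : Fin d → ℤ), E (AddMonoidAlgebra.single e c) ∈ s →
    N (E (AddMonoidAlgebra.single e c)) = a c * Real.exp (dg x e)

/-- Finitely many integral elements with levels in the direction `ξ` one of which is, for every
`N` with direction near to `ξ`, smaller than its level. -/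
def Gap (E : Lp K d →+* L) (a : K → ℝ) (ξ : Fin d → ℝ) : Prop :=
  ∃ (k : ℕ) (y : Fin k → L) (μ : Fin k → ℝ) (c ρ : ℝ) (s : Finset L),
    0 < c ∧ 0 < ρ ∧ (∀ j, Lev E ξ (y j) (μ j)) ∧ (∀ f ∈ s, E.IsIntegralElem f) ∧
      ∀ (N : L → ℝ) (h : ℝ) (x : Fin d → ℝ), Nm E (s : Set L) a x N → 1 / ρ ≤ h →
        (∀ l, |x l - h * ξ l| ≤ ρ * h) → ∃ j, N (y j) ≤ Real.exp ((μ j - c) * h)

/-- The valuation `ν` is on the Laurent polynomials the maximum of `exp (dg ξ e)` over the
exponents `e`. -/
def DegVal (E : Lp K d →+* L) (ξ : Fin d → ℝ) (ν : Valuation L NNReal) : Prop :=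
  ∀ p : Lp K d, p ≠ 0 →
    IsGreatest ((fun e => Real.exp (dg ξ e)) '' (p.coeff.support : Set (Fin d → ℤ))) (ν (E p) : ℝ)

/-- Two valuations of `L` extend the degree in the direction `ξ`. -/
def Two (E : Lp K d →+* L) (ξ : Fin d → ℝ) : Prop :=
  ∃ ν ν' : Valuation L NNReal, ν ≠ ν' ∧ DegVal E ξ ν ∧ DegVal E ξ ν'

/-- The homomorphism of the rings of Laurent polynomials given by a homomorphism of the fields. -/
def lpm {C : Type} [Field C] (κ : K →+* C) : Lp K d →+* Lp C d :=
  AddMonoidAlgebra.mapRingHom (Fin d → ℤ) κ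

theorem lpm_single {C : Type} [Field C] (κ : K →+* C) (e : Fin d → ℤ) (c : K) :
    lpm κ (AddMonoidAlgebra.single e c) = AddMonoidAlgebra.single e (κ c) := by
  simp [lpm]

theorem lpm_coeff {C : Type} [Field C] (κ : K →+* C) (p : Lp K d) (e : Fin d → ℤ) :
    (lpm κ p).coeff e = κ (p.coeff e) := by
  simp [lpm]

theorem lpm_support {C : Type} [Field C] (κ : K →+* C) (p : Lp K d) :
    (lpm κ p).coeff.support = p.coeff.support := by
  ext e
  rw [Finsupp.mem_support_iff, Finsupp.mem_support_iff, lpm_coeff, Ne, map_eq_zero]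

/-- Evaluation is a sum over the exponents. -/
theorem ev_eq {F' : Type} [Field F'] (e : K →+* F') (u : Fin d → F'ˣ) (p : Lp K d) :
    ev e u p = ∑ s ∈ p.coeff.support, e (p.coeff s) * mon (cu u) s := by
  induction p using AddMonoidAlgebra.induction_linear with
  | zero => simp
  | add f g hf hg =>
    classical
    rw [map_add, hf, hg]
    have h1 : ∀ q : Lp K d, ∀ S : Finset (Fin d → ℤ), q.coeff.support ⊆ S →
        ∑ s ∈ q.coeff.support, e (q.coeff s) * mon (cu u) s = ∑ s ∈ S, e (q.coeff s) * mon (cu u) s := by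
      intro q S hS
      refine Finset.sum_subset hS fun s _ hs => ?_
      rw [Finsupp.notMem_support_iff.1 hs, map_zero, zero_mul]
    rw [h1 f (f.coeff.support ∪ g.coeff.support) Finset.subset_union_left,
      h1 g (f.coeff.support ∪ g.coeff.support) Finset.subset_union_right,
      h1 (f + g) (f.coeff.support ∪ g.coeff.support) (by
        intro s hs
        rw [Finset.mem_union, Finsupp.mem_support_iff, Finsupp.mem_support_iff]
        by_contra hcon
        push Not at hcon
        rw [Finsupp.mem_support_iff] at hs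
        apply hs
        show (f.coeff + g.coeff) s = 0
        rw [Finsupp.add_apply, hcon.1, hcon.2, add_zero]),
      ← Finset.sum_add_distrib]
    refine Finset.sum_congr rfl fun s _ => ?_
    rw [← add_mul, ← map_add]
    rfl
  | single a b =>
    classical
    rw [ev_single]
    by_cases hb : b = 0
    · subst hb
      simp
    · have h2 : (AddMonoidAlgebra.single a b : Lp K d).coeff.support = {a} := by
        show (Finsupp.single a b).support = {a}
        exact Finsupp.support_single a hb
      rw [h2, Finset.sum_singleton]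
      congr 2
      show b = (Finsupp.single a b) a
      rw [Finsupp.single_eq_same]

/-- The exponents with all entries between `-N` and `N`. -/
def bx (d N : ℕ) : Finset (Fin d → ℤ) := Fintype.piFinset fun _ => Finset.Icc (-(N : ℤ)) (N : ℤ)

theorem mem_bx {d N : ℕ} {e : Fin d → ℤ} : e ∈ bx d N ↔ ∀ l, |e l| ≤ (N : ℤ) := by
  unfold bx
  rw [Fintype.mem_piFinset]
  exact forall_congr' fun l => by rw [Finset.mem_Icc, abs_le]

theorem card_bx (d N : ℕ) : (bx d N).card = (2 * N + 1) ^ d := by
  unfold bx
  rw [Fintype.card_piFinset]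
  simp only [Int.card_Icc, Finset.prod_const, Finset.card_univ, Fintype.card_fin]
  congr 1
  omega

/-- The indices of the monomials `t ^ b * y ^ i`. -/
abbrev Jx (d m N : ℕ) : Type := bx d N × Fin m

/-- The values of the monomials `t ^ b * y ^ i`. -/
def Xv {F : Type} [Field F] {d m N : ℕ} (u : Fin d → Fˣ) (Y : F) (j : Jx d m N) : F :=
  mon (cu u) (j.1 : Fin d → ℤ) * Y ^ (j.2 : ℕ)

/-- Newton data in one variable: `y` has degree `m` over the Laurent polynomials, the coefficients
`φ i` of its equation have degree at most `lam * (m - i)`, and the leading form of the equation is the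
product of the `Y - c l * T ^ lam` with at least two different `c l`. -/
structure Newt (E : Lp K 1 →+* L) (y : L) (m : ℕ) (φ : Fin m → Lp K 1) (lam : ℤ) (c : Fin m → K) :
    Prop where
  eq : y ^ m = ∑ i : Fin m, E (φ i) * y ^ (i : ℕ)
  ind : ∀ p : Fin m → Lp K 1, ∑ i : Fin m, E (p i) * y ^ (i : ℕ) = 0 → p = 0
  bd : ∀ i : Fin m, ∀ e ∈ (φ i).coeff.support, e 0 ≤ lam * ((m : ℤ) - ((i : ℕ) : ℤ))
  fac : Polynomial.X ^ m - ∑ i : Fin m,
      Polynomial.C ((φ i).coeff (fun _ => lam * ((m : ℤ) - ((i : ℕ) : ℤ)))) * Polynomial.X ^ (i : ℕ) =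
    ∏ l : Fin m, (Polynomial.X - Polynomial.C (c l))
  ne : ∃ l l', c l ≠ c l'

end Pool.Agent.Work.MP_e97a4d_nt.CT
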