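import Pool.Agent.Work.MP_e97a4d_nt.CT.Defs
import Pool.Agent.Work.UP.LUfd

/-!
# CT/EAlg (size M): leading forms which are powers over the complex numbers are powers over a number field

PROOF of `root_alg`. `exists_toL` (UP/LUfd): `g` times a monomial is `toL P` for a polynomial `P`; so `toL (P ^ p)` is
`g ^ p` times a monomial, the coefficients of `P ^ p` are coefficients of `g ^ p` (or zero), algebraic over `ℚ`. Let
`A := algebraicClosure ℚ ℂ`. `P ^ p` is the image of a polynomial `G` over `A` (`MvPolynomial.mem_range_map_iff..` /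
coefficients in the range), so `P` is integral over `MvPolynomial (Fin k) A` (root of the monic `X ^ p - C G`;
algebra structure `MvPolynomial.algebraMvPolynomial`), and `MvPolynomial.isIntegral_iff_isIntegral_coeff`
(Mathlib/RingTheory/Polynomial/IsIntegral and its MvPolynomial version, used in
Mathlib/RingTheory/Smooth/IntegralClosure) says that the coefficients of `P` are integral over `A`, so algebraic over
`ℚ` (transitivity). The coefficients of `g` are coefficients of `P`.

PROOF of `near_fin`. For a subset `S` of the support of `F` let `F_S := ∑ e ∈ S, single e (F.coeff e)`. If `F_S` is the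
`p`-th power of some `g` choose one, `g_S` (`Classical.choice`; otherwise `g_S := 0`). `T := {0} ∪` all
coefficients of all `g_S` (`S ∈ F.coeff.support.powerset`, a finite set). They are algebraic by `root_alg`. Let
`ξ, h` be as in the hypothesis, `M` the maximum of `dg ξ` on the support of `h`, `h₀` the sum of the terms of `h` of
degree `dg ξ e = M`, `S := {e ∈ F.coeff.support | dg ξ e = p * M}`. Every exponent of `h ^ p` has degree
`≤ p * M` (sum of `p` exponents of `h`); `h ^ p - h₀ ^ p` has only exponents of degree `< p * M` (it is divisible by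
`h - h₀`: `sub_dvd_pow_sub_pow`, or expand), and `h₀ ^ p` only exponents of degree `= p * M`. By hypothesis every exponent of
`F - h ^ p` has degree `< p * M`. So `F - h₀ ^ p` has only exponents of degree `< p * M`; comparing the coefficients
of the exponents of degree `p * M` gives `F_S = h₀ ^ p`, and `F_S ≠ 0` (domain: `h₀ ≠ 0`; `Lp` is a domain,
`lp_ufd`/existing instances). `g := g_S`, so `g ^ p = F_S`, `g ≠ 0`, the coefficients of `g` are in `T`. The
exponents of `F - g ^ p = F - F_S` are exponents `e` of `F` not in `S`; they have degree `≤ p * M` (`F` is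
`h₀ ^ p` plus lower terms), not `= p * M`, so `< p * M`. `F_S` has an exponent, of degree `p * M`; it is a sum of `p`
exponents of `g` (`g ^ p = F_S`), so some exponent `e'` of `g` has `M ≤ dg ξ e'`. Done: `dg ξ e < p * M ≤ p * dg ξ e'`.
-/

set_option autoImplicit false

noncomputable section

namespace Pool.Agent.Work.MP_e97a4d_nt.CT

open Pool.Agent.Work.UP

/-- The sum of the terms of `F` with exponents in `S`. -/
private def part {k : ℕ} (F : Lp ℂ k) (S : Finset (Fin k → ℤ)) : Lp ℂ k :=
  ∑ e ∈ S, AddMonoidAlgebra.single e (F.coeff e)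

private theorem part_coeff_mem {k : ℕ} (F : Lp ℂ k) (S : Finset (Fin k → ℤ)) {e : Fin k → ℤ}
    (he : e ∈ S) : (part F S).coeff e = F.coeff e := by
  classical
  unfold part
  rw [AddMonoidAlgebra.coeff_sum, Finsupp.finsetSum_apply, Finset.sum_eq_single e]
  · rw [AddMonoidAlgebra.coeff_single, Finsupp.single_eq_same]
  · intro b _ hb
    rw [AddMonoidAlgebra.coeff_single, Finsupp.single_apply, if_neg hb]
  · intro h
    exact absurd he h

private theorem part_coeff_notMem {k : ℕ} (F : Lp ℂ k) (S : Finset (Fin k → ℤ)) {e : Fin k → ℤ}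
    (he : e ∉ S) : (part F S).coeff e = 0 := by
  classical
  unfold part
  rw [AddMonoidAlgebra.coeff_sum, Finsupp.finsetSum_apply]
  refine Finset.sum_eq_zero fun b hb => ?_
  rw [AddMonoidAlgebra.coeff_single, Finsupp.single_apply, if_neg]
  rintro rfl
  exact he hb

private theorem dg_add {k : ℕ} (ξ : Fin k → ℝ) (a b : Fin k → ℤ) :
    dg ξ (a + b) = dg ξ a + dg ξ b := by
  unfold dg
  rw [← Finset.sum_add_distrib]
  refine Finset.sum_congr rfl fun l _ => ?_
  rw [Pi.add_apply]
  push_cast
  ring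

private theorem supp_mul {k : ℕ} {f g : Lp ℂ k} {e : Fin k → ℤ} (he : e ∈ (f * g).coeff.support) :
    ∃ a ∈ f.coeff.support, ∃ b ∈ g.coeff.support, e = a + b := by
  classical
  have h := AddMonoidAlgebra.support_coeff_mul_subset f g he
  obtain ⟨a, ha, b, hb, hab⟩ := Finset.mem_add.1 h
  exact ⟨a, ha, b, hb, hab.symm⟩

private theorem supp_add {k : ℕ} {f g : Lp ℂ k} {e : Fin k → ℤ} (he : e ∈ (f + g).coeff.support) :
    e ∈ f.coeff.support ∨ e ∈ g.coeff.support := by
  by_contra hcon
  push Not at hcon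
  obtain ⟨h1, h2⟩ := hcon
  rw [Finsupp.notMem_support_iff] at h1 h2
  rw [Finsupp.mem_support_iff] at he
  apply he
  rw [AddMonoidAlgebra.coeff_add, Finsupp.add_apply, h1, h2, add_zero]

private theorem ne_supp {k : ℕ} {f : Lp ℂ k} (hf : f ≠ 0) : f.coeff.support.Nonempty := by
  rw [Finsupp.support_nonempty_iff]
  intro h
  apply hf
  ext e
  rw [h]
  rfl

private theorem pow_le {k : ℕ} {ξ : Fin k → ℝ} {f : Lp ℂ k} {M : ℝ}
    (hf : ∀ e ∈ f.coeff.support, dg ξ e ≤ M) (n : ℕ) :
    ∀ e ∈ (f ^ n).coeff.support, dg ξ e ≤ n * M := by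
  induction n with
  | zero =>
    intro e he
    rw [pow_zero] at he
    have h1 : e = 0 := by
      by_contra h
      rw [Finsupp.mem_support_iff] at he
      apply he
      show (Finsupp.single (0 : Fin k → ℤ) (1 : ℂ)) e = 0
      rw [Finsupp.single_apply, if_neg fun h' => h h'.symm]
    rw [h1]
    unfold dg
    simp
  | succ n ih =>
    intro e he
    rw [pow_succ] at he
    obtain ⟨a, ha, b, hb, rfl⟩ := supp_mul he
    rw [dg_add]
    have h1 := ih a ha
    have h2 := hf b hb
    push_cast
    linarith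

private theorem pow_eq {k : ℕ} {ξ : Fin k → ℝ} {f : Lp ℂ k} {M : ℝ}
    (hf : ∀ e ∈ f.coeff.support, dg ξ e = M) (n : ℕ) :
    ∀ e ∈ (f ^ n).coeff.support, dg ξ e = n * M := by
  induction n with
  | zero =>
    intro e he
    rw [pow_zero] at he
    have h1 : e = 0 := by
      by_contra h
      rw [Finsupp.mem_support_iff] at he
      apply he
      show (Finsupp.single (0 : Fin k → ℤ) (1 : ℂ)) e = 0
      rw [Finsupp.single_apply, if_neg fun h' => h h'.symm]
    rw [h1]
    unfold dg
    simp
  | succ n ih =>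
    intro e he
    rw [pow_succ] at he
    obtain ⟨a, ha, b, hb, rfl⟩ := supp_mul he
    rw [dg_add]
    have h1 := ih a ha
    have h2 := hf b hb
    push_cast
    linarith

private theorem diff_lt {k : ℕ} {ξ : Fin k → ℝ} {f f₀ : Lp ℂ k} {M : ℝ}
    (hf : ∀ e ∈ f.coeff.support, dg ξ e ≤ M) (hf₀ : ∀ e ∈ f₀.coeff.support, dg ξ e = M)
    (hd : ∀ e ∈ (f - f₀).coeff.support, dg ξ e < M) (n : ℕ) :
    ∀ e ∈ (f ^ n - f₀ ^ n).coeff.support, dg ξ e < n * M := by
  induction n with
  | zero =>
    intro e he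
    rw [pow_zero, pow_zero, sub_self] at he
    simp at he
  | succ n ih =>
    intro e he
    have h0 : f ^ (n + 1) - f₀ ^ (n + 1) = (f ^ n - f₀ ^ n) * f + f₀ ^ n * (f - f₀) := by ring
    rw [h0] at he
    rcases supp_add he with h1 | h1
    · obtain ⟨a, ha, b, hb, rfl⟩ := supp_mul h1
      rw [dg_add]
      have h2 := ih a ha
      have h3 := hf b hb
      push_cast
      linarith
    · obtain ⟨a, ha, b, hb, rfl⟩ := supp_mul h1
      rw [dg_add]
      have h2 := pow_eq hf₀ n a ha
      have h3 := hd b hb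
      push_cast
      linarith

theorem root_alg {k p : ℕ} (hp : 0 < p) (g : Lp ℂ k)
    (hG : ∀ e, IsAlgebraic ℚ ((g ^ p).coeff e)) (e : Fin k → ℤ) : IsAlgebraic ℚ (g.coeff e) := by
  classical
  obtain ⟨P, s, hPs⟩ := exists_toL g
  have h1 : ∀ t, IsIntegral ℚ ((P ^ p).coeff t) := by
    intro t
    have h2 := hG (p • s + nz t)
    have h3 : (g ^ p) = AddMonoidAlgebra.single (p • s) 1 * toL (P ^ p) := by
      rw [hPs, mul_pow, AddMonoidAlgebra.single_pow, one_pow, map_pow]
    rw [h3, AddMonoidAlgebra.coeff_single_mul_add, one_mul, coeff_toL] at h2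
    exact h2.isIntegral
  let _ : Algebra (MvPolynomial (Fin k) ℚ) (MvPolynomial (Fin k) ℂ) :=
    MvPolynomial.algebraMvPolynomial
  have h2 : IsIntegral (MvPolynomial (Fin k) ℚ) (P ^ p) :=
    MvPolynomial.isIntegral_iff_isIntegral_coeff.2 h1
  have h3 : IsIntegral (MvPolynomial (Fin k) ℚ) P := IsIntegral.of_pow hp h2
  have h4 := MvPolynomial.isIntegral_iff_isIntegral_coeff.1 h3
  have h5 : g.coeff e = (toL P : Lp ℂ k).coeff (e - s) := by
    have h6 : e = s + (e - s) := by abel
    conv_lhs => rw [h6, hPs]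
    rw [AddMonoidAlgebra.coeff_single_mul_add, one_mul]
  rw [h5]
  by_cases h6 : e - s ∈ (toL P : Lp ℂ k).coeff.support
  · obtain ⟨t, -, ht⟩ := (support_toL P (e - s)).1 h6
    rw [ht, coeff_toL]
    exact (h4 t).isAlgebraic
  · rw [Finsupp.notMem_support_iff.1 h6]
    exact isAlgebraic_zero

theorem near_fin {k p : ℕ} (hp : 0 < p) (F : Lp ℂ k) (hF : ∀ e, IsAlgebraic ℚ (F.coeff e)) :
    ∃ T : Finset ℂ, (∀ c ∈ T, IsAlgebraic ℚ c) ∧ ∀ (ξ : Fin k → ℝ) (h : Lp ℂ k), h ≠ 0 →
      (∀ e ∈ (F - h ^ p).coeff.support, ∃ e' ∈ h.coeff.support, dg ξ e < p * dg ξ e') →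
        ∃ g : Lp ℂ k, g ≠ 0 ∧ (∀ e, g.coeff e ∈ T) ∧
          ∀ e ∈ (F - g ^ p).coeff.support, ∃ e' ∈ g.coeff.support, dg ξ e < p * dg ξ e' := by
  classical
  have hch : ∀ S : Finset (Fin k → ℤ), ∃ g : Lp ℂ k, (∀ e, IsAlgebraic ℚ (g.coeff e)) ∧
      ((∃ g' : Lp ℂ k, g' ^ p = part F S) → g ^ p = part F S) := by
    intro S
    by_cases hS : ∃ g' : Lp ℂ k, g' ^ p = part F S
    · obtain ⟨g', hg'⟩ := hS
      refine ⟨g', ?_, fun _ => hg'⟩
      refine root_alg hp g' fun e => ?_
      rw [hg']
      by_cases he : e ∈ S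
      · rw [part_coeff_mem F S he]
        exact hF e
      · rw [part_coeff_notMem F S he]
        exact isAlgebraic_zero
    · refine ⟨0, fun e => ?_, fun h => absurd h hS⟩
      show IsAlgebraic ℚ ((0 : (Fin k → ℤ) →₀ ℂ) e)
      exact isAlgebraic_zero
  choose gS hgA hgP using hch
  refine ⟨insert 0 (F.coeff.support.powerset.biUnion
    fun S => (gS S).coeff.support.image (gS S).coeff), ?_, ?_⟩
  · intro c hc
    rcases Finset.mem_insert.1 hc with rfl | hc
    · exact isAlgebraic_zero
    · obtain ⟨S, _, hS⟩ := Finset.mem_biUnion.1 hc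
      obtain ⟨e, _, rfl⟩ := Finset.mem_image.1 hS
      exact hgA S e
  · intro ξ h hh hyp
    obtain ⟨e₀, he₀, hmax⟩ := Finset.exists_max_image h.coeff.support (dg ξ) (ne_supp hh)
    obtain ⟨M, hM⟩ : ∃ M, M = dg ξ e₀ := ⟨_, rfl⟩
    rw [← hM] at hmax
    obtain ⟨h₀, hh₀⟩ : ∃ h₀, h₀ = part h (h.coeff.support.filter fun e => dg ξ e = M) := ⟨_, rfl⟩
    have hEq : ∀ e ∈ h₀.coeff.support, dg ξ e = M := by
      intro e he
      by_contra hne
      rw [Finsupp.mem_support_iff] at he
      apply he
      rw [hh₀]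
      exact part_coeff_notMem _ _ fun h' => hne (Finset.mem_filter.1 h').2
    have hDf : ∀ e ∈ (h - h₀).coeff.support, dg ξ e < M := by
      intro e he
      rw [Finsupp.mem_support_iff, AddMonoidAlgebra.coeff_sub, Finsupp.sub_apply] at he
      by_cases h1 : e ∈ h.coeff.support
      · refine lt_of_le_of_ne (hmax e h1) fun h2 => he ?_
        rw [hh₀, part_coeff_mem _ _ (Finset.mem_filter.2 ⟨h1, h2⟩), sub_self]
      · exfalso
        apply he
        rw [hh₀, part_coeff_notMem _ _ fun h' => h1 (Finset.mem_filter.1 h').1,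
          Finsupp.notMem_support_iff.1 h1, sub_zero]
    have hh₀ne : h₀ ≠ 0 := by
      intro h0
      have h1 : h₀.coeff e₀ = h.coeff e₀ := by
        rw [hh₀]
        exact part_coeff_mem _ _ (Finset.mem_filter.2 ⟨he₀, hM.symm⟩)
      rw [h0] at h1
      exact (Finsupp.mem_support_iff.1 he₀) h1.symm
    have hLT : ∀ e ∈ (F - h₀ ^ p).coeff.support, dg ξ e < p * M := by
      intro e he
      have h1 : F - h₀ ^ p = (F - h ^ p) + (h ^ p - h₀ ^ p) := by ring
      rw [h1] at he
      rcases supp_add he with h2 | h2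
      · obtain ⟨e', he', hlt⟩ := hyp e h2
        have h3 := hmax e' he'
        have h4 : (p : ℝ) * dg ξ e' ≤ p * M := mul_le_mul_of_nonneg_left h3 (Nat.cast_nonneg p)
        linarith
      · exact diff_lt hmax hEq hDf p e h2
    obtain ⟨S, hS⟩ : ∃ S, S = F.coeff.support.filter fun e => dg ξ e = p * M := ⟨_, rfl⟩
    have hFS : h₀ ^ p = part F S := by
      ext e
      by_cases h1 : dg ξ e = p * M
      · have h2 : e ∉ (F - h₀ ^ p).coeff.support := fun h3 => absurd h1 (hLT e h3).ne
        rw [Finsupp.notMem_support_iff, AddMonoidAlgebra.coeff_sub, Finsupp.sub_apply,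
          sub_eq_zero] at h2
        rw [← h2]
        by_cases h3 : e ∈ F.coeff.support
        · rw [part_coeff_mem F S (by rw [hS]; exact Finset.mem_filter.2 ⟨h3, h1⟩)]
        · rw [part_coeff_notMem F S (by rw [hS]; exact fun h' => h3 (Finset.mem_filter.1 h').1),
            Finsupp.notMem_support_iff.1 h3]
      · rw [part_coeff_notMem F S (by rw [hS]; exact fun h' => h1 (Finset.mem_filter.1 h').2)]
        by_contra h2
        exact h1 (pow_eq hEq p e (Finsupp.mem_support_iff.2 h2))
    have hg : gS S ^ p = h₀ ^ p := by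
      rw [hFS]
      exact hgP S ⟨h₀, hFS⟩
    have hpn : h₀ ^ p ≠ 0 := pow_ne_zero p hh₀ne
    have hgne : gS S ≠ 0 := by
      intro h0
      rw [h0, zero_pow hp.ne'] at hg
      exact hpn hg.symm
    refine ⟨gS S, hgne, ?_, ?_⟩
    · intro e
      by_cases he : e ∈ (gS S).coeff.support
      · refine Finset.mem_insert_of_mem (Finset.mem_biUnion.2 ⟨S, ?_, Finset.mem_image_of_mem _ he⟩)
        rw [Finset.mem_powerset, hS]
        exact Finset.filter_subset _ _
      · rw [Finsupp.notMem_support_iff.1 he]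
        exact Finset.mem_insert_self _ _
    · intro e he
      rw [hg] at he
      have h1 := hLT e he
      obtain ⟨e', he', hmax'⟩ := Finset.exists_max_image (gS S).coeff.support (dg ξ) (ne_supp hgne)
      refine ⟨e', he', ?_⟩
      obtain ⟨a, ha⟩ := ne_supp hpn
      have h2 := pow_eq hEq p a ha
      rw [← hg] at ha
      have h3 := pow_le hmax' p a ha
      linarith

end Pool.Agent.Work.MP_e97a4d_nt.CT
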