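import Mathlib

/-!
# CT/EBezA (size M, pure Mathlib): coprime monic polynomials over an integrally closed domain

PROOF of `bez_a`. `F := FractionRing R`, `ι := algebraMap R F`. Claim: `P.map ι`, `Q.map ι` are relatively prime. Let
`D` divide both; `D ≠ 0`. By `IsIntegrallyClosed.eq_map_mul_C_of_dvd` (Mathlib/RingTheory/Polynomial/GaussLemma) there
is `D'` in `R[X]` with `D'.map ι * C D.leadingCoeff = D`, so `D'` is monic (its image is: leading coefficient of the
product; `Polynomial.monic_of_injective`) and divides `P` and `Q` (`Polynomial.map_dvd_map` for the monic `D'`), so it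
is a unit by `h`, and `D` is a unit. In `F[X]` (principal ideal ring) `IsRelPrime.isCoprime` gives `a, b` with
`a * P.map ι + b * Q.map ι = 1`. Common denominator `r ≠ 0` of the coefficients of `a` and `b`
(`IsLocalization.integerNormalization_map_to_map` / `IsLocalization.exist_integer_multiples_of_finset`):
`A.map ι = C (ι r) * a`, `B.map ι = C (ι r) * b`; `Polynomial.map_injective`.

PROOF of `fin_monic_dvd`. `Ω := AlgebraicClosure (FractionRing R)`, `ι : R →+* Ω` injective. A monic divisor `P` of `H` has
`(P.map ι).roots ≤ (H.map ι).roots` (`Polynomial.roots.le_of_dvd`), and `P.map ι` is the product of the `X - z` over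
its roots (`IsAlgClosed.splits`, monic), so `P ↦ (P.map ι).roots` is injective on this set, with values in the
finite set of the multisets `≤ (H.map ι).roots` (`Set.finite_Iic`, or `Multiset.powerset`).
-/

set_option autoImplicit false

noncomputable section

namespace Pool.Agent.Work.MP_e97a4d_nt.CT

theorem bez_a {R : Type} [CommRing R] [IsDomain R] [IsIntegrallyClosed R] (P Q : Polynomial R)
    (hP : P.Monic) (hQ : Q.Monic) (h : IsRelPrime P Q) :
    ∃ (A B : Polynomial R) (r : R), r ≠ 0 ∧ A * P + B * Q = Polynomial.C r := by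
  classical
  have hι : Function.Injective (algebraMap R (FractionRing R)) := IsFractionRing.injective _ _
  have hrel : IsRelPrime (P.map (algebraMap R (FractionRing R)))
      (Q.map (algebraMap R (FractionRing R))) := by
    intro D hDP hDQ
    have hD0 : D ≠ 0 := ne_zero_of_dvd_ne_zero (hP.map (algebraMap R (FractionRing R))).ne_zero hDP
    obtain ⟨D', hD'⟩ := IsIntegrallyClosed.eq_map_mul_C_of_dvd (FractionRing R) hP hDP
    have hlc : D.leadingCoeff ≠ 0 := Polynomial.leadingCoeff_ne_zero.2 hD0
    have hmon : D'.Monic := by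
      apply Polynomial.monic_of_injective hι
      have h1 := congrArg Polynomial.leadingCoeff hD'
      rw [Polynomial.leadingCoeff_mul, Polynomial.leadingCoeff_C] at h1
      exact mul_right_cancel₀ hlc (by rw [h1, one_mul])
    have hdvd : ∀ {T : Polynomial R}, D ∣ T.map (algebraMap R (FractionRing R)) → D' ∣ T := by
      intro T hT
      rw [← Polynomial.map_dvd_map _ hι hmon]
      exact dvd_trans ⟨_, hD'.symm⟩ hT
    have hu : IsUnit D' := h (hdvd hDP) (hdvd hDQ)
    have h1 : D' = 1 := hmon.eq_one_of_isUnit hu
    rw [← hD', h1, Polynomial.map_one, one_mul]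
    exact Polynomial.isUnit_C.2 (isUnit_iff_ne_zero.2 hlc)
  obtain ⟨a, b, hab⟩ := hrel.isCoprime
  obtain ⟨r1, hr1, h1⟩ := IsLocalization.integerNormalization_spec (nonZeroDivisors R) a
  obtain ⟨r2, hr2, h2⟩ := IsLocalization.integerNormalization_spec (nonZeroDivisors R) b
  have hr10 : r1 ≠ 0 := nonZeroDivisors.ne_zero hr1
  have hr20 : r2 ≠ 0 := nonZeroDivisors.ne_zero hr2
  refine ⟨Polynomial.C r2 * IsLocalization.integerNormalization (nonZeroDivisors R) a,
    Polynomial.C r1 * IsLocalization.integerNormalization (nonZeroDivisors R) b, r1 * r2,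
    mul_ne_zero hr10 hr20, ?_⟩
  apply Polynomial.map_injective _ hι
  rw [Polynomial.map_add, Polynomial.map_mul, Polynomial.map_mul, Polynomial.map_mul,
    Polynomial.map_mul, h1, h2, Polynomial.map_C, Polynomial.map_C, Polynomial.map_C,
    Algebra.smul_def, Algebra.smul_def, map_mul, map_mul]
  have h3 : ∀ r : R, algebraMap R (Polynomial (FractionRing R)) r =
      Polynomial.C (algebraMap R (FractionRing R) r) := fun r => rfl
  rw [h3, h3]
  linear_combination Polynomial.C (algebraMap R (FractionRing R) r1) *
    Polynomial.C (algebraMap R (FractionRing R) r2) * hab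

theorem fin_monic_dvd {R : Type} [CommRing R] [IsDomain R] (H : Polynomial R) (hH : H ≠ 0) :
    {P : Polynomial R | P.Monic ∧ P ∣ H}.Finite := by
  classical
  let ι : R →+* AlgebraicClosure (FractionRing R) :=
    (algebraMap (FractionRing R) (AlgebraicClosure (FractionRing R))).comp
      (algebraMap R (FractionRing R))
  have hι : Function.Injective ι :=
    (algebraMap (FractionRing R) (AlgebraicClosure (FractionRing R))).injective.comp
      (IsFractionRing.injective R (FractionRing R))
  have hH0 : H.map ι ≠ 0 := (Polynomial.map_ne_zero_iff hι).2 hH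
  refine Set.Finite.of_finite_image (f := fun P : Polynomial R => (P.map ι).roots) ?_ ?_
  · refine Set.Finite.subset (Multiset.finite_toSet (H.map ι).roots.powerset) ?_
    rintro _ ⟨P, ⟨hP, hPH⟩, rfl⟩
    show (P.map ι).roots ∈ (H.map ι).roots.powerset
    rw [Multiset.mem_powerset]
    exact Polynomial.roots.le_of_dvd hH0 (Polynomial.map_dvd ι hPH)
  · rintro P ⟨hP, -⟩ Q ⟨hQ, -⟩ hPQ
    have hPQ' : (P.map ι).roots = (Q.map ι).roots := hPQ
    apply Polynomial.map_injective _ hι
    have key : ∀ {T : Polynomial R}, T.Monic →
        T.map ι = ((T.map ι).roots.map fun z => Polynomial.X - Polynomial.C z).prod := by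
      intro T hT
      exact (IsAlgClosed.splits (T.map ι)).eq_prod_roots_of_monic (hT.map ι)
    rw [key hP, key hQ, hPQ']

end Pool.Agent.Work.MP_e97a4d_nt.CT
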