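import Pool.Agent.Work.MP_e97a4d_nt.CT.EDefs
import Pool.Agent.Work.MP_e97a4d_nt.CT.Defs

/-!
# CT/EBezB (size M): a homogeneous Bezout relation

`wt ξ μ e i = dg ξ e + i * μ` (definitions). For a real number `t` and `p : Lp K k` let `hc t p` be the sum of the terms of `p`
whose exponent `e` has `dg ξ e = t` (`⟨p.coeff.filter (fun e => dg ξ e = t)⟩`); additive.
(M) If all exponents `e` of `b` have `dg ξ e = t'`, then `hc (t + t') (a * b) = hc t a * b` (by linearity in `a` and `b` it
is enough to look at `a = single x c`, `b = single y c'` with `dg ξ y = t'`; `dg ξ (x + y) = dg ξ x + dg ξ y`).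

PROOF. Let `e₀` be an exponent of `r₁`, `s := dg ξ e₀`, `r := hc s r₁` (not zero: its coefficient at `e₀`). Let `A` be the
polynomial with coefficients `A i := hc (s - i * μ - deg P * μ) (A₁.coeff i)` (`∑ i ∈ range (deg A₁ + 1), monomial i _`),
`B i := hc (s - i * μ - deg Q * μ) (B₁.coeff i)`. The three statements on exponents are clear. Coefficient of degree
`n` of `A * P`: `∑ i + j = n, A i * P.coeff j` (`Polynomial.coeff_mul`), all exponents of `P.coeff j` have
`dg ξ e = (deg P - j) μ` by `Isob`, so by (M) the summand is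
`hc (s - i μ - deg P μ + (deg P - j) μ) (A₁.coeff i * P.coeff j) = hc (s - n μ) (A₁.coeff i * P.coeff j)`. So the
coefficient of `A * P` is `hc (s - n μ) ((A₁ * P).coeff n)`, the same for `B * Q`, and the sum is
`hc (s - n μ) ((C r₁).coeff n)`: `r` for `n = 0` and `0` for `n > 0`.
-/

set_option autoImplicit false

noncomputable section

namespace Pool.Agent.Work.MP_e97a4d_nt.CT

open Pool.Agent.Work.UP

private theorem eb_dg_add {k : ℕ} (ξ : Fin k → ℝ) (e e' : Fin k → ℤ) :
    dg ξ (e + e') = dg ξ e + dg ξ e' := by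
  unfold dg
  rw [← Finset.sum_add_distrib]
  refine Finset.sum_congr rfl fun l _ => ?_
  rw [Pi.add_apply]
  push_cast
  ring

/-- The homogeneous component of degree `t`. -/
private def eb_hc {K : Type} [Field K] {k : ℕ} (ξ : Fin k → ℝ) (t : ℝ) : Lp K k →+ Lp K k where
  toFun p := ⟨by classical exact p.coeff.filter (fun e => dg ξ e = t)⟩
  map_zero' := by
    classical
    ext e
    show (Finsupp.filter (fun e => dg ξ e = t) (0 : (Fin k → ℤ) →₀ K)) e = 0
    rw [Finsupp.filter_zero, Finsupp.zero_apply]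
  map_add' p q := by
    classical
    ext e
    show (Finsupp.filter (fun e => dg ξ e = t) (p.coeff + q.coeff)) e =
      (Finsupp.filter (fun e => dg ξ e = t) p.coeff + Finsupp.filter (fun e => dg ξ e = t) q.coeff) e
    rw [Finsupp.filter_add]

private theorem eb_hc_coeff {K : Type} [Field K] {k : ℕ} (ξ : Fin k → ℝ) (t : ℝ) (p : Lp K k)
    (e : Fin k → ℤ) [Decidable (dg ξ e = t)] :
    (eb_hc ξ t p).coeff e = if dg ξ e = t then p.coeff e else 0 := by
  classical
  show (Finsupp.filter (fun e => dg ξ e = t) p.coeff) e = _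
  rw [Finsupp.filter_apply]
  split_ifs <;> rfl

private theorem eb_hc_supp {K : Type} [Field K] {k : ℕ} (ξ : Fin k → ℝ) (t : ℝ) (p : Lp K k)
    (e : Fin k → ℤ) (he : e ∈ (eb_hc ξ t p).coeff.support) : dg ξ e = t := by
  classical
  rw [Finsupp.mem_support_iff, eb_hc_coeff] at he
  by_contra hne
  exact he (if_neg hne)

private theorem eb_hc_self {K : Type} [Field K] {k : ℕ} (ξ : Fin k → ℝ) (t : ℝ) (p : Lp K k)
    (hp : ∀ e ∈ p.coeff.support, dg ξ e = t) : eb_hc ξ t p = p := by
  classical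
  ext e
  rw [eb_hc_coeff]
  split_ifs with h
  · rfl
  · by_contra hne
    exact h (hp e (Finsupp.mem_support_iff.2 fun h0 => hne h0.symm))

private theorem eb_hc_single {K : Type} [Field K] {k : ℕ} (ξ : Fin k → ℝ) (t : ℝ) (x : Fin k → ℤ)
    (c : K) [Decidable (dg ξ x = t)] :
    eb_hc ξ t (AddMonoidAlgebra.single x c : Lp K k) =
      if dg ξ x = t then AddMonoidAlgebra.single x c else 0 := by
  classical
  ext e
  rw [eb_hc_coeff]
  by_cases hex : x = e
  · subst hex
    split_ifs <;> rfl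
  · have h0 : (AddMonoidAlgebra.single x c : Lp K k).coeff e = 0 := by
      show (Finsupp.single x c) e = 0
      exact Finsupp.single_eq_of_ne (fun h => hex h.symm)
    rw [h0, ite_self]
    split_ifs
    · exact h0.symm
    · rfl

private theorem eb_hc_mul {K : Type} [Field K] {k : ℕ} (ξ : Fin k → ℝ) (t t' : ℝ) (a b : Lp K k) :
    eb_hc ξ (t + t') (a * eb_hc ξ t' b) = eb_hc ξ t a * eb_hc ξ t' b := by
  classical
  induction b using AddMonoidAlgebra.induction_linear with
  | zero => simp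
  | add f g hf hg => rw [map_add, mul_add, map_add, hf, hg, mul_add]
  | single y c' =>
    rw [eb_hc_single]
    split_ifs with hy
    · induction a using AddMonoidAlgebra.induction_linear with
      | zero => simp
      | add f g hf hg => rw [add_mul, map_add, hf, hg, map_add, add_mul]
      | single x c =>
        rw [AddMonoidAlgebra.single_mul_single, eb_hc_single, eb_hc_single, eb_dg_add, hy]
        by_cases hx : dg ξ x = t
        · rw [if_pos (by rw [hx]), if_pos hx, AddMonoidAlgebra.single_mul_single]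
        · rw [if_neg (fun h => hx (add_right_cancel h)), if_neg hx, zero_mul]
    · rw [mul_zero, mul_zero, map_zero]

private theorem eb_hc_mul' {K : Type} [Field K] {k : ℕ} (ξ : Fin k → ℝ) (t t' : ℝ) (a b : Lp K k)
    (hb : ∀ e ∈ b.coeff.support, dg ξ e = t') :
    eb_hc ξ t a * b = eb_hc ξ (t + t') (a * b) := by
  have h := eb_hc_mul ξ t t' a b
  rw [eb_hc_self ξ t' b hb] at h
  exact h.symm

/-- The polynomial with the homogeneous components of the coefficients. -/
private def eb_pol {K : Type} [Field K] {k : ℕ} (ξ : Fin k → ℝ) (μ s : ℝ) (A : Polynomial (Lp K k)) :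
    Polynomial (Lp K k) :=
  ∑ i ∈ Finset.range (A.natDegree + 1),
    Polynomial.monomial i (eb_hc ξ (s - (i : ℝ) * μ) (A.coeff i))

private theorem eb_pol_coeff {K : Type} [Field K] {k : ℕ} (ξ : Fin k → ℝ) (μ s : ℝ)
    (A : Polynomial (Lp K k)) (i : ℕ) :
    (eb_pol ξ μ s A).coeff i = eb_hc ξ (s - (i : ℝ) * μ) (A.coeff i) := by
  classical
  unfold eb_pol
  rw [Polynomial.finsetSum_coeff]
  simp only [Polynomial.coeff_monomial]
  rw [Finset.sum_ite_eq']
  split_ifs with h
  · rfl
  · rw [Finset.mem_range, not_lt] at h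
    rw [Polynomial.coeff_eq_zero_of_natDegree_lt (by omega), map_zero]

private theorem eb_pol_mul {K : Type} [Field K] {k : ℕ} (ξ : Fin k → ℝ) (μ s : ℝ)
    (A P : Polynomial (Lp K k)) (hP : Isob ξ μ P) (n : ℕ) :
    (eb_pol ξ μ (s - (P.natDegree : ℝ) * μ) A * P).coeff n =
      eb_hc ξ (s - (n : ℝ) * μ) ((A * P).coeff n) := by
  rw [Polynomial.coeff_mul, Polynomial.coeff_mul, map_sum]
  refine Finset.sum_congr rfl fun x hx => ?_
  rw [Finset.HasAntidiagonal.mem_antidiagonal] at hx
  rw [eb_pol_coeff, eb_hc_mul' ξ _ ((P.natDegree : ℝ) * μ - (x.2 : ℝ) * μ)]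
  · congr 1
    congr 1
    rw [← hx]
    push_cast
    ring
  · intro e he
    have h := hP x.2 e he
    unfold wt at h
    unfold dg
    linarith

theorem bez_b {K : Type} [Field K] {k : ℕ} (ξ : Fin k → ℝ) (μ : ℝ) (P Q : Polynomial (Lp K k))
    (hP : Isob ξ μ P) (hQ : Isob ξ μ Q) (A₁ B₁ : Polynomial (Lp K k)) (r₁ : Lp K k) (hr : r₁ ≠ 0)
    (h : A₁ * P + B₁ * Q = Polynomial.C r₁) :
    ∃ (s : ℝ) (A B : Polynomial (Lp K k)) (r : Lp K k), r ≠ 0 ∧
      (∀ e ∈ r.coeff.support, dg ξ e = s) ∧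
      (∀ i, ∀ e ∈ (A.coeff i).coeff.support, wt ξ μ e i = s - (P.natDegree : ℝ) * μ) ∧
      (∀ i, ∀ e ∈ (B.coeff i).coeff.support, wt ξ μ e i = s - (Q.natDegree : ℝ) * μ) ∧
      A * P + B * Q = Polynomial.C r := by
  classical
  have hr' : r₁.coeff ≠ 0 := by
    intro h0
    apply hr
    ext e
    rw [h0]
    rfl
  obtain ⟨e₀, he₀⟩ := Finsupp.support_nonempty_iff.2 hr'
  refine ⟨dg ξ e₀, eb_pol ξ μ (dg ξ e₀ - (P.natDegree : ℝ) * μ) A₁,
    eb_pol ξ μ (dg ξ e₀ - (Q.natDegree : ℝ) * μ) B₁, eb_hc ξ (dg ξ e₀) r₁, ?_, ?_, ?_, ?_, ?_⟩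
  · intro h0
    rw [Finsupp.mem_support_iff] at he₀
    apply he₀
    have h1 := eb_hc_coeff ξ (dg ξ e₀) r₁ e₀
    rw [if_pos rfl, h0] at h1
    exact h1.symm
  · intro e he
    exact eb_hc_supp ξ _ _ e he
  · intro i e he
    rw [eb_pol_coeff] at he
    have h1 := eb_hc_supp ξ _ _ e he
    unfold wt
    unfold dg at h1 ⊢
    linarith
  · intro i e he
    rw [eb_pol_coeff] at he
    have h1 := eb_hc_supp ξ _ _ e he
    unfold wt
    unfold dg at h1 ⊢
    linarith
  · ext1 n
    rw [Polynomial.coeff_add, eb_pol_mul ξ μ _ A₁ P hP n, eb_pol_mul ξ μ _ B₁ Q hQ n, ← map_add,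
      ← Polynomial.coeff_add, h, Polynomial.coeff_C, Polynomial.coeff_C]
    split_ifs with hn
    · subst hn
      rw [Nat.cast_zero, zero_mul, sub_zero]
    · rw [map_zero]

end Pool.Agent.Work.MP_e97a4d_nt.CT
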