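import Pool.Agent.Work.MP_e97a4d_nt.CT.EConst

/-!
# CT/ECst (size M): constant extensions, second form

PROOF. Give `ℂ` the algebra structure `σ.toAlgebra` over `F₀`; `IsAlgClosed.lift` gives `j : AlgebraicClosure F₀ →ₐ[F₀] ℂ`. `T := j '' C` as a
finite set; its elements are algebraic over `ℚ` (the elements of `AlgebraicClosure F₀` are algebraic over `F₀`, `F₀` over
`ℚ`: transitivity; `IsAlgebraic.map`). `const_cover σ π v h T` (CT/EConst) gives `M, hM, L, ρ`. Let `M₀` be the intermediate field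
over `F₀` in `AlgebraicClosure F₀` of the elements `x` with `j x ∈ M` (`F₀ ⊆ M₀` by `hM`), and
`ρ₀ : M₀ →+* AlgebraicClosure L := (algebraMap L _).comp (ρ.comp (j restricted to M₀ → M))`. Give `AlgebraicClosure L` the algebra
structure `ρ₀.toAlgebra` over `M₀`; `AlgebraicClosure F₀` is algebraic over `M₀`; `IsAlgClosed.lift` gives
`φ : AlgebraicClosure F₀ →ₐ[M₀] AlgebraicClosure L`, so `φ x = ρ₀ x` for `x ∈ M₀`. For `x : 𝓞 F₀`: `ρ₀ x = ρ ⟨σ x, _⟩`, the last
property of `const_cover`. For `c ∈ C`: `j c ∈ T ⊆ M`, so `c ∈ M₀` and `φ c = ρ₀ c` is in the range of `algebraMap L _`.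
-/

set_option autoImplicit false

noncomputable section

namespace Pool.Agent.Work.MP_e97a4d_nt.CT

open AlgebraicGeometry CategoryTheory NumberField
open Pool.Agent.Work.UP

theorem const_cover2 {F₀ : Type} [Field F₀] [NumberField F₀] (σ : F₀ →+* ℂ) {V : Scheme.{0}}
    (π : V ⟶ Spec (CommRingCat.of (𝓞 F₀))) (v : V) (h : Function.Injective (UE.strAt π v))
    (C : Set (AlgebraicClosure F₀)) (hC : C.Finite) :
    ∃ (L : Type) (_ : Field L) (_ : Algebra (V.residueField v) L)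
      (φ : AlgebraicClosure F₀ →+* AlgebraicClosure L),
      FiniteDimensional (V.residueField v) L ∧ UE.EtaleAt v L ∧
        (∀ x : 𝓞 F₀, φ (algebraMap (𝓞 F₀) (AlgebraicClosure F₀) x) =
          algebraMap L (AlgebraicClosure L) (algebraMap (V.residueField v) L (UE.strAt π v x))) ∧
        ∀ c ∈ C, φ c ∈ Set.range (algebraMap L (AlgebraicClosure L)) := by
  letI : Algebra F₀ ℂ := σ.toAlgebra
  haveI : IsScalarTower ℚ F₀ ℂ := IsScalarTower.of_algebraMap_eq' (RingHom.ext_rat _ _)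
  let j : AlgebraicClosure F₀ →ₐ[F₀] ℂ := IsAlgClosed.lift
  have hT : ∀ c ∈ (hC.image j).toFinset, IsAlgebraic ℚ c := by
    intro c hc
    rw [Set.Finite.mem_toFinset] at hc
    obtain ⟨x, -, rfl⟩ := hc
    have h1 : IsAlgebraic F₀ x := Algebra.IsAlgebraic.isAlgebraic x
    have h2 : IsAlgebraic F₀ (j x) := h1.algHom j
    exact h2.restrictScalars ℚ
  obtain ⟨M, hM, hTM, L, iL, iA, ρ, hfin, het, hρ⟩ := const_cover σ π v h _ hT
  let M₀ : IntermediateField F₀ (AlgebraicClosure F₀) := (M.toIntermediateField hM).comap j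
  have hM₀ : ∀ x : AlgebraicClosure F₀, x ∈ M₀ ↔ j x ∈ M := fun x => Iff.rfl
  let r : M₀ →+* M :=
    ((j : AlgebraicClosure F₀ →+* ℂ).comp (algebraMap M₀ (AlgebraicClosure F₀))).codRestrict M
      (fun x => (hM₀ x).1 x.2)
  let ρ₀ : M₀ →+* AlgebraicClosure L := (algebraMap L (AlgebraicClosure L)).comp (ρ.comp r)
  letI : Algebra M₀ (AlgebraicClosure L) := ρ₀.toAlgebra
  haveI : Algebra.IsAlgebraic M₀ (AlgebraicClosure F₀) := Algebra.IsAlgebraic.tower_top (K := F₀) M₀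
  let φ : AlgebraicClosure F₀ →ₐ[M₀] AlgebraicClosure L := IsAlgClosed.lift
  have hφ : ∀ x (hx : j x ∈ M), φ x = algebraMap L (AlgebraicClosure L) (ρ ⟨j x, hx⟩) :=
    fun x hx => φ.commutes ⟨x, (hM₀ x).2 hx⟩
  refine ⟨L, iL, iA, (φ : AlgebraicClosure F₀ →+* AlgebraicClosure L), hfin, het, ?_, ?_⟩
  · intro x
    have h1 : algebraMap (𝓞 F₀) (AlgebraicClosure F₀) x =
        algebraMap F₀ (AlgebraicClosure F₀) (x : F₀) :=
      IsScalarTower.algebraMap_apply (𝓞 F₀) F₀ (AlgebraicClosure F₀) x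
    have h2 : j (algebraMap F₀ (AlgebraicClosure F₀) (x : F₀)) = σ x := j.commutes (x : F₀)
    have h3 : j (algebraMap F₀ (AlgebraicClosure F₀) (x : F₀)) ∈ M := by
      rw [h2]
      exact hM x
    rw [h1]
    refine (hφ _ h3).trans ?_
    rw [← hρ x]
    congr 2
    exact Subtype.ext h2
  · intro c hc
    have h1 : j c ∈ M := hTM _ (by
      rw [Set.Finite.mem_toFinset]
      exact ⟨c, hc, rfl⟩)
    exact ⟨_, (hφ c h1).symm⟩

end Pool.Agent.Work.MP_e97a4d_nt.CT
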