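import Pool.Agent.Work.MP_e97a4d_nt.CT.RDefs
import Pool.Agent.Work.UP.LDefs

/-!
# CT/EDefs: a Newton polytope criterion for surfaces over the two-dimensional torus (FIXED, do not edit)

`Lp K k` is the ring of Laurent polynomials in `k` variables `u l` over the field `K`.
-/

set_option autoImplicit false

noncomputable section

namespace Pool.Agent.Work.MP_e97a4d_nt.CT

open AlgebraicGeometry CategoryTheory NumberField
open Pool.Agent.Work.UP UE

/-- The weight of the monomial `u ^ e * Y ^ i` if the variables `u l` have the weights `ξ l` and `Y` has the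
weight `μ`. -/
def wt {k : ℕ} (ξ : Fin k → ℝ) (μ : ℝ) (e : Fin k → ℤ) (i : ℕ) : ℝ :=
  ∑ l, (e l : ℝ) * ξ l + (i : ℝ) * μ

/-- All monomials of the polynomial `P` (in `Y`, over the Laurent polynomials) have the weight
`deg P * μ`. -/
def Isob {K : Type} [Field K] {k : ℕ} (ξ : Fin k → ℝ) (μ : ℝ) (P : Polynomial (Lp K k)) : Prop :=
  ∀ i, ∀ e ∈ (P.coeff i).coeff.support, wt ξ μ e i = (P.natDegree : ℝ) * μ

/-- `P * Q` is the leading form of the monic polynomial `G`, for the weights `ξ` of the variables `u l` and the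
weight `μ` of `Y`, and `P`, `Q` are monic of positive degree without common factor. -/
structure LeadFac {K : Type} [Field K] {k : ℕ} (ξ : Fin k → ℝ) (μ : ℝ)
    (G P Q : Polynomial (Lp K k)) : Prop where
  monicP : P.Monic
  monicQ : Q.Monic
  posP : 0 < P.natDegree
  posQ : 0 < Q.natDegree
  cop : IsRelPrime P Q
  isoP : Isob ξ μ P
  isoQ : Isob ξ μ Q
  deg : G.natDegree = P.natDegree + Q.natDegree
  low : ∀ i, ∀ e ∈ ((G - P * Q).coeff i).coeff.support, wt ξ μ e i < (G.natDegree : ℝ) * μ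

/-- The leading form of `G` in the direction `ξ`, for a suitable weight of `Y`, is the product of two monic
polynomials of positive degree without common factor. -/
def LeadSplits {K : Type} [Field K] {k : ℕ} (ξ : Fin k → ℝ) (G : Polynomial (Lp K k)) : Prop :=
  ∃ (μ : ℝ) (P Q : Polynomial (Lp K k)), LeadFac ξ μ G P Q

/-- Laurent polynomials in two variables over the ring `R`. -/
abbrev Lau (R : Type) [CommRing R] : Type := AddMonoidAlgebra R (Fin 2 → ℤ)

variable {F₀ : Type} [Field F₀]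

/-- Laurent polynomials over `O_{F₀}` as Laurent polynomials over the algebraic closure of `F₀`. -/
def lbar (F₀ : Type) [Field F₀] : Lau (𝓞 F₀) →+* Lp (AlgebraicClosure F₀) 2 :=
  AddMonoidAlgebra.mapRingHom (Fin 2 → ℤ) (algebraMap (𝓞 F₀) (AlgebraicClosure F₀))

/-- The value at the point `v` of `V` of a function on the affine scheme `Spec R`, for a morphism
`q : V ⟶ Spec R`. -/
def valAt {V : Scheme.{0}} {R : Type} [CommRing R] (q : V ⟶ Spec (CommRingCat.of R)) (v : V) :
    R →+* V.residueField v :=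
  (Spec.preimage (V.fromSpecResidueField v ≫ q)).hom

/-- The residue field of the point `v` contains roots of finitely many monic polynomials `G j` over
`O_{F₀}[u, u⁻¹, v, v⁻¹]`, irreducible over the algebraic closure of `F₀`, such that among any nonzero vectors
`ξ i` of the plane with sum zero there is one for which the leading form of some `G j` splits. -/
def RootsSplit {V : Scheme.{0}} (q : V ⟶ Spec (CommRingCat.of (Lau (𝓞 F₀)))) (v : V) : Prop :=
  ∃ (n : ℕ) (G : Fin n → Polynomial (Lau (𝓞 F₀))),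
    (∀ j, (G j).Monic ∧ Irreducible ((G j).map (lbar F₀)) ∧
      ∃ y : V.residueField v, (G j).eval₂ (valAt q v) y = 0) ∧
    ∀ (s : ℕ) (ξ : Fin s → Fin 2 → ℝ), 0 < s → (∀ i, ξ i ≠ 0) → ∑ i, ξ i = 0 →
      ∃ (i : Fin s) (j : Fin n), LeadSplits (ξ i) ((G j).map (lbar F₀))

/-! ### Radical covers -/

/-- The ring `O_{F₀}[u, u⁻¹, v, v⁻¹][x₁, ..., x_r] / (x_j ^ m_j - f_j)`. -/
abbrev RadRing {r : ℕ} (m : Fin r → ℕ) (f : Fin r → Lau (𝓞 F₀)) : Type :=
  MvPolynomial (Fin r) (Lau (𝓞 F₀)) ⧸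
    Ideal.span (Set.range fun j => MvPolynomial.X j ^ m j - MvPolynomial.C (f j))

/-- Its spectrum. -/
abbrev RadScheme {r : ℕ} (m : Fin r → ℕ) (f : Fin r → Lau (𝓞 F₀)) : Scheme.{0} :=
  Spec (CommRingCat.of (RadRing m f))

/-- Its structure morphism. -/
abbrev radStr {r : ℕ} (m : Fin r → ℕ) (f : Fin r → Lau (𝓞 F₀)) :
    RadScheme m f ⟶ Spec (CommRingCat.of (𝓞 F₀)) :=
  Spec.map (CommRingCat.ofHom (algebraMap (𝓞 F₀) (RadRing m f)))

/-- In the direction `ξ` the leading form of `F` is the `p`-th power of the leading form of some `h ≠ 0`. -/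
def PowLead {K : Type} [Field K] {k : ℕ} (ξ : Fin k → ℝ) (p : ℕ) (F : Lp K k) : Prop :=
  ∃ h : Lp K k, h ≠ 0 ∧ ∀ e ∈ (F - h ^ p).coeff.support, ∃ e' ∈ h.coeff.support,
    ∑ l, (e l : ℝ) * ξ l < p * ∑ l, (e' l : ℝ) * ξ l

/-- Among any nonzero vectors `ξ i` of the plane with sum zero there is one for which there are a prime `p` and
exponents `a j < p`, zero unless `p` divides `m j`, such that `F = ∏ f j ^ a j` is, over the algebraic closure of
`F₀`, not a `p`-th power, but its leading form in the direction `ξ i` is a `p`-th power. -/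
def RadSplit {r : ℕ} (m : Fin r → ℕ) (f : Fin r → Lau (𝓞 F₀)) : Prop :=
  ∀ (s : ℕ) (ξ : Fin s → Fin 2 → ℝ), 0 < s → (∀ i, ξ i ≠ 0) → ∑ i, ξ i = 0 →
    ∃ (i : Fin s) (p : ℕ) (a : Fin r → ℕ), p.Prime ∧ (∀ j, a j < p) ∧ (∀ j, a j ≠ 0 → p ∣ m j) ∧
      (¬ ∃ g : Lp (AlgebraicClosure F₀) 2, g ^ p = ∏ j, lbar F₀ (f j) ^ a j) ∧
      PowLead (ξ i) p (∏ j, lbar F₀ (f j) ^ a j)

end Pool.Agent.Work.MP_e97a4d_nt.CT
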