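import Pool.Agent.Work.MP_e97a4d_nt.CT.EDefs
import Pool.Agent.Work.UP.LUfd

/-!
# CT/EEx (size M): the example `x ^ 2 = 1 + u + v`, `y ^ 2 = 1 + u ^ 2 + v`

PROOF. `K := AlgebraicClosure F₀` (characteristic zero), `x := single ![1, 0] 1`, `y := single ![0, 1] 1` in `Lp K 2`;
`lbar F₀` of the two elements are `F := 1 + x + y` and `G := 1 + x ^ 2 + y` (`lbar` is `AddMonoidAlgebra.mapRingHom`;
`1 = single 0 1`, `x ^ 2 = single ![2, 0] 1`).

(A) `F`, `G`, `F * G` are not squares. Take the homomorphism `ev (algebraMap K (RatFunc K)) w` to the field `RatFunc K`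
(or `FractionRing K[X]`) with `w 0 = X - 2`, `w 1 = 1`: `F ↦ 1 + (X - 2) + 1 = X`,
`G ↦ 1 + (X - 2) ^ 2 + 1 = X ^ 2 - 4 X + 6`, `F * G ↦ X * (X ^ 2 - 4 X + 6)`. For `G` take `w 0 = 1`, `w 1 = X - 2`: `G ↦ X`.
A polynomial `P` of odd degree is not a square in `RatFunc K`: `z ^ 2 = P` makes `z` integral over `K[X]`, so
`z` is a polynomial (`IsIntegrallyClosed K[X]`, `IsIntegrallyClosed.isIntegral_iff`), and
`natDegree (z ^ 2) = 2 * natDegree z` is even. (Degrees `1` and `3`; `K` has characteristic zero, the leading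
coefficients are `1`.)

(B) Let `ξ = (a, b) ≠ 0` (`a = ξ 0`, `b = ξ 1`), neither (`a = 0`, `b < 0`) nor (`a > 0`, `b = 2 a`). Then with `p = 2`:
(1) `a < 0`, `b < 0`: `PowLead ξ 2 F` with `h = 1`: `F - 1 = x + y`, degrees `a, b < 0`.
(2) `a > 0`, `b < 2 a`: `PowLead ξ 2 G` with `h = x`: `G - x ^ 2 = 1 + y`, degrees `0, b < 2 a`.
(3) `b > 0`, `b > 2 a`: `PowLead ξ 2 (F * G)` with `h = y`:
`F G - y ^ 2 = 1 + x + x ^ 2 + x ^ 3 + 2 y + x y + x ^ 2 y`, degrees `0, a, 2 a, 3 a, b, a + b, 2 a + b`, all `< 2 b`.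
(4) `a < 0`, `b = 0`: `PowLead ξ 2 (F * G)` with `h = 1 + y`: `F G - (1 + y) ^ 2 = x + x ^ 2 + x y + x ^ 2 y + x ^ 3`, degrees
`a, 2 a, a, 2 a, 3 a < 0`, and `h` has the exponent `0`.
These are all cases: `a < 0`: (1), (4), (3); `a = 0`: `b > 0` is (3); `a > 0`: `b < 2 a` is (2), `b > 2 a` is (3).
(To bound exponents: the support of a sum of `single`s is contained in the finite set of their exponents:
`Finsupp.support_add`, `Finsupp.support_single_subset`; it is convenient to have a lemma: if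
`F - h ^ p = ∑ e ∈ S, single e (c e)` for a finite set `S` then all exponents of `F - h ^ p` are in `S`.)

(C) A family of nonzero vectors with sum zero is not contained in the two exceptional rays: all `a i ≥ 0` and
`∑ a i = 0` give `a i = 0` for all `i`, so all `b i < 0`, but `∑ b i = 0` and `0 < s`.
Take the `i` outside of the rays, `p = 2`, `a = ![1, 0]`, `![0, 1]` or `![1, 1]` (`Fin.prod_univ_two`).
-/

set_option autoImplicit false

noncomputable section

namespace Pool.Agent.Work.MP_e97a4d_nt.CT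

open NumberField
open Pool.Agent.Work.UP

/-- All exponents satisfy `P`. -/
private def Sp {K : Type} [Field K] (P : (Fin 2 → ℤ) → Prop) (f : Lp K 2) : Prop :=
  ∀ e ∈ f.coeff.support, P e

private theorem Sp.add {K : Type} [Field K] {P : (Fin 2 → ℤ) → Prop} {f g : Lp K 2} (hf : Sp P f)
    (hg : Sp P g) : Sp P (f + g) := by
  intro e he
  by_cases h1 : e ∈ f.coeff.support
  · exact hf e h1
  by_cases h2 : e ∈ g.coeff.support
  · exact hg e h2
  exfalso
  rw [Finsupp.notMem_support_iff] at h1 h2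
  rw [Finsupp.mem_support_iff] at he
  apply he
  show (f.coeff + g.coeff) e = 0
  rw [Finsupp.add_apply, h1, h2, add_zero]

private theorem Sp.single {K : Type} [Field K] {P : (Fin 2 → ℤ) → Prop} {e : Fin 2 → ℤ} (c : K)
    (h : P e) : Sp P (AddMonoidAlgebra.single e c : Lp K 2) := by
  intro e' he'
  have h1 : e' ∈ ({e} : Finset (Fin 2 → ℤ)) :=
    Finsupp.support_single_subset (a := e) (b := c) he'
  rw [Finset.mem_singleton] at h1
  rw [h1]
  exact h

/-- Monomials. -/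
private def mo (K : Type) [Field K] (i j : ℤ) : Lp K 2 := AddMonoidAlgebra.single ![i, j] 1

private theorem mo_mul {K : Type} [Field K] (i j k l : ℤ) :
    mo K i j * mo K k l = mo K (i + k) (j + l) := by
  unfold mo
  rw [AddMonoidAlgebra.single_mul_single, mul_one]
  congr 1
  funext t
  fin_cases t <;> rfl

private theorem mo_one {K : Type} [Field K] : (1 : Lp K 2) = mo K 0 0 := by
  unfold mo
  rw [AddMonoidAlgebra.one_def]
  congr 1
  funext t
  fin_cases t <;> rfl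

private theorem sp_mo {K : Type} [Field K] {P : (Fin 2 → ℤ) → Prop} {i j : ℤ} (h : P ![i, j]) :
    Sp P (mo K i j) := Sp.single 1 h

private theorem mo_mem {K : Type} [Field K] (i j : ℤ) : ![i, j] ∈ (mo K i j).coeff.support := by
  rw [Finsupp.mem_support_iff]
  show (Finsupp.single ![i, j] (1 : K)) ![i, j] ≠ 0
  rw [Finsupp.single_eq_same]
  exact one_ne_zero

private theorem mo_ne {K : Type} [Field K] (i j : ℤ) : mo K i j ≠ 0 := by
  intro h
  have h1 := mo_mem (K := K) i j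
  rw [h] at h1
  simp at h1

/-! ### Nonsquares -/

private theorem odd_nonsq {K : Type} [Field K] (P : Polynomial K) (hP : Odd P.natDegree)
    (z : RatFunc K) : z ^ 2 ≠ algebraMap (Polynomial K) (RatFunc K) P := by
  intro h
  have hP0 : P ≠ 0 := by
    rintro rfl
    simp at hP
  have hz : z ≠ 0 := by
    rintro rfl
    rw [zero_pow two_ne_zero] at h
    exact hP0 ((map_eq_zero_iff _ (IsFractionRing.injective (Polynomial K) (RatFunc K))).1 h.symm)
  have h1 := congrArg RatFunc.intDegree h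
  rw [pow_two, RatFunc.intDegree_mul hz hz, RatFunc.intDegree_polynomial] at h1
  obtain ⟨k, hk⟩ := hP
  rw [hk] at h1
  push_cast at h1
  omega

private theorem xm_ne {K : Type} [Field K] :
    algebraMap (Polynomial K) (RatFunc K) (Polynomial.X - Polynomial.C 2) ≠ 0 := by
  rw [Ne, map_eq_zero_iff _ (IsFractionRing.injective (Polynomial K) (RatFunc K))]
  exact Polynomial.X_sub_C_ne_zero 2

/-- The unit `X - 2`. -/
private def uX (K : Type) [Field K] : (RatFunc K)ˣ := Units.mk0 _ (xm_ne (K := K))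

private theorem ev_mo {K : Type} [Field K] (w : Fin 2 → (RatFunc K)ˣ) (i j : ℤ) :
    ev (algebraMap K (RatFunc K)) w (mo K i j) = (w 0 : RatFunc K) ^ i * (w 1 : RatFunc K) ^ j := by
  unfold mo
  rw [ev_single, map_one, one_mul]
  unfold mon cu
  rw [Fin.prod_univ_two]
  rfl

private theorem nonsq {K : Type} [Field K] (w : Fin 2 → (RatFunc K)ˣ) (F : Lp K 2) (P : Polynomial K)
    (hP : Odd P.natDegree)
    (h : ev (algebraMap K (RatFunc K)) w F = algebraMap (Polynomial K) (RatFunc K) P) :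
    ¬ ∃ g : Lp K 2, g ^ 2 = F := by
  rintro ⟨g, hg⟩
  have h1 := congrArg (ev (algebraMap K (RatFunc K)) w) hg
  rw [map_pow, h] at h1
  exact odd_nonsq P hP _ h1

private theorem nsF {K : Type} [Field K] :
    ¬ ∃ g : Lp K 2, g ^ 2 = 1 + mo K 1 0 + mo K 0 1 := by
  refine nonsq ![uX K, 1] _ Polynomial.X (by rw [Polynomial.natDegree_X]; exact odd_one) ?_
  rw [map_add, map_add, map_one, ev_mo, ev_mo]
  simp only [Matrix.cons_val_zero, Matrix.cons_val_one, Units.val_one, zpow_one, zpow_zero,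
    mul_one, uX, Units.val_mk0, map_sub]
  have h2 : algebraMap (Polynomial K) (RatFunc K) (Polynomial.C 2) = 2 := by
    rw [map_ofNat Polynomial.C, map_ofNat]
  rw [h2]
  ring

private theorem nsG {K : Type} [Field K] :
    ¬ ∃ g : Lp K 2, g ^ 2 = 1 + mo K 2 0 + mo K 0 1 := by
  refine nonsq ![1, uX K] _ Polynomial.X (by rw [Polynomial.natDegree_X]; exact odd_one) ?_
  rw [map_add, map_add, map_one, ev_mo, ev_mo]
  simp only [Matrix.cons_val_zero, Matrix.cons_val_one, Units.val_one, zpow_one, zpow_zero,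
    mul_one, one_mul, uX, Units.val_mk0, map_sub, one_zpow]
  have h2 : algebraMap (Polynomial K) (RatFunc K) (Polynomial.C 2) = 2 := by
    rw [map_ofNat Polynomial.C, map_ofNat]
  rw [h2]
  ring

private theorem nsFG {K : Type} [Field K] :
    ¬ ∃ g : Lp K 2, g ^ 2 = (1 + mo K 1 0 + mo K 0 1) * (1 + mo K 2 0 + mo K 0 1) := by
  refine nonsq ![uX K, 1] _ (Polynomial.X ^ 3 - Polynomial.C 4 * Polynomial.X ^ 2 +
    Polynomial.C 6 * Polynomial.X) ?_ ?_
  · have h1 : (Polynomial.X ^ 3 - Polynomial.C 4 * Polynomial.X ^ 2 +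
        Polynomial.C 6 * Polynomial.X : Polynomial K).natDegree = 3 := by
      compute_degree!
    rw [h1]
    exact ⟨1, rfl⟩
  rw [map_mul, map_add, map_add, map_one, map_add, map_add, map_one, ev_mo, ev_mo, ev_mo]
  simp only [Matrix.cons_val_zero, Matrix.cons_val_one, Units.val_one, zpow_one, zpow_zero,
    mul_one, uX, Units.val_mk0, map_sub, map_add, map_mul, map_pow]
  have h2 : algebraMap (Polynomial K) (RatFunc K) (Polynomial.C 2) = 2 := by
    rw [map_ofNat Polynomial.C, map_ofNat]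
  have h4 : algebraMap (Polynomial K) (RatFunc K) (Polynomial.C 4) = 4 := by
    rw [map_ofNat Polynomial.C, map_ofNat]
  have h6 : algebraMap (Polynomial K) (RatFunc K) (Polynomial.C 6) = 6 := by
    rw [map_ofNat Polynomial.C, map_ofNat]
  rw [h2, h4, h6]
  norm_num [zpow_ofNat]
  ring

/-! ### Leading forms -/

private theorem sm (ξ : Fin 2 → ℝ) (i j : ℤ) :
    ∑ l, ((![i, j] : Fin 2 → ℤ) l : ℝ) * ξ l = i * ξ 0 + j * ξ 1 := by
  rw [Fin.sum_univ_two]
  rfl

/-- Sufficient condition, with a fixed exponent `e'` of `h`. -/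
private theorem powLead_of {K : Type} [Field K] (ξ : Fin 2 → ℝ) (F h : Lp K 2) (i j : ℤ)
    (he : ![i, j] ∈ h.coeff.support)
    (hs : Sp (fun e => ∑ l, (e l : ℝ) * ξ l < 2 * (i * ξ 0 + j * ξ 1)) (F - h ^ 2)) :
    PowLead ξ 2 F := by
  refine ⟨h, ?_, fun e hee => ⟨![i, j], he, ?_⟩⟩
  · rintro rfl
    simp at he
  · rw [sm]
    have h1 := hs e hee
    push_cast
    exact h1

private theorem lead1 {K : Type} [Field K] (ξ : Fin 2 → ℝ) (h0 : ξ 0 < 0) (h1 : ξ 1 < 0) :
    PowLead ξ 2 (1 + mo K 1 0 + mo K 0 1) := by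
  refine powLead_of ξ _ (mo K 0 0) 0 0 (mo_mem 0 0) ?_
  have h : (1 + mo K 1 0 + mo K 0 1) - mo K 0 0 ^ 2 = mo K 1 0 + mo K 0 1 := by
    rw [← mo_one]
    ring
  rw [h]
  refine Sp.add (sp_mo ?_) (sp_mo ?_) <;> rw [sm] <;> push_cast <;> linarith

private theorem lead2 {K : Type} [Field K] (ξ : Fin 2 → ℝ) (h0 : 0 < ξ 0) (h1 : ξ 1 < 2 * ξ 0) :
    PowLead ξ 2 (1 + mo K 2 0 + mo K 0 1) := by
  refine powLead_of ξ _ (mo K 1 0) 1 0 (mo_mem 1 0) ?_
  have h : (1 + mo K 2 0 + mo K 0 1) - mo K 1 0 ^ 2 = mo K 0 0 + mo K 0 1 := by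
    rw [pow_two, mo_mul, ← mo_one]
    norm_num
    ring
  rw [h]
  refine Sp.add (sp_mo ?_) (sp_mo ?_) <;> rw [sm] <;> push_cast <;> linarith

private theorem prodFG {K : Type} [Field K] :
    (1 + mo K 1 0 + mo K 0 1) * (1 + mo K 2 0 + mo K 0 1) =
      mo K 0 0 + mo K 1 0 + mo K 2 0 + mo K 3 0 + mo K 0 1 + mo K 0 1 + mo K 1 1 + mo K 2 1 +
        mo K 0 2 := by
  have e : ∀ i j k l : ℤ, mo K i j * mo K k l = mo K (i + k) (j + l) := mo_mul
  rw [mo_one]
  simp only [mul_add, add_mul, e]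
  norm_num
  abel

private theorem lead3 {K : Type} [Field K] (ξ : Fin 2 → ℝ) (h0 : 0 < ξ 1) (h1 : 2 * ξ 0 < ξ 1) :
    PowLead ξ 2 ((1 + mo K 1 0 + mo K 0 1) * (1 + mo K 2 0 + mo K 0 1)) := by
  refine powLead_of ξ _ (mo K 0 1) 0 1 (mo_mem 0 1) ?_
  have h : (1 + mo K 1 0 + mo K 0 1) * (1 + mo K 2 0 + mo K 0 1) - mo K 0 1 ^ 2 =
      mo K 0 0 + mo K 1 0 + mo K 2 0 + mo K 3 0 + mo K 0 1 + mo K 0 1 + mo K 1 1 + mo K 2 1 := by
    rw [prodFG, pow_two, mo_mul]
    norm_num
  rw [h]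
  refine Sp.add (Sp.add (Sp.add (Sp.add (Sp.add (Sp.add (Sp.add (sp_mo ?_) (sp_mo ?_)) (sp_mo ?_))
    (sp_mo ?_)) (sp_mo ?_)) (sp_mo ?_)) (sp_mo ?_)) (sp_mo ?_) <;> rw [sm] <;> push_cast <;>
    linarith

private theorem lead4 {K : Type} [Field K] (ξ : Fin 2 → ℝ) (h0 : ξ 0 < 0) (h1 : ξ 1 = 0) :
    PowLead ξ 2 ((1 + mo K 1 0 + mo K 0 1) * (1 + mo K 2 0 + mo K 0 1)) := by
  refine powLead_of ξ _ (mo K 0 0 + mo K 0 1) 0 0 ?_ ?_
  · rw [Finsupp.mem_support_iff]
    show (Finsupp.single ![0, 0] (1 : K) + Finsupp.single ![0, 1] (1 : K) :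
      (Fin 2 → ℤ) →₀ K) ![0, 0] ≠ 0
    rw [Finsupp.add_apply, Finsupp.single_eq_same, Finsupp.single_eq_of_ne, add_zero]
    · exact one_ne_zero
    · intro hh
      have := congrFun hh 1
      simp at this
  have h : (1 + mo K 1 0 + mo K 0 1) * (1 + mo K 2 0 + mo K 0 1) - (mo K 0 0 + mo K 0 1) ^ 2 =
      mo K 1 0 + mo K 2 0 + mo K 3 0 + mo K 1 1 + mo K 2 1 := by
    rw [prodFG]
    have e : ∀ i j k l : ℤ, mo K i j * mo K k l = mo K (i + k) (j + l) := mo_mul
    rw [pow_two]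
    simp only [mul_add, add_mul, e]
    norm_num
    abel
  rw [h]
  refine Sp.add (Sp.add (Sp.add (Sp.add (sp_mo ?_) (sp_mo ?_)) (sp_mo ?_))
    (sp_mo ?_)) (sp_mo ?_) <;> rw [sm] <;> push_cast <;> rw [h1] <;> linarith

private theorem lbF (F₀ : Type) [Field F₀] :
    lbar F₀ (1 + AddMonoidAlgebra.single ![1, 0] 1 + AddMonoidAlgebra.single ![0, 1] 1) =
      1 + mo (AlgebraicClosure F₀) 1 0 + mo (AlgebraicClosure F₀) 0 1 := by
  rw [map_add, map_add, map_one]
  unfold lbar mo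
  rw [AddMonoidAlgebra.mapRingHom_single, AddMonoidAlgebra.mapRingHom_single, map_one]

private theorem lbG (F₀ : Type) [Field F₀] :
    lbar F₀ (1 + AddMonoidAlgebra.single ![2, 0] 1 + AddMonoidAlgebra.single ![0, 1] 1) =
      1 + mo (AlgebraicClosure F₀) 2 0 + mo (AlgebraicClosure F₀) 0 1 := by
  rw [map_add, map_add, map_one]
  unfold lbar mo
  rw [AddMonoidAlgebra.mapRingHom_single, AddMonoidAlgebra.mapRingHom_single, map_one]

/-- The three possible cases for a direction outside of the two rays. -/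
private theorem cases_dir (F₀ : Type) [Field F₀] (ξ : Fin 2 → ℝ) (h0 : ξ ≠ 0)
    (h1 : ¬ (ξ 0 = 0 ∧ ξ 1 < 0)) (h2 : ¬ (0 < ξ 0 ∧ ξ 1 = 2 * ξ 0)) :
    PowLead ξ 2 (1 + mo (AlgebraicClosure F₀) 1 0 + mo (AlgebraicClosure F₀) 0 1) ∨
    PowLead ξ 2 (1 + mo (AlgebraicClosure F₀) 2 0 + mo (AlgebraicClosure F₀) 0 1) ∨
    PowLead ξ 2 ((1 + mo (AlgebraicClosure F₀) 1 0 + mo (AlgebraicClosure F₀) 0 1) *
      (1 + mo (AlgebraicClosure F₀) 2 0 + mo (AlgebraicClosure F₀) 0 1)) := by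
  rcases lt_trichotomy (ξ 0) 0 with ha | ha | ha
  · rcases lt_trichotomy (ξ 1) 0 with hb | hb | hb
    · exact Or.inl (lead1 ξ ha hb)
    · exact Or.inr (Or.inr (lead4 ξ ha hb))
    · exact Or.inr (Or.inr (lead3 ξ hb (by linarith)))
  · rcases lt_trichotomy (ξ 1) 0 with hb | hb | hb
    · exact absurd ⟨ha, hb⟩ h1
    · exfalso
      apply h0
      funext l
      fin_cases l
      · exact ha
      · exact hb
    · exact Or.inr (Or.inr (lead3 ξ hb (by linarith)))
  · rcases lt_trichotomy (ξ 1) (2 * ξ 0) with hb | hb | hb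
    · exact Or.inr (Or.inl (lead2 ξ ha hb))
    · exact absurd ⟨ha, hb⟩ h2
    · exact Or.inr (Or.inr (lead3 ξ (by linarith) hb))

theorem radSplit_example (F₀ : Type) [Field F₀] [NumberField F₀] :
    RadSplit (F₀ := F₀) ![2, 2]
      ![1 + AddMonoidAlgebra.single ![1, 0] 1 + AddMonoidAlgebra.single ![0, 1] 1,
        1 + AddMonoidAlgebra.single ![2, 0] 1 + AddMonoidAlgebra.single ![0, 1] 1] := by
  intro s ξ hs hne hsum
  -- a direction outside of the two rays
  have hex : ∃ i, ¬ (ξ i 0 = 0 ∧ ξ i 1 < 0) ∧ ¬ (0 < ξ i 0 ∧ ξ i 1 = 2 * ξ i 0) := by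
    by_contra hcon
    push Not at hcon
    have ha : ∀ i, 0 ≤ ξ i 0 := by
      intro i
      by_contra hneg
      push Not at hneg
      have := hcon i (fun h => absurd h hneg.ne)
      exact absurd this.1 (not_lt.2 hneg.le)
    have hs0 : ∑ i, ξ i 0 = 0 := by
      have := congrFun hsum 0
      rw [Finset.sum_apply] at this
      exact this
    have hs1 : ∑ i, ξ i 1 = 0 := by
      have := congrFun hsum 1
      rw [Finset.sum_apply] at this
      exact this
    have ha0 : ∀ i, ξ i 0 = 0 := by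
      intro i
      exact (Finset.sum_eq_zero_iff_of_nonneg (fun i _ => ha i)).1 hs0 i (Finset.mem_univ i)
    have hb : ∀ i, ξ i 1 < 0 := by
      intro i
      by_contra hneg
      have := hcon i (fun _ => by exact not_lt.1 hneg)
      exact absurd this.1 (by rw [ha0 i]; exact lt_irrefl _)
    have : ∑ i, ξ i 1 < 0 := by
      refine Finset.sum_neg (fun i _ => hb i) ⟨⟨0, hs⟩, Finset.mem_univ _⟩
    linarith
  obtain ⟨i, h1, h2⟩ := hex
  have h2m : ∀ (a : Fin 2 → ℕ) (j : Fin 2), a j ≠ 0 → 2 ∣ (![2, 2] : Fin 2 → ℕ) j := by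
    intro a j _
    fin_cases j <;> simp
  rcases cases_dir F₀ (ξ i) (hne i) h1 h2 with h | h | h
  · refine ⟨i, 2, ![1, 0], Nat.prime_two, ?_, h2m _, ?_, ?_⟩
    · intro j
      fin_cases j <;> simp
    · rw [Fin.prod_univ_two]
      simp only [Matrix.cons_val_zero, Matrix.cons_val_one, pow_one, pow_zero, mul_one]
      rw [lbF]
      exact nsF
    · rw [Fin.prod_univ_two]
      simp only [Matrix.cons_val_zero, Matrix.cons_val_one, pow_one, pow_zero, mul_one]
      rw [lbF]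
      exact h
  · refine ⟨i, 2, ![0, 1], Nat.prime_two, ?_, h2m _, ?_, ?_⟩
    · intro j
      fin_cases j <;> simp
    · rw [Fin.prod_univ_two]
      simp only [Matrix.cons_val_zero, Matrix.cons_val_one, pow_one, pow_zero, one_mul]
      rw [lbG]
      exact nsG
    · rw [Fin.prod_univ_two]
      simp only [Matrix.cons_val_zero, Matrix.cons_val_one, pow_one, pow_zero, one_mul]
      rw [lbG]
      exact h
  · refine ⟨i, 2, ![1, 1], Nat.prime_two, ?_, h2m _, ?_, ?_⟩
    · intro j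
      fin_cases j <;> simp
    · rw [Fin.prod_univ_two]
      simp only [Matrix.cons_val_zero, Matrix.cons_val_one, pow_one]
      rw [lbF, lbG]
      exact nsFG
    · rw [Fin.prod_univ_two]
      simp only [Matrix.cons_val_zero, Matrix.cons_val_one, pow_one]
      rw [lbF, lbG]
      exact h

end Pool.Agent.Work.MP_e97a4d_nt.CT
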