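import Pool.Agent.Work.MP_e97a4d_nt.CT.RDefs
import Pool.Agent.Work.MP_e97a4d_nt.CT.Defs

/-!
# CT/EExt (size S): from the working definitions to the definitions of the result

PROOF. Converse of `two_of_ext` (CT/RConv). Write `K₀ := algebraicClosure ℚ L`, `E := ev (algebraMap K₀ L) w`. Given
`p : (Fin k → ℤ) →₀ L`, not zero, with values in `K`, i.e. algebraic over `ℚ`, there is `p' : Lp K₀ k` with the
same support and `algebraMap (p'.coeff e) = p e` (build the finitely supported function
`e ↦ ⟨p e, _⟩`, `Finsupp.onFinset` or `Finsupp.mk`; `AddMonoidAlgebra` is `⟨coeff⟩`, see the constructor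
`AddMonoidAlgebra.ofCoeff` or use sums of `single`), `p' ≠ 0`, and `E p' = p.sum fun e a => a * mon (fun l => w l) e` by
`ev_eq`. So `DegVal E ξ ν` gives `ExtendsDeg K (fun l => w l) ξ ν` (`dg ξ e = ∑ l, e l * ξ l` is the definition).
-/

set_option autoImplicit false

noncomputable section

namespace Pool.Agent.Work.MP_e97a4d_nt.CT
open Pool.Agent.Work.UP

theorem ext_of_two {L : Type} [Field L] [CharZero L] (K : Set L)
    (hK : ∀ c, c ∈ K ↔ IsAlgebraic ℚ c) {k : ℕ} (w : Fin k → Lˣ) (ξ : Fin k → ℝ)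
    (h : Two (ev (algebraMap (algebraicClosure ℚ L) L) w) ξ) :
    ∃ ν ν' : Valuation L NNReal, ν ≠ ν' ∧ ExtendsDeg K (fun l => (w l : L)) ξ ν ∧
      ExtendsDeg K (fun l => (w l : L)) ξ ν' := by
  have key : ∀ μ : Valuation L NNReal,
      DegVal (ev (algebraMap (algebraicClosure ℚ L) L) w) ξ μ →
      ExtendsDeg K (fun l => (w l : L)) ξ μ := by
    intro μ hμ p hp hpK
    let q : (Fin k → ℤ) →₀ (algebraicClosure ℚ L) :=
      ⟨p.support, fun e => ⟨p e, mem_algebraicClosure_iff.2 ((hK _).1 (hpK e))⟩, fun e => by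
        rw [Finsupp.mem_support_iff, Ne, Ne, Subtype.ext_iff]
        rfl⟩
    let p' : Lp (algebraicClosure ℚ L) k := ⟨q⟩
    have hcoeff : p'.coeff = q := rfl
    have hne : p' ≠ 0 := by
      intro h0
      have h1 : q = 0 := by
        rw [← hcoeff, h0]
        rfl
      apply hp
      have h2 : q.support = ∅ := by rw [h1, Finsupp.support_zero]
      exact Finsupp.support_eq_empty.1 h2
    have h1 := hμ p' hne
    have h2 : ev (algebraMap (algebraicClosure ℚ L) L) w p' =
        p.sum fun e a => a * mon (fun l => (w l : L)) e := by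
      rw [ev_eq]
      rfl
    rw [h2] at h1
    exact h1
  obtain ⟨ν, ν', hne, h1, h2⟩ := h
  exact ⟨ν, ν', hne, key ν h1, key ν' h2⟩

end Pool.Agent.Work.MP_e97a4d_nt.CT
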