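import Pool.Agent.Work.MP_e97a4d_nt.CT.EDefs
import Pool.Agent.Work.MP_e97a4d_nt.CT.Defs

/-!
# CT/EExtD (size S): restriction of a valuation extending the degree

PROOF. Let `p : (Fin k → ℤ) →₀ L`, `p ≠ 0`, with values in `K`. For every `e` choose `c e : K₀` with `φ (c e) = ι (p e)`, `c e = 0` if
`p e = 0` (`φ` is injective, so this is automatic); let `p' : Lp K₀ k := ⟨_⟩` be the element with coefficients `c e`
(`Finsupp.onFinset` / `Finsupp.mk` with the support of `p`, `AddMonoidAlgebra.ofCoeff`; compare CT/EExt). It has the same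
support, `p' ≠ 0`, and `ev φ w' p' = ι (p.sum fun e a => a * mon w e)` by `ev_eq` (`mon (cu w') e = ι (mon w e)`:
`map_prod`, `map_zpow₀`). `h p'` is the statement (`dg ξ e = ∑ l, e l * ξ l` is the definition,
`Valuation.comap_apply`).
-/

set_option autoImplicit false

noncomputable section

namespace Pool.Agent.Work.MP_e97a4d_nt.CT

open Pool.Agent.Work.UP

theorem ext_of_deg {K₀ L Ω : Type} [Field K₀] [Field L] [Field Ω] (ι : L →+* Ω) (φ : K₀ →+* Ω)
    (K : Set L) (hK : ∀ c ∈ K, ι c ∈ Set.range φ) {k : ℕ} (w : Fin k → L) (w' : Fin k → Ωˣ)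
    (hw : ∀ l, (w' l : Ω) = ι (w l)) (ξ : Fin k → ℝ) (ν : Valuation Ω NNReal)
    (h : DegVal (ev φ w') ξ ν) : ExtendsDeg K w ξ (ν.comap ι) := by
  classical
  intro p hp hpK
  choose c hc using fun e => hK (p e) (hpK e)
  let q : (Fin k → ℤ) →₀ K₀ :=
    ⟨p.support, c, fun e => by
      rw [Finsupp.mem_support_iff, Ne, Ne, not_iff_not]
      constructor
      · intro h0
        refine (map_eq_zero φ).1 ?_
        rw [hc, h0, map_zero]
      · intro h0
        refine (map_eq_zero ι).1 ?_
        rw [← hc, h0, map_zero]⟩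
  let p' : Lp K₀ k := ⟨q⟩
  have hcoeff : p'.coeff = q := rfl
  have hne : p' ≠ 0 := by
    intro h0
    have h1 : q = 0 := by
      rw [← hcoeff, h0]
      rfl
    apply hp
    have h2 : q.support = ∅ := by rw [h1, Finsupp.support_zero]
    exact Finsupp.support_eq_empty.1 h2
  have h1 := h p' hne
  have hmon : ∀ e : Fin k → ℤ, mon (cu w') e = ι (mon w e) := by
    intro e
    simp only [mon, cu, map_prod, map_zpow₀, hw]
  have h2 : ev φ w' p' = ι (p.sum fun e a => a * mon w e) := by
    rw [ev_eq, Finsupp.sum, map_sum]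
    refine Finset.sum_congr rfl fun e _ => ?_
    rw [map_mul, hmon]
    congr 1
    exact hc e
  rw [h2] at h1
  exact h1

end Pool.Agent.Work.MP_e97a4d_nt.CT
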