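import Pool.Agent.Work.MP_e97a4d_nt.CT.EDefs
import Pool.Agent.Work.MP_e97a4d_nt.CT.EBezA

/-!
# CT/EFinLead (size M): the leading forms of a polynomial have finitely many factors

PROOF. Let `LeadFac ξ μ G P Q`, `H := P * Q`, `d := deg G`. (1) Every exponent `e` of `H.coeff i` has `wt ξ μ e i = d μ`:
`H.coeff i = ∑ a + b = i, P.coeff a * Q.coeff b` (`Polynomial.coeff_mul`), an exponent of the sum is an exponent of a
summand, so `e = e' + e''` with `e'` an exponent of `P.coeff a`, `e''` of `Q.coeff b`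
(`AddMonoidAlgebra.support_mul`), `wt ξ μ e i = wt ξ μ e' a + wt ξ μ e'' b = deg P μ + deg Q μ = d μ`. (2) So for
such `e` the coefficient of `(G - H).coeff i` at `e` is zero (`LeadFac.low`, otherwise `d μ < d μ`):
`(H.coeff i).coeff e = (G.coeff i).coeff e`. Hence `H` is determined by the supports of the `H.coeff i`, which are
subsets of the supports of the `G.coeff i`: the set `ℋ` of all these `H` is finite (it is in the image of the finite
set of the functions `S` on `Finset.range (d + 1)` (or `Fin (d + 1)`) with `S i ∈ (G.coeff i).coeff.support.powerset`, under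
`S ↦ ∑ i ≤ d, monomial i (∑ e ∈ S i, single e ((G.coeff i).coeff e))`; `deg H = d`). (3) `P` is a monic
divisor of `H ∈ ℋ`, `H ≠ 0` (monic): `fin_monic_dvd` (`Lp K k` is a domain) and `Set.Finite.biUnion`.
-/

set_option autoImplicit false

noncomputable section

namespace Pool.Agent.Work.MP_e97a4d_nt.CT

open Pool.Agent.Work.UP

private theorem fl_wt_add {k : ℕ} (ξ : Fin k → ℝ) (μ : ℝ) (e e' : Fin k → ℤ) (i j : ℕ) :
    wt ξ μ (e + e') (i + j) = wt ξ μ e i + wt ξ μ e' j := by
  simp only [wt, Pi.add_apply]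
  push_cast
  rw [add_mul]
  have h : ∑ l, ((e l : ℝ) + (e' l : ℝ)) * ξ l = ∑ l, (e l : ℝ) * ξ l + ∑ l, (e' l : ℝ) * ξ l := by
    rw [← Finset.sum_add_distrib]
    exact Finset.sum_congr rfl fun l _ => add_mul _ _ _
  rw [h]
  ring

/-- The product of two isobaric polynomials. -/
private theorem fl_iso {K : Type} [Field K] {k : ℕ} {ξ : Fin k → ℝ} {μ : ℝ}
    {P Q : Polynomial (Lp K k)} (hP : Isob ξ μ P) (hQ : Isob ξ μ Q) (i : ℕ) (e : Fin k → ℤ)
    (he : ((P * Q).coeff i).coeff e ≠ 0) :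
    wt ξ μ e i = ((P.natDegree : ℝ) + (Q.natDegree : ℝ)) * μ := by
  classical
  rw [Polynomial.coeff_mul, AddMonoidAlgebra.coeff_sum, Finsupp.finsetSum_apply] at he
  obtain ⟨x, hx, hne⟩ := Finset.exists_ne_zero_of_sum_ne_zero he
  have hm := AddMonoidAlgebra.support_coeff_mul_subset _ _ (Finsupp.mem_support_iff.2 hne)
  obtain ⟨a, ha, b, hb, hab⟩ := Finset.mem_add.1 hm
  have h1 := hP _ a ha
  have h2 := hQ _ b hb
  rw [← hab, ← Finset.HasAntidiagonal.mem_antidiagonal.1 hx, fl_wt_add, h1, h2]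
  ring

/-- The polynomials whose coefficients are zero or those of `G`. -/
private theorem fl_fin {K : Type} [Field K] {k : ℕ} (G : Polynomial (Lp K k)) :
    {H : Polynomial (Lp K k) | ∀ i e, (H.coeff i).coeff e ≠ 0 →
      (H.coeff i).coeff e = (G.coeff i).coeff e}.Finite := by
  have hfin : {x : ℕ × (Fin k → ℤ) | (G.coeff x.1).coeff x.2 ≠ 0}.Finite := by
    refine Set.Finite.subset (Set.Finite.biUnion (G.support : Set ℕ).toFinite fun i _ =>
      ((Set.finite_singleton i).prod ((G.coeff i).coeff.support : Set (Fin k → ℤ)).toFinite)) ?_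
    rintro ⟨i, e⟩ hx
    rw [Set.mem_iUnion₂]
    refine ⟨i, ?_, rfl, Finsupp.mem_support_iff.2 hx⟩
    rw [Finset.mem_coe, Polynomial.mem_support_iff]
    intro h0
    apply hx
    show (G.coeff i).coeff e = 0
    rw [h0]
    rfl
  refine Set.Finite.of_injOn (f := fun H : Polynomial (Lp K k) =>
    {x : ℕ × (Fin k → ℤ) | (H.coeff x.1).coeff x.2 ≠ 0}) ?_ ?_ hfin.powerset
  · intro H hH x hx
    show (G.coeff x.1).coeff x.2 ≠ 0
    rw [← hH _ _ hx]
    exact hx
  · intro H hH H' hH' hE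
    refine Polynomial.ext fun i => AddMonoidAlgebra.ext (Finsupp.ext fun e => ?_)
    have hi : (H.coeff i).coeff e ≠ 0 ↔ (H'.coeff i).coeff e ≠ 0 :=
      Set.ext_iff.1 hE (i, e)
    by_cases h : (H.coeff i).coeff e = 0
    · have h' : (H'.coeff i).coeff e = 0 := by
        by_contra h2
        exact hi.2 h2 h
      rw [h, h']
    · rw [hH _ _ h, hH' _ _ (hi.1 h)]

theorem fin_lead {K : Type} [Field K] {k : ℕ} (G : Polynomial (Lp K k)) :
    {P : Polynomial (Lp K k) | ∃ (ξ : Fin k → ℝ) (μ : ℝ) (Q : Polynomial (Lp K k)),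
      LeadFac ξ μ G P Q}.Finite := by
  refine Set.Finite.subset (Set.Finite.biUnion ((fl_fin G).inter_of_left {H | H ≠ 0})
    fun H hH => fin_monic_dvd H hH.2) ?_
  rintro P ⟨ξ, μ, Q, h⟩
  rw [Set.mem_iUnion₂]
  refine ⟨P * Q, ⟨fun i e he => ?_, (h.monicP.mul h.monicQ).ne_zero⟩, h.monicP, dvd_mul_right _ _⟩
  have hw := fl_iso h.isoP h.isoQ i e he
  by_contra hne
  have hs : e ∈ ((G - P * Q).coeff i).coeff.support := by
    rw [Finsupp.mem_support_iff, Polynomial.coeff_sub]
    intro h0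
    apply hne
    have h1 : (G.coeff i).coeff e - ((P * Q).coeff i).coeff e = 0 := h0
    exact (sub_eq_zero.1 h1).symm
  have h2 := h.low i e hs
  rw [hw, h.deg] at h2
  push_cast at h2
  exact lt_irrefl _ h2

end Pool.Agent.Work.MP_e97a4d_nt.CT
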