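import Pool.Agent.Work.MP_e97a4d_nt.CT.EMain

/-!
# CT/EHyp: covers of the torus given by one equation

`coverGen_torus` for `V = Spec (O_{F₀}[u, u⁻¹, v, v⁻¹][Y] / (G))`, `G` monic, irreducible over the algebraic closure.
-/

set_option autoImplicit false

noncomputable section

namespace Pool.Agent.Work.MP_e97a4d_nt.CT

open AlgebraicGeometry CategoryTheory NumberField
open Pool.Agent.Work.UP UE

variable {F₀ : Type} [Field F₀]

/-- The scheme `G(u, v, Y) = 0` over the torus. -/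
abbrev HypScheme (G : Polynomial (Lau (𝓞 F₀))) : Scheme.{0} :=
  Spec (CommRingCat.of (AdjoinRoot G))

/-- Its structure morphism. -/
abbrev hypStr (G : Polynomial (Lau (𝓞 F₀))) : HypScheme G ⟶ Spec (CommRingCat.of (𝓞 F₀)) :=
  Spec.map (CommRingCat.ofHom (algebraMap (𝓞 F₀) (AdjoinRoot G)))

private theorem hyp_qf (G : Polynomial (Lau (𝓞 F₀))) (hG : G.Monic) (v : HypScheme G) :
    (Spec.map (CommRingCat.ofHom (algebraMap (Lau (𝓞 F₀)) (AdjoinRoot G)))).QuasiFiniteAt v := by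
  have hfin : Module.Finite (Lau (𝓞 F₀)) (AdjoinRoot G) := hG.finite_adjoinRoot
  have hF : IsFinite (Spec.map (CommRingCat.ofHom (algebraMap (Lau (𝓞 F₀)) (AdjoinRoot G)))) := by
    rw [IsFinite.SpecMap_iff]
    exact (RingHom.finite_algebraMap).2 hfin
  exact (Spec.map (CommRingCat.ofHom (algebraMap (Lau (𝓞 F₀)) (AdjoinRoot G)))).quasiFiniteAt v

private theorem hyp_root (G : Polynomial (Lau (𝓞 F₀))) (v : HypScheme G) :
    ∃ y : (HypScheme G).residueField v,
      G.eval₂ (valAt (Spec.map (CommRingCat.ofHom (algebraMap (Lau (𝓞 F₀)) (AdjoinRoot G)))) v) y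
        = 0 := by
  have hval : valAt (Spec.map (CommRingCat.ofHom (algebraMap (Lau (𝓞 F₀)) (AdjoinRoot G)))) v =
      ((Spec.preimage ((HypScheme G).fromSpecResidueField v)).hom).comp
        (algebraMap (Lau (𝓞 F₀)) (AdjoinRoot G)) := by
    have h1 : Spec.preimage ((HypScheme G).fromSpecResidueField v ≫
        Spec.map (CommRingCat.ofHom (algebraMap (Lau (𝓞 F₀)) (AdjoinRoot G)))) =
        CommRingCat.ofHom (algebraMap (Lau (𝓞 F₀)) (AdjoinRoot G)) ≫
          Spec.preimage ((HypScheme G).fromSpecResidueField v) := by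
      apply Spec.map_injective
      rw [Spec.map_comp, Spec.map_preimage, Spec.map_preimage]
    show (Spec.preimage ((HypScheme G).fromSpecResidueField v ≫
        Spec.map (CommRingCat.ofHom (algebraMap (Lau (𝓞 F₀)) (AdjoinRoot G))))).hom = _
    rw [h1]
    rfl
  refine ⟨(Spec.preimage ((HypScheme G).fromSpecResidueField v)).hom (AdjoinRoot.root G), ?_⟩
  rw [hval, ← Polynomial.hom_eval₂, AdjoinRoot.algebraMap_eq, AdjoinRoot.eval₂_root, map_zero]

theorem coverGen_hyp [NumberField F₀] (σ : F₀ →+* ℂ) (G : Polynomial (Lau (𝓞 F₀)))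
    (hG : G.Monic) (hirr : Irreducible (G.map (lbar F₀)))
    (hdir : ∀ (s : ℕ) (ξ : Fin s → Fin 2 → ℝ), 0 < s → (∀ i, ξ i ≠ 0) → ∑ i, ξ i = 0 →
      ∃ i, LeadSplits (ξ i) (G.map (lbar F₀)))
    {V' : Scheme.{0}} (i : V' ⟶ HypScheme G) : CoverGen σ (hypStr G) i := by
  refine coverGen_torus σ (hypStr G) i
    (Spec.map (CommRingCat.ofHom (algebraMap (Lau (𝓞 F₀)) (AdjoinRoot G)))) ?_
    (fun v _ _ => hyp_qf G hG v) (fun v _ _ => ?_)
  · rw [hypStr, ← Spec.map_comp, ← CommRingCat.ofHom_comp]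
    rfl
  · refine ⟨1, fun _ => G, fun _ => ⟨hG, hirr, hyp_root G v⟩, fun s ξ hs hξ hsum => ?_⟩
    obtain ⟨i, hi⟩ := hdir s ξ hs hξ hsum
    exact ⟨i, 0, hi⟩

end Pool.Agent.Work.MP_e97a4d_nt.CT
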