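import Pool.Agent.Work.MP_e97a4d_nt.CT.EDefs

/-!
# CT/EQf (size M): at points where the morphism is quasi-finite the residue field extension is algebraic

PROOF. `V.fromSpecResidueField v = Spec.map (V.residue v) ≫ V.fromSpecStalk v` (definition), and
`Scheme.Hom.quasiFiniteAt_iff` (Mathlib/AlgebraicGeometry/Morphisms/QuasiFinite): `LocallyQuasiFinite (V.fromSpecStalk v ≫ q)`. A
preimmersion (`V.fromSpecResidueField v`, or the closed immersion `Spec.map (V.residue v)`) is locally quasi-finite
(instance in the same file) and compositions are, so `V.fromSpecResidueField v ≫ q = Spec.map (ofHom (valAt q v))`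
(`Spec.map_preimage`) is locally quasi-finite (write it as `Spec.map (V.residue v) ≫ (V.fromSpecStalk v ≫ q)`), and by
`HasRingHomProperty.Spec_iff (P := @LocallyQuasiFinite)` the ring homomorphism `τ := valAt q v : R →+* κ` is
quasi-finite. Give `κ` the algebra structure of `τ` (`algebraize [τ]`), so `Algebra.QuasiFinite R κ`. Let `S := τ.range`, a
domain with fraction field `k₀ ⊂ κ` (for instance `k₀ := Subfield.closure (Set.range τ)`, or
`FractionRing S` with `IsFractionRing.lift`); `Algebra.QuasiFinite.of_restrictScalars` for `R → k₀ → κ` gives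
`Algebra.QuasiFinite k₀ κ`, and `Module.Finite.of_quasiFinite` (`k₀` is a field, so artinian) gives `Module.Finite k₀ κ`. So
`x` is integral over `k₀`; multiply the coefficients of its equation by a common denominator (`IsFractionRing` /
`IsAlgebraic` over a domain and its fraction field: `IsFractionRing.isAlgebraic_iff`), a nonzero polynomial over `S`
with root `x`; lift its coefficients to `R` (`Polynomial.map` of `τ.rangeRestrict` is surjective).
-/

set_option autoImplicit false

noncomputable section

namespace Pool.Agent.Work.MP_e97a4d_nt.CT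

open AlgebraicGeometry CategoryTheory

/-- A field which is quasi-finite over a ring is algebraic over its image. -/
private theorem qf_aux {R κ : Type} [CommRing R] [Field κ] (τ : R →+* κ) (h : τ.QuasiFinite)
    (x : κ) : ∃ p : Polynomial R, p.map τ ≠ 0 ∧ p.eval₂ τ x = 0 := by
  have e1 : τ = (algebraMap τ.range κ).comp τ.rangeRestrict := rfl
  rw [e1] at h
  have h1 : (algebraMap τ.range κ).QuasiFinite := h.of_comp
  letI : Algebra (FractionRing τ.range) κ := FractionRing.liftAlgebra τ.range κ
  haveI : IsScalarTower τ.range (FractionRing τ.range) κ :=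
    FractionRing.isScalarTower_liftAlgebra τ.range κ
  rw [IsScalarTower.algebraMap_eq τ.range (FractionRing τ.range) κ] at h1
  have h2 : Algebra.QuasiFinite (FractionRing τ.range) κ :=
    RingHom.quasiFinite_algebraMap.1 h1.of_comp
  have h3 : Module.Finite (FractionRing τ.range) κ := Module.Finite.of_quasiFinite
  have h4 : IsAlgebraic (FractionRing τ.range) x := (IsIntegral.of_finite _ x).isAlgebraic
  obtain ⟨p, hp, hx⟩ := (IsFractionRing.isAlgebraic_iff τ.range (FractionRing τ.range) κ).2 h4
  obtain ⟨p', rfl⟩ := Polynomial.map_surjective τ.rangeRestrict τ.rangeRestrict_surjective p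
  refine ⟨p', ?_, ?_⟩
  · intro h0
    apply hp
    apply Polynomial.map_injective (algebraMap τ.range κ) Subtype.val_injective
    rw [Polynomial.map_map, ← e1, h0, Polynomial.map_zero]
  · rw [Polynomial.aeval_def, Polynomial.eval₂_map, ← e1] at hx
    exact hx

theorem qf_alg {V : Scheme.{0}} {R : Type} [CommRing R] (q : V ⟶ Spec (CommRingCat.of R)) (v : V)
    (h : q.QuasiFiniteAt v) (x : V.residueField v) :
    ∃ p : Polynomial R, p.map (valAt q v) ≠ 0 ∧ p.eval₂ (valAt q v) x = 0 := by
  apply qf_aux
  have h1 : LocallyQuasiFinite (V.fromSpecStalk v ≫ q) := Scheme.Hom.quasiFiniteAt_iff.1 h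
  have h2 : LocallyQuasiFinite (V.fromSpecResidueField v ≫ q) := by
    have e : V.fromSpecResidueField v ≫ q =
        Spec.map (V.residue v) ≫ (V.fromSpecStalk v ≫ q) := by
      rw [Scheme.fromSpecResidueField, Category.assoc]
    rw [e]
    infer_instance
  have h3 : LocallyQuasiFinite (Spec.map (Spec.preimage (V.fromSpecResidueField v ≫ q))) := by
    rwa [Spec.map_preimage]
  exact (HasRingHomProperty.Spec_iff (P := @LocallyQuasiFinite)).1 h3

end Pool.Agent.Work.MP_e97a4d_nt.CT
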