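import Pool.Agent.Work.MP_e97a4d_nt.CT.ESpl
import Pool.Agent.Work.MP_e97a4d_nt.CT.EFinLead
import Pool.Agent.Work.MP_e97a4d_nt.CT.EQf
import Pool.Agent.Work.MP_e97a4d_nt.CT.ECst
import Pool.Agent.Work.MP_e97a4d_nt.UE.OldV

/-!
# CT/EMain (size M): the Newton polytope criterion

PROOF. Let `v ∉ Set.range i`, `hs : Function.Injective (strAt π v)`. `κ := V.residueField v`, `CharZero κ` (`char_zero_at` for `L := κ`). We
prove the second alternative (`Or.inr`). `τ := valAt q v`; `hστ := valAt_str π q hq v`; `halg := qf_alg q v (hqf v hv hs)`.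
`tor_alg τ halg` (CT/EPhi) and `tb_pick` (CT/ETrB) for `u l := τ (single (Pi.single l 1) 1)`:
* Case `k ≤ 1`, `w`: `L := κ` (`Algebra.id`), finite dimensional, `etaleAt_self` (UE/OldV), `SplitBoundary`: `⟨k, w, _, _, _⟩`,
  `w l = u j = algebraMap κ κ (valAt q v _) ∈ unitsAt v κ` by `unit_at`; `2 ≤ k` is false.
* Case `hu : IsTranscendenceBasis ℤ u`: `τ` is injective by `tor_inj` (`τ.comp algebraMap = strAt π v` is injective); `hS v hv _`
  gives `n, G, hG, hdir`. `C := {c | ∃ j, ∃ P ∈ S j, ∃ a e, c = (P.coeff a).coeff e}`, `S j` the finite set of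
  `fin_lead ((G j).map (lbar F₀))`; `C` is finite: a finite union, and for each `P` the set of the values
  `(P.coeff a).coeff e` is finite (contained in `{0}` and the images of the supports, `a ≤ deg P`). `const_cover2` gives
  `L, φ`; `split_at`.
-/

set_option autoImplicit false

noncomputable section

namespace Pool.Agent.Work.MP_e97a4d_nt.CT

open AlgebraicGeometry CategoryTheory NumberField
open Pool.Agent.Work.UP UE

/-- The coefficients of a polynomial over the Laurent polynomials form a finite set. -/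
private theorem em_fin {K : Type} [Field K] {k : ℕ} (P : Polynomial (Lp K k)) :
    {c : K | ∃ (a : ℕ) (e : Fin k → ℤ), c = (P.coeff a).coeff e}.Finite := by
  refine Set.Finite.subset ((Set.finite_singleton (0 : K)).union
    (Set.Finite.biUnion (P.support : Set ℕ).toFinite fun a _ =>
      (((P.coeff a).coeff.support : Set (Fin k → ℤ)).toFinite.image
        fun e => (P.coeff a).coeff e))) ?_
  rintro c ⟨a, e, rfl⟩
  by_cases h : (P.coeff a).coeff e = 0
  · left
    exact h
  · right
    rw [Set.mem_iUnion₂]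
    refine ⟨a, ?_, e, Finsupp.mem_support_iff.2 h, rfl⟩
    rw [Finset.mem_coe, Polynomial.mem_support_iff]
    intro h0
    apply h
    rw [h0]
    rfl

private theorem em_unit {R : Type} [CommRing R] (e : Fin 2 → ℤ) :
    IsUnit (AddMonoidAlgebra.single e (1 : R) : Lau R) := by
  refine IsUnit.of_mul_eq_one (AddMonoidAlgebra.single (-e) (1 : R)) ?_
  rw [AddMonoidAlgebra.single_mul_single, add_neg_cancel, mul_one]
  rfl

theorem coverGen_torus {F₀ : Type} [Field F₀] [NumberField F₀] (σ : F₀ →+* ℂ) {V V' : Scheme.{0}}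
    (π : V ⟶ Spec (CommRingCat.of (𝓞 F₀))) (i : V' ⟶ V)
    (q : V ⟶ Spec (CommRingCat.of (Lau (𝓞 F₀))))
    (hq : q ≫ Spec.map (CommRingCat.ofHom (algebraMap (𝓞 F₀) (Lau (𝓞 F₀)))) = π)
    (hqf : ∀ v : V, v ∉ Set.range i → Function.Injective (strAt π v) → q.QuasiFiniteAt v)
    (hS : ∀ v : V, v ∉ Set.range i → Function.Injective (valAt q v) → RootsSplit q v) :
    CoverGen σ π i := by
  classical
  intro v hv hs
  right
  haveI hκ : CharZero (V.residueField v) := char_zero_at π v hs (V.residueField v)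
  have hστ := valAt_str π q hq v
  have htor := tor_alg (valAt q v) fun x => qf_alg q v (hqf v hv hs) x
  rcases tb_pick (fun l : Fin 2 => valAt q v (AddMonoidAlgebra.single (Pi.single l 1) 1)) htor with
    hu | ⟨k, w, hk, hw, htb⟩
  · have hinj : Function.Injective (valAt q v) :=
      tor_inj (valAt q v) (by rw [hστ]; exact hs) hu
    obtain ⟨n, G, hG, hdir⟩ := hS v hv hinj
    have hCfin : (⋃ j : Fin n, ⋃ P ∈ {P : Polynomial (Lp (AlgebraicClosure F₀) 2) |
        ∃ (ξ : Fin 2 → ℝ) (μ : ℝ) (Q : Polynomial (Lp (AlgebraicClosure F₀) 2)),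
          LeadFac ξ μ ((G j).map (lbar F₀)) P Q},
        {c : AlgebraicClosure F₀ | ∃ (a : ℕ) (e : Fin 2 → ℤ), c = (P.coeff a).coeff e}).Finite :=
      Set.finite_iUnion fun j => Set.Finite.biUnion (fin_lead _) fun P _ => em_fin P
    obtain ⟨L, hL1, hL2, φ, hfin, het, hφ, hφC⟩ := const_cover2 σ π v hs _ hCfin
    refine ⟨L, hL1, hL2, hfin, het, Or.inr ?_⟩
    refine split_at π q v hs hστ hu n G hG hdir L φ hφ fun j P hP a e => hφC _ ?_
    exact Set.mem_iUnion.2 ⟨j, Set.mem_iUnion₂.2 ⟨P, hP, a, e, rfl⟩⟩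
  · refine ⟨V.residueField v, inferInstance, Algebra.id _, inferInstance, etaleAt_self v,
      Or.inr ⟨k, w, fun l => ?_, htb, fun h2 => absurd h2 (by omega)⟩⟩
    obtain ⟨j, hj⟩ := hw l
    rw [hj]
    exact unit_at q v (V.residueField v) _ (em_unit _)

end Pool.Agent.Work.MP_e97a4d_nt.CT
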