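import Pool.Agent.Work.MP_e97a4d_nt.CT.EDefs
import Pool.Agent.Work.MP_e97a4d_nt.CT.Defs

/-!
# CT/ENear (size M): a root of `G` near to a root of a factor of the leading form

`wt ξ μ e i = dg ξ e + i * μ` (definitions).

PROOF of `val_le`, `val_lt`. `H.eval₂ E x = ∑ i, E (H.coeff i) * x ^ i` (`Polynomial.eval₂_eq_sum_range`). For every `i` either
`H.coeff i = 0` and the term is zero, or `N (E (H.coeff i)) = exp (dg ξ e)` for an exponent `e` of `H.coeff i` (`hN`), and
`N (x ^ i) ≤ exp (i μ)`, so the term has value `≤ exp (wt ξ μ e i)`; `Valuation.map_sum_le` / `Valuation.map_sum_lt`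
(work in `ℝ` or `NNReal`; `exp w > 0`).

PROOF of `near_root`. `d := deg G`, `n := deg P > 0`. `P.map E` is monic of degree `n`, so it has a root `z` in `Ω`
(`IsAlgClosed.exists_root`). (1) Every root `z` of `P.map E` has `N z ≤ exp μ`: otherwise `N z > exp μ`,
`z ^ n = - ∑ i < n, E (P.coeff i) * z ^ i`, each term zero or of value
`exp ((n - i) μ) * N z ^ i < N z ^ (n - i) * N z ^ i = N z ^ n` (`Isob`: the exponents of `P.coeff i` have
`dg ξ e = (n - i) μ`), contradiction. (2) `G.eval₂ E z = (G - P * Q).eval₂ E z` (`P.eval₂ E z = 0`), so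
`N (G.eval₂ E z) < exp (d μ)` by `val_lt` and `LeadFac.low`. (3) `G.map E = ∏ (X - x)` over its roots `x` (`d` of them, with
multiplicity; `IsAlgClosed.splits`), so `∏ N (z - x) < exp μ ^ d`: some root `x` has `N (z - x) < exp μ`. Then
`N x ≤ max (N z) (N (z - x)) ≤ exp μ` and `G.eval₂ E x = 0`. (4) `P.map E = ∏ (X - z')` over its roots (`n` of
them), every factor of `P.eval₂ E x = ∏ (x - z')` has value `≤ exp μ` by (1), and the factor of `z' = z` has value
`< exp μ`; so the product is `< exp μ ^ n` (erase `z` from the multiset of the roots).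
-/

set_option autoImplicit false

noncomputable section

namespace Pool.Agent.Work.MP_e97a4d_nt.CT

open Pool.Agent.Work.UP

private theorem coeff_val {K Ω : Type} [Field K] [Field Ω] {k : ℕ} (E : Lp K k →+* Ω)
    (N : Valuation Ω NNReal) (ξ : Fin k → ℝ) (hN : DegVal E ξ N) (p : Lp K k) (hp : p ≠ 0) :
    ∃ e ∈ p.coeff.support, (N (E p) : ℝ) = Real.exp (dg ξ e) := by
  obtain ⟨e, he, h⟩ := (hN p hp).1
  exact ⟨e, he, h.symm⟩

private theorem term_val {K Ω : Type} [Field K] [Field Ω] {k : ℕ} (E : Lp K k →+* Ω)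
    (N : Valuation Ω NNReal) (ξ : Fin k → ℝ) (hN : DegVal E ξ N) (μ : ℝ)
    (H : Polynomial (Lp K k)) (x : Ω) (hx : (N x : ℝ) ≤ Real.exp μ) (i : ℕ) :
    H.coeff i = 0 ∨ ∃ e ∈ (H.coeff i).coeff.support,
      (N (E (H.coeff i) * x ^ i) : ℝ) ≤ Real.exp (wt ξ μ e i) := by
  by_cases h0 : H.coeff i = 0
  · exact Or.inl h0
  · right
    obtain ⟨e, he, h⟩ := coeff_val E N ξ hN _ h0
    refine ⟨e, he, ?_⟩
    rw [map_mul, map_pow, NNReal.coe_mul, NNReal.coe_pow, h]
    have h2 : Real.exp (wt ξ μ e i) = Real.exp (dg ξ e) * Real.exp μ ^ i := by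
      rw [← Real.exp_nat_mul, ← Real.exp_add]
      rfl
    rw [h2]
    exact mul_le_mul_of_nonneg_left (pow_le_pow_left₀ (NNReal.coe_nonneg _) hx i)
      (Real.exp_pos _).le

private theorem prod_ge {Ω : Type} [Field Ω] (N : Valuation Ω NNReal) (f : Ω → Ω) (c : ℝ)
    (hc : 0 ≤ c) (s : Multiset Ω) (h : ∀ x ∈ s, c ≤ (N (f x) : ℝ)) :
    c ^ s.card ≤ (N (s.map f).prod : ℝ) := by
  induction s using Multiset.induction_on with
  | empty => simp
  | cons a s ih =>
    rw [Multiset.map_cons, Multiset.prod_cons, map_mul, NNReal.coe_mul, Multiset.card_cons,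
      pow_succ']
    exact mul_le_mul (h a (Multiset.mem_cons_self a s))
      (ih fun x hx => h x (Multiset.mem_cons_of_mem hx)) (pow_nonneg hc _) (NNReal.coe_nonneg _)

private theorem prod_le' {Ω : Type} [Field Ω] (N : Valuation Ω NNReal) (f : Ω → Ω) (c : ℝ)
    (hc : 0 ≤ c) (s : Multiset Ω) (h : ∀ x ∈ s, (N (f x) : ℝ) ≤ c) :
    (N (s.map f).prod : ℝ) ≤ c ^ s.card := by
  induction s using Multiset.induction_on with
  | empty => simp
  | cons a s ih =>
    rw [Multiset.map_cons, Multiset.prod_cons, map_mul, NNReal.coe_mul, Multiset.card_cons,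
      pow_succ']
    exact mul_le_mul (h a (Multiset.mem_cons_self a s))
      (ih fun x hx => h x (Multiset.mem_cons_of_mem hx)) (NNReal.coe_nonneg _) hc

/-- Every root of an isobaric monic polynomial has value at most `exp μ`. -/
private theorem root_le {K Ω : Type} [Field K] [Field Ω] {k : ℕ} (E : Lp K k →+* Ω)
    (N : Valuation Ω NNReal) (ξ : Fin k → ℝ) (hN : DegVal E ξ N) (μ : ℝ)
    (P : Polynomial (Lp K k)) (hP : P.Monic) (hI : Isob ξ μ P) (z : Ω)
    (hz : P.eval₂ E z = 0) : (N z : ℝ) ≤ Real.exp μ := by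
  by_contra hcon
  push Not at hcon
  have hpos : 0 < (N z : ℝ) := (Real.exp_pos μ).trans hcon
  have hpos' : 0 < N z := by exact_mod_cast hpos
  rw [Polynomial.eval₂_eq_sum_range, Finset.sum_range_succ, hP.coeff_natDegree, map_one,
    one_mul] at hz
  have h1 : N (∑ i ∈ Finset.range P.natDegree, E (P.coeff i) * z ^ i) < N z ^ P.natDegree := by
    refine Valuation.map_sum_lt' N (pow_pos hpos' _) fun i hi => ?_
    rw [Finset.mem_range] at hi
    by_cases h0 : P.coeff i = 0
    · rw [h0, map_zero, zero_mul, map_zero]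
      exact pow_pos hpos' _
    · obtain ⟨e, he, h⟩ := coeff_val E N ξ hN _ h0
      have h2 := hI i e he
      obtain ⟨j, hj⟩ := Nat.exists_eq_add_of_lt hi
      rw [← NNReal.coe_lt_coe, map_mul, map_pow, NNReal.coe_mul, NNReal.coe_pow, NNReal.coe_pow, h]
      have h3 : dg ξ e = ((j + 1 : ℕ) : ℝ) * μ := by
        have h4 : wt ξ μ e i = dg ξ e + (i : ℝ) * μ := rfl
        rw [h4, hj] at h2
        push_cast at h2 ⊢
        linarith
      rw [h3, Real.exp_nat_mul, hj, add_assoc, pow_add (N z : ℝ) i (j + 1),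
        mul_comm ((N z : ℝ) ^ i)]
      exact mul_lt_mul_of_pos_right (pow_lt_pow_left₀ hcon (Real.exp_pos μ).le (Nat.succ_ne_zero j))
        (pow_pos hpos i)
  have h5 : z ^ P.natDegree = - ∑ i ∈ Finset.range P.natDegree, E (P.coeff i) * z ^ i :=
    eq_neg_of_add_eq_zero_right hz
  rw [← map_pow, h5, Valuation.map_neg] at h1
  exact lt_irrefl _ h1

theorem val_le {K Ω : Type} [Field K] [Field Ω] {k : ℕ} (E : Lp K k →+* Ω)
    (N : Valuation Ω NNReal) (ξ : Fin k → ℝ) (hN : DegVal E ξ N) (μ w : ℝ)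
    (H : Polynomial (Lp K k)) (hH : ∀ i, ∀ e ∈ (H.coeff i).coeff.support, wt ξ μ e i ≤ w) (x : Ω)
    (hx : (N x : ℝ) ≤ Real.exp μ) : (N (H.eval₂ E x) : ℝ) ≤ Real.exp w := by
  rw [Polynomial.eval₂_eq_sum_range]
  have h1 : N (∑ i ∈ Finset.range (H.natDegree + 1), E (H.coeff i) * x ^ i) ≤
      (⟨Real.exp w, (Real.exp_pos w).le⟩ : NNReal) := by
    refine Valuation.map_sum_le N fun i _ => ?_
    rw [← NNReal.coe_le_coe]
    rcases term_val E N ξ hN μ H x hx i with h | ⟨e, he, h⟩
    · rw [h, map_zero, zero_mul, map_zero]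
      exact (Real.exp_pos w).le
    · exact h.trans (Real.exp_le_exp.2 (hH i e he))
  exact NNReal.coe_le_coe.2 h1

theorem val_lt {K Ω : Type} [Field K] [Field Ω] {k : ℕ} (E : Lp K k →+* Ω)
    (N : Valuation Ω NNReal) (ξ : Fin k → ℝ) (hN : DegVal E ξ N) (μ w : ℝ)
    (H : Polynomial (Lp K k)) (hH : ∀ i, ∀ e ∈ (H.coeff i).coeff.support, wt ξ μ e i < w) (x : Ω)
    (hx : (N x : ℝ) ≤ Real.exp μ) : (N (H.eval₂ E x) : ℝ) < Real.exp w := by
  rw [Polynomial.eval₂_eq_sum_range]
  have h1 : N (∑ i ∈ Finset.range (H.natDegree + 1), E (H.coeff i) * x ^ i) <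
      (⟨Real.exp w, (Real.exp_pos w).le⟩ : NNReal) := by
    refine Valuation.map_sum_lt' N ?_ fun i _ => ?_
    · rw [← NNReal.coe_lt_coe]
      exact Real.exp_pos w
    rw [← NNReal.coe_lt_coe]
    rcases term_val E N ξ hN μ H x hx i with h | ⟨e, he, h⟩
    · rw [h, map_zero, zero_mul, map_zero]
      exact Real.exp_pos w
    · exact h.trans_lt (Real.exp_lt_exp.2 (hH i e he))
  exact NNReal.coe_lt_coe.2 h1

theorem near_root {K Ω : Type} [Field K] [Field Ω] [IsAlgClosed Ω] {k : ℕ} (E : Lp K k →+* Ω)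
    (N : Valuation Ω NNReal) (ξ : Fin k → ℝ) (hN : DegVal E ξ N) (μ : ℝ)
    (G P Q : Polynomial (Lp K k)) (hG : G.Monic) (h : LeadFac ξ μ G P Q) :
    ∃ x : Ω, G.eval₂ E x = 0 ∧ (N x : ℝ) ≤ Real.exp μ ∧
      (N (P.eval₂ E x) : ℝ) < Real.exp ((P.natDegree : ℝ) * μ) := by
  classical
  have hmP : (P.map E).Monic := h.monicP.map E
  have hdP : (P.map E).natDegree = P.natDegree := h.monicP.natDegree_map E
  have hsP : (P.map E).Splits := IsAlgClosed.splits _
  have hmG : (G.map E).Monic := hG.map E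
  have hdG : (G.map E).natDegree = G.natDegree := hG.natDegree_map E
  have hsG : (G.map E).Splits := IsAlgClosed.splits _
  have hcP : (P.map E).roots.card = P.natDegree := by rw [← hsP.natDegree_eq_card_roots, hdP]
  have hcG : (G.map E).roots.card = G.natDegree := by rw [← hsG.natDegree_eq_card_roots, hdG]
  obtain ⟨z, hz⟩ : ∃ z, z ∈ (P.map E).roots := by
    apply Multiset.exists_mem_of_ne_zero
    intro h0
    have h1 := h.posP
    rw [← hcP, h0] at h1
    simp at h1
  have hroot : ∀ y ∈ (P.map E).roots, (N y : ℝ) ≤ Real.exp μ := by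
    intro y hy
    refine root_le E N ξ hN μ P h.monicP h.isoP y ?_
    rw [← Polynomial.eval_map]
    exact (Polynomial.mem_roots'.1 hy).2
  have hz' : P.eval₂ E z = 0 := by
    rw [← Polynomial.eval_map]
    exact (Polynomial.mem_roots'.1 hz).2
  have hNz := hroot z hz
  have hGz : (N (G.eval₂ E z) : ℝ) < Real.exp ((G.natDegree : ℝ) * μ) := by
    have h1 : G.eval₂ E z = (G - P * Q).eval₂ E z := by
      rw [Polynomial.eval₂_sub, Polynomial.eval₂_mul, hz', zero_mul, sub_zero]
    rw [h1]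
    exact val_lt E N ξ hN μ _ (G - P * Q) h.low z hNz
  obtain ⟨x, hx, hzx⟩ : ∃ x ∈ (G.map E).roots, (N (z - x) : ℝ) < Real.exp μ := by
    by_contra hcon
    push Not at hcon
    have h2 := prod_ge N (fun x => z - x) (Real.exp μ) (Real.exp_pos μ).le (G.map E).roots hcon
    rw [hcG, ← hsG.eval_eq_prod_roots_of_monic hmG, Polynomial.eval_map, ← Real.exp_nat_mul] at h2
    exact absurd hGz (not_lt.2 h2)
  have hNx : (N x : ℝ) ≤ Real.exp μ := by
    have h1 : N x ≤ (⟨Real.exp μ, (Real.exp_pos μ).le⟩ : NNReal) := by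
      have h2 : x = z - (z - x) := by ring
      rw [h2]
      exact Valuation.map_sub_le N (NNReal.coe_le_coe.1 hNz) (NNReal.coe_le_coe.1 hzx.le)
    exact NNReal.coe_le_coe.2 h1
  refine ⟨x, ?_, hNx, ?_⟩
  · rw [← Polynomial.eval_map]
    exact (Polynomial.mem_roots'.1 hx).2
  · have h1 : P.eval₂ E x = (((P.map E).roots).map fun y => x - y).prod := by
      rw [← Polynomial.eval_map]
      exact hsP.eval_eq_prod_roots_of_monic hmP x
    have h2 : (P.map E).roots = z ::ₘ (P.map E).roots.erase z := (Multiset.cons_erase hz).symm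
    have h3 : ((P.map E).roots.erase z).card + 1 = P.natDegree := by
      rw [← hcP]
      conv_rhs => rw [h2]
      rw [Multiset.card_cons]
    have h4 : (N ((((P.map E).roots.erase z)).map fun y => x - y).prod : ℝ) ≤
        Real.exp μ ^ ((P.map E).roots.erase z).card := by
      refine prod_le' N (fun y => x - y) (Real.exp μ) (Real.exp_pos μ).le _ fun y hy => ?_
      have h5 : N (x - y) ≤ (⟨Real.exp μ, (Real.exp_pos μ).le⟩ : NNReal) :=
        Valuation.map_sub_le N (NNReal.coe_le_coe.1 hNx)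
          (NNReal.coe_le_coe.1 (hroot y (Multiset.mem_of_mem_erase hy)))
      exact NNReal.coe_le_coe.2 h5
    have h6 : (N (x - z) : ℝ) < Real.exp μ := by
      rw [Valuation.map_sub_swap]
      exact hzx
    rw [h1, h2, Multiset.map_cons, Multiset.prod_cons, map_mul, NNReal.coe_mul, ← h3,
      Real.exp_nat_mul, pow_succ']
    exact (mul_le_mul_of_nonneg_left h4 (NNReal.coe_nonneg _)).trans_lt
      (mul_lt_mul_of_pos_right h6 (pow_pos (Real.exp_pos μ) _))

end Pool.Agent.Work.MP_e97a4d_nt.CT
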