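import Pool.Agent.Work.MP_e97a4d_nt.CT.EDefs
import Pool.Agent.Work.MP_e97a4d_nt.CT.Clear

/-!
# CT/EPhi (size M): evaluation at a transcendence basis over another copy of the constants

PROOF of `phi_inj_alg`. `K₀ := algebraicClosure ℚ Ω`. `φ` gives a ring isomorphism `ψ : K ≃+* K₀` (`φ` is injective; values in `K₀` by
`hφ'`, surjective by `hφ`). `ev φ w = (ev (algebraMap K₀ Ω) w).comp (lpm ψ)` (`lp_hom_ext`, `ev_single`, `lpm_single`) and
`lpm ψ` is bijective with inverse `lpm ψ.symm` (`lpm_coeff`). So the statements follow from `tb_inj` and `tb_alg` (map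
the polynomial by `lpm ψ.symm`: `Polynomial.map`, not zero by injectivity; `Polynomial.eval₂_map`).

PROOF of `tor_inj`. Let `K₀ := algebraicClosure ℚ κ`. `τ c` for a constant `c : 𝓞 F₀` is integral over `ℤ`, so it is in `K₀`:
this gives an injective `j : 𝓞 F₀ →+* K₀`. With the units `w l := τ (single (Pi.single l 1) 1)` (units because
`single (Pi.single l 1) 1` is one), `τ = (ev (algebraMap K₀ κ) w).comp (AddMonoidAlgebra.mapRingHom _ j)`: compare on
`single e c = single 0 c * single e 1` (`τ (single e 1) = mon (cu w) e`: both sides are multiplicative in `e`; for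
`e = ∑ l, e l • Pi.single l 1`). `tb_inj`, and `mapRingHom` of an injective homomorphism is injective (coefficients).

PROOF of `tor_alg`. Let `A := Algebra.adjoin ℤ (Set.range u)`, `u l := τ (single (Pi.single l 1) 1)`, and let `B` be the subfield of
the elements of `κ` algebraic over `A` (for instance `algebraicClosure (FractionRing A) κ`, or
`Subfield` of elements; use `IsAlgebraic.add, mul, inv` over the domain `A`). The `u l` are in `B`, `τ c` for `c : 𝓞 F₀` is
integral over `ℤ`, so in `B`; so `τ` has values in `B` (every element is a sum of `single e c`, and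
`τ (single e c) = τ (single 0 c) * ∏ l, u l ^ e l`). `x` is algebraic over `B` by `halg`, hence over `A`
(`IsAlgebraic.trans` / `Algebra.IsAlgebraic.trans` for `A → B → B(x)`).
-/

set_option autoImplicit false

noncomputable section

namespace Pool.Agent.Work.MP_e97a4d_nt.CT

open Pool.Agent.Work.UP NumberField

private theorem ep_comp {K C D : Type} [Field K] [Field C] [Field D] {d : ℕ} (f : K →+* C) (g : C →+* D)
    (h : K →+* D) (hfg : ∀ c, g (f c) = h c) : (lpm g).comp (lpm f) = (lpm h : Lp K d →+* Lp D d) := by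
  apply lp_hom_ext
  intro e a
  rw [RingHom.comp_apply, lpm_single, lpm_single, lpm_single, hfg]

private theorem ep_id {K : Type} [Field K] {d : ℕ} :
    (lpm (RingHom.id K) : Lp K d →+* Lp K d) = RingHom.id _ := by
  apply lp_hom_ext
  intro e a
  rw [lpm_single]
  rfl

/-- The monomials as units. -/
private def ep_mon {R κ : Type} [CommRing R] [Field κ] (τ : Lau R →+* κ) :
    Multiplicative (Fin 2 → ℤ) →* κˣ :=
  MonoidHom.toHomUnits ((τ : Lau R →* κ).comp (AddMonoidAlgebra.of R (Fin 2 → ℤ)))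

private theorem ep_mon_coe {R κ : Type} [CommRing R] [Field κ] (τ : Lau R →+* κ) (e : Fin 2 → ℤ) :
    (ep_mon τ (Multiplicative.ofAdd e) : κ) = τ (AddMonoidAlgebra.single e 1) := rfl

/-- The values of the variables. -/
private def ep_w {R κ : Type} [CommRing R] [Field κ] (τ : Lau R →+* κ) (l : Fin 2) : κˣ :=
  ep_mon τ (Multiplicative.ofAdd (Pi.single l 1))

private theorem ep_w_coe {R κ : Type} [CommRing R] [Field κ] (τ : Lau R →+* κ) (l : Fin 2) :
    (ep_w τ l : κ) = τ (AddMonoidAlgebra.single (Pi.single l 1) 1) := rfl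

private theorem ep_single {R κ : Type} [CommRing R] [Field κ] (τ : Lau R →+* κ) (e : Fin 2 → ℤ) :
    τ (AddMonoidAlgebra.single e 1) = mon (cu (ep_w τ)) e := by
  rw [← ep_mon_coe]
  have h1 : (Multiplicative.ofAdd e : Multiplicative (Fin 2 → ℤ)) =
      Multiplicative.ofAdd (Pi.single 0 1) ^ (e 0) * Multiplicative.ofAdd (Pi.single 1 1) ^ (e 1) := by
    rw [← ofAdd_zsmul, ← ofAdd_zsmul, ← ofAdd_add]
    congr 1
    funext i
    fin_cases i <;> simp
  rw [h1, map_mul, map_zpow, map_zpow]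
  unfold mon cu
  rw [Fin.prod_univ_two, Units.val_mul, Units.val_zpow_eq_zpow_val, Units.val_zpow_eq_zpow_val]
  rfl

theorem phi_inj_alg {K Ω : Type} [Field K] [Field Ω] [CharZero Ω] (φ : K →+* Ω)
    (hφ : ∀ c : Ω, IsAlgebraic ℚ c → c ∈ Set.range φ) (hφ' : ∀ c : K, IsAlgebraic ℚ (φ c)) {k : ℕ}
    (w : Fin k → Ωˣ) (hw : IsTranscendenceBasis ℤ (fun l => (w l : Ω))) :
    Function.Injective (ev φ w) ∧
      ∀ f : Ω, ∃ q : Polynomial (Lp K k), q ≠ 0 ∧ q.eval₂ (ev φ w) f = 0 := by
  have hmem : ∀ c, φ c ∈ algebraicClosure ℚ Ω := fun c => mem_algebraicClosure_iff.2 (hφ' c)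
  let ψ : K →+* algebraicClosure ℚ Ω := φ.codRestrict (algebraicClosure ℚ Ω) hmem
  have hψ : ∀ c, ((ψ c : algebraicClosure ℚ Ω) : Ω) = φ c := fun c => rfl
  have hbij : Function.Bijective ψ := by
    refine ⟨ψ.injective, fun y => ?_⟩
    obtain ⟨c, hc⟩ := hφ y (mem_algebraicClosure_iff.1 y.2)
    exact ⟨c, Subtype.ext hc⟩
  let ψe : K ≃+* algebraicClosure ℚ Ω := RingEquiv.ofBijective ψ hbij
  have hψe : ∀ c, ψe c = ψ c := fun c => rfl
  have hc1 : (lpm (ψe.symm : algebraicClosure ℚ Ω →+* K)).comp (lpm ψ) =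
      RingHom.id (Lp K k) := by
    rw [← ep_id]
    exact ep_comp _ _ _ fun c => ψe.symm_apply_apply c
  have hc2 : (lpm ψ).comp (lpm (ψe.symm : algebraicClosure ℚ Ω →+* K)) =
      RingHom.id (Lp (algebraicClosure ℚ Ω) k) := by
    rw [← ep_id]
    exact ep_comp _ _ _ fun c => ψe.apply_symm_apply c
  have hev : ev φ w = (ev (algebraMap (algebraicClosure ℚ Ω) Ω) w).comp (lpm ψ) := by
    apply lp_hom_ext
    intro e a
    rw [RingHom.comp_apply, lpm_single, ev_single, ev_single]
    rfl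
  have hinj : Function.Injective (lpm ψ : Lp K k →+* Lp (algebraicClosure ℚ Ω) k) := by
    intro x y hxy
    have h1 := congrArg (lpm (ψe.symm : algebraicClosure ℚ Ω →+* K)) hxy
    rw [← RingHom.comp_apply, ← RingHom.comp_apply, hc1] at h1
    exact h1
  have hsurj : Function.Surjective (lpm ψ : Lp K k →+* Lp (algebraicClosure ℚ Ω) k) := fun y =>
    ⟨lpm (ψe.symm : algebraicClosure ℚ Ω →+* K) y, RingHom.congr_fun hc2 y⟩
  refine ⟨?_, fun f => ?_⟩
  · rw [hev]
    exact (tb_inj w hw).comp hinj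
  · obtain ⟨q, hq, h0⟩ := tb_alg w hw f
    obtain ⟨q', hq'⟩ := Polynomial.map_surjective _ hsurj q
    refine ⟨q', ?_, ?_⟩
    · rintro rfl
      rw [Polynomial.map_zero] at hq'
      exact hq hq'.symm
    · rw [hev, ← Polynomial.eval₂_map, hq']
      exact h0

theorem tor_inj {F₀ κ : Type} [Field F₀] [NumberField F₀] [Field κ] [CharZero κ]
    (τ : Lau (𝓞 F₀) →+* κ)
    (hτ : Function.Injective (τ.comp (algebraMap (𝓞 F₀) (Lau (𝓞 F₀)))))
    (hu : IsTranscendenceBasis ℤ fun l : Fin 2 => τ (AddMonoidAlgebra.single (Pi.single l 1) 1)) :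
    Function.Injective τ := by
  have hint : ∀ c : 𝓞 F₀, τ (algebraMap (𝓞 F₀) (Lau (𝓞 F₀)) c) ∈ algebraicClosure ℚ κ := by
    intro c
    rw [mem_algebraicClosure_iff]
    have h1 : IsIntegral ℤ c := RingOfIntegers.isIntegral c
    have h2 : IsIntegral ℤ ((τ.comp (algebraMap (𝓞 F₀) (Lau (𝓞 F₀)))) c) :=
      h1.map (τ.comp (algebraMap (𝓞 F₀) (Lau (𝓞 F₀)))).toIntAlgHom
    exact (h2.tower_top (A := ℚ)).isAlgebraic
  let j : 𝓞 F₀ →+* algebraicClosure ℚ κ :=
    (τ.comp (algebraMap (𝓞 F₀) (Lau (𝓞 F₀)))).codRestrict (algebraicClosure ℚ κ) hint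
  have hj : Function.Injective j := fun x y hxy => hτ (congrArg Subtype.val hxy)
  have hτe : τ = (ev (algebraMap (algebraicClosure ℚ κ) κ) (ep_w τ)).comp
      (AddMonoidAlgebra.mapRingHom (Fin 2 → ℤ) j) := by
    apply AddMonoidAlgebra.ringHom_ext
    · intro c
      rw [RingHom.comp_apply, AddMonoidAlgebra.mapRingHom_single, ev_single, mon_zero, mul_one]
      rfl
    · intro e
      rw [RingHom.comp_apply, AddMonoidAlgebra.mapRingHom_single, ev_single, map_one, map_one, one_mul]
      exact ep_single τ e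
  have hmi : Function.Injective (AddMonoidAlgebra.mapRingHom (Fin 2 → ℤ) j) := by
    intro x y hxy
    have h1 : ∀ e, x.coeff e = y.coeff e := fun e => hj (by
      rw [← AddMonoidAlgebra.coeff_mapRingHom, ← AddMonoidAlgebra.coeff_mapRingHom, hxy])
    ext e
    rw [h1 e]
  rw [hτe]
  exact (tb_inj (ep_w τ) hu).comp hmi

theorem tor_alg {F₀ κ : Type} [Field F₀] [NumberField F₀] [Field κ] [CharZero κ]
    (τ : Lau (𝓞 F₀) →+* κ)
    (halg : ∀ x : κ, ∃ p : Polynomial (Lau (𝓞 F₀)), p.map τ ≠ 0 ∧ p.eval₂ τ x = 0) (x : κ) :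
    IsAlgebraic (Algebra.adjoin ℤ
      (Set.range fun l : Fin 2 => τ (AddMonoidAlgebra.single (Pi.single l 1) 1))) x := by
  set A := Algebra.adjoin ℤ
    (Set.range fun l : Fin 2 => τ (AddMonoidAlgebra.single (Pi.single l 1) 1)) with hA
  have hw : ∀ l, (ep_w τ l : κ) ∈ Subalgebra.algebraicClosure A κ := by
    intro l
    rw [Subalgebra.mem_algebraicClosure]
    have h1 : (ep_w τ l : κ) ∈ A := Algebra.subset_adjoin ⟨l, rfl⟩
    exact isAlgebraic_algebraMap (⟨_, h1⟩ : A)
  have hwi : ∀ l, ((ep_w τ l : κ))⁻¹ ∈ Subalgebra.algebraicClosure A κ := fun l =>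
    ((Subalgebra.mem_algebraicClosure A κ).1 (hw l)).inv
  have hz : ∀ l (m : ℤ), (ep_w τ l : κ) ^ m ∈ Subalgebra.algebraicClosure A κ := by
    intro l m
    obtain ⟨n, rfl | rfl⟩ := m.eq_nat_or_neg
    · rw [zpow_natCast]
      exact pow_mem (hw l) n
    · rw [zpow_neg, zpow_natCast, ← inv_pow]
      exact pow_mem (hwi l) n
  have hc : ∀ c : 𝓞 F₀, τ (AddMonoidAlgebra.single 0 c) ∈ Subalgebra.algebraicClosure A κ := by
    intro c
    rw [Subalgebra.mem_algebraicClosure]
    have h1 : IsIntegral ℤ c := RingOfIntegers.isIntegral c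
    have h2 : IsIntegral ℤ ((τ.comp (algebraMap (𝓞 F₀) (Lau (𝓞 F₀)))) c) :=
      h1.map (τ.comp (algebraMap (𝓞 F₀) (Lau (𝓞 F₀)))).toIntAlgHom
    exact (h2.tower_top (A := A)).isAlgebraic
  have hτB : ∀ y, τ y ∈ Subalgebra.algebraicClosure A κ := by
    intro y
    induction y using AddMonoidAlgebra.induction_linear with
    | zero => rw [map_zero]; exact zero_mem _
    | add f g hf hg => rw [map_add]; exact add_mem hf hg
    | single e c =>
      have h1 : (AddMonoidAlgebra.single e c : Lau (𝓞 F₀)) =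
          AddMonoidAlgebra.single 0 c * AddMonoidAlgebra.single e 1 := by
        rw [AddMonoidAlgebra.single_mul_single, zero_add, mul_one]
      rw [h1, map_mul, ep_single]
      exact mul_mem (hc c) (prod_mem fun l _ => hz l (e l))
  obtain ⟨p, hp, h0⟩ := halg x
  let τ' : Lau (𝓞 F₀) →+* Subalgebra.algebraicClosure A κ :=
    τ.codRestrict (Subalgebra.algebraicClosure A κ) hτB
  have hττ : (algebraMap (Subalgebra.algebraicClosure A κ) κ).comp τ' = τ := rfl
  have hx : IsAlgebraic (Subalgebra.algebraicClosure A κ) x := by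
    refine ⟨p.map τ', ?_, ?_⟩
    · intro h1
      apply hp
      rw [← hττ, ← Polynomial.map_map, h1, Polynomial.map_zero]
    · rw [Polynomial.aeval_def, Polynomial.eval₂_map, hττ]
      exact h0
  exact hx.restrictScalars A

end Pool.Agent.Work.MP_e97a4d_nt.CT
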