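import Pool.Agent.Work.MP_e97a4d_nt.CT.Defs
import Pool.Agent.Work.UP.LUfd

/-!
# CT/TwoA (size M): the degree valuation of the field of rational functions

PROOF. For `p : Lp K k`, `p ≠ 0`, let `δ p := max (dg ξ e)` over the support (`Finset.sup'` or
`Finset.exists_max_image`), and `v₀ p := exp (δ p)`, `v₀ 0 := 0`. (1) `v₀ (p + q) ≤ max (v₀ p) (v₀ q)`: the support of a
sum is in the union. (2) `v₀ (p q) = v₀ p * v₀ q`: `≤` because exponents of the product are sums of exponents
(`AddMonoidAlgebra.support_mul`); `≥`: let `a`, `b` be the largest exponents of `p`, `q` for the order by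
`(dg ξ e, toLex e)` (as in CT/Top: `IsTop`; `δ p = dg ξ a`, `δ q = dg ξ b`); the coefficient of `p q` at `a + b` is the
product of the coefficients at `a` and `b` (any other pair of exponents with sum `a + b` has one member larger than
`a` or `b`), not zero; so `a + b` is an exponent of `p q`. Extend `v₀` to the fraction field:
`v (p / q) := v₀ p / v₀ q`, well defined by (2); an absolute value (`IsLocalization.mk'_surjective`,
`IsFractionRing.div_surjective`; perhaps easier: a `Valuation (Lp K k) NNReal` by (1), (2) with trivial support, and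
`Valuation.extendToLocalization` / `Valuation.ofFractionRing..`; then as an absolute value). Nonarchimedean: common
denominator.
-/

set_option autoImplicit false

noncomputable section

namespace Pool.Agent.Work.MP_e97a4d_nt.CT

open Pool.Agent.Work.UP

private theorem ga_dg_add {d : ℕ} (ξ : Fin d → ℝ) (a b : Fin d → ℤ) :
    dg ξ (a + b) = dg ξ a + dg ξ b := by
  unfold dg
  rw [← Finset.sum_add_distrib]
  refine Finset.sum_congr rfl fun l _ => ?_
  rw [Pi.add_apply]
  push_cast
  ring

private theorem ga_top {K : Type} [Field K] {d : ℕ} (ξ : Fin d → ℝ) (p : Lp K d) (hp : p ≠ 0) :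
    ∃ a, IsTop ξ p a := by
  classical
  have hne : p.coeff.support.Nonempty := by
    rw [Finset.nonempty_iff_ne_empty]
    intro h
    apply hp
    have h1 : p.coeff = 0 := Finsupp.support_eq_empty.1 h
    ext e
    rw [h1]
    rfl
  obtain ⟨a, ha, hmax⟩ := Finset.exists_max_image p.coeff.support
    (fun b : Fin d → ℤ => (toLex (dg ξ b, toLex b) : ℝ ×ₗ Lex (Fin d → ℤ))) hne
  refine ⟨a, ha, ?_⟩
  intro b hb hne
  have h1 := hmax b hb
  have h2 : (toLex (dg ξ b, toLex b) : ℝ ×ₗ Lex (Fin d → ℤ)) ≠ toLex (dg ξ a, toLex a) := by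
    intro h
    have h3 := toLex.injective h
    have h4 := congrArg Prod.snd h3
    exact hne (toLex.injective h4)
  have h5 := lt_of_le_of_ne h1 h2
  rw [Prod.Lex.toLex_lt_toLex] at h5
  exact h5

private theorem ga_top_le {K : Type} [Field K] {d : ℕ} {ξ : Fin d → ℝ} {p : Lp K d} {a : Fin d → ℤ}
    (h : IsTop ξ p a) (b : Fin d → ℤ) (hb : b ∈ p.coeff.support) : dg ξ b ≤ dg ξ a := by
  by_cases hba : b = a
  · rw [hba]
  · rcases h.2 b hb hba with h1 | h1
    · exact h1.le
    · exact h1.1.le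

/-- The largest value of `exp (dg ξ e)` over the exponents. -/
private def gv {K : Type} [Field K] {d : ℕ} (ξ : Fin d → ℝ) (p : Lp K d) : NNReal :=
  p.coeff.support.sup fun e => Real.toNNReal (Real.exp (dg ξ e))

private theorem gv_top {K : Type} [Field K] {d : ℕ} {ξ : Fin d → ℝ} {p : Lp K d} {a : Fin d → ℤ}
    (h : IsTop ξ p a) : gv ξ p = Real.toNNReal (Real.exp (dg ξ a)) := by
  apply le_antisymm
  · unfold gv
    rw [Finset.sup_le_iff]
    intro b hb
    exact Real.toNNReal_le_toNNReal (Real.exp_le_exp.2 (ga_top_le h b hb))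
  · exact Finset.le_sup (f := fun e => Real.toNNReal (Real.exp (dg ξ e))) h.1

private theorem gv_zero {K : Type} [Field K] {d : ℕ} (ξ : Fin d → ℝ) : gv ξ (0 : Lp K d) = 0 := by
  unfold gv
  simp

private theorem gv_ne {K : Type} [Field K] {d : ℕ} (ξ : Fin d → ℝ) {p : Lp K d} (hp : p ≠ 0) :
    gv ξ p ≠ 0 := by
  obtain ⟨a, ha⟩ := ga_top ξ p hp
  rw [gv_top ha, Ne, Real.toNNReal_eq_zero, not_le]
  exact Real.exp_pos _

private theorem gv_one {K : Type} [Field K] {d : ℕ} (ξ : Fin d → ℝ) : gv ξ (1 : Lp K d) = 1 := by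
  have h : IsTop ξ (1 : Lp K d) 0 := by
    have hs : (1 : Lp K d).coeff.support = {0} := by
      show (Finsupp.single (0 : Fin d → ℤ) (1 : K)).support = {0}
      exact Finsupp.support_single _ one_ne_zero
    refine ⟨by rw [hs]; exact Finset.mem_singleton_self _, ?_⟩
    intro b hb hne
    rw [hs, Finset.mem_singleton] at hb
    exact absurd hb hne
  rw [gv_top h]
  have h0 : dg ξ 0 = 0 := by
    unfold dg
    simp
  rw [h0, Real.exp_zero, Real.toNNReal_one]

private theorem ga_top_mul {K : Type} [Field K] {d : ℕ} {ξ : Fin d → ℝ} {p q : Lp K d}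
    {a b : Fin d → ℤ} (hp : IsTop ξ p a) (hq : IsTop ξ q b) : IsTop ξ (p * q) (a + b) := by
  classical
  have hlt : ∀ x y x' y' : Fin d → ℤ, (dg ξ x < dg ξ x' ∨ (dg ξ x = dg ξ x' ∧ toLex x < toLex x')) →
      (y = y' ∨ (dg ξ y < dg ξ y' ∨ (dg ξ y = dg ξ y' ∧ toLex y < toLex y'))) →
      dg ξ (x + y) < dg ξ (x' + y') ∨ (dg ξ (x + y) = dg ξ (x' + y') ∧ toLex (x + y) < toLex (x' + y')) := by
    intro x y x' y' h1 h2
    rw [ga_dg_add, ga_dg_add]
    rcases h2 with rfl | h2
    · rcases h1 with h1 | ⟨h1, h3⟩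
      · exact Or.inl (by linarith)
      · refine Or.inr ⟨by rw [h1], ?_⟩
        show toLex x + toLex y < toLex x' + toLex y
        exact add_lt_add_left h3 _
    · rcases h1 with h1 | ⟨h1, h3⟩
      · rcases h2 with h2 | ⟨h2, h4⟩
        · exact Or.inl (by linarith)
        · exact Or.inl (by linarith)
      · rcases h2 with h2 | ⟨h2, h4⟩
        · exact Or.inl (by linarith)
        · refine Or.inr ⟨by rw [h1, h2], ?_⟩
          show toLex x + toLex y < toLex x' + toLex y'
          exact add_lt_add h3 h4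
  have key : ∀ x ∈ p.coeff.support, ∀ y ∈ q.coeff.support, ¬ (x = a ∧ y = b) →
      dg ξ (x + y) < dg ξ (a + b) ∨ (dg ξ (x + y) = dg ξ (a + b) ∧ toLex (x + y) < toLex (a + b)) := by
    intro x hx y hy hne
    by_cases hxa : x = a
    · subst hxa
      have hyb : y ≠ b := fun h => hne ⟨rfl, h⟩
      have h1 := hlt y x b x (hq.2 y hy hyb) (Or.inl rfl)
      rw [add_comm y x, add_comm b x] at h1
      exact h1
    · refine hlt x y a b (hp.2 x hx hxa) ?_
      by_cases hyb : y = b
      · exact Or.inl hyb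
      · exact Or.inr (hq.2 y hy hyb)
  have hirr : ∀ x : Fin d → ℤ, ¬ (dg ξ x < dg ξ x ∨ (dg ξ x = dg ξ x ∧ toLex x < toLex x)) := by
    intro x h
    rcases h with h | h
    · exact lt_irrefl _ h
    · exact lt_irrefl _ h.2
  have huniq : UniqueAdd p.coeff.support q.coeff.support a b := by
    intro x y hx hy hxy
    by_contra hcon
    have h1 := key x hx y hy hcon
    rw [hxy] at h1
    exact hirr _ h1
  have hc : (p * q).coeff (a + b) = p.coeff a * q.coeff b :=
    AddMonoidAlgebra.coeff_mul_add_of_uniqueAdd huniq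
  refine ⟨?_, ?_⟩
  · rw [Finsupp.mem_support_iff, hc]
    exact mul_ne_zero (Finsupp.mem_support_iff.1 hp.1) (Finsupp.mem_support_iff.1 hq.1)
  · intro e he hne
    rw [Finsupp.mem_support_iff, AddMonoidAlgebra.coeff_mul] at he
    obtain ⟨m₁, h1, h2⟩ := Finset.exists_ne_zero_of_sum_ne_zero he
    obtain ⟨m₂, h3, h4⟩ := Finset.exists_ne_zero_of_sum_ne_zero h2
    have h5 : m₁ + m₂ = e := by
      by_contra h
      apply h4
      simp [h]
    rw [← h5]
    refine key m₁ h1 m₂ h3 ?_
    rintro ⟨rfl, rfl⟩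
    exact hne h5.symm

private theorem gv_mul {K : Type} [Field K] {d : ℕ} (ξ : Fin d → ℝ) (p q : Lp K d) :
    gv ξ (p * q) = gv ξ p * gv ξ q := by
  by_cases hp : p = 0
  · rw [hp, zero_mul, gv_zero, zero_mul]
  by_cases hq : q = 0
  · rw [hq, mul_zero, gv_zero, mul_zero]
  obtain ⟨a, ha⟩ := ga_top ξ p hp
  obtain ⟨b, hb⟩ := ga_top ξ q hq
  rw [gv_top ha, gv_top hb, gv_top (ga_top_mul ha hb), ga_dg_add, Real.exp_add,
    Real.toNNReal_mul (Real.exp_pos _).le]

private theorem gv_add {K : Type} [Field K] {d : ℕ} (ξ : Fin d → ℝ) (p q : Lp K d) :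
    gv ξ (p + q) ≤ max (gv ξ p) (gv ξ q) := by
  classical
  unfold gv
  rw [Finset.sup_le_iff]
  intro e he
  by_cases h1 : e ∈ p.coeff.support
  · exact le_max_of_le_left
      (Finset.le_sup (f := fun e => Real.toNNReal (Real.exp (dg ξ e))) h1)
  · by_cases h2 : e ∈ q.coeff.support
    · exact le_max_of_le_right
        (Finset.le_sup (f := fun e => Real.toNNReal (Real.exp (dg ξ e))) h2)
    · exfalso
      rw [Finsupp.mem_support_iff] at he
      apply he
      rw [Finsupp.notMem_support_iff] at h1 h2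
      show (p.coeff + q.coeff) e = 0
      rw [Finsupp.add_apply, h1, h2, add_zero]

private def gval {K : Type} [Field K] {d : ℕ} (ξ : Fin d → ℝ) : Valuation (Lp K d) NNReal where
  toFun := gv ξ
  map_zero' := gv_zero ξ
  map_one' := gv_one ξ
  map_mul' := gv_mul ξ
  map_add_le_max' := gv_add ξ

theorem gauss_abs {K : Type} [Field K] {k : ℕ} (ξ : Fin k → ℝ) :
    ∃ v : AbsoluteValue (FractionRing (Lp K k)) ℝ, IsNonarchimedean v ∧
      ∀ p : Lp K k, p ≠ 0 →
        IsGreatest ((fun e => Real.exp (dg ξ e)) '' (p.coeff.support : Set (Fin k → ℤ)))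
          (v (algebraMap (Lp K k) (FractionRing (Lp K k)) p)) := by
  classical
  have : UniqueFactorizationMonoid (Lp K k) := lp_ufd K k
  have hS : nonZeroDivisors (Lp K k) ≤ (gval ξ : Valuation (Lp K k) NNReal).supp.primeCompl := by
    intro s hs hs'
    exact gv_ne ξ (nonZeroDivisors.ne_zero hs) hs'
  set w : Valuation (FractionRing (Lp K k)) NNReal :=
    (gval ξ).extendToLocalization hS (FractionRing (Lp K k)) with hw
  let v : AbsoluteValue (FractionRing (Lp K k)) ℝ :=
    { toFun := fun x => (w x : ℝ)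
      map_mul' := fun x y => by rw [map_mul, NNReal.coe_mul]
      nonneg' := fun x => (w x).coe_nonneg
      eq_zero' := fun x => by rw [NNReal.coe_eq_zero, Valuation.zero_iff]
      add_le' := fun x y => by
        rw [← NNReal.coe_add, NNReal.coe_le_coe]
        exact (w.map_add x y).trans (max_le_add_of_nonneg zero_le zero_le) }
  refine ⟨v, ?_, ?_⟩
  · intro x y
    show (w (x + y) : ℝ) ≤ max (w x : ℝ) (w y : ℝ)
    rw [← NNReal.coe_max, NNReal.coe_le_coe]
    exact w.map_add x y
  · intro p hp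
    obtain ⟨a, ha⟩ := ga_top ξ p hp
    have h1 : v (algebraMap (Lp K k) (FractionRing (Lp K k)) p) = Real.exp (dg ξ a) := by
      show (w (algebraMap (Lp K k) (FractionRing (Lp K k)) p) : ℝ) = _
      rw [hw, Valuation.extendToLocalization_apply_map_apply]
      show (gv ξ p : ℝ) = _
      rw [gv_top ha, Real.coe_toNNReal _ (Real.exp_pos _).le]
    rw [h1]
    refine ⟨⟨a, ha.1, rfl⟩, ?_⟩
    rintro _ ⟨b, hb, rfl⟩
    exact Real.exp_le_exp.2 (ga_top_le ha b hb)

end Pool.Agent.Work.MP_e97a4d_nt.CT
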