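import Pool.Agent.Work.MP_e97a4d_nt.CT.EDefs
import Pool.Agent.Work.MP_e97a4d_nt.CT.TwoA

/-!
# CT/ERadA (size M-L): radicals

`dg ξ e = ∑ l, e l * ξ l` (CT/Defs); `wt ξ μ e i = dg ξ e + i * μ`.

PROOF of `rad_irr`. `R := Lp K k` is a unique factorization domain (`lp_ufd`), so integrally closed; `Q := FractionRing R`. The
polynomial is monic (`Polynomial.monic_X_pow_sub_C`), so by
`Polynomial.Monic.irreducible_iff_irreducible_map_fraction_map` it is enough that `X ^ p - C (algebraMap F)` is irreducible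
over `Q`: `X_pow_sub_C_irreducible_of_prime` if `algebraMap F ≠ b ^ p` for all `b : Q`. If `b ^ p = algebraMap F`, then `b`
is integral over `R` (`IsIntegral.of_pow`), so `b = algebraMap g` (`IsIntegrallyClosed.isIntegral_iff`), `g ^ p = F`.

PROOF of `rad_split`. Let `h` be as in `PowLead`, `M` the maximum of `dg ξ` on the support of `h`, `h₀` the sum of the terms of
`h` with `dg ξ e = M` (`⟨h.coeff.filter _⟩`), `h₀ ≠ 0`. Let `v` be the absolute value of `gauss_abs ξ` (CT/TwoA), `v p = exp` of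
the maximum of `dg ξ` on the support of `p ≠ 0`. `v h = v h₀ = exp M`, `v (h - h₀) < exp M` (all exponents of `h - h₀` have
`dg ξ e < M`, or `h = h₀`). `h ^ p - h₀ ^ p = (h - h₀) * ∑ i < p, h ^ i * h₀ ^ (p - 1 - i)` (`Commute.geom_sum₂_mul` or
`Commute.mul_geom_sum₂`), so its value is `< exp (p M)` (ultrametric). `v (F - h ^ p) < exp (p M)` by the hypothesis (an exponent `e` has
`dg ξ e < p * dg ξ e' ≤ p * M`; or it is zero). So `v (F - h₀ ^ p) < exp (p M)`, and every exponent of `F - h₀ ^ p` has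
`dg ξ e < p M` (`IsGreatest`).
Take `μ := M`, `P := X - C h₀`, `Q := ∑ i < p, C (h₀ ^ (p - 1 - i)) * X ^ i`, `P * Q = X ^ p - C (h₀ ^ p)`
(`Commute.mul_geom_sum₂` with `X`, `C h₀`). `P` is monic of degree `1`, `Q` is monic of degree `p - 1 ≥ 1`. `isoP`: coefficient `1` at `X`:
exponent `0`, weight `M`; coefficient `- h₀` at `1`: weight `M`. `isoQ`: an exponent of `h₀ ^ n` has `dg ξ e = n M` (induction,
`AddMonoidAlgebra.support_mul`), so weight `(p - 1 - i) M + i M = (p - 1) M`. `cop`: let `D` divide `P` and `Q`. `P` is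
irreducible (`Polynomial.irreducible_X_sub_C` over a field; over the domain `R`: `Polynomial.Monic.irreducible_of_degree_eq_one` or
`P` is prime), so `D` is a unit or `P` divides `D`, hence `Q`; then `Q.eval h₀ = 0`, but `Q.eval h₀ = p * h₀ ^ (p - 1) ≠ 0`
(characteristic zero, domain). `deg`: `p = 1 + (p - 1)`. `low`: `G - P * Q = - C (F - h₀ ^ p)`: only `i = 0`, weight
`dg ξ e < p M`.
-/

set_option autoImplicit false

noncomputable section

namespace Pool.Agent.Work.MP_e97a4d_nt.CT

open Pool.Agent.Work.UP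

theorem rad_irr {K : Type} [Field K] {k p : ℕ} (hp : p.Prime) (F : Lp K k)
    (hF : ¬ ∃ g : Lp K k, g ^ p = F) :
    Irreducible (Polynomial.X ^ p - Polynomial.C F : Polynomial (Lp K k)) := by
  classical
  have := lp_ufd K k
  have hm : (Polynomial.X ^ p - Polynomial.C F : Polynomial (Lp K k)).Monic :=
    Polynomial.monic_X_pow_sub_C F hp.ne_zero
  rw [Polynomial.Monic.irreducible_iff_irreducible_map_fraction_map (K := FractionRing (Lp K k)) hm]
  rw [Polynomial.map_sub, Polynomial.map_pow, Polynomial.map_X, Polynomial.map_C]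
  refine X_pow_sub_C_irreducible_of_prime hp ?_
  intro b hb
  have hint : IsIntegral (Lp K k) b := by
    refine IsIntegral.of_pow hp.pos ?_
    rw [hb]
    exact isIntegral_algebraMap
  obtain ⟨g, rfl⟩ := IsIntegrallyClosed.isIntegral_iff.1 hint
  rw [← map_pow] at hb
  exact hF ⟨g, IsFractionRing.injective _ _ hb⟩

private theorem era_dg_add {d : ℕ} (ξ : Fin d → ℝ) (a b : Fin d → ℤ) :
    dg ξ (a + b) = dg ξ a + dg ξ b := by
  unfold dg
  rw [← Finset.sum_add_distrib]
  refine Finset.sum_congr rfl fun l _ => ?_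
  rw [Pi.add_apply]
  push_cast
  ring

private theorem era_dg_zero {d : ℕ} (ξ : Fin d → ℝ) : dg ξ 0 = 0 := by
  unfold dg
  simp

private theorem era_wt {d : ℕ} (ξ : Fin d → ℝ) (μ : ℝ) (e : Fin d → ℤ) (i : ℕ) :
    wt ξ μ e i = dg ξ e + i * μ := rfl

private theorem era_one {K : Type} [Field K] {d : ℕ} {e : Fin d → ℤ}
    (he : e ∈ (1 : Lp K d).coeff.support) : e = 0 := by
  have hs : (1 : Lp K d).coeff.support = {0} := by
    show (Finsupp.single (0 : Fin d → ℤ) (1 : K)).support = {0}
    exact Finsupp.support_single _ one_ne_zero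
  rw [hs, Finset.mem_singleton] at he
  exact he

private theorem era_mul {K : Type} [Field K] {d : ℕ} {p q : Lp K d} {e : Fin d → ℤ}
    (he : e ∈ (p * q).coeff.support) :
    ∃ a ∈ p.coeff.support, ∃ b ∈ q.coeff.support, a + b = e := by
  classical
  rw [Finsupp.mem_support_iff, AddMonoidAlgebra.coeff_mul] at he
  obtain ⟨m₁, h1, h2⟩ := Finset.exists_ne_zero_of_sum_ne_zero he
  obtain ⟨m₂, h3, h4⟩ := Finset.exists_ne_zero_of_sum_ne_zero h2
  refine ⟨m₁, h1, m₂, h3, ?_⟩
  by_contra h
  apply h4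
  simp [h]

private theorem era_pow {K : Type} [Field K] {d : ℕ} {ξ : Fin d → ℝ} {M : ℝ} {h₀ : Lp K d}
    (hh : ∀ e ∈ h₀.coeff.support, dg ξ e = M) (n : ℕ) :
    ∀ e ∈ (h₀ ^ n).coeff.support, dg ξ e = n * M := by
  induction n with
  | zero =>
    intro e he
    rw [pow_zero] at he
    rw [era_one he, era_dg_zero, Nat.cast_zero, zero_mul]
  | succ n ih =>
    intro e he
    rw [pow_succ] at he
    obtain ⟨a, ha, b, hb, rfl⟩ := era_mul he
    rw [era_dg_add, ih a ha, hh b hb]
    push_cast
    ring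

private theorem era_sum {R : Type} [CommRing R] (v : AbsoluteValue R ℝ) (hv : IsNonarchimedean v)
    (s : Finset ℕ) (f : ℕ → R) {B : ℝ} (hB : 0 ≤ B) (h : ∀ i ∈ s, v (f i) ≤ B) :
    v (∑ i ∈ s, f i) ≤ B := by
  classical
  induction s using Finset.induction_on with
  | empty => rw [Finset.sum_empty, map_zero]; exact hB
  | insert i s hi ih =>
    rw [Finset.sum_insert hi]
    refine (hv _ _).trans (max_le (h i (Finset.mem_insert_self _ _)) (ih fun j hj => ?_))
    exact h j (Finset.mem_insert_of_mem hj)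

private theorem era_neg {K : Type} [Field K] {d : ℕ} {p : Lp K d} {e : Fin d → ℤ}
    (he : e ∈ (-p).coeff.support) : e ∈ p.coeff.support := by
  rw [Finsupp.mem_support_iff] at he ⊢
  intro h
  apply he
  show -(p.coeff e) = 0
  rw [h, neg_zero]

private theorem era_not_zero {K : Type} [Field K] {d : ℕ} {e : Fin d → ℤ}
    (he : e ∈ (0 : Lp K d).coeff.support) : False := by
  rw [Finsupp.mem_support_iff] at he
  exact he rfl

theorem rad_split {K : Type} [Field K] [CharZero K] {k p : ℕ} (hp : p.Prime) (ξ : Fin k → ℝ)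
    (F : Lp K k) (h : PowLead ξ p F) :
    LeadSplits ξ (Polynomial.X ^ p - Polynomial.C F : Polynomial (Lp K k)) := by
  classical
  have := lp_ufd K k
  obtain ⟨h, hne, hF⟩ := h
  obtain ⟨v, hv, hgr⟩ := gauss_abs (K := K) ξ
  -- values and exponents
  have V_lt : ∀ (q : Lp K k) (M : ℝ), v (algebraMap (Lp K k) (FractionRing (Lp K k)) q) < Real.exp M ↔
      ∀ e ∈ q.coeff.support, dg ξ e < M := by
    intro q M
    by_cases hq : q = 0
    · subst hq
      rw [map_zero, map_zero]
      exact ⟨fun _ e he => (era_not_zero he).elim, fun _ => Real.exp_pos M⟩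
    · obtain ⟨⟨e, he, hev⟩, hmax⟩ := hgr q hq
      constructor
      · intro h1 e' he'
        have h2 := hmax ⟨e', he', rfl⟩
        exact Real.exp_lt_exp.1 (lt_of_le_of_lt h2 h1)
      · intro h1
        rw [← hev]
        exact Real.exp_lt_exp.2 (h1 e he)
  have V_le : ∀ (q : Lp K k) (M : ℝ), (∀ e ∈ q.coeff.support, dg ξ e ≤ M) →
      v (algebraMap (Lp K k) (FractionRing (Lp K k)) q) ≤ Real.exp M := by
    intro q M h1
    by_cases hq : q = 0
    · subst hq
      rw [map_zero, map_zero]
      exact (Real.exp_pos M).le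
    · obtain ⟨⟨e, he, hev⟩, -⟩ := hgr q hq
      rw [← hev]
      exact Real.exp_le_exp.2 (h1 e he)
  -- the largest weight
  have hsne : h.coeff.support.Nonempty := by
    rw [Finset.nonempty_iff_ne_empty]
    intro h0
    apply hne
    have h1 : h.coeff = 0 := Finsupp.support_eq_empty.1 h0
    ext e
    rw [h1]
    rfl
  obtain ⟨e₀, he₀, hmax⟩ := Finset.exists_max_image h.coeff.support (fun e => dg ξ e) hsne
  set M : ℝ := dg ξ e₀ with hM
  set h₀ : Lp K k := ⟨h.coeff.filter fun e => dg ξ e = M⟩ with hh₀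
  have hc1 : ∀ e, dg ξ e = M → h₀.coeff e = h.coeff e := fun e he =>
    Finsupp.filter_apply_pos _ _ he
  have hc2 : ∀ e, dg ξ e ≠ M → h₀.coeff e = 0 := fun e he =>
    Finsupp.filter_apply_neg _ _ he
  have hs0 : ∀ e ∈ h₀.coeff.support, dg ξ e = M := by
    intro e he
    by_contra hcon
    exact Finsupp.mem_support_iff.1 he (hc2 e hcon)
  have h₀ne : h₀ ≠ 0 := by
    intro h0
    have h1 := hc1 e₀ rfl
    rw [h0] at h1
    exact Finsupp.mem_support_iff.1 he₀ h1.symm
  have hd : ∀ e ∈ (h - h₀).coeff.support, dg ξ e < M := by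
    intro e he
    have h1 : h.coeff e - h₀.coeff e ≠ 0 := Finsupp.mem_support_iff.1 he
    by_cases h2 : dg ξ e = M
    · rw [hc1 e h2, sub_self] at h1
      exact absurd rfl h1
    · rw [hc2 e h2, sub_zero] at h1
      exact lt_of_le_of_ne (hmax e (Finsupp.mem_support_iff.2 h1)) h2
  set ι := algebraMap (Lp K k) (FractionRing (Lp K k)) with hι
  have v1 : v (ι (h - h₀)) < Real.exp M := (V_lt _ _).2 hd
  have v2 : v (ι h) ≤ Real.exp M := V_le _ _ hmax
  have v3 : v (ι h₀) ≤ Real.exp M := V_le _ _ fun e he => (hs0 e he).le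
  have hp1 : ((p - 1 : ℕ) : ℝ) = p - 1 := by
    rw [Nat.cast_sub hp.one_lt.le, Nat.cast_one]
  have v4 : v (∑ i ∈ Finset.range p, ι h ^ i * ι h₀ ^ (p - 1 - i)) ≤ Real.exp ((p - 1) * M) := by
    refine era_sum v hv _ _ (Real.exp_pos _).le fun i hi => ?_
    have hip : i ≤ p - 1 := by
      have := Finset.mem_range.1 hi
      omega
    rw [map_mul, map_pow, map_pow]
    calc v (ι h) ^ i * v (ι h₀) ^ (p - 1 - i)
        ≤ Real.exp M ^ i * Real.exp M ^ (p - 1 - i) := by
          gcongr
      _ = Real.exp ((p - 1) * M) := by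
          rw [← pow_add, Nat.add_sub_cancel' hip, ← Real.exp_nat_mul, hp1]
  have v5 : v (ι (h ^ p - h₀ ^ p)) < Real.exp (p * M) := by
    have h1 : ι (h ^ p - h₀ ^ p) =
        (ι (h - h₀)) * ∑ i ∈ Finset.range p, ι h ^ i * ι h₀ ^ (p - 1 - i) := by
      rw [map_sub, map_sub, map_pow, map_pow]
      exact ((Commute.all _ _).mul_geom_sum₂ p).symm
    rw [h1, map_mul]
    have h2 : Real.exp (p * M) = Real.exp M * Real.exp ((p - 1) * M) := by
      rw [← Real.exp_add]
      congr 1
      ring
    rw [h2]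
    calc v (ι (h - h₀)) * v (∑ i ∈ Finset.range p, ι h ^ i * ι h₀ ^ (p - 1 - i))
        ≤ v (ι (h - h₀)) * Real.exp ((p - 1) * M) :=
          mul_le_mul_of_nonneg_left v4 (v.nonneg _)
      _ < Real.exp M * Real.exp ((p - 1) * M) :=
          mul_lt_mul_of_pos_right v1 (Real.exp_pos _)
  have v6 : v (ι (F - h ^ p)) < Real.exp (p * M) := by
    rw [V_lt]
    intro e he
    obtain ⟨e', he', h1⟩ := hF e he
    have h2 : dg ξ e < p * dg ξ e' := h1
    have h3 : (p : ℝ) * dg ξ e' ≤ p * M :=
      mul_le_mul_of_nonneg_left (hmax e' he') (Nat.cast_nonneg p)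
    exact lt_of_lt_of_le h2 h3
  have v7 : ∀ e ∈ (F - h₀ ^ p).coeff.support, dg ξ e < p * M := by
    rw [← V_lt]
    have h1 : F - h₀ ^ p = (F - h ^ p) + (h ^ p - h₀ ^ p) := by ring
    rw [h1, map_add]
    exact lt_of_le_of_lt (hv _ _) (max_lt v6 v5)
  -- the two factors
  set P : Polynomial (Lp K k) := Polynomial.X - Polynomial.C h₀ with hP
  set Q : Polynomial (Lp K k) :=
    ∑ i ∈ Finset.range p, Polynomial.X ^ i * Polynomial.C h₀ ^ (p - 1 - i) with hQ
  have hPQ : P * Q = Polynomial.X ^ p - Polynomial.C (h₀ ^ p) := by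
    rw [hP, hQ, (Commute.all _ _).mul_geom_sum₂, Polynomial.C_pow]
  have hPm : P.Monic := Polynomial.monic_X_sub_C h₀
  have hPQm : (P * Q).Monic := by
    rw [hPQ]
    exact Polynomial.monic_X_pow_sub_C _ hp.ne_zero
  have hQm : Q.Monic := hPm.of_mul_monic_left hPQm
  have hPd : P.natDegree = 1 := Polynomial.natDegree_X_sub_C h₀
  have hdeg : p = P.natDegree + Q.natDegree := by
    rw [← hPm.natDegree_mul hQm, hPQ, Polynomial.natDegree_X_pow_sub_C]
  have hQd : Q.natDegree = p - 1 := by omega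
  have hQc : ∀ i, Q.coeff i = if i < p then h₀ ^ (p - 1 - i) else 0 := by
    intro i
    rw [hQ, Polynomial.finset_sum_coeff]
    have h1 : ∀ j ∈ Finset.range p,
        (Polynomial.X ^ j * Polynomial.C h₀ ^ (p - 1 - j) : Polynomial (Lp K k)).coeff i =
        if i = j then h₀ ^ (p - 1 - j) else 0 := by
      intro j _
      rw [← Polynomial.C_pow, Polynomial.coeff_mul_C, Polynomial.coeff_X_pow]
      split_ifs <;> simp
    rw [Finset.sum_congr rfl h1, Finset.sum_ite_eq]
    simp only [Finset.mem_range]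
  refine ⟨M, P, Q, ?_⟩
  refine
    { monicP := hPm
      monicQ := hQm
      posP := by rw [hPd]; exact one_pos
      posQ := by rw [hQd]; have := hp.two_le; omega
      cop := ?_
      isoP := ?_
      isoQ := ?_
      deg := by rw [Polynomial.natDegree_X_pow_sub_C]; exact hdeg
      low := ?_ }
  · intro D hD1 hD2
    have hPi : Irreducible P := Polynomial.irreducible_X_sub_C h₀
    rcases hPi.dvd_iff.1 hD1 with hu | hu
    · exact hu
    · exfalso
      have h1 : P ∣ Q := hu.dvd.trans hD2
      rw [hP, Polynomial.dvd_iff_isRoot, Polynomial.IsRoot.def, hQ, Polynomial.eval_finset_sum] at h1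
      have h2 : ∀ i ∈ Finset.range p,
          (Polynomial.X ^ i * Polynomial.C h₀ ^ (p - 1 - i) : Polynomial (Lp K k)).eval h₀ =
          h₀ ^ (p - 1) := by
        intro i hi
        have := Finset.mem_range.1 hi
        rw [Polynomial.eval_mul, Polynomial.eval_pow, Polynomial.eval_X, Polynomial.eval_pow,
          Polynomial.eval_C, ← pow_add]
        congr 1
        omega
      rw [Finset.sum_congr rfl h2, Finset.sum_const, Finset.card_range, nsmul_eq_mul] at h1
      rcases mul_eq_zero.1 h1 with h3 | h3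
      · have h4 : (lC (p : K) : Lp K k) = 0 := by rw [map_natCast]; exact h3
        have h5 : (p : K) = 0 := (map_eq_zero_iff _ (lC : K →+* Lp K k).injective).1 h4
        exact hp.ne_zero (by exact_mod_cast h5)
      · exact h₀ne (pow_eq_zero_iff (by have := hp.two_le; omega) |>.1 h3)
  · intro i e he
    rw [hPd, hP, Polynomial.coeff_sub, Polynomial.coeff_X, Polynomial.coeff_C] at *
    rcases Nat.lt_or_ge i 1 with hi | hi
    · obtain rfl : i = 0 := by omega
      rw [if_neg (by norm_num), if_pos rfl, zero_sub] at he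
      rw [era_wt, hs0 e (era_neg he)]
      push_cast
      ring
    · rcases Nat.lt_or_ge 1 i with hi2 | hi2
      · rw [if_neg (by omega), if_neg (by omega), sub_zero] at he
        exact (era_not_zero he).elim
      · obtain rfl : i = 1 := by omega
        rw [if_pos rfl, if_neg (by norm_num), sub_zero] at he
        rw [era_wt, era_one he, era_dg_zero]
        push_cast
        ring
  · intro i e he
    rw [hQc i] at he
    by_cases hi : i < p
    · rw [if_pos hi] at he
      rw [era_wt, era_pow hs0 _ e he, hQd]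
      have h1 : ((p - 1 - i : ℕ) : ℝ) = (p - 1 : ℕ) - i := by
        rw [Nat.cast_sub (by omega)]
      rw [h1]
      ring
    · rw [if_neg hi] at he
      exact (era_not_zero he).elim
  · intro i e he
    rw [hPQ, Polynomial.natDegree_X_pow_sub_C] at *
    have h1 : (Polynomial.X ^ p - Polynomial.C F - (Polynomial.X ^ p - Polynomial.C (h₀ ^ p)) :
        Polynomial (Lp K k)) = Polynomial.C (-(F - h₀ ^ p)) := by
      rw [Polynomial.C_neg, Polynomial.C_sub]
      ring
    rw [h1, Polynomial.coeff_C] at he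
    by_cases hi : i = 0
    · rw [if_pos hi] at he
      rw [era_wt, hi, Nat.cast_zero, zero_mul, add_zero]
      exact v7 e (era_neg he)
    · rw [if_neg hi] at he
      exact (era_not_zero he).elim

end Pool.Agent.Work.MP_e97a4d_nt.CT
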