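import Pool.Agent.Work.MP_e97a4d_nt.CT.EDefs

/-!
# CT/ERadB (size M): the scheme of a radical cover

`R := Lau (𝓞 F₀)`, `B := RadRing m f`, `x j : B` the class of `MvPolynomial.X j`, `x j ^ m j = algebraMap R B (f j)`.

PROOF of `rad_str`. `Spec.map_comp` and `IsScalarTower.algebraMap_eq (𝓞 F₀) R B` (quotient of `MvPolynomial`).
PROOF of `rad_qf`. `B` is generated as an `R`-algebra by the `x j` (`MvPolynomial.adjoin_range_X`, quotient map surjective), which are
integral over `R` (`m j ≠ 0`: root of the monic `X ^ m j - C (f j)`), so `Module.Finite R B` (`Algebra.finite_adjoin_of_..`,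
`FG.of_finite_of_isIntegral`: `Algebra.FiniteType` and `Algebra.IsIntegral` give `Module.Finite`
(`Algebra.IsIntegral.finite`)). So `Spec.map _` is finite (`IsFinite.SpecMap_iff` or `HasRingHomProperty`/`IsFinite`),
locally quasi-finite (instance), and `Scheme.Hom.quasiFiniteAt`.
PROOF of `rad_root`. `ε : B →+* κ(v) := (Spec.preimage ((RadScheme m f).fromSpecResidueField v)).hom`; `valAt (radTor m f) v =
ε.comp (algebraMap R B)` (`Spec.map_injective`, `Spec.map_preimage`). `y := ε (∏ j, x j ^ (m j / p * a j))`;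
`y ^ p = ε (∏ j, x j ^ (m j * a j))` (for `a j ≠ 0`: `m j / p * a j * p = m j * a j`; for `a j = 0` both are `1`)
`= ε (algebraMap (∏ j, f j ^ a j))`. Evaluate: `Polynomial.eval₂_sub`, `eval₂_X_pow`, `eval₂_C`.
-/

set_option autoImplicit false

noncomputable section

namespace Pool.Agent.Work.MP_e97a4d_nt.CT

open AlgebraicGeometry CategoryTheory NumberField
open Pool.Agent.Work.UP

variable {F₀ : Type} [Field F₀]

/-- The morphism from the radical cover to the torus. -/
abbrev radTor {r : ℕ} (m : Fin r → ℕ) (f : Fin r → Lau (𝓞 F₀)) :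
    RadScheme m f ⟶ Spec (CommRingCat.of (Lau (𝓞 F₀))) :=
  Spec.map (CommRingCat.ofHom (algebraMap (Lau (𝓞 F₀)) (RadRing m f)))

theorem rad_str {r : ℕ} (m : Fin r → ℕ) (f : Fin r → Lau (𝓞 F₀)) :
    radTor m f ≫ Spec.map (CommRingCat.ofHom (algebraMap (𝓞 F₀) (Lau (𝓞 F₀)))) =
      radStr m f := by
  rw [radTor, radStr, ← Spec.map_comp, ← CommRingCat.ofHom_comp]

private theorem fin_of_gen {A B : Type} [CommRing A] [CommRing B] [Algebra A B] {r : ℕ}
    (x : Fin r → B) (hx : ∀ j, IsIntegral A (x j))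
    (hs : Function.Surjective (MvPolynomial.aeval (R := A) x)) : Module.Finite A B := by
  have hint : Algebra.IsIntegral A B := by
    constructor
    intro y
    obtain ⟨q, rfl⟩ := hs y
    induction q using MvPolynomial.induction_on with
    | C a =>
      rw [MvPolynomial.aeval_C]
      exact isIntegral_algebraMap
    | add p q hp hq =>
      rw [map_add]
      exact hp.add hq
    | mul_X p j hp =>
      rw [map_mul, MvPolynomial.aeval_X]
      exact hp.mul (hx j)
  have hft : Algebra.FiniteType A B :=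
    Algebra.FiniteType.of_surjective (MvPolynomial.aeval (R := A) x) hs
  exact Algebra.IsIntegral.finite

private theorem fin_rad {A : Type} [CommRing A] {r : ℕ} (m : Fin r → ℕ) (hm : ∀ j, m j ≠ 0)
    (f : Fin r → A) : Module.Finite A (MvPolynomial (Fin r) A ⧸
      Ideal.span (Set.range fun j => MvPolynomial.X j ^ m j - MvPolynomial.C (f j))) := by
  refine fin_of_gen (fun j => Ideal.Quotient.mk _ (MvPolynomial.X j)) (fun j => ?_) ?_
  · refine IsIntegral.of_pow (Nat.pos_of_ne_zero (hm j)) ?_
    have h1 : (Ideal.Quotient.mk (Ideal.span (Set.range fun j =>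
        MvPolynomial.X j ^ m j - MvPolynomial.C (f j))) (MvPolynomial.X j)) ^ m j =
        algebraMap A _ (f j) := by
      rw [← map_pow]
      exact Ideal.Quotient.eq.2 (Ideal.subset_span ⟨j, rfl⟩)
    rw [h1]
    exact isIntegral_algebraMap
  · intro y
    obtain ⟨q, rfl⟩ := Ideal.Quotient.mk_surjective y
    refine ⟨q, ?_⟩
    have h2 : (MvPolynomial.aeval (R := A) fun j : Fin r =>
        Ideal.Quotient.mk (Ideal.span (Set.range fun j =>
          MvPolynomial.X j ^ m j - MvPolynomial.C (f j))) (MvPolynomial.X j)) =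
        Ideal.Quotient.mkₐ A (Ideal.span (Set.range fun j =>
          MvPolynomial.X j ^ m j - MvPolynomial.C (f j))) := by
      apply MvPolynomial.algHom_ext
      intro j
      rw [MvPolynomial.aeval_X]
      rfl
    rw [h2]
    rfl

theorem rad_qf {r : ℕ} (m : Fin r → ℕ) (hm : ∀ j, m j ≠ 0) (f : Fin r → Lau (𝓞 F₀))
    (v : RadScheme m f) : (radTor m f).QuasiFiniteAt v := by
  have hfin : Module.Finite (Lau (𝓞 F₀)) (RadRing m f) := fin_rad m hm f
  have hF : IsFinite (radTor m f) := by
    rw [radTor, IsFinite.SpecMap_iff]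
    exact (RingHom.finite_algebraMap).2 hfin
  exact (radTor m f).quasiFiniteAt v

theorem rad_root {r : ℕ} (m : Fin r → ℕ) (f : Fin r → Lau (𝓞 F₀)) (v : RadScheme m f) (p : ℕ)
    (a : Fin r → ℕ) (ha : ∀ j, a j ≠ 0 → p ∣ m j) :
    ∃ y : (RadScheme m f).residueField v,
      (Polynomial.X ^ p - Polynomial.C (∏ j, f j ^ a j) : Polynomial (Lau (𝓞 F₀))).eval₂
        (valAt (radTor m f) v) y = 0 := by
  have hval : ∀ g : Lau (𝓞 F₀), valAt (radTor m f) v g =
      (Spec.preimage ((RadScheme m f).fromSpecResidueField v)).hom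
        (algebraMap (Lau (𝓞 F₀)) (RadRing m f) g) := by
    intro g
    have h1 : Spec.preimage ((RadScheme m f).fromSpecResidueField v ≫ radTor m f) =
        CommRingCat.ofHom (algebraMap (Lau (𝓞 F₀)) (RadRing m f)) ≫
          Spec.preimage ((RadScheme m f).fromSpecResidueField v) := by
      apply Spec.map_injective
      rw [Spec.map_comp, Spec.map_preimage, Spec.map_preimage]
    show (Spec.preimage ((RadScheme m f).fromSpecResidueField v ≫ radTor m f)).hom g = _
    rw [h1]
    rfl
  have hx : ∀ j, (Ideal.Quotient.mk (Ideal.span (Set.range fun j =>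
      MvPolynomial.X j ^ m j - MvPolynomial.C (f j))) (MvPolynomial.X j)) ^ m j =
      algebraMap (Lau (𝓞 F₀)) (RadRing m f) (f j) := by
    intro j
    rw [← map_pow]
    exact Ideal.Quotient.eq.2 (Ideal.subset_span ⟨j, rfl⟩)
  refine ⟨(Spec.preimage ((RadScheme m f).fromSpecResidueField v)).hom
    (∏ j, (Ideal.Quotient.mk (Ideal.span (Set.range fun j =>
      MvPolynomial.X j ^ m j - MvPolynomial.C (f j))) (MvPolynomial.X j)) ^ (m j / p * a j)), ?_⟩
  rw [Polynomial.eval₂_sub, Polynomial.eval₂_X_pow, Polynomial.eval₂_C, hval, ← map_pow,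
    sub_eq_zero]
  congr 1
  rw [← Finset.prod_pow, map_prod]
  refine Finset.prod_congr rfl fun j _ => ?_
  rw [map_pow, ← hx j, ← pow_mul, ← pow_mul]
  congr 1
  by_cases h0 : a j = 0
  · rw [h0]
    simp
  · obtain ⟨c, hc⟩ := ha j h0
    rcases Nat.eq_zero_or_pos p with hp | hp
    · subst hp
      rw [hc]
      simp
    · rw [hc, Nat.mul_div_cancel_left _ hp]
      ring

end Pool.Agent.Work.MP_e97a4d_nt.CT
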