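import Pool.Agent.Work.MP_e97a4d_nt.CT.ERadA
import Pool.Agent.Work.MP_e97a4d_nt.CT.ERadB
import Pool.Agent.Work.MP_e97a4d_nt.CT.EMain

/-!
# CT/ERadM (size M): radical covers

PROOF. `coverGen_torus` for `V := RadScheme m f`, `q := radTor m f`, `rad_str`, `rad_qf`. Let `v` be a point with
`valAt q v` injective; we prove `RootsSplit q v`. Let `B := ∑ j, m j` and let `S` be the finite set (`Finset (ℕ × (Fin r → ℕ))`,
`Finset.filter` (classical) of `Finset.range (B + 1) ×ˢ Fintype.piFinset fun _ => Finset.range (B + 1)`) of the pairs `(p, a)` with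
`p.Prime`, `∀ j, a j < p`, `∀ j, a j ≠ 0 → p ∣ m j` and `¬ ∃ g, g ^ p = ∏ j, lbar F₀ (f j) ^ a j`. `n := S.card`, `G := ` the
`X ^ p - C (∏ j, f j ^ a j)` for `(p, a)` in `S` enumerated by `S.equivFin`. Monic (`p ≠ 0`); `(G j).map (lbar F₀) =
X ^ p - C (∏ j, lbar F₀ (f j) ^ a j)` is irreducible by `rad_irr`; it has a root by `rad_root`. Directions: `hf` gives
`i, p, a` with the four conditions and `PowLead`. `(p, a) ∈ S`: `a ≠ 0`, otherwise the product is `1 = 1 ^ p`; so some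
`a j ≠ 0`, `p ∣ m j`, `m j ≠ 0`, `p ≤ m j ≤ B`, and `a j < p ≤ B`. `rad_split` (`AlgebraicClosure F₀` has characteristic
zero).
-/

set_option autoImplicit false

noncomputable section

namespace Pool.Agent.Work.MP_e97a4d_nt.CT

open AlgebraicGeometry CategoryTheory NumberField
open Pool.Agent.Work.UP UE

theorem coverGen_rad {F₀ : Type} [Field F₀] [NumberField F₀] (σ : F₀ →+* ℂ) {r : ℕ} (m : Fin r → ℕ)
    (hm : ∀ j, m j ≠ 0) (f : Fin r → Lau (𝓞 F₀)) (hf : RadSplit m f) {V' : Scheme.{0}}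
    (i : V' ⟶ RadScheme m f) : CoverGen σ (radStr m f) i := by
  classical
  refine coverGen_torus σ (radStr m f) i (radTor m f) (rad_str m f) (fun v _ _ => rad_qf m hm f v)
    (fun v _ _ => ?_)
  -- the finite set of pairs
  let B : ℕ := ∑ j, m j
  let S : Finset (ℕ × (Fin r → ℕ)) :=
    (Finset.range (B + 1) ×ˢ Fintype.piFinset fun _ : Fin r => Finset.range (B + 1)).filter
      fun q => q.1.Prime ∧ (∀ j, q.2 j < q.1) ∧ (∀ j, q.2 j ≠ 0 → q.1 ∣ m j) ∧
        ¬ ∃ g : Lp (AlgebraicClosure F₀) 2, g ^ q.1 = ∏ j, lbar F₀ (f j) ^ q.2 j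
  have hSmem : ∀ q ∈ S, q.1.Prime ∧ (∀ j, q.2 j < q.1) ∧ (∀ j, q.2 j ≠ 0 → q.1 ∣ m j) ∧
      ¬ ∃ g : Lp (AlgebraicClosure F₀) 2, g ^ q.1 = ∏ j, lbar F₀ (f j) ^ q.2 j := by
    intro q hq
    exact (Finset.mem_filter.1 hq).2
  have hmap : ∀ (p : ℕ) (a : Fin r → ℕ),
      (Polynomial.X ^ p - Polynomial.C (∏ j, f j ^ a j) : Polynomial (Lau (𝓞 F₀))).map (lbar F₀) =
        Polynomial.X ^ p - Polynomial.C (∏ j, lbar F₀ (f j) ^ a j) := by
    intro p a
    rw [Polynomial.map_sub, Polynomial.map_pow, Polynomial.map_X, Polynomial.map_C, map_prod]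
    simp only [map_pow]
  refine ⟨S.card, fun j => Polynomial.X ^ (S.equivFin.symm j).1.1 -
    Polynomial.C (∏ l, f l ^ (S.equivFin.symm j).1.2 l), ?_, ?_⟩
  · intro j
    obtain ⟨hp, _, hdiv, hnp⟩ := hSmem _ (S.equivFin.symm j).2
    refine ⟨Polynomial.monic_X_pow_sub_C _ hp.ne_zero, ?_, ?_⟩
    · rw [hmap]
      exact rad_irr hp _ hnp
    · exact rad_root m f v _ _ hdiv
  · intro s ξ hs hξ hsum
    obtain ⟨i, p, a, hp, hlt, hdiv, hnp, hlead⟩ := hf s ξ hs hξ hsum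
    have hmemS : (p, a) ∈ S := by
      have hne : ∃ j, a j ≠ 0 := by
        by_contra hcon
        push Not at hcon
        apply hnp
        refine ⟨1, ?_⟩
        rw [one_pow]
        symm
        refine Finset.prod_eq_one fun j _ => ?_
        rw [hcon j, pow_zero]
      obtain ⟨j, hj⟩ := hne
      have hpm : p ≤ m j := Nat.le_of_dvd (Nat.pos_of_ne_zero (hm j)) (hdiv j hj)
      have hmB : m j ≤ B := Finset.single_le_sum (f := m) (fun _ _ => Nat.zero_le _)
        (Finset.mem_univ j)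
      refine Finset.mem_filter.2 ⟨Finset.mem_product.2 ⟨?_, ?_⟩, hp, hlt, hdiv, hnp⟩
      · exact Finset.mem_range.2 (by show p < B + 1; omega)
      · refine Fintype.mem_piFinset.2 fun l => Finset.mem_range.2 ?_
        have := hlt l
        show a l < B + 1
        omega
    refine ⟨i, S.equivFin ⟨(p, a), hmemS⟩, ?_⟩
    have h3 : S.equivFin.symm (S.equivFin ⟨(p, a), hmemS⟩) = ⟨(p, a), hmemS⟩ :=
      Equiv.symm_apply_apply _ _
    show LeadSplits (ξ i) ((Polynomial.X ^ (S.equivFin.symm (S.equivFin ⟨(p, a), hmemS⟩)).1.1 -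
      Polynomial.C (∏ l, f l ^ (S.equivFin.symm (S.equivFin ⟨(p, a), hmemS⟩)).1.2 l) :
        Polynomial (Lau (𝓞 F₀))).map (lbar F₀))
    rw [h3, hmap]
    exact rad_split hp (ξ i) _ hlead

end Pool.Agent.Work.MP_e97a4d_nt.CT
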