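import Mathlib

/-!
# CT/ETrB (size M, pure Mathlib): transcendence bases

PROOF of `tb_pick`. `exists_isTranscendenceBasis_between` (Mathlib/RingTheory/AlgebraicIndependent) with the empty set and
`Set.range u` (the empty family is algebraically independent over `ℤ` because `ℤ → L` is injective) gives
`B ⊆ Set.range u` with `IsTranscendenceBasis ℤ ((↑) : B → L)`; `B` is finite, `k := Nat.card B`, `e : B ≃ Fin k`
(`Finite.equivFin`), `w := (↑) ∘ e.symm` (reindexing: `IsTranscendenceBasis.comp_equiv`, `isTranscendenceBasis_equiv` or similar). If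
`k ≤ 1`: second case. If `k ≥ 2`: `Set.range u` has at most two elements, so `B = Set.range u` has exactly two, `u`
is injective, and `u` is the reindexing of `(↑) : B → L` by `Fin 2 ≃ Set.range u` (`Equiv.ofInjective`): first case.

PROOF of `tb_ext`. `isTranscendenceBasis_iff_algebraicIndependent_isAlgebraic`: the family is algebraically independent
(`AlgebraicIndependent.map'` for the injective `ℤ`-algebra homomorphism `κ → L`), and `L` is algebraic over
`Algebra.adjoin ℤ` of its range: `κ` is algebraic over `Algebra.adjoin ℤ (Set.range u)` (`IsTranscendenceBasis.isAlgebraic`),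
`L` over `κ`, transitivity; the image of `adjoin ℤ (Set.range u)` in `L` is the `adjoin` of the image. (There may be a
direct lemma: `IsTranscendenceBasis.of_isAlgebraic`/`IsTranscendenceBasis.map`/ `isTranscendenceBasis_iff_of_..`.)
-/

set_option autoImplicit false

noncomputable section

namespace Pool.Agent.Work.MP_e97a4d_nt.CT

theorem tb_pick {L : Type} [Field L] [CharZero L] (u : Fin 2 → L)
    (halg : ∀ x : L, IsAlgebraic (Algebra.adjoin ℤ (Set.range u)) x) :
    IsTranscendenceBasis ℤ u ∨ ∃ (k : ℕ) (w : Fin k → L), k ≤ 1 ∧ (∀ l, ∃ j, w l = u j) ∧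
      IsTranscendenceBasis ℤ w := by
  classical
  have hal : Algebra.IsAlgebraic (Algebra.adjoin ℤ (Set.range u)) L := ⟨halg⟩
  obtain ⟨t, ht, hb⟩ := exists_isTranscendenceBasis_subset (R := ℤ) (Set.range u)
  have hfr : (Set.range u).Finite := Set.finite_range u
  have hft : t.Finite := hfr.subset ht
  have himg : u '' Set.univ = Set.range u := Set.image_univ
  have h2 : (Set.univ : Set (Fin 2)).ncard = 2 := by
    rw [Set.ncard_univ, Nat.card_eq_fintype_card, Fintype.card_fin]
  have hr2 : (Set.range u).ncard ≤ 2 := by
    rw [← himg]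
    exact (Set.ncard_image_le (Set.toFinite _)).trans h2.le
  by_cases h1 : t.ncard ≤ 1
  · right
    have hfin : Finite t := hft
    have hc : Nat.card t ≤ 1 := h1
    refine ⟨Nat.card t, fun l => ((Finite.equivFin t).symm l : L), hc, ?_, ?_⟩
    · intro l
      obtain ⟨j, hj⟩ := ht ((Finite.equivFin t).symm l).2
      exact ⟨j, hj.symm⟩
    · exact hb.comp_equiv (Finite.equivFin t).symm
  · left
    have h3 : 2 ≤ t.ncard := by omega
    have h4 : t = Set.range u := Set.eq_of_subset_of_ncard_le ht (hr2.trans h3) hfr
    have h5 : (Set.range u).ncard = 2 := by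
      rw [h4] at h3
      exact le_antisymm hr2 h3
    have hinj : Function.Injective u := by
      rw [← Set.injOn_univ]
      exact Set.injOn_of_ncard_image_eq (by rw [himg, h5, h2]) (Set.toFinite _)
    subst h4
    exact IsTranscendenceBasis.of_subtype_range hinj hb

theorem tb_ext {κ L : Type} [Field κ] [Field L] [CharZero κ] [Algebra κ L]
    [Algebra.IsAlgebraic κ L] {k : ℕ} (u : Fin k → κ) (hu : IsTranscendenceBasis ℤ u) :
    IsTranscendenceBasis ℤ (fun l => algebraMap κ L (u l)) :=
  hu.algebraMap_comp (A := L)

end Pool.Agent.Work.MP_e97a4d_nt.CT
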