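import Pool.Agent.Work.MP_e97a4d_nt.CT.RDefs
import Pool.Agent.Work.MP_e97a4d_nt.CT.Defs

/-!
# CT/RConv (size M): from the definitions of the result to the working definitions

PROOF of `char_zero_at`: `(algebraMap _ L).comp (strAt π v)` is an injective homomorphism from `𝓞 F₀`, a ring of
characteristic zero (`charZero_of_injective_ringHom`).
PROOF of `const_iff`. `F₀` is a number field, so `𝓞 F₀` is integral over `ℤ`. If `c` is a root of `p` over `𝓞 F₀` with
nonzero image then it is algebraic over the subfield generated by the image of `𝓞 F₀`, whose elements are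
algebraic over `ℚ`, so `c` is algebraic over `ℚ` (transitivity: give `L` the algebra structure over `𝓞 F₀` by the
injective homomorphism; `p ≠ 0`; `Algebra.IsAlgebraic ℤ (𝓞 F₀)`, `IsAlgebraic.restrictScalars`, and from `ℤ` to `ℚ`).
Conversely a root of a nonzero `q` over `ℚ` is a root of a nonzero polynomial over `ℤ` (clear denominators:
`IsAlgebraic` over `ℤ` iff over `ℚ`, `IsFractionRing.isAlgebraic_iff`), map it to `𝓞 F₀`; its image in the residue
field is not zero (characteristic zero).
PROOF of `two_of_ext`. Write `K := algebraicClosure ℚ L`. For `p : Lp K k`, `p ≠ 0`, let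
`p' := p.coeff.mapRange (algebraMap K L) _ : (Fin k → ℤ) →₀ L`, with the same support, not zero, with values
algebraic over `ℚ`; `ev (algebraMap K L) w p = p'.sum fun e a => a * mon (cu w) e` (`ev_eq`; `cu w = fun l => w l`), and
`dg ξ e = ∑ l, e l * ξ l`.
-/

set_option autoImplicit false

noncomputable section

namespace Pool.Agent.Work.MP_e97a4d_nt.CT

open AlgebraicGeometry CategoryTheory NumberField
open Pool.Agent.Work.UP UE

theorem char_zero_at {F₀ : Type} [Field F₀] [NumberField F₀] {V : Scheme.{0}}
    (π : V ⟶ Spec (CommRingCat.of (𝓞 F₀))) (v : V) (h : Function.Injective (UE.strAt π v))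
    (L : Type) [Field L] [Algebra (V.residueField v) L] : CharZero L := by
  have h1 : Function.Injective ((algebraMap (V.residueField v) L).comp (UE.strAt π v)) := by
    rw [RingHom.coe_comp]
    exact (algebraMap (V.residueField v) L).injective.comp h
  exact charZero_of_injective_ringHom h1

theorem const_iff {F₀ : Type} [Field F₀] [NumberField F₀] {V : Scheme.{0}}
    (π : V ⟶ Spec (CommRingCat.of (𝓞 F₀))) (v : V) (h : Function.Injective (UE.strAt π v))
    (L : Type) [Field L] [CharZero L] [Algebra (V.residueField v) L] (c : L) :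
    c ∈ UE.constAt π v L ↔ IsAlgebraic ℚ c := by
  have hQ : IsAlgebraic ℤ c ↔ IsAlgebraic ℚ c := IsFractionRing.isAlgebraic_iff ℤ ℚ L
  rw [← hQ]
  constructor
  · rintro ⟨p, hp, hpc⟩
    have h1 : Function.Injective ((algebraMap (V.residueField v) L).comp (UE.strAt π v)) := by
      rw [RingHom.coe_comp]
      exact (algebraMap (V.residueField v) L).injective.comp h
    letI : Algebra (𝓞 F₀) L := ((algebraMap (V.residueField v) L).comp (UE.strAt π v)).toAlgebra
    have h2 : IsAlgebraic (𝓞 F₀) c := by
      refine ⟨p, ?_, hpc⟩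
      rintro rfl
      exact hp (Polynomial.map_zero _)
    haveI : FaithfulSMul (𝓞 F₀) L := (faithfulSMul_iff_algebraMap_injective _ _).2 h1
    exact h2.restrictScalars ℤ
  · rintro ⟨q, hq, hqc⟩
    haveI : CharZero (V.residueField v) := charZero_of_injective_ringHom h
    refine ⟨q.map (Int.castRingHom (𝓞 F₀)), ?_, ?_⟩
    · rw [Polynomial.map_map, Ne, Polynomial.map_eq_zero_iff]
      · exact hq
      · have h3 : (UE.strAt π v).comp (Int.castRingHom (𝓞 F₀)) =
            Int.castRingHom (V.residueField v) := RingHom.ext_int _ _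
        rw [h3]
        exact Int.cast_injective
    · rw [Polynomial.eval₂_map]
      have h3 : ((algebraMap (V.residueField v) L).comp (UE.strAt π v)).comp
          (Int.castRingHom (𝓞 F₀)) = algebraMap ℤ L := RingHom.ext_int _ _
      rw [h3]
      exact hqc

theorem two_of_ext {L : Type} [Field L] [CharZero L] (K : Set L)
    (hK : ∀ c, c ∈ K ↔ IsAlgebraic ℚ c) {k : ℕ} (w : Fin k → Lˣ) (ξ : Fin k → ℝ)
    (ν ν' : Valuation L NNReal) (hne : ν ≠ ν') (h : ExtendsDeg K (fun l => (w l : L)) ξ ν)
    (h' : ExtendsDeg K (fun l => (w l : L)) ξ ν') :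
    Two (ev (algebraMap (algebraicClosure ℚ L) L) w) ξ := by
  have key : ∀ μ : Valuation L NNReal, ExtendsDeg K (fun l => (w l : L)) ξ μ →
      DegVal (ev (algebraMap (algebraicClosure ℚ L) L) w) ξ μ := by
    intro μ hμ p hp
    have hinj : Function.Injective (algebraMap (algebraicClosure ℚ L) L) :=
      (algebraMap (algebraicClosure ℚ L) L).injective
    have hsup : (p.coeff.mapRange (algebraMap (algebraicClosure ℚ L) L) (map_zero _)).support =
        p.coeff.support := Finsupp.support_mapRange_of_injective _ _ hinj
    have h1 := hμ (p.coeff.mapRange (algebraMap (algebraicClosure ℚ L) L) (map_zero _)) (by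
      intro h0
      have h2 : p.coeff.support = ∅ := by rw [← hsup, h0, Finsupp.support_zero]
      apply hp
      have h3 : p.coeff = 0 := Finsupp.support_eq_empty.1 h2
      exact AddMonoidAlgebra.coeff_injective (h3.trans rfl)) (by
      intro e
      rw [Finsupp.mapRange_apply, hK]
      exact (mem_algebraicClosure_iff).1 (p.coeff e).2)
    rw [hsup] at h1
    have h4 : (p.coeff.mapRange (algebraMap (algebraicClosure ℚ L) L) (map_zero _)).sum
        (fun e a => a * mon (fun l => (w l : L)) e) =
        ev (algebraMap (algebraicClosure ℚ L) L) w p := by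
      rw [ev_eq, Finsupp.sum, hsup]
      refine Finset.sum_congr rfl fun s _ => ?_
      rw [Finsupp.mapRange_apply]
      rfl
    rw [h4] at h1
    exact h1
  exact ⟨ν, ν', hne, key ν h, key ν' h'⟩

end Pool.Agent.Work.MP_e97a4d_nt.CT
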