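import Pool.Agent.Work.MP_e97a4d_nt.CT.ETwo
import Pool.Agent.Work.MP_e97a4d_nt.CT.EPhi
import Pool.Agent.Work.MP_e97a4d_nt.CT.EExtD
import Pool.Agent.Work.MP_e97a4d_nt.CT.EUnit
import Pool.Agent.Work.MP_e97a4d_nt.CT.ETrB
import Pool.Agent.Work.MP_e97a4d_nt.CT.RConv

/-!
# CT/ESpl (size M-L): split boundary at a point over the generic point of the torus

Notation: `κ := V.residueField v`, `Ω := AlgebraicClosure L`, `ι := algebraMap L Ω`, `τ := valAt q v`, `x l := single (Pi.single l 1) 1`,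
`w l := algebraMap κ L (τ (x l))`, `w' l := Units.mk0 (ι (w l)) _` (nonzero: `τ (x l)` is a unit, `x l` is one with inverse
`single (- Pi.single l 1) 1`), `E := ev φ w'`. `CharZero L` by `char_zero_at` (CT/RConv), so `CharZero Ω`, `CharZero κ`.

PROOF. Take `k = 2`, `w`. `w l ∈ unitsAt v L` by `unit_at`; `IsTranscendenceBasis ℤ w` by `tb_ext`. Let `s, ξ` be given; `hdir` gives
`i, j, μ, P, Q` with `LeadFac (ξ i) μ ((G j).map (lbar F₀)) P Q`. We apply `two_fac` with `M := Ω`, `E`:
* `φ`: `hφ` of `phi_inj_alg`: if `c : Ω` is algebraic over `ℚ`, a root of `f ≠ 0` over `ℚ`, then `f` splits over the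
  algebraically closed field `AlgebraicClosure F₀`, so its roots in `Ω` are in the range of `φ` (`Polynomial.roots_map` for split
  polynomials, or `IsAlgClosed` of the domain: write `f.map = C * ∏ (X - r)` and map by `φ`). `hφ'`: the elements of
  `AlgebraicClosure F₀` are algebraic over `F₀`, which is algebraic over `ℚ`; `IsAlgebraic.map`/ `φ` commutes with `ℚ`.
* `IsTranscendenceBasis ℤ (fun l => (w' l : Ω))`: `tb_ext` again (for `L → Ω`). `phi_inj_alg` gives `hE`, `halg`.
* `ξ i ≠ 0`; the monic polynomial `(G j).map (lbar F₀)` is irreducible; the root: `E.comp (lbar F₀) = (ι.comp (algebraMap κ L)).comp τ`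
  (ring homomorphisms on `AddMonoidAlgebra (𝓞 F₀) (Fin 2 → ℤ)`; compare on `single e c = single 0 c * single e 1`: on
  `single 0 c = algebraMap c` by `hφ` and `hστ`; on `single e 1`: `mon (cu w') e`, and `τ (single e 1) = ∏ l, τ (x l) ^ e l`
  because `e ↦ τ (single e 1)` is multiplicative, `e = ∑ l, e l • Pi.single l 1`; extensionality: `AddMonoidAlgebra.ringHom_ext`
  or `AddMonoidAlgebra.addMonoidHom_ext`), so `y := ι (algebraMap κ L y_j)` is a root (`Polynomial.eval₂_map`, `Polynomial.hom_eval₂`).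
So there are `ν, ν'` on `Ω` with `DegVal E (ξ i) ν`, `DegVal E (ξ i) ν'`, `ν (P.eval₂ E y) < ν' (P.eval₂ E y)`. By `hC` and `ev_eq` every
`E (P.coeff n)` is in the range of `ι` (a subring: `ι.range`; `mon (cu w') e = ι (mon w e)`), and `y` is, so `P.eval₂ E y = ι z`,
`z : L`. So `ν.comap ι ≠ ν'.comap ι` (different at `z`). `ExtendsDeg (constAt π v L) w (ξ i) (ν.comap ι)` by `ext_of_deg`: for
`c ∈ constAt π v L`, `c` is algebraic over `ℚ` (`const_iff`, CT/RConv), so `ι c` is, so `ι c ∈ Set.range φ` as above.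
-/

set_option autoImplicit false

noncomputable section

namespace Pool.Agent.Work.MP_e97a4d_nt.CT

open AlgebraicGeometry CategoryTheory NumberField
open Pool.Agent.Work.UP

/-- The value of a ring homomorphism at a monomial. -/
private theorem tau_mon {R κ : Type} [CommRing R] [Field κ]
    (τ : AddMonoidAlgebra R (Fin 2 → ℤ) →+* κ) (e : Fin 2 → ℤ) :
    τ (AddMonoidAlgebra.single e 1) =
      ∏ l, τ (AddMonoidAlgebra.single (Pi.single l 1) 1) ^ e l := by
  let T : Multiplicative (Fin 2 → ℤ) →* κˣ :=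
    ((τ : AddMonoidAlgebra R (Fin 2 → ℤ) →* κ).comp
      (AddMonoidAlgebra.of R (Fin 2 → ℤ))).toHomUnits
  have hT : ∀ a : Fin 2 → ℤ, ((T (Multiplicative.ofAdd a) : κˣ) : κ) =
      τ (AddMonoidAlgebra.single a 1) := fun a => rfl
  have he : e = e 0 • (Pi.single 0 1 : Fin 2 → ℤ) + e 1 • (Pi.single 1 1 : Fin 2 → ℤ) := by
    funext l
    fin_cases l <;> simp
  have h1 : T (Multiplicative.ofAdd e) =
      T (Multiplicative.ofAdd (Pi.single 0 1)) ^ e 0 *
        T (Multiplicative.ofAdd (Pi.single 1 1)) ^ e 1 := by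
    rw [← map_zpow T, ← map_zpow T, ← map_mul T, ← ofAdd_zsmul, ← ofAdd_zsmul, ← ofAdd_add, ← he]
  rw [Fin.prod_univ_two, ← hT, h1, Units.val_mul, Units.val_zpow_eq_zpow_val,
    Units.val_zpow_eq_zpow_val, hT, hT]

/-- Elements which are algebraic over the rational numbers are in the image of an algebraically closed
field. -/
private theorem mem_range_of_alg {K Ω : Type} [Field K] [CharZero K] [IsAlgClosed K] [Field Ω]
    [CharZero Ω] (φ : K →+* Ω) (c : Ω) (hc : IsAlgebraic ℚ c) : c ∈ Set.range φ := by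
  obtain ⟨f, hf, hfc⟩ := hc
  have h1 : (f.map (algebraMap ℚ K)).Splits := IsAlgClosed.splits _
  have h2 : f.map (algebraMap ℚ K) ≠ 0 :=
    (Polynomial.map_ne_zero_iff (algebraMap ℚ K).injective).2 hf
  have h3 : ((f.map (algebraMap ℚ K)).map φ).IsRoot c := by
    rw [Polynomial.map_map, Polynomial.IsRoot.def, Polynomial.eval_map]
    have h4 : φ.comp (algebraMap ℚ K) = algebraMap ℚ Ω := Subsingleton.elim _ _
    rw [h4]
    exact hfc
  exact h1.mem_range_of_isRoot h2 h3

theorem split_at {F₀ : Type} [Field F₀] [NumberField F₀] {V : Scheme.{0}}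
    (π : V ⟶ Spec (CommRingCat.of (𝓞 F₀))) (q : V ⟶ Spec (CommRingCat.of (Lau (𝓞 F₀)))) (v : V)
    (hs : Function.Injective (UE.strAt π v))
    (hστ : (valAt q v).comp (algebraMap (𝓞 F₀) (Lau (𝓞 F₀))) = UE.strAt π v)
    (hu : IsTranscendenceBasis ℤ
      fun l : Fin 2 => valAt q v (AddMonoidAlgebra.single (Pi.single l 1) 1))
    (n : ℕ) (G : Fin n → Polynomial (Lau (𝓞 F₀)))
    (hG : ∀ j, (G j).Monic ∧ Irreducible ((G j).map (lbar F₀)) ∧
      ∃ y : V.residueField v, (G j).eval₂ (valAt q v) y = 0)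
    (hdir : ∀ (s : ℕ) (ξ : Fin s → Fin 2 → ℝ), 0 < s → (∀ i, ξ i ≠ 0) → ∑ i, ξ i = 0 →
      ∃ (i : Fin s) (j : Fin n), LeadSplits (ξ i) ((G j).map (lbar F₀)))
    (L : Type) [Field L] [Algebra (V.residueField v) L] [FiniteDimensional (V.residueField v) L]
    (φ : AlgebraicClosure F₀ →+* AlgebraicClosure L)
    (hφ : ∀ x : 𝓞 F₀, φ (algebraMap (𝓞 F₀) (AlgebraicClosure F₀) x) =
      algebraMap L (AlgebraicClosure L) (algebraMap (V.residueField v) L (UE.strAt π v x)))
    (hC : ∀ (j : Fin n) (P : Polynomial (Lp (AlgebraicClosure F₀) 2)),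
      (∃ (ξ : Fin 2 → ℝ) (μ : ℝ) (Q : Polynomial (Lp (AlgebraicClosure F₀) 2)),
        LeadFac ξ μ ((G j).map (lbar F₀)) P Q) →
      ∀ (a : ℕ) (e : Fin 2 → ℤ),
        φ ((P.coeff a).coeff e) ∈ Set.range (algebraMap L (AlgebraicClosure L))) :
    SplitBoundary π v L := by
  classical
  have hcκ : CharZero (V.residueField v) := charZero_of_injective_ringHom hs
  have hcL : CharZero L := char_zero_at π v hs L
  have hcΩ : CharZero (AlgebraicClosure L) :=
    charZero_of_injective_algebraMap (algebraMap L (AlgebraicClosure L)).injective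
  have hcF : CharZero (AlgebraicClosure F₀) :=
    charZero_of_injective_algebraMap (algebraMap F₀ (AlgebraicClosure F₀)).injective
  have halgF : Algebra.IsAlgebraic ℚ (AlgebraicClosure F₀) :=
    Algebra.IsAlgebraic.trans ℚ F₀ (AlgebraicClosure F₀)
  have hxu : ∀ l : Fin 2, IsUnit (AddMonoidAlgebra.single (Pi.single l 1) 1 : Lau (𝓞 F₀)) := by
    intro l
    refine IsUnit.of_mul_eq_one (AddMonoidAlgebra.single (-Pi.single l 1) 1) ?_
    rw [AddMonoidAlgebra.single_mul_single, mul_one, add_neg_cancel]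
    rfl
  set w : Fin 2 → L := fun l =>
    algebraMap (V.residueField v) L (valAt q v (AddMonoidAlgebra.single (Pi.single l 1) 1)) with hw
  have hwu : ∀ l, w l ∈ UE.unitsAt v L := fun l => unit_at q v L _ (hxu l)
  have htb : IsTranscendenceBasis ℤ w := tb_ext (L := L) _ hu
  have hw0 : ∀ l, algebraMap L (AlgebraicClosure L) (w l) ≠ 0 := fun l =>
    (map_ne_zero _).2 (hwu l).1
  let w' : Fin 2 → (AlgebraicClosure L)ˣ := fun l => Units.mk0 _ (hw0 l)
  have hw' : ∀ l, (w' l : AlgebraicClosure L) = algebraMap L (AlgebraicClosure L) (w l) :=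
    fun l => rfl
  have htb' : IsTranscendenceBasis ℤ (fun l => (w' l : AlgebraicClosure L)) :=
    tb_ext (L := AlgebraicClosure L) w htb
  have hφr : ∀ c : AlgebraicClosure L, IsAlgebraic ℚ c → c ∈ Set.range φ := fun c hc =>
    mem_range_of_alg φ c hc
  have hφa : ∀ c : AlgebraicClosure F₀, IsAlgebraic ℚ (φ c) := fun c =>
    (Algebra.IsAlgebraic.isAlgebraic (R := ℚ) c).algHom φ.toRatAlgHom
  have hmon : ∀ e : Fin 2 → ℤ, mon (cu w') e = algebraMap L (AlgebraicClosure L) (mon w e) := by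
    intro e
    unfold mon cu
    rw [map_prod]
    exact Finset.prod_congr rfl fun l _ => by rw [map_zpow₀]; rfl
  -- the two ways from the Laurent polynomials to the algebraic closure
  have hcomp : (ev φ w').comp (lbar F₀) = ((algebraMap L (AlgebraicClosure L)).comp
      (algebraMap (V.residueField v) L)).comp (valAt q v) := by
    refine AddMonoidAlgebra.ringHom_ext (fun r => ?_) (fun e => ?_)
    · rw [RingHom.comp_apply, lbar, AddMonoidAlgebra.mapRingHom_single, ev_single, mon_zero,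
        mul_one, hφ, RingHom.comp_apply, RingHom.comp_apply, ← hστ]
      rfl
    · rw [RingHom.comp_apply, lbar, AddMonoidAlgebra.mapRingHom_single, ev_single, map_one,
        map_one, one_mul, hmon, RingHom.comp_apply, RingHom.comp_apply, tau_mon, map_prod]
      congr 1
      unfold mon
      exact Finset.prod_congr rfl fun l _ => by rw [map_zpow₀]
  obtain ⟨hE, halg⟩ := phi_inj_alg φ hφr hφa w' htb'
  refine ⟨2, w, hwu, htb, fun _ s ξ hspos hξ0 hξs => ?_⟩
  obtain ⟨i, j, μ, P, Q, hLF⟩ := hdir s ξ hspos hξ0 hξs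
  obtain ⟨hGm, hGi, y, hy⟩ := hG j
  have hroot : ((G j).map (lbar F₀)).eval₂ (ev φ w')
      (algebraMap L (AlgebraicClosure L) (algebraMap (V.residueField v) L y)) = 0 := by
    rw [Polynomial.eval₂_map, hcomp]
    have h1 := Polynomial.hom_eval₂ (G j) (valAt q v) ((algebraMap L (AlgebraicClosure L)).comp
      (algebraMap (V.residueField v) L)) y
    rw [hy, map_zero] at h1
    exact h1.symm
  obtain ⟨ν, ν', hν, hν', hlt⟩ := two_fac (ev φ w') hE halg (ξ i) (hξ0 i) μ
    ((G j).map (lbar F₀)) P Q (hGm.map _) hGi hLF _ hroot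
  -- the value of `P` is in `L`
  have hrange : P.eval₂ (ev φ w') (algebraMap L (AlgebraicClosure L)
      (algebraMap (V.residueField v) L y)) ∈ (algebraMap L (AlgebraicClosure L)).range := by
    rw [Polynomial.eval₂_eq_sum]
    refine Subring.sum_mem _ fun n _ => Subring.mul_mem _ ?_
      (Subring.pow_mem _ (RingHom.mem_range_self _ _) n)
    rw [ev_eq]
    refine Subring.sum_mem _ fun e _ => Subring.mul_mem _ ?_ ?_
    · obtain ⟨b, hb⟩ := hC j P ⟨ξ i, μ, Q, hLF⟩ n e
      exact ⟨b, hb⟩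
    · rw [hmon]
      exact RingHom.mem_range_self _ _
  obtain ⟨z, hz⟩ := hrange
  have hK : ∀ c ∈ UE.constAt π v L, algebraMap L (AlgebraicClosure L) c ∈ Set.range φ := by
    intro c hc
    have h1 := (const_iff π v hs L c).1 hc
    exact hφr _ (h1.algHom (algebraMap L (AlgebraicClosure L)).toRatAlgHom)
  refine ⟨i, ν.comap (algebraMap L (AlgebraicClosure L)),
    ν'.comap (algebraMap L (AlgebraicClosure L)), ?_,
    ext_of_deg _ φ _ hK w w' hw' (ξ i) ν hν, ext_of_deg _ φ _ hK w w' hw' (ξ i) ν' hν'⟩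
  intro heq
  have h1 := DFunLike.congr_fun heq z
  rw [Valuation.comap_apply, Valuation.comap_apply, hz] at h1
  exact hlt.ne h1

end Pool.Agent.Work.MP_e97a4d_nt.CT
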