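import Mathlib

/-!
# CT/TwoB (size M): extension of a nonarchimedean absolute value to an algebraically closed field

PROOF. Let `C` be the completion of `Q` for `v` (`AbsoluteValue.Completion`, or `UniformSpace.Completion (WithAbs v)`),
a complete normed field with a homomorphism `i : Q →+* C`, `‖i x‖ = v x`, dense range. It is ultrametric
(`IsUltrametricDist`: the inequality `‖x + y‖ ≤ max ‖x‖ ‖y‖` holds on a dense subset, both sides are continuous;
`IsUltrametricDist.isUltrametricDist_of_isNonarchimedean_norm`; look in
Mathlib/Analysis/Normed/Field/WithAbs and Mathlib/NumberTheory for instances) and nontrivially normed (`hnt`: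
some `v x > 1`; `NontriviallyNormedField.ofNormNeOne` or build the instance). `Ω := AlgebraicClosure C`,
algebraic over `C`; `spectralMulAlgNorm C Ω` (Mathlib/Analysis/Normed/Unbundled/SpectralNorm) is a multiplicative norm,
nonarchimedean (`isNonarchimedean_spectralNorm`), extending the norm of `C` (`spectralNorm_extends`).
`N x := ⟨spectralNorm C Ω x, spectralNorm_nonneg _⟩` as a `Valuation Ω NNReal`: `map_mul`, `map_one`, `map_zero`,
`map_add_le_max`. The algebra structure over `Q` is `((algebraMap C Ω).comp i).toAlgebra`.
-/

set_option autoImplicit false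

noncomputable section

namespace Pool.Agent.Work.MP_e97a4d_nt.CT

private theorem ultra_compl {Q : Type} [Field Q] (v : AbsoluteValue Q ℝ) (hna : IsNonarchimedean v) :
    IsUltrametricDist v.Completion := by
  apply IsUltrametricDist.isUltrametricDist_of_isNonarchimedean_norm
  intro x y
  refine UniformSpace.Completion.induction_on₂ x y ?_ ?_
  · exact isClosed_le (continuous_norm.comp (continuous_fst.add continuous_snd))
      ((continuous_norm.comp continuous_fst).max (continuous_norm.comp continuous_snd))
  · intro a b
    rw [← UniformSpace.Completion.coe_add, UniformSpace.Completion.norm_coe,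
      UniformSpace.Completion.norm_coe, UniformSpace.Completion.norm_coe]
    exact hna a.ofAbs b.ofAbs

theorem ext_alg {Q : Type} [Field Q] (v : AbsoluteValue Q ℝ) (hna : IsNonarchimedean v)
    (hnt : v.IsNontrivial) :
    ∃ (Ω : Type) (_ : Field Ω) (_ : Algebra Q Ω) (N : Valuation Ω NNReal), IsAlgClosed Ω ∧
      ∀ x : Q, (N (algebraMap Q Ω x) : ℝ) = v x := by
  have hu : IsUltrametricDist v.Completion := ultra_compl v hna
  let i : Q →+* v.Completion :=
    (UniformSpace.Completion.coeRingHom : WithAbs v →+* v.Completion).comp
      (WithAbs.equiv v).symm.toRingHom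
  have hi : ∀ x : Q, ‖i x‖ = v x := by
    intro x
    show ‖((WithAbs.toAbs v x : WithAbs v) : v.Completion)‖ = v x
    rw [UniformSpace.Completion.norm_coe]
    rfl
  have hex : ∃ x : v.Completion, x ≠ 0 ∧ ‖x‖ ≠ 1 := by
    obtain ⟨x, hx0, hx1⟩ := hnt
    refine ⟨i x, (map_ne_zero i).2 hx0, ?_⟩
    rw [hi]
    exact hx1
  let inst : NontriviallyNormedField v.Completion := NontriviallyNormedField.ofNormNeOne hex
  let Ω := AlgebraicClosure v.Completion
  let _ : Algebra Q Ω := ((algebraMap v.Completion Ω).comp i).toAlgebra
  let N : Valuation Ω NNReal :=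
    { toFun := fun x => ⟨spectralNorm v.Completion Ω x, spectralNorm_nonneg x⟩
      map_zero' := by
        apply Subtype.ext
        exact spectralNorm_zero
      map_one' := by
        apply Subtype.ext
        exact spectralNorm_one
      map_mul' := fun x y => by
        apply Subtype.ext
        exact map_mul (spectralMulAlgNorm v.Completion Ω) x y
      map_add_le_max' := fun x y => by
        have h := isNonarchimedean_spectralNorm (K := v.Completion) (L := Ω) x y
        exact h }
  refine ⟨Ω, inferInstance, inferInstance, N, inferInstance, fun x => ?_⟩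
  show spectralNorm v.Completion Ω (algebraMap v.Completion Ω (i x)) = v x
  rw [spectralNorm_extends, hi]

end Pool.Agent.Work.MP_e97a4d_nt.CT
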