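import Pool.Agent.Work.MP_e97a4d_nt.CT.EBezA
import Pool.Agent.Work.MP_e97a4d_nt.CT.EBezB
import Pool.Agent.Work.MP_e97a4d_nt.CT.ENear
import Pool.Agent.Work.MP_e97a4d_nt.CT.TwoA
import Pool.Agent.Work.MP_e97a4d_nt.CT.TwoB

/-!
# CT/ETwo (size M-L): a splitting leading form gives two extensions of the degree

PROOF. `P₀ := Lp K k` is a unique factorization domain (`lp_ufd`, UP/LUfd), so integrally closed. `F := FractionRing P₀`, `v`
from `gauss_abs ξ` (CT/TwoA), nontrivial: some `ξ l ≠ 0`, and the value of `single (Pi.single l 1) 1` is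
`exp (ξ l) ≠ 1` (`AbsoluteValue.IsNontrivial`). `Ω, N` from `ext_alg` (CT/TwoB). `EΩ := (algebraMap F Ω).comp (algebraMap P₀ F)`;
`DegVal EΩ ξ N` by the property of `v`.
Give `M` the algebra structure over `F` of the lift of `E` (`IsLocalization.lift`/`IsFractionRing.lift hE`), so
`algebraMap F M (algebraMap P₀ F p) = E p`; `M` is algebraic over `F` (`halg`; the polynomial mapped to `F[X]` is not zero).
`g := G.map (algebraMap P₀ F)` is monic and irreducible (`Polynomial.Monic.irreducible_iff_irreducible_map_fraction_map`,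
Mathlib/RingTheory/Polynomial/GaussLemma), with root `y`, so `g = minpoly F y` (`minpoly.eq_of_irreducible_of_monic`). For
every root `x` of `G` in `Ω` there is an `F`-algebra homomorphism `τ : M →ₐ[F] Ω` with `τ y = x`
(`IntermediateField.exists_algHom_of_splits_of_aeval`, Mathlib/FieldTheory/Extension; `IsAlgClosed.splits`), so
`τ (E p) = EΩ p`; `ν := N.comap τ` satisfies `DegVal E ξ ν` and `ν (P.eval₂ E y) = N (P.eval₂ EΩ x)`
(`Polynomial.hom_eval₂`).
`near_root` for `P` gives a root `x` with `N (P x) < exp (deg P * μ)`, and for `Q` (`LeadFac ξ μ G Q P`: all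
conditions are symmetric) a root `x'` with `N x' ≤ exp μ` and `N (Q x') < exp (deg Q * μ)`. Claim:
`N (P x') ≥ exp (deg P * μ)`. With it, `ν, ν'` for `x, x'` are as wanted.
Claim: `bez_a` and `bez_b` give `s, A, B, r`; `N (A x') ≤ exp (s - deg P μ)`, `N (B x') ≤ exp (s - deg Q μ)` by `val_le`. If
`N (P x') < exp (deg P μ)` then `N (A x' * P x') < exp s` and `N (B x' * Q x') < exp s`, so
`N (EΩ r) = N (A x' P x' + B x' Q x') < exp s`; but `N (EΩ r) = exp (dg ξ e) = exp s` for an exponent `e` of `r`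
(`DegVal`). Contradiction.
-/

set_option autoImplicit false

noncomputable section

namespace Pool.Agent.Work.MP_e97a4d_nt.CT

open Pool.Agent.Work.UP

/-- The value of a monomial for an absolute value with the property of `gauss_abs`. -/
private theorem et_single {K : Type} [Field K] {k : ℕ} (ξ : Fin k → ℝ)
    (v : AbsoluteValue (FractionRing (Lp K k)) ℝ)
    (hv : ∀ p : Lp K k, p ≠ 0 →
        IsGreatest ((fun e => Real.exp (dg ξ e)) '' (p.coeff.support : Set (Fin k → ℤ)))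
          (v (algebraMap (Lp K k) (FractionRing (Lp K k)) p)))
    (e : Fin k → ℤ) (a : K) (ha : a ≠ 0) :
    v (algebraMap (Lp K k) (FractionRing (Lp K k)) (AddMonoidAlgebra.single e a)) =
      Real.exp (dg ξ e) := by
  have hs : (AddMonoidAlgebra.single e a : Lp K k).coeff.support = {e} := by
    show (Finsupp.single e a).support = {e}
    exact Finsupp.support_single e ha
  have hne : (AddMonoidAlgebra.single e a : Lp K k) ≠ 0 := by
    intro h0
    rw [h0] at hs
    have h1 : (0 : Lp K k).coeff.support = ∅ := rfl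
    rw [h1] at hs
    exact (Finset.singleton_ne_empty e) hs.symm
  obtain ⟨⟨e', he', h1⟩, _⟩ := hv _ hne
  rw [hs] at he'
  have h2 : e' = e := by simpa using he'
  rw [← h1, h2]

private theorem et_nontriv {K : Type} [Field K] {k : ℕ} (ξ : Fin k → ℝ) (hξ : ξ ≠ 0)
    (v : AbsoluteValue (FractionRing (Lp K k)) ℝ)
    (hv : ∀ p : Lp K k, p ≠ 0 →
        IsGreatest ((fun e => Real.exp (dg ξ e)) '' (p.coeff.support : Set (Fin k → ℤ)))
          (v (algebraMap (Lp K k) (FractionRing (Lp K k)) p))) : v.IsNontrivial := by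
  classical
  obtain ⟨l, hl⟩ := Function.ne_iff.1 hξ
  have h1 := et_single ξ v hv (Pi.single l 1) (1 : K) one_ne_zero
  have h2 : dg ξ (Pi.single l 1) = ξ l := by
    unfold dg
    rw [Finset.sum_eq_single l]
    · simp
    · intro b _ hb
      rw [Pi.single_eq_of_ne hb]
      simp
    · intro h
      exact absurd (Finset.mem_univ l) h
  refine ⟨algebraMap (Lp K k) (FractionRing (Lp K k))
    (AddMonoidAlgebra.single (Pi.single l 1) 1), ?_, ?_⟩
  · intro h0
    rw [h0, map_zero] at h1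
    exact (Real.exp_pos _).ne h1
  · rw [h1, h2]
    intro h3
    exact hl (Real.exp_eq_one_iff _ |>.1 h3)

private theorem et_symm {K : Type} [Field K] {k : ℕ} {ξ : Fin k → ℝ} {μ : ℝ}
    {G P Q : Polynomial (Lp K k)} (h : LeadFac ξ μ G P Q) : LeadFac ξ μ G Q P where
  monicP := h.monicQ
  monicQ := h.monicP
  posP := h.posQ
  posQ := h.posP
  cop := h.cop.symm
  isoP := h.isoQ
  isoQ := h.isoP
  deg := by rw [h.deg, add_comm]
  low := by rw [mul_comm]; exact h.low

/-- At a root which is near to a root of `Q` the value of `P` is large. -/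
private theorem et_far {K Ω : Type} [Field K] [Field Ω] {k : ℕ} (E : Lp K k →+* Ω)
    (N : Valuation Ω NNReal) (ξ : Fin k → ℝ) (hN : DegVal E ξ N) (μ : ℝ)
    (G P Q : Polynomial (Lp K k)) (h : LeadFac ξ μ G P Q) (x : Ω) (hx : (N x : ℝ) ≤ Real.exp μ)
    (hQ : (N (Q.eval₂ E x) : ℝ) < Real.exp ((Q.natDegree : ℝ) * μ)) :
    Real.exp ((P.natDegree : ℝ) * μ) ≤ (N (P.eval₂ E x) : ℝ) := by
  haveI : UniqueFactorizationMonoid (Lp K k) := lp_ufd K k
  obtain ⟨A₁, B₁, r₁, hr₁, hAB⟩ := bez_a P Q h.monicP h.monicQ h.cop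
  obtain ⟨s, A, B, r, hr, hrs, hA, hB, hABr⟩ := bez_b ξ μ P Q h.isoP h.isoQ A₁ B₁ r₁ hr₁ hAB
  by_contra hcon
  push Not at hcon
  have h1 := val_le E N ξ hN μ _ A (fun i e he => (hA i e he).le) x hx
  have h2 := val_le E N ξ hN μ _ B (fun i e he => (hB i e he).le) x hx
  have h3 : (N (A.eval₂ E x * P.eval₂ E x) : ℝ) < Real.exp s := by
    rw [map_mul, NNReal.coe_mul]
    calc (N (A.eval₂ E x) : ℝ) * (N (P.eval₂ E x) : ℝ)
        ≤ Real.exp (s - (P.natDegree : ℝ) * μ) * (N (P.eval₂ E x) : ℝ) :=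
          mul_le_mul_of_nonneg_right h1 (NNReal.coe_nonneg _)
      _ < Real.exp (s - (P.natDegree : ℝ) * μ) * Real.exp ((P.natDegree : ℝ) * μ) :=
          mul_lt_mul_of_pos_left hcon (Real.exp_pos _)
      _ = Real.exp s := by rw [← Real.exp_add]; congr 1; ring
  have h4 : (N (B.eval₂ E x * Q.eval₂ E x) : ℝ) < Real.exp s := by
    rw [map_mul, NNReal.coe_mul]
    calc (N (B.eval₂ E x) : ℝ) * (N (Q.eval₂ E x) : ℝ)
        ≤ Real.exp (s - (Q.natDegree : ℝ) * μ) * (N (Q.eval₂ E x) : ℝ) :=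
          mul_le_mul_of_nonneg_right h2 (NNReal.coe_nonneg _)
      _ < Real.exp (s - (Q.natDegree : ℝ) * μ) * Real.exp ((Q.natDegree : ℝ) * μ) :=
          mul_lt_mul_of_pos_left hQ (Real.exp_pos _)
      _ = Real.exp s := by rw [← Real.exp_add]; congr 1; ring
  have h5 : E r = A.eval₂ E x * P.eval₂ E x + B.eval₂ E x * Q.eval₂ E x := by
    have h6 := congrArg (Polynomial.eval₂ E x) hABr
    rw [Polynomial.eval₂_add, Polynomial.eval₂_mul, Polynomial.eval₂_mul, Polynomial.eval₂_C] at h6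
    exact h6.symm
  have h7 : (N (E r) : ℝ) < Real.exp s := by
    rw [h5]
    have h8 := N.map_add (A.eval₂ E x * P.eval₂ E x) (B.eval₂ E x * Q.eval₂ E x)
    have h9 : (N (A.eval₂ E x * P.eval₂ E x + B.eval₂ E x * Q.eval₂ E x) : ℝ) ≤
        max (N (A.eval₂ E x * P.eval₂ E x) : ℝ) (N (B.eval₂ E x * Q.eval₂ E x) : ℝ) := by
      rw [← NNReal.coe_max, NNReal.coe_le_coe]
      exact h8
    exact h9.trans_lt (max_lt h3 h4)
  obtain ⟨⟨e, he, hes⟩, _⟩ := hN r hr
  have h10 : Real.exp (dg ξ e) = (N (E r) : ℝ) := hes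
  rw [hrs e he] at h10
  exact absurd h10 h7.ne'


theorem two_fac {K M : Type} [Field K] [Field M] {k : ℕ} (E : Lp K k →+* M)
    (hE : Function.Injective E)
    (halg : ∀ f : M, ∃ q : Polynomial (Lp K k), q ≠ 0 ∧ q.eval₂ E f = 0) (ξ : Fin k → ℝ)
    (hξ : ξ ≠ 0) (μ : ℝ) (G P Q : Polynomial (Lp K k)) (hG : G.Monic) (hirr : Irreducible G)
    (h : LeadFac ξ μ G P Q) (y : M) (hy : G.eval₂ E y = 0) :
    ∃ ν ν' : Valuation M NNReal, DegVal E ξ ν ∧ DegVal E ξ ν' ∧
      ν (P.eval₂ E y) < ν' (P.eval₂ E y) := by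
  classical
  haveI : UniqueFactorizationMonoid (Lp K k) := lp_ufd K k
  obtain ⟨v, hna, hv⟩ := gauss_abs (K := K) ξ
  obtain ⟨Ω, iΩ, aΩ, N, hΩ, hN⟩ := ext_alg v hna (et_nontriv ξ hξ v hv)
  letI : Algebra (FractionRing (Lp K k)) M := (IsFractionRing.lift hE).toAlgebra
  have hφ : ∀ p : Lp K k, algebraMap (FractionRing (Lp K k)) M
      (algebraMap (Lp K k) (FractionRing (Lp K k)) p) = E p := fun p =>
    IsFractionRing.lift_algebraMap hE p
  let EΩ : Lp K k →+* Ω :=
    (algebraMap (FractionRing (Lp K k)) Ω).comp (algebraMap (Lp K k) (FractionRing (Lp K k)))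
  have hDΩ : DegVal EΩ ξ N := by
    intro p hp
    show IsGreatest _ (N (algebraMap (FractionRing (Lp K k)) Ω
      (algebraMap (Lp K k) (FractionRing (Lp K k)) p)) : ℝ)
    rw [hN]
    exact hv p hp
  have hcomp : (algebraMap (FractionRing (Lp K k)) M).comp
      (algebraMap (Lp K k) (FractionRing (Lp K k))) = E := RingHom.ext hφ
  have hinj : Function.Injective (algebraMap (Lp K k) (FractionRing (Lp K k))) :=
    IsFractionRing.injective _ _
  haveI hAlg : Algebra.IsAlgebraic (FractionRing (Lp K k)) M := by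
    refine ⟨fun f => ?_⟩
    obtain ⟨q, hq, hqf⟩ := halg f
    refine ⟨q.map (algebraMap (Lp K k) (FractionRing (Lp K k))),
      (Polynomial.map_ne_zero_iff hinj).2 hq, ?_⟩
    rw [Polynomial.aeval_def, Polynomial.eval₂_map, hcomp]
    exact hqf
  have hgm : (G.map (algebraMap (Lp K k) (FractionRing (Lp K k)))).Monic := hG.map _
  have hgi : Irreducible (G.map (algebraMap (Lp K k) (FractionRing (Lp K k)))) :=
    (hG.irreducible_iff_irreducible_map_fraction_map).1 hirr
  have hgy : Polynomial.aeval y (G.map (algebraMap (Lp K k) (FractionRing (Lp K k)))) = 0 := by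
    rw [Polynomial.aeval_def, Polynomial.eval₂_map, hcomp]
    exact hy
  have hmin := minpoly.eq_of_irreducible_of_monic hgi hgy hgm
  have key : ∀ x : Ω, G.eval₂ EΩ x = 0 → ∃ ν : Valuation M NNReal, DegVal E ξ ν ∧
      ∀ H : Polynomial (Lp K k), ν (H.eval₂ E y) = N (H.eval₂ EΩ x) := by
    intro x hx
    have h1 : x ∈ (minpoly (FractionRing (Lp K k)) y).rootSet Ω := by
      rw [Polynomial.mem_rootSet_of_ne (minpoly.ne_zero (Algebra.IsIntegral.isIntegral y)), ← hmin,
        Polynomial.aeval_def, Polynomial.eval₂_map]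
      exact hx
    rw [← Algebra.IsAlgebraic.range_eval_eq_rootSet_minpoly] at h1
    obtain ⟨τ, hτ⟩ := h1
    have hτ' : τ y = x := hτ
    have hτE : ∀ p : Lp K k, τ (E p) = EΩ p := by
      intro p
      rw [← hφ, AlgHom.commutes]
      rfl
    refine ⟨N.comap (τ : M →+* Ω), ?_, ?_⟩
    · intro p hp
      show IsGreatest _ (N (τ (E p)) : ℝ)
      rw [hτE]
      exact hDΩ p hp
    · intro H
      show N (τ (H.eval₂ E y)) = _
      rw [← hτ']
      have h2 : (τ : M →+* Ω).comp E = EΩ := RingHom.ext hτE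
      rw [← h2, ← AlgHom.coe_toRingHom, Polynomial.hom_eval₂]
  obtain ⟨x, hx0, -, hxP⟩ := near_root EΩ N ξ hDΩ μ G P Q hG h
  obtain ⟨x', hx0', hx1', hxQ'⟩ := near_root EΩ N ξ hDΩ μ G Q P hG (et_symm h)
  have hfar := et_far EΩ N ξ hDΩ μ G P Q h x' hx1' hxQ'
  obtain ⟨ν, hν, hνH⟩ := key x hx0
  obtain ⟨ν', hν', hνH'⟩ := key x' hx0'
  refine ⟨ν, ν', hν, hν', ?_⟩
  rw [hνH, hνH', ← NNReal.coe_lt_coe]
  exact hxP.trans_le hfar

end Pool.Agent.Work.MP_e97a4d_nt.CT
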