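import Pool.Agent.Work.MP_e97a4d_nt.CT.QDefs
import Pool.Agent.Work.UP.LTorusC

/-!
# CT/EntA (size M): Laurent polynomials in entire units as meromorphic functions

PROOF. `mero_ev`: both sides are additive in `p`; for `single a c`: `ev_single`, and
`mon (cu t') a = mk (fun z => mon (cu (uz u hu z)) a) _` (`mon` is a product of integral powers;
`mk_mul`, `mk_inv`, `mk_pow`, `mk_const`; or use that `Ideal.Quotient.mk zeroIdeal` and `Pi` structures are
multiplicative: UE/SMdefs `mkH`). It may be easiest to use `ev_eq` (CT/Defs) for both evaluations, and to show for all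
`z` that the value `evz z` of the left side (it is in `Mz z`) is the value of the function on the right; or to
prove by `Finset` induction that `mk` of a finite sum/product is the sum/product of the `mk`.
`mero_diff`: `ev_eq`, finite sums and products of the entire functions `u l`, `(u l)⁻¹`.
`mero_inj`: if `ev (algebraMap ℂ Mero) t' p = 0` then by `mero_ev` and `mk_eq_zero_iff` the entire function
`z ↦ ev id (uz u hu z) p` vanishes outside a discrete set, so everywhere by continuity; `borelL` (UP/LTorusC) says
`p = 0`. A ring homomorphism is injective if its kernel is zero (`injective_iff_map_eq_zero`).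
-/

set_option autoImplicit false

noncomputable section

namespace Pool.Agent.Work.MP_e97a4d_nt.CT

open Pool.Agent.Work.UP Filter Hyp

variable {d : ℕ}

theorem mero_diff (u : Fin d → ℂ → ℂ) (hu : IsUC u) (p : Lp ℂ d) :
    Differentiable ℂ (fun z => ev (RingHom.id ℂ) (uz u hu z) p) :=
  ev_uz_differentiable u hu p

private theorem mk_zpow' {f : ℂ → ℂ} (hf : Meromorphic f) (n : ℤ)
    (h : Meromorphic (fun z => f z ^ n)) : mk f hf ^ n = mk (fun z => f z ^ n) h := by
  cases n with
  | ofNat k =>
    have e : mk f hf ^ (Int.ofNat k) = mk f hf ^ k := zpow_natCast _ _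
    rw [e, mk_pow, mk_eq_iff]
    exact Filter.Eventually.of_forall fun z => by simp
  | negSucc k =>
    rw [zpow_negSucc, mk_pow, mk_inv, mk_eq_iff]
    exact Filter.Eventually.of_forall fun z => by simp [zpow_negSucc]

private theorem mk_prod' {ι : Type} (s : Finset ι) (f : ι → ℂ → ℂ) (hf : ∀ i, Meromorphic (f i))
    (h : Meromorphic (fun z => ∏ i ∈ s, f i z)) :
    ∏ i ∈ s, mk (f i) (hf i) = mk (fun z => ∏ i ∈ s, f i z) h := by
  classical
  induction s using Finset.induction_on with
  | empty =>
    rw [Finset.prod_empty, ← mk_one, mk_eq_iff]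
    exact Filter.Eventually.of_forall fun z => by simp
  | insert x s hx ih =>
    have h1 : Meromorphic (fun z => ∏ i ∈ s, f i z) := by
      intro z
      exact MeromorphicAt.fun_prod (fun i _ => hf i z)
    rw [Finset.prod_insert hx, ih h1, mk_mul, mk_eq_iff]
    exact Filter.Eventually.of_forall fun z => by
      simp [Finset.prod_insert hx]

private theorem mk_mon (u : Fin d → ℂ → ℂ) (hu : IsUC u) (t' : Fin d → Meroˣ)
    (ht : ∀ l, (t' l : Mero) = mk (u l) (mer_of_diff (hu l).1)) (a : Fin d → ℤ)
    (h : Meromorphic (fun z => mon (cu (uz u hu z)) a)) :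
    mon (cu t') a = mk (fun z => mon (cu (uz u hu z)) a) h := by
  have hz : ∀ l, Meromorphic (fun z => u l z ^ a l) := by
    intro l z
    exact (mer_of_diff (hu l).1 z).zpow (a l)
  have h1 : mon (cu t') a = ∏ l, mk (fun z => u l z ^ a l) (hz l) := by
    unfold mon
    refine Finset.prod_congr rfl fun l _ => ?_
    show (t' l : Mero) ^ a l = _
    rw [ht, mk_zpow' _ _ (hz l)]
  rw [h1, mk_prod' Finset.univ (fun l z => u l z ^ a l) hz h]
  rfl

theorem mero_ev (u : Fin d → ℂ → ℂ) (hu : IsUC u) (t' : Fin d → Meroˣ)
    (ht : ∀ l, (t' l : Mero) = mk (u l) (mer_of_diff (hu l).1)) (p : Lp ℂ d) :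
    ev (algebraMap ℂ Mero) t' p =
      mk (fun z => ev (RingHom.id ℂ) (uz u hu z) p) (mer_of_diff (mero_diff u hu p)) := by
  suffices hall : ∀ h : Meromorphic (fun z => ev (RingHom.id ℂ) (uz u hu z) p),
      ev (algebraMap ℂ Mero) t' p = mk (fun z => ev (RingHom.id ℂ) (uz u hu z) p) h from hall _
  induction p using AddMonoidAlgebra.induction_linear with
  | zero =>
    intro h
    rw [map_zero, ← mk_zero, mk_eq_iff]
    exact Filter.Eventually.of_forall fun z => by simp
  | add f g hf hg =>
    intro h
    rw [map_add, hf (mer_of_diff (mero_diff u hu f)), hg (mer_of_diff (mero_diff u hu g)), mk_add,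
      mk_eq_iff]
    exact Filter.Eventually.of_forall fun z => by
      show ev (RingHom.id ℂ) (uz u hu z) f + ev (RingHom.id ℂ) (uz u hu z) g = _
      rw [← map_add]
  | single a c =>
    intro h
    have h0 : Meromorphic (fun z => mon (cu (uz u hu z)) a) := by
      have h1 := mer_of_diff (mero_diff u hu (AddMonoidAlgebra.single a 1))
      have h2 : (fun z => ev (RingHom.id ℂ) (uz u hu z) (AddMonoidAlgebra.single a 1)) =
          fun z => mon (cu (uz u hu z)) a := by
        funext z
        rw [ev_single, map_one, one_mul]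
      rw [h2] at h1
      exact h1
    rw [ev_single, mk_mon u hu t' ht a h0, ← mk_const, mk_mul, mk_eq_iff]
    exact Filter.Eventually.of_forall fun z => by
      show c * mon (cu (uz u hu z)) a =
        ev (RingHom.id ℂ) (uz u hu z) (AddMonoidAlgebra.single a c)
      rw [ev_single, RingHom.id_apply]

theorem mero_inj (u : Fin d → ℂ → ℂ) (hu : IsUC u) (hi : IndC u) (t' : Fin d → Meroˣ)
    (ht : ∀ l, (t' l : Mero) = mk (u l) (mer_of_diff (hu l).1)) :
    Function.Injective (ev (algebraMap ℂ Mero) t') := by
  rw [injective_iff_map_eq_zero]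
  intro p hp
  by_contra hne
  obtain ⟨z0, hz0⟩ := borelL u hu hi p hne
  rw [mero_ev u hu t' ht p, mk_eq_zero_iff] at hp
  have h1 : ∀ᶠ z in codiscrete ℂ, ev (RingHom.id ℂ) (uz u hu z) p ≠ 0 :=
    AnalyticOnNhd.preimage_zero_mem_codiscrete
      (fun z _ => (mero_diff u hu p).analyticAt z) hz0
  have h2 : ∀ᶠ z in codiscrete ℂ, False := by
    filter_upwards [hp, h1] with z h3 h4
    exact h4 h3
  have h3 : (1 : Mero) = 0 := by
    rw [← mk_one, mk_eq_zero_iff]
    exact h2.mono fun z h => h.elim
  exact one_ne_zero h3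

end Pool.Agent.Work.MP_e97a4d_nt.CT
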