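import Pool.Agent.Work.MP_e97a4d_nt.CT.EntA
import Pool.Agent.Work.MP_e97a4d_nt.CT.RedMap
import Pool.Agent.Work.MP_e97a4d_nt.CT.Growth

/-!
# CT/EntB (size M): entire functions from integral elements

`E = ev (algebraMap K L) t`. For an integral `y` of `L` the meromorphic function `Θ y` is entire:
`pcNf (Θ y)` (Hyp/PtToCurve).

PROOF. `int_mem`: `Mz z` is a valuation ring, so integrally closed; all `Θ (E q)` are in `Mz z` (constants:
`algebraMap_mem_Mz`; `Θ (t l)` and its inverse are `mk` of entire functions: `ord_mk` and analytic functions have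
order `≥ 0`; see `IsUQ.of_unit`/`exists_unit_rep` in UG/EntU and `mem_Mz`). A monic equation of `y` gives one of
`Θ y` over `Mz z` (see the end of `integral_ext`, UE/ExtU).
`ent_diff`: `pcNf_analytic`. The map `y ↦ pcNf (Θ y) z = evz z ⟨Θ y, _⟩` (`pcNf_evz`) is a ring homomorphism
on the integral elements. `ent_ev`: `ev_lpm` with `e = algebraMap ℂ Mero`, `t' l = Units.map Θ (t l)`, then `mero_ev`
and: for an entire function `f`, `pcNf (mk f _) z = f z` (`pcNf_evz`, `evz_eq` and continuity).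
`ent_eq`: apply `pcNf (Θ _) z` to `Red.eq n` (powers of integral elements are integral) and `ent_ev`.
`ent_ind`: if `∑ i, ev id (uz u hu z) (p i) * pcNf (Θ y) z ^ i = 0` for all `z` then
`∑ i, ev (algebraMap ℂ Mero) t' (p i) * Θ y ^ i = 0` in `Mero` (it is in all `Mz z` with values `0`: `mero_ev`,
`pcNf_evz`; a meromorphic function `m` in all `Mz z` with `evz z m = 0` for all `z` is zero: `pc_eq_zero`), and
`(red_map ..).ind` gives `p = 0` (`mero_inj`).
`nm_mero`: with `N y := ‖pcNf (Θ y) z‖`: elements of `Subring.closure s` are integral (the integral elements form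
a subring: `RingHom.IsIntegralElem.add`, `.mul`, `.neg`), so `mul`, `add`, `one`, `zero` follow from the ring
homomorphism; `mono`: `ent_ev` for `single e c`, `ev_single`, `mon_log` (`NormedField.toAbsoluteValue ℂ`).
-/

set_option autoImplicit false

noncomputable section

namespace Pool.Agent.Work.MP_e97a4d_nt.CT

open Pool.Agent.Work.UP Filter Hyp

/-- An entire function is holomorphic at `z`. -/
private theorem eb_mk_mem {f : ℂ → ℂ} (hf : Differentiable ℂ f) (z : ℂ) :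
    mk f (mer_of_diff hf) ∈ Mz z := by
  rw [mem_Mz, ord_mk]
  exact (hf.analyticAt z).meromorphicOrderAt_nonneg

private theorem eb_mk_inv_mem {f : ℂ → ℂ} (hf : Differentiable ℂ f) (z : ℂ) (h0 : f z ≠ 0) :
    (mk f (mer_of_diff hf))⁻¹ ∈ Mz z := by
  rw [mk_inv, mem_Mz, ord_mk]
  exact ((hf.analyticAt z).inv h0).meromorphicOrderAt_nonneg

/-- The value of an entire function. -/
private theorem eb_val {f : ℂ → ℂ} (hf : Differentiable ℂ f) (z : ℂ) :
    pcNf (mk f (mer_of_diff hf)) z = f z := by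
  rw [← pcNf_evz (eb_mk_mem hf z)]
  exact evz_eq (f := f) (hf := mer_of_diff hf) rfl
    ((hf z).continuousAt.tendsto.mono_left nhdsWithin_le_nhds)

private theorem eb_mul {z : ℂ} {x y : Mero} (hx : x ∈ Mz z) (hy : y ∈ Mz z) :
    pcNf (x * y) z = pcNf x z * pcNf y z := by
  rw [← pcNf_evz hx, ← pcNf_evz hy, ← pcNf_evz (mul_mem hx hy), ← map_mul]
  rfl

private theorem eb_add {z : ℂ} {x y : Mero} (hx : x ∈ Mz z) (hy : y ∈ Mz z) :
    pcNf (x + y) z = pcNf x z + pcNf y z := by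
  rw [← pcNf_evz hx, ← pcNf_evz hy, ← pcNf_evz (add_mem hx hy), ← map_add]
  rfl

private theorem eb_pow {z : ℂ} {x : Mero} (hx : x ∈ Mz z) (n : ℕ) :
    pcNf (x ^ n) z = pcNf x z ^ n := by
  rw [← pcNf_evz hx, ← pcNf_evz (pow_mem hx n), ← map_pow]
  rfl

private theorem eb_one (z : ℂ) : pcNf (1 : Mero) z = 1 := by
  rw [← pcNf_evz (one_mem (Mz z))]
  exact map_one (evz z)

private theorem eb_zero (z : ℂ) : pcNf (0 : Mero) z = 0 := by
  rw [← pcNf_evz (zero_mem (Mz z))]
  exact map_zero (evz z)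

private theorem eb_sum {z : ℂ} {ι : Type} (S : Finset ι) (x : ι → Mero) (hx : ∀ i, x i ∈ Mz z) :
    pcNf (∑ i ∈ S, x i) z = ∑ i ∈ S, pcNf (x i) z := by
  classical
  induction S using Finset.induction_on with
  | empty => rw [Finset.sum_empty, Finset.sum_empty, eb_zero]
  | insert a S ha ih =>
    rw [Finset.sum_insert ha, Finset.sum_insert ha, eb_add (hx a) (sum_mem fun i _ => hx i), ih]

/-- The units of `Mero`. -/
private def eb_t {L : Type} [Field L] {d : ℕ} (t : Fin d → Lˣ) (Θ : L →+* Mero) (l : Fin d) : Meroˣ :=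
  Units.map (Θ : L →* Mero) (t l)

private theorem eb_t_coe {L : Type} [Field L] {d : ℕ} (t : Fin d → Lˣ) (Θ : L →+* Mero) (l : Fin d) :
    (eb_t t Θ l : Mero) = Θ (t l) := rfl

variable {K L : Type} [Field K] [Field L] [Algebra K L] {d : ℕ} (t : Fin d → Lˣ) (Θ : L →+* Mero)
  (κ : K →+* ℂ) (hκ : ∀ c, Θ (algebraMap K L c) = algebraMap ℂ Mero (κ c))
  (u : Fin d → ℂ → ℂ) (hu : IsUC u) (hΘ : ∀ l, Θ (t l) = mk (u l) (mer_of_diff (hu l).1))

private theorem eb_ev (hκ : ∀ c, Θ (algebraMap K L c) = algebraMap ℂ Mero (κ c))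
    (hΘ : ∀ l, Θ (t l) = mk (u l) (mer_of_diff (hu l).1)) (q : Lp K d) :
    Θ (ev (algebraMap K L) t q) =
      mk (fun z => ev (RingHom.id ℂ) (uz u hu z) (lpm κ q)) (mer_of_diff (mero_diff u hu (lpm κ q))) := by
  rw [← mero_ev u hu (eb_t t Θ) (fun l => by rw [eb_t_coe, hΘ]) (lpm κ q)]
  exact (ev_lpm Θ κ (algebraMap ℂ Mero) (RingHom.ext fun c => (hκ c).symm) t (eb_t t Θ)
    (fun l => eb_t_coe t Θ l) q).symm

include hκ hΘ

theorem int_mem (y : L) (hy : (ev (algebraMap K L) t).IsIntegralElem y) (z : ℂ) : Θ y ∈ Mz z := by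
  have hE : ∀ q : Lp K d, Θ (ev (algebraMap K L) t q) ∈ Mz z := fun q => by
    rw [eb_ev t Θ κ u hu hκ hΘ q]
    exact eb_mk_mem (mero_diff u hu (lpm κ q)) z
  obtain ⟨P, hP, hPy⟩ := hy
  let φ : Lp K d →+* Mz z := (Θ.comp (ev (algebraMap K L) t)).codRestrict (Mz z).toSubring hE
  have hcomp : (algebraMap (Mz z) Mero).comp φ = Θ.comp (ev (algebraMap K L) t) := rfl
  have hint : IsIntegral (Mz z) (Θ y) := by
    refine ⟨P.map φ, hP.map φ, ?_⟩
    rw [Polynomial.eval₂_map, hcomp, ← Polynomial.hom_eval₂, hPy, map_zero]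
  obtain ⟨a, ha⟩ := (IsIntegrallyClosed.isIntegral_iff (R := Mz z) (K := Mero)).1 hint
  rw [← ha]
  exact a.2

theorem ent_diff (y : L) (hy : (ev (algebraMap K L) t).IsIntegralElem y) :
    Differentiable ℂ (pcNf (Θ y)) := by
  intro z
  exact (pcNf_analytic (int_mem t Θ κ hκ u hu hΘ y hy z)).differentiableAt

theorem ent_eq {y : L} {m R : ℕ} {A : ℕ → Fin m → Lp K d}
    (h : Red (ev (algebraMap K L) t) y m R A) (n : ℕ) (z : ℂ) :
    pcNf (Θ y) z ^ n = ∑ i : Fin m,
      ev (RingHom.id ℂ) (uz u hu z) (lpm κ (A n i)) * pcNf (Θ y) z ^ (i : ℕ) := by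
  have hy := red_integral h
  have hm := int_mem t Θ κ hκ u hu hΘ y hy z
  have hE : ∀ q : Lp K d, Θ (ev (algebraMap K L) t q) ∈ Mz z := fun q => by
    rw [eb_ev t Θ κ u hu hκ hΘ q]
    exact eb_mk_mem (mero_diff u hu (lpm κ q)) z
  rw [← eb_pow hm, ← map_pow, h.eq n, map_sum, eb_sum]
  · refine Finset.sum_congr rfl fun i _ => ?_
    rw [map_mul, map_pow, eb_mul (hE _) (pow_mem hm _), eb_pow hm, eb_ev t Θ κ u hu hκ hΘ,
      eb_val (mero_diff u hu (lpm κ (A n i)))]
  · intro i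
    rw [map_mul, map_pow]
    exact mul_mem (hE _) (pow_mem hm _)

theorem ent_ind [CharZero K] (hi : IndC u)
    (hK : ∀ x : L, (∃ c : ℂ, Θ x = algebraMap ℂ Mero c) → x ∈ Set.range (algebraMap K L))
    {y : L} {m R : ℕ} {A : ℕ → Fin m → Lp K d} (h : Red (ev (algebraMap K L) t) y m R A)
    (p : Fin m → Lp ℂ d)
    (hp : ∀ z, ∑ i : Fin m, ev (RingHom.id ℂ) (uz u hu z) (p i) * pcNf (Θ y) z ^ (i : ℕ) = 0) :
    p = 0 := by
  have hy := red_integral h
  have ht : ∀ l, (eb_t t Θ l : Mero) = mk (u l) (mer_of_diff (hu l).1) := fun l => by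
    rw [eb_t_coe, hΘ]
  have hK' : ∀ x : L, IsAlgebraic K x → x ∈ Set.range (algebraMap K L) := by
    intro x hx
    apply hK
    obtain ⟨P, hP, hPx⟩ := hx
    have halg : IsAlgebraic ℂ (Θ x) := by
      refine ⟨P.map κ, (Polynomial.map_ne_zero_iff κ.injective).2 hP, ?_⟩
      rw [Polynomial.aeval_def, Polynomial.eval₂_map]
      have hc : (algebraMap ℂ Mero).comp κ = Θ.comp (algebraMap K L) :=
        RingHom.ext fun c => (hκ c).symm
      rw [Polynomial.aeval_def] at hPx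
      rw [hc, ← Polynomial.hom_eval₂, hPx, map_zero]
    have hirr := minpoly.irreducible halg.isIntegral
    obtain ⟨c, hc⟩ := minpoly.mem_range_of_degree_eq_one ℂ (Θ x)
      (IsAlgClosed.degree_eq_one_of_irreducible ℂ hirr)
    exact ⟨c, hc.symm⟩
  have hinj := mero_inj u hu hi (eb_t t Θ) ht
  have hR := red_map hK' Θ κ (algebraMap ℂ Mero) (RingHom.ext fun c => (hκ c).symm) t (eb_t t Θ)
    (fun l => eb_t_coe t Θ l) hinj y h
  apply hR.ind
  apply pc_eq_zero (z := 0)
  refine Filter.Eventually.of_forall fun z => ?_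
  have hm := int_mem t Θ κ hκ u hu hΘ y hy z
  rw [eb_sum]
  · rw [← hp z]
    refine Finset.sum_congr rfl fun i _ => ?_
    rw [mero_ev u hu (eb_t t Θ) ht (p i), eb_mul (eb_mk_mem (mero_diff u hu (p i)) z) (pow_mem hm _),
      eb_pow hm, eb_val (mero_diff u hu (p i))]
  · intro i
    rw [mero_ev u hu (eb_t t Θ) ht (p i)]
    exact mul_mem (eb_mk_mem (mero_diff u hu (p i)) z) (pow_mem hm _)

theorem nm_mero (s : Set L) (hs : ∀ f ∈ s, (ev (algebraMap K L) t).IsIntegralElem f) (z : ℂ) :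
    Nm (ev (algebraMap K L) t) s (fun c => ‖κ c‖) (xx u z) (fun y => ‖pcNf (Θ y) z‖) := by
  have hcl : ∀ y ∈ Subring.closure s, (ev (algebraMap K L) t).IsIntegralElem y := by
    intro y hy
    induction hy using Subring.closure_induction with
    | mem x hx => exact hs x hx
    | zero => exact (ev (algebraMap K L) t).isIntegralElem_zero
    | one => exact (ev (algebraMap K L) t).isIntegralElem_one
    | add x y _ _ hx hy => exact hx.add _ hy
    | neg x _ hx => exact hx.neg _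
    | mul x y _ _ hx hy => exact hx.mul _ hy
  have hM : ∀ y ∈ Subring.closure s, Θ y ∈ Mz z := fun y hy =>
    int_mem t Θ κ hκ u hu hΘ y (hcl y hy) z
  refine ⟨fun y _ => norm_nonneg _, ?_, ?_, ?_, ?_, ?_⟩
  · show ‖pcNf (Θ 0) z‖ = 0
    rw [map_zero, eb_zero, norm_zero]
  · show ‖pcNf (Θ 1) z‖ = 1
    rw [map_one, eb_one, norm_one]
  · intro y hy y' hy'
    show ‖pcNf (Θ (y * y')) z‖ = ‖pcNf (Θ y) z‖ * ‖pcNf (Θ y') z‖
    rw [map_mul, eb_mul (hM y hy) (hM y' hy'), norm_mul]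
  · intro y hy y' hy'
    show ‖pcNf (Θ (y + y')) z‖ ≤ ‖pcNf (Θ y) z‖ + ‖pcNf (Θ y') z‖
    rw [map_add, eb_add (hM y hy) (hM y' hy')]
    exact norm_add_le _ _
  · intro c e _
    show ‖pcNf (Θ (ev (algebraMap K L) t (AddMonoidAlgebra.single e c))) z‖ =
      ‖κ c‖ * Real.exp (dg (xx u z) e)
    rw [eb_ev t Θ κ u hu hκ hΘ, eb_val (mero_diff u hu _), lpm_single, ev_single, norm_mul,
      RingHom.id_apply]
    congr 1
    exact mon_log (NormedField.toAbsoluteValue ℂ) (uz u hu z) e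

end Pool.Agent.Work.MP_e97a4d_nt.CT
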