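import Pool.Agent.Work.MP_e97a4d_nt.CT.ODefs
import Pool.Agent.Work.MP_e97a4d_nt.UE.GRoot
import Pool.Agent.Work.MP_e97a4d_nt.UE.HMz
import Pool.Agent.Work.MP_e97a4d_nt.UE.Above

/-!
# CT/GBar (size M): the ultrapower of an algebraic closure

PROOF of `g_bar`. `Ω' := Germ 𝒰 (AlgebraicClosure F)` is algebraically closed: `IsAlgClosed.of_exists_root` and
`germ_root` (UE/GRoot; an irreducible monic polynomial has positive degree). Give `Ω'` the algebra structure over `L`
of the homomorphism `(gMap 𝒰 (algebraMap F (AlgebraicClosure F))).comp Θ`; `AlgebraicClosure L` is algebraic over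
`L`, so `IsAlgClosed.lift` gives an `L`-algebra homomorphism `AlgebraicClosure L →ₐ[L] Ω'`.

PROOF of `g_con_b`. As `g_const` (CT/GCon): `Θb c` is the germ of `f : T → AlgebraicClosure F`, almost all values are
roots of one nonzero polynomial over `ℚ`, a finite set.

PROOF of `g_rt`. Let `x` be the germ of `f : T → AlgebraicClosure F`; for almost all `τ`, `f τ ^ e = W τ`
(`gMap_coe`, germs). Let `S' := S ∪ {p | p divides e}` (finite: `exists_bad`, UE/Above, gives `S' ⊇ S` with
`(e : F)⁻¹` in the valuation ring outside `S'`). For such `τ`: `(minpoly F (f τ)).natDegree ≤ e` (it divides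
`X ^ e - C (W τ)`), and `UnramRoot F S' e (f τ)`: for `p ∉ S'` take `h := X ^ e - C (W τ)`, `ξ' := f τ`: monic, degree
`e`, coefficients `1, 0, - W τ` of valuation `≤ 1`, and the valuation of `h.discr` is `1`: `h.discr = ± e ^ e * (W τ) ^ (e-1)`
(if there is no formula in Mathlib: by `resultant_deriv`/`disc_bezout`, UE/Disc, `p * a + p' * b = C discr` over the
valuation ring `O` of `p`, with `h` over `O`; if `discr` were in the maximal ideal, then its reduction to the
residue field `k` would be zero, but the discriminant of the reduction (`disc_map`) is not zero because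
`X ^ e - C \bar W` is separable (`Polynomial.separable_X_pow_sub_C`, `e` and `W τ` are units in `O`), and a
separable monic polynomial has nonzero discriminant: Mathlib `Polynomial.discr_ne_zero_iff...`, or use the
resultant of `h` and `h'` is nonzero if they are coprime: `Polynomial.resultant_ne_zero`/`IsCoprime`).
`hm_final F S' e` (UE/HMz) gives a finite extension `F₁` with `f τ ∈ F₁` for almost all `τ`.
`NumberField F₁`: `NumberField.of_module_finite F F₁`. Let `V τ := f τ` for these `τ` and `V τ := 1` otherwise.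
`exists_above (algebraMap F F₁) S` (UE/Above) gives a finite set `S₁` of primes of `F₁` such that every `P ∉ S₁` is over
some `p ∉ S`; `W τ` and its inverse are in the valuation ring of `p`, so of `P`, so `V τ ^ e` and its inverse are
in the valuation ring of `P`, which is integrally closed, so `V τ` and its inverse are: `FinitePlace.mk P (V τ) = 1`
(`FinitePlace.mk P` and the valuation: see `mem_integer_iff`, `SUnit.mk_le_one`, `unit_of_val` in UE/PointV).
-/

set_option autoImplicit false

noncomputable section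

namespace Pool.Agent.Work.MP_e97a4d_nt.CT

open Pool.Agent.Work.UP NumberField IsDedekindDomain Filter UE

private theorem mk_eq_nn {F : Type} [Field F] [NumberField F] (p : HeightOneSpectrum (𝓞 F))
    (x : F) : ∃ f : WithZero (Multiplicative ℤ) → NNReal, StrictMono f ∧ f 1 = 1 ∧
      FinitePlace.mk p x = f (p.valuation F x) := by
  have hb : 1 < (Ideal.absNorm p.asIdeal : NNReal) := by
    exact_mod_cast NumberField.HeightOneSpectrum.one_lt_absNorm_nnreal p
  refine ⟨_, WithZeroMulInt.toNNReal_strictMono hb, map_one _, ?_⟩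
  rw [FinitePlace.mk_apply, FinitePlace.norm_embedding, NumberField.HeightOneSpectrum.adicAbv_def]

private theorem mk_eq_one_iff {F : Type} [Field F] [NumberField F] (p : HeightOneSpectrum (𝓞 F))
    (x : F) : FinitePlace.mk p x = 1 ↔ p.valuation F x = 1 := by
  obtain ⟨f, hf, h1, h2⟩ := mk_eq_nn p x
  rw [h2]
  constructor
  · intro h
    have h3 : f (p.valuation F x) = f 1 := by
      rw [h1]
      exact_mod_cast h
    exact hf.injective h3
  · intro h
    rw [h, h1]
    norm_num

/-- The discriminant of `X ^ e - C w` over a field is not zero if `e` and `w` are not zero. -/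
private theorem discr_ne {k : Type} [Field k] {e : ℕ} (he : 0 < e) (he' : (e : k) ≠ 0) {w : k}
    (hw : w ≠ 0) : (Polynomial.X ^ e - Polynomial.C w : Polynomial k).discr ≠ 0 := by
  have hd : (Polynomial.X ^ e - Polynomial.C w : Polynomial k).natDegree = e :=
    Polynomial.natDegree_X_pow_sub_C
  have hder : Polynomial.derivative (Polynomial.X ^ e - Polynomial.C w : Polynomial k) =
      Polynomial.C (e : k) * Polynomial.X ^ (e - 1) := by
    rw [Polynomial.derivative_sub, Polynomial.derivative_C, sub_zero, Polynomial.derivative_X_pow]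
  have hdd : (Polynomial.derivative (Polynomial.X ^ e - Polynomial.C w : Polynomial k)).natDegree =
      (Polynomial.X ^ e - Polynomial.C w : Polynomial k).natDegree - 1 := by
    rw [hder, hd, Polynomial.natDegree_C_mul_X_pow _ _ he']
  have hsep : (Polynomial.X ^ e - Polynomial.C w : Polynomial k).Separable :=
    Polynomial.separable_X_pow_sub_C w he' hw
  have h1 := Polynomial.resultant_ne_zero _ _ hsep
  intro h0
  apply h1
  have h2 := Polynomial.resultant_deriv
    (f := (Polynomial.X ^ e - Polynomial.C w : Polynomial k))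
    (Polynomial.natDegree_pos_iff_degree_pos.1 (by rw [hd]; exact he))
  rw [h0, mul_zero, ← hdd] at h2
  exact h2

/-- The discriminant of `X ^ e - C w` is a unit if `e` and `w` are units. -/
private theorem val_discr {F : Type} [Field F] {Γ : Type} [LinearOrderedCommGroupWithZero Γ]
    (v : Valuation F Γ) {e : ℕ} (he : 0 < e) (he' : (e : F)⁻¹ ∈ v.valuationSubring)
    (he0 : (e : F) ≠ 0) {w : F} (hw : v w = 1) :
    v (Polynomial.X ^ e - Polynomial.C w : Polynomial F).discr = 1 := by
  set O := v.valuationSubring with hO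
  have hwO : w ∈ O := by rw [hO, Valuation.mem_valuationSubring_iff, hw]
  have hwO' : w⁻¹ ∈ O := by
    rw [hO, Valuation.mem_valuationSubring_iff, map_inv₀, hw, inv_one]
  have hw0 : w ≠ 0 := by
    rintro rfl
    rw [map_zero] at hw
    exact zero_ne_one hw
  let wO : O := ⟨w, hwO⟩
  have uw : IsUnit wO := by
    refine IsUnit.of_mul_eq_one (⟨w⁻¹, hwO'⟩ : O) ?_
    apply Subtype.ext
    exact mul_inv_cancel₀ hw0
  have ue : IsUnit ((e : ℕ) : O) := by
    refine IsUnit.of_mul_eq_one (⟨(e : F)⁻¹, he'⟩ : O) ?_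
    apply Subtype.ext
    show (((e : ℕ) : O) : F) * (e : F)⁻¹ = 1
    have h1 : (((e : ℕ) : O) : F) = (e : F) := map_natCast (algebraMap O F) e
    rw [h1, mul_inv_cancel₀ he0]
  let h : Polynomial O := Polynomial.X ^ e - Polynomial.C wO
  have hm : h.Monic := Polynomial.monic_X_pow_sub_C wO he.ne'
  have hd : 0 < h.natDegree := by
    rw [Polynomial.natDegree_X_pow_sub_C]
    exact he
  have e1 := disc_map (algebraMap O F) hm hd
  have e2 := disc_map (IsLocalRing.residue O) hm hd
  have m1 : h.map (algebraMap O F) = Polynomial.X ^ e - Polynomial.C w := by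
    show (Polynomial.X ^ e - Polynomial.C wO).map (algebraMap O F) = _
    rw [Polynomial.map_sub, Polynomial.map_pow, Polynomial.map_X, Polynomial.map_C]
    rfl
  have m2 : h.map (IsLocalRing.residue O) =
      Polynomial.X ^ e - Polynomial.C (IsLocalRing.residue O wO) := by
    show (Polynomial.X ^ e - Polynomial.C wO).map (IsLocalRing.residue O) = _
    rw [Polynomial.map_sub, Polynomial.map_pow, Polynomial.map_X, Polynomial.map_C]
  rw [m1] at e1
  rw [m2] at e2
  have r1 : IsLocalRing.residue O wO ≠ 0 := (uw.map (IsLocalRing.residue O)).ne_zero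
  have r2 : ((e : ℕ) : IsLocalRing.ResidueField O) ≠ 0 := by
    have := (ue.map (IsLocalRing.residue O)).ne_zero
    rwa [map_natCast] at this
  have r3 := discr_ne he r2 r1
  rw [e2] at r3
  have ud : IsUnit h.discr := by
    by_contra hcon
    apply r3
    rw [IsLocalRing.residue_eq_zero_iff]
    exact hcon
  obtain ⟨u, hu⟩ := ud
  rw [e1]
  have a1 : v (algebraMap O F h.discr) ≤ 1 := (h.discr).2
  have a2 : v (algebraMap O F (u⁻¹ : Oˣ)) ≤ 1 := ((u⁻¹ : Oˣ) : O).2
  have a3 : v (algebraMap O F h.discr) * v (algebraMap O F (u⁻¹ : Oˣ)) = 1 := by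
    rw [← map_mul, ← map_mul, ← hu, Units.mul_inv, map_one, map_one]
  refine le_antisymm a1 ?_
  rw [← a3]
  exact mul_le_of_le_one_right' a2

private theorem pow_one_val {Γ : Type} [LinearOrderedCommGroupWithZero Γ] {a : Γ} {e : ℕ}
    (he : 0 < e) (h : a ^ e = 1) : a = 1 := by
  rcases lt_trichotomy a 1 with h1 | h1 | h1
  · exact absurd h (pow_lt_one' h1 he.ne').ne
  · exact h1
  · exact absurd h (one_lt_pow' h1 he.ne').ne'

theorem g_bar {F : Type} [Field F] {T : Type} (𝒰 : Ultrafilter T) {L : Type} [Field L]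
    (Θ : L →+* Germ (𝒰 : Filter T) F) :
    ∃ Θb : AlgebraicClosure L →+* Germ (𝒰 : Filter T) (AlgebraicClosure F),
      Θb.comp (algebraMap L (AlgebraicClosure L)) =
        (gMap 𝒰 (algebraMap F (AlgebraicClosure F))).comp Θ := by
  have hcl : IsAlgClosed (Germ (𝒰 : Filter T) (AlgebraicClosure F)) := by
    refine IsAlgClosed.of_exists_root _ fun p hmon hirr => ?_
    exact germ_root 𝒰 p hmon hirr.natDegree_pos
  let φ : L →+* Germ (𝒰 : Filter T) (AlgebraicClosure F) :=
    (gMap 𝒰 (algebraMap F (AlgebraicClosure F))).comp Θ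
  let _ : Algebra L (Germ (𝒰 : Filter T) (AlgebraicClosure F)) := φ.toAlgebra
  let Θb : AlgebraicClosure L →ₐ[L] Germ (𝒰 : Filter T) (AlgebraicClosure F) := IsAlgClosed.lift
  exact ⟨Θb.toRingHom, RingHom.ext fun x => Θb.commutes x⟩

theorem g_con_b {F : Type} [Field F] [CharZero F] {T : Type} (𝒰 : Ultrafilter T) {M : Type}
    [Field M] [CharZero M] (Θb : M →+* Germ (𝒰 : Filter T) (AlgebraicClosure F)) (c : M)
    (hc : IsAlgebraic ℚ c) :
    ∃ γ : AlgebraicClosure F, Θb c = cst 𝒰 (AlgebraicClosure F) γ := by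
  obtain ⟨q, hq0, hq⟩ := hc
  induction hx : Θb c using Germ.inductionOn with | _ f =>
  have h1 : ∀ᶠ τ in (𝒰 : Filter T), ∃ γ ∈ {γ : AlgebraicClosure F |
      (q.map (algebraMap ℚ (AlgebraicClosure F))).IsRoot γ}, f τ = γ := by
    have h2 : Θb (Polynomial.aeval c q) = 0 := by rw [hq, map_zero]
    rw [Polynomial.aeval_def, Polynomial.hom_eval₂, hx] at h2
    have h3 : Θb.comp (algebraMap ℚ M) =
        (Germ.coeRingHom (𝒰 : Filter T)).comp ((Pi.constRingHom T (AlgebraicClosure F)).comp
          (algebraMap ℚ (AlgebraicClosure F))) := RingHom.ext_rat _ _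
    have h4 : (f : Germ (𝒰 : Filter T) (AlgebraicClosure F)) = Germ.coeRingHom (𝒰 : Filter T) f := rfl
    rw [h3, h4, ← Polynomial.hom_eval₂] at h2
    have h5 : (Polynomial.eval₂ ((Pi.constRingHom T (AlgebraicClosure F)).comp
          (algebraMap ℚ (AlgebraicClosure F))) f q : T → AlgebraicClosure F) =ᶠ[(𝒰 : Filter T)] 0 :=
      Germ.coe_eq.1 h2
    filter_upwards [h5] with τ hτ
    refine ⟨f τ, ?_, rfl⟩
    have h6 : (Pi.evalRingHom (fun _ : T => AlgebraicClosure F) τ)
        (Polynomial.eval₂ ((Pi.constRingHom T (AlgebraicClosure F)).comp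
          (algebraMap ℚ (AlgebraicClosure F))) f q) = 0 := hτ
    rw [Polynomial.hom_eval₂] at h6
    show (q.map (algebraMap ℚ (AlgebraicClosure F))).eval (f τ) = 0
    rw [Polynomial.eval_map]
    have h7 : (Pi.evalRingHom (fun _ : T => AlgebraicClosure F) τ).comp
        ((Pi.constRingHom T (AlgebraicClosure F)).comp (algebraMap ℚ (AlgebraicClosure F))) =
          algebraMap ℚ (AlgebraicClosure F) := RingHom.ext_rat _ _
    rw [h7] at h6
    exact h6
  have hq1 : q.map (algebraMap ℚ (AlgebraicClosure F)) ≠ 0 := by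
    rwa [Ne, Polynomial.map_eq_zero]
  rw [Ultrafilter.eventually_exists_mem_iff (Polynomial.finite_setOfPred_isRoot hq1)] at h1
  obtain ⟨γ, -, hγ⟩ := h1
  exact ⟨γ, by rw [cst_apply]; exact Germ.coe_eq.2 hγ⟩

theorem g_rt {F : Type} [Field F] [NumberField F] (S : Finset (HeightOneSpectrum (𝓞 F)))
    {T : Type} (𝒰 : Ultrafilter T) (W : T → F) (hW : ∀ τ, IsU S (W τ)) (e : ℕ) (he : 0 < e)
    (x : Germ (𝒰 : Filter T) (AlgebraicClosure F))
    (hx : x ^ e = gMap 𝒰 (algebraMap F (AlgebraicClosure F)) (W : Germ (𝒰 : Filter T) F)) :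
    IsUG 𝒰 x := by
  classical
  induction x using Germ.inductionOn with | _ f =>
  have hx1 : ∀ᶠ τ in (𝒰 : Filter T), f τ ^ e = algebraMap F (AlgebraicClosure F) (W τ) :=
    Germ.coe_eq.1 hx
  obtain ⟨S', hSS, hS'⟩ := exists_bad F S e he.ne'
  obtain ⟨E, hfd, hE⟩ := hm_final F S' e
  have he0 : (e : F) ≠ 0 := Nat.cast_ne_zero.2 he.ne'
  have hv : ∀ τ, ∀ p ∉ S, p.valuation F (W τ) = 1 := fun τ p hp =>
    (mk_eq_one_iff p _).1 ((hW τ).2 p hp)
  have hmem : ∀ τ, f τ ^ e = algebraMap F (AlgebraicClosure F) (W τ) → f τ ∈ E := by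
    intro τ hτ
    have hm : (Polynomial.X ^ e - Polynomial.C (W τ) : Polynomial F).Monic :=
      Polynomial.monic_X_pow_sub_C _ he.ne'
    have hr : Polynomial.aeval (f τ) (Polynomial.X ^ e - Polynomial.C (W τ) : Polynomial F) = 0 := by
      rw [map_sub, map_pow, Polynomial.aeval_X, Polynomial.aeval_C, hτ, sub_self]
    refine hE (f τ) ?_ ?_
    · have h1 := Polynomial.natDegree_le_of_dvd (minpoly.dvd F (f τ) hr) hm.ne_zero
      rwa [Polynomial.natDegree_X_pow_sub_C] at h1
    · intro p hp
      have hpS : p ∉ S := fun h => hp (hSS h)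
      refine ⟨Polynomial.X ^ e - Polynomial.C (W τ), f τ, hm, ?_, ?_, ?_, ?_, hr, ?_, ?_⟩
      · rw [Polynomial.natDegree_X_pow_sub_C]
        exact he
      · rw [Polynomial.natDegree_X_pow_sub_C]
      · intro l
        rw [Polynomial.coeff_sub, Polynomial.coeff_X_pow, Polynomial.coeff_C]
        refine (Valuation.map_sub _ _ _).trans (max_le ?_ ?_)
        · split_ifs
          · rw [map_one]
          · rw [map_zero]
            exact zero_le_one
        · split_ifs
          · rw [hv τ p hpS]
          · rw [map_zero]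
            exact zero_le_one
      · exact val_discr _ he (hS' p hp) he0 (hv τ p hpS)
      · exact IntermediateField.mem_adjoin_simple_self F (f τ)
      · exact IntermediateField.mem_adjoin_simple_self F (f τ)
  have hNF : NumberField E := NumberField.of_module_finite F E
  obtain ⟨S₁, hS₁⟩ := exists_above (algebraMap F E) S
  let V : T → E := fun τ => if h : f τ ^ e = algebraMap F (AlgebraicClosure F) (W τ) then
    ⟨f τ, hmem τ h⟩ else 1
  refine ⟨E, hNF, S₁, V, fun τ => ?_, ?_⟩
  · by_cases h : f τ ^ e = algebraMap F (AlgebraicClosure F) (W τ)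
    · have hVτ : V τ = ⟨f τ, hmem τ h⟩ := dif_pos h
      have hVe : V τ ^ e = algebraMap F E (W τ) := by
        apply Subtype.ext
        rw [hVτ]
        exact h
      have hV0 : V τ ≠ 0 := by
        intro h0
        rw [h0, zero_pow he.ne'] at hVe
        exact (hW τ).1 ((map_eq_zero (algebraMap F E)).1 hVe.symm)
      refine ⟨hV0, fun P hP => ?_⟩
      rw [mk_eq_one_iff]
      apply pow_one_val he
      rw [← map_pow, hVe]
      obtain ⟨p, hpS, hp⟩ := hS₁ P hP
      have a1 := hp (W τ) (by rw [Valuation.mem_valuationSubring_iff, hv τ p hpS])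
      have a2 := hp (W τ)⁻¹ (by
        rw [Valuation.mem_valuationSubring_iff, map_inv₀, hv τ p hpS, inv_one])
      rw [Valuation.mem_valuationSubring_iff] at a1 a2
      have a3 : P.valuation E (algebraMap F E (W τ)) * P.valuation E (algebraMap F E (W τ)⁻¹) =
          1 := by
        rw [← map_mul, ← map_mul, mul_inv_cancel₀ (hW τ).1, map_one, map_one]
      refine le_antisymm a1 ?_
      rw [← a3]
      exact mul_le_of_le_one_right' a2
    · have hVτ : V τ = 1 := dif_neg h
      rw [hVτ]
      exact ⟨one_ne_zero, fun P _ => map_one _⟩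
  · refine Germ.coe_eq.2 ?_
    filter_upwards [hx1] with τ hτ
    have hVτ : V τ = ⟨f τ, hmem τ hτ⟩ := dif_pos hτ
    rw [hVτ]

end Pool.Agent.Work.MP_e97a4d_nt.CT
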