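import Pool.Agent.Work.MP_e97a4d_nt.CT.EntB
import Pool.Agent.Work.MP_e97a4d_nt.CT.Cx
import Pool.Agent.Work.MP_e97a4d_nt.CT.Top

/-!
# CT/GainOf (size M-L): a gap gives a gain

PROOF. Let `k, y, μ, c, ρ, s` be the data of `Gap`. For every `j < k` let `m j, R j, A j` be the data of
`Lev E η (y j) (μ j)`, `Yj := pcNf (Θ (y j))` (entire, `ent_diff`; `y j` is integral by `red_integral`), not
identically zero: otherwise `Θ (y j) = 0` (`pc_eq_zero`), `y j = 0`, and then `m j = 1` by `ind` and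
`E (A 1 0) = y j = 0`, `A 1 0 = 0`, contradicting `Lvl` for `n = 1`. `cx` applies to `Yj` and the reductions
`lpm κ (A j n i)` (`ent_eq`, `lpm_support` for the box, `ent_ind`); let `C₀ j` be its constant.
In `Gain` take the same `k`, `C₀ := ∑ j, C₀ j`, and
`ρ' := min (min ρ 1) (min (c / 2) (c / (2 * (d * Q + 1))))`, where `Q ≥ R j * m j` for all `j`.

Let `n₀ : ℕ` (the `n` in `Gain`) be given. For every `j` put `n := n₀ + m j`; `lvl_top` for `Lvl (A j)` (or its image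
under `lpm κ`: `lvl_map`) gives `i < m j` and `a` with `IsTop η (lpm κ (A j n i)) a` and
`(n - i) * μ j ≤ dg η a`; `|a l| ≤ n * R j`.
`g j z := max 0 (dg (xx u z) a + (i - n) * log ‖Yj z‖)`: circle integrable by `cx_int`, mean bounded by `cx` (use
`C₀ j ≤ C₀`, `Tu_nonneg`; for `C` take the maximum or the sum of the absolute values of the constants).

Let `z` be a point with `Yj z ≠ 0` for all `j` (outside a discrete set, see CT/Cx), `h₀ := 1 / ρ` `≤ tau u z` and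
`|xx u z l - tau * η l| ≤ ρ' * tau`. `nm_mero` and `Gap` with `h := tau u z`, `x := xx u z` give `j` with
`‖Yj z‖ ≤ exp ((μ j - c) * tau)`, so `log ‖Yj z‖ ≤ (μ j - c) * tau`. Then
`g j z ≥ dg (xx u z) a - (n - i) * log ‖Yj z‖ ≥ tau * dg η a - ρ' * tau * ∑ l, |a l| - (n - i) * (μ j - c) * tau
≥ tau * ((n - i) * c - ρ' * d * n * R j)`. Now `n - i ≥ n₀ + 1` and `n = n₀ + m j ≤ (n₀ + 1) * m j ≤ (n - i) * m j`, so
`ρ' * d * n * R j ≤ ρ' * d * Q * (n - i) ≤ (n - i) * c / 2`, and `g j z ≥ tau * (n - i) * c / 2 ≥ n₀ * ρ' * tau`.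
-/

set_option autoImplicit false

noncomputable section

namespace Pool.Agent.Work.MP_e97a4d_nt.CT

open Pool.Agent.Work.UP Filter Hyp

/-- The real estimate. -/
private theorem gain_real {d : ℕ} (n₀ m R i : ℕ) (hi : i < m) (μ c ρ' Q τ S ly D : ℝ) (hc : 0 < c)
    (hQ : (R : ℝ) * m ≤ Q) (hτ : 0 ≤ τ) (hρ0 : 0 < ρ') (hρ1 : ρ' ≤ c / 2) (hρ2 : ρ' * (2 * (d * Q + 1)) ≤ c)
    (hS : S ≤ d * ((n₀ + m : ℕ) * R)) (hS0 : 0 ≤ S) (hly : ly ≤ (μ - c) * τ)
    (hD : τ * (((n₀ + m : ℕ) - (i : ℝ)) * μ) - ρ' * τ * S ≤ D) :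
    n₀ * ρ' * τ ≤ D + ((i : ℝ) - (n₀ + m : ℕ)) * ly := by
  set N : ℝ := (n₀ + m : ℕ) - (i : ℝ) with hN
  have hi1 : (i : ℝ) + 1 ≤ m := by exact_mod_cast hi
  have hN1 : (n₀ : ℝ) + 1 ≤ N := by
    rw [hN]
    push_cast
    linarith
  have hn0 : (0 : ℝ) ≤ n₀ := Nat.cast_nonneg _
  have hN0 : 0 < N := by linarith
  have hm1 : (1 : ℝ) ≤ m := by
    have : (0 : ℝ) ≤ i := Nat.cast_nonneg _
    linarith
  have hnm : ((n₀ + m : ℕ) : ℝ) ≤ N * m := by
    push_cast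
    have h1 : (n₀ : ℝ) + m ≤ (n₀ + 1) * m := by nlinarith
    have h2 : ((n₀ : ℝ) + 1) * m ≤ N * m := mul_le_mul_of_nonneg_right hN1 (by linarith)
    linarith
  have hd0 : (0 : ℝ) ≤ d := Nat.cast_nonneg _
  have hR0 : (0 : ℝ) ≤ R := Nat.cast_nonneg _
  have hSQ : S ≤ d * Q * N := by
    calc S ≤ d * ((n₀ + m : ℕ) * R) := hS
      _ ≤ d * (N * m * R) := by
          refine mul_le_mul_of_nonneg_left (mul_le_mul_of_nonneg_right hnm hR0) hd0
      _ = d * (R * m) * N := by ring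
      _ ≤ d * Q * N := by
          refine mul_le_mul_of_nonneg_right (mul_le_mul_of_nonneg_left hQ hd0) hN0.le
  have hρS : ρ' * S ≤ N * (c / 2) := by
    have h1 : ρ' * S ≤ ρ' * (d * Q * N) := mul_le_mul_of_nonneg_left hSQ hρ0.le
    have h2 : ρ' * (d * Q * N) ≤ N * (c / 2) := by
      have h3 : ρ' * (d * Q) ≤ c / 2 := by nlinarith
      have h4 := mul_le_mul_of_nonneg_left h3 hN0.le
      linarith
    linarith
  have h5 : -(N * ((μ - c) * τ)) ≤ ((i : ℝ) - (n₀ + m : ℕ)) * ly := by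
    have h6 : N * ly ≤ N * ((μ - c) * τ) := mul_le_mul_of_nonneg_left hly hN0.le
    have h7 : ((i : ℝ) - (n₀ + m : ℕ)) * ly = -(N * ly) := by rw [hN]; ring
    rw [h7]
    linarith
  have h8 : τ * (ρ' * S) ≤ τ * (N * (c / 2)) := mul_le_mul_of_nonneg_left hρS hτ
  have h9 : (n₀ : ℝ) * ρ' ≤ N * (c / 2) := by
    have h10 : (n₀ : ℝ) * ρ' ≤ n₀ * (c / 2) := mul_le_mul_of_nonneg_left hρ1 hn0
    have h11 : (n₀ : ℝ) * (c / 2) ≤ N * (c / 2) := mul_le_mul_of_nonneg_right (by linarith) (by linarith)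
    linarith
  have h12 : (n₀ : ℝ) * ρ' * τ ≤ N * (c / 2) * τ := mul_le_mul_of_nonneg_right h9 hτ
  nlinarith

private theorem dg_sub {d : ℕ} (x η : Fin d → ℝ) (a : Fin d → ℤ) (τ ρ' : ℝ)
    (hx : ∀ l, |x l - τ * η l| ≤ ρ' * τ) : τ * dg η a - ρ' * τ * ∑ l, |(a l : ℝ)| ≤ dg x a := by
  unfold dg
  rw [Finset.mul_sum, Finset.mul_sum, ← Finset.sum_sub_distrib]
  refine Finset.sum_le_sum fun l _ => ?_
  have h1 : |(a l : ℝ) * (x l - τ * η l)| ≤ |(a l : ℝ)| * (ρ' * τ) := by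
    rw [abs_mul]
    exact mul_le_mul_of_nonneg_left (hx l) (abs_nonneg _)
  have h2 := (abs_le.1 h1).1
  nlinarith

theorem gain_of {K L : Type} [Field K] [Field L] [Algebra K L] [CharZero K] {d : ℕ}
    (t : Fin d → Lˣ) (Θ : L →+* Mero) (κ : K →+* ℂ)
    (hκ : ∀ c, Θ (algebraMap K L c) = algebraMap ℂ Mero (κ c)) (u : Fin d → ℂ → ℂ) (hu : IsUC u)
    (hΘ : ∀ l, Θ (t l) = mk (u l) (mer_of_diff (hu l).1)) (hi : IndC u)
    (hK : ∀ x : L, (∃ c : ℂ, Θ x = algebraMap ℂ Mero c) → x ∈ Set.range (algebraMap K L))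
    (η : Fin d → ℝ) (h : Gap (ev (algebraMap K L) t) (fun c => ‖κ c‖) η) : Gain u η := by
  classical
  obtain ⟨k, y, μ, c, ρ, s, hc, hρ, hlev, hs, hgap⟩ := h
  choose m R A hlev' using hlev
  have hred : ∀ j, Red (ev (algebraMap K L) t) (y j) (m j) (R j) (A j) := fun j => (hlev' j).1
  have hlvl : ∀ j, Lvl (A j) η (μ j) := fun j => (hlev' j).2
  let Y : Fin k → ℂ → ℂ := fun j => pcNf (Θ (y j))
  have hYd : ∀ j, Differentiable ℂ (Y j) := fun j =>
    ent_diff t Θ κ hκ u hu hΘ (y j) (red_integral (hred j))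
  have hy0 : ∀ j, y j ≠ 0 := by
    intro j hj
    have h1 := (hred j).eq 1
    rw [pow_one] at h1
    have h2 := (hred j).ind (A j 1) (by rw [← h1, hj])
    obtain ⟨i, e, he, -⟩ := hlvl j 1
    rw [h2] at he
    simp at he
  have hY0 : ∀ j, ∃ z, Y j z ≠ 0 := by
    intro j
    by_contra hcon
    push Not at hcon
    have h1 : Θ (y j) = 0 := pc_eq_zero (z := 0) (Filter.Eventually.of_forall fun w => hcon w)
    exact hy0 j ((map_eq_zero Θ).1 h1)
  have hcx := fun j => cx u hu (Y j) (hYd j) (hY0 j) (R j) (fun n i => lpm κ (A j n i))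
    (fun n z => ent_eq t Θ κ hκ u hu hΘ (hred j) n z)
    (fun n i e he l => (hred j).box n i e (by rw [← lpm_support κ (A j n i)]; exact he) l)
    (fun p hp => ent_ind t Θ κ hκ u hu hΘ hi hK (hred j) p hp)
  choose C₀ hC₀ hcx using hcx
  have hsum0 : ∀ j, C₀ j ≤ ∑ j, C₀ j := fun j =>
    Finset.single_le_sum (f := C₀) (fun j _ => hC₀ j) (Finset.mem_univ j)
  set Q : ℝ := ∑ j, (R j : ℝ) * m j with hQdef
  have hQ : ∀ j, (R j : ℝ) * m j ≤ Q := fun j =>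
    Finset.single_le_sum (f := fun j => (R j : ℝ) * m j) (fun j _ => by positivity) (Finset.mem_univ j)
  have hQ0 : 0 ≤ Q := Finset.sum_nonneg fun j _ => by positivity
  set D : ℝ := 2 * (d * Q + 1) with hDdef
  have hD0 : 0 < D := by positivity
  set ρ' : ℝ := min (min ρ 1) (min (c / 2) (c / D)) with hρ'
  have hρ'0 : 0 < ρ' := lt_min (lt_min hρ one_pos) (lt_min (by positivity) (by positivity))
  have hρ'1 : ρ' ≤ ρ := (min_le_left _ _).trans (min_le_left _ _)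
  have hρ'2 : ρ' ≤ c / 2 := (min_le_right _ _).trans (min_le_left _ _)
  have hρ'3 : ρ' ≤ c / D := (min_le_right _ _).trans (min_le_right _ _)
  have hρ'4 : ρ' * D ≤ c := by
    have h1 := mul_le_mul_of_nonneg_right hρ'3 hD0.le
    rwa [div_mul_cancel₀ _ hD0.ne'] at h1
  refine ⟨k, ∑ j, C₀ j, ρ', Finset.sum_nonneg fun j _ => hC₀ j, hρ'0, fun n₀ => ?_⟩
  have htop := fun j => lvl_top (lvl_map κ (hlvl j)) (n₀ + m j)
  choose i a htop hle using htop
  have hC := fun j => hcx j (n₀ + m j) (i j) η (a j) (htop j)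
  choose C hC using hC
  refine ⟨fun j z => max 0 (dg (xx u z) (a j) + (((i j : ℕ) : ℝ) - ((n₀ + m j : ℕ) : ℝ)) *
    Real.log ‖Y j z‖), ∑ j, |C j|, 1 / ρ, fun j z => le_max_left _ _, fun j r => ?_, ?_, ?_⟩
  · exact (cx_int u hu (Y j) (hYd j) (a j) (((i j : ℕ) : ℝ) - ((n₀ + m j : ℕ) : ℝ)) r).2
  · intro j r R' hr hrR
    refine (hC j r R' hr hrR).trans ?_
    have h1 : 0 ≤ 1 + Tu u r := by
      have := Tu_nonneg u r
      linarith
    have h2 : 0 ≤ Er (Tu u) r R' := by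
      have := Er_pos (Tu u) r R'
      linarith
    have h3 : C j ≤ ∑ j, |C j| := (le_abs_self _).trans
      (Finset.single_le_sum (f := fun j => |C j|) (fun j _ => abs_nonneg _) (Finset.mem_univ j))
    exact add_le_add (mul_le_mul_of_nonneg_right (hsum0 j) h1) (mul_le_mul_of_nonneg_right h3 h2)
  · have hYe : ∀ᶠ z in codiscrete ℂ, ∀ j, Y j z ≠ 0 := by
      rw [Filter.eventually_all]
      intro j
      obtain ⟨z0, hz0⟩ := hY0 j
      exact AnalyticOnNhd.preimage_zero_mem_codiscrete (fun z _ => (hYd j).analyticAt z) hz0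
    filter_upwards [hYe] with z hz hτ hx
    have hτ0 : 0 ≤ tau u z := Finset.sum_nonneg fun l _ => abs_nonneg _
    obtain ⟨j, hj⟩ := hgap (fun y => ‖pcNf (Θ y) z‖) (tau u z) (xx u z)
      (nm_mero t Θ κ hκ u hu hΘ (s : Set L) (fun f hf => hs f (Finset.mem_coe.1 hf)) z) hτ
      (fun l => (hx l).trans (mul_le_mul_of_nonneg_right hρ'1 hτ0))
    refine ⟨j, le_trans ?_ (le_max_right _ _)⟩
    have hYz : 0 < ‖Y j z‖ := norm_pos_iff.2 (hz j)
    have hlog : Real.log ‖Y j z‖ ≤ (μ j - c) * tau u z := by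
      rw [← Real.log_exp ((μ j - c) * tau u z)]
      exact Real.log_le_log hYz hj
    have ha : ∀ l, |a j l| ≤ ((n₀ + m j : ℕ) : ℤ) * (R j : ℤ) := fun l =>
      (hred j).box (n₀ + m j) (i j) (a j) (by
        rw [← lpm_support κ (A j (n₀ + m j) (i j))]
        exact (htop j).1) l
    have hS : ∑ l, |(a j l : ℝ)| ≤ d * (((n₀ + m j : ℕ) : ℝ) * R j) := by
      calc ∑ l, |(a j l : ℝ)| ≤ ∑ _l : Fin d, (((n₀ + m j : ℕ) : ℝ) * R j) := by
            refine Finset.sum_le_sum fun l _ => ?_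
            have h1 : ((|a j l| : ℤ) : ℝ) ≤ ((((n₀ + m j : ℕ) : ℤ) * (R j : ℤ) : ℤ) : ℝ) := by
              exact_mod_cast ha l
            rw [Int.cast_abs] at h1
            simpa using h1
        _ = d * (((n₀ + m j : ℕ) : ℝ) * R j) := by simp
    refine gain_real (d := d) n₀ (m j) (R j) (i j) (i j).2 (μ j) c ρ' Q (tau u z)
      (∑ l, |(a j l : ℝ)|) (Real.log ‖Y j z‖) (dg (xx u z) (a j)) hc (hQ j) hτ0 hρ'0 hρ'2 hρ'4 hS
      (Finset.sum_nonneg fun l _ => abs_nonneg _) hlog ?_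
    have h1 := dg_sub (xx u z) η (a j) (tau u z) ρ' hx
    have h2 := mul_le_mul_of_nonneg_left (hle j) hτ0
    linarith

end Pool.Agent.Work.MP_e97a4d_nt.CT
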