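import Pool.Agent.Work.MP_e97a4d_nt.CT.TrivK
import Pool.Agent.Work.MP_e97a4d_nt.CT.GapVal
import Pool.Agent.Work.MP_e97a4d_nt.CT.Clear

/-!
# CT/GapRed (size M): gaps over the bigger field of constants

Conventions of CT/TrivK. PROOF. Let `ν ≠ ν'` be the two valuations. Apply `gap_val` to `E₁`, `η`.
`h1`: `E₁ (single e c) = algebraMap c * mon (cu t) e` (`ev_single`), `ν (algebraMap c) = 1` (`triv_k`). For
`ν (mon (cu t) e) = exp (dg η e)`: `e = π a` (`hsurj`), `mon (cu w) a = algebraMap c' * mon (cu t) e` with `c' ≠ 0`, so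
`ν (mon (cu t) e) = ν (mon (cu w) a) = exp (dg ξ a) = exp (dg η e)` (`DegVal` for `single a 1`).
`h2`: for `f` take `p₀ ≠ 0` in `Lp K₀ k` with `E₀ p₀ * f` integral over `Lp K₀ k` (`clear_den`), and `p := ψ p₀`:
`E₁ p = E₀ p₀ ≠ 0` (`hE₀` injective), so `p ≠ 0`; a monic equation over `Lp K₀ k` gives one over `Lp K₁ d` (map by
`ψ`); for an exponent `e` of `p` there is an exponent `a` of `p₀` with `π a = e`, so
`exp (dg η e) = exp (dg ξ a) ≤ ν (E₀ p₀)` by `DegVal`. The same for `ν'`.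
-/

set_option autoImplicit false

noncomputable section

namespace Pool.Agent.Work.MP_e97a4d_nt.CT

open Pool.Agent.Work.UP

private theorem dgg_add {d : ℕ} (η : Fin d → ℝ) (e e' : Fin d → ℤ) :
    dg η (e + e') = dg η e + dg η e' := by
  unfold dg
  rw [← Finset.sum_add_distrib]
  refine Finset.sum_congr rfl fun l _ => ?_
  push_cast [Pi.add_apply]
  ring

private theorem dg_comp {k d : ℕ} (η : Fin d → ℝ) (π : (Fin k → ℤ) →+ (Fin d → ℤ))
    (a : Fin k → ℤ) : dg (fun l => dg η (π (Pi.single l 1))) a = dg η (π a) := by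
  let F : (Fin k → ℤ) →+ ℝ :=
    { toFun := fun a => dg η (π a)
      map_zero' := by simp [dg]
      map_add' := fun a b => by rw [map_add, dgg_add] }
  have hF : ∀ a, F a = dg η (π a) := fun _ => rfl
  have ha : a = ∑ l, a l • (Pi.single l (1 : ℤ) : Fin k → ℤ) := by
    funext j
    simp [Finset.sum_apply, Pi.single_apply]
  rw [← hF a]
  conv_rhs => rw [ha]
  rw [map_sum]
  unfold dg
  refine Finset.sum_congr rfl fun l _ => ?_
  rw [map_zsmul, zsmul_eq_mul]
  rfl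

private theorem deg_one {K L : Type} [Field K] [Field L] {k : ℕ} (E : Lp K k →+* L)
    (ξ : Fin k → ℝ) (ν : Valuation L NNReal) (hν : DegVal E ξ ν) (a : Fin k → ℤ) :
    (ν (E (AddMonoidAlgebra.single a 1)) : ℝ) = Real.exp (dg ξ a) := by
  have hsup : (AddMonoidAlgebra.single a (1 : K) : Lp K k).coeff.support = {a} := by
    show (Finsupp.single a (1 : K)).support = {a}
    exact Finsupp.support_single a one_ne_zero
  have hne : (AddMonoidAlgebra.single a (1 : K) : Lp K k) ≠ 0 := by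
    intro h0
    rw [h0] at hsup
    have h3 : a ∈ ((0 : Lp K k).coeff.support) := by rw [hsup]; exact Finset.mem_singleton_self a
    exact (Finsupp.mem_support_iff.1 h3) rfl
  obtain ⟨e', he', heq⟩ := (hν _ hne).1
  rw [hsup, Finset.coe_singleton, Set.mem_singleton_iff] at he'
  subst he'
  exact heq.symm

theorem gap_red {K₀ K₁ L : Type} [Field K₀] [Field K₁] [Field L] [Algebra K₀ L] [Algebra K₁ L]
    {k d : ℕ} (w : Fin k → Lˣ) (t : Fin d → Lˣ)
    (hsub : ∀ c : K₀, ∃ c' : K₁, algebraMap K₁ L c' = algebraMap K₀ L c)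
    (π : (Fin k → ℤ) →+ (Fin d → ℤ)) (hsurj : Function.Surjective π)
    (hπ : ∀ a, ∃ c : K₁, mon (cu w) a = algebraMap K₁ L c * mon (cu t) (π a))
    (hE₀ : Function.Injective (ev (algebraMap K₀ L) w))
    (hE : Function.Injective (ev (algebraMap K₁ L) t))
    (halg : ∀ f : L, ∃ q : Polynomial (Lp K₀ k), q ≠ 0 ∧ q.eval₂ (ev (algebraMap K₀ L) w) f = 0)
    (η : Fin d → ℝ)
    (h : Two (ev (algebraMap K₀ L) w) (fun l => dg η (π (Pi.single l 1)))) (a : K₁ → ℝ) :
    Gap (ev (algebraMap K₁ L) t) a η := by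
  obtain ⟨ν, ν', hne, hν, hν'⟩ := h
  obtain ⟨ψ, hψ, -, hψ2⟩ := psi w t hsub π hπ
  have key : ∀ ν : Valuation L NNReal,
      DegVal (ev (algebraMap K₀ L) w) (fun l => dg η (π (Pi.single l 1))) ν →
      ∀ (e : Fin d → ℤ) (c : K₁), c ≠ 0 →
      (ν (ev (algebraMap K₁ L) t (AddMonoidAlgebra.single e c)) : ℝ) = Real.exp (dg η e) := by
    intro ν hν e c hc
    obtain ⟨a, rfl⟩ := hsurj e
    obtain ⟨c', hc'⟩ := hπ a
    have hc'0 : c' ≠ 0 := by
      rintro rfl
      rw [map_zero, zero_mul] at hc'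
      exact mon_ne_zero w a hc'
    have h1 : ν (algebraMap K₁ L c) = 1 := triv_k w t hsub π hπ hE halg η ν hν c hc
    have h2 : ν (algebraMap K₁ L c') = 1 := triv_k w t hsub π hπ hE halg η ν hν c' hc'0
    have h3 := deg_one _ _ ν hν a
    rw [ev_single, map_one, one_mul, dg_comp, hc', map_mul, h2, one_mul] at h3
    rw [ev_single, map_mul, h1, one_mul]
    exact h3
  refine gap_val (ev (algebraMap K₁ L) t) hE a η ν ν' hne (key ν hν) (key ν' hν')
    fun f hf => ?_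
  obtain ⟨p₀, hp₀, hint⟩ := clear_den (ev (algebraMap K₀ L) w) hE₀ halg f
  have hle : ∀ ν : Valuation L NNReal,
      DegVal (ev (algebraMap K₀ L) w) (fun l => dg η (π (Pi.single l 1))) ν →
      ∀ e ∈ (ψ p₀).coeff.support,
        Real.exp (dg η e) ≤ (ν (ev (algebraMap K₁ L) t (ψ p₀)) : ℝ) := by
    intro ν hν e he
    obtain ⟨a, ha, rfl⟩ := hψ2 p₀ e he
    rw [hψ, ← dg_comp]
    exact (hν p₀ hp₀).2 ⟨a, ha, rfl⟩
  refine ⟨ψ p₀, ?_, ?_, hle ν hν, hle ν' hν'⟩
  · intro h0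
    have h1 := hψ p₀
    rw [h0, map_zero] at h1
    exact hp₀ (hE₀ (by rw [← h1, map_zero]))
  · rw [hψ]
    obtain ⟨P, hP, hP0⟩ := hint
    refine ⟨P.map ψ, hP.map ψ, ?_⟩
    have hcomp : (ev (algebraMap K₁ L) t).comp ψ = ev (algebraMap K₀ L) w := RingHom.ext hψ
    rw [Polynomial.eval₂_map, hcomp]
    exact hP0

end Pool.Agent.Work.MP_e97a4d_nt.CT
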