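import Pool.Agent.Work.MP_e97a4d_nt.CT.Defs

/-!
# CT/Zar (size M): a factorization over a big field gives one over a finite extension

PROOF. Let `s` be the finite set of all coefficients (in `C`) of all coefficients (in `Lp C d`) of `g` and `h`. Give
`C` the algebra structure `κ.toAlgebra` and let `R := Algebra.adjoin K (s : Set C)`, a subalgebra of `C`, a
finitely generated `K`-algebra and a domain, not zero. Let `𝔪` be a maximal ideal of `R` and `K' := R ⧸ 𝔪`, a field,
finite over `K` by Zariski's lemma (`finite_of_finite_type_of_isJacobsonRing`,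
Mathlib/RingTheory/Jacobson/Ring: `Module.Finite K (R ⧸ 𝔪)`; `Algebra.FiniteType` of `R` and of the quotient).

`g` is the image of a monic polynomial `g₁` over `AddMonoidAlgebra R (Fin d → ℤ)` under the (injective) map given
by `R → C`: every coefficient lifts (an element of `Lp C d` with coefficients in `R` is the image of an element of
`AddMonoidAlgebra R _`: `AddMonoidAlgebra.mapRingHom`, write it as the sum of its `single`s), and
`Polynomial.lifts_and_natDegree_eq_and_monic`. The same for `h`. With
`f₁ := f.map (AddMonoidAlgebra.mapRingHom _ (algebraMap K R))` we have `f₁ = g₁ * h₁`: both sides have the same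
image under the injective map (`AddMonoidAlgebra.mapRingHom` of an injective map is injective, compare
coefficients; `Polynomial.map_injective`). Apply the map given by `R → K' = R ⧸ 𝔪`; monic polynomials keep their
degree (`Polynomial.Monic.natDegree_map`, the target ring is not trivial).
-/

set_option autoImplicit false

noncomputable section

namespace Pool.Agent.Work.MP_e97a4d_nt.CT

open Pool.Agent.Work.UP

private theorem map_inj {d : ℕ} {R S : Type} [CommRing R] [CommRing S] (f : R →+* S)
    (hf : Function.Injective f) :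
    Function.Injective (AddMonoidAlgebra.mapRingHom (Fin d → ℤ) f) := by
  intro x y hxy
  ext e
  apply hf
  have h := congrArg (fun z : AddMonoidAlgebra S (Fin d → ℤ) => z.coeff e) hxy
  simpa using h

private theorem map_lift {d : ℕ} {R S : Type} [CommRing R] [CommRing S] (f : R →+* S)
    (x : AddMonoidAlgebra S (Fin d → ℤ)) (hx : ∀ e, x.coeff e ∈ f.range) :
    x ∈ (AddMonoidAlgebra.mapRingHom (Fin d → ℤ) f).range := by
  rw [← AddMonoidAlgebra.sum_coeff_single x]
  refine Subring.sum_mem _ fun e _ => ?_
  obtain ⟨r, hr⟩ := hx e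
  exact ⟨AddMonoidAlgebra.single e r, by rw [AddMonoidAlgebra.mapRingHom_single, hr]⟩

private theorem poly_lift {A B : Type} [CommRing A] [CommRing B] [Nontrivial B] (φ : A →+* B)
    (p : Polynomial B) (hp : p.Monic) (h : ∀ n, p.coeff n ∈ φ.range) :
    ∃ q : Polynomial A, q.map φ = p ∧ q.natDegree = p.natDegree ∧ q.Monic := by
  have hl : p ∈ Polynomial.lifts φ := by
    rw [Polynomial.lifts_iff_coeff_lifts]
    intro n
    obtain ⟨a, ha⟩ := h n
    exact ⟨a, ha⟩
  obtain ⟨q, h1, h2, h3⟩ := Polynomial.lifts_and_natDegree_eq_and_monic hl hp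
  exact ⟨q, h1, h2, h3⟩

theorem zar {K C : Type} [Field K] [Field C] (κ : K →+* C) {d : ℕ} (f : Polynomial (Lp K d))
    (g h : Polynomial (Lp C d)) (hg : g.Monic) (hh : h.Monic) (hfg : f.map (lpm κ) = g * h) :
    ∃ (K' : Type) (_ : Field K') (_ : Algebra K K') (g' h' : Polynomial (Lp K' d)),
      FiniteDimensional K K' ∧ g'.Monic ∧ h'.Monic ∧ g'.natDegree = g.natDegree ∧
        h'.natDegree = h.natDegree ∧ f.map (lpm (algebraMap K K')) = g' * h' := by
  classical
  let _ : Algebra K C := κ.toAlgebra
  let s : Finset C :=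
    (g.support.biUnion fun n => (g.coeff n).coeff.support.image fun e => (g.coeff n).coeff e) ∪
      (h.support.biUnion fun n => (h.coeff n).coeff.support.image fun e => (h.coeff n).coeff e)
  let R : Subalgebra K C := Algebra.adjoin K (s : Set C)
  have hft : Algebra.FiniteType K R := Algebra.FiniteType.adjoin_of_finite s.finite_toSet
  let ι : R →+* C := algebraMap R C
  have hι : Function.Injective ι := Subtype.val_injective
  let ψ : AddMonoidAlgebra R (Fin d → ℤ) →+* Lp C d := AddMonoidAlgebra.mapRingHom (Fin d → ℤ) ι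
  have hψ : Function.Injective ψ := map_inj ι hι
  have hcg : ∀ n, g.coeff n ∈ ψ.range := by
    intro n
    refine map_lift ι _ fun e => ?_
    by_cases hn : n ∈ g.support
    · by_cases he : e ∈ (g.coeff n).coeff.support
      · refine ⟨⟨(g.coeff n).coeff e, Algebra.subset_adjoin ?_⟩, rfl⟩
        rw [Finset.mem_coe, Finset.mem_union]
        left
        rw [Finset.mem_biUnion]
        exact ⟨n, hn, Finset.mem_image_of_mem _ he⟩
      · rw [Finsupp.notMem_support_iff.1 he]
        exact zero_mem _
    · rw [Polynomial.notMem_support_iff.1 hn]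
      exact zero_mem _
  have hch : ∀ n, h.coeff n ∈ ψ.range := by
    intro n
    refine map_lift ι _ fun e => ?_
    by_cases hn : n ∈ h.support
    · by_cases he : e ∈ (h.coeff n).coeff.support
      · refine ⟨⟨(h.coeff n).coeff e, Algebra.subset_adjoin ?_⟩, rfl⟩
        rw [Finset.mem_coe, Finset.mem_union]
        right
        rw [Finset.mem_biUnion]
        exact ⟨n, hn, Finset.mem_image_of_mem _ he⟩
      · rw [Finsupp.notMem_support_iff.1 he]
        exact zero_mem _
    · rw [Polynomial.notMem_support_iff.1 hn]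
      exact zero_mem _
  obtain ⟨g₁, hg1, hg2, hg3⟩ := poly_lift ψ g hg hcg
  obtain ⟨h₁, hh1, hh2, hh3⟩ := poly_lift ψ h hh hch
  let α : Lp K d →+* AddMonoidAlgebra R (Fin d → ℤ) :=
    AddMonoidAlgebra.mapRingHom (Fin d → ℤ) (algebraMap K R)
  have hα : ψ.comp α = lpm κ := by
    apply lp_hom_ext
    intro e c
    show AddMonoidAlgebra.mapRingHom (Fin d → ℤ) ι
      (AddMonoidAlgebra.mapRingHom (Fin d → ℤ) (algebraMap K R) (AddMonoidAlgebra.single e c)) = _
    rw [AddMonoidAlgebra.mapRingHom_single, AddMonoidAlgebra.mapRingHom_single, lpm_single]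
    rfl
  have hfac : f.map α = g₁ * h₁ := by
    apply Polynomial.map_injective ψ hψ
    rw [Polynomial.map_map, hα, Polynomial.map_mul, hg1, hh1, hfg]
  obtain ⟨𝔪, h𝔪⟩ := Ideal.exists_maximal R
  let _ : Field (R ⧸ 𝔪) := Ideal.Quotient.field 𝔪
  have hfin : Module.Finite K (R ⧸ 𝔪) := finite_of_finite_type_of_isJacobsonRing K (R ⧸ 𝔪)
  let β : AddMonoidAlgebra R (Fin d → ℤ) →+* Lp (R ⧸ 𝔪) d :=
    AddMonoidAlgebra.mapRingHom (Fin d → ℤ) (Ideal.Quotient.mk 𝔪)
  have hβ : β.comp α = lpm (algebraMap K (R ⧸ 𝔪)) := by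
    apply lp_hom_ext
    intro e c
    show AddMonoidAlgebra.mapRingHom (Fin d → ℤ) (Ideal.Quotient.mk 𝔪)
      (AddMonoidAlgebra.mapRingHom (Fin d → ℤ) (algebraMap K R) (AddMonoidAlgebra.single e c)) = _
    rw [AddMonoidAlgebra.mapRingHom_single, AddMonoidAlgebra.mapRingHom_single, lpm_single]
    rfl
  refine ⟨R ⧸ 𝔪, inferInstance, inferInstance, g₁.map β, h₁.map β, hfin, hg3.map β, hh3.map β,
    ?_, ?_, ?_⟩
  · rw [hg3.natDegree_map β, hg2]
  · rw [hh3.natDegree_map β, hh2]
  · rw [← hβ, ← Polynomial.map_map, hfac, Polynomial.map_mul]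

end Pool.Agent.Work.MP_e97a4d_nt.CT
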