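import Pool.Agent.Work.MP_e97a4d_nt.CT.PrimEl
import Pool.Agent.Work.MP_e97a4d_nt.CT.Zar
import Pool.Agent.Work.UP.LUfd

/-!
# CT/LinDis (size M-L): powers stay independent over a bigger field of constants

PROOF. Write `P := Lp K d`, `Q := Lp C d`, `E := ev (algebraMap K L) t`, `E' := ev e t'`, so
`E'.comp (lpm κ) = Θ.comp E` (`lp_hom_ext`, `ev_single`, `lpm_single`; `mon (cu t') a = Θ (mon (cu t) a)`:
`map_prod`, `map_zpow₀`). `E` is injective (`lpm κ` is injective and `E'` is injective, `Θ` is injective).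
Suppose `p ≠ 0` and `∑ i, E' (p i) * Θ y ^ i = 0`; let `q := ∑ i : Fin m, C (p i) * X ^ i ∈ Q[X]`, `q ≠ 0`,
`natDegree q < m`, `q.eval₂ E' (Θ y) = 0`.

(1) Let `f := minpoly P y` (algebra structure `E.toAlgebra`; `P` is integrally closed by `lp_ufd`, `L` is torsion
free): monic, and `m ≤ natDegree f`, because by `hy'` no nonzero polynomial of degree `< m` over `P` vanishes at
`y` (and `f` does vanish at `y`). More: a nonzero polynomial over `P` vanishing at `y` has degree `≥ natDegree f`
(`minpoly.isIntegrallyClosed_dvd`).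

(2) `Θ y` is integral over `Q` (root of `f.map (lpm κ)`); let `g := minpoly Q (Θ y)` (algebra `E'.toAlgebra`, `Q`
integrally closed). `g ∣ q`, so `natDegree g < m`; `g ∣ f.map (lpm κ)`, `f.map (lpm κ) = g * h`, `h` is monic
(`Polynomial.Monic.of_mul_monic_left`). `0 < natDegree g`.

(3) `zar` gives a finite extension `K'` of `K` and monic `g', h'` over `Lp K' d` of the degrees of `g, h` with
`f.map (lpm (algebraMap K K')) = g' * h'`. Both degrees are `< natDegree f` (`natDegree g < m ≤ natDegree f`, and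
`natDegree h = natDegree f - natDegree g`).

(4) `prim_el hK` gives `Ω', i, j`. Let `t'' l := Units.map i (t l)`, `E'' := ev j t''`. Then `f.map _` vanishes at
`i y` (`E''.comp (lpm (algebraMap K K')) = i.comp E`), so `g'` or `h'` vanishes at `i y`: a monic polynomial
`r` over `Lp K' d` of degree `n < natDegree f`. Expand: `0 = ∑ l ≤ n, ∑ a, j ((r.coeff l).coeff a) * i (mon (cu t) a * y ^ l)`
(finite sum over pairs `(l, a)`, `l ≤ n`, `a` in a finite set of exponents containing all supports and `0`). The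
elements `mon (cu t) a * y ^ l` of `L` are linearly independent over `K` (a relation is
`∑ l ≤ n, E (p l) * y ^ l = 0` with `p l = ∑ a, single a (c a l)`, a polynomial of degree `≤ n < natDegree f`
vanishing at `y`, so it is zero by (1)). So all `(r.coeff l).coeff a` are zero, but `r` is monic:
`(r.coeff n).coeff 0 = 1`.
-/

set_option autoImplicit false

noncomputable section

namespace Pool.Agent.Work.MP_e97a4d_nt.CT

open Pool.Agent.Work.UP

private theorem mp {R F : Type} [CommRing R] [IsDomain R] [IsIntegrallyClosed R] [Field F] (E : R →+* F)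
    (hE : Function.Injective E) (y : F) (hy : E.IsIntegralElem y) :
    ∃ f : Polynomial R, f.Monic ∧ f.eval₂ E y = 0 ∧ 0 < f.natDegree ∧
      ∀ p : Polynomial R, p.eval₂ E y = 0 → f ∣ p := by
  let _ := E.toAlgebra
  have _ : FaithfulSMul R F := (faithfulSMul_iff_algebraMap_injective R F).2 hE
  have hi : IsIntegral R y := hy
  exact ⟨minpoly R y, minpoly.monic hi, minpoly.aeval R y, minpoly.natDegree_pos hi,
    fun p hp => minpoly.isIntegrallyClosed_dvd hi hp⟩

private theorem sum_poly {R : Type} [CommRing R] {m : ℕ} (p : Fin m → R) :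
    (∑ i : Fin m, Polynomial.C (p i) * Polynomial.X ^ (i : ℕ)).degree < (m : WithBot ℕ) ∧
    (∀ i : Fin m, (∑ i : Fin m, Polynomial.C (p i) * Polynomial.X ^ (i : ℕ)).coeff i = p i) := by
  constructor
  · rw [Polynomial.degree_lt_iff_coeff_zero]
    intro k hk
    rw [Polynomial.finsetSum_coeff]
    refine Finset.sum_eq_zero fun i _ => ?_
    rw [Polynomial.coeff_C_mul_X_pow, if_neg]
    have := i.2
    omega
  · intro i
    rw [Polynomial.finsetSum_coeff]
    simp only [Polynomial.coeff_C_mul_X_pow]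
    rw [Finset.sum_eq_single i]
    · simp
    · intro j _ hj
      rw [if_neg]
      intro h
      exact hj (Fin.ext h.symm)
    · simp

private theorem eval_sum_poly {R F : Type} [CommRing R] [CommRing F] (E : R →+* F) (y : F) {m : ℕ} (p : Fin m → R) :
    (∑ i : Fin m, Polynomial.C (p i) * Polynomial.X ^ (i : ℕ)).eval₂ E y = ∑ i : Fin m, E (p i) * y ^ (i : ℕ) := by
  rw [Polynomial.eval₂_finsetSum]
  simp

private theorem coeff_sum_single {K : Type} [Field K] {d : ℕ} (s : Fin d → ℤ) (T : Finset (Fin d → ℤ))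
    (c : T → K) (hs : s ∈ T) :
    (∑ t : T, AddMonoidAlgebra.single (t : Fin d → ℤ) (c t) : Lp K d).coeff s = c ⟨s, hs⟩ := by
  classical
  rw [AddMonoidAlgebra.coeff_sum]
  rw [Finsupp.finsetSum_apply, Finset.sum_eq_single ⟨s, hs⟩]
  · simp
  · intro t _ ht
    simp only [AddMonoidAlgebra.coeff_single]
    rw [Finsupp.single_apply, if_neg]
    intro h
    exact ht (Subtype.ext h)
  · simp

private theorem small_zero {R F : Type} [CommRing R] [CommRing F] (E : R →+* F) (y : F) {m : ℕ}
    (h : ∀ p : Fin m → R, ∑ i : Fin m, E (p i) * y ^ (i : ℕ) = 0 → p = 0)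
    (r : Polynomial R) (hr : r.eval₂ E y = 0) (hd : r.natDegree < m) : r = 0 := by
  have h1 := h (fun i => r.coeff i) (by
    rw [← hr, Polynomial.eval₂_eq_sum_range' E hd, ← Fin.sum_univ_eq_sum_range (fun i => E (r.coeff i) * y ^ i)])
  ext n
  by_cases hn : n < m
  · exact congrFun h1 ⟨n, hn⟩
  · rw [Polynomial.coeff_eq_zero_of_natDegree_lt (by omega)]
    simp

private theorem no_small {K L K' Ω : Type} [Field K] [Field L] [Field K'] [Field Ω] [Algebra K L]
    {d : ℕ} (t : Fin d → Lˣ) (t'' : Fin d → Ωˣ) (i : L →+* Ω) (j : K' →+* Ω)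
    (ht : ∀ l, (t'' l : Ω) = i (t l)) (y : L) (N : ℕ)
    (hN : ∀ r : Polynomial (Lp K d), r.eval₂ (ev (algebraMap K L) t) y = 0 → r.natDegree < N → r = 0)
    (hj : ∀ (ι : Type) (_ : Fintype ι) (x : ι → L), LinearIndependent K x →
          ∀ c : ι → K', ∑ s, j (c s) * i (x s) = 0 → ∀ s, c s = 0)
    (r : Polynomial (Lp K' d)) (hr : r.Monic) (hd : r.natDegree < N)
    (h0 : r.eval₂ (ev j t'') (i y) = 0) : False := by
  classical
  set n := r.natDegree with hn
  let T : Finset (Fin d → ℤ) := insert 0 ((Finset.range (n + 1)).biUnion fun l => (r.coeff l).coeff.support)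
  have hmon : ∀ s : Fin d → ℤ, mon (cu t'') s = i (mon (cu t) s) := by
    intro s
    unfold mon cu
    rw [map_prod]
    refine Finset.prod_congr rfl fun l _ => ?_
    rw [map_zpow₀, ht]
  have hev : ∀ l : Fin (n + 1), ev j t'' (r.coeff l) = ∑ s : T, j ((r.coeff l).coeff (s : Fin d → ℤ)) * i (mon (cu t) (s : Fin d → ℤ)) := by
    intro l
    rw [ev_eq, Finset.sum_coe_sort T (fun s => j ((r.coeff l).coeff s) * i (mon (cu t) s))]
    refine (Finset.sum_subset (s₂ := T) ?_ ?_).trans ?_
    · intro s hs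
      refine Finset.mem_insert_of_mem (Finset.mem_biUnion.2 ⟨l, Finset.mem_range.2 l.2, hs⟩)
    · intro s _ hs
      rw [Finsupp.notMem_support_iff.1 hs, map_zero, zero_mul]
    · exact Finset.sum_congr rfl fun s _ => by rw [hmon]
  have hli : LinearIndependent K (fun x : Fin (n + 1) × T => mon (cu t) (x.2 : Fin d → ℤ) * y ^ (x.1 : ℕ)) := by
    rw [Fintype.linearIndependent_iff]
    intro c hc
    let q : Fin (n + 1) → Lp K d := fun l => ∑ s : T, AddMonoidAlgebra.single (s : Fin d → ℤ) (c (l, s))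
    have h1 : (∑ l : Fin (n + 1), Polynomial.C (q l) * Polynomial.X ^ (l : ℕ)) = 0 := by
      apply hN
      · rw [eval_sum_poly, ← hc, Fintype.sum_prod_type]
        refine Finset.sum_congr rfl fun l _ => ?_
        simp only [q]
        rw [map_sum, Finset.sum_mul]
        refine Finset.sum_congr rfl fun s _ => ?_
        rw [ev_single, Algebra.smul_def, mul_assoc]
      · have h2 := (sum_poly q).1
        refine lt_of_le_of_lt ?_ hd
        rw [Polynomial.natDegree_le_iff_coeff_eq_zero]
        rw [Polynomial.degree_lt_iff_coeff_zero] at h2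
        exact fun N hN => h2 N hN
    rintro ⟨l, s⟩
    have h3 := (sum_poly q).2 l
    rw [h1, Polynomial.coeff_zero] at h3
    have h4 := coeff_sum_single (s : Fin d → ℤ) T (fun s => c (l, s)) s.2
    have h5 : (∑ t : T, AddMonoidAlgebra.single (t : Fin d → ℤ) (c (l, t)) : Lp K d) = 0 := h3.symm
    rw [h5] at h4
    simpa using h4.symm
  have h6 := hj (Fin (n + 1) × T) inferInstance _ hli (fun x => (r.coeff x.1).coeff (x.2 : Fin d → ℤ)) (by
    rw [← h0, Polynomial.eval₂_eq_sum_range' _ (Nat.lt_succ_self n),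
      ← Fin.sum_univ_eq_sum_range (fun l => ev j t'' (r.coeff l) * i y ^ l), Fintype.sum_prod_type]
    refine Finset.sum_congr rfl fun l _ => ?_
    rw [hev l, Finset.sum_mul]
    refine Finset.sum_congr rfl fun s _ => ?_
    rw [map_mul, map_pow, mul_assoc]) (⟨n, Nat.lt_succ_self n⟩, ⟨0, Finset.mem_insert_self _ _⟩)
  have h7 : r.coeff n = 1 := hr.coeff_natDegree
  simp only [h7] at h6
  rw [AddMonoidAlgebra.one_def] at h6
  simp at h6

theorem lin_dis {K L C Ω : Type} [Field K] [Field L] [Field C] [Field Ω] [Algebra K L] [CharZero K]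
    (hK : ∀ x : L, IsAlgebraic K x → x ∈ Set.range (algebraMap K L))
    (Θ : L →+* Ω) (κ : K →+* C) (e : C →+* Ω) (hκ : e.comp κ = Θ.comp (algebraMap K L))
    {d : ℕ} (t : Fin d → Lˣ) (t' : Fin d → Ωˣ) (ht : ∀ l, (t' l : Ω) = Θ (t l))
    (hinj : Function.Injective (ev e t')) (y : L)
    (hy : (ev (algebraMap K L) t).IsIntegralElem y) {m : ℕ}
    (hy' : ∀ p : Fin m → Lp K d,
      ∑ i : Fin m, ev (algebraMap K L) t (p i) * y ^ (i : ℕ) = 0 → p = 0) :
    ∀ p : Fin m → Lp C d, ∑ i : Fin m, ev e t' (p i) * Θ y ^ (i : ℕ) = 0 → p = 0 := by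
  classical
  intro p hp
  by_contra hne
  have _ := lp_ufd K d
  have _ := lp_ufd C d
  have hcomm : ∀ q : Lp K d, ev e t' (lpm κ q) = Θ (ev (algebraMap K L) t q) := by
    have h : (ev e t').comp (lpm κ) = Θ.comp (ev (algebraMap K L) t) := by
      apply lp_hom_ext
      intro s a
      rw [RingHom.comp_apply, RingHom.comp_apply, lpm_single, ev_single, ev_single, map_mul]
      congr 1
      · exact RingHom.congr_fun hκ a
      · unfold mon cu
        rw [map_prod]
        refine Finset.prod_congr rfl fun l _ => ?_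
        rw [map_zpow₀, ht]
    exact fun q => RingHom.congr_fun h q
  have hlinj : Function.Injective (lpm κ : Lp K d →+* Lp C d) := by
    rw [injective_iff_map_eq_zero]
    intro q hq
    ext s
    have := lpm_coeff κ q s
    rw [hq] at this
    simp only [AddMonoidAlgebra.coeff_zero, Finsupp.coe_zero, Pi.zero_apply] at this ⊢
    exact (map_eq_zero κ).1 this.symm
  have hEinj : Function.Injective (ev (algebraMap K L) t) := by
    rw [injective_iff_map_eq_zero]
    intro q hq
    have h1 := hcomm q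
    rw [hq, map_zero] at h1
    have h2 := hinj (h1.trans (map_zero _).symm)
    exact hlinj (h2.trans (map_zero _).symm)
  -- step 1
  obtain ⟨f, hfm, hf0, _, hfd⟩ := mp (ev (algebraMap K L) t) hEinj y hy
  have hmf : m ≤ f.natDegree := by
    by_contra hlt
    exact hfm.ne_zero (small_zero _ y hy' f hf0 (by omega))
  have hN : ∀ r : Polynomial (Lp K d), r.eval₂ (ev (algebraMap K L) t) y = 0 → r.natDegree < f.natDegree →
      r = 0 := by
    intro r hr hd
    by_contra hr0
    have := Polynomial.natDegree_le_of_dvd (hfd r hr) hr0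
    omega
  -- step 2
  have hfΘ : (f.map (lpm κ)).eval₂ (ev e t') (Θ y) = 0 := by
    rw [Polynomial.eval₂_map]
    have h : (ev e t').comp (lpm κ) = Θ.comp (ev (algebraMap K L) t) := RingHom.ext hcomm
    rw [h, ← Polynomial.hom_eval₂, hf0, map_zero]
  obtain ⟨g, hgm, hg0, hgpos, hgd⟩ := mp (ev e t') hinj (Θ y) ⟨f.map (lpm κ), hfm.map _, hfΘ⟩
  have hq0 : (∑ i : Fin m, Polynomial.C (p i) * Polynomial.X ^ (i : ℕ)) ≠ 0 := by
    intro h
    apply hne
    funext i
    rw [← (sum_poly p).2 i, h, Polynomial.coeff_zero]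
    rfl
  have hgq : g.natDegree < m := by
    have h1 := hgd _ ((eval_sum_poly (ev e t') (Θ y) p).trans hp)
    have h2 := Polynomial.natDegree_le_of_dvd h1 hq0
    have h3 := (sum_poly p).1
    rw [Polynomial.degree_eq_natDegree hq0] at h3
    have h4 : (∑ i : Fin m, Polynomial.C (p i) * Polynomial.X ^ (i : ℕ)).natDegree < m := by exact_mod_cast h3
    omega
  obtain ⟨h, hh⟩ := hgd _ hfΘ
  have hhm : h.Monic := hgm.of_mul_monic_left (hh ▸ hfm.map _)
  have hdeg : f.natDegree = g.natDegree + h.natDegree := by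
    rw [← hgm.natDegree_mul hhm, ← hh, hfm.natDegree_map]
  -- step 3
  obtain ⟨K', _, _, g', h', _, hg'm, hh'm, hg'd, hh'd, hfac⟩ := zar κ f g h hgm hhm hh
  -- step 4
  obtain ⟨Ω', _, i, j, hij, hind⟩ := prim_el (K := K) (L := L) (K' := K') hK
  let t'' : Fin d → Ω'ˣ := fun l => Units.map (i : L →* Ω') (t l)
  have ht'' : ∀ l, (t'' l : Ω') = i (t l) := fun l => rfl
  have hcomm2 : (ev j t'').comp (lpm (algebraMap K K')) = i.comp (ev (algebraMap K L) t) := by
    apply lp_hom_ext
    intro s a
    rw [RingHom.comp_apply, RingHom.comp_apply, lpm_single, ev_single, ev_single, map_mul]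
    congr 1
    · exact (RingHom.congr_fun hij a).symm
    · unfold mon cu
      rw [map_prod]
      refine Finset.prod_congr rfl fun l _ => ?_
      rw [map_zpow₀, ht'']
  have hfi : (f.map (lpm (algebraMap K K'))).eval₂ (ev j t'') (i y) = 0 := by
    rw [Polynomial.eval₂_map, hcomm2, ← Polynomial.hom_eval₂, hf0, map_zero]
  rw [hfac, Polynomial.eval₂_mul, mul_eq_zero] at hfi
  rcases hfi with h1 | h1
  · exact no_small t t'' i j ht'' y f.natDegree hN hind g' hg'm (by omega) h1
  · exact no_small t t'' i j ht'' y f.natDegree hN hind h' hh'm (by omega) h1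

end Pool.Agent.Work.MP_e97a4d_nt.CT
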