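import Pool.Agent.Work.MP_e97a4d_nt.CT.QDefs
import Pool.Agent.Work.MP_e97a4d_nt.Picard

/-!
# CT/MBar (size S-M): constants and roots of units over the meromorphic functions

PROOF. `root_unit`: `exists_log` (Picard.lean) gives an entire `g` with `exp (g z) = v z`; `f := exp (g / e)`.
`m_con`: `c` is a root of a nonzero polynomial over `ℚ`, so `Θb c` is a root in `Ω := AlgebraicClosure Mero` of its
image, which splits over `ℂ`, so `Θb c` is the image of a root in `ℂ` (as in `mero_alg`, UG/EntU: `Θb c` is algebraic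
over the algebraically closed field `ℂ`; give `Ω` the `ℂ`-algebra structure through `Mero`, or map the factorization
into linear factors).
`m_rt`: `root_unit` gives `f₀`; `(x / algebraMap (mk f₀ _)) ^ e = 1`, and an `e`-th root of unity of `Ω` is the image of
a complex number `ζ` with `ζ ^ e = 1` (as in `m_con`; `ℂ → Ω` is injective), `ζ ≠ 0`; `f := fun z => ζ * f₀ z`.
-/

set_option autoImplicit false

noncomputable section

namespace Pool.Agent.Work.MP_e97a4d_nt.CT

open Pool.Agent.Work.UP Filter Hyp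

private theorem alg_const {x : AlgebraicClosure Mero} {p : Polynomial ℂ} (hp : p ≠ 0)
    (h : Polynomial.eval₂ ((algebraMap Mero (AlgebraicClosure Mero)).comp (algebraMap ℂ Mero)) x p = 0) :
    ∃ γ : ℂ, x = algebraMap Mero (AlgebraicClosure Mero) (algebraMap ℂ Mero γ) := by
  have hs : p.Splits := IsAlgClosed.splits p
  have h1 := hs.eq_prod_roots
  rw [h1, Polynomial.eval₂_mul, Polynomial.eval₂_C, Polynomial.eval₂_multiset_prod,
    Multiset.map_map] at h
  have h2 : ((algebraMap Mero (AlgebraicClosure Mero)).comp (algebraMap ℂ Mero)) p.leadingCoeff ≠ 0 := by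
    rw [Ne, map_eq_zero_iff _ (RingHom.injective _)]
    exact Polynomial.leadingCoeff_ne_zero.2 hp
  have h3 := (mul_eq_zero.1 h).resolve_left h2
  obtain ⟨γ, -, hγ⟩ := Multiset.mem_map.1 (Multiset.prod_eq_zero_iff.1 h3)
  refine ⟨γ, ?_⟩
  simp only [Function.comp_apply, Polynomial.eval₂_sub, Polynomial.eval₂_X, Polynomial.eval₂_C,
    RingHom.comp_apply] at hγ
  exact sub_eq_zero.1 hγ

theorem root_unit (v : ℂ → ℂ) (hv : Differentiable ℂ v) (hv0 : ∀ z, v z ≠ 0) (e : ℕ) (he : 0 < e) :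
    ∃ f : ℂ → ℂ, Differentiable ℂ f ∧ (∀ z, f z ≠ 0) ∧ ∀ z, f z ^ e = v z := by
  obtain ⟨g, hg, hge⟩ := Picard.exists_log v hv hv0
  refine ⟨fun z => Complex.exp (g z / e), ?_, fun z => Complex.exp_ne_zero _, fun z => ?_⟩
  · exact (hg.div_const _).cexp
  · have he0 : (e : ℂ) ≠ 0 := Nat.cast_ne_zero.2 he.ne'
    rw [hge z, ← Complex.exp_nat_mul, mul_div_cancel₀ _ he0]

theorem m_con {M : Type} [Field M] [CharZero M] (Θb : M →+* AlgebraicClosure Mero) (c : M)
    (hc : IsAlgebraic ℚ c) :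
    ∃ γ : ℂ, Θb c = algebraMap Mero (AlgebraicClosure Mero) (algebraMap ℂ Mero γ) := by
  obtain ⟨p, hp, h⟩ := hc
  have hp' : p.map (algebraMap ℚ ℂ) ≠ 0 := (Polynomial.map_ne_zero_iff (RingHom.injective _)).2 hp
  refine alg_const hp' ?_
  rw [Polynomial.eval₂_map]
  have h1 : Polynomial.eval₂ (Θb.comp (algebraMap ℚ M)) (Θb c) p = 0 := by
    rw [← Polynomial.hom_eval₂, ← Polynomial.aeval_def, h, map_zero]
  rw [← h1]
  congr 1
  exact Subsingleton.elim _ _

theorem m_rt (v : ℂ → ℂ) (hv : Differentiable ℂ v) (hv0 : ∀ z, v z ≠ 0) (e : ℕ) (he : 0 < e)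
    (x : AlgebraicClosure Mero)
    (hx : x ^ e = algebraMap Mero (AlgebraicClosure Mero) (mk v (mer_of_diff hv))) :
    ∃ (f : ℂ → ℂ) (hf : Differentiable ℂ f), (∀ z, f z ≠ 0) ∧ (∀ z, f z ^ e = v z) ∧
      x = algebraMap Mero (AlgebraicClosure Mero) (mk f (mer_of_diff hf)) := by
  obtain ⟨f₀, hf₀, hf0, hfe⟩ := root_unit v hv hv0 e he
  set y : AlgebraicClosure Mero := algebraMap Mero (AlgebraicClosure Mero) (mk f₀ (mer_of_diff hf₀)) with hy
  have hye : y ^ e = algebraMap Mero (AlgebraicClosure Mero) (mk v (mer_of_diff hv)) := by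
    rw [hy, ← map_pow]
    congr 1
    have h1 : mk f₀ (mer_of_diff hf₀) ^ e = mk (f₀ ^ e) (mer_of_diff (hf₀.pow e)) := rfl
    rw [h1]
    have h2 : f₀ ^ e = v := funext hfe
    simp only [h2]
  have hv1 : mk v (mer_of_diff hv) ≠ 0 := by
    intro h0
    rw [mk_eq_zero_iff, Filter.EventuallyEq, eventually_codiscrete] at h0
    obtain ⟨w, hw⟩ := (h0 0).exists
    exact hv0 w hw
  have hy0 : y ≠ 0 := by
    intro h0
    rw [h0, zero_pow he.ne'] at hye
    exact hv1 ((map_eq_zero_iff _ (RingHom.injective _)).1 hye.symm)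
  have hq : (x / y) ^ e = 1 := by
    rw [div_pow, hx, hye, div_self]
    exact fun h => hv1 ((map_eq_zero_iff _ (RingHom.injective _)).1 h)
  have hpol : (Polynomial.X ^ e - 1 : Polynomial ℂ) ≠ 0 := by
    have := Polynomial.X_pow_sub_C_ne_zero he (1 : ℂ)
    simpa using this
  obtain ⟨ζ, hζ⟩ := alg_const (x := x / y) hpol (by
    simp [Polynomial.eval₂_sub, Polynomial.eval₂_pow, hq])
  have hζe : ζ ^ e = 1 := by
    have h1 : (algebraMap Mero (AlgebraicClosure Mero)) ((algebraMap ℂ Mero) (ζ ^ e)) =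
        (algebraMap Mero (AlgebraicClosure Mero)) ((algebraMap ℂ Mero) 1) := by
      rw [map_pow, map_pow, ← hζ, hq, map_one, map_one]
    exact RingHom.injective _ (RingHom.injective _ h1)
  have hζ0 : ζ ≠ 0 := by
    rintro rfl
    rw [zero_pow he.ne'] at hζe
    exact zero_ne_one hζe
  refine ⟨fun z => ζ * f₀ z, hf₀.const_mul ζ, fun z => mul_ne_zero hζ0 (hf0 z), fun z => ?_, ?_⟩
  · rw [mul_pow, hζe, one_mul, hfe z]
  · have h1 : x = (x / y) * y := (div_mul_cancel₀ x hy0).symm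
    rw [h1, hζ, hy, ← map_mul]
    congr 1

end Pool.Agent.Work.MP_e97a4d_nt.CT
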