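import Pool.Agent.Work.MP_e97a4d_nt.CT.EDefs
import Pool.Agent.Work.MP_e97a4d_nt.CT.SDefs

/-!
# CT/NDefs: radical covers of tori given by powers plus lower terms (FIXED, do not edit)
-/

set_option autoImplicit false

noncomputable section

namespace Pool.Agent.Work.MP_e97a4d_nt.CT

open AlgebraicGeometry CategoryTheory NumberField
open Pool.Agent.Work.UP UE

/-- Laurent polynomials in `n` variables `u l` over the ring `R`. -/
abbrev LauN (n : ℕ) (R : Type) [CommRing R] : Type := AddMonoidAlgebra R (Fin n → ℤ)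

variable {F₀ : Type} [Field F₀]

/-- The ring `O_{F₀}[u₁, u₁⁻¹, ..., u_n, u_n⁻¹][x₁, ..., x_r] / (x_j ^ m_j - h_j ^ m_j - g_j)`. -/
abbrev PowRing {n r : ℕ} (m : Fin r → ℕ) (h g : Fin r → LauN n (𝓞 F₀)) : Type :=
  MvPolynomial (Fin r) (LauN n (𝓞 F₀)) ⧸
    Ideal.span (Set.range fun j => MvPolynomial.X j ^ m j - MvPolynomial.C (h j ^ m j + g j))

/-- Its spectrum. -/
abbrev PowScheme {n r : ℕ} (m : Fin r → ℕ) (h g : Fin r → LauN n (𝓞 F₀)) : Scheme.{0} :=
  Spec (CommRingCat.of (PowRing m h g))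

/-- Its structure morphism. -/
abbrev powStr {n r : ℕ} (m : Fin r → ℕ) (h g : Fin r → LauN n (𝓞 F₀)) :
    PowScheme m h g ⟶ Spec (CommRingCat.of (𝓞 F₀)) :=
  Spec.map (CommRingCat.ofHom (algebraMap (𝓞 F₀) (PowRing m h g)))

open scoped Classical in
/-- The leading form of `p` in the direction `ξ`: the sum of the terms of largest degree. -/
def lead {R : Type} [CommRing R] {n : ℕ} (ξ : Fin n → ℝ) (p : LauN n R) : LauN n R :=
  ⟨p.coeff.filter fun e => ∀ e' ∈ p.coeff.support,
    ∑ l, (e' l : ℝ) * ξ l ≤ ∑ l, (e l : ℝ) * ξ l⟩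

/-- Among any nonzero vectors `ξ t` with sum zero there is one such that, for all `j`, the degree of `g j` in
the direction `ξ t` is smaller than the degree of `h j ^ m j`, and the leading form of `h j` is not zero at
the points `v` of the generic fibre of `V` which are not in `V'` and whose closure has dimension at least two
(two elements of the residue field are algebraically independent): the zeros of the leading form in the
complement of `V'` have dimension at most one. -/
def NewtonSplit {V V' : Scheme.{0}} (π : V ⟶ Spec (CommRingCat.of (𝓞 F₀))) (i : V' ⟶ V) {n r : ℕ}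
    {m : Fin r → ℕ} {h g : Fin r → LauN n (𝓞 F₀)} (q : V ⟶ PowScheme m h g) : Prop :=
  ∀ (s : ℕ) (ξ : Fin s → Fin n → ℝ), 0 < s → (∀ t, ξ t ≠ 0) → ∑ t, ξ t = 0 →
    ∃ t, ∀ j, (∀ e ∈ (g j).coeff.support, ∃ e' ∈ (h j).coeff.support,
        ∑ l, (e l : ℝ) * ξ t l < m j * ∑ l, (e' l : ℝ) * ξ t l) ∧
      ∀ v : V, v ∉ Set.range i → Function.Injective (strAt π v) →
        (∃ y : Fin 2 → V.residueField v, AlgebraicIndependent ℤ y) →
          valAt q v (algebraMap (LauN n (𝓞 F₀)) (PowRing m h g) (lead (ξ t) (h j))) ≠ 0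

end Pool.Agent.Work.MP_e97a4d_nt.CT
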