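import Pool.Agent.Work.MP_e97a4d_nt.CT.EExt

/-!
# CT/NExt (size S): from the working definitions to the definitions of the result, relative form

PROOF. The proof of `ext_of_two` (CT/EExt) with a field `C` in the place of `algebraicClosure ℚ L`: a family `p` with
values in `K = range (algebraMap C L)` comes from an element of `Lp C k` with the same support (`ev_eq`).
-/

set_option autoImplicit false

noncomputable section

namespace Pool.Agent.Work.MP_e97a4d_nt.CT

open Pool.Agent.Work.UP

theorem ext_of_two_c {C L : Type} [Field C] [Field L] [Algebra C L] (K : Set L)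
    (hK : ∀ x : L, x ∈ Set.range (algebraMap C L) ↔ x ∈ K) {k : ℕ} (w : Fin k → Lˣ)
    (ξ : Fin k → ℝ) (h : Two (ev (algebraMap C L) w) ξ) :
    ∃ ν ν' : Valuation L NNReal, ν ≠ ν' ∧ ExtendsDeg K (fun l => (w l : L)) ξ ν ∧
      ExtendsDeg K (fun l => (w l : L)) ξ ν' := by
  have key : ∀ μ : Valuation L NNReal, DegVal (ev (algebraMap C L) w) ξ μ →
      ExtendsDeg K (fun l => (w l : L)) ξ μ := by
    intro μ hμ p hp hpK
    have hex : ∀ e, ∃ c : C, algebraMap C L c = p e := fun e => (hK _).2 (hpK e)
    choose g hg using hex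
    let q : (Fin k → ℤ) →₀ C :=
      ⟨p.support, g, fun e => by
        rw [Finsupp.mem_support_iff, ← hg e, Ne, Ne, map_eq_zero]⟩
    let p' : Lp C k := ⟨q⟩
    have hcoeff : p'.coeff = q := rfl
    have hne : p' ≠ 0 := by
      intro h0
      have h1 : q = 0 := by
        rw [← hcoeff, h0]
        rfl
      apply hp
      have h2 : q.support = ∅ := by rw [h1, Finsupp.support_zero]
      exact Finsupp.support_eq_empty.1 h2
    have h1 := hμ p' hne
    have h2 : ev (algebraMap C L) w p' = p.sum fun e a => a * mon (fun l => (w l : L)) e := by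
      rw [ev_eq]
      refine Finset.sum_congr rfl fun e _ => ?_
      show algebraMap C L (g e) * _ = p e * _
      rw [hg e]
      rfl
    rw [h2] at h1
    exact h1
  obtain ⟨ν, ν', hne, h1, h2⟩ := h
  exact ⟨ν, ν', hne, key ν h1, key ν' h2⟩

end Pool.Agent.Work.MP_e97a4d_nt.CT
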