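import Pool.Agent.Work.MP_e97a4d_nt.CT.SDefs
import Pool.Agent.Work.MP_e97a4d_nt.CT.Defs

/-!
# CT/NTr (size M): the units in the directions of the stabilizer are a transcendence basis

`z i := mon (cu u) (a i)`, `w j := mon (cu u) (b j)`, `A := Algebra.adjoin ℤ (Set.range z)`.

PROOF. Algebraic independence over `A`: let `P : MvPolynomial (Fin k) A` with `aeval w P = 0`; show `P = 0`
(`algebraicIndependent_iff`). For every coefficient choose a polynomial `Q_s : MvPolynomial (Fin m) ℤ` with
`P.coeff s = aeval z Q_s` (`Algebra.adjoin_range_eq_range_aeval`; `s : Fin k →₀ ℕ`). Let `p : (Fin n → ℤ) →₀ L` be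
`∑ s ∈ P.support, ∑ t ∈ (Q_s).support, single (∑ i, t i • a i + ∑ j, s j • b j) ((Q_s).coeff t)`. The exponent
`e := ∑ i, t i • a i + ∑ j, s j • b j` has `α e = t`, `π e = s`, so different `(s, t)` have different exponents, the values of `p`
are integers (algebraic over `ℚ`), and `p.sum (c * mon (cu u) e) = ∑ s, (aeval z Q_s) * ∏ j, w j ^ s j = aeval w P = 0`
(`mon (cu u) e = mon z t * mon w s`: `mon_add` and multiples). `hrel` for `g = s` (as integers): the part of `p` with
`π e = s` is `∑ t, single ..`, of value `(P.coeff s) * ∏ j, w j ^ s j`, so `P.coeff s = 0` (the monomial is not zero). (It may be easier to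
first prove the claim for `P` with the finitely supported family written as a sum over the finite set of pairs.)

Algebraic: `L` is algebraic over `B := Algebra.adjoin A (Set.range w)`: every `u l` is `∏ i, z i ^ (α (Pi.single l 1) i) *
∏ j, w j ^ (π (Pi.single l 1) j)` (`hdec` and `mon`), so in the fraction field of `B` (integral powers of elements of
`B`), hence algebraic over `B`. The elements of `L` algebraic over `B` are a subring (a subfield containing `B`), so
`Algebra.adjoin ℤ (Set.range u)` is algebraic over `B`, and `L` is algebraic over it by `halg`: transitivity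
(use the field `(algebraicClosure (FractionRing B) L)` or the relative algebraic closure as a subfield `F`: `F` contains
all `u l`, and an element algebraic over `Algebra.adjoin ℤ (Set.range u)` is algebraic over `F`, so in `F`).
Then `isTranscendenceBasis_iff_..`/`IsTranscendenceBasis` from algebraically independent and algebraic
(Mathlib/RingTheory/AlgebraicIndependent/TranscendenceBasis: `AlgebraicIndependent.isTranscendenceBasis_iff_isAlgebraic`).
-/

set_option autoImplicit false

noncomputable section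

namespace Pool.Agent.Work.MP_e97a4d_nt.CT

open Pool.Agent.Work.UP

private theorem ntr_mon_smul {L : Type} [Field L] {n : ℕ} (u : Fin n → Lˣ) (c : ℤ)
    (b : Fin n → ℤ) : mon (cu u) (c • b) = mon (cu u) b ^ c := by
  unfold mon
  rw [← Finset.prod_zpow]
  refine Finset.prod_congr rfl fun i _ => ?_
  rw [Pi.smul_apply, smul_eq_mul, mul_comm, zpow_mul]

private theorem ntr_mon_sum {L : Type} [Field L] {n m : ℕ} (u : Fin n → Lˣ)
    (a : Fin m → Fin n → ℤ) (x : Fin m → ℤ) :
    mon (cu u) (∑ i, x i • a i) = ∏ i, mon (cu u) (a i) ^ x i := by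
  classical
  have h2 : ∀ (S : Finset (Fin m)),
      mon (cu u) (∑ i ∈ S, x i • a i) = ∏ i ∈ S, mon (cu u) (a i) ^ x i := by
    intro S
    induction S using Finset.induction_on with
    | empty => rw [Finset.sum_empty, Finset.prod_empty, mon_zero]
    | insert i S hi ih =>
      rw [Finset.sum_insert hi, Finset.prod_insert hi, mon_add, ih, ntr_mon_smul]
  exact h2 Finset.univ

/-- The value of an integral family at the units. -/
private def ntrV {L : Type} [Field L] {n : ℕ} (u : Fin n → Lˣ) : ((Fin n → ℤ) →₀ ℤ) →+ L :=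
  Finsupp.liftAddHom fun e => (AddMonoidHom.mulRight (mon (cu u) e)).comp (Int.castAddHom L)

private theorem ntrV_single {L : Type} [Field L] {n : ℕ} (u : Fin n → Lˣ) (e : Fin n → ℤ)
    (c : ℤ) : ntrV u (Finsupp.single e c) = (c : L) * mon (cu u) e := by
  unfold ntrV
  rw [Finsupp.liftAddHom_apply_single]
  rfl

private theorem ntrV_eq {L : Type} [Field L] {n : ℕ} (u : Fin n → Lˣ) (p : (Fin n → ℤ) →₀ ℤ) :
    ntrV u p = (p.mapRange (Int.cast : ℤ → L) Int.cast_zero).sum
      fun e c => c * mon (cu u) e := by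
  rw [Finsupp.sum_mapRange_index (fun e => by rw [zero_mul])]
  unfold ntrV
  rw [Finsupp.liftAddHom_apply]
  rfl

private theorem ntr_relZ {L : Type} [Field L] [CharZero L] {n k : ℕ} (u : Fin n → Lˣ)
    (π : (Fin n → ℤ) →+ (Fin k → ℤ))
    (hrel : ∀ p : (Fin n → ℤ) →₀ L, (∀ e, IsAlgebraic ℚ (p e)) →
      (p.sum fun e c => c * mon (cu u) e) = 0 → ∀ g : Fin k → ℤ,
        ((p.filter fun e => π e = g).sum fun e c => c * mon (cu u) e) = 0)
    (p : (Fin n → ℤ) →₀ ℤ) (hp : ntrV u p = 0) (g : Fin k → ℤ) :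
    ntrV u (p.filter fun e => π e = g) = 0 := by
  have h1 := hrel (p.mapRange (Int.cast : ℤ → L) Int.cast_zero) (by
    intro e
    rw [Finsupp.mapRange_apply]
    have : ((p e : ℤ) : L) = algebraMap ℚ L ((p e : ℤ) : ℚ) := by simp
    rw [this]
    exact isAlgebraic_algebraMap _) (by rw [← ntrV_eq]; exact hp) g
  have h2 : ((p.mapRange (Int.cast : ℤ → L) Int.cast_zero).filter fun e => π e = g) =
      (p.filter fun e => π e = g).mapRange (Int.cast : ℤ → L) Int.cast_zero := by
    ext e
    rw [Finsupp.filter_apply, Finsupp.mapRange_apply, Finsupp.mapRange_apply,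
      Finsupp.filter_apply]
    split_ifs
    · rfl
    · rw [Int.cast_zero]
  rw [h2, ← ntrV_eq] at h1
  exact h1

private theorem ntr_ind {L : Type} [Field L] [CharZero L] {n m k : ℕ} (u : Fin n → Lˣ)
    (a : Fin m → Fin n → ℤ) (b : Fin k → Fin n → ℤ)
    (π : (Fin n → ℤ) →+ (Fin k → ℤ))
    (hπa : ∀ i, π (a i) = 0) (hπb : ∀ j, π (b j) = Pi.single j 1)
    (hrel : ∀ p : (Fin n → ℤ) →₀ L, (∀ e, IsAlgebraic ℚ (p e)) →
      (p.sum fun e c => c * mon (cu u) e) = 0 → ∀ g : Fin k → ℤ,
        ((p.filter fun e => π e = g).sum fun e c => c * mon (cu u) e) = 0) :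
    AlgebraicIndependent (Algebra.adjoin ℤ (Set.range fun i => mon (cu u) (a i)))
      (fun j => mon (cu u) (b j)) := by
  classical
  rw [algebraicIndependent_iff]
  intro P hP
  have hQ : ∀ c : Algebra.adjoin ℤ (Set.range fun i => mon (cu u) (a i)),
      ∃ q : MvPolynomial (Fin m) ℤ,
        MvPolynomial.aeval (fun i => mon (cu u) (a i)) q = (c : L) := by
    intro c
    have h : (c : L) ∈ (MvPolynomial.aeval (R := ℤ) (fun i => mon (cu u) (a i))).range := by
      rw [← Algebra.adjoin_range_eq_range_aeval]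
      exact c.2
    exact h
  choose Q hQ using hQ
  let E : (Fin k →₀ ℕ) → (Fin m →₀ ℕ) → (Fin n → ℤ) := fun s t =>
    ∑ i, (t i : ℤ) • a i + ∑ j, (s j : ℤ) • b j
  have hπE : ∀ s t, π (E s t) = fun j => (s j : ℤ) := by
    intro s t
    change π (∑ i, (t i : ℤ) • a i + ∑ j, (s j : ℤ) • b j) = _
    rw [map_add, map_sum, map_sum]
    have h1 : ∑ i, π ((t i : ℤ) • a i) = 0 :=
      Finset.sum_eq_zero fun i _ => by rw [map_zsmul, hπa, smul_zero]
    rw [h1, zero_add]
    funext j
    rw [Finset.sum_apply, Finset.sum_eq_single j]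
    · rw [map_zsmul, hπb, Pi.smul_apply, Pi.single_eq_same, smul_eq_mul, mul_one]
    · intro i _ hi
      rw [map_zsmul, hπb, Pi.smul_apply, Pi.single_eq_of_ne (Ne.symm hi), smul_zero]
    · intro h
      exact absurd (Finset.mem_univ _) h
  have hmE : ∀ s t, mon (cu u) (E s t) =
      (∏ i, mon (cu u) (a i) ^ t i) * ∏ j, mon (cu u) (b j) ^ s j := by
    intro s t
    change mon (cu u) (∑ i, (t i : ℤ) • a i + ∑ j, (s j : ℤ) • b j) = _
    rw [mon_add, ntr_mon_sum, ntr_mon_sum]
    simp only [zpow_natCast]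
  have hin : ∀ s, ∑ t ∈ (Q (P.coeff s)).support,
      (((Q (P.coeff s)).coeff t : ℤ) : L) * mon (cu u) (E s t) =
        ((P.coeff s : Algebra.adjoin ℤ (Set.range fun i => mon (cu u) (a i))) : L) *
          ∏ j, mon (cu u) (b j) ^ s j := by
    intro s
    rw [← hQ (P.coeff s), MvPolynomial.aeval_def, MvPolynomial.eval₂_eq', Finset.sum_mul]
    refine Finset.sum_congr rfl fun t _ => ?_
    rw [hmE, ← mul_assoc]
    rfl
  have hwne : ∀ s : Fin k →₀ ℕ, ∏ j, mon (cu u) (b j) ^ s j ≠ 0 := fun s =>
    Finset.prod_ne_zero_iff.2 fun j _ => pow_ne_zero _ (mon_ne_zero u _)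
  have hV : ntrV u (∑ s ∈ P.support, ∑ t ∈ (Q (P.coeff s)).support,
      Finsupp.single (E s t) ((Q (P.coeff s)).coeff t)) = 0 := by
    simp only [map_sum, ntrV_single, hin]
    rw [← hP, MvPolynomial.aeval_def, MvPolynomial.eval₂_eq']
    rfl
  ext1 s0
  rw [MvPolynomial.coeff_zero]
  by_contra hs0
  have hs0' : s0 ∈ P.support := MvPolynomial.mem_support_iff.2 hs0
  have h1 := ntr_relZ u π hrel _ hV (fun j => (s0 j : ℤ))
  rw [Finsupp.filter_sum] at h1
  simp only [Finsupp.filter_sum, map_sum] at h1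
  have h2 : ∀ s ∈ P.support, ∑ t ∈ (Q (P.coeff s)).support,
      ntrV u ((Finsupp.single (E s t) ((Q (P.coeff s)).coeff t)).filter
        fun e => π e = fun j => (s0 j : ℤ)) = if s = s0 then
          ((P.coeff s0 : Algebra.adjoin ℤ (Set.range fun i => mon (cu u) (a i))) : L) *
            ∏ j, mon (cu u) (b j) ^ s0 j else 0 := by
    intro s _
    by_cases h : s = s0
    · subst h
      rw [if_pos rfl, ← hin]
      refine Finset.sum_congr rfl fun t _ => ?_
      have h3 : (fun e => π e = fun j => (s j : ℤ)) (E s t) := hπE s t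
      rw [Finsupp.filter_single_of_pos (fun e => π e = fun j => (s j : ℤ)) h3, ntrV_single]
    · rw [if_neg h]
      refine Finset.sum_eq_zero fun t _ => ?_
      have h3 : ¬ (fun e => π e = fun j => (s0 j : ℤ)) (E s t) := by
        intro h4
        have h5 : π (E s t) = fun j => (s0 j : ℤ) := h4
        rw [hπE] at h5
        apply h
        ext j
        have := congrFun h5 j
        exact_mod_cast this
      rw [Finsupp.filter_single_of_neg (fun e => π e = fun j => (s0 j : ℤ)) h3, map_zero]
  rw [Finset.sum_congr rfl h2, Finset.sum_ite_eq' P.support s0, if_pos hs0'] at h1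
  rcases mul_eq_zero.1 h1 with h3 | h3
  · exact hs0 (Subtype.ext h3)
  · exact hwne s0 h3

private theorem ntr_zpow {L B : Type} [Field L] [CommRing B] [IsDomain B] [Algebra B L]
    (x : L) (hx : IsAlgebraic B x) (c : ℤ) : IsAlgebraic B (x ^ c) := by
  cases c with
  | ofNat c =>
    rw [Int.ofNat_eq_natCast, zpow_natCast]
    exact hx.pow c
  | negSucc c =>
    rw [zpow_negSucc]
    exact (hx.pow (c + 1)).inv

private theorem ntr_alg {L : Type} [Field L] {n m k : ℕ} (u : Fin n → Lˣ)
    (a : Fin m → Fin n → ℤ) (b : Fin k → Fin n → ℤ)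
    (α : (Fin n → ℤ) →+ (Fin m → ℤ)) (π : (Fin n → ℤ) →+ (Fin k → ℤ))
    (hdec : ∀ e, e = ∑ i, α e i • a i + ∑ j, π e j • b j)
    (halg : ∀ x : L, IsAlgebraic (Algebra.adjoin ℤ (Set.range fun l => (u l : L))) x) :
    Algebra.IsAlgebraic (Algebra.adjoin (Algebra.adjoin ℤ (Set.range fun i => mon (cu u) (a i)))
      (Set.range fun j => mon (cu u) (b j))) L := by
  classical
  refine ⟨fun x => ?_⟩
  set B := Algebra.adjoin (Algebra.adjoin ℤ (Set.range fun i => mon (cu u) (a i)))
      (Set.range fun j => mon (cu u) (b j)) with hB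
  have hz : ∀ i, IsAlgebraic B (mon (cu u) (a i)) := by
    intro i
    have h0 : mon (cu u) (a i) ∈ Algebra.adjoin ℤ (Set.range fun i => mon (cu u) (a i)) :=
      Algebra.subset_adjoin ⟨i, rfl⟩
    have h1 : mon (cu u) (a i) ∈ B :=
      B.algebraMap_mem (⟨_, h0⟩ : Algebra.adjoin ℤ (Set.range fun i => mon (cu u) (a i)))
    exact isAlgebraic_algebraMap (⟨_, h1⟩ : B)
  have hw : ∀ j, IsAlgebraic B (mon (cu u) (b j)) := by
    intro j
    have h1 : mon (cu u) (b j) ∈ B := Algebra.subset_adjoin ⟨j, rfl⟩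
    exact isAlgebraic_algebraMap (⟨_, h1⟩ : B)
  have hu : ∀ l, (u l : L) ∈ Subalgebra.algebraicClosure B L := by
    intro l
    have h1 : (u l : L) = mon (cu u) (Pi.single l 1) := by
      rw [mon_single_one]
      rfl
    rw [h1, hdec (Pi.single l 1), mon_add, ntr_mon_sum, ntr_mon_sum]
    refine Subalgebra.mul_mem _ ?_ ?_
    · exact Subalgebra.prod_mem _ fun i _ => ntr_zpow _ (hz i) _
    · exact Subalgebra.prod_mem _ fun j _ => ntr_zpow _ (hw j) _
  have hle : (Algebra.adjoin ℤ (Set.range fun l => (u l : L))).toSubring ≤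
      (Subalgebra.algebraicClosure B L).toSubring := by
    intro y hy
    have hy' : y ∈ Algebra.adjoin ℤ (Set.range fun l => (u l : L)) := hy
    clear hy
    induction hy' using Algebra.adjoin_induction with
    | mem y hy =>
      obtain ⟨l, rfl⟩ := hy
      exact hu l
    | algebraMap r =>
      rw [eq_intCast (algebraMap ℤ L) r]
      exact intCast_mem _ r
    | add x y _ _ hx hy => exact Subring.add_mem _ hx hy
    | mul x y _ _ hx hy => exact Subring.mul_mem _ hx hy
  obtain ⟨q, hq, hqx⟩ := halg x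
  have h1 : IsAlgebraic (Subalgebra.algebraicClosure B L) x := by
    refine ⟨q.map (Subring.inclusion hle), ?_, ?_⟩
    · rw [Ne, Polynomial.map_eq_zero_iff (Subring.inclusion_injective hle)]
      exact hq
    · rw [Polynomial.aeval_def, Polynomial.eval₂_map]
      exact hqx
  exact h1.restrictScalars B

theorem tb_stab {L : Type} [Field L] [CharZero L] {n m k : ℕ} (u : Fin n → Lˣ)
    (a : Fin m → Fin n → ℤ) (b : Fin k → Fin n → ℤ)
    (α : (Fin n → ℤ) →+ (Fin m → ℤ)) (π : (Fin n → ℤ) →+ (Fin k → ℤ))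
    (hdec : ∀ e, e = ∑ i, α e i • a i + ∑ j, π e j • b j)
    (hαa : ∀ i, α (a i) = Pi.single i 1) (hπa : ∀ i, π (a i) = 0)
    (hαb : ∀ j, α (b j) = 0) (hπb : ∀ j, π (b j) = Pi.single j 1)
    (hrel : ∀ p : (Fin n → ℤ) →₀ L, (∀ e, IsAlgebraic ℚ (p e)) →
      (p.sum fun e c => c * mon (cu u) e) = 0 → ∀ g : Fin k → ℤ,
        ((p.filter fun e => π e = g).sum fun e c => c * mon (cu u) e) = 0)
    (halg : ∀ x : L, IsAlgebraic (Algebra.adjoin ℤ (Set.range fun l => (u l : L))) x) :
    IsTranscendenceBasis (Algebra.adjoin ℤ (Set.range fun i => mon (cu u) (a i)))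
      (fun j => mon (cu u) (b j)) :=
  (ntr_ind u a b π hπa hπb hrel).isTranscendenceBasis_iff_isAlgebraic.2
    (ntr_alg u a b α π hdec halg)

end Pool.Agent.Work.MP_e97a4d_nt.CT
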