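import Pool.Agent.Work.MP_e97a4d_nt.CT.TwoB

/-!
# CT/TwoC (size M): two extensions of an absolute value

PROOF. `Ω, N` from `ext_alg`. `g := minpoly Q z`, separable (characteristic zero; `Q → Ω` injective), of degree `≥ 2`
since `z` is not in `Q` (`minpoly.natDegree_eq_one_iff`...), so it has two different roots `z₁ ≠ z₂` in `Ω`
(`IsAlgClosed`, separable: the number of roots is the degree). For `j = 1, 2` there is a `Q`-embedding `σ j : L →ₐ[Q] Ω`
with `σ j z = z j`: `L` is algebraic over `Q` (`IntermediateField.exists_algHom_of_adjoin_splits..`,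
`IntermediateField.exists_algHom_adjoin_of_splits`; or `IsAlgClosed.lift` over the field `Q⟮z⟯` with the algebra structure
of `Ω` given by `Q⟮z⟯ →ₐ Ω`, `z ↦ z j`, `IntermediateField.adjoin.algHomEquivAlgHomOfIsAlgClosed`/
`AdjoinRoot`). `ν j := N.comap (σ j)`; `ν j (algebraMap x) = v x`.

`ν 1 ≠ ν 2`: `z j ^ m = algebraMap c` (`aeval` of `X ^ m - c` vanishes at all roots of `g`: `minpoly.dvd`), `v c = 1`
(`v (c - 1) < 1`), so `N (z j) = 1`. Over `Q`, `X ^ m - 1 = ∏_{i < m} (X - ζ ^ i)` (`ζ` primitive: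
`X_pow_sub_one_eq_prod`), so `∏_i (z₁ - ζ ^ i) = z₁ ^ m - 1 = c - 1` has value `< 1`, and every factor has value `≤ 1`,
so `N (z₁ - ζ ^ i) < 1` for some `i`. `z₂ ^ m = z₁ ^ m`, so `z₂ = ζ ^ l z₁` for some `l` (`IsPrimitiveRoot.eq_pow_of_pow_eq_one`
for `z₂ / z₁`, in `Ω`), with `m ∤ l` because `z₂ ≠ z₁`. So `z₂ - ζ ^ i = (ζ ^ l - 1) z₁ + (z₁ - ζ ^ i)`, the first summand has
value `1` by `hζ`, the second `< 1`, so `N (z₂ - ζ ^ i) = 1` (`Valuation.map_add_eq_of_lt_left`). Hence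
`ν 1 (z - ζ ^ i) < 1 = ν 2 (z - ζ ^ i)`.
-/

set_option autoImplicit false

noncomputable section

namespace Pool.Agent.Work.MP_e97a4d_nt.CT

theorem ext_two {Q L : Type} [Field Q] [Field L] [CharZero Q] [Algebra Q L]
    [Algebra.IsAlgebraic Q L] (v : AbsoluteValue Q ℝ) (hna : IsNonarchimedean v)
    (hnt : v.IsNontrivial) (z : L) (hz : z ∉ Set.range (algebraMap Q L)) (m : ℕ) (hm : 0 < m)
    (c : Q) (hzm : z ^ m = algebraMap Q L c) (hc : v (c - 1) < 1) (ζ : Q)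
    (hprim : IsPrimitiveRoot ζ m) (hζ : ∀ l : ℕ, ζ ^ l ≠ 1 → v (ζ ^ l - 1) = 1) :
    ∃ ν ν' : Valuation L NNReal, ν ≠ ν' ∧ (∀ x : Q, (ν (algebraMap Q L x) : ℝ) = v x) ∧
      ∀ x : Q, (ν' (algebraMap Q L x) : ℝ) = v x := by
  obtain ⟨Ω, _, _, N, _, hN⟩ := ext_alg v hna hnt
  have hint : ∀ s : L, IsIntegral Q s := fun s => Algebra.IsIntegral.isIntegral s
  have hsp : ∀ s : L, IsIntegral Q s ∧ ((minpoly Q s).map (algebraMap Q Ω)).Splits :=
    fun s => ⟨hint s, IsAlgClosed.splits _⟩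
  have h2 : 2 ≤ (minpoly Q z).natDegree := (minpoly.two_le_natDegree_iff (hint z)).2 (by
    intro h
    obtain ⟨q, hq⟩ := h
    exact hz ⟨q, hq⟩)
  have hsep : (minpoly Q z).Separable := (minpoly.irreducible (hint z)).separable
  have hcard := Polynomial.card_rootSet_eq_natDegree (K := Ω) hsep (IsAlgClosed.splits _)
  have h1 : 1 < Fintype.card ((minpoly Q z).rootSet Ω) := by omega
  obtain ⟨⟨z₁, hz1⟩, ⟨z₂, hz2⟩, hne⟩ := Fintype.exists_pair_of_one_lt_card h1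
  have hne' : z₁ ≠ z₂ := fun h => hne (Subtype.ext h)
  have hz1' : Polynomial.aeval z₁ (minpoly Q z) = 0 := (Polynomial.mem_rootSet.1 hz1).2
  have hz2' : Polynomial.aeval z₂ (minpoly Q z) = 0 := (Polynomial.mem_rootSet.1 hz2).2
  obtain ⟨σ₁, hσ1⟩ := IntermediateField.exists_algHom_of_splits_of_aeval hsp hz1'
  obtain ⟨σ₂, hσ2⟩ := IntermediateField.exists_algHom_of_splits_of_aeval hsp hz2'
  have hp1 : z₁ ^ m = algebraMap Q Ω c := by rw [← hσ1, ← map_pow, hzm, σ₁.commutes]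
  have hp2 : z₂ ^ m = algebraMap Q Ω c := by rw [← hσ2, ← map_pow, hzm, σ₂.commutes]
  have hc' : N (algebraMap Q Ω (c - 1)) < 1 := by
    rw [← NNReal.coe_lt_coe, hN]
    exact hc
  have hNc : N (algebraMap Q Ω c) = 1 := by
    have h3 : algebraMap Q Ω c = 1 + algebraMap Q Ω (c - 1) := by
      rw [map_sub, map_one]
      ring
    rw [h3]
    exact Valuation.map_one_add_of_lt N hc'
  have hN1 : N z₁ = 1 := by
    have h3 : N z₁ ^ m = 1 := by rw [← map_pow, hp1, hNc]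
    exact (pow_eq_one_iff_of_nonneg zero_le hm.ne').1 h3
  have hz10 : z₁ ≠ 0 := by
    intro h
    rw [h, map_zero] at hN1
    exact zero_ne_one hN1
  have hprim' : IsPrimitiveRoot (algebraMap Q Ω ζ) m := hprim.map_of_injective (algebraMap Q Ω).injective
  have _ : NeZero m := ⟨hm.ne'⟩
  have hprod : z₁ ^ m - 1 = ∏ μ ∈ Polynomial.nthRootsFinset m (1 : Ω), (z₁ - μ) := by
    have h3 := congrArg (Polynomial.eval z₁) (Polynomial.X_pow_sub_one_eq_prod hm hprim')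
    rw [Polynomial.eval_prod] at h3
    simpa using h3
  obtain ⟨μ, hμ, hμ1⟩ : ∃ μ ∈ Polynomial.nthRootsFinset m (1 : Ω), N (z₁ - μ) < 1 := by
    by_contra hcon
    push Not at hcon
    have h3 : 1 ≤ ∏ μ ∈ Polynomial.nthRootsFinset m (1 : Ω), N (z₁ - μ) :=
      Finset.prod_induction _ (fun x => 1 ≤ x) (fun a b ha hb => one_le_mul ha hb) le_rfl hcon
    rw [← map_prod, ← hprod, hp1, ← map_one (algebraMap Q Ω), ← map_sub] at h3
    exact absurd hc' (not_lt.2 h3)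
  have hμm : μ ^ m = 1 := (Polynomial.mem_nthRootsFinset hm (1 : Ω)).1 hμ
  obtain ⟨i, _, hi⟩ := hprim'.eq_pow_of_pow_eq_one hμm
  obtain ⟨l, _, hl⟩ := hprim'.eq_pow_of_pow_eq_one (ξ := z₂ / z₁) (by
    rw [div_pow, hp1, hp2, div_self]
    intro h
    rw [h, map_zero] at hNc
    exact zero_ne_one hNc)
  have hz21 : z₂ = algebraMap Q Ω (ζ ^ l) * z₁ := by
    rw [map_pow, hl, div_mul_cancel₀ _ hz10]
  have hl1 : ζ ^ l ≠ 1 := by
    intro h
    rw [h, map_one, one_mul] at hz21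
    exact hne' hz21.symm
  have hμ' : μ = algebraMap Q Ω (ζ ^ i) := by rw [map_pow, hi]
  have h4 : N (algebraMap Q Ω (ζ ^ l - 1) * z₁) = 1 := by
    rw [map_mul, hN1, mul_one]
    apply NNReal.coe_injective
    rw [hN, hζ l hl1, NNReal.coe_one]
  have h5 : N (z₂ - μ) = 1 := by
    have h6 : z₂ - μ = (z₁ - μ) + algebraMap Q Ω (ζ ^ l - 1) * z₁ := by
      rw [hz21, map_sub, map_one]
      ring
    rw [h6, ← h4]
    exact N.map_add_eq_of_lt_right (by rw [h4]; exact hμ1)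
  refine ⟨N.comap (σ₁ : L →+* Ω), N.comap (σ₂ : L →+* Ω), ?_, ?_, ?_⟩
  · intro h
    have h7 := congrArg (fun ν : Valuation L NNReal => ν (z - algebraMap Q L (ζ ^ i))) h
    simp only [Valuation.comap_apply, RingHom.coe_coe, map_sub] at h7
    rw [σ₁.commutes, σ₂.commutes, hσ1, hσ2, ← hμ', h5] at h7
    exact absurd h7 hμ1.ne
  · intro x
    rw [Valuation.comap_apply, RingHom.coe_coe, σ₁.commutes, hN]
  · intro x
    rw [Valuation.comap_apply, RingHom.coe_coe, σ₂.commutes, hN]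

end Pool.Agent.Work.MP_e97a4d_nt.CT
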