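import Pool.Agent.Work.MP_e97a4d_nt.CT.TwoA
import Pool.Agent.Work.MP_e97a4d_nt.CT.TwoC

/-!
# CT/TwoD (size M): radical extensions split in directions where the radicand is nearly a power

PROOF. `P := Lp K k`, `Q := FractionRing P`, `v` from `gauss_abs ξ`. Give `L` the algebra structure over `Q` of the
lift of `E` (`IsFractionRing.lift hE` / `IsLocalization.lift`), so `algebraMap Q L (algebraMap P Q p) = E p`. `L` is
algebraic over `Q` (`halg`, map the polynomial to `Q[X]`, it stays nonzero). `z := y / E h` (`E h ≠ 0`). `z` is not in the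
image of `Q`: otherwise `y = E h * E p / E q`, against `hy` (with `q` and `h * p`). `z ^ m = E f / E (h ^ m)` is the image
of `c := f / h ^ m`; `c - 1 = (f - h ^ m) / h ^ m`, and `v (f - h ^ m) < v (h) ^ m`: if `f - h ^ m ≠ 0` its value is
`exp (dg ξ e)` for an exponent `e` (`IsGreatest`), and `hlow` gives an exponent `e'` of `h` with
`dg ξ e < m * dg ξ e'`, `exp (dg ξ e') ≤ v h`. If `f = h ^ m` then `c = 1`, fine. (`m ≥ 1`.)
`v` is nontrivial: some `ξ l ≠ 0`, `v (single (Pi.single l 1) 1) = exp (ξ l) ≠ 1`. `ζ' := ` the image of `ζ` in `Q`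
(`lC`), a primitive `m`-th root (injective homomorphism); `ζ ^ l - 1 ≠ 0` is a nonzero constant, of value
`exp (dg ξ 0) = 1`. `CharZero Q`. `ext_two` gives `ν ≠ ν'` with `ν (E p) = v p`, `ν' (E p) = v p`: `DegVal`.
-/

set_option autoImplicit false

noncomputable section

namespace Pool.Agent.Work.MP_e97a4d_nt.CT

open Pool.Agent.Work.UP

/-- The value of a monomial for an absolute value with the property of `gauss_abs`. -/
private theorem td_single {K : Type} [Field K] {k : ℕ} (ξ : Fin k → ℝ)
    (v : AbsoluteValue (FractionRing (Lp K k)) ℝ)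
    (hv : ∀ p : Lp K k, p ≠ 0 →
        IsGreatest ((fun e => Real.exp (dg ξ e)) '' (p.coeff.support : Set (Fin k → ℤ)))
          (v (algebraMap (Lp K k) (FractionRing (Lp K k)) p)))
    (e : Fin k → ℤ) (a : K) (ha : a ≠ 0) :
    v (algebraMap (Lp K k) (FractionRing (Lp K k)) (AddMonoidAlgebra.single e a)) =
      Real.exp (dg ξ e) := by
  have hs : (AddMonoidAlgebra.single e a : Lp K k).coeff.support = {e} := by
    show (Finsupp.single e a).support = {e}
    exact Finsupp.support_single e ha
  have hne : (AddMonoidAlgebra.single e a : Lp K k) ≠ 0 := by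
    intro h0
    rw [h0] at hs
    have h1 : (0 : Lp K k).coeff.support = ∅ := rfl
    rw [h1] at hs
    exact (Finset.singleton_ne_empty e) hs.symm
  obtain ⟨⟨e', he', h1⟩, _⟩ := hv _ hne
  rw [hs] at he'
  have h2 : e' = e := by simpa using he'
  rw [← h1, h2]

theorem two_rad {K L : Type} [Field K] [CharZero K] [Field L] {k : ℕ} (E : Lp K k →+* L)
    (hE : Function.Injective E)
    (halg : ∀ f : L, ∃ q : Polynomial (Lp K k), q ≠ 0 ∧ q.eval₂ E f = 0) (ξ : Fin k → ℝ)
    (hξ : ξ ≠ 0) (m : ℕ) (hm : 0 < m) (ζ : K) (hζ : IsPrimitiveRoot ζ m) (y : L) (f h : Lp K k)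
    (hh : h ≠ 0) (hyf : y ^ m = E f) (hy : ∀ p q : Lp K k, q ≠ 0 → E q * y ≠ E p)
    (hlow : ∀ e ∈ (f - h ^ m).coeff.support, ∃ e' ∈ h.coeff.support, dg ξ e < m * dg ξ e') :
    Two E ξ := by
  classical
  obtain ⟨v, hna, hv⟩ := gauss_abs (K := K) ξ
  let φ : FractionRing (Lp K k) →+* L := IsFractionRing.lift hE
  have hφ : ∀ p : Lp K k, φ (algebraMap (Lp K k) (FractionRing (Lp K k)) p) = E p := fun p =>
    IsFractionRing.lift_algebraMap hE p
  letI : Algebra (FractionRing (Lp K k)) L := φ.toAlgebra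
  have hal : ∀ x, algebraMap (FractionRing (Lp K k)) L x = φ x := fun x => rfl
  have hinj : Function.Injective (algebraMap (Lp K k) (FractionRing (Lp K k))) :=
    IsFractionRing.injective _ _
  haveI : Algebra.IsAlgebraic (FractionRing (Lp K k)) L := by
    refine ⟨fun x => ?_⟩
    obtain ⟨q, hq, hq0⟩ := halg x
    refine ⟨q.map (algebraMap (Lp K k) (FractionRing (Lp K k))), ?_, ?_⟩
    · intro h0
      apply hq
      exact (Polynomial.map_eq_zero_iff hinj).1 h0
    · rw [Polynomial.aeval_def, Polynomial.eval₂_map]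
      have h1 : (algebraMap (FractionRing (Lp K k)) L).comp
          (algebraMap (Lp K k) (FractionRing (Lp K k))) = E := RingHom.ext fun p => hφ p
      rw [h1, hq0]
  let κ : K →+* FractionRing (Lp K k) := (algebraMap (Lp K k) (FractionRing (Lp K k))).comp lC
  have hκ : Function.Injective κ := κ.injective
  haveI : CharZero (FractionRing (Lp K k)) := charZero_of_injective_ringHom hκ
  have hEh : E h ≠ 0 := by
    intro h0
    exact hh (hE (by rw [h0, map_zero]))
  have hah : algebraMap (Lp K k) (FractionRing (Lp K k)) h ≠ 0 := by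
    intro h0
    exact hh (hinj (by rw [h0, map_zero]))
  -- nontriviality
  have hnt : v.IsNontrivial := by
    obtain ⟨l, hl⟩ := Function.ne_iff.1 hξ
    refine ⟨algebraMap (Lp K k) (FractionRing (Lp K k))
      (AddMonoidAlgebra.single (Pi.single l 1) 1), ?_, ?_⟩
    · intro h0
      have h1 := td_single ξ v hv (Pi.single l 1) (1 : K) one_ne_zero
      rw [h0, map_zero] at h1
      exact (Real.exp_pos _).ne h1
    · rw [td_single ξ v hv (Pi.single l 1) (1 : K) one_ne_zero]
      have h1 : dg ξ (Pi.single l 1) = ξ l := by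
        unfold dg
        rw [Finset.sum_eq_single l]
        · simp
        · intro b _ hb
          simp [hb]
        · intro hb
          exact absurd (Finset.mem_univ l) hb
      rw [h1]
      intro h2
      exact hl (Real.exp_eq_one_iff _ |>.1 h2)
  set c : FractionRing (Lp K k) := algebraMap (Lp K k) (FractionRing (Lp K k)) f /
    (algebraMap (Lp K k) (FractionRing (Lp K k)) h) ^ m with hc
  have hz : y / E h ∉ Set.range (algebraMap (FractionRing (Lp K k)) L) := by
    rintro ⟨x, hx⟩
    obtain ⟨a, b, hb, hab⟩ := IsFractionRing.div_surjective (A := Lp K k) x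
    have hb0 : b ≠ 0 := nonZeroDivisors.ne_zero hb
    have hEb : E b ≠ 0 := by
      intro h0
      exact hb0 (hE (by rw [h0, map_zero]))
    apply hy (h * a) b hb0
    rw [hal, ← hab, map_div₀, hφ, hφ] at hx
    rw [div_eq_div_iff hEb hEh] at hx
    rw [map_mul]
    linear_combination -hx
  have hzm : (y / E h) ^ m = algebraMap (FractionRing (Lp K k)) L c := by
    rw [hal, hc, map_div₀, map_pow, hφ, hφ, div_pow, hyf]
  have hc1 : v (c - 1) < 1 := by
    have h1 : c - 1 = algebraMap (Lp K k) (FractionRing (Lp K k)) (f - h ^ m) /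
        (algebraMap (Lp K k) (FractionRing (Lp K k)) h) ^ m := by
      rw [hc, map_sub, map_pow]
      field_simp
    by_cases h0 : f - h ^ m = 0
    · rw [h1, h0, map_zero, zero_div, map_zero]
      exact one_pos
    · obtain ⟨⟨e, he, h2⟩, _⟩ := hv _ h0
      obtain ⟨e', he', h3⟩ := hlow e he
      have h4 : Real.exp (dg ξ e') ≤ v (algebraMap (Lp K k) (FractionRing (Lp K k)) h) :=
        (hv h hh).2 ⟨e', he', rfl⟩
      have h5 : Real.exp (dg ξ e) < v (algebraMap (Lp K k) (FractionRing (Lp K k)) h) ^ m := by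
        calc Real.exp (dg ξ e) < Real.exp (m * dg ξ e') := Real.exp_lt_exp.2 h3
          _ = Real.exp (dg ξ e') ^ m := by rw [Real.exp_nat_mul]
          _ ≤ _ := pow_le_pow_left₀ (Real.exp_pos _).le h4 m
      rw [h1, map_div₀, map_pow, ← h2]
      rw [div_lt_one (lt_trans (Real.exp_pos _) h5)]
      exact h5
  have hpr : IsPrimitiveRoot (κ ζ) m := hζ.map_of_injective hκ
  have hζ' : ∀ l : ℕ, κ ζ ^ l ≠ 1 → v (κ ζ ^ l - 1) = 1 := by
    intro l hl
    have h1 : κ ζ ^ l - 1 = algebraMap (Lp K k) (FractionRing (Lp K k))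
        (AddMonoidAlgebra.single 0 (ζ ^ l - 1)) := by
      have h2 : κ ζ ^ l - 1 = κ (ζ ^ l - 1) := by
        rw [map_sub, map_pow, map_one]
      rw [h2]
      rfl
    have h3 : ζ ^ l - 1 ≠ 0 := by
      intro h4
      apply hl
      rw [← map_pow, sub_eq_zero.1 h4, map_one]
    rw [h1, td_single ξ v hv 0 (ζ ^ l - 1) h3]
    have h5 : dg ξ 0 = 0 := by
      unfold dg
      simp
    rw [h5, Real.exp_zero]
  obtain ⟨ν, ν', hne, h1, h2⟩ := ext_two v hna hnt (y / E h) hz m hm c hzm hc1 (κ ζ) hpr hζ'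
  refine ⟨ν, ν', hne, ?_, ?_⟩
  · intro p hp
    have h3 := h1 (algebraMap (Lp K k) (FractionRing (Lp K k)) p)
    rw [hal, hφ] at h3
    rw [h3]
    exact hv p hp
  · intro p hp
    have h3 := h2 (algebraMap (Lp K k) (FractionRing (Lp K k)) p)
    rw [hal, hφ] at h3
    rw [h3]
    exact hv p hp

end Pool.Agent.Work.MP_e97a4d_nt.CT
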