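import Pool.Agent.Work.MP_e97a4d_nt.CT.NDefs
import Pool.Agent.Work.MP_e97a4d_nt.CT.TwoD

/-!
# CT/NTwo (size M): powers plus lower terms split

`ξ l := dg η (π (Pi.single l 1))`, so `dg ξ e = dg η (π e)` for all `e` (`e = ∑ l, e l • Pi.single l 1`).

PROOF. Choose `ε e : C` with `mon (cu u) e = algebraMap (ε e) * mon (cu w) (π e)` (`hπ`), not zero, multiplicative in `e`
(as in CT/Psi). `Φ : LauN n R →+* Lp C k` with `Φ (single e c) = single (π e) (ρ c * ε e)` (`AddMonoidAlgebra.liftNCRingHom`, as in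
CT/Psi), so `ev (algebraMap C L) w (Φ p) = τ p` for all `p` (additive in `p`, compare on `single e c`:
`AddMonoidAlgebra.addMonoidHom_ext`, `ev_single`). Every exponent of `Φ p` is `π e` for an exponent `e` of `p`.
`H := Φ h`, `G := Φ g`, `F := H ^ M + G`, so `y ^ M = ev _ w F`. Apply `two_rad` (CT/TwoD) to `E := ev (algebraMap C L) w`, `η`, `M`,
`ζ`, `y`, `F`, `H`. `hlow` of `two_rad`: let `e₁` be an exponent of `F - H ^ M = G`, `e₁ = π e` with `e ∈ g.coeff.support`;
`hlow` gives `e' ∈ h.coeff.support` with `dg ξ e < M * dg ξ e'`. Let `μ := ` the maximum of `dg ξ` on the support of `h`.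
`lead ξ h` is the sum of the terms of `h` with `dg ξ = μ`, so `Φ (lead ξ h) ≠ 0` (by `hlead`), and it has an exponent `e₂` with
`dg η e₂ = μ` (all exponents of `Φ (lead ξ h)` have this degree); all exponents of `Φ (h - lead ξ h)` have degree `< μ`, so
`e₂` is an exponent of `H = Φ (lead ξ h) + Φ (h - lead ξ h)`. So `dg η e₁ = dg ξ e < M * dg ξ e' ≤ M * μ = M * dg η e₂`. In
particular `H ≠ 0` (if `g = 0` as well: `lead ξ h` has nonzero value, so `Φ (lead ξ h) ≠ 0` and `H ≠ 0` in the same way).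
`CharZero C` is an instance argument of `two_rad`. `halg`, `hinj`, `hyC` are the remaining hypotheses.
-/

set_option autoImplicit false

noncomputable section

namespace Pool.Agent.Work.MP_e97a4d_nt.CT

open Pool.Agent.Work.UP

private theorem nt_dg_add {k : ℕ} (η : Fin k → ℝ) (a b : Fin k → ℤ) :
    dg η (a + b) = dg η a + dg η b := by
  unfold dg
  rw [← Finset.sum_add_distrib]
  refine Finset.sum_congr rfl fun l _ => ?_
  rw [Pi.add_apply]
  push_cast
  ring

/-- The degree as an additive homomorphism. -/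
private def nt_dgH {k : ℕ} (η : Fin k → ℝ) : (Fin k → ℤ) →+ ℝ where
  toFun := dg η
  map_zero' := by
    unfold dg
    simp
  map_add' := nt_dg_add η

private theorem nt_dg {n k : ℕ} (η : Fin k → ℝ) (π : (Fin n → ℤ) →+ (Fin k → ℤ)) (e : Fin n → ℤ) :
    dg (fun l => dg η (π (Pi.single l 1))) e = dg η (π e) := by
  have he : e = ∑ l, e l • (Pi.single l (1 : ℤ) : Fin n → ℤ) := by
    funext j
    simp [Finset.sum_apply, Pi.single_apply]
  have h1 : dg η (π e) = ((nt_dgH η).comp π) e := rfl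
  rw [h1]
  conv_rhs => rw [he, map_sum]
  unfold dg
  refine Finset.sum_congr rfl fun l _ => ?_
  rw [map_zsmul, zsmul_eq_mul]
  rfl

private theorem nt_lead {R : Type} [CommRing R] {n : ℕ} (ξ : Fin n → ℝ) (p : LauN n R) (e : Fin n → ℤ) :
    ((∀ e' ∈ p.coeff.support, dg ξ e' ≤ dg ξ e) → (lead ξ p).coeff e = p.coeff e) ∧
      ((lead ξ p).coeff e ≠ 0 → e ∈ p.coeff.support ∧ ∀ e' ∈ p.coeff.support, dg ξ e' ≤ dg ξ e) := by
  classical
  have h1 : (lead ξ p).coeff e = if (∀ e' ∈ p.coeff.support,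
      ∑ l, (e' l : ℝ) * ξ l ≤ ∑ l, (e l : ℝ) * ξ l) then p.coeff e else 0 :=
    Finsupp.filter_apply _ _ _
  refine ⟨fun h => ?_, fun h => ?_⟩
  · rw [h1]
    exact if_pos h
  · rw [h1] at h
    split_ifs at h with h2
    · exact ⟨Finsupp.mem_support_iff.2 h, h2⟩
    · exact absurd rfl h

theorem newt_two {C L R : Type} [Field C] [CharZero C] [Field L] [CommRing R] [Algebra C L]
    {n k : ℕ} (u : Fin n → Lˣ) (w : Fin k → Lˣ) (π : (Fin n → ℤ) →+ (Fin k → ℤ))
    (hπ : ∀ a, ∃ c : C, mon (cu u) a = algebraMap C L c * mon (cu w) (π a))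
    (hinj : Function.Injective (ev (algebraMap C L) w))
    (halg : ∀ f : L, ∃ q : Polynomial (Lp C k), q ≠ 0 ∧ q.eval₂ (ev (algebraMap C L) w) f = 0)
    (ρ : R →+* C) (τ : LauN n R →+* L)
    (hτ : ∀ e c, τ (AddMonoidAlgebra.single e c) = algebraMap C L (ρ c) * mon (cu u) e)
    (M : ℕ) (hM : 0 < M) (ζ : C) (hζ : IsPrimitiveRoot ζ M) (h g : LauN n R) (y : L)
    (hy : y ^ M = τ (h ^ M + g))
    (hyC : ∀ p q : Lp C k, q ≠ 0 → ev (algebraMap C L) w q * y ≠ ev (algebraMap C L) w p)
    (η : Fin k → ℝ) (hη : η ≠ 0)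
    (hlow : ∀ e ∈ g.coeff.support, ∃ e' ∈ h.coeff.support,
      dg (fun l => dg η (π (Pi.single l 1))) e < M * dg (fun l => dg η (π (Pi.single l 1))) e')
    (hlead : τ (lead (fun l => dg η (π (Pi.single l 1))) h) ≠ 0) :
    Two (ev (algebraMap C L) w) η := by
  classical
  choose ε hε using hπ
  have hmw : ∀ a, mon (cu w) a ≠ 0 := mon_ne_zero w
  have hε0 : ε 0 = 1 := by
    have h1 := hε 0
    rw [map_zero, mon_zero, mon_zero, mul_one] at h1
    exact (algebraMap C L).injective (by rw [← h1, map_one])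
  have hεa : ∀ a b, ε (a + b) = ε a * ε b := by
    intro a b
    apply (algebraMap C L).injective
    apply mul_right_cancel₀ (hmw (π (a + b)))
    rw [← hε, mon_add, hε a, hε b, map_add, mon_add, map_mul]
    ring
  let εH : Multiplicative (Fin n → ℤ) →* Lp C k :=
    { toFun := fun e => AddMonoidAlgebra.single (π e.toAdd) (ε e.toAdd)
      map_one' := by
        show AddMonoidAlgebra.single (π 0) (ε 0) = _
        rw [map_zero, hε0]
        rfl
      map_mul' := by
        intro a b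
        show AddMonoidAlgebra.single (π (a.toAdd + b.toAdd)) (ε (a.toAdd + b.toAdd)) = _
        rw [AddMonoidAlgebra.single_mul_single, map_add, hεa] }
  let Φ : LauN n R →+* Lp C k :=
    AddMonoidAlgebra.liftNCRingHom ((lC : C →+* Lp C k).comp ρ) εH (fun _ _ => Commute.all _ _)
  have hΦ : ∀ e c, Φ (AddMonoidAlgebra.single e c) = AddMonoidAlgebra.single (π e) (ρ c * ε e) := by
    intro e c
    have h1 : Φ (AddMonoidAlgebra.single e c) =
        AddMonoidAlgebra.single 0 (ρ c) * AddMonoidAlgebra.single (π e) (ε e) := by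
      simp [Φ, εH, lC]
    rw [h1, AddMonoidAlgebra.single_mul_single, zero_add]
  have hev : (ev (algebraMap C L) w).comp Φ = τ := by
    apply RingHom.coe_addMonoidHom_injective
    apply AddMonoidAlgebra.addMonoidHom_ext
    intro e c
    show ev (algebraMap C L) w (Φ (AddMonoidAlgebra.single e c)) = τ (AddMonoidAlgebra.single e c)
    rw [hΦ, ev_single, hτ, hε, map_mul, mul_assoc]
  have hev' : ∀ p, ev (algebraMap C L) w (Φ p) = τ p := fun p => RingHom.congr_fun hev p
  have hco : ∀ (p : LauN n R) (A : Finset (Fin n → ℤ)), p.coeff.support ⊆ A → ∀ g,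
      (Φ p).coeff g = ∑ e ∈ A, if π e = g then ρ (p.coeff e) * ε e else 0 := by
    intro p A hA g
    have h1 : Φ p = ∑ e ∈ A, AddMonoidAlgebra.single (π e) (ρ (p.coeff e) * ε e) := by
      conv_lhs => rw [← AddMonoidAlgebra.sum_coeff_single p]
      unfold Finsupp.sum
      rw [map_sum]
      simp_rw [hΦ]
      refine Finset.sum_subset hA fun e _ he => ?_
      rw [Finsupp.notMem_support_iff.1 he, map_zero, zero_mul]
      simp
    rw [h1, AddMonoidAlgebra.coeff_sum, Finsupp.finsetSum_apply]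
    refine Finset.sum_congr rfl fun e _ => ?_
    exact Finsupp.single_apply
  set ξ : Fin n → ℝ := fun l => dg η (π (Pi.single l 1)) with hξ
  have hdg : ∀ e, dg ξ e = dg η (π e) := fun e => nt_dg η π e
  -- an exponent of the leading form
  have hne : Φ (lead ξ h) ≠ 0 := by
    intro h0
    apply hlead
    rw [← hev', h0, map_zero]
  obtain ⟨e₂, he₂⟩ : ∃ e₂, (Φ (lead ξ h)).coeff e₂ ≠ 0 := by
    by_contra hcon
    push Not at hcon
    apply hne
    ext g
    exact hcon g
  have hsub : (lead ξ h).coeff.support ⊆ h.coeff.support := fun e he =>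
    ((nt_lead ξ h e).2 (Finsupp.mem_support_iff.1 he)).1
  have h2 := hco (lead ξ h) h.coeff.support hsub e₂
  rw [h2] at he₂
  obtain ⟨e0, he0, h3⟩ := Finset.exists_ne_zero_of_sum_ne_zero he₂
  have hπe0 : π e0 = e₂ := by
    by_contra hcon
    rw [if_neg hcon] at h3
    exact h3 rfl
  have hl0 : (lead ξ h).coeff e0 ≠ 0 := by
    intro h0
    rw [if_pos hπe0, h0, map_zero, zero_mul] at h3
    exact h3 rfl
  have hmax := ((nt_lead ξ h e0).2 hl0).2
  have hHe : (Φ h).coeff e₂ ≠ 0 := by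
    rw [hco h h.coeff.support (Finset.Subset.refl _)]
    convert he₂ using 1
    refine Finset.sum_congr rfl fun e _ => ?_
    by_cases hπe : π e = e₂
    · rw [if_pos hπe, if_pos hπe, (nt_lead ξ h e).1]
      intro e' he'
      have h4 := hmax e' he'
      rwa [hdg e0, hπe0, ← hπe, ← hdg] at h4
    · rw [if_neg hπe, if_neg hπe]
  have hH0 : Φ h ≠ 0 := by
    intro h0
    rw [h0] at hHe
    exact hHe rfl
  refine two_rad (ev (algebraMap C L) w) hinj halg η hη M hM ζ hζ y (Φ (h ^ M + g)) (Φ h) hH0 ?_ hyC ?_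
  · rw [hev']
    exact hy
  · intro e₁ he₁
    have h4 : Φ (h ^ M + g) - Φ h ^ M = Φ g := by
      rw [map_add, map_pow]
      ring
    rw [h4, Finsupp.mem_support_iff, hco g g.coeff.support (Finset.Subset.refl _)] at he₁
    obtain ⟨e, he, h5⟩ := Finset.exists_ne_zero_of_sum_ne_zero he₁
    have hπe : π e = e₁ := by
      by_contra hcon
      rw [if_neg hcon] at h5
      exact h5 rfl
    obtain ⟨e', he', h6⟩ := hlow e he
    refine ⟨e₂, Finsupp.mem_support_iff.2 hHe, ?_⟩
    have h7 := hmax e' he'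
    have h8 : (0 : ℝ) < M := by exact_mod_cast hM
    rw [← hπe, ← hπe0, ← hdg, ← hdg]
    exact lt_of_lt_of_le h6 (mul_le_mul_of_nonneg_left h7 h8.le)

end Pool.Agent.Work.MP_e97a4d_nt.CT
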