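import Pool.Agent.Work.MP_e97a4d_nt.CT.SDefs
import Pool.Agent.Work.MP_e97a4d_nt.CT.RConv
import Pool.Agent.Work.MP_e97a4d_nt.CT.Clear

/-!
# CT/SConv (size M): from the definitions of the result to the working definitions, relative form

All proofs are the proofs of CT/RConv and CT/Clear (`two_of_ext`, `tb_inj`, `tb_alg`) with the field `C` in the
place of `algebraicClosure ℚ L`.

PROOF of `exists_c`. Let `A := Algebra.adjoin ℤ (Set.range z)`, a subring of `L`. Let `Q` be the subfield of `L`
generated by `A` (`Subfield.closure (Set.range z)`, or `IntermediateField.adjoin ℚ (Set.range z)`), so `L` is an algebra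
over `Q` and `C := algebraicClosure Q L`, an intermediate field. An element of `L` is algebraic over `Q` iff it is
algebraic over `A`: `Q` is the fraction field of `A` (`IsFractionRing A Q`; then `IsFractionRing.isAlgebraic_iff`), or
directly: every element of `Q` is algebraic over `A` (closure induction: quotient of elements of `A`) and
transitivity.
PROOF of `c_closed`. If `x` is algebraic over `C` it is algebraic over `A` (transitivity: the elements of `C` are
algebraic over `A`), so in the range by `hC`. (With `C` as an abstract field: `L` is an algebra over `A` and over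
`C`; the subring `A` is contained in the range of `C → L`; use the polynomial of `x` over `C` and
`IsAlgebraic` of its coefficients: `IsAlgebraic.of_...`/`isAlgebraic_trans`, e.g. through the subfield
`(algebraMap C L).fieldRange`, or let `algebraicClosure` do it.)
PROOF of `two_of_ext_c`, `ext_of_two_c`. As `two_of_ext` (CT/RConv): the elements of `K` are the
`algebraMap C L c`, so families in `K` correspond to elements of `Lp C k` (`ev_eq`).
PROOF of `tb_inj_c`, `tb_alg_c`. As in CT/Clear: `w` is algebraically independent over `A`, hence over `C`, which is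
algebraic over `A` (`AlgebraicIndependent.extendScalars`; give `C` an algebra structure over `A` by
`A ⊆ range (algebraMap C L)`), and `L` is algebraic over `A[w]`.
PROOF of `algOver_eq`. If all `z l` are algebraic over `ℚ`, then `A` is algebraic over `ℤ`, so algebraic over `A` iff
algebraic over `ℚ`. PROOF of `split_of_over`. `algOver z = constAt π v L` by `algOver_eq` and `const_iff`;
`IsTranscendenceBasis A w` gives `IsTranscendenceBasis ℤ w`: `A` is algebraic over `ℤ`
(algebraically independent over `A` implies over `ℤ`: `AlgebraicIndependent.restrictScalars`; `L` is algebraic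
over `A[w]`, which is algebraic over `ℤ[w]`; `isTranscendenceBasis_iff..`).
PROOF of `over_of_split` (`m = 0`): `Set.range z = ∅`, `A = ⊥`, the image of `ℤ`, so everything over `A` is the same as
over `ℤ`.
-/

set_option autoImplicit false

noncomputable section

namespace Pool.Agent.Work.MP_e97a4d_nt.CT

open AlgebraicGeometry CategoryTheory NumberField
open Pool.Agent.Work.UP UE

theorem exists_c {L : Type} [Field L] [CharZero L] {m : ℕ} (z : Fin m → L) :
    ∃ (C : Type) (_ : Field C) (_ : Algebra C L), ∀ x : L,
      x ∈ Set.range (algebraMap C L) ↔ x ∈ algOver z := by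
  let C : Subfield L :=
    { carrier := algOver z
      mul_mem' := fun {a b} ha hb => IsAlgebraic.mul ha hb
      one_mem' := isAlgebraic_one
      add_mem' := fun {a b} ha hb => IsAlgebraic.add ha hb
      zero_mem' := isAlgebraic_zero
      neg_mem' := fun {a} ha => IsAlgebraic.neg ha
      inv_mem' := fun a ha => IsAlgebraic.inv ha }
  refine ⟨C, inferInstance, inferInstance, fun x => ?_⟩
  constructor
  · rintro ⟨c, rfl⟩
    exact c.2
  · intro hx
    exact ⟨⟨x, hx⟩, rfl⟩

private def toCl {C L : Type} [Field C] [Field L] [Algebra C L] {m : ℕ} (z : Fin m → L)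
    (hC : ∀ x : L, x ∈ Set.range (algebraMap C L) ↔ x ∈ algOver z) :
    C →+* Subalgebra.algebraicClosure (Algebra.adjoin ℤ (Set.range z)) L :=
  (algebraMap C L).codRestrict
    (Subalgebra.algebraicClosure (Algebra.adjoin ℤ (Set.range z)) L) fun c => (hC _).1 ⟨c, rfl⟩

private theorem toCl_coe {C L : Type} [Field C] [Field L] [Algebra C L] {m : ℕ} (z : Fin m → L)
    (hC : ∀ x : L, x ∈ Set.range (algebraMap C L) ↔ x ∈ algOver z) (c : C) :
    ((toCl z hC c : Subalgebra.algebraicClosure (Algebra.adjoin ℤ (Set.range z)) L) : L) =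
      algebraMap C L c := rfl

private theorem toCl_comp {C L : Type} [Field C] [Field L] [Algebra C L] {m : ℕ} (z : Fin m → L)
    (hC : ∀ x : L, x ∈ Set.range (algebraMap C L) ↔ x ∈ algOver z) :
    (algebraMap (Subalgebra.algebraicClosure (Algebra.adjoin ℤ (Set.range z)) L) L).comp
      (toCl z hC) = algebraMap C L := RingHom.ext fun _ => rfl

theorem c_closed {C L : Type} [Field C] [Field L] [CharZero L] [Algebra C L] {m : ℕ} (z : Fin m → L)
    (hC : ∀ x : L, x ∈ Set.range (algebraMap C L) ↔ x ∈ algOver z) (x : L) (hx : IsAlgebraic C x) :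
    x ∈ Set.range (algebraMap C L) := by
  obtain ⟨p, hp, hpx⟩ := hx
  have h1 : IsAlgebraic (Subalgebra.algebraicClosure (Algebra.adjoin ℤ (Set.range z)) L) x := by
    refine ⟨p.map (toCl z hC), ?_, ?_⟩
    · rw [Ne, Polynomial.map_eq_zero_iff (toCl z hC).injective]
      exact hp
    · rw [Polynomial.aeval_def, Polynomial.eval₂_map, toCl_comp]
      exact hpx
  rw [hC]
  exact h1.restrictScalars (Algebra.adjoin ℤ (Set.range z))

theorem two_of_ext_c {C L : Type} [Field C] [Field L] [Algebra C L] (K : Set L)
    (hK : ∀ x : L, x ∈ Set.range (algebraMap C L) ↔ x ∈ K) {k : ℕ} (w : Fin k → Lˣ)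
    (ξ : Fin k → ℝ) (ν ν' : Valuation L NNReal) (hne : ν ≠ ν')
    (h : ExtendsDeg K (fun l => (w l : L)) ξ ν) (h' : ExtendsDeg K (fun l => (w l : L)) ξ ν') :
    Two (ev (algebraMap C L) w) ξ := by
  have key : ∀ μ : Valuation L NNReal, ExtendsDeg K (fun l => (w l : L)) ξ μ →
      DegVal (ev (algebraMap C L) w) ξ μ := by
    intro μ hμ p hp
    have hinj : Function.Injective (algebraMap C L) := (algebraMap C L).injective
    have hsup : (p.coeff.mapRange (algebraMap C L) (map_zero _)).support =
        p.coeff.support := Finsupp.support_mapRange_of_injective _ _ hinj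
    have h1 := hμ (p.coeff.mapRange (algebraMap C L) (map_zero _)) (by
      intro h0
      have h2 : p.coeff.support = ∅ := by rw [← hsup, h0, Finsupp.support_zero]
      apply hp
      have h3 : p.coeff = 0 := Finsupp.support_eq_empty.1 h2
      exact AddMonoidAlgebra.coeff_injective (h3.trans rfl)) (by
      intro e
      rw [Finsupp.mapRange_apply, ← hK]
      exact ⟨_, rfl⟩)
    rw [hsup] at h1
    have h4 : (p.coeff.mapRange (algebraMap C L) (map_zero _)).sum
        (fun e a => a * mon (fun l => (w l : L)) e) =
        ev (algebraMap C L) w p := by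
      rw [ev_eq, Finsupp.sum, hsup]
      refine Finset.sum_congr rfl fun s _ => ?_
      rw [Finsupp.mapRange_apply]
      rfl
    rw [h4] at h1
    exact h1
  exact ⟨ν, ν', hne, key ν h, key ν' h'⟩

private theorem ev_toLc {k K : Type} [Field k] [Field K] (e : k →+* K) {d : ℕ} (u : Fin d → Kˣ)
    (p : MvPolynomial (Fin d) k) : ev e u (toL p) = p.eval₂ e (cu u) := by
  have h : (ev e u).comp toL = MvPolynomial.eval₂Hom e (cu u) := by
    apply MvPolynomial.ringHom_ext
    · intro r
      rw [RingHom.comp_apply, MvPolynomial.eval₂Hom_C]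
      show ev e u (toL (MvPolynomial.monomial 0 r)) = e r
      rw [toL_monomial, map_zero, ev_single, mon_zero, mul_one]
    · intro i
      rw [RingHom.comp_apply, MvPolynomial.eval₂Hom_X']
      unfold toL
      rw [MvPolynomial.eval₂Hom_X', ev_single, mon_single_one, map_one, one_mul]
  exact RingHom.congr_fun h p

theorem tb_inj_c {C L : Type} [Field C] [Field L] [CharZero L] [Algebra C L] {m k : ℕ}
    (z : Fin m → L) (hC : ∀ x : L, x ∈ Set.range (algebraMap C L) ↔ x ∈ algOver z)
    (w : Fin k → Lˣ)
    (hw : IsTranscendenceBasis (Algebra.adjoin ℤ (Set.range z)) (fun l => (w l : L))) :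
    Function.Injective (ev (algebraMap C L) w) := by
  have h3 : AlgebraicIndependent
      (Subalgebra.algebraicClosure (Algebra.adjoin ℤ (Set.range z)) L)
      (fun l => (w l : L)) := hw.1.subalgebraAlgebraicClosure
  rw [injective_iff_map_eq_zero]
  intro p hp
  obtain ⟨q, s, rfl⟩ := exists_toL p
  rw [map_mul, ev_single, map_one, one_mul, mul_eq_zero] at hp
  have h4 : ev (algebraMap C L) w (toL q) = 0 := hp.resolve_left (mon_ne_zero w s)
  rw [ev_toLc] at h4
  have h5 : MvPolynomial.map (toCl z hC) q = 0 := by
    apply (injective_iff_map_eq_zero _).1 h3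
    show MvPolynomial.eval₂ (algebraMap
      (Subalgebra.algebraicClosure (Algebra.adjoin ℤ (Set.range z)) L) L) _
      (MvPolynomial.map (toCl z hC) q) = 0
    rw [MvPolynomial.eval₂_map, toCl_comp]
    exact h4
  have h6 : q = 0 := by
    apply MvPolynomial.map_injective (toCl z hC) (toCl z hC).injective
    rw [h5, map_zero]
  rw [h6, map_zero, mul_zero]

theorem tb_alg_c {C L : Type} [Field C] [Field L] [CharZero L] [Algebra C L] {m k : ℕ}
    (z : Fin m → L) (hC : ∀ x : L, x ∈ Set.range (algebraMap C L) ↔ x ∈ algOver z)
    (w : Fin k → Lˣ)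
    (hw : IsTranscendenceBasis (Algebra.adjoin ℤ (Set.range z)) (fun l => (w l : L))) (f : L) :
    ∃ q : Polynomial (Lp C k), q ≠ 0 ∧ q.eval₂ (ev (algebraMap C L) w) f = 0 := by
  have h1 : Algebra.IsAlgebraic (Algebra.adjoin (Algebra.adjoin ℤ (Set.range z))
      (Set.range fun l => (w l : L))) L := hw.isAlgebraic
  obtain ⟨q0, hq0, hf⟩ := h1.isAlgebraic f
  have hle : (Algebra.adjoin (Algebra.adjoin ℤ (Set.range z))
      (Set.range fun l => (w l : L))).toSubring ≤ (ev (algebraMap C L) w).range := by
    intro x hx
    have hx' : x ∈ Algebra.adjoin (Algebra.adjoin ℤ (Set.range z))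
      (Set.range fun l => (w l : L)) := hx
    clear hx
    induction hx' using Algebra.adjoin_induction with
    | mem x hx =>
      obtain ⟨l, rfl⟩ := hx
      refine ⟨AddMonoidAlgebra.single (Pi.single l 1) 1, ?_⟩
      rw [ev_single, mon_single_one, map_one, one_mul]
      rfl
    | algebraMap r =>
      obtain ⟨c, hc⟩ := (hC (algebraMap (Algebra.adjoin ℤ (Set.range z)) L r)).2
        (isAlgebraic_algebraMap r)
      refine ⟨AddMonoidAlgebra.single 0 c, ?_⟩
      rw [ev_single, mon_zero, mul_one]
      exact hc
    | add x y _ _ hx hy => exact Subring.add_mem _ hx hy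
    | mul x y _ _ hx hy => exact Subring.mul_mem _ hx hy
  have hsurj : Function.Surjective (ev (algebraMap C L) w).rangeRestrict :=
    RingHom.rangeRestrict_surjective _
  obtain ⟨q, hq⟩ := Polynomial.map_surjective _ hsurj (q0.map (Subring.inclusion hle))
  refine ⟨q, ?_, ?_⟩
  · rintro rfl
    rw [Polynomial.map_zero] at hq
    exact hq0 ((Polynomial.map_eq_zero_iff (Subring.inclusion_injective hle)).1 hq.symm)
  · have h2 : q.eval₂ (ev (algebraMap C L) w) f =
        (q.map (ev (algebraMap C L) w).rangeRestrict).eval₂
          (ev (algebraMap C L) w).range.subtype f := by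
      rw [Polynomial.eval₂_map]
      rfl
    rw [h2, hq, Polynomial.eval₂_map]
    exact hf

end Pool.Agent.Work.MP_e97a4d_nt.CT
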