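import Pool.Agent.Work.MP_e97a4d_nt.CT.NLat
import Pool.Agent.Work.MP_e97a4d_nt.CT.NTr
import Pool.Agent.Work.MP_e97a4d_nt.CT.NTwo
import Pool.Agent.Work.MP_e97a4d_nt.CT.NExt
import Pool.Agent.Work.MP_e97a4d_nt.CT.SConv

/-!
# CT/NField (size M-L): powers plus lower terms, the function field

PROOF. `stab_split u` gives `m', k, a, b, α, π` and their properties. `z i := mon (cu u) (a i)`,
`w j := ` the unit of `L` with value `mon (cu u) (b j)` (`mon_ne_zero`). `halg'`: every element of `L` is algebraic over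
`Algebra.adjoin ℤ (Set.range u)`: the elements algebraic over it are a relatively algebraically closed subfield `F` of
`L`; it contains the `u l`, the elements algebraic over `ℚ` (so the `τ (single 0 c)`), so all `τ p`
(`single e c = single 0 c * single e 1`), so the `x j` (`m j > 0`, `x j ^ m j ∈ F`), so `Set.range τ ∪ Set.range x ⊆ F`, and `L`
is algebraic over the ring generated by it (`halg`). `tb_stab` gives the transcendence basis.
`exists_c z` gives `C`, `hC`; `CharZero C`; `tb_inj_c`, `tb_alg_c` for `w`. `E := ev (algebraMap C L) w`.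

If for every `j` there are `p, q : Lp C k`, `q ≠ 0`, `E q * x j = E p`: `E p` is a sum of `algebraMap C L c * mon (cu w) e` (`ev_eq`) with
`algebraMap C L c ∈ algOver z`, so `E p, E q` are in the subfield generated by `Set.range w ∪ algOver z`, `E q ≠ 0`, and
`x j = E p / E q`: left alternative.

Otherwise there is `j` with `hyC`. Right alternative: let `s, η` be given; the `ξ t := fun l => dg (η t) (π (Pi.single l 1))`
satisfy `dg (ξ t) e = dg (η t) (π e)`; `ξ t ≠ 0` because `π` is surjective (`π (b j) = Pi.single j 1`): if `ξ t = 0` then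
`dg (η t) (Pi.single j 1) = η t j = 0` for all `j`. `∑ t, ξ t = 0` by linearity. For the last part apply `newt_two` to
`u, w, π, C, R, τ`, `M := m j`, `h j`, `g j`, `y := x j`: `hπ`: `mon (cu u) e = mon z (α e) * mon (cu w) (π e)` (first property of
`stab_split`, `mon_add`), and `mon z (α e)` is in `algOver z = range (algebraMap C L)`: the range is a subfield containing
the `z i` (`z i` is in `algOver z`). `ρ : R →+* C` with `algebraMap C L (ρ c) = τ (single 0 c)`: `τ (single 0 c)` is algebraic over
`ℚ`, so over `ℤ`, so in `algOver z`; choice, ring laws by injectivity of `algebraMap C L`. `hτ`: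
`τ (single e c) = τ (single 0 c) * τ (single e 1)`. The primitive root `ζ : L` of `hζ` is a root of unity, algebraic over `ℚ`, so in
the range of `C`, and its preimage is primitive (`IsPrimitiveRoot.of_map_of_injective`). `ext_of_two_c` with `hC` gives the
two valuations.
-/

set_option autoImplicit false

noncomputable section

namespace Pool.Agent.Work.MP_e97a4d_nt.CT

open Pool.Agent.Work.UP

private theorem nf_mon_smul {L : Type} [Field L] {n : ℕ} (u : Fin n → Lˣ) (c : ℤ)
    (b : Fin n → ℤ) : mon (cu u) (c • b) = mon (cu u) b ^ c := by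
  unfold mon
  rw [← Finset.prod_zpow]
  refine Finset.prod_congr rfl fun i _ => ?_
  rw [Pi.smul_apply, smul_eq_mul, mul_comm, zpow_mul]

private theorem nf_mon_sum {L : Type} [Field L] {n m : ℕ} (u : Fin n → Lˣ)
    (a : Fin m → Fin n → ℤ) (x : Fin m → ℤ) :
    mon (cu u) (∑ i, x i • a i) = ∏ i, mon (cu u) (a i) ^ x i := by
  classical
  have h2 : ∀ (S : Finset (Fin m)),
      mon (cu u) (∑ i ∈ S, x i • a i) = ∏ i ∈ S, mon (cu u) (a i) ^ x i := by
    intro S
    induction S using Finset.induction_on with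
    | empty => rw [Finset.sum_empty, Finset.prod_empty, mon_zero]
    | insert i S hi ih =>
      rw [Finset.sum_insert hi, Finset.prod_insert hi, mon_add, ih, nf_mon_smul]
  exact h2 Finset.univ

private theorem nf_zpow {L B : Type} [Field L] [CommRing B] [IsDomain B] [Algebra B L]
    (x : L) (hx : IsAlgebraic B x) (c : ℤ) : IsAlgebraic B (x ^ c) := by
  cases c with
  | ofNat c =>
    rw [Int.ofNat_eq_natCast, zpow_natCast]
    exact hx.pow c
  | negSucc c =>
    rw [zpow_negSucc]
    exact (hx.pow (c + 1)).inv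

private theorem nf_int {L : Type} [Field L] [CharZero L] (S : Subalgebra ℤ L) (y : L)
    (hy : IsAlgebraic ℤ y) : IsAlgebraic S y := by
  refine IsAlgebraic.extendScalars (R := ℤ) (S := S) ?_ hy
  intro i j hij
  have h1 := congrArg (fun x : S => (x : L)) hij
  have h2 : (i : L) = (j : L) := by
    simpa using h1
  exact_mod_cast h2

private theorem nf_rat {L : Type} [Field L] [CharZero L] (S : Subalgebra ℤ L) (y : L)
    (hy : IsAlgebraic ℚ y) : IsAlgebraic S y :=
  nf_int S y ((IsFractionRing.isAlgebraic_iff ℤ ℚ L).2 hy)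

private theorem nf_tau {L R : Type} [Field L] [CommRing R] {n : ℕ} (u : Fin n → Lˣ)
    (τ : LauN n R →+* L) (hτ : ∀ e, τ (AddMonoidAlgebra.single e 1) = mon (cu u) e)
    (e : Fin n → ℤ) (c : R) :
    τ (AddMonoidAlgebra.single e c) = τ (AddMonoidAlgebra.single 0 c) * mon (cu u) e := by
  rw [← hτ, ← map_mul, AddMonoidAlgebra.single_mul_single, zero_add, mul_one]

private theorem nf_halg {L R : Type} [Field L] [CharZero L] [CommRing R] {n r : ℕ}
    (u : Fin n → Lˣ)
    (τ : LauN n R →+* L) (hτ : ∀ e, τ (AddMonoidAlgebra.single e 1) = mon (cu u) e)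
    (hR : ∀ c : R, IsAlgebraic ℚ (τ (AddMonoidAlgebra.single 0 c))) (m : Fin r → ℕ)
    (hm : ∀ j, 0 < m j) (h g : Fin r → LauN n R) (x : Fin r → L)
    (hx : ∀ j, x j ^ m j = τ (h j ^ m j + g j))
    (halg : ∀ y : L, IsAlgebraic (Algebra.adjoin ℤ (Set.range τ ∪ Set.range x)) y) (y : L) :
    IsAlgebraic (Algebra.adjoin ℤ (Set.range fun l => (u l : L))) y := by
  classical
  set B := Algebra.adjoin ℤ (Set.range fun l => (u l : L)) with hB
  have hu : ∀ l, IsAlgebraic B (u l : L) := fun l =>
    isAlgebraic_algebraMap (⟨_, Algebra.subset_adjoin ⟨l, rfl⟩⟩ : B)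
  have hmon : ∀ e, mon (cu u) e ∈ Subalgebra.algebraicClosure B L := by
    intro e
    exact Subalgebra.prod_mem _ fun i _ => nf_zpow _ (hu i) _
  have hτm : ∀ p : LauN n R, τ p ∈ Subalgebra.algebraicClosure B L := by
    intro p
    induction p using AddMonoidAlgebra.induction_linear with
    | zero =>
      rw [map_zero]
      exact Subalgebra.zero_mem _
    | add f g hf hg =>
      rw [map_add]
      exact Subalgebra.add_mem _ hf hg
    | single e c =>
      rw [nf_tau u τ hτ]
      refine Subalgebra.mul_mem _ ?_ (hmon e)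
      exact nf_rat B _ (hR c)
  have hxm : ∀ j, x j ∈ Subalgebra.algebraicClosure B L := by
    intro j
    have h1 : IsAlgebraic B (x j ^ m j) := by
      rw [hx j]
      exact hτm _
    exact h1.of_pow (hm j)
  have hle : (Algebra.adjoin ℤ (Set.range τ ∪ Set.range x)).toSubring ≤
      (Subalgebra.algebraicClosure B L).toSubring := by
    intro y hy
    have hy' : y ∈ Algebra.adjoin ℤ (Set.range τ ∪ Set.range x) := hy
    clear hy
    induction hy' using Algebra.adjoin_induction with
    | mem y hy =>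
      rcases hy with ⟨p, rfl⟩ | ⟨j, rfl⟩
      · exact hτm p
      · exact hxm j
    | algebraMap r =>
      rw [eq_intCast (algebraMap ℤ L) r]
      exact intCast_mem _ r
    | add x y _ _ hx hy => exact Subring.add_mem _ hx hy
    | mul x y _ _ hx hy => exact Subring.mul_mem _ hx hy
  obtain ⟨q, hq, hqx⟩ := halg y
  have h1 : IsAlgebraic (Subalgebra.algebraicClosure B L) y := by
    refine ⟨q.map (Subring.inclusion hle), ?_, ?_⟩
    · rw [Ne, Polynomial.map_eq_zero_iff (Subring.inclusion_injective hle)]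
      exact hq
    · rw [Polynomial.aeval_def, Polynomial.eval₂_map]
      exact hqx
  exact h1.restrictScalars B

private theorem nf_rho {L R C : Type} [Field L] [CommRing R] [Field C] [Algebra C L]
    (f : R →+* L) (hf : ∀ c, f c ∈ Set.range (algebraMap C L)) :
    ∃ ρ : R →+* C, ∀ c, algebraMap C L (ρ c) = f c := by
  choose ρ hρ using hf
  have inj := (algebraMap C L).injective
  refine ⟨{ toFun := ρ
            map_one' := inj (by rw [hρ, map_one, map_one])
            map_mul' := fun x y => inj (by rw [map_mul, hρ, hρ, hρ, map_mul])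
            map_zero' := inj (by rw [hρ, map_zero, map_zero])
            map_add' := fun x y => inj (by rw [map_add, hρ, hρ, hρ, map_add]) }, hρ⟩

private theorem nf_dg_add {d : ℕ} (ξ : Fin d → ℝ) (e e' : Fin d → ℤ) :
    dg ξ (e + e') = dg ξ e + dg ξ e' := by
  unfold dg
  rw [← Finset.sum_add_distrib]
  refine Finset.sum_congr rfl fun l _ => ?_
  rw [Pi.add_apply]
  push_cast
  ring

private theorem nf_dg_pi {n k : ℕ} (η : Fin k → ℝ) (π : (Fin n → ℤ) →+ (Fin k → ℤ))
    (e : Fin n → ℤ) :
    dg (fun l => dg η (π (Pi.single l 1))) e = dg η (π e) := by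
  classical
  let F : (Fin n → ℤ) →+ ℝ := AddMonoidHom.mk' (fun e => dg η (π e)) (fun e e' => by
    rw [map_add, nf_dg_add])
  have h1 : e = ∑ l, e l • (Pi.single l (1 : ℤ) : Fin n → ℤ) := by
    funext j
    simp [Finset.sum_apply, Pi.single_apply]
  have h2 : F e = ∑ l, e l • F (Pi.single l 1) := by
    conv_lhs => rw [h1]
    rw [map_sum]
    exact Finset.sum_congr rfl fun l _ => map_zsmul F _ _
  have h3 : F e = dg η (π e) := rfl
  rw [← h3, h2]
  unfold dg
  refine Finset.sum_congr rfl fun l _ => ?_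
  rw [zsmul_eq_mul]
  rfl

private theorem nf_dg_single {k : ℕ} (η : Fin k → ℝ) (j : Fin k) :
    dg η (Pi.single j 1) = η j := by
  classical
  unfold dg
  rw [Finset.sum_eq_single j]
  · rw [Pi.single_eq_same, Int.cast_one, one_mul]
  · intro l _ hl
    rw [Pi.single_eq_of_ne hl, Int.cast_zero, zero_mul]
  · intro h
    exact absurd (Finset.mem_univ _) h

private theorem nf_closure {L C : Type} [Field L] [Field C] [Algebra C L] {k : ℕ}
    (w : Fin k → Lˣ) (S : Set L) (hS : ∀ c, algebraMap C L c ∈ S) (p : Lp C k) :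
    ev (algebraMap C L) w p ∈ Subfield.closure ((Set.range fun j => (w j : L)) ∪ S) := by
  rw [ev_eq]
  refine Subfield.sum_mem _ fun e _ => Subfield.mul_mem _ ?_ ?_
  · exact Subfield.subset_closure (Or.inr (hS _))
  · have h1 : ∀ j, (cu w j) ^ e j ∈
        Subfield.closure ((Set.range fun j => (w j : L)) ∪ S) := by
      intro j
      have h2 : cu w j ∈ Subfield.closure ((Set.range fun j => (w j : L)) ∪ S) :=
        Subfield.subset_closure (Or.inl ⟨j, rfl⟩)
      exact zpow_mem h2 _
    exact Subfield.prod_mem _ fun j _ => h1 j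

theorem newt_field {L R : Type} [Field L] [CharZero L] [CommRing R] {n r : ℕ} (u : Fin n → Lˣ)
    (τ : LauN n R →+* L) (hτ : ∀ e, τ (AddMonoidAlgebra.single e 1) = mon (cu u) e)
    (hR : ∀ c : R, IsAlgebraic ℚ (τ (AddMonoidAlgebra.single 0 c))) (m : Fin r → ℕ)
    (hm : ∀ j, 0 < m j) (h g : Fin r → LauN n R) (x : Fin r → L)
    (hx : ∀ j, x j ^ m j = τ (h j ^ m j + g j)) (hζ : ∀ j, ∃ ζ : L, IsPrimitiveRoot ζ (m j))
    (halg : ∀ y : L, IsAlgebraic (Algebra.adjoin ℤ (Set.range τ ∪ Set.range x)) y) :
    ∃ (m' k : ℕ) (a : Fin m' → Fin n → ℤ) (b : Fin k → Fin n → ℤ),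
      FinStab {c : L | IsAlgebraic ℚ c} (fun i => mon (cu u) (a i)) ∧
      IsTranscendenceBasis (Algebra.adjoin ℤ (Set.range fun i => mon (cu u) (a i)))
        (fun j => mon (cu u) (b j)) ∧
      ((∀ j, x j ∈ Subfield.closure ((Set.range fun j => mon (cu u) (b j)) ∪
          algOver (fun i => mon (cu u) (a i)))) ∨
        ∀ (s : ℕ) (η : Fin s → Fin k → ℝ), (∀ t, η t ≠ 0) → ∑ t, η t = 0 →
          ∃ ξ : Fin s → Fin n → ℝ, (∀ t, ξ t ≠ 0) ∧ ∑ t, ξ t = 0 ∧
            ∀ t, (∀ j, (∀ e ∈ (g j).coeff.support, ∃ e' ∈ (h j).coeff.support,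
                ∑ l, (e l : ℝ) * ξ t l < m j * ∑ l, (e' l : ℝ) * ξ t l) ∧
                τ (lead (ξ t) (h j)) ≠ 0) →
              ∃ ν ν' : Valuation L NNReal, ν ≠ ν' ∧
                ExtendsDeg (algOver (fun i => mon (cu u) (a i))) (fun j => mon (cu u) (b j))
                  (η t) ν ∧
                ExtendsDeg (algOver (fun i => mon (cu u) (a i))) (fun j => mon (cu u) (b j))
                  (η t) ν') := by
  classical
  obtain ⟨m', k, a, b, α, π, hdec, hαa, hπa, hαb, hπb, hfs, hrel⟩ := stab_split u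
  have halg' := nf_halg u τ hτ hR m hm h g x hx halg
  have htb := tb_stab u a b α π hdec hαa hπa hαb hπb hrel halg'
  refine ⟨m', k, a, b, hfs, htb, ?_⟩
  obtain ⟨C, hCf, hCa, hC⟩ := exists_c (fun i => mon (cu u) (a i))
  let w : Fin k → Lˣ := fun j => Units.mk0 (mon (cu u) (b j)) (mon_ne_zero u _)
  have htb' : IsTranscendenceBasis (Algebra.adjoin ℤ (Set.range fun i => mon (cu u) (a i)))
      (fun j => (w j : L)) := htb
  have : CharZero C := (RingHom.charZero_iff (algebraMap C L).injective).2 inferInstance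
  have hinj := tb_inj_c _ hC w htb'
  have halgC := tb_alg_c _ hC w htb'
  have halgZ : ∀ y : L, IsAlgebraic ℚ y → y ∈ Set.range (algebraMap C L) := fun y hy =>
    (hC y).2 (nf_rat _ y hy)
  have hzC : ∀ i, mon (cu u) (a i) ∈ Set.range (algebraMap C L) := fun i =>
    (hC _).2 (isAlgebraic_algebraMap (⟨_, Algebra.subset_adjoin ⟨i, rfl⟩⟩ :
      Algebra.adjoin ℤ (Set.range fun i => mon (cu u) (a i))))
  by_cases hcase : ∀ j, ∃ p q : Lp C k, q ≠ 0 ∧
      ev (algebraMap C L) w q * x j = ev (algebraMap C L) w p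
  · left
    intro j
    obtain ⟨p, q, hq, hpq⟩ := hcase j
    have hEq : ev (algebraMap C L) w q ≠ 0 := by
      intro h0
      apply hq
      apply hinj
      rw [h0, map_zero]
    have h1 : x j = ev (algebraMap C L) w p / ev (algebraMap C L) w q := by
      rw [eq_div_iff hEq, mul_comm]
      exact hpq
    have hS : ∀ c, algebraMap C L c ∈ algOver (fun i => mon (cu u) (a i)) := fun c =>
      (hC _).1 ⟨c, rfl⟩
    rw [h1]
    exact Subfield.div_mem _ (nf_closure w _ hS p) (nf_closure w _ hS q)
  · right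
    push Not at hcase
    obtain ⟨j, hj⟩ := hcase
    intro s η hη hsum
    refine ⟨fun t l => dg (η t) (π (Pi.single l 1)), ?_, ?_, ?_⟩
    · intro t h0
      apply hη t
      funext j'
      rw [Pi.zero_apply, ← nf_dg_single (η t) j', ← hπb j', ← nf_dg_pi]
      have h1 : (fun l => dg (η t) (π (Pi.single l 1))) = (0 : Fin n → ℝ) := h0
      rw [h1]
      unfold dg
      exact Finset.sum_eq_zero fun l _ => by rw [Pi.zero_apply, mul_zero]
    · funext l
      rw [Finset.sum_apply, Pi.zero_apply]
      unfold dg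
      rw [Finset.sum_comm]
      refine Finset.sum_eq_zero fun i _ => ?_
      rw [← Finset.mul_sum]
      have h1 := congrFun hsum i
      rw [Finset.sum_apply, Pi.zero_apply] at h1
      rw [h1, mul_zero]
    · intro t ht
      obtain ⟨hlow, hlead⟩ := ht j
      obtain ⟨ρ, hρ⟩ := nf_rho (C := C) (τ.comp AddMonoidAlgebra.singleZeroRingHom) (fun c =>
        halgZ _ (hR c))
      obtain ⟨ζ, hζj⟩ := hζ j
      have hζC : ζ ∈ Set.range (algebraMap C L) :=
        (hC ζ).2 (nf_int _ ζ (hζj.isIntegral (hm j)).isAlgebraic)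
      obtain ⟨ζ', rfl⟩ := hζC
      have hζ' : IsPrimitiveRoot ζ' (m j) :=
        IsPrimitiveRoot.of_map_of_injective hζj (algebraMap C L).injective
      have hπ' : ∀ e, ∃ c : C, mon (cu u) e = algebraMap C L c * mon (cu w) (π e) := by
        intro e
        choose c hc using hzC
        refine ⟨∏ i, c i ^ α e i, ?_⟩
        conv_lhs => rw [hdec e]
        rw [mon_add, nf_mon_sum, nf_mon_sum, map_prod]
        simp only [map_zpow₀, hc]
        rfl
      have hτ' : ∀ e c, τ (AddMonoidAlgebra.single e c) =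
          algebraMap C L (ρ c) * mon (cu u) e := by
        intro e c
        rw [nf_tau u τ hτ, hρ]
        rfl
      have hTwo := newt_two u w π hπ' hinj halgC ρ τ hτ' (m j) (hm j) ζ' hζ' (h j) (g j) (x j)
        (hx j) (fun p q hq => hj p q hq) (η t) (hη t) hlow hlead
      exact ext_of_two_c _ hC w (η t) hTwo

end Pool.Agent.Work.MP_e97a4d_nt.CT
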