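import Pool.Agent.Work.MP_e97a4d_nt.CT.SDefs
import Pool.Agent.Work.MP_e97a4d_nt.CT.Defs
import Pool.Agent.Work.MP_e97a4d_nt.CT.Lat

/-!
# CT/NLat (size M-L): units modulo the stabilizer of their set of values

For a finitely supported family `p` with values in `L` write `val p := p.sum fun e c => c * mon (cu u) e` (additive in
`p`), and call `p` a relation if all `p e` are algebraic over `ℚ` and `val p = 0`. For `ξ : Fin n → ℤ` write
`⟨ξ, e⟩ := ∑ l, e l * ξ l`, and `part ξ c p := p.filter (⟨ξ, e⟩ = c)`.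

PROOF. `Λ := {ξ : Fin n → ℤ | for every relation p and every c, part ξ c p is a relation}`, a subgroup of `Fin n → ℤ`:
(sum) if `ξ, ξ' ∈ Λ` then `part ξ c (part ξ' c' p)` is a relation, and `part (ξ + ξ') c p` is the sum of these over the
finitely many pairs `(c'', c')` with `c'' + c' = c` which occur; (negative) `part (-ξ) c p = part ξ (-c) p`.
`R := {e | ∀ ξ ∈ Λ, ⟨ξ, e⟩ = 0}`, a saturated subgroup (`ℤ` has no torsion). `lat` gives `k` and a surjective
`π : (Fin n → ℤ) →+ (Fin k → ℤ)` with kernel `R`.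

(1) Parts for `π`. `Λ` is finitely generated (subgroup of a finite free group: `IsNoetherian ℤ`), `ξ_1, ..., ξ_s`. For
`e, e'`: `π e = π e'` iff `e - e' ∈ R` iff `⟨ξ_i, e⟩ = ⟨ξ_i, e'⟩` for all `i` (the set of `ξ` with `⟨ξ, e - e'⟩ = 0` is a subgroup).
For `g : Fin k → ℤ` choose `e₀` with `π e₀ = g`: then `p.filter (π e = g)` is the iterated part of `p` for
`ξ_i, ⟨ξ_i, e₀⟩` (`Finsupp.filter` of a conjunction over `i`, induction on the list of the `ξ_i`), a relation if `p` is.

(2) Bases. `R` is a free group of finite rank `m` (submodule of a free module over a principal ideal domain: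
`Submodule.basisOfPid` or `Module.Free`, `Module.finBasis ℤ R`), with basis `a`. Choose `b j` with `π (b j) = Pi.single j 1`.
For `e` let `π' e := e - ∑ j, π e j • b j ∈ R`, additive in `e`, and `α e :=` the coordinates of `π' e` in the basis `a`.
The first five properties are clear.

(3) `FinStab`. Let `ζ : Fin m → ℤ`, `ζ ≠ 0`, and `ξ l := ∑ i, ζ i * α (Pi.single l 1) i`, so `⟨ξ, e⟩ = ∑ i, ζ i * α e i` for all
`e`. `ξ ∉ Λ`, for otherwise `⟨ξ, a i⟩ = 0` (as `a i ∈ R`), but `⟨ξ, a i⟩ = ζ i`. So there are a relation `p` and `c` with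
`val (part ξ c p) ≠ 0`. `p` is the sum of the `p_g := p.filter (π e = g)` over the finitely many `g` which occur, so there is
`g` with `val (part ξ c p_g) ≠ 0`, and `p_g` is a relation by (1). For `e` with `π e = g`:
`mon (cu u) e = (∏ i, z i ^ α e i) * W`, `z i := mon (cu u) (a i)`, `W := mon (cu u) (∑ j, g j • b j) ≠ 0` (first property and
`mon_add`), i.e. `mon (cu u) e = mon z (α e) * W`, and `α` is injective on these `e`. Let
`p' := ∑ e ∈ p_g.support, single (α e) (p e)` (`Finsupp.mapDomain α p_g`). Then `p'.sum (c * mon z e) * W = val p_g = 0`, and the part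
of `p'` where `∑ i, e' i * ζ i = c` has the value `val (part ξ c p_g) / W ≠ 0` (`Finsupp.filter_mapDomain`-like; write both as
sums over `e ∈ p_g.support`). The coefficients of `p'` are coefficients of `p` or zero (`α` injective), algebraic.
-/

set_option autoImplicit false

noncomputable section

namespace Pool.Agent.Work.MP_e97a4d_nt.CT

open Pool.Agent.Work.UP

/-- The value of a family at the units, additively. -/
private def nlVal {L : Type} [Field L] {n : ℕ} (u : Fin n → Lˣ) : ((Fin n → ℤ) →₀ L) →+ L :=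
  Finsupp.liftAddHom fun e => AddMonoidHom.mulRight (mon (cu u) e)

private theorem nlVal_apply {L : Type} [Field L] {n : ℕ} (u : Fin n → Lˣ) (p : (Fin n → ℤ) →₀ L) :
    nlVal u p = p.sum fun e c => c * mon (cu u) e := by
  unfold nlVal
  rw [Finsupp.liftAddHom_apply]
  rfl

private def nlPair {n : ℕ} (ξ e : Fin n → ℤ) : ℤ := ∑ l, e l * ξ l

private theorem nlPair_add_left {n : ℕ} (ξ ξ' e : Fin n → ℤ) :
    nlPair (ξ + ξ') e = nlPair ξ e + nlPair ξ' e := by
  unfold nlPair
  rw [← Finset.sum_add_distrib]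
  exact Finset.sum_congr rfl fun l _ => by rw [Pi.add_apply, mul_add]

private theorem nlPair_neg_left {n : ℕ} (ξ e : Fin n → ℤ) : nlPair (-ξ) e = -nlPair ξ e := by
  unfold nlPair
  rw [← Finset.sum_neg_distrib]
  exact Finset.sum_congr rfl fun l _ => by rw [Pi.neg_apply, mul_neg]

private theorem nlPair_zero_left {n : ℕ} (e : Fin n → ℤ) : nlPair 0 e = 0 := by
  simp [nlPair]

private theorem nlPair_add_right {n : ℕ} (ξ e e' : Fin n → ℤ) :
    nlPair ξ (e + e') = nlPair ξ e + nlPair ξ e' := by
  unfold nlPair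
  rw [← Finset.sum_add_distrib]
  exact Finset.sum_congr rfl fun l _ => by rw [Pi.add_apply, add_mul]

private theorem nlPair_smul_right {n : ℕ} (ξ e : Fin n → ℤ) (c : ℤ) :
    nlPair ξ (c • e) = c * nlPair ξ e := by
  unfold nlPair
  rw [Finset.mul_sum]
  exact Finset.sum_congr rfl fun l _ => by rw [Pi.smul_apply, smul_eq_mul, mul_assoc]

private theorem nlPair_zero_right {n : ℕ} (ξ : Fin n → ℤ) : nlPair ξ 0 = 0 := by
  simp [nlPair]

private theorem nlPair_neg_right {n : ℕ} (ξ e : Fin n → ℤ) : nlPair ξ (-e) = -nlPair ξ e := by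
  have h := nlPair_add_right ξ e (-e)
  rw [add_neg_cancel, nlPair_zero_right] at h
  linarith

/-- A relation. -/
private def NlRel {L : Type} [Field L] [CharZero L] {n : ℕ} (u : Fin n → Lˣ)
    (p : (Fin n → ℤ) →₀ L) : Prop :=
  (∀ e, IsAlgebraic ℚ (p e)) ∧ nlVal u p = 0

private theorem nl_alg_filter {L : Type} [Field L] [CharZero L] {n : ℕ}
    {p : (Fin n → ℤ) →₀ L} (hp : ∀ e, IsAlgebraic ℚ (p e)) (P : (Fin n → ℤ) → Prop)
    [DecidablePred P] (e : Fin n → ℤ) : IsAlgebraic ℚ (p.filter P e) := by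
  rw [Finsupp.filter_apply]
  split_ifs
  · exact hp e
  · exact isAlgebraic_zero

/-- A family is the sum of its parts. -/
private theorem nl_fibers {L : Type} [Field L] {n : ℕ} {κ : Type} [DecidableEq κ]
    (F : (Fin n → ℤ) → κ) (p : (Fin n → ℤ) →₀ L) (S : Finset κ)
    (hS : ∀ e ∈ p.support, F e ∈ S) :
    p = ∑ g ∈ S, p.filter fun e => F e = g := by
  ext e
  rw [Finsupp.finsetSum_apply]
  simp only [Finsupp.filter_apply]
  by_cases he : p e = 0
  · simp [he]
  · rw [Finset.sum_ite_eq, if_pos (hS e (Finsupp.mem_support_iff.2 he))]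

private theorem nl_filter_comm {L : Type} [Field L] {n : ℕ} (p : (Fin n → ℤ) →₀ L)
    (P Q P' Q' : (Fin n → ℤ) → Prop) [DecidablePred P] [DecidablePred Q] [DecidablePred P']
    [DecidablePred Q'] (h : ∀ e, (P e ∧ Q e) ↔ (P' e ∧ Q' e)) :
    (p.filter P).filter Q = (p.filter P').filter Q' := by
  ext e
  simp only [Finsupp.filter_apply]
  have := h e
  by_cases hP : P e <;> by_cases hQ : Q e <;> by_cases hP' : P' e <;> by_cases hQ' : Q' e <;>
    simp_all

/-- The group of the weights all whose parts of relations are relations. -/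
private def nlLam {L : Type} [Field L] [CharZero L] {n : ℕ} (u : Fin n → Lˣ) :
    AddSubgroup (Fin n → ℤ) where
  carrier := {ξ | ∀ p, NlRel u p → ∀ c, nlVal u (p.filter fun e => nlPair ξ e = c) = 0}
  zero_mem' := by
    intro p hp c
    by_cases hc : c = 0
    · have : (p.filter fun e => nlPair 0 e = c) = p := by
        ext e
        rw [Finsupp.filter_apply, if_pos (by rw [nlPair_zero_left, hc])]
      rw [this]
      exact hp.2
    · have : (p.filter fun e => nlPair 0 e = c) = 0 := by
        ext e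
        rw [Finsupp.filter_apply, if_neg (by rw [nlPair_zero_left]; exact fun h => hc h.symm)]
        rfl
      rw [this, map_zero]
  add_mem' := by
    intro ξ ξ' hξ hξ' p hp c
    set q := p.filter fun e => nlPair (ξ + ξ') e = c with hq
    rw [nl_fibers (nlPair ξ') q (q.support.image (nlPair ξ'))
      (fun e he => Finset.mem_image_of_mem _ he), map_sum]
    refine Finset.sum_eq_zero fun c' _ => ?_
    have h1 : (q.filter fun e => nlPair ξ' e = c') =
        (p.filter fun e => nlPair ξ' e = c').filter fun e => nlPair ξ e = c - c' := by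
      rw [hq]
      refine nl_filter_comm p _ _ _ _ fun e => ?_
      rw [nlPair_add_left]
      constructor
      · rintro ⟨h1, h2⟩
        exact ⟨h2, by linarith⟩
      · rintro ⟨h1, h2⟩
        exact ⟨by linarith, h1⟩
    rw [h1]
    exact hξ _ ⟨nl_alg_filter hp.1 _, hξ' p hp c'⟩ _
  neg_mem' := by
    intro ξ hξ p hp c
    have : (p.filter fun e => nlPair (-ξ) e = c) = p.filter fun e => nlPair ξ e = -c := by
      ext e
      rw [Finsupp.filter_apply, Finsupp.filter_apply, nlPair_neg_left]
      by_cases h : -nlPair ξ e = c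
      · rw [if_pos h, if_pos (by linarith)]
      · rw [if_neg h, if_neg (fun h' => h (by linarith))]
    rw [this]
    exact hξ p hp _

private theorem nl_iter {L : Type} [Field L] [CharZero L] {n : ℕ} (u : Fin n → Lˣ)
    (s : Finset (Fin n → ℤ)) (hs : ∀ ξ ∈ s, ξ ∈ nlLam u) (c : (Fin n → ℤ) → ℤ)
    (p : (Fin n → ℤ) →₀ L) (hp : NlRel u p) :
    NlRel u (p.filter fun e => ∀ ξ ∈ s, nlPair ξ e = c ξ) := by
  classical
  induction s using Finset.induction_on with
  | empty =>
    have : (p.filter fun e => ∀ ξ ∈ (∅ : Finset (Fin n → ℤ)), nlPair ξ e = c ξ) = p := by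
      ext e
      rw [Finsupp.filter_apply, if_pos (by simp)]
    rw [this]
    exact hp
  | insert a s ha ih =>
    have h1 := ih fun ξ hξ => hs ξ (Finset.mem_insert_of_mem hξ)
    have h2 : (p.filter fun e => ∀ ξ ∈ insert a s, nlPair ξ e = c ξ) =
        (p.filter fun e => ∀ ξ ∈ s, nlPair ξ e = c ξ).filter fun e => nlPair a e = c a := by
      ext e
      simp only [Finsupp.filter_apply, Finset.mem_insert, forall_eq_or_imp]
      by_cases h3 : nlPair a e = c a <;> by_cases h4 : ∀ ξ ∈ s, nlPair ξ e = c ξ <;>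
        simp [h3, h4]
    rw [h2]
    exact ⟨nl_alg_filter h1.1 _, hs a (Finset.mem_insert_self _ _) _ h1 _⟩

private theorem nl_mon_sum {L : Type} [Field L] {n m : ℕ} (u : Fin n → Lˣ)
    (a : Fin m → Fin n → ℤ) (x : Fin m → ℤ) :
    mon (cu u) (∑ i, x i • a i) = mon (fun i => mon (cu u) (a i)) x := by
  classical
  have hz : ∀ (c : ℤ) (b : Fin n → ℤ), mon (cu u) (c • b) = mon (cu u) b ^ c := by
    intro c b
    unfold mon
    rw [← Finset.prod_zpow]
    refine Finset.prod_congr rfl fun i _ => ?_
    rw [Pi.smul_apply, smul_eq_mul, mul_comm, zpow_mul]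
  have h2 : ∀ (S : Finset (Fin m)),
      mon (cu u) (∑ i ∈ S, x i • a i) = ∏ i ∈ S, mon (cu u) (a i) ^ x i := by
    intro S
    induction S using Finset.induction_on with
    | empty => rw [Finset.sum_empty, Finset.prod_empty, mon_zero]
    | insert i S hi ih => rw [Finset.sum_insert hi, Finset.prod_insert hi, mon_add, ih, hz]
  rw [h2 Finset.univ]
  rfl

private theorem nl_map_filter {L : Type} [Field L] {n m : ℕ} (α : (Fin n → ℤ) → (Fin m → ℤ))
    (P : (Fin n → ℤ) →₀ L) (Q : (Fin m → ℤ) → Prop) [DecidablePred Q] :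
    (P.mapDomain α).filter Q = (P.filter fun e => Q (α e)).mapDomain α := by
  classical
  induction P using Finsupp.induction_linear with
  | zero =>
    rw [Finsupp.mapDomain_zero, Finsupp.filter_zero, Finsupp.filter_zero, Finsupp.mapDomain_zero]
  | add f g hf hg =>
    rw [Finsupp.mapDomain_add, Finsupp.filter_add, hf, hg, Finsupp.filter_add,
      Finsupp.mapDomain_add]
  | single e c =>
    rw [Finsupp.mapDomain_single]
    by_cases h : Q (α e)
    · have h' : (fun e => Q (α e)) e := h
      rw [Finsupp.filter_single_of_pos _ h, Finsupp.filter_single_of_pos (fun e => Q (α e)) h',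
        Finsupp.mapDomain_single]
    · have h' : ¬ (fun e => Q (α e)) e := h
      rw [Finsupp.filter_single_of_neg _ h, Finsupp.filter_single_of_neg (fun e => Q (α e)) h',
        Finsupp.mapDomain_zero]

private theorem nl_map_alg {L : Type} [Field L] [CharZero L] {n m : ℕ}
    (α : (Fin n → ℤ) → (Fin m → ℤ)) (P : (Fin n → ℤ) →₀ L) (hP : ∀ e, IsAlgebraic ℚ (P e))
    (e' : Fin m → ℤ) : IsAlgebraic ℚ (P.mapDomain α e') := by
  classical
  unfold Finsupp.mapDomain
  rw [Finsupp.sum_apply]
  unfold Finsupp.sum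
  generalize P.support = S
  induction S using Finset.induction_on with
  | empty =>
    rw [Finset.sum_empty]
    exact isAlgebraic_zero
  | insert a S ha ih =>
    rw [Finset.sum_insert ha]
    refine IsAlgebraic.add ?_ ih
    change IsAlgebraic ℚ ((Finsupp.single (α a) (P a)) e')
    rw [Finsupp.single_apply]
    split_ifs
    · exact hP a
    · exact isAlgebraic_zero

private theorem nl_map_val {L : Type} [Field L] {n m : ℕ} (u : Fin n → Lˣ)
    (a : Fin m → Fin n → ℤ) (α : (Fin n → ℤ) → (Fin m → ℤ)) (w : Fin n → ℤ)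
    (P : (Fin n → ℤ) →₀ L) (hP : ∀ e ∈ P.support, e = ∑ i, α e i • a i + w) :
    ((P.mapDomain α).sum fun e c => c * mon (fun i => mon (cu u) (a i)) e) * mon (cu u) w =
      nlVal u P := by
  rw [nlVal_apply, Finsupp.sum_mapDomain_index (fun b => by rw [zero_mul])
    (fun b c d => by rw [add_mul])]
  unfold Finsupp.sum
  rw [Finset.sum_mul]
  refine Finset.sum_congr rfl fun e he => ?_
  have h1 : mon (cu u) e = mon (fun i => mon (cu u) (a i)) (α e) * mon (cu u) w := by
    conv_lhs => rw [hP e he, mon_add, nl_mon_sum]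
  change P e * mon (fun i => mon (cu u) (a i)) (α e) * mon (cu u) w = P e * mon (cu u) e
  rw [h1, mul_assoc]

theorem stab_split {L : Type} [Field L] [CharZero L] {n : ℕ} (u : Fin n → Lˣ) :
    ∃ (m k : ℕ) (a : Fin m → Fin n → ℤ) (b : Fin k → Fin n → ℤ)
      (α : (Fin n → ℤ) →+ (Fin m → ℤ)) (π : (Fin n → ℤ) →+ (Fin k → ℤ)),
      (∀ e, e = ∑ i, α e i • a i + ∑ j, π e j • b j) ∧
      (∀ i, α (a i) = Pi.single i 1) ∧ (∀ i, π (a i) = 0) ∧
      (∀ j, α (b j) = 0) ∧ (∀ j, π (b j) = Pi.single j 1) ∧
      FinStab {c : L | IsAlgebraic ℚ c} (fun i => mon (cu u) (a i)) ∧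
      ∀ p : (Fin n → ℤ) →₀ L, (∀ e, IsAlgebraic ℚ (p e)) →
        (p.sum fun e c => c * mon (cu u) e) = 0 → ∀ g : Fin k → ℤ,
          ((p.filter fun e => π e = g).sum fun e c => c * mon (cu u) e) = 0 := by
  classical
  set Λ := nlLam u with hΛ
  -- the group of the exponents orthogonal to Λ
  let R : AddSubgroup (Fin n → ℤ) :=
    { carrier := {e | ∀ ξ ∈ Λ, nlPair ξ e = 0}
      zero_mem' := fun ξ _ => nlPair_zero_right ξ
      add_mem' := fun {e e'} he he' ξ hξ => by
        rw [nlPair_add_right, he ξ hξ, he' ξ hξ, add_zero]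
      neg_mem' := fun {e} he ξ hξ => by rw [nlPair_neg_right, he ξ hξ, neg_zero] }
  have hR : ∀ e, e ∈ R ↔ ∀ ξ ∈ Λ, nlPair ξ e = 0 := fun e => Iff.rfl
  obtain ⟨k, π, hπs, hπk⟩ := lat R (by
    intro c a hc ha ξ hξ
    have h := ha ξ hξ
    rw [nlPair_smul_right] at h
    exact (mul_eq_zero.1 h).resolve_left hc)
  -- (1) parts for `π`
  obtain ⟨s, hs⟩ : ∃ s : Finset (Fin n → ℤ), Submodule.span ℤ (s : Set (Fin n → ℤ)) =
      Λ.toIntSubmodule := (IsNoetherian.noetherian Λ.toIntSubmodule)
  have hsΛ : ∀ ξ ∈ s, ξ ∈ Λ := by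
    intro ξ hξ
    have : ξ ∈ Λ.toIntSubmodule := by
      rw [← hs]
      exact Submodule.subset_span hξ
    exact this
  have hspair : ∀ e : Fin n → ℤ, (∀ ξ ∈ s, nlPair ξ e = 0) → e ∈ R := by
    intro e he ξ hξ
    have h1 : ξ ∈ Submodule.span ℤ (s : Set (Fin n → ℤ)) := by
      rw [hs]
      exact hξ
    induction h1 using Submodule.span_induction with
    | mem x hx => exact he x hx
    | zero => exact nlPair_zero_left e
    | add x y _ _ hx hy =>
      rw [nlPair_add_left]
      have hx' : x ∈ Λ := by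
        have : x ∈ Λ.toIntSubmodule := by rw [← hs]; assumption
        exact this
      have hy' : y ∈ Λ := by
        have : y ∈ Λ.toIntSubmodule := by rw [← hs]; assumption
        exact this
      rw [hx hx', hy hy', add_zero]
    | smul c x _ hx =>
      have hx' : x ∈ Λ := by
        have : x ∈ Λ.toIntSubmodule := by rw [← hs]; assumption
        exact this
      have h2 : nlPair (c • x) e = c * nlPair x e := by
        unfold nlPair
        rw [Finset.mul_sum]
        refine Finset.sum_congr rfl fun l _ => ?_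
        rw [Pi.smul_apply, smul_eq_mul]
        ring
      rw [h2, hx hx', mul_zero]
  have hpart : ∀ p, NlRel u p → ∀ g : Fin k → ℤ, NlRel u (p.filter fun e => π e = g) := by
    intro p hp g
    obtain ⟨e₀, he₀⟩ := hπs g
    have h1 := nl_iter u s hsΛ (fun ξ => nlPair ξ e₀) p hp
    have h2 : (p.filter fun e => π e = g) =
        p.filter fun e => ∀ ξ ∈ s, nlPair ξ e = nlPair ξ e₀ := by
      ext e
      rw [Finsupp.filter_apply, Finsupp.filter_apply]
      have h3 : π e = g ↔ ∀ ξ ∈ s, nlPair ξ e = nlPair ξ e₀ := by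
        rw [← he₀, ← sub_eq_zero, ← map_sub, hπk]
        constructor
        · intro h ξ hξ
          have h4 := h ξ (hsΛ ξ hξ)
          rw [sub_eq_add_neg, nlPair_add_right, nlPair_neg_right] at h4
          linarith
        · intro h
          apply hspair
          intro ξ hξ
          rw [sub_eq_add_neg, nlPair_add_right, nlPair_neg_right, h ξ hξ]
          ring
      simp only [h3]
    rw [h2]
    exact h1
  -- (2) bases
  let R' : Submodule ℤ (Fin n → ℤ) := R.toIntSubmodule
  have hR' : ∀ e, e ∈ R' ↔ e ∈ R := fun e => Iff.rfl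
  let bas := Module.finBasis ℤ R'
  let m := Module.finrank ℤ R'
  have hb : ∀ j : Fin k, ∃ b : Fin n → ℤ, π b = Pi.single j 1 := fun j => hπs _
  choose b hb using hb
  let ρ : (Fin n → ℤ) →+ (Fin n → ℤ) := AddMonoidHom.mk' (fun e => e - ∑ j, π e j • b j) (by
    intro e e'
    simp only [map_add, Pi.add_apply, add_smul, Finset.sum_add_distrib]
    abel)
  have hρ : ∀ e, ρ e = e - ∑ j, π e j • b j := fun e => rfl
  have hρπ : ∀ e, π (ρ e) = 0 := by
    intro e
    rw [hρ, map_sub, map_sum]
    have : ∑ j, π (π e j • b j) = π e := by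
      funext i
      rw [Finset.sum_apply]
      rw [Finset.sum_eq_single i]
      · rw [map_zsmul, hb, Pi.smul_apply, Pi.single_eq_same, smul_eq_mul, mul_one]
      · intro j _ hj
        rw [map_zsmul, hb, Pi.smul_apply, Pi.single_eq_of_ne (Ne.symm hj), smul_zero]
      · intro h
        exact absurd (Finset.mem_univ _) h
    rw [this, sub_self]
  have hρR : ∀ e, ρ e ∈ R' := fun e => (hR' _).2 ((hπk _).1 (hρπ e))
  let α : (Fin n → ℤ) →+ (Fin m → ℤ) := AddMonoidHom.mk'
    (fun e => ⇑(bas.repr ⟨ρ e, hρR e⟩)) (by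
      intro e e'
      have : (⟨ρ (e + e'), hρR (e + e')⟩ : R') = ⟨ρ e, hρR e⟩ + ⟨ρ e', hρR e'⟩ := by
        apply Subtype.ext
        exact map_add ρ e e'
      rw [this, map_add]
      rfl)
  have hα : ∀ e, α e = ⇑(bas.repr ⟨ρ e, hρR e⟩) := fun e => rfl
  let a : Fin m → Fin n → ℤ := fun i => (bas i : Fin n → ℤ)
  have hP1 : ∀ e, e = ∑ i, α e i • a i + ∑ j, π e j • b j := by
    intro e
    have h1 := bas.sum_repr ⟨ρ e, hρR e⟩
    have h2 := congrArg (fun x : R' => (x : Fin n → ℤ)) h1
    simp only [Submodule.coe_sum, Submodule.coe_smul] at h2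
    have h3 : ∑ i, α e i • a i = ρ e := h2
    rw [h3, hρ, sub_add_cancel]
  have hP3 : ∀ i, π (a i) = 0 := fun i => (hπk _).2 (bas i).2
  have hP2 : ∀ i, α (a i) = Pi.single i 1 := by
    intro i
    have h1 : (⟨ρ (a i), hρR (a i)⟩ : R') = bas i := by
      apply Subtype.ext
      change ρ (a i) = a i
      rw [hρ, hP3]
      simp
    rw [hα, h1, bas.repr_self, Finsupp.single_eq_pi_single]
  have hP4 : ∀ j, α (b j) = 0 := by
    intro j
    have h1 : (⟨ρ (b j), hρR (b j)⟩ : R') = 0 := by
      apply Subtype.ext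
      change ρ (b j) = 0
      rw [hρ, hb, Finset.sum_eq_single j]
      · rw [Pi.single_eq_same, one_smul, sub_self]
      · intro i _ hi
        rw [Pi.single_eq_of_ne hi, zero_smul]
      · intro h
        exact absurd (Finset.mem_univ _) h
    rw [hα, h1, map_zero]
    rfl
  refine ⟨m, k, a, b, α, π, hP1, hP2, hP3, hP4, hb, ?_, ?_⟩
  · -- (3)
    intro ζ hζ
    let ξ : Fin n → ℤ := fun l => ∑ i, ζ i * α (Pi.single l 1) i
    have hξ : ∀ e, nlPair ξ e = ∑ i, α e i * ζ i := by
      intro e
      have h1 : α e = ∑ l, e l • α (Pi.single l 1) := by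
        conv_lhs => rw [show e = ∑ l, e l • (Pi.single l (1 : ℤ) : Fin n → ℤ) from by
          funext j
          simp [Finset.sum_apply, Pi.single_apply]]
        rw [map_sum]
        exact Finset.sum_congr rfl fun l _ => map_zsmul α _ _
      rw [h1]
      unfold nlPair
      simp only [Finset.sum_apply, Pi.smul_apply, smul_eq_mul, Finset.sum_mul, ξ, Finset.mul_sum]
      rw [Finset.sum_comm]
      refine Finset.sum_congr rfl fun i _ => Finset.sum_congr rfl fun l _ => ?_
      ring
    have hnot : ξ ∉ Λ := by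
      intro h
      apply hζ
      funext i
      have h1 : nlPair ξ (a i) = 0 := (bas i).2 ξ h
      rw [hξ, hP2, Finset.sum_eq_single i] at h1
      · rw [Pi.single_eq_same, one_mul] at h1
        exact h1
      · intro j _ hj
        rw [Pi.single_eq_of_ne hj, zero_mul]
      · intro h
        exact absurd (Finset.mem_univ _) h
    have hnot' : ∃ p, NlRel u p ∧ ∃ c, nlVal u (p.filter fun e => nlPair ξ e = c) ≠ 0 := by
      by_contra hcon
      push Not at hcon
      exact hnot fun p hp c => hcon p hp c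
    obtain ⟨p, hp, c, hc⟩ := hnot'
    set q := p.filter fun e => nlPair ξ e = c with hq
    have hq1 := nl_fibers π q (q.support.image π) (fun e he => Finset.mem_image_of_mem _ he)
    have hq2 : ∃ g, nlVal u (q.filter fun e => π e = g) ≠ 0 := by
      by_contra hcon
      push Not at hcon
      apply hc
      rw [hq1, map_sum]
      exact Finset.sum_eq_zero fun g _ => hcon g
    obtain ⟨g, hg⟩ := hq2
    have hPg := hpart p hp g
    set P := p.filter fun e => π e = g with hP
    have hqP : (q.filter fun e => π e = g) = P.filter fun e => nlPair ξ e = c := by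
      rw [hq, hP]
      exact nl_filter_comm p _ _ _ _ fun e => and_comm
    rw [hqP] at hg
    have hsupp : ∀ e ∈ P.support, e = ∑ i, α e i • a i + ∑ j, g j • b j := by
      intro e he
      have h1 : π e = g := by
        rw [hP, Finsupp.support_filter, Finset.mem_filter] at he
        exact he.2
      conv_lhs => rw [hP1 e, h1]
    have hW : mon (cu u) (∑ j, g j • b j) ≠ 0 := mon_ne_zero u _
    refine ⟨P.mapDomain α, c, fun e => nl_map_alg α P hPg.1 e, ?_, ?_⟩
    · have h1 := nl_map_val u a α (∑ j, g j • b j) P hsupp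
      rw [hPg.2] at h1
      exact (mul_eq_zero.1 h1).resolve_right hW
    · rw [nl_map_filter]
      intro h0
      apply hg
      have h1 : (P.filter fun e => nlPair ξ e = c) = P.filter fun e => ∑ l, α e l * ζ l = c := by
        ext e
        simp only [Finsupp.filter_apply, hξ]
      rw [h1, ← nl_map_val u a α (∑ j, g j • b j) _ ?_, h0, zero_mul]
      intro e he
      rw [Finsupp.support_filter, Finset.mem_filter] at he
      exact hsupp e he.1
  · intro p hpa hp0 g
    have h1 := (hpart p ⟨hpa, by rw [nlVal_apply]; exact hp0⟩ g).2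
    rw [nlVal_apply] at h1
    exact h1

end Pool.Agent.Work.MP_e97a4d_nt.CT
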