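import Pool.Agent.Work.MP_e97a4d_nt.CT.RedEx

/-!
# CT/NewtLev (size M-L): the levels of the shifted elements

`Newt E y m φ lam c`, `y' := y - c l * T ^ lam` (`T ^ lam = E (single (fun _ => lam) 1)`).

PROOF. Notation: `τ := E (single (fun _ => lam) 1)`, a unit of `L`; `P := Lp K 1`; let `P⁰ ⊂ P` be the subring of the
elements all of whose exponents `e` have `e 0 ≤ 0`, and `aug : P⁰ → K` the coefficient of the exponent `0`, a ring
homomorphism (`e 0 + e' 0 = 0` with both `≤ 0` only if both are `0`). (It may be simpler to work with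
`K[X] → P`, `X ↦ single (-1) 1`, whose image is `P⁰`, and `aug =` evaluation at `0`: `Polynomial.eval₂RingHom`.)
Let `ψ i := φ i * single (-(lam * (m - i))) 1 ∈ P⁰` by `Newt.bd`. `z₀ := y * τ⁻¹` satisfies
`z₀ ^ m = ∑ i, E (ψ i) * z₀ ^ i` (divide `Newt.eq` by `τ ^ m`). Let `F⁰ := X ^ m - ∑ i, C (ψ i) * X ^ i ∈ P⁰[X]`, monic of
degree `m`, with `F⁰.map aug = ∏ j, (X - C (c j))` by `Newt.fac`. Let `z := z₀ - c l = y' * τ⁻¹` and
`G := F⁰.comp (X + C (c l))`, monic of degree `m`, `G (z) = 0`, `G.map aug = ∏ j, (X - C (c j - c l))`; by `Newt.ne` some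
`c j ≠ c l`, so `G.map aug` has a nonzero root and does not divide any `X ^ n`.
For `n : ℕ` let `B n i ∈ P⁰` (`i < m`) be the coefficients of `X ^ n %ₘ G`. Then `(X ^ n %ₘ G).map aug =
X ^ n %ₘ G.map aug ≠ 0` (`Polynomial.map_modByMonic`), so some `B n i` has `aug (B n i) ≠ 0`.
And `z ^ n = ∑ i, E (B n i) * z ^ i`, so `y' ^ n = ∑ i, E (A' n i) * y' ^ i` with
`A' n i := B n i * single (lam * (n - i)) 1`, whose coefficient at the exponent `lam * (n - i)` is
`aug (B n i) ≠ 0` for some `i`.

`y'` is integral (monic equation of degree `m`: `A' m`; the `y` itself is integral by `Newt.eq`), so `red_exists`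
gives `Red E y' m' R A`. The powers `y' ^ i`, `i < m`, are independent over `P` (a relation of degree `< m` for `y'`
is one for `y = y' + E (..)` of the same degree and with the same leading coefficient; `Newt.ind`), and so are the
`y' ^ i`, `i < m'`; both `y' ^ m` and `y' ^ m'` are combinations of the lower powers, so `m = m'` (if `m' < m` the
equation `y' ^ m' = ∑ ...` is a nontrivial relation of degree `< m`, and conversely). By independence `A n i = A' n i`
for all `n, i`. So for every `n` there is `i` such that `A n i` has the exponent `e = fun _ => lam * (n - i)`, and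
`dg (fun _ => 1) e = (n - i) * lam`: this is `Lvl`.
-/

set_option autoImplicit false

noncomputable section

namespace Pool.Agent.Work.MP_e97a4d_nt.CT

open Pool.Agent.Work.UP

section

variable {K L : Type} [Field K] [Field L]

/-- `X ↦ T⁻¹`. -/
private def jj (K : Type) [Field K] : Polynomial K →+* Lp K 1 :=
  Polynomial.eval₂RingHom (lC (k := K) (d := 1)) (AddMonoidAlgebra.single (fun _ => (-1 : ℤ)) 1)

private theorem single_pow' (D : ℤ) (n : ℕ) :
    (AddMonoidAlgebra.single (fun _ => D) 1 : Lp K 1) ^ n =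
      AddMonoidAlgebra.single (fun _ => (n : ℤ) * D) 1 := by
  induction n with
  | zero =>
    rw [pow_zero, AddMonoidAlgebra.one_def]
    congr 1
    funext l
    simp
  | succ n ih =>
    rw [pow_succ, ih, AddMonoidAlgebra.single_mul_single, mul_one]
    congr 1
    funext l
    show (n : ℤ) * D + D = ((n + 1 : ℕ) : ℤ) * D
    push_cast
    ring

private theorem jj_monomial (j : ℕ) (a : K) :
    jj K (Polynomial.monomial j a) = AddMonoidAlgebra.single (fun _ => -(j : ℤ)) a := by
  have h1 : jj K (Polynomial.monomial j a) =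
      lC a * (AddMonoidAlgebra.single (fun _ => (-1 : ℤ)) 1 : Lp K 1) ^ j := by
    show Polynomial.eval₂ _ _ _ = _
    rw [Polynomial.eval₂_monomial]
  rw [h1, single_pow']
  show (AddMonoidAlgebra.single 0 a : Lp K 1) * _ = _
  rw [AddMonoidAlgebra.single_mul_single, mul_one, zero_add]
  congr 1
  funext l
  ring

private theorem jj_coeff (q : Polynomial K) (D : ℤ) (k : ℕ) :
    (jj K q * AddMonoidAlgebra.single (fun _ => D) 1 : Lp K 1).coeff (fun _ => D - (k : ℤ)) =
      q.coeff k := by
  induction q using Polynomial.induction_on' with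
  | add p q hp hq =>
    rw [map_add, add_mul, AddMonoidAlgebra.coeff_add, Finsupp.add_apply, hp, hq,
      Polynomial.coeff_add]
  | monomial j a =>
    rw [jj_monomial, AddMonoidAlgebra.single_mul_single, mul_one, AddMonoidAlgebra.coeff_single,
      Polynomial.coeff_monomial, Finsupp.single_apply]
    by_cases h : j = k
    · subst h
      rw [if_pos rfl, if_pos]
      funext l
      show -(j : ℤ) + D = D - (j : ℤ)
      ring
    · rw [if_neg h, if_neg]
      intro h2
      have h3 := congrFun h2 0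
      have h4 : -(j : ℤ) + D = D - (k : ℤ) := h3
      omega

private theorem jj_surj (p : Lp K 1) (D : ℤ) (hp : ∀ e ∈ p.coeff.support, e 0 ≤ D) :
    ∃ q : Polynomial K, jj K q * AddMonoidAlgebra.single (fun _ => D) 1 = p := by
  refine ⟨∑ e ∈ p.coeff.support, Polynomial.monomial (D - e 0).toNat (p.coeff e), ?_⟩
  rw [map_sum, Finset.sum_mul]
  conv_rhs => rw [← AddMonoidAlgebra.sum_coeff_single p]
  unfold Finsupp.sum
  refine Finset.sum_congr rfl fun e he => ?_
  rw [jj_monomial, AddMonoidAlgebra.single_mul_single, mul_one]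
  congr 1
  funext l
  have h1 := hp e he
  have h2 : l = 0 := Subsingleton.elim _ _
  subst h2
  show -((D - e 0).toNat : ℤ) + D = e 0
  rw [Int.toNat_of_nonneg (by omega)]
  ring

/-- A polynomial of degree `< m` with value zero is zero. -/
private theorem pol_zero (E : Lp K 1 →+* L) {y : L} {m : ℕ}
    (hi : ∀ p : Fin m → Lp K 1, ∑ i : Fin m, E (p i) * y ^ (i : ℕ) = 0 → p = 0)
    (Q : Polynomial (Lp K 1)) (hQ : Q.degree < (m : WithBot ℕ)) (h0 : Q.eval₂ E y = 0) : Q = 0 := by
  have h1 : (fun i : Fin m => Q.coeff (i : ℕ)) = 0 := by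
    apply hi
    rcases eq_or_ne Q 0 with h | h
    · rw [h]
      simp
    · have h2 : Q.natDegree < m := by
        rwa [Polynomial.degree_eq_natDegree h, Nat.cast_lt] at hQ
      rw [← h0, Polynomial.eval₂_eq_sum_range' E h2 y]
      exact (Finset.sum_range fun i => E (Q.coeff i) * y ^ i).symm
  ext1 n
  rw [Polynomial.coeff_zero]
  rcases Nat.lt_or_ge n m with h | h
  · exact congrFun h1 ⟨n, h⟩
  · rw [Polynomial.degree_lt_iff_coeff_zero] at hQ
    exact hQ n h

/-- Shifting preserves the independence of the powers. -/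
private theorem ind_shift (E : Lp K 1 →+* L) {y : L} {m : ℕ}
    (hi : ∀ p : Fin m → Lp K 1, ∑ i : Fin m, E (p i) * y ^ (i : ℕ) = 0 → p = 0) (q : Lp K 1) :
    ∀ p : Fin m → Lp K 1, ∑ i : Fin m, E (p i) * (y - E q) ^ (i : ℕ) = 0 → p = 0 := by
  intro p hp
  set P : Polynomial (Lp K 1) := ∑ i : Fin m, Polynomial.C (p i) * Polynomial.X ^ (i : ℕ) with hP
  have hPd : P.degree < (m : WithBot ℕ) := Polynomial.degree_sum_fin_lt p
  have h1 : (P.comp (Polynomial.X - Polynomial.C q)).eval₂ E y = 0 := by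
    rw [Polynomial.eval₂_comp, Polynomial.eval₂_sub, Polynomial.eval₂_X, Polynomial.eval₂_C, hP,
      Polynomial.eval₂_finsetSum, ← hp]
    refine Finset.sum_congr rfl fun i _ => ?_
    simp
  have h2 : P.comp (Polynomial.X - Polynomial.C q) = 0 := by
    by_cases h3 : P = 0
    · rw [h3, Polynomial.zero_comp]
    · refine pol_zero E hi _ ?_ h1
      have h4 : P.natDegree < m := by
        rwa [Polynomial.degree_eq_natDegree h3, Nat.cast_lt] at hPd
      have h5 : (P.comp (Polynomial.X - Polynomial.C q)).natDegree ≤ P.natDegree := by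
        refine Polynomial.natDegree_comp_le.trans ?_
        rw [Polynomial.natDegree_X_sub_C, mul_one]
      refine lt_of_le_of_lt Polynomial.degree_le_natDegree ?_
      exact_mod_cast lt_of_le_of_lt h5 h4
  have h3 : P = 0 := by
    have h4 : (P.comp (Polynomial.X - Polynomial.C q)).comp (Polynomial.X + Polynomial.C q) = P := by
      rw [Polynomial.comp_assoc]
      simp
    rw [← h4, h2, Polynomial.zero_comp]
  funext i
  have h4 : P.coeff (i : ℕ) = p i := by
    rw [hP, Polynomial.finsetSum_coeff, Finset.sum_eq_single i]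
    · rw [Polynomial.coeff_C_mul_X_pow, if_pos rfl]
    · intro j _ hj
      rw [Polynomial.coeff_C_mul_X_pow, if_neg]
      intro h
      exact hj (Fin.ext h.symm)
    · intro h
      exact absurd (Finset.mem_univ i) h
  rw [← h4, h3, Polynomial.coeff_zero]
  rfl

/-- A power of `y` which is a combination of fewer powers. -/
private theorem not_lt_of_ind (E : Lp K 1 →+* L) {y : L} {m n : ℕ} (hn : n < m)
    (hi : ∀ p : Fin m → Lp K 1, ∑ i : Fin m, E (p i) * y ^ (i : ℕ) = 0 → p = 0)
    (A : Fin n → Lp K 1) (h : y ^ n = ∑ i : Fin n, E (A i) * y ^ (i : ℕ)) : False := by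
  set P : Polynomial (Lp K 1) := Polynomial.X ^ n - ∑ i : Fin n, Polynomial.C (A i) * Polynomial.X ^ (i : ℕ)
    with hP
  have hd : (∑ i : Fin n, Polynomial.C (A i) * Polynomial.X ^ (i : ℕ) : Polynomial (Lp K 1)).degree <
      (n : WithBot ℕ) := Polynomial.degree_sum_fin_lt A
  have h1 : P.eval₂ E y = 0 := by
    rw [hP, Polynomial.eval₂_sub, Polynomial.eval₂_X_pow, Polynomial.eval₂_finsetSum, sub_eq_zero, h]
    refine Finset.sum_congr rfl fun i _ => ?_
    simp
  have h2 : P.degree < (m : WithBot ℕ) := by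
    refine lt_of_le_of_lt (Polynomial.degree_sub_le _ _) (max_lt ?_ ?_)
    · exact lt_of_le_of_lt (Polynomial.degree_X_pow_le n) (by exact_mod_cast hn)
    · exact hd.trans (by exact_mod_cast hn)
  have h3 := pol_zero E hi P h2 h1
  have h4 : P.coeff n = 1 := by
    rw [Polynomial.degree_lt_iff_coeff_zero] at hd
    rw [hP, Polynomial.coeff_sub, Polynomial.coeff_X_pow_self, hd n le_rfl, sub_zero]
  rw [h3, Polynomial.coeff_zero] at h4
  exact zero_ne_one h4

/-- The reductions of the powers of the shifted element, with the levels. -/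
private theorem main_red (E : Lp K 1 →+* L) {y : L} {m : ℕ} {φ : Fin m → Lp K 1} {lam : ℤ}
    {c : Fin m → K} (h : Newt E y m φ lam c) (l : Fin m) :
    ∃ A : ℕ → Fin m → Lp K 1,
      (∀ n : ℕ, (y - E (AddMonoidAlgebra.single (fun _ => lam) (c l))) ^ n =
        ∑ i : Fin m, E (A n i) * (y - E (AddMonoidAlgebra.single (fun _ => lam) (c l))) ^ (i : ℕ)) ∧
      ∀ n : ℕ, ∃ i : Fin m, (A n i).coeff (fun _ => lam * ((n : ℤ) - ((i : ℕ) : ℤ))) ≠ 0 := by
  classical
  have hm : 0 < m := by
    have := l.2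
    omega
  -- the element `T ^ lam`
  set τ : L := E (AddMonoidAlgebra.single (fun _ => lam) 1) with hτ
  have hτ' : τ * E (AddMonoidAlgebra.single (fun _ => -lam) 1) = 1 := by
    rw [hτ, ← map_mul, AddMonoidAlgebra.single_mul_single, mul_one]
    have h1 : ((fun _ => lam) + (fun _ => -lam) : Fin 1 → ℤ) = 0 := by
      funext l
      simp
    rw [h1, ← AddMonoidAlgebra.one_def, map_one]
  have hτ0 : τ ≠ 0 := left_ne_zero_of_mul_eq_one hτ'
  have hτpow : ∀ n : ℕ, τ ^ n = E (AddMonoidAlgebra.single (fun _ => lam * (n : ℤ)) 1) := by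
    intro n
    rw [hτ, ← map_pow, single_pow']
    congr 2
    funext l
    ring
  have hτz : ∀ n : ℤ, τ ^ n = E (AddMonoidAlgebra.single (fun _ => lam * n) 1) := by
    intro n
    rcases Int.le_total 0 n with h1 | h1
    · obtain ⟨k, rfl⟩ := Int.eq_ofNat_of_zero_le h1
      rw [zpow_natCast, hτpow]
    · obtain ⟨k, hk⟩ := Int.eq_ofNat_of_zero_le (show 0 ≤ -n by omega)
      have h2 : n = -(k : ℤ) := by omega
      rw [h2, zpow_neg, zpow_natCast, inv_eq_iff_eq_inv]
      refine eq_inv_of_mul_eq_one_left ?_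
      rw [hτpow, ← map_mul, AddMonoidAlgebra.single_mul_single, mul_one]
      have h3 : ((fun _ => lam * (k : ℤ)) + (fun _ => lam * (-(k : ℤ))) : Fin 1 → ℤ) = 0 := by
        funext l
        show lam * (k : ℤ) + lam * (-(k : ℤ)) = 0
        ring
      rw [h3, ← AddMonoidAlgebra.one_def, map_one]
  -- the polynomials over `K[X]`
  choose ψ hψ using fun i => jj_surj (φ i) (lam * ((m : ℤ) - ((i : ℕ) : ℤ))) (h.bd i)
  set J : Polynomial K →+* L := E.comp (jj K) with hJ
  have hψE : ∀ i : Fin m, E (φ i) = J (ψ i) * τ ^ (m - (i : ℕ)) := by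
    intro i
    rw [← hψ i, map_mul, hτpow]
    have h1 : ((m - (i : ℕ) : ℕ) : ℤ) = (m : ℤ) - ((i : ℕ) : ℤ) := by
      have := i.2
      omega
    rw [h1]
    rfl
  set F0 : Polynomial (Polynomial K) := Polynomial.X ^ m -
    ∑ i : Fin m, Polynomial.C (ψ i) * Polynomial.X ^ (i : ℕ) with hF0
  set z0 : L := y * τ⁻¹ with hz0
  have hyz : y = z0 * τ := by
    rw [hz0, mul_assoc, inv_mul_cancel₀ hτ0, mul_one]
  have hF0z : F0.eval₂ J z0 = 0 := by
    rw [hF0, Polynomial.eval₂_sub, Polynomial.eval₂_X_pow, Polynomial.eval₂_finsetSum, sub_eq_zero]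
    have h1 := h.eq
    have h2 : (z0 ^ m) * τ ^ m = (∑ i : Fin m, J (ψ i) * z0 ^ (i : ℕ)) * τ ^ m := by
      rw [← mul_pow, ← hyz, h1, Finset.sum_mul]
      refine Finset.sum_congr rfl fun i _ => ?_
      rw [hψE i]
      conv_lhs => rw [hyz]
      have h3 : τ ^ m = τ ^ (m - (i : ℕ)) * τ ^ (i : ℕ) := by
        rw [← pow_add]
        congr 1
        have := i.2
        omega
      rw [h3, mul_pow]
      ring
    have h3 := mul_right_cancel₀ (pow_ne_zero m hτ0) h2
    rw [h3]
    refine Finset.sum_congr rfl fun i _ => ?_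
    simp
  have hsd : (∑ i : Fin m, Polynomial.C (ψ i) * Polynomial.X ^ (i : ℕ) :
      Polynomial (Polynomial K)).degree < (m : WithBot ℕ) := Polynomial.degree_sum_fin_lt ψ
  have hF0m : F0.Monic := Polynomial.monic_X_pow_sub hsd
  have hF0d : F0.natDegree = m := by
    refine Polynomial.natDegree_eq_of_degree_eq_some ?_
    rw [hF0, Polynomial.degree_sub_eq_left_of_degree_lt, Polynomial.degree_X_pow]
    rw [Polynomial.degree_X_pow]
    exact hsd
  set G : Polynomial (Polynomial K) := F0.comp (Polynomial.X + Polynomial.C (Polynomial.C (c l))) with hG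
  have hGm : G.Monic := hF0m.comp_X_add_C _
  have hGd : G.natDegree = m := by
    rw [hG, Polynomial.natDegree_comp, Polynomial.natDegree_X_add_C, mul_one, hF0d]
  set z : L := z0 - J (Polynomial.C (c l)) with hz
  have hGz : G.eval₂ J z = 0 := by
    rw [hG, Polynomial.eval₂_comp, Polynomial.eval₂_add, Polynomial.eval₂_X, Polynomial.eval₂_C, hz,
      sub_add_cancel, hF0z]
  have hyt : y - E (AddMonoidAlgebra.single (fun _ => lam) (c l)) = z * τ := by
    have h1 : E (AddMonoidAlgebra.single (fun _ => lam) (c l)) = J (Polynomial.C (c l)) * τ := by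
      have h2 : jj K (Polynomial.C (c l)) = AddMonoidAlgebra.single 0 (c l) := by
        show Polynomial.eval₂ _ _ _ = _
        rw [Polynomial.eval₂_C]
        rfl
      rw [hJ, hτ, RingHom.comp_apply, h2, ← map_mul, AddMonoidAlgebra.single_mul_single, mul_one,
        zero_add]
    rw [h1, hz, sub_mul, ← hyz]
  rw [hyt]
  -- the reduction modulo `T⁻¹`
  have haug : G.map Polynomial.constantCoeff =
      (∏ j : Fin m, (Polynomial.X - Polynomial.C (c j))).comp (Polynomial.X + Polynomial.C (c l)) := by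
    rw [hG, Polynomial.map_comp, ← h.fac]
    congr 1
    · rw [hF0, Polynomial.map_sub, Polynomial.map_pow, Polynomial.map_X, Polynomial.map_sum]
      congr 1
      refine Finset.sum_congr rfl fun i _ => ?_
      rw [Polynomial.map_mul, Polynomial.map_pow, Polynomial.map_X, Polynomial.map_C,
        Polynomial.constantCoeff_apply]
      congr 2
      have h1 := jj_coeff (ψ i) (lam * ((m : ℤ) - ((i : ℕ) : ℤ))) 0
      rw [hψ i] at h1
      rw [← h1]
      congr 1
      funext l
      simp
    · simp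
  obtain ⟨j, hj⟩ : ∃ j, c j ≠ c l := by
    obtain ⟨a, b, hab⟩ := h.ne
    by_cases h1 : c a = c l
    · exact ⟨b, fun h2 => hab (h1.trans h2.symm)⟩
    · exact ⟨a, h1⟩
  have hroot : (G.map Polynomial.constantCoeff).eval (c j - c l) = 0 := by
    rw [haug, Polynomial.eval_comp, Polynomial.eval_prod]
    refine Finset.prod_eq_zero (Finset.mem_univ j) ?_
    simp
  have hmG : (G.map Polynomial.constantCoeff).Monic := hGm.map _
  have hBd : ∀ n : ℕ, ((Polynomial.X ^ n : Polynomial (Polynomial K)) %ₘ G).natDegree < m := by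
    intro n
    have h1 := Polynomial.natDegree_modByMonic_lt (Polynomial.X ^ n : Polynomial (Polynomial K)) hGm
      (fun h2 => by rw [h2, Polynomial.natDegree_one] at hGd; omega)
    rwa [hGd] at h1
  have hBne : ∀ n : ℕ, ∃ i : Fin m,
      (((Polynomial.X ^ n : Polynomial (Polynomial K)) %ₘ G).coeff (i : ℕ)).coeff 0 ≠ 0 := by
    intro n
    by_contra hcon
    push Not at hcon
    have h1 : ((Polynomial.X ^ n : Polynomial (Polynomial K)) %ₘ G).map Polynomial.constantCoeff = 0 := by
      ext1 k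
      rw [Polynomial.coeff_map, Polynomial.coeff_zero, Polynomial.constantCoeff_apply]
      rcases Nat.lt_or_ge k m with h2 | h2
      · exact hcon ⟨k, h2⟩
      · rw [Polynomial.coeff_eq_zero_of_natDegree_lt (lt_of_lt_of_le (hBd n) h2), Polynomial.coeff_zero]
    rw [Polynomial.map_modByMonic _ hGm, Polynomial.modByMonic_eq_zero_iff_dvd hmG, Polynomial.map_pow,
      Polynomial.map_X] at h1
    obtain ⟨q, hq⟩ := h1
    have h2 : (Polynomial.X ^ n : Polynomial K).eval (c j - c l) = 0 := by
      rw [hq, Polynomial.eval_mul, hroot, zero_mul]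
    rw [Polynomial.eval_pow, Polynomial.eval_X] at h2
    exact (pow_ne_zero n (sub_ne_zero.2 hj)) h2
  have hzn : ∀ n : ℕ, z ^ n = ∑ i : Fin m,
      J (((Polynomial.X ^ n : Polynomial (Polynomial K)) %ₘ G).coeff (i : ℕ)) * z ^ (i : ℕ) := by
    intro n
    have h1 : (Polynomial.X ^ n : Polynomial (Polynomial K)).eval₂ J z = z ^ n := by simp
    have h2 := Polynomial.modByMonic_add_div (Polynomial.X ^ n : Polynomial (Polynomial K)) G
    rw [← h1]
    conv_lhs => rw [← h2]
    rw [Polynomial.eval₂_add, Polynomial.eval₂_mul, hGz, zero_mul, add_zero,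
      Polynomial.eval₂_eq_sum_range' J (hBd n) z]
    exact Finset.sum_range fun i =>
      J (((Polynomial.X ^ n : Polynomial (Polynomial K)) %ₘ G).coeff i) * z ^ i
  refine ⟨fun n i => jj K (((Polynomial.X ^ n : Polynomial (Polynomial K)) %ₘ G).coeff (i : ℕ)) *
    AddMonoidAlgebra.single (fun _ => lam * ((n : ℤ) - ((i : ℕ) : ℤ))) 1, ?_, ?_⟩
  · intro n
    rw [mul_pow, hzn n, Finset.sum_mul]
    refine Finset.sum_congr rfl fun i _ => ?_
    rw [map_mul, ← hτz, mul_pow]
    have h3 : τ ^ n = τ ^ ((n : ℤ) - ((i : ℕ) : ℤ)) * τ ^ (i : ℕ) := by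
      rw [← zpow_natCast τ (i : ℕ), ← zpow_add₀ hτ0, sub_add_cancel, zpow_natCast]
    rw [h3]
    show E (jj K _) * _ * _ = E (jj K _) * _ * _
    ring
  · intro n
    obtain ⟨i, hi⟩ := hBne n
    refine ⟨i, ?_⟩
    have h1 := jj_coeff (((Polynomial.X ^ n : Polynomial (Polynomial K)) %ₘ G).coeff (i : ℕ))
      (lam * ((n : ℤ) - ((i : ℕ) : ℤ))) 0
    have h2 : (fun _ => lam * ((n : ℤ) - ((i : ℕ) : ℤ)) - ((0 : ℕ) : ℤ) : Fin 1 → ℤ) =
        fun _ => lam * ((n : ℤ) - ((i : ℕ) : ℤ)) := by
      funext l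
      simp
    rw [h2] at h1
    rw [h1]
    exact hi

end

theorem newt_lev {K L : Type} [Field K] [Field L] (E : Lp K 1 →+* L) (hE : Function.Injective E)
    {y : L} {m : ℕ} {φ : Fin m → Lp K 1} {lam : ℤ} {c : Fin m → K} (h : Newt E y m φ lam c)
    (l : Fin m) :
    Lev E (fun _ => 1) (y - E (AddMonoidAlgebra.single (fun _ => lam) (c l))) (lam : ℝ) := by
  classical
  obtain ⟨A', hA', hlv⟩ := main_red E h l
  set y' : L := y - E (AddMonoidAlgebra.single (fun _ => lam) (c l)) with hy'
  have hind := ind_shift E h.ind (AddMonoidAlgebra.single (fun _ => lam) (c l))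
  rw [← hy'] at hind
  have hint : E.IsIntegralElem y' := by
    refine ⟨Polynomial.X ^ m - ∑ i : Fin m, Polynomial.C (A' m i) * Polynomial.X ^ (i : ℕ),
      Polynomial.monic_X_pow_sub (Polynomial.degree_sum_fin_lt _), ?_⟩
    rw [Polynomial.eval₂_sub, Polynomial.eval₂_X_pow, Polynomial.eval₂_finsetSum, sub_eq_zero]
    refine (hA' m).trans (Finset.sum_congr rfl fun i _ => ?_)
    simp
  obtain ⟨m', R, A, hR⟩ := red_exists E hE y' hint
  have hmm : m' = m := by
    rcases Nat.lt_trichotomy m' m with h1 | h1 | h1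
    · exact (not_lt_of_ind E h1 hind (A m') (hR.eq m')).elim
    · exact h1
    · exact (not_lt_of_ind E h1 hR.ind (A' m) (hA' m)).elim
  subst hmm
  refine ⟨m', R, A, hR, ?_⟩
  intro n
  obtain ⟨i, hi⟩ := hlv n
  have hAA : A n = A' n := by
    rw [← sub_eq_zero]
    apply hind
    have h1 := hR.eq n
    have h2 := hA' n
    rw [h1] at h2
    rw [← sub_eq_zero, ← Finset.sum_sub_distrib] at h2
    rw [← h2]
    refine Finset.sum_congr rfl fun i _ => ?_
    rw [Pi.sub_apply, map_sub, sub_mul]
  refine ⟨i, fun _ => lam * ((n : ℤ) - ((i : ℕ) : ℤ)), ?_, ?_⟩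
  · rw [Finsupp.mem_support_iff, hAA]
    exact hi
  · unfold dg
    rw [Finset.univ_unique, Finset.sum_singleton, mul_one]
    push_cast
    linarith

end Pool.Agent.Work.MP_e97a4d_nt.CT
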