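import Pool.Agent.Work.MP_e97a4d_nt.CT.PDefs
import Pool.Agent.Work.MP_e97a4d_nt.UE.GDefs
import Pool.Agent.Work.UP.GDefs

/-!
# CT/ODefs: definitions for the case of one unit (FIXED, do not edit)
-/

set_option autoImplicit false

noncomputable section

namespace Pool.Agent.Work.MP_e97a4d_nt.CT

open Pool.Agent.Work.UP NumberField IsDedekindDomain Filter UE

/-- Multiplication of the exponents by `q`. -/
def dil {K : Type} [Field K] (q : ℕ) : Lp K 1 →+* Lp K 1 :=
  AddMonoidAlgebra.mapDomainRingHom K (nsmulAddMonoidHom q : (Fin 1 → ℤ) →+ (Fin 1 → ℤ))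

theorem dil_single {K : Type} [Field K] (q : ℕ) (e : Fin 1 → ℤ) (c : K) :
    dil q (AddMonoidAlgebra.single e c) = AddMonoidAlgebra.single (q • e) c := by
  simp [dil]

theorem ev_dil {K L : Type} [Field K] [Field L] (κ : K →+* L) (ε : Lˣ) (q : ℕ) (p : Lp K 1) :
    ev κ (fun _ => ε) (dil q p) = ev κ (fun _ => ε ^ q) p := by
  have h : (ev κ (fun _ : Fin 1 => ε)).comp (dil q) = ev κ (fun _ : Fin 1 => ε ^ q) := by
    apply lp_hom_ext
    intro s a
    rw [RingHom.comp_apply, dil_single, ev_single, ev_single]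
    congr 1
    unfold mon cu
    simp only [Fin.prod_univ_one, Pi.smul_apply, Units.val_pow_eq_pow_val]
    rw [← zpow_natCast, ← zpow_mul, nsmul_eq_mul]
  exact RingHom.congr_fun h p

/-- The germ of a family of units outside a finite set of primes of a number field. -/
def IsUG {F : Type} [Field F] {T : Type} (𝒰 : Ultrafilter T)
    (x : Germ (𝒰 : Filter T) (AlgebraicClosure F)) : Prop :=
  ∃ (F₁ : IntermediateField F (AlgebraicClosure F)) (_ : NumberField F₁)
    (S₁ : Finset (HeightOneSpectrum (𝓞 F₁))) (V : T → F₁),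
    (∀ τ, IsU S₁ (V τ)) ∧
      x = ((fun τ => (V τ : AlgebraicClosure F) : T → AlgebraicClosure F) :
        Germ (𝒰 : Filter T) (AlgebraicClosure F))

/-- The subfield of the ultrapower generated by the constants and the germs of units. -/
def UF {F : Type} [Field F] {T : Type} (𝒰 : Ultrafilter T) :
    Subfield (Germ (𝒰 : Filter T) (AlgebraicClosure F)) :=
  Subfield.closure ({x | IsUG 𝒰 x} ∪ Set.range (cst 𝒰 (AlgebraicClosure F)))

end Pool.Agent.Work.MP_e97a4d_nt.CT
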