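import Pool.Agent.Work.MP_e97a4d_nt.CT.Defs
import Pool.Agent.Work.SUnit.NumberFieldData

/-!
# CT/PDefs: definitions for the arithmetic part (FIXED, do not edit)

`𝒰` is an ultrafilter on a set `T` of points; elements of the ultrapower `Germ 𝒰 F` of a number field `F` are
(classes of) families `τ ↦ Y τ`.
-/

set_option autoImplicit false

noncomputable section

namespace Pool.Agent.Work.MP_e97a4d_nt.CT

open Pool.Agent.Work.UP NumberField IsDedekindDomain

/-- The infinite places and the places in `S`. -/
abbrev Pl (F : Type) [Field F] [NumberField F] (S : Finset (HeightOneSpectrum (𝓞 F))) : Type :=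
  InfinitePlace F ⊕ {p : HeightOneSpectrum (𝓞 F) // p ∈ S}

/-- The logarithm of the absolute value at the place `w`. -/
def lg {F : Type} [Field F] [NumberField F] (S : Finset (HeightOneSpectrum (𝓞 F))) (w : Pl F S)
    (x : F) : ℝ := Real.log (SUnit.placeAbs F S w x)

/-- The multiplicity of the place `w`. -/
def mu {F : Type} [Field F] [NumberField F] (S : Finset (HeightOneSpectrum (𝓞 F))) (w : Pl F S) : ℝ :=
  (SUnit.placeMult F S w : ℝ)

/-- The size of a tuple of `S`-units. -/
def Ht {F : Type} [Field F] [NumberField F] (S : Finset (HeightOneSpectrum (𝓞 F))) {d : ℕ}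
    (u : Fin d → Fˣ) : ℝ := ∑ w : Pl F S, mu S w * ∑ l, |lg S w (u l : F)|

open Filter in
/-- The constant germs. -/
def cst {T : Type} (𝒰 : Ultrafilter T) (F : Type) [Field F] : F →+* Germ (𝒰 : Filter T) F :=
  (Germ.coeRingHom (𝒰 : Filter T)).comp (Pi.constRingHom T F)

open Filter in
theorem cst_apply {T : Type} (𝒰 : Ultrafilter T) {F : Type} [Field F] (c : F) :
    cst 𝒰 F c = ((fun _ => c : T → F) : Germ (𝒰 : Filter T) F) := rfl

end Pool.Agent.Work.MP_e97a4d_nt.CT
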