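import Mathlib

/-!
# CT/PrimEl (size M): a finite extension of the constants is linearly disjoint from `L`

`K` is algebraically closed in `L`, of characteristic zero, `K'` is a finite extension of `K`. There is a common
extension `Ω` of `L` and `K'` in which elements of `L` which are linearly independent over `K` are linearly
independent over `K'`.

PROOF. `Ω := AlgebraicClosure L`, `i := algebraMap L Ω`, `j : K' →ₐ[K] Ω` any embedding (`IsAlgClosed.lift`, `K'` is
algebraic over `K`). `K' = K(θ)` (`Field.exists_primitive_element`, characteristic zero is separable); let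
`q := minpoly K θ` of degree `n`, so `1, θ, ..., θ^(n-1)` is a basis of `K'` over `K` (power basis).

Claim: `q.map (algebraMap K L)` is irreducible. Let `g` be a monic factor of it in `L[X]`. All roots of `g` in `Ω`
are roots of `q`, so algebraic over `K`; `g.map i` is the product of the `X - root` (`IsAlgClosed.splits`), so the
coefficients of `g.map i` are algebraic over `K` (they are polynomials in the roots; the algebraic closure of `K`
in `Ω` is a subalgebra), so the coefficients of `g` are algebraic over `K`, so in the range of `algebraMap K L` by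
`hK`. So `g` is the image of a monic polynomial `g₀` over `K` (`Polynomial.lifts_and_natDegree_eq_and_monic`), which
divides `q` (`Polynomial.map_dvd_map'`), so `g₀` is `1` or `q`. (Mathlib may have this: look for
`IsIntegrallyClosedIn`, `Irreducible.map`, `minpoly` and `algebraicClosure`.)

So `minpoly L (j θ) = q.map _` has degree `n` and `1, j θ, ..., (j θ)^(n-1)` are linearly independent over `L`
(`linearIndependent_pow`). Let `∑ s, j (c s) * i (x s) = 0`; write `c s = ∑ t < n, a s t • θ ^ t` with `a s t : K`;
then `∑ t < n, i (∑ s, a s t • x s) * (j θ)^t = 0`, so `∑ s, a s t • x s = 0` for all `t`, so `a s t = 0` for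
all `s, t` by the linear independence of `x`.
-/

set_option autoImplicit false

noncomputable section

namespace Pool.Agent.Work.MP_e97a4d_nt.CT
open Polynomial IntermediateField

private theorem exists_poly {K K' : Type} [Field K] [Field K'] [Algebra K K'] [FiniteDimensional K K']
    {θ : K'} (hθ : K⟮θ⟯ = ⊤) (c : K') :
    ∃ p : K[X], aeval θ p = c ∧ p.degree < (minpoly K θ).degree := by
  have hint : IsIntegral K θ := IsIntegral.of_finite K θ
  have h1 : c ∈ Algebra.adjoin K {θ} := by
    have h2 : c ∈ K⟮θ⟯ := by rw [hθ]; trivial
    rw [← IntermediateField.adjoin_simple_toSubalgebra_of_isAlgebraic hint.isAlgebraic]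
    exact h2
  rw [Algebra.adjoin_singleton_eq_range_aeval] at h1
  obtain ⟨p, hp⟩ := h1
  refine ⟨p %ₘ minpoly K θ, ?_, ?_⟩
  · rw [aeval_modByMonic_eq_self_of_root (minpoly.aeval K θ)]
    exact hp
  · exact degree_modByMonic_lt _ (minpoly.monic hint)

theorem prim_el {K L K' : Type} [Field K] [Field L] [Field K'] [Algebra K L] [Algebra K K']
    [FiniteDimensional K K'] [CharZero K]
    (hK : ∀ x : L, IsAlgebraic K x → x ∈ Set.range (algebraMap K L)) :
    ∃ (Ω : Type) (_ : Field Ω) (i : L →+* Ω) (j : K' →+* Ω),
      i.comp (algebraMap K L) = j.comp (algebraMap K K') ∧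
        ∀ (ι : Type) (_ : Fintype ι) (x : ι → L), LinearIndependent K x →
          ∀ c : ι → K', ∑ s, j (c s) * i (x s) = 0 → ∀ s, c s = 0 := by
  let Ω := AlgebraicClosure L
  let j : K' →ₐ[K] Ω := IsAlgClosed.lift
  obtain ⟨θ, hθ⟩ := Field.exists_primitive_element K K'
  have hint : IsIntegral K θ := IsIntegral.of_finite K θ
  have hintj : IsIntegral K (j θ) := hint.map j
  have hintL : IsIntegral L (j θ) := hintj.tower_top
  -- the minimal polynomial over `L`
  have hdeg : (minpoly K θ).degree ≤ (minpoly L (j θ)).degree := by
    have hd : minpoly L (j θ) ∣ (minpoly K θ).map (algebraMap K L) := by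
      apply minpoly.dvd
      rw [aeval_map_algebraMap, aeval_algHom_apply, minpoly.aeval, map_zero]
    have h1 := integralClosure.mem_lifts_of_monic_of_dvd_map (K := L) (minpoly.monic hint)
      (minpoly.monic hintL) hd
    have h2 : minpoly L (j θ) ∈ lifts (algebraMap K L) := by
      rw [lifts_iff_coeff_lifts] at h1 ⊢
      intro n
      obtain ⟨y, hy⟩ := h1 n
      apply hK
      rw [← hy]
      exact y.2.isAlgebraic
    obtain ⟨g₀, hg1, hg2, hg3⟩ := lifts_and_natDegree_eq_and_monic h2 (minpoly.monic hintL)
    have h3 : aeval θ g₀ = 0 := by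
      have h5 : aeval (j θ) g₀ = 0 := by
        rw [← aeval_map_algebraMap L, hg1, minpoly.aeval]
      rw [aeval_algHom_apply] at h5
      exact (map_eq_zero_iff j j.injective).1 h5
    have h4 := minpoly.min K θ hg3 h3
    refine h4.trans ?_
    rw [← hg1]
    exact (degree_map _ _).ge
  refine ⟨Ω, inferInstance, algebraMap L Ω, j.toRingHom, ?_, ?_⟩
  · ext x
    simp [Ω]
    exact (IsScalarTower.algebraMap_apply K L Ω x).symm
  · intro ι _ x hx c hc s
    choose p hp1 hp2 using exists_poly (K := K) hθ
    let P : L[X] := ∑ s, C (x s) * (p (c s)).map (algebraMap K L)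
    have hP0 : aeval (j θ) P = 0 := by
      simp only [P, map_sum, map_mul, aeval_C, aeval_map_algebraMap, aeval_algHom_apply, hp1]
      rw [← hc]
      exact Finset.sum_congr rfl fun s _ => mul_comm _ _
    have hPdeg : P.degree < (minpoly L (j θ)).degree := by
      refine lt_of_lt_of_le ?_ hdeg
      refine (degree_sum_le _ _).trans_lt ?_
      rw [Finset.sup_lt_iff]
      · intro s _
        refine lt_of_le_of_lt (b := (p (c s)).degree) ?_ (hp2 _)
        by_cases hxs : x s = 0
        · rw [hxs, C_0, zero_mul, degree_zero]
          exact bot_le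
        · rw [degree_C_mul hxs, degree_map]
      · rw [bot_lt_iff_ne_bot, Ne, degree_eq_bot]
        exact minpoly.ne_zero hint
    have hP : P = 0 := by
      by_contra hne
      exact absurd (minpoly.degree_le_of_ne_zero L (j θ) hne hP0) (not_le.2 hPdeg)
    have hcoeff : ∀ n, ∑ s, (p (c s)).coeff n • x s = 0 := by
      intro n
      have h := congrArg (fun Q : L[X] => Q.coeff n) hP
      simp only [P, finsetSum_coeff, coeff_C_mul, coeff_map, coeff_zero] at h
      rw [← h]
      refine Finset.sum_congr rfl fun s _ => ?_
      rw [Algebra.smul_def, mul_comm]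
    have hz : p (c s) = 0 := by
      ext n
      rw [coeff_zero]
      exact (Fintype.linearIndependent_iff.1 hx) (fun s => (p (c s)).coeff n) (hcoeff n) s
    rw [← hp1 (c s), hz, map_zero]

end Pool.Agent.Work.MP_e97a4d_nt.CT
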