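import Pool.Agent.Work.MP_e97a4d_nt.CT.Defs

/-!
# CT/Psi (size S-M): rewriting Laurent polynomials over a bigger field of constants

PROOF. `hπ` gives for every `a` an element `g a : K₁` with `mon (cu w) a = algebraMap g a * mon (cu t) (π a)`; it is
unique and not zero (`mon_ne_zero`), and `g (a + b) = g a * g b` (`mon_add`, `algebraMap` is injective). `hsub` gives
a ring homomorphism `κ : K₀ →+* K₁` (choice; the laws by injectivity of `algebraMap K₁ L`). Let
`ψ := AddMonoidAlgebra.liftNCRingHom` of `lC.comp κ` and the monoid homomorphism `a ↦ single (π a) (g a)`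
(`Multiplicative (Fin k → ℤ) →* Lp K₁ d`), as in the definition of `ev` (UP/LDefs). Then
`ψ (single a c) = single (π a) (κ c * g a)`, and `ev _ t (ψ p) = ev _ w p` by `lp_hom_ext` and `ev_single`.
The last statement: an exponent of `ψ p` is `π a` for an exponent `a` of `p` (write `p` as the sum of its
`single a (p.coeff a)`; the support of a sum is in the union of the supports).
-/

set_option autoImplicit false

noncomputable section

namespace Pool.Agent.Work.MP_e97a4d_nt.CT

open Pool.Agent.Work.UP

theorem psi {K₀ K₁ L : Type} [Field K₀] [Field K₁] [Field L] [Algebra K₀ L] [Algebra K₁ L]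
    {k d : ℕ} (w : Fin k → Lˣ) (t : Fin d → Lˣ)
    (hsub : ∀ c : K₀, ∃ c' : K₁, algebraMap K₁ L c' = algebraMap K₀ L c)
    (π : (Fin k → ℤ) →+ (Fin d → ℤ))
    (hπ : ∀ a, ∃ c : K₁, mon (cu w) a = algebraMap K₁ L c * mon (cu t) (π a)) :
    ∃ ψ : Lp K₀ k →+* Lp K₁ d,
      (∀ p, ev (algebraMap K₁ L) t (ψ p) = ev (algebraMap K₀ L) w p) ∧
      (∀ a c, ∃ c' : K₁, ψ (AddMonoidAlgebra.single a c) = AddMonoidAlgebra.single (π a) c') ∧
      ∀ p, ∀ e ∈ (ψ p).coeff.support, ∃ a ∈ p.coeff.support, π a = e := by
  classical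
  have hinj : Function.Injective (algebraMap K₁ L) := (algebraMap K₁ L).injective
  choose κf hκf using hsub
  choose g hg using hπ
  -- the embedding of the constants
  let κ : K₀ →+* K₁ :=
    { toFun := κf
      map_one' := hinj (by rw [hκf, map_one, map_one])
      map_mul' := fun x y => hinj (by rw [hκf, map_mul, map_mul, hκf, hκf])
      map_zero' := hinj (by rw [hκf, map_zero, map_zero])
      map_add' := fun x y => hinj (by rw [hκf, map_add, map_add, hκf, hκf]) }
  have hκ : ∀ c, algebraMap K₁ L (κ c) = algebraMap K₀ L c := hκf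
  have hg0 : g 0 = 1 := hinj (by
    have h := hg 0
    rw [map_zero, mon_zero, mon_zero, mul_one] at h
    rw [map_one, ← h])
  have hgadd : ∀ a b, g (a + b) = g a * g b := fun a b => hinj (by
    have h := hg (a + b)
    rw [map_add, mon_add, mon_add, hg a, hg b] at h
    have h1 : mon (cu t) (π a) * mon (cu t) (π b) ≠ 0 :=
      mul_ne_zero (mon_ne_zero _ _) (mon_ne_zero _ _)
    apply mul_right_cancel₀ h1
    rw [← h, map_mul]
    ring)
  let m : Multiplicative (Fin k → ℤ) →* Lp K₁ d :=
    { toFun := fun a => AddMonoidAlgebra.single (π a.toAdd) (g a.toAdd)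
      map_one' := by
        show AddMonoidAlgebra.single (π 0) (g 0) = (1 : Lp K₁ d)
        rw [map_zero, hg0]
        rfl
      map_mul' := fun a b => by
        show AddMonoidAlgebra.single (π (a.toAdd + b.toAdd)) (g (a.toAdd + b.toAdd)) = _
        rw [map_add, hgadd, AddMonoidAlgebra.single_mul_single] }
  let ψ : Lp K₀ k →+* Lp K₁ d :=
    AddMonoidAlgebra.liftNCRingHom (lC.comp κ) m (fun _ _ => Commute.all _ _)
  have hψ : ∀ a c, ψ (AddMonoidAlgebra.single a c) = AddMonoidAlgebra.single (π a) (κ c * g a) := by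
    intro a c
    have h1 : ψ (AddMonoidAlgebra.single a c) =
        (lC (κ c) : Lp K₁ d) * AddMonoidAlgebra.single (π a) (g a) := by
      simp [ψ, m]
    rw [h1]
    show (AddMonoidAlgebra.single 0 (κ c) : Lp K₁ d) * _ = _
    rw [AddMonoidAlgebra.single_mul_single, zero_add]
  refine ⟨ψ, fun p => ?_, fun a c => ⟨_, hψ a c⟩, fun p e he => ?_⟩
  · have h : (ev (algebraMap K₁ L) t).comp ψ = ev (algebraMap K₀ L) w := by
      apply lp_hom_ext
      intro s a
      rw [RingHom.comp_apply, hψ, ev_single, ev_single, map_mul, hκ, hg s, mul_assoc]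
    exact RingHom.congr_fun h p
  · by_contra hcon
    push Not at hcon
    rw [Finsupp.mem_support_iff] at he
    apply he
    have h2 : ψ p = ∑ a ∈ p.coeff.support,
        (AddMonoidAlgebra.single (π a) (κ (p.coeff a) * g a) : Lp K₁ d) := by
      conv_lhs => rw [← AddMonoidAlgebra.sum_coeff_single p]
      rw [Finsupp.sum, map_sum]
      exact Finset.sum_congr rfl fun a _ => hψ _ _
    have h3 : ∀ S : Finset (Fin k → ℤ), (∀ a ∈ S, π a ≠ e) →
        (∑ a ∈ S, (AddMonoidAlgebra.single (π a) (κ (p.coeff a) * g a) : Lp K₁ d)).coeff e = 0 := by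
      intro S
      induction S using Finset.induction_on with
      | empty =>
        intro _
        simp
      | insert a S ha ih =>
        intro hS
        rw [Finset.sum_insert ha]
        have h4 := ih fun b hb => hS b (Finset.mem_insert_of_mem hb)
        have h5 : π a ≠ e := hS a (Finset.mem_insert_self _ _)
        have h6 : (AddMonoidAlgebra.single (π a) (κ (p.coeff a) * g a) : Lp K₁ d).coeff e = 0 := by
          show (Finsupp.single (π a) (κ (p.coeff a) * g a)) e = 0
          rw [Finsupp.single_apply, if_neg h5]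
        show ((AddMonoidAlgebra.single (π a) (κ (p.coeff a) * g a) : Lp K₁ d).coeff +
          (∑ a ∈ S, (AddMonoidAlgebra.single (π a) (κ (p.coeff a) * g a) : Lp K₁ d)).coeff) e = 0
        rw [Finsupp.add_apply, h4, h6, add_zero]
    rw [h2]
    exact h3 _ hcon

end Pool.Agent.Work.MP_e97a4d_nt.CT
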