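import Pool.Agent.Work.MP_e97a4d_nt.CT.Defs
import Pool.Agent.Work.MP_e97a4d_nt.UG.EntU

/-!
# CT/QDefs: definitions for the analytic part (FIXED, do not edit)
-/

set_option autoImplicit false

noncomputable section

namespace Pool.Agent.Work.MP_e97a4d_nt.CT

open Pool.Agent.Work.UP Filter

/-- The logarithms of the absolute values of the units `u l` at `z`. -/
def xx {d : ℕ} (u : Fin d → ℂ → ℂ) (z : ℂ) (l : Fin d) : ℝ := Real.log ‖u l z‖

/-- In the direction `η` there are functions `g j` with means bounded by `C₀ * Tu`, `C₀` independent of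
`n`, such that one of them is at least `n * ρ * tau` at every point with direction near to `η`. -/
def Gain {d : ℕ} (u : Fin d → ℂ → ℂ) (η : Fin d → ℝ) : Prop :=
  ∃ (k : ℕ) (C₀ ρ : ℝ), 0 ≤ C₀ ∧ 0 < ρ ∧ ∀ n : ℕ, ∃ (g : Fin k → ℂ → ℝ) (C h₀ : ℝ),
    (∀ j z, 0 ≤ g j z) ∧ (∀ j r, CircleIntegrable (g j) 0 r) ∧
    (∀ j r R, 1 ≤ r → r < R →
      Real.circleAverage (g j) 0 r ≤ C₀ * (1 + Tu u r) + C * Er (Tu u) r R) ∧
    ∀ᶠ z in codiscrete ℂ, h₀ ≤ tau u z → (∀ l, |xx u z l - tau u z * η l| ≤ ρ * tau u z) →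
      ∃ j, n * ρ * tau u z ≤ g j z

end Pool.Agent.Work.MP_e97a4d_nt.CT
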