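import Pool.Agent.Work.MP_e97a4d_nt.CT.GapRed
import Pool.Agent.Work.MP_e97a4d_nt.CT.Lat
import Pool.Agent.Work.MP_e97a4d_nt.CT.AnCore
import Pool.Agent.Work.MP_e97a4d_nt.CT.AnRed

/-!
# CT/SAnRed (size S-M): entire curves, the case of split boundary, relative form

PROOF. Copy the proof of `an_red` (CT/AnRed, see there) with `C` in the place of `K₀ = algebraicClosure ℚ L`: the facts
used about `K₀` are `tb_inj` (here `hE`), `tb_alg` (here `halg`) and `hsub : K₀ ⊆ K₁`, where
`K₁ := (algebraMap ℂ Mero).fieldRange.comap Θ`; here `hsub` is `hΘC`.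
-/

set_option autoImplicit false

noncomputable section

namespace Pool.Agent.Work.MP_e97a4d_nt.CT

open Pool.Agent.Work.UP Filter Hyp

/-- Monomials in monomials. -/
private theorem ar_comp {F : Type} [Field F] {k d : ℕ} (w : Fin k → Fˣ) (b : Fin d → (Fin k → ℤ))
    (g : Fin d → ℤ) : mon (fun j => mon (cu w) (b j)) g = mon (cu w) (∑ j, g j • b j) := by
  have h1 : ∀ (S : Finset (Fin d)) (f : Fin d → (Fin k → ℤ)),
      mon (cu w) (∑ j ∈ S, f j) = ∏ j ∈ S, mon (cu w) (f j) := by
    intro S f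
    classical
    induction S using Finset.induction_on with
    | empty => rw [Finset.sum_empty, Finset.prod_empty, mon_zero]
    | insert a S ha ih => rw [Finset.sum_insert ha, Finset.prod_insert ha, mon_add, ih]
  rw [h1]
  unfold mon
  refine Finset.prod_congr rfl fun j _ => ?_
  rw [← Finset.prod_zpow]
  refine Finset.prod_congr rfl fun l _ => ?_
  rw [← zpow_mul, Pi.smul_apply, smul_eq_mul, mul_comm]

private theorem ar_zsmul {F : Type} [Field F] {k : ℕ} (w : Fin k → Fˣ) (n : ℤ) (a : Fin k → ℤ) :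
    mon (cu w) (n • a) = mon (cu w) a ^ n := by
  unfold mon
  rw [← Finset.prod_zpow]
  refine Finset.prod_congr rfl fun l _ => ?_
  rw [← zpow_mul, Pi.smul_apply, smul_eq_mul, mul_comm]

private theorem ar_dg_add {d : ℕ} (η : Fin d → ℝ) (e e' : Fin d → ℤ) :
    dg η (e + e') = dg η e + dg η e' := by
  unfold dg
  rw [← Finset.sum_add_distrib]
  refine Finset.sum_congr rfl fun l _ => ?_
  push_cast [Pi.add_apply]
  ring

private theorem ar_dg_comp {k d : ℕ} (η : Fin d → ℝ) (π : (Fin k → ℤ) →+ (Fin d → ℤ))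
    (a : Fin k → ℤ) : dg (fun l => dg η (π (Pi.single l 1))) a = dg η (π a) := by
  let F : (Fin k → ℤ) →+ ℝ :=
    { toFun := fun a => dg η (π a)
      map_zero' := by simp [dg]
      map_add' := fun a b => by rw [map_add, ar_dg_add] }
  have hF : ∀ a, F a = dg η (π a) := fun _ => rfl
  have ha : a = ∑ l, a l • (Pi.single l (1 : ℤ) : Fin k → ℤ) := by
    funext j
    simp [Finset.sum_apply, Pi.single_apply]
  rw [← hF a]
  conv_rhs => rw [ha]
  rw [map_sum]
  unfold dg
  refine Finset.sum_congr rfl fun l _ => ?_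
  rw [map_zsmul, zsmul_eq_mul]
  rfl

private theorem ar_dg_single {d : ℕ} (η : Fin d → ℝ) (l : Fin d) :
    dg η (Pi.single l 1) = η l := by
  unfold dg
  rw [Finset.sum_eq_single l]
  · simp
  · intro j _ hj
    rw [Pi.single_eq_of_ne hj, Int.cast_zero, zero_mul]
  · intro h
    exact absurd (Finset.mem_univ l) h

/-- The image of a monomial. -/
private theorem ar_theta {L : Type} [Field L] {k : ℕ} (w : Fin k → Lˣ) (Θ : L →+* Mero)
    (v : Fin k → ℂ → ℂ) (hv : IsUC v) (hΘ : ∀ l, Θ (w l) = mk (v l) (mer_of_diff (hv l).1))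
    (a : Fin k → ℤ) (h : Meromorphic (fun z => mon (fun l => v l z) a)) :
    Θ (mon (cu w) a) = mk (fun z => mon (fun l => v l z) a) h := by
  have h1 := mero_ev v hv (fun l => Units.map (Θ : L →* Mero) (w l)) (fun l => hΘ l)
    (AddMonoidAlgebra.single a 1)
  rw [ev_single, map_one, one_mul] at h1
  have h2 : mon (cu fun l => Units.map (Θ : L →* Mero) (w l)) a = Θ (mon (cu w) a) := by
    unfold mon cu
    rw [map_prod]
    refine Finset.prod_congr rfl fun l _ => ?_
    rw [map_zpow₀]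
    rfl
  rw [← h2, h1, mk_eq_iff]
  refine Filter.Eventually.of_forall fun z => ?_
  show ev (RingHom.id ℂ) (uz v hv z) (AddMonoidAlgebra.single a 1) = _
  rw [ev_single, map_one, one_mul]
  rfl

theorem an_red_c {C L : Type} [Field C] [Field L] [CharZero L] [Algebra C L] {k : ℕ}
    (w : Fin k → Lˣ) (hE : Function.Injective (ev (algebraMap C L) w))
    (halg : ∀ f : L, ∃ q : Polynomial (Lp C k), q ≠ 0 ∧ q.eval₂ (ev (algebraMap C L) w) f = 0)
    (Θ : L →+* Mero) (hΘC : ∀ c : C, ∃ γ : ℂ, Θ (algebraMap C L c) = algebraMap ℂ Mero γ)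
    (v : Fin k → ℂ → ℂ) (hv : IsUC v) (hΘ : ∀ l, Θ (w l) = mk (v l) (mer_of_diff (hv l).1))
    (htwo : ∀ (s : ℕ) (ξ : Fin s → Fin k → ℝ), 0 < s → (∀ i, ξ i ≠ 0) → ∑ i, ξ i = 0 →
      ∃ i, Two (ev (algebraMap C L) w) (ξ i)) (x : L) :
    ∃ c : ℂ, Θ x = algebraMap ℂ Mero c := by
  have hE₁ := hE
  classical
  let K₁ : Subfield L := (algebraMap ℂ Mero).fieldRange.comap Θ
  have hmem : ∀ y : L, y ∈ K₁ ↔ ∃ c : ℂ, Θ y = algebraMap ℂ Mero c := by
    intro y
    constructor
    · rintro ⟨c, hc⟩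
      exact ⟨c, hc.symm⟩
    · rintro ⟨c, hc⟩
      exact ⟨c, hc.symm⟩
  have hinjC : Function.Injective (algebraMap ℂ Mero) := (algebraMap ℂ Mero).injective
  have hex : ∀ c : K₁, ∃ c' : ℂ, Θ (algebraMap K₁ L c) = algebraMap ℂ Mero c' := fun c =>
    (hmem c).1 c.2
  choose κ₀ hκ₀ using hex
  let κ : K₁ →+* ℂ :=
    { toFun := κ₀
      map_one' := hinjC (by rw [← hκ₀]; simp)
      map_mul' := fun a b => hinjC (by rw [← hκ₀, map_mul, map_mul, map_mul, hκ₀, hκ₀])
      map_zero' := hinjC (by rw [← hκ₀]; simp)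
      map_add' := fun a b => hinjC (by rw [← hκ₀, map_add, map_add, map_add, hκ₀, hκ₀]) }
  have hκ : ∀ c, Θ (algebraMap K₁ L c) = algebraMap ℂ Mero (κ c) := hκ₀
  have hκc : (algebraMap ℂ Mero).comp κ = Θ.comp (algebraMap K₁ L) :=
    RingHom.ext fun c => (hκ c).symm
  -- `K₁` is algebraically closed in `L`
  have hcl : ∀ f : L, IsAlgebraic K₁ f → f ∈ K₁ := by
    rintro f ⟨P, hP, hPf⟩
    rw [hmem]
    have h1 : Polynomial.aeval (Θ f) (P.map κ) = 0 := by
      rw [Polynomial.aeval_def, Polynomial.eval₂_map, hκc, ← Polynomial.hom_eval₂]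
      rw [Polynomial.aeval_def] at hPf
      rw [hPf, map_zero]
    obtain ⟨c, hc⟩ := mero_alg (P.map κ) ((Polynomial.map_ne_zero_iff κ.injective).2 hP) h1
    exact ⟨c, hc.symm⟩
  have hsub₀ : ∀ c : C, algebraMap C L c ∈ K₁ := fun c => (hmem _).2 (hΘC c)
  have hsub : ∀ c : C, ∃ c' : K₁,
      algebraMap K₁ L c' = algebraMap C L c := fun c => ⟨⟨algebraMap C L c, hsub₀ c⟩, rfl⟩
  -- the exponents of the constant monomials
  let R : AddSubgroup (Fin k → ℤ) :=
    { carrier := {a | mon (cu w) a ∈ K₁}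
      zero_mem' := by
        show mon (cu w) 0 ∈ K₁
        rw [mon_zero]
        exact one_mem K₁
      add_mem' := fun {a b} ha hb => by
        show mon (cu w) (a + b) ∈ K₁
        rw [mon_add]
        exact mul_mem ha hb
      neg_mem' := fun {a} ha => by
        show mon (cu w) (-a) ∈ K₁
        have h1 := ar_zsmul w (-1) a
        rw [neg_one_zsmul, zpow_neg_one] at h1
        rw [h1]
        exact inv_mem ha }
  have hR : ∀ a, a ∈ R ↔ mon (cu w) a ∈ K₁ := fun _ => Iff.rfl
  have hpow : ∀ (y : L) (m : ℕ), m ≠ 0 → y ^ m ∈ K₁ → y ∈ K₁ := by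
    intro y m hm hy
    apply hcl
    refine IsAlgebraic.of_pow (Nat.pos_of_ne_zero hm) ?_
    exact isAlgebraic_algebraMap (A := L) (⟨y ^ m, hy⟩ : K₁)
  have hsat : ∀ (n : ℤ) (a : Fin k → ℤ), n ≠ 0 → n • a ∈ R → a ∈ R := by
    intro n a hn ha
    rw [hR] at ha ⊢
    rw [ar_zsmul] at ha
    obtain ⟨m, rfl | rfl⟩ := n.eq_nat_or_neg
    · rw [zpow_natCast] at ha
      exact hpow _ m (by rintro rfl; exact hn rfl) ha
    · rw [zpow_neg, zpow_natCast] at ha
      have h2 := inv_mem ha
      rw [inv_inv] at h2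
      exact hpow _ m (by rintro rfl; exact hn rfl) h2
  obtain ⟨d, π, hsurj, hker⟩ := lat R hsat
  have hb : ∀ j : Fin d, ∃ b : Fin k → ℤ, π b = Pi.single j 1 := fun j => hsurj _
  choose b hb using hb
  have hπb : ∀ g : Fin d → ℤ, π (∑ j, g j • b j) = g := by
    intro g
    rw [map_sum]
    funext i
    rw [Finset.sum_apply, Finset.sum_eq_single i]
    · rw [map_zsmul, hb, Pi.smul_apply, Pi.single_eq_same, smul_eq_mul, mul_one]
    · intro j _ hj
      rw [map_zsmul, hb, Pi.smul_apply, Pi.single_eq_of_ne (Ne.symm hj), smul_zero]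
    · intro h
      exact absurd (Finset.mem_univ i) h
  let t : Fin d → Lˣ := fun j => Units.mk0 (mon (cu w) (b j)) (mon_ne_zero w (b j))
  have ht : ∀ g, mon (cu t) g = mon (cu w) (∑ j, g j • b j) := fun g => ar_comp w b g
  have hπ : ∀ a, ∃ c : K₁, mon (cu w) a = algebraMap K₁ L c * mon (cu t) (π a) := by
    intro a
    have h1 : a - ∑ j, (π a) j • b j ∈ R := by
      rw [← hker, map_sub, hπb, sub_self]
    refine ⟨⟨_, (hR _).1 h1⟩, ?_⟩
    show mon (cu w) a = mon (cu w) (a - ∑ j, (π a) j • b j) * mon (cu t) (π a)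
    rw [ht, ← mon_add, sub_add_cancel]
  rcases Nat.eq_zero_or_pos d with hd | hd
  · -- everything is constant
    subst hd
    rw [← hmem]
    have hall : ∀ a, mon (cu w) a ∈ K₁ := fun a => by
      rw [← hR, ← hker]
      exact Subsingleton.elim _ _
    have hev : ∀ p, ev (algebraMap C L) w p ∈ K₁ := by
      intro p
      rw [ev_eq]
      exact sum_mem fun s _ => mul_mem (hsub₀ _) (hall s)
    obtain ⟨q, hq, hqx⟩ := halg x
    apply hcl
    let φ : Lp C k →+* K₁ :=
      (ev (algebraMap C L) w).codRestrict K₁ hev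
    have hφ : Function.Injective φ := fun p p' h => hE₁ (congrArg Subtype.val h)
    refine ⟨q.map φ, (Polynomial.map_ne_zero_iff hφ).2 hq, ?_⟩
    rw [Polynomial.aeval_def, Polynomial.eval₂_map]
    exact hqx
  · exfalso
    have hvd : ∀ a, Differentiable ℂ (fun z => mon (fun l => v l z) a) := mon_diff v hv
    let u : Fin d → ℂ → ℂ := fun j z => mon (fun l => v l z) (b j)
    have hu : IsUC u := fun j => ⟨hvd (b j), mon_ne v hv (b j)⟩
    have hΘu : ∀ j, Θ (t j) = mk (u j) (mer_of_diff (hu j).1) := fun j =>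
      ar_theta w Θ v hv hΘ (b j) _
    have hi : IndC u := by
      intro g hg c
      by_contra hcon
      push Not at hcon
      have h1 : ∀ z, mon (fun l => v l z) (∑ j, g j • b j) = c := by
        intro z
        rw [← hcon z]
        exact (ar_comp (uz v hv z) b g).symm
      have h2 : ∑ j, g j • b j ∈ R := by
        rw [hR, hmem]
        refine ⟨c, ?_⟩
        rw [ar_theta w Θ v hv hΘ _ (mer_of_diff (hvd _)), ← mk_const, mk_eq_iff]
        exact Filter.Eventually.of_forall h1
      rw [← hker, hπb] at h2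
      exact hg h2
    have hE : Function.Injective (ev (algebraMap K₁ L) t) := by
      rw [injective_iff_map_eq_zero]
      intro p hp
      have h1 := ev_lpm Θ κ (algebraMap ℂ Mero) hκc t (fun l => Units.map (Θ : L →* Mero) (t l))
        (fun l => rfl) p
      rw [hp, map_zero] at h1
      have h2 : lpm κ p = 0 := by
        have h3 := mero_inj u hu hi (fun l => Units.map (Θ : L →* Mero) (t l)) (fun l => hΘu l)
        exact h3 (by rw [h1, map_zero])
      have h3 : p.coeff.support = ∅ := by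
        rw [← lpm_support κ p, h2]
        rfl
      have h4 : p.coeff = 0 := Finsupp.support_eq_empty.1 h3
      ext e
      rw [h4]
      rfl
    refine an_core (K := K₁) hd t Θ (fun y => ?_) u hu hΘu hi fun s η hs hη hsum => ?_
    · rw [← hmem]
      constructor
      · intro hy
        exact ⟨⟨y, hy⟩, rfl⟩
      · rintro ⟨c, rfl⟩
        exact c.2
    · have hξ0 : ∀ i, (fun l => dg (η i) (π (Pi.single l 1))) ≠ (0 : Fin k → ℝ) := by
        intro i h0
        apply hη i
        funext l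
        obtain ⟨a, ha⟩ := hsurj (Pi.single l 1)
        rw [← ar_dg_single (η i) l, ← ha, ← ar_dg_comp, h0]
        simp [dg]
      have hξs : ∑ i, (fun l => dg (η i) (π (Pi.single l 1))) = (0 : Fin k → ℝ) := by
        funext l
        rw [Finset.sum_apply]
        show ∑ i, dg (η i) (π (Pi.single l 1)) = 0
        unfold dg
        rw [Finset.sum_comm]
        refine Finset.sum_eq_zero fun j _ => ?_
        rw [← Finset.mul_sum]
        have h5 : ∑ i, η i j = 0 := by
          have := congrFun hsum j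
          rwa [Finset.sum_apply] at this
        rw [h5, mul_zero]
      obtain ⟨i, hi2⟩ := htwo s (fun i l => dg (η i) (π (Pi.single l 1))) hs hξ0 hξs
      exact ⟨i, fun a => gap_red w t hsub π hsurj hπ hE₁ hE halg (η i) hi2 a⟩

end Pool.Agent.Work.MP_e97a4d_nt.CT
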