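import Pool.Agent.Work.MP_e97a4d_nt.CT.Slope
import Pool.Agent.Work.MP_e97a4d_nt.CT.RedEx
import Pool.Agent.Work.MP_e97a4d_nt.CT.OneAlg

/-!
# CT/SOneAlg (size S-M): one unit, the algebraic part, relative form

PROOF. Copy the proof of `one_alg` (CT/OneAlg, see there) with a field `C` in the place of `ℚ`:
`K := algebraicClosure C M` is algebraically closed (`algebraicClosure.isAlgClosure C M`).
-/

set_option autoImplicit false

noncomputable section

namespace Pool.Agent.Work.MP_e97a4d_nt.CT

open Pool.Agent.Work.UP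

private def IndP {K L : Type} [Field K] [Field L] (E : Lp K 1 →+* L) (y : L) (m : ℕ) : Prop :=
  ∀ Q : Polynomial (Lp K 1), Q.degree < (m : WithBot ℕ) → Q.eval₂ E y = 0 → Q = 0

private theorem indP_iff {K L : Type} [Field K] [Field L] (E : Lp K 1 →+* L) (y : L) (m : ℕ) :
    IndP E y m ↔ ∀ p : Fin m → Lp K 1, ∑ i : Fin m, E (p i) * y ^ (i : ℕ) = 0 → p = 0 := by
  constructor
  · intro h p hp
    set q : Polynomial (Lp K 1) := ∑ i : Fin m, Polynomial.C (p i) * Polynomial.X ^ (i : ℕ) with hq
    have h1 : q.eval₂ E y = 0 := by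
      rw [hq, Polynomial.eval₂_finsetSum, ← hp]
      refine Finset.sum_congr rfl fun i _ => ?_
      simp
    have h3 := h q (Polynomial.degree_sum_fin_lt p) h1
    funext i
    have h4 : q.coeff i = p i := by
      rw [hq, Polynomial.finsetSum_coeff, Finset.sum_eq_single i]
      · rw [Polynomial.coeff_C_mul_X_pow, if_pos rfl]
      · intro j _ hj
        rw [Polynomial.coeff_C_mul_X_pow, if_neg]
        intro h
        exact hj (Fin.ext h.symm)
      · intro h
        exact absurd (Finset.mem_univ i) h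
    rw [← h4, h3, Polynomial.coeff_zero]
    rfl
  · intro h Q hQ hy
    by_contra hne
    have h1 : Q.natDegree < m := by
      rw [Polynomial.degree_eq_natDegree hne] at hQ
      exact_mod_cast hQ
    rw [Polynomial.eval₂_eq_sum_range' E h1 y, Finset.sum_range] at hy
    have h2 := h (fun i => Q.coeff i) hy
    apply hne
    ext1 n
    rw [Polynomial.coeff_zero]
    rcases Nat.lt_or_ge n m with h3 | h3
    · exact congrFun h2 ⟨n, h3⟩
    · exact Polynomial.coeff_eq_zero_of_natDegree_lt (h1.trans_le h3)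

private theorem indP_shift {K L : Type} [Field K] [Field L] (E : Lp K 1 →+* L) (y : L) (m : ℕ)
    (b : Lp K 1) (h : IndP E y m) : IndP E (y - E b) m := by
  intro Q hQ hy
  have h1 : (Polynomial.taylor (-b) Q).eval₂ E y = 0 := by
    rw [Polynomial.taylor_apply, Polynomial.eval₂_comp, Polynomial.eval₂_add, Polynomial.eval₂_X,
      Polynomial.eval₂_C, map_neg, ← sub_eq_add_neg]
    exact hy
  have h2 := h _ (by rw [Polynomial.degree_taylor]; exact hQ) h1
  exact (Polynomial.taylor_eq_zero (-b) Q).1 h2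

private theorem indP_mono {K L : Type} [Field K] [Field L] (E : Lp K 1 →+* L) (y : L) {m m' : ℕ}
    (hm : m ≤ m') (h : IndP E y m') : IndP E y m := by
  intro Q hQ hy
  exact h Q (hQ.trans_le (by exact_mod_cast hm)) hy

/-- The shifted equation. -/
private theorem shift_eq {K L : Type} [Field K] [CharZero K] [Field L] (E : Lp K 1 →+* L) (y : L) {m : ℕ}
    (hm : 2 ≤ m) (φ : Fin m → Lp K 1) (hy : y ^ m = ∑ i : Fin m, E (φ i) * y ^ (i : ℕ)) :
    ∃ (p : Lp K 1) (ψ : Fin m → Lp K 1),
      (y - E p) ^ m = ∑ i : Fin m, E (ψ i) * (y - E p) ^ (i : ℕ) ∧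
      ∀ i : Fin m, (i : ℕ) + 1 = m → ψ i = 0 := by
  set i₀ : Fin m := ⟨m - 1, by omega⟩ with hi₀
  set p : Lp K 1 := lC ((m : K)⁻¹) * φ i₀ with hp
  have hpm : p * ((m : ℕ) : Lp K 1) = φ i₀ := by
    have h1 : ((m : ℕ) : Lp K 1) = lC (m : K) := (map_natCast (lC : K →+* Lp K 1) m).symm
    have h2 : (m : K)⁻¹ * (m : K) = 1 := inv_mul_cancel₀ (by exact_mod_cast (by omega : m ≠ 0))
    rw [hp, h1, mul_right_comm, ← map_mul, h2, map_one, one_mul]
  set s : Polynomial (Lp K 1) := ∑ i : Fin m, Polynomial.C (φ i) * Polynomial.X ^ (i : ℕ) with hs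
  have hsd : s.degree < (m : WithBot ℕ) := Polynomial.degree_sum_fin_lt φ
  set f : Polynomial (Lp K 1) := Polynomial.X ^ m - s with hf
  have hfm : f.Monic := Polynomial.monic_X_pow_sub hsd
  have hfd : f.natDegree = m := by
    have h1 : f.degree = (m : WithBot ℕ) := by
      rw [hf, Polynomial.degree_sub_eq_left_of_degree_lt (by rw [Polynomial.degree_X_pow]; exact hsd),
        Polynomial.degree_X_pow]
    exact Polynomial.natDegree_eq_of_degree_eq_some h1
  have hfy : f.eval₂ E y = 0 := by
    rw [hf, Polynomial.eval₂_sub, Polynomial.eval₂_X_pow, hs, Polynomial.eval₂_finsetSum, hy, sub_eq_zero]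
    refine Finset.sum_congr rfl fun i _ => ?_
    simp
  set g : Polynomial (Lp K 1) := Polynomial.taylor p f with hg
  have hgm : g.Monic := by
    show g.leadingCoeff = 1
    rw [hg, Polynomial.leadingCoeff_taylor]
    exact hfm
  have hgd : g.natDegree = m := by rw [hg, Polynomial.natDegree_taylor, hfd]
  have hgy : g.eval₂ E (y - E p) = 0 := by
    rw [hg, Polynomial.taylor_apply, Polynomial.eval₂_comp, Polynomial.eval₂_add, Polynomial.eval₂_X,
      Polynomial.eval₂_C, sub_add_cancel]
    exact hfy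
  refine ⟨p, fun i => -(g.coeff i), ?_, ?_⟩
  · have h1 : g = Polynomial.X ^ m +
        ∑ i ∈ Finset.range m, Polynomial.C (g.coeff i) * Polynomial.X ^ i := by
      have := hgm.as_sum
      rw [hgd] at this
      exact this
    rw [h1, Polynomial.eval₂_add, Polynomial.eval₂_X_pow, Polynomial.eval₂_finsetSum] at hgy
    rw [eq_neg_of_add_eq_zero_left hgy, Finset.sum_range, ← Finset.sum_neg_distrib]
    refine Finset.sum_congr rfl fun i _ => ?_
    rw [Polynomial.eval₂_mul, Polynomial.eval₂_C, Polynomial.eval₂_X_pow, map_neg, neg_mul]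
  · intro i hi
    have hii : i = i₀ := by
      apply Fin.ext
      rw [hi₀]
      show (i : ℕ) = m - 1
      omega
    have h1 : g = (Polynomial.X + Polynomial.C p) ^ m -
        ∑ j : Fin m, Polynomial.C (φ j) * (Polynomial.X + Polynomial.C p) ^ (j : ℕ) := by
      rw [hg, hf, map_sub, Polynomial.taylor_X_pow, hs, map_sum]
      congr 1
      refine Finset.sum_congr rfl fun j _ => ?_
      rw [Polynomial.taylor_mul, Polynomial.taylor_C, Polynomial.taylor_X_pow]
    show -(g.coeff (i : ℕ)) = 0
    rw [neg_eq_zero, h1, Polynomial.coeff_sub, Polynomial.coeff_X_add_C_pow, Polynomial.finsetSum_coeff,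
      Finset.sum_eq_single i]
    · rw [Polynomial.coeff_C_mul, Polynomial.coeff_X_add_C_pow, Nat.choose_self, Nat.sub_self,
        pow_zero, Nat.cast_one, mul_one, mul_one]
      have h2 : m - (i : ℕ) = 1 := by omega
      have h3 : m.choose (i : ℕ) = m := by
        have h4 : (i : ℕ) = m - 1 := by omega
        obtain ⟨k, rfl⟩ : ∃ k, m = k + 1 := ⟨m - 1, by omega⟩
        rw [h4]
        simp
      rw [h2, pow_one, h3, hpm, hii, sub_self]
    · intro j _ hj
      rw [Polynomial.coeff_C_mul, Polynomial.coeff_X_add_C_pow, Nat.choose_eq_zero_of_lt, Nat.cast_zero,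
        mul_zero, mul_zero]
      have h2 := j.2
      have h3 : (j : ℕ) ≠ (i : ℕ) := fun h => hj (Fin.ext h)
      omega
    · intro h
      exact absurd (Finset.mem_univ i) h

private theorem ev_toL' {K L : Type} [Field K] [Field L] (κ : K →+* L) (u : Fin 1 → Lˣ)
    (p : MvPolynomial (Fin 1) K) : ev κ u (toL p) = MvPolynomial.eval₂ κ (cu u) p := by
  have h : (ev κ u).comp toL = MvPolynomial.eval₂Hom κ (cu u) := by
    apply MvPolynomial.ringHom_ext
    · intro r
      rw [RingHom.comp_apply, MvPolynomial.eval₂Hom_C]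
      show ev κ u (toL (MvPolynomial.monomial 0 r)) = κ r
      rw [toL_monomial, map_zero, ev_single, mon_zero, mul_one]
    · intro i
      rw [RingHom.comp_apply, MvPolynomial.eval₂Hom_X']
      unfold toL
      rw [MvPolynomial.eval₂Hom_X', ev_single, mon_single_one, map_one, one_mul]
  exact RingHom.congr_fun h p

private theorem ev_inj {C M : Type} [Field C] [Field M] [Algebra C M] (ε : Mˣ)
    (hε : Transcendental C (ε : M)) :
    Function.Injective (ev (algebraMap (algebraicClosure C M) M) (fun _ : Fin 1 => ε)) := by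
  have h1 : AlgebraicIndependent C (cu fun _ : Fin 1 => ε) := algebraicIndependent_unique_type_iff.2 hε
  have h0 : Algebra.IsAlgebraic C (algebraicClosure C M) := by
    refine ⟨fun c => ?_⟩
    have h3 : IsAlgebraic C (algebraMap (algebraicClosure C M) M c) := mem_algebraicClosure_iff.1 c.2
    exact (isAlgebraic_algebraMap_iff (algebraMap (algebraicClosure C M) M).injective).1 h3
  have h2 : AlgebraicIndependent (algebraicClosure C M) (cu fun _ : Fin 1 => ε) :=
    h1.extendScalars (algebraicClosure C M)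
  rw [injective_iff_map_eq_zero]
  intro f hf
  obtain ⟨p, s, rfl⟩ := exists_toL f
  rw [map_mul, ev_single, map_one, one_mul, ev_toL'] at hf
  have h3 : MvPolynomial.eval₂ (algebraMap (algebraicClosure C M) M) (cu fun _ : Fin 1 => ε) p = 0 :=
    (mul_eq_zero.1 hf).resolve_left (mon_ne_zero _ s)
  have h4 : p = 0 := by
    apply (injective_iff_map_eq_zero _).1 (algebraicIndependent_iff_injective_aeval.1 h2) p
    exact h3
  rw [h4, map_zero, mul_zero]

private theorem int_root {K L : Type} [Field K] [Field L] (κ : K →+* L) (ε w : Lˣ) (e : ℕ)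
    (h : ε ^ e = w) (y : L) (hy : (ev κ (fun _ : Fin 1 => w)).IsIntegralElem y) :
    (ev κ (fun _ : Fin 1 => ε)).IsIntegralElem y := by
  obtain ⟨q, hq, hqy⟩ := hy
  refine ⟨q.map (dil e), hq.map _, ?_⟩
  rw [Polynomial.eval₂_map]
  have h1 : (ev κ (fun _ : Fin 1 => ε)).comp (dil e) = ev κ (fun _ : Fin 1 => w) := by
    refine RingHom.ext fun p => ?_
    rw [RingHom.comp_apply, ev_dil, h]
  rw [h1]
  exact hqy

private theorem tr_root {C M : Type} [Field C] [Field M] [Algebra C M] (ε w : Mˣ) (e : ℕ) (h : ε ^ e = w)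
    (hw : Transcendental C (w : M)) : Transcendental C (ε : M) := by
  intro h1
  apply hw
  rw [← h, Units.val_pow_eq_pow_val]
  exact h1.pow e

theorem one_alg_c {C M : Type} [Field C] [Field M] [Algebra C M] [IsAlgClosed M] [CharZero M]
    (w : Mˣ) (hw : Transcendental C (w : M)) (y : M)
    (hy : (ev (algebraMap (algebraicClosure C M) M) (fun _ : Fin 1 => w)).IsIntegralElem y) :
    ∃ (e : ℕ) (ε : Mˣ), 0 < e ∧ ε ^ e = w ∧
      Function.Injective (ev (algebraMap (algebraicClosure C M) M) (fun _ : Fin 1 => ε)) ∧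
      ((∃ p : Lp (algebraicClosure C M) 1,
          y = ev (algebraMap (algebraicClosure C M) M) (fun _ => ε) p) ∨
        ∃ (m : ℕ) (φ : Fin m → Lp (algebraicClosure C M) 1) (lam : ℤ)
          (c : Fin m → algebraicClosure C M) (p : Lp (algebraicClosure C M) 1),
          Newt (ev (algebraMap (algebraicClosure C M) M) (fun _ => ε))
            (y - ev (algebraMap (algebraicClosure C M) M) (fun _ => ε) p) m φ lam c) := by
  classical
  set κ : algebraicClosure C M →+* M := algebraMap (algebraicClosure C M) M with hκ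
  have : IsAlgClosed (algebraicClosure C M) := (algebraicClosure.isAlgClosure C M).isAlgClosed
  have : CharZero (algebraicClosure C M) :=
    ⟨fun a b h => by
      have h1 := congrArg κ h
      rw [map_natCast, map_natCast] at h1
      exact_mod_cast h1⟩
  let P : ℕ → Prop := fun m => ∃ (e : ℕ) (ε : Mˣ) (R : ℕ) (A : ℕ → Fin m → Lp (algebraicClosure C M) 1),
    0 < e ∧ ε ^ e = w ∧ Red (ev κ (fun _ : Fin 1 => ε)) y m R A
  have hP : ∃ m, P m := by
    obtain ⟨m, R, A, h⟩ := red_exists _ (ev_inj w hw) y hy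
    exact ⟨m, 1, w, R, A, one_pos, pow_one w, h⟩
  obtain ⟨e, ε, R, A, he, hε, hR⟩ := Nat.find_spec hP
  have hmin : ∀ m', P m' → Nat.find hP ≤ m' := fun m' h => Nat.find_min' hP h
  generalize Nat.find hP = m at A hR hmin
  have hεt : Transcendental C (ε : M) := tr_root ε w e hε hw
  rcases Nat.lt_or_ge m 2 with h2 | h2
  · refine ⟨e, ε, he, hε, ev_inj ε hεt, Or.inl ?_⟩
    have hm := hR.pos
    obtain rfl : m = 1 := by omega
    refine ⟨A 1 0, ?_⟩
    have h3 := hR.eq 1
    rw [pow_one, Fin.sum_univ_one] at h3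
    rw [h3]
    simp
  · obtain ⟨p, ψ, hψ, hψ0⟩ := shift_eq (ev κ (fun _ : Fin 1 => ε)) y h2 (A m) (hR.eq m)
    have hI : IndP (ev κ (fun _ : Fin 1 => ε)) (y - ev κ (fun _ : Fin 1 => ε) p) m :=
      indP_shift _ _ _ _ ((indP_iff _ _ _).2 hR.ind)
    have hne : ∃ i, ψ i ≠ 0 := by
      by_contra hcon
      push Not at hcon
      have h3 : y - ev κ (fun _ : Fin 1 => ε) p = 0 := by
        have h4 : (y - ev κ (fun _ : Fin 1 => ε) p) ^ m = 0 := by
          rw [hψ]
          refine Finset.sum_eq_zero fun i _ => ?_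
          rw [hcon i, map_zero, zero_mul]
        exact pow_eq_zero_iff (by omega) |>.1 h4
      have h5 : (Polynomial.X : Polynomial (Lp (algebraicClosure C M) 1)) = 0 := by
        apply hI
        · rw [Polynomial.degree_X]
          exact_mod_cast (by omega : 1 < m)
        · rw [Polynomial.eval₂_X]
          exact h3
      exact Polynomial.X_ne_zero h5
    obtain ⟨lam, c, hbd, hfac, hcc⟩ := slope h2 ψ hψ0 hne
    have hq : 0 < m.factorial := Nat.factorial_pos m
    obtain ⟨z, hz⟩ := IsAlgClosed.exists_pow_nat_eq (ε : M) hq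
    have hz0 : z ≠ 0 := by
      intro h
      rw [h, zero_pow hq.ne'] at hz
      exact ε.ne_zero hz.symm
    set ε' : Mˣ := Units.mk0 z hz0 with hε'
    have hεε : ε' ^ m.factorial = ε := by
      apply Units.ext
      rw [Units.val_pow_eq_pow_val]
      exact hz
    have hε'w : ε' ^ (e * m.factorial) = w := by
      rw [mul_comm, pow_mul, hεε, hε]
    have hε't : Transcendental C (ε' : M) := tr_root ε' w _ hε'w hw
    have hev : ∀ p : Lp (algebraicClosure C M) 1, ev κ (fun _ : Fin 1 => ε') (dil m.factorial p) =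
        ev κ (fun _ : Fin 1 => ε) p := by
      intro p
      rw [ev_dil, hεε]
    refine ⟨e * m.factorial, ε', Nat.mul_pos he hq, hε'w, ev_inj ε' hε't, Or.inr
      ⟨m, fun i => dil m.factorial (ψ i), lam, c, dil m.factorial p, ?_⟩⟩
    rw [hev]
    refine ⟨?_, ?_, hbd, hfac, hcc⟩
    · rw [hψ]
      refine Finset.sum_congr rfl fun i _ => ?_
      rw [hev]
    · obtain ⟨m', R', A', h'⟩ := red_exists _ (ev_inj ε' hε't) y (int_root κ ε' w _ hε'w y hy)
      have hmm : m ≤ m' := hmin m' ⟨e * m.factorial, ε', R', A', Nat.mul_pos he hq, hε'w, h'⟩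
      have h3 : IndP (ev κ (fun _ : Fin 1 => ε')) y m :=
        indP_mono _ _ hmm ((indP_iff _ _ _).2 h'.ind)
      have h4 := indP_shift _ _ _ (dil m.factorial p) h3
      rw [hev] at h4
      exact (indP_iff _ _ _).1 h4

end Pool.Agent.Work.MP_e97a4d_nt.CT
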