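import Pool.Agent.Work.MP_e97a4d_nt.CT.MBar
import Pool.Agent.Work.MP_e97a4d_nt.CT.SOneAlg
import Pool.Agent.Work.MP_e97a4d_nt.CT.NewtGap
import Pool.Agent.Work.MP_e97a4d_nt.CT.NewtDesc
import Pool.Agent.Work.MP_e97a4d_nt.CT.Clear
import Pool.Agent.Work.MP_e97a4d_nt.CT.AnCore

/-!
# CT/SOneC (size M): one unit, analytic case, relative form

PROOF. The proof of `one_c` (CT/OneC, see there and copy what can be copied) with a field `C ⊆ L`, mapped to constants
by `Θ`, in the place of `ℚ`; `tb_inj`, `tb_alg` are the hypotheses `hw`, `halg`. Changes: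
* `M := AlgebraicClosure L` is an algebra over `C` (tower), `K := algebraicClosure C M` (elements algebraic over `C`).
  `w'` is transcendental over `C`: by `hw` (a polynomial over `C` with root `w` gives an element of `Lp C 1`).
* An element `c` of `M` algebraic over `C` has constant image under `Θb`: as `m_con` (CT/MBar): the image of the
  polynomial over `C` is a nonzero polynomial with coefficients in `ℂ` (by `hΘC`; choose a ring homomorphism
  `κ : C →+* ℂ` with `Θ (algebraMap c) = algebraMap ℂ Mero (κ c)`, injective), and `ℂ` is algebraically closed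
  (proof of `m_con`, `alg_const` in CT/MBar).
* `one_alg_c` (CT/SOneAlg) instead of `one_alg`.
* `L₁ := (algebraMap Mero Ω).fieldRange.comap Θb` as there, `K₁ := ` the elements of `L₁` algebraic over `C`
  (`algebraicClosure C L₁`, `C → L₁` since `C → L → L₁`).
* `hK` for `an_core`: let `x : L₁` have constant image `c`. `x` is algebraic over `C(ε)`. If `x` is transcendental over
  `C` then `ε` is algebraic over `C(x)` (exchange property; or: there is a nonzero polynomial `P` in two variables
  over `C` with `P(ε, x) = 0`, and `P(X, c)` over `ℂ` is not zero because `c` is transcendental over `κ(C)`: `Θ₁` is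
  injective on `C(x)`), so `Θ₁ ε` is algebraic over `ℂ`, hence constant: contradiction. Conversely elements algebraic
  over `C` have constant image.
* Case 1 (`v` constant): every `Θ x` is algebraic over `ℂ` by `halg`, so constant.
-/

set_option autoImplicit false

noncomputable section

namespace Pool.Agent.Work.MP_e97a4d_nt.CT

open Pool.Agent.Work.UP Filter Hyp
open scoped Topology

private abbrev Om : Type := AlgebraicClosure Mero

private def cc : ℂ →+* Om := (algebraMap Mero Om).comp (algebraMap ℂ Mero)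

private theorem alg_const' {x : Om} {p : Polynomial ℂ} (hp : p ≠ 0)
    (h : Polynomial.eval₂ cc x p = 0) : ∃ γ : ℂ, x = cc γ := by
  have hs : p.Splits := IsAlgClosed.splits p
  have h1 := hs.eq_prod_roots
  rw [h1, Polynomial.eval₂_mul, Polynomial.eval₂_C, Polynomial.eval₂_multiset_prod,
    Multiset.map_map] at h
  have h2 : cc p.leadingCoeff ≠ 0 := by
    rw [Ne, map_eq_zero_iff _ (RingHom.injective _)]
    exact Polynomial.leadingCoeff_ne_zero.2 hp
  have h3 := (mul_eq_zero.1 h).resolve_left h2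
  obtain ⟨γ, -, hγ⟩ := Multiset.mem_map.1 (Multiset.prod_eq_zero_iff.1 h3)
  refine ⟨γ, ?_⟩
  simp only [Function.comp_apply, Polynomial.eval₂_sub, Polynomial.eval₂_X, Polynomial.eval₂_C]
    at hγ
  exact sub_eq_zero.1 hγ

private theorem const_of_mk (v : ℂ → ℂ) (hv : Differentiable ℂ v) (γ : ℂ)
    (h : mk v (mer_of_diff hv) = algebraMap ℂ Mero γ) (z : ℂ) : v z = γ := by
  have h1 : mk v (mer_of_diff hv) = mk (fun _ => γ) (mer_of_diff (differentiable_const γ)) := h
  rw [mk_eq_iff, Filter.EventuallyEq, eventually_codiscrete] at h1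
  have h2 : Tendsto v (𝓝[≠] z) (𝓝 (v z)) :=
    (hv.continuous.tendsto z).mono_left nhdsWithin_le_nhds
  have h3 : Tendsto v (𝓝[≠] z) (𝓝 γ) := by
    refine Tendsto.congr' (f₁ := fun _ => γ) ?_ tendsto_const_nhds
    filter_upwards [h1 z] with w hw using hw.symm
  exact tendsto_nhds_unique h2 h3

private theorem indC_root (v f : ℂ → ℂ) (hv : Differentiable ℂ v) (e : ℕ)
    (hfe : ∀ z, f z ^ e = v z) (hnc : ¬ ∃ c, ∀ z, v z = c) : IndC (fun _ : Fin 1 => f) := by
  intro k hk c
  by_contra hcon
  push Not at hcon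
  have hk0 : k 0 ≠ 0 := by
    intro h
    apply hk
    funext i
    rw [Subsingleton.elim i 0, h]
    rfl
  have hm : ∀ z, f z ^ (k 0) = c := by
    intro z
    have := hcon z
    simpa [mon] using this
  obtain ⟨n, hn, c', hc'⟩ : ∃ n : ℕ, n ≠ 0 ∧ ∃ c' : ℂ, ∀ z, f z ^ n = c' := by
    rcases Int.natAbs_eq (k 0) with h | h
    · refine ⟨(k 0).natAbs, Int.natAbs_ne_zero.2 hk0, c, fun z => ?_⟩
      have := hm z
      rw [h, zpow_natCast] at this
      exact this
    · refine ⟨(k 0).natAbs, Int.natAbs_ne_zero.2 hk0, c⁻¹, fun z => ?_⟩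
      have := hm z
      rw [h, zpow_neg, zpow_natCast] at this
      rw [← this, inv_inv]
  have h1 : mk v (mer_of_diff hv) ^ n = algebraMap ℂ Mero (c' ^ e) := by
    have h2 : mk v (mer_of_diff hv) ^ n = mk (v ^ n) (mer_of_diff (hv.pow n)) := rfl
    have h3 : v ^ n = fun _ => c' ^ e := by
      funext z
      show v z ^ n = c' ^ e
      rw [← hfe z, ← pow_mul, mul_comm, pow_mul, hc' z]
    rw [h2]
    simp only [h3]
    rfl
  have h4 : (Polynomial.X ^ n - Polynomial.C (c' ^ e) : Polynomial ℂ) ≠ 0 :=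
    Polynomial.X_pow_sub_C_ne_zero (Nat.pos_of_ne_zero hn) _
  obtain ⟨γ, hγ⟩ := mero_alg (m := mk v (mer_of_diff hv)) _ h4 (by
    rw [map_sub, map_pow, Polynomial.aeval_X, Polynomial.aeval_C, h1, sub_self])
  exact hnc ⟨γ, const_of_mk v hv γ hγ.symm⟩

private theorem isUQ_pow {m : Mero} (h : IsUQ m) (n : ℕ) : IsUQ (m ^ n) := by
  induction n with
  | zero =>
    rw [pow_zero]
    exact IsUQ.one
  | succ n ih =>
    rw [pow_succ]
    exact ih.mul h

private theorem isUQ_zpow {m : Mero} (h : IsUQ m) (n : ℤ) : IsUQ (m ^ n) := by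
  rcases n with n | n
  · rw [Int.ofNat_eq_natCast, zpow_natCast]
    exact isUQ_pow h n
  · rw [zpow_negSucc]
    exact (isUQ_pow h _).inv

private theorem isUQ_mk (f : ℂ → ℂ) (hf : Differentiable ℂ f) (hf0 : ∀ z, f z ≠ 0) :
    IsUQ (mk f (mer_of_diff hf)) := by
  have h1 : f ∈ unitRing := Subring.subset_closure ⟨hf, hf0⟩
  refine ⟨f, h1, 1, one_mem _, ?_, ?_⟩
  · exact one_ne_zero
  · exact mul_one _

private theorem ev_uq {K M : Type} [Field K] [Field M] (g : K →+* M) (Θb : M →+* Om)
    (hK : ∀ c : K, ∃ γ, Θb (g c) = cc γ) (ε : Mˣ) (m : Mero) (hm : IsUQ m)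
    (hε : Θb ε = algebraMap Mero Om m) (p : Lp K 1) :
    ∃ m', IsUQ m' ∧ Θb (ev g (fun _ => ε) p) = algebraMap Mero Om m' := by
  induction p using AddMonoidAlgebra.induction_linear with
  | zero => exact ⟨0, IsUQ.zero, by rw [map_zero, map_zero, map_zero]⟩
  | add p q hp hq =>
    obtain ⟨a, ha, ha'⟩ := hp
    obtain ⟨b, hb, hb'⟩ := hq
    exact ⟨a + b, ha.add hb, by rw [map_add, map_add, ha', hb', map_add]⟩
  | single s a =>
    obtain ⟨γ, hγ⟩ := hK a
    refine ⟨algebraMap ℂ Mero γ * m ^ (s 0), (IsUQ.const γ).mul (isUQ_zpow hm _), ?_⟩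
    have h1 : mon (cu (fun _ : Fin 1 => ε)) s = (ε : M) ^ (s 0) := by
      simp [mon, cu]
    rw [ev_single, h1, map_mul, hγ, map_mul, map_zpow₀, map_zpow₀, hε]
    rfl

private theorem ev_toL'' {k K : Type} [Field k] [Field K] (e : k →+* K) {d : ℕ} (u : Fin d → Kˣ)
    (p : MvPolynomial (Fin d) k) : ev e u (toL p) = p.eval₂ e (cu u) := by
  have h : (ev e u).comp toL = MvPolynomial.eval₂Hom e (cu u) := by
    apply MvPolynomial.ringHom_ext
    · intro r
      rw [RingHom.comp_apply, MvPolynomial.eval₂Hom_C]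
      show ev e u (toL (MvPolynomial.monomial 0 r)) = e r
      rw [toL_monomial, map_zero, ev_single, mon_zero, mul_one]
    · intro i
      rw [RingHom.comp_apply, MvPolynomial.eval₂Hom_X']
      unfold toL
      rw [MvPolynomial.eval₂Hom_X', ev_single, mon_single_one, map_one, one_mul]
  exact RingHom.congr_fun h p

/-- If the Laurent polynomials are mapped injectively then the unit is transcendental. -/
private theorem trans_of_inj {C M : Type} [Field C] [Field M] [Algebra C M] (w : Mˣ)
    (hw : Function.Injective (ev (algebraMap C M) (fun _ : Fin 1 => w))) :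
    Transcendental C (w : M) := by
  have h1 : AlgebraicIndependent C (fun _ : Fin 1 => (w : M)) := by
    show Function.Injective (MvPolynomial.aeval (fun _ : Fin 1 => (w : M)))
    intro p q hpq
    apply toL_injective
    apply hw
    rw [ev_toL'', ev_toL'']
    exact hpq
  exact algebraicIndependent_unique_type_iff.1 h1

/-- A transcendental unit gives an injective map. -/
private theorem inj_of_trans {C M : Type} [Field C] [Field M] (g : C →+* M) (w : Mˣ)
    (hw : ∀ p : Polynomial C, p ≠ 0 → p.eval₂ g (w : M) ≠ 0) :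
    Function.Injective (ev g (fun _ : Fin 1 => w)) := by
  letI : Algebra C M := g.toAlgebra
  have h0 : Transcendental C (w : M) := by
    rintro ⟨p, hp, h⟩
    exact hw p hp h
  have h1 : AlgebraicIndependent C (fun _ : Fin 1 => (w : M)) :=
    algebraicIndependent_unique_type_iff.2 h0
  rw [injective_iff_map_eq_zero]
  intro p hp
  obtain ⟨q, s, rfl⟩ := exists_toL p
  rw [map_mul, ev_single, map_one, one_mul, mul_eq_zero] at hp
  have h4 : ev g (fun _ : Fin 1 => w) (toL q) = 0 := hp.resolve_left (mon_ne_zero _ s)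
  rw [ev_toL''] at h4
  have h5 : q = 0 := by
    apply (injective_iff_map_eq_zero _).1 h1
    exact h4
  rw [h5, map_zero, mul_zero]

private theorem const_alg {C M : Type} [Field C] [Field M] [Algebra C M] (w : Mˣ)
    (Θb : M →+* Om) (κ₀ : C →+* ℂ) (hκ : ∀ c, Θb (algebraMap C M c) = cc (κ₀ c))
    (hvt : ∀ γ, Θb w ≠ cc γ)
    (halg : ∀ x : M, ∃ q : Polynomial (Lp C 1), q ≠ 0 ∧
      q.eval₂ (ev (algebraMap C M) (fun _ : Fin 1 => w)) x = 0)
    (x : M) (c : ℂ) (hx : Θb x = cc c) : IsAlgebraic C x := by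
  by_contra htr
  obtain ⟨q, hq, hqx⟩ := halg x
  set V : Omˣ := Units.map (Θb : M →* Om) w with hV
  have hcomp : Θb.comp (ev (algebraMap C M) (fun _ : Fin 1 => w)) =
      (ev cc (fun _ : Fin 1 => V)).comp (lpm κ₀) := by
    apply lp_hom_ext
    intro s a
    rw [RingHom.comp_apply, RingHom.comp_apply, ev_single, lpm_single, ev_single, map_mul, hκ]
    congr 1
    unfold mon cu
    rw [map_prod]
    refine Finset.prod_congr rfl fun j _ => ?_
    rw [map_zpow₀]
    rfl
  have h0 : ev cc (fun _ : Fin 1 => V) (q.eval₂ (lpm κ₀) (lC c)) = 0 := by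
    rw [Polynomial.hom_eval₂, ev_lC, ← hcomp, ← hx, ← Polynomial.hom_eval₂, hqx, map_zero]
  have hinj : Function.Injective (ev cc (fun _ : Fin 1 => V)) := by
    apply inj_of_trans
    intro p hp h
    obtain ⟨γ, hγ⟩ := alg_const' hp h
    exact hvt γ hγ
  have h1 : q.eval₂ (lpm κ₀) (lC c) = 0 := hinj (by rw [h0, map_zero])
  apply hq
  have h2 : ∀ (e : Fin 1 → ℤ),
      ∑ j ∈ Finset.range (q.natDegree + 1), κ₀ ((q.coeff j).coeff e) * c ^ j = 0 := by
    intro e
    have h3 : (q.eval₂ (lpm κ₀) (lC c)).coeff e =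
        ∑ j ∈ Finset.range (q.natDegree + 1), κ₀ ((q.coeff j).coeff e) * c ^ j := by
      rw [Polynomial.eval₂_eq_sum_range]
      have h4 : ∀ S : Finset ℕ, ∀ g : ℕ → Lp ℂ 1, (∑ j ∈ S, g j).coeff e = ∑ j ∈ S, (g j).coeff e := by
        classical
        intro S g
        induction S using Finset.induction_on with
        | empty => rfl
        | insert a S ha ih =>
          rw [Finset.sum_insert ha, Finset.sum_insert ha, ← ih]
          rfl
      rw [h4]
      refine Finset.sum_congr rfl fun j _ => ?_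
      rw [← map_pow]
      show (lpm κ₀ (q.coeff j) * AddMonoidAlgebra.single 0 (c ^ j)).coeff e = _
      rw [AddMonoidAlgebra.coeff_mul_single_zero, lpm_coeff]
    rw [← h3, h1]
    rfl
  have h5 : ∀ (e : Fin 1 → ℤ) (j : ℕ), (q.coeff j).coeff e = 0 := by
    intro e j
    set A : Polynomial C := ∑ i ∈ Finset.range (q.natDegree + 1),
      Polynomial.C ((q.coeff i).coeff e) * Polynomial.X ^ i with hA
    have h6 : Polynomial.aeval x A = 0 := by
      apply Θb.injective
      rw [map_zero, hA, map_sum, map_sum]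
      have h7 := congrArg cc (h2 e)
      rw [map_zero, map_sum] at h7
      rw [← h7]
      refine Finset.sum_congr rfl fun i _ => ?_
      rw [map_mul, map_pow, Polynomial.aeval_C, Polynomial.aeval_X, map_mul, map_pow, hκ, hx,
        map_mul, map_pow]
    have h8 : A = 0 := by
      by_contra hA0
      exact htr ⟨A, hA0, h6⟩
    by_cases hj : j ∈ Finset.range (q.natDegree + 1)
    · have h9 := congrArg (fun P : Polynomial C => P.coeff j) h8
      simp only [hA, Polynomial.finsetSum_coeff, Polynomial.coeff_C_mul_X_pow,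
        Polynomial.coeff_zero] at h9
      rw [Finset.sum_ite_eq, if_pos hj] at h9
      exact h9
    · have h10 : q.coeff j = 0 := by
        apply Polynomial.coeff_eq_zero_of_natDegree_lt
        rw [Finset.mem_range] at hj
        omega
      rw [h10]
      rfl
  ext1 j
  rw [Polynomial.coeff_zero]
  apply AddMonoidAlgebra.coeff_injective
  ext e
  exact h5 e j

private theorem lpm_id {K : Type} [Field K] {d : ℕ} (p : Lp K d) : lpm (RingHom.id K) p = p := by
  have h : lpm (RingHom.id K) = RingHom.id (Lp K d) := by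
    apply lp_hom_ext
    intro s a
    rw [lpm_single]
    rfl
  rw [h]
  rfl

private theorem contra {K M : Type} [Field K] [Field M] [Algebra K M] (Θb : M →+* Om)
    (hKc : ∀ c : K, ∃ γ : ℂ, Θb (algebraMap K M c) = cc γ)
    (hKx : ∀ (x : M) (γ : ℂ), Θb x = cc γ → x ∈ Set.range (algebraMap K M))
    (ε : Mˣ) (hε : Function.Injective (ev (algebraMap K M) (fun _ : Fin 1 => ε)))
    (f : ℂ → ℂ) (hf : Differentiable ℂ f) (hf0 : ∀ z, f z ≠ 0)
    (hΘε : Θb ε = algebraMap Mero Om (mk f (mer_of_diff hf)))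
    (hfi : IndC (fun _ : Fin 1 => f)) (y : M) (hy : ∃ m : Mero, Θb y = algebraMap Mero Om m)
    {m : ℕ} {φ : Fin m → Lp K 1} {lam : ℤ} {c : Fin m → K}
    (hN : Newt (ev (algebraMap K M) (fun _ : Fin 1 => ε)) y m φ lam c) : False := by
  set L₁ : Subfield M := (algebraMap Mero Om).fieldRange.comap Θb with hL₁
  have hmem : ∀ x : M, x ∈ L₁ ↔ ∃ m : Mero, algebraMap Mero Om m = Θb x := by
    intro x
    rw [hL₁, Subfield.mem_comap, RingHom.mem_fieldRange]
  have hex : ∀ x : L₁, ∃ m : Mero, algebraMap Mero Om m = Θb x := fun x => (hmem x).1 x.2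
  choose θ hθ using hex
  have hinj : Function.Injective (algebraMap Mero Om) := (algebraMap Mero Om).injective
  let Θ₁ : L₁ →+* Mero :=
    { toFun := θ
      map_one' := hinj (by rw [hθ]; simp)
      map_mul' := fun a b => hinj (by rw [hθ, map_mul, hθ, hθ]; simp)
      map_zero' := hinj (by rw [hθ]; simp)
      map_add' := fun a b => hinj (by rw [hθ, map_add, hθ, hθ]; simp) }
  have hΘ₁ : ∀ x : L₁, algebraMap Mero Om (Θ₁ x) = Θb x := hθ
  let gK : K →+* L₁ := (algebraMap K M).codRestrict L₁ (fun c => (hmem _).2 (by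
    obtain ⟨γ, hγ⟩ := hKc c
    exact ⟨algebraMap ℂ Mero γ, hγ.symm⟩))
  letI : Algebra K L₁ := gK.toAlgebra
  have hgK : ∀ c : K, ((algebraMap K L₁ c : L₁) : M) = algebraMap K M c := fun c => rfl
  have hεm : (ε : M) ∈ L₁ := (hmem _).2 ⟨_, hΘε.symm⟩
  let ε₁ : L₁ˣ := Units.mk0 ⟨ε, hεm⟩ (by
    intro h
    exact ε.ne_zero (congrArg Subtype.val h))
  have hym : y ∈ L₁ := by
    obtain ⟨m, hm⟩ := hy
    exact (hmem _).2 ⟨m, hm.symm⟩
  have hN₁ : Newt (ev (algebraMap K L₁) (fun _ : Fin 1 => ε₁)) ⟨y, hym⟩ m φ lam c := by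
    refine newt_desc L₁.subtype (RingHom.id K) ?_ ε ε₁ rfl hN ⟨y, hym⟩ rfl φ
      (fun j => lpm_id _) c (fun l => rfl)
    ext c
    rfl
  have hE₁ : Function.Injective (ev (algebraMap K L₁) (fun _ : Fin 1 => ε₁)) := by
    have h1 : L₁.subtype.comp (ev (algebraMap K L₁) (fun _ : Fin 1 => ε₁)) =
        ev (algebraMap K M) (fun _ : Fin 1 => ε) := by
      apply lp_hom_ext
      intro s a
      rw [RingHom.comp_apply, ev_single, ev_single, map_mul]
      congr 1
    intro a b hab
    apply hε
    rw [← h1, RingHom.comp_apply, RingHom.comp_apply, hab]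
  refine an_core (K := K) (L := L₁) (d := 1) one_pos (fun _ => ε₁) Θ₁ ?_ (fun _ => f)
    (fun _ => ⟨hf, hf0⟩) ?_ hfi (newt_zero _ hE₁ hN₁)
  · intro x
    constructor
    · rintro ⟨γ, hγ⟩
      have h1 : Θb (x : M) = cc γ := by
        rw [← hΘ₁, hγ]
        rfl
      obtain ⟨a, ha⟩ := hKx _ γ h1
      exact ⟨a, Subtype.ext (by rw [hgK, ha])⟩
    · rintro ⟨a, rfl⟩
      obtain ⟨γ, hγ⟩ := hKc a
      refine ⟨γ, hinj ?_⟩
      rw [hΘ₁, hgK, hγ]
      rfl
  · intro l
    apply hinj
    rw [hΘ₁]
    exact hΘε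

theorem one_c_c {C L : Type} [Field C] [Field L] [CharZero L] [Algebra C L] (w : Lˣ)
    (hw : Function.Injective (ev (algebraMap C L) (fun _ : Fin 1 => w)))
    (halg : ∀ f : L, ∃ q : Polynomial (Lp C 1),
      q ≠ 0 ∧ q.eval₂ (ev (algebraMap C L) (fun _ : Fin 1 => w)) f = 0)
    (Θ : L →+* Mero) (hΘC : ∀ c : C, ∃ γ : ℂ, Θ (algebraMap C L c) = algebraMap ℂ Mero γ)
    (v : ℂ → ℂ) (hv : Differentiable ℂ v) (hv0 : ∀ z, v z ≠ 0)
    (hΘ : Θ w = mk v (mer_of_diff hv)) (x : L) : IsUQ (Θ x) := by
  have hinjC : Function.Injective (algebraMap ℂ Mero) := (algebraMap ℂ Mero).injective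
  choose κf hκf using hΘC
  let κ₀ : C →+* ℂ :=
    { toFun := κf
      map_one' := hinjC (by rw [← hκf]; simp)
      map_mul' := fun a b => hinjC (by rw [← hκf, map_mul, map_mul, map_mul, hκf, hκf])
      map_zero' := hinjC (by rw [← hκf]; simp)
      map_add' := fun a b => hinjC (by rw [← hκf, map_add, map_add, map_add, hκf, hκf]) }
  have hκ₀ : ∀ c, Θ (algebraMap C L c) = algebraMap ℂ Mero (κ₀ c) := hκf
  by_cases hnc : ∃ c, ∀ z, v z = c
  · -- the constant case
    obtain ⟨c₀, hc₀⟩ := hnc
    have hc0 : c₀ ≠ 0 := by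
      rw [← hc₀ 0]
      exact hv0 0
    have hmk : mk v (mer_of_diff hv) = algebraMap ℂ Mero c₀ := by
      have h1 : v = fun _ => c₀ := funext hc₀
      subst h1
      rfl
    obtain ⟨q, hq, hqx⟩ := halg x
    have hcomp : Θ.comp (ev (algebraMap C L) (fun _ : Fin 1 => w)) =
        (algebraMap ℂ Mero).comp (ev κ₀ (fun _ : Fin 1 => Units.mk0 c₀ hc0)) := by
      apply lp_hom_ext
      intro s a
      rw [RingHom.comp_apply, RingHom.comp_apply, ev_single, ev_single, map_mul, hκ₀, map_mul]
      congr 1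
      unfold mon cu
      rw [map_prod, map_prod]
      refine Finset.prod_congr rfl fun j _ => ?_
      rw [map_zpow₀, map_zpow₀, hΘ, hmk]
      rfl
    have hinj : Function.Injective (ev κ₀ (fun _ : Fin 1 => Units.mk0 c₀ hc0)) := by
      intro a b hab
      apply hw
      apply Θ.injective
      have h2 := congrArg (algebraMap ℂ Mero) hab
      rw [← RingHom.comp_apply, ← RingHom.comp_apply, ← hcomp] at h2
      exact h2
    have hq' : q.map (ev κ₀ (fun _ : Fin 1 => Units.mk0 c₀ hc0)) ≠ 0 :=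
      (Polynomial.map_ne_zero_iff hinj).2 hq
    obtain ⟨γ, hγ⟩ := mero_alg (m := Θ x) _ hq' (by
      rw [Polynomial.aeval_def, Polynomial.eval₂_map, ← hcomp, ← Polynomial.hom_eval₂, hqx,
        map_zero])
    rw [← hγ]
    exact IsUQ.const γ
  · -- the general case
    let M := AlgebraicClosure L
    let _ : Algebra L Om := ((algebraMap Mero Om).comp Θ).toAlgebra
    let Θa : M →ₐ[L] Om := IsAlgClosed.lift
    let Θb : M →+* Om := Θa.toRingHom
    have hΘb : ∀ a : L, Θb (algebraMap L M a) = algebraMap Mero Om (Θ a) := fun a =>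
      Θa.commutes a
    have hCM : ∀ c : C, algebraMap C M c = algebraMap L M (algebraMap C L c) := fun c =>
      IsScalarTower.algebraMap_apply C L M c
    have hκ : ∀ c, Θb (algebraMap C M c) = cc (κ₀ c) := by
      intro c
      rw [hCM, hΘb, hκ₀]
      rfl
    let w' : Mˣ := Units.map (algebraMap L M : L →* M) w
    have hE : (algebraMap L M).comp (ev (algebraMap C L) (fun _ : Fin 1 => w)) =
        ev (algebraMap C M) (fun _ : Fin 1 => w') := by
      apply lp_hom_ext
      intro s a
      rw [RingHom.comp_apply, ev_single, ev_single, map_mul, hCM]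
      congr 1
      unfold mon cu
      rw [map_prod]
      refine Finset.prod_congr rfl fun j _ => ?_
      rw [map_zpow₀]
      rfl
    have hw' : Function.Injective (ev (algebraMap C M) (fun _ : Fin 1 => w')) := by
      rw [← hE]
      exact (algebraMap L M).injective.comp hw
    have htr : Transcendental C (w' : M) := trans_of_inj w' hw'
    have hΘw : Θb w' = algebraMap Mero Om (mk v (mer_of_diff hv)) := by
      have h1 : Θb (w' : M) = algebraMap Mero Om (Θ w) := hΘb w
      rw [h1, hΘ]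
    have hvt : ∀ γ, Θb w' ≠ cc γ := by
      intro γ h
      rw [hΘw] at h
      exact hnc ⟨γ, const_of_mk v hv γ ((algebraMap Mero Om).injective h)⟩
    have halgM : ∀ y : M, ∃ q : Polynomial (Lp C 1), q ≠ 0 ∧
        q.eval₂ (ev (algebraMap C M) (fun _ : Fin 1 => w')) y = 0 := by
      letI : Algebra (Lp C 1) L := (ev (algebraMap C L) (fun _ : Fin 1 => w)).toAlgebra
      haveI : Algebra.IsAlgebraic (Lp C 1) L := ⟨fun f => by
        obtain ⟨q, hq, h⟩ := halg f
        exact ⟨q, hq, h⟩⟩
      intro y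
      have h1 : IsAlgebraic L y := Algebra.IsAlgebraic.isAlgebraic y
      have h2 : IsAlgebraic (Lp C 1) y := h1.restrictScalars (Lp C 1)
      obtain ⟨q, hq, h⟩ := h2
      refine ⟨q, hq, ?_⟩
      rw [← hE]
      exact h
    have hKc : ∀ c : algebraicClosure C M, ∃ γ : ℂ,
        Θb (algebraMap (algebraicClosure C M) M c) = cc γ := by
      intro c
      obtain ⟨p, hp, h⟩ := (mem_algebraicClosure_iff.1 c.2 : IsAlgebraic C (c : M))
      have hp' : p.map κ₀ ≠ 0 := (Polynomial.map_ne_zero_iff (RingHom.injective _)).2 hp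
      refine alg_const' hp' ?_
      rw [Polynomial.eval₂_map]
      have h1 : Polynomial.eval₂ (Θb.comp (algebraMap C M)) (Θb c) p = 0 := by
        rw [← Polynomial.hom_eval₂, ← Polynomial.aeval_def, h, map_zero]
      rw [← h1]
      congr 1
      ext a
      exact (hκ a).symm
    -- the integral case
    have key : ∀ y : L, (ev (algebraMap (algebraicClosure C M) M)
        (fun _ : Fin 1 => w')).IsIntegralElem (algebraMap L M y) → IsUQ (Θ y) := by
      intro y hy
      obtain ⟨e, ε, he, hεw, hεinj, h⟩ := one_alg_c w' htr _ hy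
      have hεe : Θb (ε : M) ^ e = algebraMap Mero Om (mk v (mer_of_diff hv)) := by
        rw [← hΘw, ← hεw, Units.val_pow_eq_pow_val, map_pow]
      obtain ⟨f, hf, hf0, hfe, hΘε⟩ := m_rt v hv hv0 e he _ hεe
      rcases h with ⟨p, hp⟩ | ⟨m, φ, lam, c, p, hN⟩
      · obtain ⟨m', hm', h1⟩ := ev_uq (algebraMap (algebraicClosure C M) M) Θb hKc ε _
          (isUQ_mk f hf hf0) hΘε p
        rw [← hp, hΘb] at h1
        rw [(algebraMap Mero Om).injective h1]
        exact hm'
      · exfalso
        obtain ⟨m', hm', h1⟩ := ev_uq (algebraMap (algebraicClosure C M) M) Θb hKc ε _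
          (isUQ_mk f hf hf0) hΘε p
        refine contra Θb hKc (fun z γ hz => ?_) ε hεinj f hf hf0 hΘε
          (indC_root v f hv e hfe hnc) _ ⟨Θ y - m', ?_⟩ hN
        · have h2 : IsAlgebraic C z := const_alg w' Θb κ₀ hκ hvt halgM z γ hz
          exact ⟨⟨z, mem_algebraicClosure_iff.2 h2⟩, rfl⟩
        · rw [map_sub, map_sub, h1, hΘb]
    obtain ⟨p, hp, hint⟩ := clear_den (ev (algebraMap C L) (fun _ : Fin 1 => w)) hw halg x
    have h1 : IsUQ (Θ (ev (algebraMap C L) (fun _ : Fin 1 => w) p * x)) := by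
      apply key
      obtain ⟨F, hF, hFx⟩ := hint
      refine ⟨F.map (lpm (algebraMap C (algebraicClosure C M))), hF.map _, ?_⟩
      rw [Polynomial.eval₂_map]
      have h2 : (ev (algebraMap (algebraicClosure C M) M) (fun _ : Fin 1 => w')).comp
          (lpm (algebraMap C (algebraicClosure C M))) =
          (algebraMap L M).comp (ev (algebraMap C L) (fun _ : Fin 1 => w)) := by
        rw [hE]
        apply lp_hom_ext
        intro s a
        rw [RingHom.comp_apply, lpm_single, ev_single, ev_single]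
        rfl
      rw [h2, ← Polynomial.hom_eval₂, hFx, map_zero]
    obtain ⟨m', hm', h3⟩ := ev_uq (algebraMap C L) ((algebraMap Mero Om).comp Θ)
      (fun c => ⟨κ₀ c, by rw [RingHom.comp_apply, hκ₀]; rfl⟩) w _ (isUQ_mk v hv hv0)
      (by rw [RingHom.comp_apply, hΘ]) p
    have h4 : Θ (ev (algebraMap C L) (fun _ : Fin 1 => w) p) = m' :=
      (algebraMap Mero Om).injective h3
    have h5 : m' ≠ 0 := by
      rw [← h4, Ne, map_eq_zero_iff _ Θ.injective, map_eq_zero_iff _ hw]
      exact hp
    have h6 : Θ x = m'⁻¹ * Θ (ev (algebraMap C L) (fun _ : Fin 1 => w) p * x) := by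
      rw [map_mul, h4, inv_mul_cancel_left₀ h5]
    rw [h6]
    exact hm'.inv.mul h1

end Pool.Agent.Work.MP_e97a4d_nt.CT
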