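import Pool.Agent.Work.MP_e97a4d_nt.CT.SDefs
import Pool.Agent.Work.MP_e97a4d_nt.CT.Lat
import Pool.Agent.Work.MP_e97a4d_nt.CT.EntA
import Pool.Agent.Work.MP_e97a4d_nt.UG.EntU

/-!
# CT/SRigC (size M): invertible functions with finite stabilizer are constant along entire curves

PROOF. `R := {a | ∃ c : ℂ, Θ (mon (cu z) a) = algebraMap ℂ Mero c}`, a subgroup of `Fin m → ℤ` (`mon_add`, `mon_zero`,
inverses), saturated: if `n • a ∈ R`, `n ≠ 0`, then `Θ (mon (cu z) a) ^ n` is constant, so `Θ (mon (cu z) a)` is algebraic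
over `ℂ`, hence constant (`mero_alg`, UG/EntU). `lat` (CT/Lat) gives `d` and a surjective `π : (Fin m → ℤ) →+ (Fin d → ℤ)`
with kernel `R`. If `d = 0` then `R` is everything and `a := Pi.single l 1` gives the claim.

Let `d > 0`; contradiction. Choose `b : Fin d → (Fin m → ℤ)` with `π (b j) = Pi.single j 1`,
`u j x := mon (fun l => v l x) (b j)`: entire without zeros (`IsUC u`), `Θ (mon (cu z) (b j)) = mk (u j) _`. `IndC u`: if
`mon (fun j => u j x) g = c` for all `x` with `g ≠ 0`, then `Θ` of `mon (cu z) (∑ j, g j • b j)` is constant, so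
`∑ j, g j • b j ∈ R` and `g = π (∑ j, g j • b j) = 0`. (As in CT/AnRed.) By `mero_inj` (CT/EntA) evaluation of
`Lp ℂ d` at `t' j := ` the unit `Θ (mon (cu z) (b j))` of `Mero` is injective. For every `e : Fin m → ℤ`,
`e - ∑ j, (π e j) • b j ∈ R`, so `Θ (mon (cu z) e) = algebraMap ℂ Mero (γ e) * mon (cu t') (π e)` with `γ e : ℂ`.

Let `ξ l := π (Pi.single l 1) ⟨0, _⟩ : ℤ`, so `∑ l, e l * ξ l = π e ⟨0, _⟩` (`e = ∑ l, e l • Pi.single l 1`), and `ξ ≠ 0` because
`π` is surjective. `hz` gives `p, c`. Choose `κ e : ℂ` with `Θ (p e) = algebraMap ℂ Mero (κ e)` (`hK`).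
`q := ∑ e ∈ p.support, single (π e) (κ e * γ e) : Lp ℂ d`; `ev (algebraMap ℂ Mero) t' q = Θ (p.sum ..) = 0`, so `q = 0`.
`q' := ∑ e ∈ p.support with ∑ l, e l * ξ l = c, single (π e) (κ e * γ e)` has the coefficient of `q` at the `g` with
`g 0 = c` and zero at the other `g` (the coefficient at `g` of both sums only involves the `e` with `π e = g`, and
then `∑ l, e l * ξ l = g 0`), so `q' = 0`. Hence `Θ ((p.filter _).sum ..) = ev _ t' q' = 0`, and `Θ` is injective:
contradiction. (`Finsupp.sum`, `Finsupp.support_filter`, `Finsupp.filter_apply_pos`.)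
-/

set_option autoImplicit false

noncomputable section

namespace Pool.Agent.Work.MP_e97a4d_nt.CT

open Pool.Agent.Work.UP Hyp UE

private theorem sr_mon_zsmul {L : Type} [Field L] {m : ℕ} (z : Fin m → Lˣ) (n : ℤ) (a : Fin m → ℤ) :
    mon (cu z) (n • a) = mon (cu z) a ^ n := by
  unfold mon
  rw [← Finset.prod_zpow]
  refine Finset.prod_congr rfl fun i _ => ?_
  rw [Pi.smul_apply, smul_eq_mul, mul_comm, zpow_mul]

private theorem sr_mon_sum {L : Type} [Field L] {m : ℕ} (z : Fin m → Lˣ) {ι : Type} (S : Finset ι)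
    (t : ι → (Fin m → ℤ)) : mon (cu z) (∑ i ∈ S, t i) = ∏ i ∈ S, mon (cu z) (t i) := by
  classical
  induction S using Finset.induction_on with
  | empty => simp [mon_zero]
  | insert a S ha ih => rw [Finset.sum_insert ha, Finset.prod_insert ha, mon_add, ih]

/-- Products of the entire units as elements of the field of meromorphic functions. -/
private theorem sr_rep {m : ℕ} (v : Fin m → ℂ → ℂ) (hv : IsUC v) (t : Fin m → Meroˣ)
    (ht : ∀ l, (t l : Mero) = mk (v l) (mer_of_diff (hv l).1)) (a : Fin m → ℤ) :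
    mon (cu t) a = mk (fun x => mon (fun l => v l x) a) (mer_of_diff (mon_diff v hv a)) := by
  have h1 := mero_ev v hv t ht (AddMonoidAlgebra.single a 1)
  rw [ev_single, map_one, one_mul] at h1
  rw [h1, mk_eq_iff]
  exact Filter.Eventually.of_forall fun x => by
    show ev (RingHom.id ℂ) (uz v hv x) (AddMonoidAlgebra.single a 1) = mon (fun l => v l x) a
    rw [ev_single, map_one, one_mul]
    rfl

/-- An element of the field of meromorphic functions with a constant power is constant. -/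
private theorem sr_root {x : Mero} {n : ℤ} (hn : n ≠ 0) {c : ℂ} (h : x ^ n = algebraMap ℂ Mero c) :
    ∃ c' : ℂ, x = algebraMap ℂ Mero c' := by
  have key : ∀ (k : ℕ) (c : ℂ), 0 < k → x ^ k = algebraMap ℂ Mero c →
      ∃ c' : ℂ, x = algebraMap ℂ Mero c' := by
    intro k c hk hx
    obtain ⟨c', hc'⟩ := mero_alg (m := x) (Polynomial.X ^ k - Polynomial.C c)
      (Polynomial.X_pow_sub_C_ne_zero hk c) (by
        rw [map_sub, map_pow, Polynomial.aeval_X, Polynomial.aeval_C, hx, sub_self])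
    exact ⟨c', hc'.symm⟩
  rcases Int.lt_or_gt_of_ne hn with h1 | h1
  · obtain ⟨k, hk⟩ := Int.eq_ofNat_of_zero_le (a := -n) (by omega)
    refine key k c⁻¹ (by omega) ?_
    have h2 : (k : ℤ) = -n := hk.symm
    rw [← zpow_natCast, h2, zpow_neg, h, map_inv₀]
  · obtain ⟨k, hk⟩ := Int.eq_ofNat_of_zero_le (a := n) (by omega)
    refine key k c (by omega) ?_
    rw [← zpow_natCast, ← hk, h]

theorem rig_c {L : Type} [Field L] (K : Set L) {m : ℕ} (z : Fin m → Lˣ)
    (hz : FinStab K (fun l => (z l : L))) (Θ : L →+* Mero)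
    (hK : ∀ c ∈ K, ∃ γ : ℂ, Θ c = algebraMap ℂ Mero γ) (v : Fin m → ℂ → ℂ) (hv : IsUC v)
    (hΘ : ∀ l, Θ (z l) = mk (v l) (mer_of_diff (hv l).1)) (l : Fin m) :
    ∃ c : ℂ, Θ (z l) = algebraMap ℂ Mero c := by
  classical
  -- the values of the monomials
  have hΘm : ∀ a, Θ (mon (cu z) a) = mon (cu fun l => Units.map Θ.toMonoidHom (z l)) a := by
    intro a
    unfold mon
    rw [map_prod]
    refine Finset.prod_congr rfl fun i _ => ?_
    rw [map_zpow₀]
    rfl
  have hrep : ∀ a, Θ (mon (cu z) a) =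
      mk (fun x => mon (fun l => v l x) a) (mer_of_diff (mon_diff v hv a)) := by
    intro a
    rw [hΘm]
    exact sr_rep v hv _ (fun l => hΘ l) a
  -- the group of the exponents with constant value
  let R : AddSubgroup (Fin m → ℤ) :=
    { carrier := {a | ∃ c : ℂ, Θ (mon (cu z) a) = algebraMap ℂ Mero c}
      add_mem' := by
        rintro a b ⟨c, hc⟩ ⟨c', hc'⟩
        exact ⟨c * c', by rw [mon_add, map_mul, hc, hc', map_mul]⟩
      zero_mem' := ⟨1, by rw [mon_zero, map_one, map_one]⟩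
      neg_mem' := by
        rintro a ⟨c, hc⟩
        refine ⟨c⁻¹, ?_⟩
        have h1 : mon (cu z) (-a) = (mon (cu z) a)⁻¹ := by
          have h2 := sr_mon_zsmul z (-1) a
          rwa [neg_one_zsmul, zpow_neg_one] at h2
        rw [h1, map_inv₀, hc, map_inv₀] }
  have hRm : ∀ a, a ∈ R ↔ ∃ c : ℂ, Θ (mon (cu z) a) = algebraMap ℂ Mero c := fun a => Iff.rfl
  have hRs : ∀ (n : ℤ) (a : Fin m → ℤ), n ≠ 0 → n • a ∈ R → a ∈ R := by
    intro n a hn h
    obtain ⟨c, hc⟩ := (hRm _).1 h
    rw [sr_mon_zsmul, map_zpow₀] at hc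
    exact (hRm _).2 (sr_root hn hc)
  obtain ⟨d, π, hπs, hπ⟩ := lat R hRs
  rcases Nat.eq_zero_or_pos d with hd | hd
  · subst hd
    have h1 : π (Pi.single l 1) = 0 := Subsingleton.elim _ _
    obtain ⟨c, hc⟩ := (hRm _).1 ((hπ _).1 h1)
    rw [mon_single_one] at hc
    exact ⟨c, hc⟩
  exfalso
  choose b hb using fun j : Fin d => hπs (Pi.single j 1)
  let u : Fin d → ℂ → ℂ := fun j x => mon (fun l => v l x) (b j)
  have hu : IsUC u := fun j => ⟨mon_diff v hv (b j), fun x => mon_ne v hv (b j) x⟩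
  let t' : Fin d → Meroˣ := fun j => Units.mk0 (Θ (mon (cu z) (b j))) (by
    rw [map_ne_zero]
    exact mon_ne_zero z (b j))
  have ht : ∀ j, (t' j : Mero) = mk (u j) (mer_of_diff (hu j).1) := fun j => hrep (b j)
  have hBg : ∀ g : Fin d → ℤ, π (∑ j, g j • b j) = g := by
    intro g
    rw [map_sum]
    have h1 : ∀ j, π (g j • b j) = Pi.single j (g j) := by
      intro j
      rw [map_zsmul, hb]
      funext i
      by_cases hij : i = j
      · subst hij
        simp
      · simp [hij]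
    rw [Finset.sum_congr rfl fun j _ => h1 j, Finset.univ_sum_single]
  have hmon : ∀ g : Fin d → ℤ, mon (cu t') g = Θ (mon (cu z) (∑ j, g j • b j)) := by
    intro g
    rw [sr_mon_sum, map_prod]
    unfold mon
    refine Finset.prod_congr rfl fun j _ => ?_
    show Θ (mon (cu z) (b j)) ^ g j = _
    rw [← map_zpow₀, ← sr_mon_zsmul]
    rfl
  have hind : IndC u := by
    intro g hg c
    by_contra hcon
    push Not at hcon
    apply hg
    have h1 : mon (cu t') g = algebraMap ℂ Mero c := by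
      rw [sr_rep u hu t' ht g, ← mk_const, mk_eq_iff]
      exact Filter.Eventually.of_forall fun x => hcon x
    rw [hmon] at h1
    have h2 := (hπ _).2 ((hRm _).2 ⟨c, h1⟩)
    rwa [hBg] at h2
  have hinj := mero_inj u hu hind t' ht
  have hdec : ∀ e : Fin m → ℤ, ∃ γ : ℂ, Θ (mon (cu z) e) =
      algebraMap ℂ Mero γ * mon (cu t') (π e) := by
    intro e
    have h1 : e - ∑ j, π e j • b j ∈ R := by
      rw [← hπ, map_sub, hBg, sub_self]
    obtain ⟨γ, hγ⟩ := (hRm _).1 h1
    refine ⟨γ, ?_⟩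
    rw [hmon, ← hγ, ← map_mul, ← mon_add, sub_add_cancel]
  choose γ hγ using hdec
  let i0 : Fin d := ⟨0, hd⟩
  let ξ : Fin m → ℤ := fun l => π (Pi.single l 1) i0
  have hξe : ∀ e : Fin m → ℤ, ∑ l, e l * ξ l = π e i0 := by
    intro e
    have h1 : e = ∑ l, e l • (Pi.single l (1 : ℤ) : Fin m → ℤ) := by
      funext j
      simp [Finset.sum_apply, Pi.single_apply]
    conv_rhs => rw [h1, map_sum, Finset.sum_apply]
    refine Finset.sum_congr rfl fun l _ => ?_
    rw [map_zsmul, Pi.smul_apply, smul_eq_mul]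
  have hξ : ξ ≠ 0 := by
    intro h0
    obtain ⟨e, he⟩ := hπs (Pi.single i0 1)
    have h1 := hξe e
    rw [he, h0] at h1
    simp at h1
  obtain ⟨p, c, hpK, hp0, hp1⟩ := hz ξ hξ
  choose κ hκ using fun e => hK (p e) (hpK e)
  let Q : Finset (Fin m → ℤ) → Lp ℂ d := fun S =>
    ∑ e ∈ S, AddMonoidAlgebra.single (π e) (κ e * γ e)
  have hQ : ∀ S : Finset (Fin m → ℤ), ev (algebraMap ℂ Mero) t' (Q S) =
      Θ (∑ e ∈ S, p e * mon (fun l => (z l : L)) e) := by
    intro S
    rw [map_sum, map_sum]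
    refine Finset.sum_congr rfl fun e _ => ?_
    rw [ev_single, map_mul, map_mul, hκ]
    have h1 : Θ (mon (fun l => (z l : L)) e) = Θ (mon (cu z) e) := rfl
    rw [h1, hγ]
    ring
  have hq0 : Q p.support = 0 := by
    apply hinj
    rw [hQ, map_zero]
    have h1 : (∑ e ∈ p.support, p e * mon (fun l => (z l : L)) e) = 0 := hp0
    rw [h1, map_zero]
  have hq1 : Q (p.support.filter fun e => ∑ l, e l * ξ l = c) = 0 := by
    have hcoef : ∀ (S : Finset (Fin m → ℤ)) (g : Fin d → ℤ), (Q S).coeff g =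
        ∑ e ∈ S, if π e = g then κ e * γ e else 0 := by
      intro S g
      show (∑ e ∈ S, (AddMonoidAlgebra.single (π e) (κ e * γ e) : Lp ℂ d)).coeff g = _
      rw [AddMonoidAlgebra.coeff_sum, Finsupp.finsetSum_apply]
      refine Finset.sum_congr rfl fun e _ => ?_
      rw [AddMonoidAlgebra.coeff_single, Finsupp.single_apply]
    ext g
    rw [hcoef]
    show _ = (0 : ℂ)
    by_cases hg : g i0 = c
    · have h1 : (Q p.support).coeff g = 0 := by
        rw [hq0]
        rfl
      rw [hcoef] at h1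
      refine Eq.trans ?_ h1
      refine Finset.sum_subset (Finset.filter_subset (fun e => ∑ l, e l * ξ l = c) p.support)
        fun e he he' => ?_
      rw [if_neg]
      intro h2
      apply he'
      rw [Finset.mem_filter]
      refine ⟨he, ?_⟩
      rw [hξe, h2, hg]
    · refine Finset.sum_eq_zero fun e he => ?_
      rw [if_neg]
      intro h2
      apply hg
      rw [← h2, ← hξe]
      exact (Finset.mem_filter.1 he).2
  apply hp1
  have h3 : ((p.filter fun e => ∑ l, e l * ξ l = c).sum fun e a =>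
      a * mon (fun l => (z l : L)) e) =
      ∑ e ∈ p.support.filter (fun e => ∑ l, e l * ξ l = c), p e * mon (fun l => (z l : L)) e := by
    rw [Finsupp.sum, Finsupp.support_filter]
    refine Finset.sum_congr rfl fun e he => ?_
    have h4 : (p.filter fun e => ∑ l, e l * ξ l = c) e = p e :=
      Finsupp.filter_apply_pos (fun e : Fin m → ℤ => ∑ l, e l * ξ l = c) p
        (Finset.mem_filter.1 he).2
    rw [h4]
  rw [h3]
  apply Θ.injective
  rw [← hQ, hq1, map_zero, map_zero]

end Pool.Agent.Work.MP_e97a4d_nt.CT
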