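import Pool.Agent.Work.MP_e97a4d_nt.CT.SConv
import Pool.Agent.Work.MP_e97a4d_nt.CT.SRigC
import Pool.Agent.Work.MP_e97a4d_nt.CT.SOneC
import Pool.Agent.Work.MP_e97a4d_nt.CT.SAnRed
import Pool.Agent.Work.MP_e97a4d_nt.CT.CurveR

/-!
# CT/SCurve: entire curves, relative form
-/

set_option autoImplicit false

noncomputable section

namespace Pool.Agent.Work.MP_e97a4d_nt.CT

open AlgebraicGeometry CategoryTheory IsDedekindDomain NumberField
open Hyp Vp Filter UE
open scoped Topology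

variable {F₀ : Type} [Field F₀] {V V' : Scheme.{0}}

private theorem natCast_inv_mem (z : ℂ) (N : ℕ) : (N : Mero)⁻¹ ∈ Mz z := by
  have h : (N : Mero)⁻¹ = algebraMap ℂ Mero (N : ℂ)⁻¹ := by
    rw [map_inv₀, map_natCast]
  rw [h]
  exact ord_algebraMap z _

/-- Entire units for invertible functions on the cover. -/
private theorem exists_units {V : Scheme.{0}} (v : V) (L : Type) [Field L]
    [Algebra (V.residueField v) L] (Θ' : L →+* Mero)
    (hunit1 : ∀ u : L, UE.IntegralAt v u → ∀ z, Θ' u ∈ Mz z) {k : ℕ} (w : Fin k → L)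
    (hw : ∀ l, w l ∈ UE.unitsAt v L) :
    ∃ (e : Fin k → ℂ → ℂ) (he : Pool.Agent.Work.UP.IsUC e),
      ∀ l, Θ' (w l) = mk (e l) (mer_of_diff (he l).1) := by
  have h1 : ∀ l, ∃ (e : ℂ → ℂ) (he : Differentiable ℂ e), (∀ z, e z ≠ 0) ∧
      mk e (mer_of_diff he) = Θ' (w l) := by
    intro l
    refine exists_unit_rep (Θ' (w l)) (hunit1 _ (hw l).2.1) (fun z => ?_)
      ((map_ne_zero Θ').2 (hw l).1)
    rw [← map_inv₀]
    exact hunit1 _ (hw l).2.2 z
  choose vf hvd hv0 hvm using h1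
  exact ⟨vf, fun l => ⟨hvd l, hv0 l⟩, fun l => (hvm l).symm⟩

/-- Elements algebraic over a ring of elements with constant image have constant image. -/
private theorem const_of_algOver {L : Type} [Field L] (Θ' : L →+* Mero) {m : ℕ} (z : Fin m → L)
    (hz : ∀ l, ∃ c : ℂ, Θ' (z l) = algebraMap ℂ Mero c) (x : L) (hx : x ∈ algOver z) :
    ∃ c : ℂ, Θ' x = algebraMap ℂ Mero c := by
  obtain ⟨p, hp, h⟩ := hx
  have hA : ∀ a : Algebra.adjoin ℤ (Set.range z), ∃ c : ℂ, Θ' (a : L) = algebraMap ℂ Mero c := by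
    rintro ⟨a, ha⟩
    have hle : Algebra.adjoin ℤ (Set.range z) ≤
        subalgebraOfSubring ((algebraMap ℂ Mero).range.comap Θ') := by
      rw [Algebra.adjoin_le_iff]
      rintro _ ⟨l, rfl⟩
      obtain ⟨c, hc⟩ := hz l
      exact ⟨c, hc.symm⟩
    obtain ⟨c, hc⟩ := hle ha
    exact ⟨c, hc.symm⟩
  choose κ₀ hκ₀ using hA
  have hinj : Function.Injective (algebraMap ℂ Mero) := (algebraMap ℂ Mero).injective
  let κ : Algebra.adjoin ℤ (Set.range z) →+* ℂ :=
    { toFun := κ₀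
      map_one' := hinj (by rw [← hκ₀]; simp)
      map_mul' := fun a b => hinj (by rw [← hκ₀]; simp [← hκ₀])
      map_zero' := hinj (by rw [← hκ₀]; simp)
      map_add' := fun a b => hinj (by rw [← hκ₀]; simp [← hκ₀]) }
  have hκ : (algebraMap ℂ Mero).comp κ = Θ'.comp (algebraMap (Algebra.adjoin ℤ (Set.range z)) L) :=
    RingHom.ext fun a => (hκ₀ a).symm
  have hκinj : Function.Injective κ := by
    have h2 : Function.Injective ((algebraMap ℂ Mero).comp κ) := by
      rw [hκ]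
      exact Θ'.injective.comp (FaithfulSMul.algebraMap_injective _ L)
    have h4 : Function.Injective ((algebraMap ℂ Mero) ∘ κ) := h2
    exact h4.of_comp
  have h3 : Θ' x ∈ Set.range (algebraMap ℂ Mero) := by
    refine mero_alg (p.map κ) ?_ ?_
    · rw [Ne, Polynomial.map_eq_zero_iff hκinj]
      exact hp
    · rw [Polynomial.aeval_def, Polynomial.eval₂_map, hκ, ← Polynomial.hom_eval₂,
        ← Polynomial.aeval_def, h, map_zero]
  obtain ⟨c, hc⟩ := h3
  exact ⟨c, hc.symm⟩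

/-- The values of a cover with split boundary. -/
private theorem isUQ_of_splitOver {V : Scheme.{0}} (v : V) (L : Type) [Field L] [CharZero L]
    [Algebra (V.residueField v) L] {m : ℕ} (z : Fin m → L) (hsb : SplitOver v L z)
    (Θ' : L →+* Mero) (hz : ∀ l, ∃ c : ℂ, Θ' (z l) = algebraMap ℂ Mero c)
    (hunit1 : ∀ u : L, UE.IntegralAt v u → ∀ z, Θ' u ∈ Mz z) (x : L) : IsUQ (Θ' x) := by
  obtain ⟨k, w, hw, htb, hs⟩ := hsb
  obtain ⟨C, _, _, hC⟩ := exists_c z
  obtain ⟨vf, hvf, hvm⟩ := exists_units v L Θ' hunit1 w hw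
  have hΘC : ∀ c : C, ∃ γ : ℂ, Θ' (algebraMap C L c) = algebraMap ℂ Mero γ := fun c =>
    const_of_algOver Θ' z hz _ ((hC _).1 ⟨c, rfl⟩)
  have hinj := tb_inj_c z hC (fun l => Units.mk0 (w l) (hw l).1) htb
  have halg := tb_alg_c z hC (fun l => Units.mk0 (w l) (hw l).1) htb
  by_cases hk : k = 1
  · subst hk
    have hw0 : (fun l => Units.mk0 (w l) (hw l).1) = fun _ : Fin 1 => Units.mk0 (w 0) (hw 0).1 := by
      funext l
      rw [Subsingleton.elim l 0]
    rw [hw0] at hinj halg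
    exact one_c_c (Units.mk0 (w 0) (hw 0).1) hinj halg Θ' hΘC (vf 0) (hvf 0).1 (hvf 0).2 (hvm 0) x
  · have h2 : ∃ c : ℂ, Θ' x = algebraMap ℂ Mero c := by
      refine an_red_c (fun l => Units.mk0 (w l) (hw l).1) hinj halg Θ' hΘC vf hvf hvm ?_ x
      intro s ξ hspos hξ0 hξs
      by_cases hk0 : k = 0
      · subst hk0
        exact absurd (Subsingleton.elim _ _) (hξ0 ⟨0, hspos⟩)
      · obtain ⟨i, ν, ν', hne, he, he'⟩ := hs (by omega) s ξ hspos hξ0 hξs
        exact ⟨i, two_of_ext_c (algOver z) hC (fun l => Units.mk0 (w l) (hw l).1) (ξ i) ν ν' hne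
          he he'⟩
    obtain ⟨c, hc⟩ := h2
    rw [hc]
    exact IsUQ.const c

theorem condI_of_toricGen [NumberField F₀] (σ : F₀ →+* ℂ)
    (π : V ⟶ Spec (CommRingCat.of (𝓞 F₀))) [LocallyOfFiniteType π] [QuasiCompact π]
    (i : V' ⟶ V) [IsClosedImmersion i] (hU : ToricGen σ π i) (hGm : CondGm σ π i) :
    CondI σ π i := by
  intro f hfe
  have hf := hfe.1
  by_contra hne
  push Not at hne
  obtain ⟨z₁, hz₁⟩ := hne
  have hz₁0 : ¬ ∃ p : Spec (CommRingCat.of ℂ) ⟶ V', p ≫ i = f z₁ := fun ⟨p, hp⟩ => hz₁ p hp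
  let O : V.Opens := ⟨(Set.range i)ᶜ, i.isClosedEmbedding.isClosed_range.isOpen_compl⟩
  have hz₁' : pt (f z₁) ∈ O := by
    have h := hz₁0
    rw [factors_iff_mem_range] at h
    exact h
  obtain ⟨B, j, g, D, hj, hD, hz, hfg, hhol, hjO⟩ := exists_chart_in hf z₁ O hz₁'
  have h₁ : pt (f z₁) ∈ Set.range j := by
    rw [hfg z₁ hz]
    exact ⟨_, rfl⟩
  set Φ : B →+* Mero := cpHom j hf h₁ with hΦ
  set x : Spec (CommRingCat.of Mero) ⟶ V := Spec.map (CommRingCat.ofHom Φ) ≫ j with hx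
  -- the point `x` is over `rhoM`
  have hstr : x ≫ π = Spec.map (CommRingCat.ofHom (rhoM σ)) := by
    obtain ⟨α, hα⟩ := Spec.map_surjective (j ≫ π)
    rw [hx, Category.assoc, ← hα, ← Spec.map_comp]
    congr 1
    ext r
    show cpHom j hf h₁ (α.hom r) = algebraMap ℂ Mero (σ (algebraMap (𝓞 F₀) F₀ r))
    rw [cpHom_apply, ← mk_const, mk_eq_iff]
    filter_upwards [cp_eventually_hom j hf h₁] with w hw
    obtain ⟨g', hg'⟩ := hw
    rw [cpFun_eq j g' hg']
    have h2 := hf.structural w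
    rw [← hg', Category.assoc, ← hα, ← Spec.map_comp] at h2
    have h3 := congrArg CommRingCat.Hom.hom (Spec.map_injective h2)
    exact RingHom.congr_fun h3 r
  set v : V := x (⊥ : PrimeSpectrum Mero) with hv
  have hvj : v ∈ Set.range j := ⟨_, rfl⟩
  have hvO : v ∈ O := hjO hvj
  have hvi : v ∉ Set.range i := hvO
  obtain ⟨Θ, hΘ⟩ := exists_theta x v rfl
  obtain ⟨α, hα, hαs⟩ := exists_alpha j v hvj
  have hΘα : ∀ b, Θ (α b) = Φ b := theta_alpha j α hα Φ Θ hΘ
  have hΘs : Θ.comp (UE.strAt π v) = rhoM σ := theta_str π x (rhoM σ) hstr v Θ hΘ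
  have hρinj : Function.Injective (rhoM σ) := by
    have e1 : Function.Injective (algebraMap (𝓞 F₀) F₀) := IsFractionRing.injective (𝓞 F₀) F₀
    exact (algebraMap ℂ Mero).injective.comp (σ.injective.comp e1)
  have hsinj : Function.Injective (UE.strAt π v) := by
    have h2 : Function.Injective (Θ.comp (UE.strAt π v)) := by rw [hΘs]; exact hρinj
    exact Function.Injective.of_comp h2
  rcases hU v hvi hsinj with ⟨p, hp, hpv⟩ | ⟨L, hL1, hL2, hfd, hE, m, zf, hzf, hrig, hgen⟩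
  · obtain ⟨p', hp'⟩ := hGm p hp
    exact hvi ⟨p' (⊥ : PrimeSpectrum ℂ), by rw [← hpv, ← hp']; rfl⟩
  have hN0 : ∀ N : ℕ, N ≠ 0 → (N : Mero) ≠ 0 := by
    intro N hN h
    have h1 : algebraMap ℂ Mero (N : ℂ) = algebraMap ℂ Mero 0 := by
      rw [map_natCast, map_zero]
      exact h
    have h2 := (algebraMap ℂ Mero).injective h1
    exact hN (Nat.cast_eq_zero.1 h2)
  have hext : ∀ z, HasExt (Mz z) (Spec.map (CommRingCat.ofHom Θ) ≫ V.fromSpecResidueField v) := by
    intro z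
    rw [hΘ]
    exact cp_hasExt j hf h₁ z
  -- the extension splits
  obtain ⟨N₀, r, η, hN₀, hη, hext0⟩ := etale_ext π v L hE
  obtain ⟨Θ', hΘ'⟩ := split_mero Θ η hη
    (fun z => hext0 Mero Θ (Mz z) (hext z) (hN0 N₀ hN₀) (natCast_inv_mem z N₀))
  -- the values of units
  have hunit1 : ∀ u : L, UE.IntegralAt v u → ∀ z, Θ' u ∈ Mz z := by
    intro u hu z
    obtain ⟨N, hN, h⟩ := integral_ext π v u hu
    exact h Mero Mero (RingHom.id _) Θ Θ' (by rw [hΘ', RingHom.id_comp]) (Mz z) (Mz z)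
      (fun x hx => hx) (hext z) (hN0 N hN) (natCast_inv_mem z N)
  have hcst : ∀ c ∈ UE.constAt π v L, ∃ γ : ℂ, Θ' c = algebraMap ℂ Mero γ := by
    rintro ξ ⟨p, hp, hpc⟩
    have h2 : Θ' ξ ∈ Set.range (algebraMap ℂ Mero) := by
      refine mero_alg (p.map (σ.comp (algebraMap (𝓞 F₀) F₀))) ?_ ?_
      · have e1 : Function.Injective (σ.comp (algebraMap (𝓞 F₀) F₀)) :=
          σ.injective.comp (IsFractionRing.injective (𝓞 F₀) F₀)
        rw [Ne, Polynomial.map_eq_zero_iff e1]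
        rintro rfl
        exact hp (Polynomial.map_zero _)
      · have h3 := congrArg Θ' hpc
        rw [Polynomial.hom_eval₂, ← RingHom.comp_assoc, hΘ', hΘs, map_zero] at h3
        rw [Polynomial.aeval_def, Polynomial.eval₂_map]
        exact h3
    obtain ⟨c, hc⟩ := h2
    exact ⟨c, hc.symm⟩
  have hLc : CharZero L := char_zero_at π v hsinj L
  have hzc : ∀ l, ∃ c : ℂ, Θ' (zf l) = algebraMap ℂ Mero c := by
    obtain ⟨vf, hvf, hvm⟩ := exists_units v L Θ' hunit1 zf hzf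
    intro l
    exact rig_c (UE.constAt π v L) (fun l => Units.mk0 (zf l) (hzf l).1) hrig Θ' hcst vf hvf hvm l
  have hUQ' : ∀ ξ : L, ξ ∈ Subfield.closure (UE.unitsAt v L ∪ algOver zf) → IsUQ (Θ' ξ) := by
    intro ξ hξ
    induction hξ using Subfield.closure_induction with
    | mem ξ hξ =>
      rcases hξ with hξ | hξ
      · refine IsUQ.of_unit (hunit1 ξ hξ.2.1) (fun z => ?_) ((map_ne_zero Θ').2 hξ.1)
        rw [← map_inv₀]
        exact hunit1 _ hξ.2.2 z
      · obtain ⟨c, hc⟩ := const_of_algOver Θ' zf hzc ξ hξ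
        rw [hc]
        exact IsUQ.const c
    | one => rw [map_one]; exact IsUQ.one
    | add x y _ _ h1 h2 => rw [map_add]; exact h1.add h2
    | neg x _ h1 => rw [map_neg]; exact h1.neg
    | inv x _ h1 => rw [map_inv₀]; exact h1.inv
    | mul x y _ _ h1 h2 => rw [map_mul]; exact h1.mul h2
  have hUQ : ∀ ξ : V.residueField v, IsUQ (Θ ξ) := by
    intro ξ
    have h2 : Θ' (algebraMap (V.residueField v) L ξ) = Θ ξ := RingHom.congr_fun hΘ' ξ
    rw [← h2]
    rcases hgen with hgen | hsb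
    · exact hUQ' _ (hgen ξ)
    · exact isUQ_of_splitOver v L zf hsb Θ' hzc hunit1 _
  -- the curve is a unit curve
  have hunitcurve : ∀ a : B, ∃ p ∈ unitRing, ∃ q ∈ unitRing, q ≠ 0 ∧
      ∀ z ∈ D, g z a * q z = p z := by
    intro a
    obtain ⟨p, hp, q, hq, hq0, he⟩ := hUQ (α a)
    refine ⟨p, hp, q, hq, ?_, fun z hzD => ?_⟩
    · rintro rfl
      exact hq0 rfl
    · rw [hΘα, hΦ, cpHom_apply, mk_mul, mk_eq_iff] at he
      have hzj : pt (f z) ∈ Set.range j := by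
        rw [hfg z hzD]
        exact ⟨_, rfl⟩
      have h2 : ∀ᶠ w in 𝓝[≠] z, (cpFun j f a * q) w = p w := eq_nhdsNE he z
      have h3 : Tendsto (cpFun j f a * q) (𝓝[≠] z) (𝓝 ((cpFun j f a * q) z)) :=
        (((cp_analyticAt j hf a hzj).continuousAt.mul
          (unitRing_diff hq z).continuousAt).tendsto.mono_left nhdsWithin_le_nhds)
      have h4 : Tendsto p (𝓝[≠] z) (𝓝 (p z)) :=
        (unitRing_diff hp z).continuousAt.tendsto.mono_left nhdsWithin_le_nhds
      have h5 := tendsto_nhds_unique (h3.congr' h2) h4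
      rw [Pi.mul_apply, cpFun_eq j (g z) (hfg z hzD).symm] at h5
      exact h5
  exact hz₁0 (condIunit_of_condGm σ π i hGm f hfe B j g D hD ⟨z₁, hz⟩ hfg hunitcurve z₁)

end Pool.Agent.Work.MP_e97a4d_nt.CT
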