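import Pool.Agent.Work.MP_e97a4d_nt.CT.SDefs
import Pool.Agent.Work.MP_e97a4d_nt.CT.RConv

/-!
# CT/SOver (size M): the relative form over constants

Let `A := Algebra.adjoin ℤ (Set.range z)`, a subring of `L`.
PROOF of `algOver_eq`. If all `z l` are algebraic over `ℚ`, i.e. over `ℤ`, then `A` is algebraic over `ℤ`, so `x` is
algebraic over `A` iff it is algebraic over `ℤ` iff over `ℚ` (transitivity; `IsFractionRing.isAlgebraic_iff`).
PROOF of `split_of_over`. `algOver z = constAt π v L` by `algOver_eq` and `const_iff` (CT/RConv).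
`IsTranscendenceBasis A w` gives `IsTranscendenceBasis ℤ w`: algebraically independent over `A` implies over `ℤ`
(`AlgebraicIndependent.restrictScalars`), and `L` is algebraic over `ℤ[w]` because it is algebraic over `A[w]` and
`A` is algebraic over `ℤ` (criterion: `isTranscendenceBasis_iff_of_...`, algebraically independent and `L` algebraic
over `Algebra.adjoin ℤ (Set.range w)`; Mathlib/RingTheory/AlgebraicIndependent/TranscendenceBasis).
PROOF of `over_of_split` (`m = 0`): `Set.range z = ∅`, `A = ⊥`, the image of `ℤ`; algebraic over `A` iff algebraic over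
`ℤ`, transcendence basis over `A` iff over `ℤ` (for example because `A` is algebraic over `ℤ`), and
`algOver z = constAt π v L` as above.
PROOF of `toric_of_cover`: by cases; `m := 0`, `z := Fin.elim0`; `FinStab` holds since `ξ ≠ 0` is impossible for
`ξ : Fin 0 → ℤ`; `Subfield.closure_mono` with `constAt π v L ⊆ algOver z`. (`CharZero L`: `char_zero_at`.)
-/

set_option autoImplicit false

noncomputable section

namespace Pool.Agent.Work.MP_e97a4d_nt.CT

open AlgebraicGeometry CategoryTheory NumberField
open Pool.Agent.Work.UP UE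

private theorem alg_adjoin {L : Type} [Field L] [CharZero L] {m : ℕ} (z : Fin m → L)
    (hz : ∀ l, IsAlgebraic ℚ (z l)) : Algebra.IsAlgebraic ℤ (Algebra.adjoin ℤ (Set.range z)) := by
  have hle : Algebra.adjoin ℤ (Set.range z) ≤ Subalgebra.algebraicClosure ℤ L := by
    refine Algebra.adjoin_le ?_
    rintro _ ⟨l, rfl⟩
    exact (IsFractionRing.isAlgebraic_iff ℤ ℚ L).2 (hz l)
  refine ⟨fun a => ?_⟩
  have h1 : IsAlgebraic ℤ (a : L) := hle a.2
  exact (isAlgebraic_algHom_iff (Algebra.adjoin ℤ (Set.range z)).val Subtype.val_injective).1 h1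

private theorem int_inj {L : Type} [Field L] [CharZero L] (A : Subalgebra ℤ L) :
    Function.Injective (algebraMap ℤ A) := by
  intro a b hab
  have h1 : ((algebraMap ℤ A a : A) : L) = ((algebraMap ℤ A b : A) : L) := by rw [hab]
  have h2 : (algebraMap ℤ L) a = (algebraMap ℤ L) b := h1
  rw [eq_intCast, eq_intCast] at h2
  exact_mod_cast h2

private theorem alg_ext {R S A : Type} [CommRing R] [CommRing S] [CommRing A] [Algebra R S]
    [Algebra R A] [Algebra S A] [IsScalarTower R S A] (W : Set A)
    (alg : Algebra.IsAlgebraic (Algebra.adjoin R W) A) :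
    Algebra.IsAlgebraic (Algebra.adjoin S W) A := by
  let Rv := Algebra.adjoin R W
  let Sv := Algebra.adjoin S W
  have le : Rv ≤ Sv.restrictScalars R := Algebra.adjoin_le (by
    intro x hx
    exact Algebra.subset_adjoin hx)
  let _ : Algebra Rv Sv := (Subalgebra.inclusion le).toAlgebra
  have : IsScalarTower Rv Sv A := .of_algebraMap_eq fun _ ↦ rfl
  have : Algebra.IsAlgebraic Rv A := alg
  exact .extendScalars (Subalgebra.inclusion_injective le)

private theorem basis_gen {R S A : Type} [CommRing R] [CommRing S] [CommRing A] [Algebra R S]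
    [Algebra R A] [Algebra S A] [IsScalarTower R S A] [Nontrivial R] [IsDomain S] [IsDomain A]
    [Algebra.IsAlgebraic R S] (hinj : Function.Injective (algebraMap R S)) {k : ℕ}
    (w : Fin k → A) : IsTranscendenceBasis R w ↔ IsTranscendenceBasis S w := by
  constructor
  · intro h
    have h1 : AlgebraicIndependent S w := h.1.extendScalars S
    rw [h1.isTranscendenceBasis_iff_isAlgebraic]
    exact alg_ext (R := R) _ h.isAlgebraic
  · intro h
    have he : AlgebraicIndependent R (Empty.elim : Empty → S) :=
      algebraicIndependent_empty_type_iff.2 hinj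
    have hb : IsTranscendenceBasis R (Empty.elim : Empty → S) := by
      rw [he.isTranscendenceBasis_iff_isAlgebraic]
      refine ⟨fun a => ?_⟩
      refine (Algebra.IsAlgebraic.isAlgebraic (R := R) a).extendScalars ?_
      intro x y hxy
      have h2 := congrArg (algebraMap (Algebra.adjoin R (Set.range (Empty.elim : Empty → S))) S) hxy
      rw [← IsScalarTower.algebraMap_apply, ← IsScalarTower.algebraMap_apply] at h2
      exact hinj h2
    have h3 := hb.sumElim_comp h
    have h4 : (Sum.elim w (algebraMap S A ∘ Empty.elim) : Fin k ⊕ Empty → A) =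
        w ∘ (Equiv.sumEmpty (Fin k) Empty) := by
      funext x
      rcases x with x | x
      · rfl
      · exact x.elim
    rw [h4] at h3
    exact (isTranscendenceBasis_equiv (Equiv.sumEmpty (Fin k) Empty)).1 h3

private theorem basis_iff {L : Type} [Field L] [CharZero L] {k : ℕ} (A : Subalgebra ℤ L)
    [Algebra.IsAlgebraic ℤ A] (w : Fin k → L) :
    IsTranscendenceBasis ℤ w ↔ IsTranscendenceBasis A w :=
  basis_gen (int_inj A) w

theorem algOver_eq {L : Type} [Field L] [CharZero L] {m : ℕ} (z : Fin m → L)
    (hz : ∀ l, IsAlgebraic ℚ (z l)) (x : L) : x ∈ algOver z ↔ IsAlgebraic ℚ x := by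
  have h1 := alg_adjoin z hz
  rw [← IsFractionRing.isAlgebraic_iff ℤ ℚ L]
  constructor
  · intro hx
    have hx' : IsAlgebraic (Algebra.adjoin ℤ (Set.range z)) x := hx
    exact hx'.restrictScalars ℤ
  · intro hx
    exact hx.extendScalars (int_inj _)

theorem split_of_over {F₀ : Type} [Field F₀] [NumberField F₀] {V : Scheme.{0}}
    (π : V ⟶ Spec (CommRingCat.of (𝓞 F₀))) (v : V) (h : Function.Injective (UE.strAt π v))
    (L : Type) [Field L] [Algebra (V.residueField v) L] {m : ℕ} (z : Fin m → L)
    (hz : ∀ l, z l ∈ UE.constAt π v L) (hs : SplitOver v L z) : SplitBoundary π v L := by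
  have := char_zero_at π v h L
  have hzQ : ∀ l, IsAlgebraic ℚ (z l) := fun l => (const_iff π v h L _).1 (hz l)
  have heq : algOver z = constAt π v L := by
    ext x
    rw [algOver_eq z hzQ, const_iff π v h L]
  have h1 := alg_adjoin z hzQ
  obtain ⟨k, w, hu, hb, hv⟩ := hs
  rw [heq] at hv
  exact ⟨k, w, hu, (basis_iff _ w).2 hb, hv⟩

theorem over_of_split {F₀ : Type} [Field F₀] [NumberField F₀] {V : Scheme.{0}}
    (π : V ⟶ Spec (CommRingCat.of (𝓞 F₀))) (v : V) (h : Function.Injective (UE.strAt π v))
    (L : Type) [Field L] [Algebra (V.residueField v) L] (z : Fin 0 → L)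
    (hs : SplitBoundary π v L) : SplitOver v L z := by
  have := char_zero_at π v h L
  have hzQ : ∀ l, IsAlgebraic ℚ (z l) := fun l => l.elim0
  have heq : algOver z = constAt π v L := by
    ext x
    rw [algOver_eq z hzQ, const_iff π v h L]
  have h1 := alg_adjoin z hzQ
  obtain ⟨k, w, hu, hb, hv⟩ := hs
  rw [← heq] at hv
  exact ⟨k, w, hu, (basis_iff _ w).1 hb, hv⟩

theorem toric_of_cover {F₀ : Type} [Field F₀] [NumberField F₀] (σ : F₀ →+* ℂ)
    {V V' : Scheme.{0}} (π : V ⟶ Spec (CommRingCat.of (𝓞 F₀))) (i : V' ⟶ V)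
    (h : CoverGen σ π i) : ToricGen σ π i := by
  intro v hv hinj
  rcases h v hv hinj with h1 | ⟨L, iF, iA, hfin, het, hc⟩
  · exact Or.inl h1
  · refine Or.inr ⟨L, iF, iA, hfin, het, 0, fun l => l.elim0, fun l => l.elim0, ?_, ?_⟩
    · intro ξ hξ
      exact absurd (funext fun l => l.elim0) hξ
    · rcases hc with h2 | h2
      · left
        have := char_zero_at π v hinj L
        intro ξ
        refine Subfield.closure_mono (Set.union_subset_union_right _ ?_) (h2 ξ)
        intro x hx
        rw [algOver_eq _ (fun l => l.elim0)]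
        exact (const_iff π v hinj L _).1 hx
      · right
        exact over_of_split π v hinj L _ h2

end Pool.Agent.Work.MP_e97a4d_nt.CT
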