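import Pool.Agent.Work.MP_e97a4d_nt.CT.ODefs

/-!
# CT/Slope (size M): the slope of the Newton polygon at infinity

PROOF. The set of pairs `(i, e)` with `e` in the support of `ψ i` is finite and not empty; choose `(i₁, e₁)` with
`e₁ 0 / (m - i₁)` (a rational number, `m - i₁ ≥ 1`) maximal. Let `q := m.factorial`; `m - i₁` divides `q` (it is between
`1` and `m`), so `lam := q * e₁ 0 / (m - i₁)` is an integer: `lam * (m - i₁) = q * e₁ 0`. The support of
`dil q (ψ i)` consists of the `q • e`, `e` in the support of `ψ i` (`AddMonoidAlgebra.mapDomain` of an injective map),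
with the same coefficients.
`bd`: `e 0 / (m - i) ≤ e₁ 0 / (m - i₁)` gives `q * e 0 ≤ lam * (m - i)`.
`fac`: the left side is monic of degree `m` over the algebraically closed field `K` (the sum has degree `< m`), so it is
the product of the `X - r` over its multiset of roots, which has `m` elements (`IsAlgClosed.splits`,
`Polynomial.eq_prod_roots_of_monic_of_splits_id`, `Polynomial.splits_iff_card_roots`); enumerate it by `Fin m`
(`Multiset`/`List` of length `m`: `List.ofFn`, `List.get`).
`ne`: suppose all `c l` are equal to `γ`; the polynomial is `(X - γ) ^ m`. Its coefficient at `m - 1` is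
`- (dil q (ψ (m-1))).coeff _ = 0` by `h0`, and it is `- m γ`; so `γ = 0` (characteristic zero) and the polynomial is
`X ^ m`. But its coefficient at `i₁` is `- (dil q (ψ i₁)).coeff (fun _ => lam * (m - i₁)) = - (ψ i₁).coeff e₁ ≠ 0`
(`fun _ => lam * (m - i₁)` is `q • e₁`; functions on `Fin 1`), and `i₁ < m`: contradiction.
-/

set_option autoImplicit false

noncomputable section

namespace Pool.Agent.Work.MP_e97a4d_nt.CT

open Pool.Agent.Work.UP

private theorem smul_inj {q : ℕ} (hq : 0 < q) {a b : Fin 1 → ℤ} (h : q • a = q • b) : a = b := by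
  funext j
  have h1 := congrFun h j
  simp only [Pi.smul_apply, nsmul_eq_mul] at h1
  have h2 : ((q : ℕ) : ℤ) ≠ 0 := by exact_mod_cast hq.ne'
  exact mul_left_cancel₀ h2 h1

private theorem single_coeff {K : Type} [Field K] (a e : Fin 1 → ℤ) (b : K) :
    (AddMonoidAlgebra.single a b : Lp K 1).coeff e = if a = e then b else 0 := by
  classical
  show (Finsupp.single a b) e = _
  rw [Finsupp.single_apply]

private theorem dil_coeff {K : Type} [Field K] {q : ℕ} (hq : 0 < q) (p : Lp K 1) (e : Fin 1 → ℤ) :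
    (dil q p).coeff (q • e) = p.coeff e := by
  induction p using AddMonoidAlgebra.induction_linear with
  | zero => simp
  | add f g hf hg =>
    rw [map_add]
    show (dil q f).coeff (q • e) + (dil q g).coeff (q • e) = f.coeff e + g.coeff e
    rw [hf, hg]
  | single a b =>
    rw [dil_single, single_coeff, single_coeff]
    by_cases h : a = e
    · rw [if_pos h, if_pos (by rw [h])]
    · rw [if_neg h, if_neg (fun h' => h (smul_inj hq h'))]

private theorem dil_coeff' {K : Type} [Field K] (q : ℕ) (p : Lp K 1) (e' : Fin 1 → ℤ)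
    (h : ∀ e, q • e ≠ e') : (dil q p).coeff e' = 0 := by
  induction p using AddMonoidAlgebra.induction_linear with
  | zero => simp
  | add f g hf hg =>
    rw [map_add]
    show (dil q f).coeff e' + (dil q g).coeff e' = 0
    rw [hf, hg, add_zero]
  | single a b => rw [dil_single, single_coeff, if_neg (h a)]

private theorem enum_ms {K : Type} {m : ℕ} (s : Multiset K) (h : s.card = m) :
    ∃ c : Fin m → K, s = (Finset.univ : Finset (Fin m)).val.map c := by
  obtain ⟨l, rfl⟩ := Quot.exists_rep s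
  have h1 : l.length = m := h
  subst h1
  refine ⟨l.get, ?_⟩
  rw [Fin.univ_val_map, List.ofFn_get]
  rfl

theorem slope {K : Type} [Field K] [IsAlgClosed K] [CharZero K] {m : ℕ} (hm : 2 ≤ m)
    (ψ : Fin m → Lp K 1) (h0 : ∀ i : Fin m, (i : ℕ) + 1 = m → ψ i = 0) (hne : ∃ i, ψ i ≠ 0) :
    ∃ (lam : ℤ) (c : Fin m → K),
      (∀ i : Fin m, ∀ e ∈ (dil m.factorial (ψ i)).coeff.support,
        e 0 ≤ lam * ((m : ℤ) - ((i : ℕ) : ℤ))) ∧
      (Polynomial.X ^ m - ∑ i : Fin m,
          Polynomial.C ((dil m.factorial (ψ i)).coeff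
            (fun _ => lam * ((m : ℤ) - ((i : ℕ) : ℤ)))) * Polynomial.X ^ (i : ℕ) =
        ∏ l : Fin m, (Polynomial.X - Polynomial.C (c l))) ∧
      ∃ l l', c l ≠ c l' := by
  classical
  -- the pair of maximal slope
  set S : Finset (Σ _ : Fin m, (Fin 1 → ℤ)) :=
    (Finset.univ : Finset (Fin m)).sigma fun i => (ψ i).coeff.support with hS
  have hSne : S.Nonempty := by
    obtain ⟨i, hi⟩ := hne
    have h1 : (ψ i).coeff.support.Nonempty := by
      rw [Finsupp.support_nonempty_iff]
      intro h2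
      exact hi (AddMonoidAlgebra.coeff_injective h2)
    obtain ⟨e, he⟩ := h1
    exact ⟨⟨i, e⟩, Finset.mem_sigma.2 ⟨Finset.mem_univ i, he⟩⟩
  obtain ⟨⟨i₁, e₁⟩, hm1, hmax⟩ := S.exists_max_image
    (fun x => ((x.2 0 : ℤ) : ℚ) / ((m : ℚ) - ((x.1 : ℕ) : ℚ))) hSne
  have he₁ : e₁ ∈ (ψ i₁).coeff.support := (Finset.mem_sigma.1 hm1).2
  have hi₁ : (i₁ : ℕ) < m := i₁.2
  obtain ⟨k, hk⟩ : m - (i₁ : ℕ) ∣ m.factorial := Nat.dvd_factorial (by omega) (by omega)
  have hq : 0 < m.factorial := Nat.factorial_pos m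
  have hk0 : 0 < k := by
    rcases Nat.eq_zero_or_pos k with h | h
    · rw [h, mul_zero] at hk
      omega
    · exact h
  have hkz : ((m.factorial : ℕ) : ℤ) = ((m : ℤ) - ((i₁ : ℕ) : ℤ)) * (k : ℤ) := by
    rw [hk]
    push_cast [Nat.cast_sub hi₁.le]
    ring
  set lam : ℤ := (k : ℤ) * e₁ 0 with hlam
  have hbd : ∀ i : Fin m, ∀ e ∈ (dil m.factorial (ψ i)).coeff.support,
      e 0 ≤ lam * ((m : ℤ) - ((i : ℕ) : ℤ)) := by
    intro i e he
    obtain ⟨e', rfl⟩ : ∃ e', m.factorial • e' = e := by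
      by_contra hcon
      push Not at hcon
      rw [Finsupp.mem_support_iff] at he
      exact he (dil_coeff' _ _ _ hcon)
    rw [Finsupp.mem_support_iff, dil_coeff hq, ← Finsupp.mem_support_iff] at he
    have h1 := hmax ⟨i, e'⟩ (Finset.mem_sigma.2 ⟨Finset.mem_univ i, he⟩)
    simp only at h1
    have hd1 : (0 : ℚ) < (m : ℚ) - ((i₁ : ℕ) : ℚ) := by
      have : ((i₁ : ℕ) : ℚ) < (m : ℚ) := by exact_mod_cast hi₁
      linarith
    have hd2 : (0 : ℚ) < (m : ℚ) - ((i : ℕ) : ℚ) := by
      have : ((i : ℕ) : ℚ) < (m : ℚ) := by exact_mod_cast i.2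
      linarith
    rw [div_le_div_iff₀ hd2 hd1] at h1
    have h2 : e' 0 * ((m : ℤ) - ((i₁ : ℕ) : ℤ)) ≤ e₁ 0 * ((m : ℤ) - ((i : ℕ) : ℤ)) := by
      exact_mod_cast h1
    have h3 : (m.factorial • e') 0 = ((m.factorial : ℕ) : ℤ) * e' 0 := by
      simp
    rw [h3, hkz, hlam]
    have hkz0 : (0 : ℤ) ≤ (k : ℤ) := Int.natCast_nonneg k
    nlinarith [mul_le_mul_of_nonneg_left h2 hkz0]
  set a : Fin m → K := fun i => (dil m.factorial (ψ i)).coeff
    (fun _ => lam * ((m : ℤ) - ((i : ℕ) : ℤ))) with ha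
  set Q : Polynomial K := ∑ i : Fin m, Polynomial.C (a i) * Polynomial.X ^ (i : ℕ) with hQ
  have hQd : Q.degree < (m : ℕ) := Polynomial.degree_sum_fin_lt a
  have hQc : ∀ i : Fin m, Q.coeff i = a i := by
    intro i
    rw [hQ, Polynomial.finsetSum_coeff, Finset.sum_eq_single i]
    · rw [Polynomial.coeff_C_mul_X_pow, if_pos rfl]
    · intro j _ hj
      rw [Polynomial.coeff_C_mul_X_pow, if_neg]
      intro h
      exact hj (Fin.ext h.symm)
    · intro h
      exact absurd (Finset.mem_univ i) h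
  set P : Polynomial K := Polynomial.X ^ m - Q with hP
  have hPm : P.Monic := by
    refine (Polynomial.monic_X_pow m).sub_of_left ?_
    rwa [Polynomial.degree_X_pow]
  have hPd : P.natDegree = m := by
    have h1 : P.degree = (m : ℕ) := by
      rw [hP, Polynomial.degree_sub_eq_left_of_degree_lt]
      · exact Polynomial.degree_X_pow m
      · rwa [Polynomial.degree_X_pow]
    exact Polynomial.natDegree_eq_of_degree_eq_some h1
  have hspl := IsAlgClosed.splits P
  have hcard : P.roots.card = m := by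
    rw [← hspl.natDegree_eq_card_roots, hPd]
  obtain ⟨c, hc⟩ := enum_ms P.roots hcard
  have hfac : P = ∏ l : Fin m, (Polynomial.X - Polynomial.C (c l)) := by
    conv_lhs => rw [hspl.eq_prod_roots_of_monic hPm, hc]
    rw [Multiset.map_map]
    rfl
  refine ⟨lam, c, hbd, hfac, ?_⟩
  by_contra hcon
  push Not at hcon
  set γ : K := c ⟨0, by omega⟩ with hγ
  have h1 : P = (Polynomial.X - Polynomial.C γ) ^ m := by
    rw [hfac]
    have : ∀ l ∈ (Finset.univ : Finset (Fin m)), (Polynomial.X - Polynomial.C (c l)) =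
        Polynomial.X - Polynomial.C γ := fun l _ => by rw [hcon l ⟨0, by omega⟩]
    rw [Finset.prod_congr rfl this, Finset.prod_const, Finset.card_univ, Fintype.card_fin]
  have hcP : ∀ i : Fin m, P.coeff i = -a i := by
    intro i
    rw [hP, Polynomial.coeff_sub, hQc, Polynomial.coeff_X_pow, if_neg (by omega), zero_sub]
  have hγ0 : γ = 0 := by
    have h2 := hcP ⟨m - 1, by omega⟩
    have h3 : a ⟨m - 1, by omega⟩ = 0 := by
      show (dil m.factorial (ψ ⟨m - 1, by omega⟩)).coeff _ = 0
      rw [h0 ⟨m - 1, by omega⟩ (by show m - 1 + 1 = m; omega), map_zero]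
      rfl
    rw [h3, neg_zero, h1] at h2
    have h4 : ((Polynomial.X - Polynomial.C γ) ^ m).coeff (m - 1) = -γ * (m : K) := by
      have h5 : Polynomial.X - Polynomial.C γ = Polynomial.X + Polynomial.C (-γ) := by
        rw [Polynomial.C_neg, sub_eq_add_neg]
      rw [h5, Polynomial.coeff_X_add_C_pow]
      have h6 : m - (m - 1) = 1 := by omega
      rw [h6, pow_one]
      congr 1
      have h7 : m.choose (m - 1) = m := by
        rw [Nat.choose_symm (by omega : 1 ≤ m), Nat.choose_one_right]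
      rw [h7]
    have h8 : -γ * (m : K) = 0 := by rw [← h4]; exact h2
    rcases mul_eq_zero.1 h8 with h9 | h9
    · exact neg_eq_zero.1 h9
    · exfalso
      have : (m : K) ≠ 0 := Nat.cast_ne_zero.2 (by omega)
      exact this h9
  have h2 := hcP i₁
  rw [h1, hγ0, Polynomial.C_0, sub_zero, Polynomial.coeff_X_pow, if_neg (by omega)] at h2
  have h3 : a i₁ = (ψ i₁).coeff e₁ := by
    show (dil m.factorial (ψ i₁)).coeff (fun _ => lam * ((m : ℤ) - ((i₁ : ℕ) : ℤ))) = _
    have h4 : (fun _ => lam * ((m : ℤ) - ((i₁ : ℕ) : ℤ)) : Fin 1 → ℤ) = m.factorial • e₁ := by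
      funext j
      have hj : j = 0 := Subsingleton.elim _ _
      rw [hj]
      simp only [Pi.smul_apply, nsmul_eq_mul]
      rw [hkz, hlam]
      ring
    rw [h4, dil_coeff hq]
  rw [h3] at h2
  exact (Finsupp.mem_support_iff.1 he₁) (neg_eq_zero.1 h2.symm)

end Pool.Agent.Work.MP_e97a4d_nt.CT
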