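import Pool.Agent.Work.MP_e97a4d_nt.CT.Psi

/-!
# CT/TrivK (size M): the valuation is trivial on the bigger field of constants

`E₀ := ev (algebraMap K₀ L) w`, `E₁ := ev (algebraMap K₁ L) t`, `ξ l := dg η (π (Pi.single l 1))`, so
`dg ξ a = dg η (π a)` (additivity; `a = ∑ l, a l • Pi.single l 1`).

PROOF. `ψ` from CT/Psi. `halg` for `f := algebraMap K₁ L c`: a nonzero `q` over `Lp K₀ k` with
`∑ j, E₀ (q.coeff j) * f ^ j = 0`. Since `E₁ (ψ (q.coeff j) * lC (c ^ j)) = E₀ (q.coeff j) * f ^ j` and `E₁` is injective,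
`∑ j, ψ (q.coeff j) * lC (c ^ j) = 0` in `Lp K₁ d`.
For `g : Fin d → ℤ` let `p j g := ∑ a ∈ (q.coeff j).coeff.support with π a = g, single a ((q.coeff j).coeff a)`, the part
of `q.coeff j` with exponents over `g`, so `q.coeff j` is the sum of the `p j g` over finitely many `g`, and
`ψ (p j g) = single g (b j g)` with `b j g : K₁` the coefficient of `ψ (q.coeff j)` at `g` (second property of `ψ`;
the parts for `g' ≠ g` have no exponent `g`). Taking the coefficient at `g`: `∑ j, b j g * c ^ j = 0` in `K₁`.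
Multiply by `mon (cu t) g`: `∑ j, E₀ (p j g) * f ^ j = 0` (since `E₀ (p j g) = E₁ (single g (b j g))`).
As `q ≠ 0`, choose `j₀` and an exponent of `q.coeff j₀`, and let `g` be its image under `π`: `p j₀ g ≠ 0`.
For every `j`, `p j g = 0` or `ν (E₀ (p j g)) = exp (dg η g)` by `hν` (all exponents `a` of `p j g` have
`dg ξ a = dg η g`; `IsGreatest` of a set with one element).
So `f ≠ 0` is a root of `∑ j, β j X^j`, where every `ν (β j)` is `0` or `M := exp (dg η g) > 0`, not all zero. If
`ν f > 1` let `J` be the largest `j` with `β j ≠ 0`: `ν (β J f^J) = M ν(f)^J` is larger than all other terms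
(`M ν(f)^j`, `j < J`), so the sum has this value and is not zero (`Valuation.map_sum_lt`,
`Valuation.map_add_eq_of_lt_left`): contradiction. If `ν f < 1` take the smallest `j`. So `ν f = 1`.
-/

set_option autoImplicit false

noncomputable section

namespace Pool.Agent.Work.MP_e97a4d_nt.CT

open Pool.Agent.Work.UP

/-- A root of a polynomial whose coefficients are zero or have all the same value has value one. -/
private theorem val_one {L : Type} [Field L] (ν : Valuation L NNReal) {f : L} (hf : f ≠ 0)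
    (S : Finset ℕ) (β : ℕ → L) (M : NNReal) (hM : M ≠ 0)
    (hβ : ∀ j ∈ S, β j = 0 ∨ ν (β j) = M) (hne : ∃ j ∈ S, β j ≠ 0)
    (h0 : ∑ j ∈ S, β j * f ^ j = 0) : ν f = 1 := by
  classical
  by_contra h1
  have hνf : 0 < ν f := pos_iff_ne_zero.2 ((Valuation.ne_zero_iff ν).2 hf)
  obtain ⟨J, hJ, hmax⟩ := (S.filter fun j => β j ≠ 0).exists_max_image (fun j => ν f ^ j) (by
    obtain ⟨j, hj, hj'⟩ := hne
    exact ⟨j, Finset.mem_filter.2 ⟨hj, hj'⟩⟩)
  rw [Finset.mem_filter] at hJ
  have hinj : Function.Injective (fun j : ℕ => ν f ^ j) := pow_right_injective₀ hνf h1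
  have hJM : ν (β J) = M := (hβ J hJ.1).resolve_left hJ.2
  have htop : 0 < ν (β J * f ^ J) := by
    rw [map_mul, map_pow, hJM]
    exact mul_pos (pos_iff_ne_zero.2 hM) (pow_pos hνf _)
  have hrest : ν (∑ j ∈ S.erase J, β j * f ^ j) < ν (β J * f ^ J) := by
    refine Valuation.map_sum_lt ν htop.ne' fun j hj => ?_
    rw [Finset.mem_erase] at hj
    rcases hβ j hj.2 with hz | hz
    · rw [hz, zero_mul, map_zero]
      exact htop
    · have hjne : β j ≠ 0 := by
        intro h
        rw [h, map_zero] at hz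
        exact hM hz.symm
      have h2 : ν f ^ j < ν f ^ J :=
        lt_of_le_of_ne (hmax j (Finset.mem_filter.2 ⟨hj.2, hjne⟩)) fun h => hj.1 (hinj h)
      rw [map_mul, map_mul, map_pow, map_pow, hz, hJM]
      exact mul_lt_mul_of_pos_left h2 (pos_iff_ne_zero.2 hM)
  rw [← Finset.add_sum_erase S _ hJ.1] at h0
  have h3 : β J * f ^ J = -∑ j ∈ S.erase J, β j * f ^ j := eq_neg_of_add_eq_zero_left h0
  rw [h3, Valuation.map_neg] at hrest
  exact lt_irrefl _ hrest

/-- The value of the pulled back linear form. -/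
private theorem dg_pull {k d : ℕ} (π : (Fin k → ℤ) →+ (Fin d → ℤ)) (η : Fin d → ℝ)
    (a : Fin k → ℤ) : dg (fun l => dg η (π (Pi.single l 1))) a = dg η (π a) := by
  classical
  have ha : a = ∑ i, a i • (Pi.single i (1 : ℤ) : Fin k → ℤ) := by
    funext j
    simp [Finset.sum_apply, Pi.single_apply]
  have h1 : π a = ∑ i, a i • π (Pi.single i 1) := by
    conv_lhs => rw [ha]
    rw [map_sum]
    exact Finset.sum_congr rfl fun i _ => map_zsmul π _ _
  rw [h1]
  unfold dg
  simp only [Finset.sum_apply, Pi.smul_apply, smul_eq_mul, Int.cast_sum, Int.cast_mul]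
  simp only [Finset.mul_sum, Finset.sum_mul]
  rw [Finset.sum_comm]
  refine Finset.sum_congr rfl fun i _ => Finset.sum_congr rfl fun j _ => ?_
  ring

theorem triv_k {K₀ K₁ L : Type} [Field K₀] [Field K₁] [Field L] [Algebra K₀ L] [Algebra K₁ L]
    {k d : ℕ} (w : Fin k → Lˣ) (t : Fin d → Lˣ)
    (hsub : ∀ c : K₀, ∃ c' : K₁, algebraMap K₁ L c' = algebraMap K₀ L c)
    (π : (Fin k → ℤ) →+ (Fin d → ℤ))
    (hπ : ∀ a, ∃ c : K₁, mon (cu w) a = algebraMap K₁ L c * mon (cu t) (π a))
    (hE : Function.Injective (ev (algebraMap K₁ L) t))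
    (halg : ∀ f : L, ∃ q : Polynomial (Lp K₀ k), q ≠ 0 ∧ q.eval₂ (ev (algebraMap K₀ L) w) f = 0)
    (η : Fin d → ℝ) (ν : Valuation L NNReal)
    (hν : DegVal (ev (algebraMap K₀ L) w) (fun l => dg η (π (Pi.single l 1))) ν) (c : K₁)
    (hc : c ≠ 0) : ν (algebraMap K₁ L c) = 1 := by
  classical
  obtain ⟨ψ, hψ1, -, hψ3⟩ := psi w t hsub π hπ
  set f : L := algebraMap K₁ L c with hfdef
  have hf : f ≠ 0 := by
    rw [hfdef, Ne, map_eq_zero]
    exact hc
  obtain ⟨q, hq0, hq⟩ := halg f
  rw [Polynomial.eval₂_eq_sum_range] at hq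
  set S := Finset.range (q.natDegree + 1) with hS
  -- the relation over the bigger field of constants
  have hrel : ∑ j ∈ S, ψ (q.coeff j) * lC (c ^ j) = 0 := by
    apply hE
    rw [map_sum, map_zero, ← hq]
    refine Finset.sum_congr rfl fun j _ => ?_
    rw [map_mul, hψ1, ev_lC, map_pow]
  -- an exponent
  obtain ⟨a₀, ha₀⟩ : ∃ a₀, a₀ ∈ (q.coeff q.natDegree).coeff.support := by
    by_contra hcon
    push Not at hcon
    have h1 : (q.coeff q.natDegree).coeff = 0 := by
      ext a
      have := hcon a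
      rw [Finsupp.notMem_support_iff] at this
      rw [this]
      rfl
    rw [AddMonoidAlgebra.coeff_eq_zero] at h1
    exact hq0 (Polynomial.leadingCoeff_eq_zero.1 h1)
  set g : Fin d → ℤ := π a₀ with hg
  have hcoef : ∑ j ∈ S, (ψ (q.coeff j)).coeff g * c ^ j = 0 := by
    have h1 := congrArg (fun P : Lp K₁ d => P.coeff g) hrel
    simp only [AddMonoidAlgebra.coeff_sum, Finsupp.finsetSum_apply] at h1
    rw [← show ((0 : Lp K₁ d).coeff g) = 0 from rfl, ← h1]
    refine Finset.sum_congr rfl fun j _ => ?_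
    exact (AddMonoidAlgebra.coeff_mul_single_zero (ψ (q.coeff j)) (c ^ j) g).symm
  -- the part over g
  set prt : ℕ → Lp K₀ k := fun j =>
    AddMonoidAlgebra.ofCoeff ((q.coeff j).coeff.filter fun a => π a = g) with hprt
  have hpart : ∀ j, ψ (prt j) = AddMonoidAlgebra.single g ((ψ (q.coeff j)).coeff g) := by
    intro j
    set rst : Lp K₀ k := AddMonoidAlgebra.ofCoeff ((q.coeff j).coeff.filter fun a => ¬ π a = g)
      with hrst
    have hsum : q.coeff j = prt j + rst := by
      rw [← AddMonoidAlgebra.coeff_inj, AddMonoidAlgebra.coeff_add]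
      exact (Finsupp.filter_add_filter_not (q.coeff j).coeff fun a => π a = g).symm
    have h1 : (ψ rst).coeff g = 0 := by
      by_contra hcon
      obtain ⟨a, ha, ha2⟩ := hψ3 rst g (Finsupp.mem_support_iff.2 hcon)
      have h2 : a ∈ ((q.coeff j).coeff.filter fun a => ¬ π a = g).support := ha
      rw [Finsupp.support_filter, Finset.mem_filter] at h2
      exact h2.2 ha2
    have h3 : (ψ (q.coeff j)).coeff g = (ψ (prt j)).coeff g := by
      rw [hsum, map_add, AddMonoidAlgebra.coeff_add, Finsupp.add_apply, h1, add_zero]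
    rw [h3, ← AddMonoidAlgebra.coeff_inj, AddMonoidAlgebra.coeff_single]
    ext e
    by_cases he : g = e
    · subst he
      rw [Finsupp.single_eq_same]
    · rw [Finsupp.single_eq_of_ne (Ne.symm he)]
      by_contra hcon
      obtain ⟨a, ha, ha2⟩ := hψ3 (prt j) e (Finsupp.mem_support_iff.2 hcon)
      have h2 : a ∈ ((q.coeff j).coeff.filter fun a => π a = g).support := ha
      rw [Finsupp.support_filter, Finset.mem_filter] at h2
      exact he (h2.2.symm.trans ha2)
  have hval : ∀ j, prt j ≠ 0 →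
      (ν (ev (algebraMap K₀ L) w (prt j)) : ℝ) = Real.exp (dg η g) := by
    intro j hj
    obtain ⟨e, he, he2⟩ := (hν (prt j) hj).1
    have h2 : e ∈ ((q.coeff j).coeff.filter fun a => π a = g).support := he
    rw [Finsupp.support_filter, Finset.mem_filter] at h2
    rw [← he2]
    show Real.exp (dg (fun l => dg η (π (Pi.single l 1))) e) = _
    rw [dg_pull, h2.2]
  have hne : prt q.natDegree ≠ 0 := by
    intro h
    have h1 : (prt q.natDegree).coeff a₀ = 0 := by
      rw [h]
      rfl
    have h2 : (prt q.natDegree).coeff a₀ = (q.coeff q.natDegree).coeff a₀ :=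
      Finsupp.filter_apply_pos (fun a => π a = g) _ rfl
    rw [h2] at h1
    exact (Finsupp.mem_support_iff.1 ha₀) h1
  have hM : ν (ev (algebraMap K₀ L) w (prt q.natDegree)) ≠ 0 := by
    intro h
    have h1 := hval _ hne
    rw [h] at h1
    exact (Real.exp_pos _).ne' (by rw [← h1]; rfl)
  refine val_one ν hf S (fun j => ev (algebraMap K₀ L) w (prt j))
    (ν (ev (algebraMap K₀ L) w (prt q.natDegree))) hM (fun j _ => ?_)
    ⟨q.natDegree, Finset.mem_range.2 (Nat.lt_succ_self _), fun h => hM (by rw [h, map_zero])⟩ ?_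
  · by_cases hj : prt j = 0
    · left
      show ev (algebraMap K₀ L) w (prt j) = 0
      rw [hj, map_zero]
    · right
      show ν (ev (algebraMap K₀ L) w (prt j)) = _
      exact NNReal.coe_injective ((hval j hj).trans (hval _ hne).symm)
  · show ∑ j ∈ S, ev (algebraMap K₀ L) w (prt j) * f ^ j = 0
    have h1 : ∀ j ∈ S, ev (algebraMap K₀ L) w (prt j) * f ^ j =
        mon (cu t) g * algebraMap K₁ L ((ψ (q.coeff j)).coeff g * c ^ j) := by
      intro j _
      rw [← hψ1, hpart, ev_single, map_mul, map_pow, hfdef]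
      ring
    rw [Finset.sum_congr rfl h1, ← Finset.mul_sum, ← map_sum, hcoef, map_zero, mul_zero]

end Pool.Agent.Work.MP_e97a4d_nt.CT
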